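import Mathlib

/-!
A cover of all valuation rings by finite sets gives a uniform bound at complex points.
-/

namespace Pool.Agent.Lib.MP_5c318e_ag

variable {F : Type*} [Field F]

/-- A complex point of a field: a local subring with its evaluation map. -/
structure CPt (F : Type*) [Field F] where
  R : Subring F
  ev : F → ℂ
  one : ev 1 = 1
  add : ∀ a ∈ R, ∀ b ∈ R, ev (a + b) = ev a + ev b
  mul : ∀ a ∈ R, ∀ b ∈ R, ev (a * b) = ev a * ev b
  inv : ∀ a ∈ R, ev a ≠ 0 → a⁻¹ ∈ R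

namespace CPt

variable (x : CPt F)

theorem zero : x.ev 0 = 0 := by
  have := x.add 0 x.R.zero_mem 0 x.R.zero_mem
  simpa using this

theorem neg {a : F} (ha : a ∈ x.R) : x.ev (-a) = -x.ev a := by
  have := x.add a ha (-a) (x.R.neg_mem ha)
  rw [add_neg_cancel, x.zero] at this
  linear_combination -this

theorem ev_inv {a : F} (ha : a ∈ x.R) (h : x.ev a ≠ 0) : x.ev a⁻¹ = (x.ev a)⁻¹ := by
  have h0 : a ≠ 0 := fun e => h (e ▸ x.zero)
  have := x.mul a ha a⁻¹ (x.inv a ha h)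
  rw [mul_inv_cancel₀ h0, x.one] at this
  exact (eq_inv_of_mul_eq_one_right this.symm)

/-- the evaluation as a ring map -/
def hom : x.R →+* ℂ where
  toFun a := x.ev a
  map_one' := x.one
  map_mul' a b := x.mul a a.2 b b.2
  map_zero' := x.zero
  map_add' a b := x.add a a.2 b b.2

/-- every ring map from a subring to the complex numbers comes from a point -/
theorem exists_of_hom (A : Subring F) (f : A →+* ℂ) :
    ∃ x : CPt F, A ≤ x.R ∧ ∀ a : A, x.ev a = f a := by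
  classical
  have hp : (RingHom.ker f).IsPrime := RingHom.ker_isPrime f
  let L := LocalSubring.ofPrime A (RingHom.ker f)
  have hu : ∀ y : (RingHom.ker f).primeCompl, IsUnit (f y) := fun y =>
    isUnit_iff_ne_zero.2 y.2
  let g : L.toSubring →+* ℂ := IsLocalization.lift (M := (RingHom.ker f).primeCompl) hu
  have hg : ∀ a : A, g (algebraMap A L.toSubring a) = f a := fun a => IsLocalization.lift_eq hu a
  have hle : A ≤ L.toSubring := LocalSubring.le_ofPrime A _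
  refine ⟨⟨L.toSubring, fun a => if h : a ∈ L.toSubring then g ⟨a, h⟩ else 0, ?_, ?_, ?_, ?_⟩,
    hle, fun a => ?_⟩
  · rw [dif_pos L.toSubring.one_mem]; exact map_one g
  · intro a ha b hb
    rw [dif_pos ha, dif_pos hb, dif_pos (add_mem ha hb), ← map_add]; rfl
  · intro a ha b hb
    rw [dif_pos ha, dif_pos hb, dif_pos (mul_mem ha hb), ← map_mul]; rfl
  · intro a ha h
    rw [dif_pos ha] at h
    obtain ⟨⟨p, q⟩, e⟩ := IsLocalization.surj (RingHom.ker f).primeCompl (⟨a, ha⟩ : L.toSubring)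
    have h1 : f p ≠ 0 := by
      rw [← hg, ← e, map_mul, hg]
      exact mul_ne_zero h q.2
    have h2 : IsUnit (algebraMap A L.toSubring p) :=
      IsLocalization.map_units L.toSubring (⟨p, h1⟩ : (RingHom.ker f).primeCompl)
    rw [← e] at h2
    obtain ⟨b, hb⟩ := (isUnit_of_mul_isUnit_left h2).exists_right_inv
    have hb' : a * (b : F) = 1 := congrArg Subtype.val hb
    rw [← eq_inv_of_mul_eq_one_right hb']
    exact b.2
  · change (if h : (a : F) ∈ L.toSubring then g ⟨a, h⟩ else 0) = f a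
    rw [dif_pos (hle a.2), ← hg]; rfl

end CPt

section cert

variable {k I : Type*} [Field k] [Algebra k F]

/-- the hypotheses on a point: the constants of `c` are at most `B`, the `γ i` at least `ρ` -/
def CovHyp (γ : I → F) (s : Finset I) (c : Finset k) (x : CPt F) (B ρ : ℝ) : Prop :=
  1 ≤ B ∧ 1 ≤ ρ ∧ (∀ a ∈ c, algebraMap k F a ∈ x.R ∧ ‖x.ev (algebraMap k F a)‖ ≤ B) ∧
    ∀ i ∈ s, γ i ∈ x.R ∧ ρ ≤ ‖x.ev (γ i)‖

/-- `a` is bounded by `n B ^ n / ρ ^ e` under the hypotheses -/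
def CovBd (k : Type*) [Field k] [Algebra k F] (γ : I → F) (e : ℕ) (a : F) : Prop :=
  ∃ (s : Finset I) (c : Finset k) (n : ℕ), ∀ (x : CPt F) (B ρ : ℝ), CovHyp γ s c x B ρ →
    a ∈ x.R ∧ ‖x.ev a‖ * ρ ^ e ≤ n * B ^ n

theorem CovHyp.mono {γ : I → F} {s s' : Finset I} {c c' : Finset k} {x : CPt F} {B ρ : ℝ}
    (h : CovHyp γ s' c' x B ρ) (hs : s ⊆ s') (hc : c ⊆ c') : CovHyp γ s c x B ρ :=
  ⟨h.1, h.2.1, fun a ha => h.2.2.1 a (hc ha), fun i hi => h.2.2.2 i (hs hi)⟩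

theorem npow_mono {B : ℝ} (hB : 1 ≤ B) {n m : ℕ} (h : n ≤ m) : (n : ℝ) * B ^ n ≤ m * B ^ m :=
  mul_le_mul (Nat.cast_le.2 h) (pow_le_pow_right₀ hB h) (by positivity) (by positivity)

theorem CovBd.add {γ : I → F} {e : ℕ} {a b : F} (ha : CovBd k γ e a) (hb : CovBd k γ e b) :
    CovBd k γ e (a + b) := by
  classical
  obtain ⟨s, c, n, h⟩ := ha
  obtain ⟨s', c', n', h'⟩ := hb
  refine ⟨s ∪ s', c ∪ c', n + n', fun x B ρ H => ?_⟩
  obtain ⟨h1, h2⟩ := h x B ρ (H.mono Finset.subset_union_left Finset.subset_union_left)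
  obtain ⟨h3, h4⟩ := h' x B ρ (H.mono Finset.subset_union_right Finset.subset_union_right)
  refine ⟨add_mem h1 h3, ?_⟩
  have hρ : 0 ≤ ρ ^ e := pow_nonneg (zero_le_one.trans H.2.1) _
  have hB := H.1
  have e1 : B ^ n ≤ B ^ (n + n') := pow_le_pow_right₀ hB (Nat.le_add_right _ _)
  have e2 : B ^ n' ≤ B ^ (n + n') := pow_le_pow_right₀ hB (Nat.le_add_left _ _)
  rw [x.add a h1 b h3]
  calc ‖x.ev a + x.ev b‖ * ρ ^ e ≤ (‖x.ev a‖ + ‖x.ev b‖) * ρ ^ e :=
        mul_le_mul_of_nonneg_right (norm_add_le _ _) hρ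
    _ ≤ n * B ^ n + n' * B ^ n' := by rw [add_mul]; exact add_le_add h2 h4
    _ ≤ n * B ^ (n + n') + n' * B ^ (n + n') :=
        add_le_add (mul_le_mul_of_nonneg_left e1 (by positivity))
          (mul_le_mul_of_nonneg_left e2 (by positivity))
    _ = _ := by push_cast; ring

theorem CovBd.mul {γ : I → F} {e e' : ℕ} {a b : F} (ha : CovBd k γ e a) (hb : CovBd k γ e' b) :
    CovBd k γ (e + e') (a * b) := by
  classical
  obtain ⟨s, c, n, h⟩ := ha
  obtain ⟨s', c', n', h'⟩ := hb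
  refine ⟨s ∪ s', c ∪ c', n * n' + (n + n'), fun x B ρ H => ?_⟩
  obtain ⟨h1, h2⟩ := h x B ρ (H.mono Finset.subset_union_left Finset.subset_union_left)
  obtain ⟨h3, h4⟩ := h' x B ρ (H.mono Finset.subset_union_right Finset.subset_union_right)
  refine ⟨mul_mem h1 h3, ?_⟩
  have hρ : 0 ≤ ρ := zero_le_one.trans H.2.1
  have hB := H.1
  rw [x.mul a h1 b h3, norm_mul]
  calc ‖x.ev a‖ * ‖x.ev b‖ * ρ ^ (e + e') = (‖x.ev a‖ * ρ ^ e) * (‖x.ev b‖ * ρ ^ e') := by ring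
    _ ≤ (n * B ^ n) * (n' * B ^ n') := mul_le_mul h2 h4 (by positivity) (by positivity)
    _ = ((n * n' : ℕ) : ℝ) * B ^ (n + n') := by push_cast; ring
    _ ≤ _ := mul_le_mul (Nat.cast_le.2 (Nat.le_add_right _ _))
        (pow_le_pow_right₀ hB (Nat.le_add_left _ _)) (by positivity) (by positivity)

theorem CovBd.const (γ : I → F) (a : k) : CovBd k γ 0 (algebraMap k F a) :=
  ⟨∅, {a}, 1, fun x B ρ H => by
    obtain ⟨h1, h2⟩ := H.2.2.1 a (Finset.mem_singleton_self a)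
    exact ⟨h1, by simpa using h2⟩⟩

theorem CovBd.inv (γ : I → F) (i : I) : CovBd k γ 1 (γ i)⁻¹ :=
  ⟨{i}, ∅, 1, fun x B ρ H => by
    obtain ⟨h1, h2⟩ := H.2.2.2 i (Finset.mem_singleton_self i)
    have hρ : 0 < ρ := zero_lt_one.trans_le H.2.1
    have h3 : 0 < ‖x.ev (γ i)‖ := hρ.trans_le h2
    have h4 : x.ev (γ i) ≠ 0 := norm_pos_iff.1 h3
    refine ⟨x.inv _ h1 h4, ?_⟩
    rw [x.ev_inv h1 h4, norm_inv, pow_one, pow_one, Nat.cast_one, one_mul]
    refine le_trans ?_ H.1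
    rw [inv_mul_le_iff₀ h3, mul_one]; exact h2⟩

theorem CovBd.down {γ : I → F} {e : ℕ} {a : F} (ha : CovBd k γ (e + 1) a) : CovBd k γ e a := by
  obtain ⟨s, c, n, h⟩ := ha
  refine ⟨s, c, n, fun x B ρ H => ?_⟩
  obtain ⟨h1, h2⟩ := h x B ρ H
  exact ⟨h1, le_trans (mul_le_mul_of_nonneg_left (pow_le_pow_right₀ H.2.1 (Nat.le_succ e))
    (norm_nonneg _)) h2⟩

theorem CovBd.zero (γ : I → F) (e : ℕ) : CovBd k γ e 0 :=
  ⟨∅, ∅, 0, fun x B ρ _ => ⟨x.R.zero_mem, by simp [x.zero]⟩⟩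

/-- the certificate for one choice function -/
theorem cov_one (γ : I → F) (h0 : ∀ i, γ i ≠ 0)
    (h : ∀ O : ValuationSubring F, (∀ c : k, algebraMap k F c ∈ O) → ∃ i, γ i ∈ O) :
    CovBd k γ 1 1 := by
  let A : Subalgebra k F := Algebra.adjoin k (Set.range fun i => (γ i)⁻¹)
  have hA : ∀ a ∈ A, CovBd k γ 0 a := fun a ha => by
    induction ha using Algebra.adjoin_induction with
    | mem y hy => obtain ⟨i, rfl⟩ := hy; exact (CovBd.inv γ i).down
    | algebraMap r => exact CovBd.const γ r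
    | add y z _ _ hy hz => exact hy.add hz
    | mul y z _ _ hy hz => exact hy.mul hz
  have hm : ∀ i, (γ i)⁻¹ ∈ A.toSubring := fun i => Algebra.subset_adjoin ⟨i, rfl⟩
  let J : Ideal A.toSubring := Ideal.span (Set.range fun i => (⟨(γ i)⁻¹, hm i⟩ : A.toSubring))
  have hJ : ∀ a ∈ J, CovBd k γ 1 (a : F) := fun a ha => by
    induction ha using Submodule.span_induction with
    | mem y hy => obtain ⟨i, rfl⟩ := hy; exact CovBd.inv γ i
    | zero => exact CovBd.zero γ 1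
    | add y z _ _ hy hz => exact hy.add hz
    | smul r y _ hy => exact (hA r r.2).mul (e' := 1) hy
  by_cases hT : J = ⊤
  · exact hJ 1 (hT ▸ Submodule.mem_top)
  obtain ⟨O, hO, hO'⟩ := Ideal.image_subset_nonunits_valuationSubring J hT
  obtain ⟨i, hi⟩ := h O fun c => hO (A.algebraMap_mem c)
  have := O.inv_mem_nonunits_iff.1 (hO' ⟨_, Ideal.subset_span ⟨i, rfl⟩, rfl⟩)
  exact (this.elim (h0 i) fun h' => h' hi).elim

/-- If every valuation ring over `k` contains one of the finite sets `G i`, finitely many of them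
suffice, and at every complex point one of the `G i` is bounded by a polynomial in the size of
finitely many constants. -/
theorem cover_cert (G : I → Finset F)
    (h : ∀ O : ValuationSubring F, (∀ c : k, algebraMap k F c ∈ O) → ∃ i, ∀ g ∈ G i, g ∈ O) :
    ∃ (s : Finset I) (c : Finset k) (n : ℕ), ∀ (x : CPt F) (B : ℝ), 1 ≤ B →
      (∀ a ∈ c, algebraMap k F a ∈ x.R ∧ ‖x.ev (algebraMap k F a)‖ ≤ B) →
      (∀ i ∈ s, ∀ g ∈ G i, g ∈ x.R) → ∃ i ∈ s, ∀ g ∈ G i, ‖x.ev g‖ ≤ n * B ^ n := by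
  classical
  by_cases hz : ∃ i, ∀ g ∈ G i, g = 0
  · obtain ⟨i, hi⟩ := hz
    exact ⟨{i}, ∅, 0, fun x B _ _ _ => ⟨i, Finset.mem_singleton_self i, fun g hg => by
      simp [hi g hg, x.zero]⟩⟩
  push Not at hz
  let T : I → Type _ := fun i => {g // g ∈ (G i).erase 0}
  let _ : ∀ i, TopologicalSpace (T i) := fun _ => ⊥
  have : ∀ i, DiscreteTopology (T i) := fun _ => ⟨rfl⟩
  have : ∀ i, Finite (T i) := fun i => inferInstanceAs (Finite {g // g ∈ (G i).erase 0})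
  have H : ∀ γ : ∀ i, T i, CovBd k (fun i => ((γ i).1 : F)) 1 1 := fun γ =>
    cov_one _ (fun i => Finset.ne_of_mem_erase (γ i).2) fun O hO => by
      obtain ⟨i, hi⟩ := h O hO
      exact ⟨i, hi _ (Finset.mem_of_mem_erase (γ i).2)⟩
  choose s c n hb using H
  let U : (∀ i, T i) → Set (∀ i, T i) := fun γ => Set.pi (s γ : Set I) fun i => {γ i}
  have hU : ∀ γ, IsOpen (U γ) := fun γ =>
    isOpen_set_pi (s γ).finite_toSet fun i _ => isOpen_discrete _
  obtain ⟨t, ht⟩ := isCompact_univ.elim_finite_subcover U hU fun γ _ =>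
    Set.mem_iUnion.2 ⟨γ, fun i _ => rfl⟩
  refine ⟨t.biUnion s, t.biUnion c, t.sup n + 1, fun x B hB hc hG => ?_⟩
  by_contra hne
  push Not at hne
  have hN : (1 : ℝ) ≤ ((t.sup n + 1 : ℕ) : ℝ) * B ^ (t.sup n + 1) :=
    one_le_mul_of_one_le_of_one_le (Nat.one_le_cast.2 (Nat.le_add_left _ _)) (one_le_pow₀ hB)
  have hex : ∀ i, ∃ g : T i, i ∈ t.biUnion s →
      ((t.sup n + 1 : ℕ) : ℝ) * B ^ (t.sup n + 1) < ‖x.ev g.1‖ := fun i => by
    by_cases hi : i ∈ t.biUnion s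
    · obtain ⟨g, hg, hg'⟩ := hne i hi
      refine ⟨⟨g, Finset.mem_erase.2 ⟨fun e => ?_, hg⟩⟩, fun _ => hg'⟩
      rw [e, x.zero, norm_zero] at hg'
      linarith
    · obtain ⟨g, hg, hg'⟩ := hz i
      exact ⟨⟨g, Finset.mem_erase.2 ⟨hg', hg⟩⟩, fun h' => (hi h').elim⟩
  choose γ hγ using hex
  obtain ⟨δ, hδ, hm⟩ := Set.mem_iUnion₂.1 (ht (Set.mem_univ γ))
  have := (hb δ x B _ ⟨hB, hN, fun a ha => hc a (Finset.mem_biUnion.2 ⟨δ, hδ, ha⟩),
    fun i hi => by
      have hi' : i ∈ t.biUnion s := Finset.mem_biUnion.2 ⟨δ, hδ, hi⟩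
      have e : γ i = δ i := hm i hi
      beta_reduce
      rw [← e]
      exact ⟨hG i hi' _ (Finset.mem_of_mem_erase (γ i).2), (hγ i hi').le⟩⟩).2
  rw [x.one, norm_one, one_mul, pow_one] at this
  have h1 : n δ ≤ t.sup n := Finset.le_sup hδ
  have h2 := npow_mono hB h1
  have h3 : ((t.sup n : ℕ) : ℝ) * B ^ (t.sup n) < ((t.sup n + 1 : ℕ) : ℝ) * B ^ (t.sup n + 1) := by
    have hp : 0 < B ^ (t.sup n + 1) := by positivity
    calc ((t.sup n : ℕ) : ℝ) * B ^ (t.sup n) ≤ ((t.sup n : ℕ) : ℝ) * B ^ (t.sup n + 1) :=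
          mul_le_mul_of_nonneg_left (pow_le_pow_right₀ hB (Nat.le_succ _)) (by positivity)
      _ < _ := mul_lt_mul_of_pos_right (by exact_mod_cast Nat.lt_succ_self _) hp
  linarith

end cert

end Pool.Agent.Lib.MP_5c318e_ag
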