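import Pool.Agent.Lib.MP_5c318e_ag.S.ADefs
import Pool.Agent.Lib.MP_5c318e_ag.S.SCov

/-! Points: topology, the local ring at a point, values of field elements, gluing of charts. -/

set_option autoImplicit false

namespace Pool.Agent.Lib.MP_5c318e_ag

open Set Filter Topology

noncomputable section

namespace Pt

section top

variable {O R : Type} [CommRing O] [Algebra ℂ O] [CommRing R] [Algebra ℂ R]

@[ext] theorem ext {p q : Pt O} (h : ∀ a, p a = q a) : p = q := DFunLike.ext p q h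

@[simp] theorem hom_apply (p : Pt O) (a : O) : p.hom a = p a := rfl

@[simp] theorem res_apply (inc : R →ₐ[ℂ] O) (p : Pt O) (a : R) : p.res inc a = p (inc a) := rfl

@[simp] theorem map_alg (p : Pt O) (c : ℂ) : p (algebraMap ℂ O c) = c := p.hom.commutes c

/-- an algebra map as a point -/
def mk (f : O →ₐ[ℂ] ℂ) : Pt O := f

@[simp] theorem mk_apply (f : O →ₐ[ℂ] ℂ) (a : O) : mk f a = f a := rfl

theorem isInducing : IsInducing fun p : Pt O => (p : O → ℂ) := ⟨rfl⟩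

theorem continuous_apply (φ : O) : Continuous fun p : Pt O => p φ :=
  (_root_.continuous_apply φ).comp isInducing.continuous

theorem tendsto_iff {α : Type*} {l : Filter α} {g : α → Pt O} {p : Pt O} :
    Tendsto g l (𝓝 p) ↔ ∀ f : O, Tendsto (fun a => g a f) l (𝓝 (p f)) := by
  rw [isInducing.tendsto_nhds_iff, tendsto_pi_nhds]; rfl

theorem continuous_iff {α : Type*} [TopologicalSpace α] {g : α → Pt O} :
    Continuous g ↔ ∀ f : O, Continuous fun a => g a f := by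
  rw [isInducing.continuous_iff, continuous_pi_iff]; rfl

theorem continuousAt_iff {α : Type*} [TopologicalSpace α] {g : α → Pt O} {x : α} :
    ContinuousAt g x ↔ ∀ f : O, ContinuousAt (fun a => g a f) x := tendsto_iff

theorem continuousOn_iff {α : Type*} [TopologicalSpace α] {g : α → Pt O} {s : Set α} :
    ContinuousOn g s ↔ ∀ f : O, ContinuousOn (fun a => g a f) s := by
  rw [isInducing.continuousOn_iff, continuousOn_pi]; rfl

theorem continuous_res (inc : R →ₐ[ℂ] O) : Continuous (Pt.res inc) :=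
  continuous_iff.2 fun f => continuous_apply (inc f)

theorem isClosedEmbedding : IsClosedEmbedding fun p : Pt O => (p : O → ℂ) := by
  refine ⟨⟨isInducing, DFunLike.coe_injective⟩, ?_⟩
  have e : range (fun p : Pt O => (p : O → ℂ)) = (⋂ a, ⋂ b, {u : O → ℂ | u (a + b) = u a + u b}) ∩
      ((⋂ a, ⋂ b, {u : O → ℂ | u (a * b) = u a * u b}) ∩ ⋂ c, {u | u (algebraMap ℂ O c) = c}) := by
    ext u
    simp only [mem_range, mem_inter_iff, mem_iInter, mem_ofPred_eq]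
    constructor
    · rintro ⟨p, rfl⟩
      exact ⟨map_add p, map_mul p, p.map_alg⟩
    · rintro ⟨h1, h2, h3⟩
      exact ⟨mk ⟨⟨⟨⟨u, by simpa using h3 1⟩, h2⟩, by simpa using h3 0, h1⟩, h3⟩, rfl⟩
  rw [e]
  refine (isClosed_iInter fun a => isClosed_iInter fun b => isClosed_eq ?_ ?_).inter
    ((isClosed_iInter fun a => isClosed_iInter fun b => isClosed_eq ?_ ?_).inter
      (isClosed_iInter fun c => isClosed_eq ?_ ?_)) <;> fun_prop

instance : T2Space (Pt O) := isClosedEmbedding.isEmbedding.t2Space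

/-- the values on generators determine the topology -/
theorem isEmbedding_gens {κ : Type} (g : κ → O) (hg : Algebra.adjoin ℂ (range g) = ⊤) :
    IsEmbedding fun (p : Pt O) (i : κ) => p (g i) := by
  have hs : ∀ a : O, ∃ P : MvPolynomial κ ℂ, ∀ p : Pt O,
      p a = MvPolynomial.eval (fun i => p (g i)) P := fun a => by
    have : a ∈ (MvPolynomial.aeval g : MvPolynomial κ ℂ →ₐ[ℂ] O).range := by
      rw [← Algebra.adjoin_range_eq_range_aeval, hg]; trivial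
    obtain ⟨P, rfl⟩ := this
    exact ⟨P, fun p => (MvPolynomial.comp_aeval_apply g p.hom P).trans
      (DFunLike.congr_fun (MvPolynomial.coe_aeval_eq_eval _) P)⟩
  refine ⟨isInducing_iff_nhds.2 fun p => le_antisymm ?_ ?_, fun p q h => ext fun a => ?_⟩
  · exact tendsto_iff_comap.1 (continuous_pi fun i => continuous_apply (g i)).continuousAt
  · refine tendsto_id'.1 (tendsto_iff.2 fun a => ?_)
    obtain ⟨P, hP⟩ := hs a
    simp only [id, hP]
    exact (MvPolynomial.continuous_eval P).continuousAt.tendsto.comp tendsto_comap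
  · obtain ⟨P, hP⟩ := hs a
    rw [hP, hP, show (fun i => p (g i)) = fun i => q (g i) from h]

theorem exists_gens (O : Type) [CommRing O] [Algebra ℂ O] [h : Algebra.FiniteType ℂ O] :
    ∃ (n : ℕ) (g : Fin n → O), Algebra.adjoin ℂ (range g) = ⊤ := by
  obtain ⟨s, hs⟩ := h.out
  refine ⟨s.card, fun i => s.equivFin.symm i, ?_⟩
  rw [← hs]
  congr 1
  ext a
  exact ⟨fun ⟨i, e⟩ => e ▸ (s.equivFin.symm i).2, fun ha => ⟨s.equivFin ⟨a, ha⟩, by simp⟩⟩

instance [Algebra.FiniteType ℂ O] : SecondCountableTopology (Pt O) := by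
  obtain ⟨n, g, hg⟩ := exists_gens O
  exact (isEmbedding_gens g hg).secondCountableTopology

theorem isCompact_gens {κ : Type} (g : κ → O) (hg : Algebra.adjoin ℂ (range g) = ⊤) (r : ℝ) :
    IsCompact {p : Pt O | ∀ i, ‖p (g i)‖ ≤ r} := by
  have hb : ∀ a : O, ∃ c : ℝ, ∀ p : Pt O, (∀ i, ‖p (g i)‖ ≤ r) → ‖p a‖ ≤ c := fun a => by
    have ha : a ∈ Algebra.adjoin ℂ (range g) := hg ▸ Algebra.mem_top
    induction ha using Algebra.adjoin_induction with
    | mem x hx =>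
      obtain ⟨i, rfl⟩ := hx
      exact ⟨r, fun p h => h i⟩
    | algebraMap c => exact ⟨‖c‖, fun p _ => by simp⟩
    | add x y _ _ hx hy =>
      obtain ⟨c, hc⟩ := hx
      obtain ⟨d, hd⟩ := hy
      exact ⟨c + d, fun p h => by
        rw [map_add]; exact (norm_add_le _ _).trans (add_le_add (hc p h) (hd p h))⟩
    | mul x y _ _ hx hy =>
      obtain ⟨c, hc⟩ := hx
      obtain ⟨d, hd⟩ := hy
      exact ⟨c * d, fun p h => by
        rw [map_mul, norm_mul]
        exact mul_le_mul (hc p h) (hd p h) (norm_nonneg _) ((norm_nonneg _).trans (hc p h))⟩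
  choose c hc using hb
  have h1 := isClosedEmbedding.isCompact_preimage
    (isCompact_univ_pi fun a : O => isCompact_closedBall (0 : ℂ) (c a))
  refine h1.of_isClosed_subset ?_ fun p hp a _ => by simpa using hc a p hp
  rw [ofPred_forall]
  exact isClosed_iInter fun i => isClosed_le (continuous_apply _).norm continuous_const

instance [Algebra.FiniteType ℂ O] : SigmaCompactSpace (Pt O) := by
  obtain ⟨n, g, hg⟩ := exists_gens O
  refine ⟨fun k : ℕ => {p : Pt O | ∀ i, ‖p (g i)‖ ≤ k}, fun k => isCompact_gens g hg k, ?_⟩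
  refine eq_univ_of_forall fun p => ?_
  obtain ⟨k, hk⟩ := exists_nat_ge ‖fun i => p (g i)‖
  exact mem_iUnion.2 ⟨k, fun i => (norm_le_pi_norm (fun i => p (g i)) i).trans hk⟩

theorem isClosed_fibre (inc : R →ₐ[ℂ] O) (b : Pt R) : IsClosed {p : Pt O | p.res inc = b} :=
  isClosed_eq (continuous_res inc) continuous_const

instance [Algebra.FiniteType ℂ O] (inc : R →ₐ[ℂ] O) (b : Pt R) :
    SigmaCompactSpace {p : Pt O // p.res inc = b} :=
  (isClosed_fibre inc b).sigmaCompactSpace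

/-- Nullstellensatz: a proper ideal has a zero -/
theorem exists_zero [Algebra.FiniteType ℂ O] {I : Ideal O} (hI : I ≠ ⊤) :
    ∃ p : Pt O, ∀ a ∈ I, p a = 0 := by
  obtain ⟨m, hm, hle⟩ := Ideal.exists_le_maximal I hI
  let _ := Ideal.Quotient.field m
  have : Module.Finite ℂ (O ⧸ m) := finite_of_finite_type_of_isJacobsonRing ℂ (O ⧸ m)
  let e : (O ⧸ m) →ₐ[ℂ] ℂ := IsAlgClosed.lift
  exact ⟨mk (e.comp (Ideal.Quotient.mkₐ ℂ m)), fun a ha => by
    simp [Ideal.Quotient.eq_zero_iff_mem.2 (hle ha)]⟩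

/-- Nullstellensatz: a point of `V(I)` off `h = 0` -/
theorem exists_zero_ne [Algebra.FiniteType ℂ O] {I : Ideal O} {h : O} (hh : h ∉ I.radical) :
    ∃ p : Pt O, (∀ a ∈ I, p a = 0) ∧ p h ≠ 0 := by
  have : IsJacobsonRing O := isJacobsonRing_of_finiteType (A := ℂ)
  rw [Ideal.radical_eq_jacobson, Ideal.jacobson, Ideal.mem_sInf] at hh
  push Not at hh
  obtain ⟨m, ⟨h1, h2⟩, h3⟩ := hh
  obtain ⟨p, hp⟩ := exists_zero h2.ne_top
  refine ⟨p, fun a ha => hp a (h1 ha), fun e => h3 ?_⟩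
  have : m = RingHom.ker p := h2.eq_of_le (RingHom.ker_ne_top p) fun a ha => hp a ha
  rw [this]; exact e

end top

section ev

variable {F : Type} [Field F] [Algebra ℂ F] {A A' : Subalgebra ℂ F} (p : Pt A)

theorem ev_eq {φ : F} {a b : A} (hb : p b ≠ 0) (h : φ * b = a) : p.ev φ = p a / p b := by
  have hr : p.Reg φ := ⟨a, b, hb, h⟩
  rw [ev, dif_pos hr]
  obtain ⟨h1, h2⟩ := hr.choose_spec.choose_spec
  generalize hr.choose_spec.choose = d at h1 h2
  generalize hr.choose = c at h2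
  have : c * b = a * d := Subtype.ext (by push_cast; rw [← h2, ← h]; ring)
  rw [div_eq_div_iff h1 hb, ← map_mul, ← map_mul, this]

theorem ev_of_not {φ : F} (h : ¬ p.Reg φ) : p.ev φ = 0 := dif_neg h

theorem reg_coe (a : A) : p.Reg (a : F) := ⟨a, 1, by simp, by simp⟩

theorem reg_of_mem {a : F} (ha : a ∈ A) : p.Reg a := p.reg_coe ⟨a, ha⟩

@[simp] theorem ev_coe (a : A) : p.ev (a : F) = p a := by
  simpa using p.ev_eq (φ := a) (a := a) (b := 1) (by simp) (by simp)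

theorem ev_of_mem {a : F} (ha : a ∈ A) : p.ev a = p ⟨a, ha⟩ := p.ev_coe ⟨a, ha⟩

variable {p}

theorem ev_mul (p : Pt A) {φ ψ : F} (h : p.Reg φ) (h' : p.Reg ψ) :
    p.Reg (φ * ψ) ∧ p.ev (φ * ψ) = p.ev φ * p.ev ψ := by
  obtain ⟨a, b, hb, e⟩ := h
  obtain ⟨c, d, hd, e'⟩ := h'
  have h1 : p (b * d) ≠ 0 := by rw [map_mul]; exact mul_ne_zero hb hd
  have h2 : φ * ψ * (b * d : A) = (a * c : A) := by push_cast; rw [← e, ← e']; ring
  refine ⟨⟨_, _, h1, h2⟩, ?_⟩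
  rw [p.ev_eq h1 h2, p.ev_eq hb e, p.ev_eq hd e', map_mul, map_mul, div_mul_div_comm]

theorem ev_add (p : Pt A) {φ ψ : F} (h : p.Reg φ) (h' : p.Reg ψ) :
    p.Reg (φ + ψ) ∧ p.ev (φ + ψ) = p.ev φ + p.ev ψ := by
  obtain ⟨a, b, hb, e⟩ := h
  obtain ⟨c, d, hd, e'⟩ := h'
  have h1 : p (b * d) ≠ 0 := by rw [map_mul]; exact mul_ne_zero hb hd
  have h2 : (φ + ψ) * (b * d : A) = (a * d + b * c : A) := by push_cast; rw [← e, ← e']; ring
  refine ⟨⟨_, _, h1, h2⟩, ?_⟩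
  rw [p.ev_eq h1 h2, p.ev_eq hb e, p.ev_eq hd e', map_add, map_mul, map_mul, map_mul,
    div_add_div _ _ hb hd]

theorem reg_inv (p : Pt A) {φ : F} (h : p.Reg φ) (h0 : p.ev φ ≠ 0) : p.Reg φ⁻¹ := by
  obtain ⟨a, b, hb, e⟩ := h
  rw [p.ev_eq hb e] at h0
  have ha : p a ≠ 0 := fun e => h0 (by rw [e, zero_div])
  have hφ : φ ≠ 0 := fun e' => ha (by
    have : a = 0 := Subtype.ext (by rw [← e, e', zero_mul]; rfl)
    rw [this, map_zero])
  exact ⟨b, a, ha, by rw [← e, ← mul_assoc, inv_mul_cancel₀ hφ, one_mul]⟩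

/-- the local ring at a point -/
def loc (p : Pt A) : Subalgebra ℂ F where
  carrier := {φ | p.Reg φ}
  mul_mem' h h' := (p.ev_mul h h').1
  add_mem' h h' := (p.ev_add h h').1
  algebraMap_mem' c := p.reg_of_mem (A.algebraMap_mem c)

theorem mem_loc {φ : F} : φ ∈ p.loc ↔ p.Reg φ := Iff.rfl

theorem le_loc (p : Pt A) : A ≤ p.loc := fun _ h => p.reg_of_mem h

@[simp] theorem ev_alg (p : Pt A) (c : ℂ) : p.ev (algebraMap ℂ F c) = c :=
  (p.ev_coe (algebraMap ℂ A c)).trans (p.map_alg c)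

@[simp] theorem ev_one (p : Pt A) : p.ev 1 = 1 := by simpa using p.ev_alg 1

@[simp] theorem ev_zero (p : Pt A) : p.ev 0 = 0 := by simpa using p.ev_alg 0

/-- evaluation on the local ring -/
def evh (p : Pt A) : p.loc →ₐ[ℂ] ℂ where
  toFun φ := p.ev φ
  map_one' := p.ev_one
  map_mul' φ ψ := (p.ev_mul φ.2 ψ.2).2
  map_zero' := p.ev_zero
  map_add' φ ψ := (p.ev_add φ.2 ψ.2).2
  commutes' c := p.ev_alg c

@[simp] theorem evh_apply (p : Pt A) (φ : p.loc) : p.evh φ = p.ev φ := rfl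

/-- the point as a `CPt` -/
def cp (p : Pt A) : CPt F where
  R := p.loc.toSubring
  ev := p.ev
  one := p.ev_one
  add _ h _ h' := (p.ev_add h h').2
  mul _ h _ h' := (p.ev_mul h h').2
  inv _ h h0 := p.reg_inv h h0

theorem ev_inv (p : Pt A) {φ : F} (h : p.Reg φ) (h0 : p.ev φ ≠ 0) : p.ev φ⁻¹ = (p.ev φ)⁻¹ :=
  p.cp.ev_inv h h0

theorem ev_pow (p : Pt A) {φ : F} (h : p.Reg φ) (n : ℕ) :
    p.Reg (φ ^ n) ∧ p.ev (φ ^ n) = p.ev φ ^ n :=
  ⟨p.loc.pow_mem h n, map_pow p.evh ⟨φ, h⟩ n⟩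

theorem ev_div (p : Pt A) {φ ψ : F} (h : p.Reg φ) (h' : p.Reg ψ) (h0 : p.ev ψ ≠ 0) :
    p.Reg (φ / ψ) ∧ p.ev (φ / ψ) = p.ev φ / p.ev ψ := by
  rw [div_eq_mul_inv, div_eq_mul_inv, ← p.ev_inv h' h0]
  exact p.ev_mul h (p.reg_inv h' h0)

theorem ev_zpow (p : Pt A) {φ : F} (h : p.Reg φ) (h0 : p.ev φ ≠ 0) (n : ℤ) :
    p.Reg (φ ^ n) ∧ p.ev (φ ^ n) = p.ev φ ^ n := by
  obtain ⟨k, rfl | rfl⟩ := n.eq_nat_or_neg
  · simpa using p.ev_pow h k
  · have h1 := p.ev_pow (p.reg_inv h h0) k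
    rw [p.ev_inv h h0] at h1
    simpa using h1

theorem ev_sum (p : Pt A) {κ : Type*} (s : Finset κ) {φ : κ → F} (h : ∀ i ∈ s, p.Reg (φ i)) :
    p.Reg (∑ i ∈ s, φ i) ∧ p.ev (∑ i ∈ s, φ i) = ∑ i ∈ s, p.ev (φ i) := by
  classical
  induction s using Finset.induction_on with
  | empty => exact ⟨p.loc.zero_mem, by simp⟩
  | insert i s hi ih =>
    have h1 := ih fun j hj => h j (Finset.mem_insert_of_mem hj)
    rw [Finset.sum_insert hi, Finset.sum_insert hi, ← h1.2]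
    exact p.ev_add (h i (Finset.mem_insert_self i s)) h1.1

theorem ev_prod (p : Pt A) {κ : Type*} (s : Finset κ) {φ : κ → F} (h : ∀ i ∈ s, p.Reg (φ i)) :
    p.Reg (∏ i ∈ s, φ i) ∧ p.ev (∏ i ∈ s, φ i) = ∏ i ∈ s, p.ev (φ i) := by
  classical
  induction s using Finset.induction_on with
  | empty => exact ⟨p.loc.one_mem, by simp⟩
  | insert i s hi ih =>
    have h1 := ih fun j hj => h j (Finset.mem_insert_of_mem hj)
    rw [Finset.prod_insert hi, Finset.prod_insert hi, ← h1.2]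
    exact p.ev_mul (h i (Finset.mem_insert_self i s)) h1.1

theorem ev_det (p : Pt A) {κ : Type} [Fintype κ] [DecidableEq κ] {N : Matrix κ κ F}
    (h : ∀ i j, p.Reg (N i j)) :
    p.Reg N.det ∧ p.ev N.det = (Matrix.of fun i j => p.ev (N i j)).det := by
  let N' : Matrix κ κ p.loc := Matrix.of fun i j => ⟨N i j, h i j⟩
  have e : N.det = (N'.det : F) := (p.loc.val.map_det N').symm
  rw [e]
  exact ⟨N'.det.2, p.evh.map_det N'⟩

theorem isOpen_reg (φ : F) : IsOpen {p : Pt A | p.Reg φ} := by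
  refine isOpen_iff_mem_nhds.2 fun p ⟨a, b, hb, e⟩ => ?_
  exact ((continuous_apply b).continuousAt.eventually_ne hb).mono fun q hq => ⟨a, b, hq, e⟩

theorem Reg.eventually {φ : F} (h : p.Reg φ) : ∀ᶠ q in 𝓝 p, q.Reg φ := (isOpen_reg φ).mem_nhds h

theorem Reg.ev_eventuallyEq {φ : F} (h : p.Reg φ) :
    ∃ a b : A, p b ≠ 0 ∧ ∀ᶠ q in 𝓝 p, q.ev φ = q a / q b := by
  obtain ⟨a, b, hb, e⟩ := h
  exact ⟨a, b, hb, ((continuous_apply b).continuousAt.eventually_ne hb).mono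
    fun q hq => q.ev_eq hq e⟩

theorem Reg.continuousAt {φ : F} (h : p.Reg φ) : ContinuousAt (fun q : Pt A => q.ev φ) p := by
  obtain ⟨a, b, hb, e⟩ := h.ev_eventuallyEq
  exact ((continuous_apply a).continuousAt.div (continuous_apply b).continuousAt hb).congr
    (EventuallyEq.symm e)

theorem measurable_ev (φ : F) : Measurable fun p : Pt A => p.ev φ := by
  classical
  have h1 : ContinuousOn (fun q : Pt A => q.ev φ) {p | p.Reg φ} :=
    fun p hp => (Reg.continuousAt hp).continuousWithinAt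
  have h2 := h1.measurable_piecewise (continuousOn_const (c := (0 : ℂ))) (isOpen_reg φ).measurableSet
  convert h2 using 1
  funext p
  by_cases h : p.Reg φ
  · exact (if_pos h).symm
  · exact (p.ev_of_not h).trans (if_neg h).symm

theorem measurable_ev' : Measurable fun p : Pt A => p.ev := measurable_pi_lambda _ measurable_ev

/-- the point of `A'` under `p` when `A'` is regular at `p` -/
def under (p : Pt A) (h : A' ≤ p.loc) : Pt A' := mk (p.evh.comp (Subalgebra.inclusion h))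

@[simp] theorem under_apply (p : Pt A) (h : A' ≤ p.loc) (a : A') : p.under h a = p.ev a := rfl

theorem under_ev (p : Pt A) (h : A' ≤ p.loc) {φ : F} (hφ : (p.under h).Reg φ) :
    p.Reg φ ∧ p.ev φ = (p.under h).ev φ := by
  obtain ⟨a, b, hb, e⟩ := hφ
  have hb0 : (b : F) ≠ 0 := fun e' => hb (by rw [under_apply, e', ev_zero])
  rw [(p.under h).ev_eq hb e, (eq_div_iff hb0).2 e]
  exact p.ev_div (h a.2) (h b.2) hb

theorem Same.symm {q : Pt A'} (h : p.Same q) : q.Same p := fun φ => ⟨(h φ).1.symm, (h φ).2.symm⟩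

theorem Same.ev_eq {q : Pt A'} (h : p.Same q) : p.ev = q.ev := funext fun φ => (h φ).2

theorem Same.eq {q : Pt A} (h : p.Same q) : p = q :=
  ext fun a => by rw [← ev_coe, ← ev_coe, (h a).2]

theorem same_under (p : Pt A) (h : A' ≤ p.loc) (h' : A ≤ (p.under h).loc) :
    p.Same (p.under h) := by
  have e : (p.under h).under h' = p :=
    ext fun a => by rw [under_apply, ← (p.under_ev h (h' a.2)).2, ev_coe]
  intro φ
  have h1 : p.Reg φ → (p.under h).Reg φ := fun hφ =>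
    ((p.under h).under_ev h' (e.symm ▸ hφ)).1
  refine ⟨⟨h1, fun hφ => (p.under_ev h hφ).1⟩, ?_⟩
  by_cases hφ : (p.under h).Reg φ
  · exact (p.under_ev h hφ).2
  · rw [ev_of_not _ hφ, ev_of_not _ fun h2 => hφ (h1 h2)]

theorem Same.eq_under {q : Pt A'} (hs : p.Same q) (h : A' ≤ p.loc) : q = p.under h :=
  ext fun a => by rw [under_apply, (hs a).2, ev_coe]

end ev

end Pt

section tr

variable {F : Type} [Field F] [Algebra ℂ F] {A A' : Subalgebra ℂ F}

/-- `A'` lies in `A[1 / h]` -/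
def InLoc (A' A : Subalgebra ℂ F) (h : A) : Prop :=
  ∀ φ ∈ A', ∃ (k : ℕ) (a : A), φ * (h ^ k : A) = a

theorem InLoc.le {h : A} (H : InLoc A' A h) {p : Pt A} (hp : p h ≠ 0) : A' ≤ p.loc := fun φ hφ => by
  obtain ⟨k, a, e⟩ := H φ hφ
  exact ⟨a, h ^ k, by rw [map_pow]; exact pow_ne_zero _ hp, e⟩

theorem InLoc.mul {h : A} (H : InLoc A' A h) (g : A) : InLoc A' A (h * g) := fun φ hφ => by
  obtain ⟨k, a, e⟩ := H φ hφ
  exact ⟨k, a * g ^ k, by push_cast at e ⊢; rw [← e]; ring⟩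

/-- the elements of `A[1 / h]` -/
def locAway (A : Subalgebra ℂ F) (h : A) : Subalgebra ℂ F where
  carrier := {φ | ∃ (k : ℕ) (a : A), φ * (h ^ k : A) = a}
  mul_mem' := by
    rintro φ ψ ⟨k, a, e⟩ ⟨l, b, e'⟩
    exact ⟨k + l, a * b, by push_cast at e e' ⊢; rw [← e, ← e']; ring⟩
  add_mem' := by
    rintro φ ψ ⟨k, a, e⟩ ⟨l, b, e'⟩
    exact ⟨k + l, a * h ^ l + b * h ^ k, by push_cast at e e' ⊢; rw [← e, ← e']; ring⟩
  algebraMap_mem' c := ⟨0, algebraMap ℂ A c, by simp⟩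

theorem exists_den (hA : ∀ φ : F, ∃ a b : A, b ≠ 0 ∧ φ * b = a) (s : Finset F) :
    ∃ h : A, h ≠ 0 ∧ ∀ φ ∈ s, ∃ a : A, φ * h = a := by
  classical
  choose a b hb e using hA
  refine ⟨∏ φ ∈ s, b φ, Finset.prod_ne_zero_iff.2 fun φ _ => hb φ, fun φ hφ =>
    ⟨a φ * ∏ ψ ∈ s.erase φ, b ψ, ?_⟩⟩
  rw [← Finset.mul_prod_erase s b hφ, MulMemClass.coe_mul, ← mul_assoc, e, MulMemClass.coe_mul]

theorem exists_inLoc [h' : Algebra.FiniteType ℂ A'] (hA : ∀ φ : F, ∃ a b : A, b ≠ 0 ∧ φ * b = a) :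
    ∃ h : A, h ≠ 0 ∧ InLoc A' A h := by
  obtain ⟨s, hs⟩ := (Subalgebra.fg_iff_finiteType A').2 h'
  obtain ⟨h, h0, hh⟩ := exists_den hA s
  refine ⟨h, h0, ?_⟩
  have : A' ≤ locAway A h := by
    rw [← hs, Algebra.adjoin_le_iff]
    intro φ hφ
    obtain ⟨a, e⟩ := hh φ hφ
    exact ⟨1, a, by simpa using e⟩
  exact this

/-- gluing along `A[1 / h] = A'[1 / h']` -/
theorem Tr.of_inLoc [Algebra.FiniteType ℂ A] [Algebra.FiniteType ℂ A'] {h : A} {h' : A'}
    (h0 : h ≠ 0) (h0' : h' ≠ 0) (H : InLoc A' A h) (H' : InLoc A A' h')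
    (u : ((h' : F))⁻¹ ∈ locAway A h) (u' : ((h : F))⁻¹ ∈ locAway A' h') :
    ∃ τ : Tr A A', τ.h = h ∧ τ.h' = h' := by
  classical
  obtain ⟨p0, -⟩ := Pt.exists_zero (O := A) (I := ⊥) bot_ne_top
  obtain ⟨q0, -⟩ := Pt.exists_zero (O := A') (I := ⊥) bot_ne_top
  have key : ∀ {A A' : Subalgebra ℂ F} {h : A} {h' : A'}, h' ≠ 0 → (H : InLoc A' A h) →
      InLoc A A' h' → ((h' : F))⁻¹ ∈ locAway A h → ∀ (p : Pt A) (hp : p h ≠ 0),
      p.Same (p.under (H.le hp)) ∧ p.under (H.le hp) h' ≠ 0 := by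
    intro A A' h h' h0' H H' u p hp
    have h1 : p.under (H.le hp) h' ≠ 0 := by
      have h2 : p.Reg (h' : F)⁻¹ := InLoc.le (A' := locAway A h) (fun _ hφ => hφ) hp u
      have h3 := (p.ev_mul (H.le hp h'.2) h2).2
      rw [mul_inv_cancel₀ fun e => h0' (Subtype.ext e), Pt.ev_one] at h3
      exact left_ne_zero_of_mul_eq_one h3.symm
    exact ⟨p.same_under _ (H'.le h1), h1⟩
  let m : Pt A → Pt A' := fun p => if hp : p h ≠ 0 then p.under (H.le hp) else q0
  let i : Pt A' → Pt A := fun q => if hq : q h' ≠ 0 then q.under (H'.le hq) else p0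
  have hm : ∀ p, p h ≠ 0 → p.Same (m p) ∧ m p h' ≠ 0 := fun p hp => by
    simp only [m, dif_pos hp]; exact key h0' H H' u p hp
  have hi : ∀ q, q h' ≠ 0 → q.Same (i q) ∧ i q h ≠ 0 := fun q hq => by
    simp only [i, dif_pos hq]; exact key h0 H' H u' q hq
  refine ⟨⟨h, h', h0, h0', m, i, fun p hp => ⟨(hm p hp).1, (hm p hp).2, ?_⟩,
    fun q hq => ⟨(hi q hq).1.symm, (hi q hq).2, ?_⟩⟩, rfl, rfl⟩
  · exact (Pt.Same.eq fun φ => ⟨((hm p hp).1 φ).1.trans ((hi _ (hm p hp).2).1 φ).1,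
      ((hm p hp).1 φ).2.trans ((hi _ (hm p hp).2).1 φ).2⟩).symm
  · exact (Pt.Same.eq fun φ => ⟨((hi q hq).1 φ).1.trans ((hm _ (hi q hq).2).1 φ).1,
      ((hi q hq).1 φ).2.trans ((hm _ (hi q hq).2).1 φ).2⟩).symm

theorem Tr.exists [Algebra.FiniteType ℂ A] [Algebra.FiniteType ℂ A']
    (h : ∀ φ : F, ∃ a b : A, b ≠ 0 ∧ φ * b = a) (h' : ∀ φ : F, ∃ a b : A', b ≠ 0 ∧ φ * b = a) :
    Nonempty (Tr A A') := by
  obtain ⟨g, g0, hg⟩ := exists_inLoc (A' := A') h
  obtain ⟨g', g0', hg'⟩ := exists_inLoc (A' := A) h'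
  obtain ⟨k, a, e⟩ := hg g' g'.2
  obtain ⟨l, b, e'⟩ := hg' (g * a : A) (g * a).2
  have c0 : (g : F) ≠ 0 := fun e => g0 (Subtype.ext e)
  have c0' : (g' : F) ≠ 0 := fun e => g0' (Subtype.ext e)
  push_cast at e e'
  have a0 : (a : F) ≠ 0 := e ▸ mul_ne_zero c0' (pow_ne_zero _ c0)
  have b0 : (b : F) ≠ 0 := e' ▸ mul_ne_zero (mul_ne_zero c0 a0) (pow_ne_zero _ c0')
  refine (Tr.of_inLoc (h := g * a) (h' := g' * b) (mul_ne_zero g0 fun e => a0 (by simp [e]))
    (mul_ne_zero g0' fun e => b0 (by simp [e])) (hg.mul a) (hg'.mul b) ?_ ?_).nonempty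
  · refine ⟨l + 2, g ^ (k * (l + 1) + l + 1), ?_⟩
    push_cast
    rw [← e', ← e]
    field_simp
    ring
  · refine ⟨1, g' ^ (l + 1), ?_⟩
    push_cast
    rw [← e']
    field_simp
    ring

namespace Tr

variable (τ : Tr A A')

/-- the inverse gluing -/
def symm : Tr A' A where
  h := τ.h'
  h' := τ.h
  ne := τ.ne'
  ne' := τ.ne
  map := τ.inv
  inv := τ.map
  same q hq := ⟨(τ.same' q hq).1.symm, (τ.same' q hq).2⟩
  same' p hp := ⟨(τ.same p hp).1.symm, (τ.same p hp).2⟩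

theorem map_apply {p : Pt A} (hp : p τ.h ≠ 0) (a : A') : p.Reg (a : F) ∧ τ.map p a = p.ev a :=
  ⟨((τ.same p hp).1 a).1.2 (Pt.reg_coe _ a), by rw [((τ.same p hp).1 a).2, Pt.ev_coe]⟩

theorem isOpen : IsOpen {p : Pt A | p τ.h ≠ 0} := isOpen_ne_fun (Pt.continuous_apply _) continuous_const

theorem continuousAt {p : Pt A} (hp : p τ.h ≠ 0) : ContinuousAt τ.map p := by
  refine Pt.continuousAt_iff.2 fun a => (τ.map_apply hp a).1.continuousAt.congr ?_
  filter_upwards [τ.isOpen.mem_nhds hp] with q hq using (τ.map_apply hq a).2.symm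

theorem continuousOn : ContinuousOn τ.map {p : Pt A | p τ.h ≠ 0} :=
  fun _ hp => (τ.continuousAt hp).continuousWithinAt

theorem injOn : InjOn τ.map {p : Pt A | p τ.h ≠ 0} := fun p hp q hq e => by
  rw [← (τ.same p hp).2.2, e, (τ.same q hq).2.2]

end Tr

end tr

end

end Pool.Agent.Lib.MP_5c318e_ag
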