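import Pool.Agent.Lib.MP_5c318e_ag.C.Pol
import Pool.Agent.Lib.MP_5c318e_ag.RD.RCalc

/-! Finite coverings: number of sheets, properness, lifting of balls. -/

set_option autoImplicit false

namespace Pool.Agent.Lib.MP_5c318e_ag

open Polynomial Filter Topology Set Metric

variable {ι : Type} [Fintype ι] {S : Type} [TopologicalSpace S] [MeasurableSpace S] {D : RD ι S}

namespace RD.Cov

variable (C : D.Cov)

theorem Δ_ne (p : S) : MvPolynomial.eval (D.π p) C.Δ ≠ 0 := ((C.mem _ _).1 ⟨p, rfl, rfl⟩).1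

theorem root (p : S) : ev2 C.f (D.π p) (C.w p) = 0 := ((C.mem _ _).1 ⟨p, rfl, rfl⟩).2

theorem separable {a : ι → ℂ} (ha : MvPolynomial.eval a C.Δ ≠ 0) :
    (C.f.map (MvPolynomial.eval a)).Separable := by
  obtain ⟨A, B, j, h⟩ := C.cert
  have e := congrArg (Polynomial.map (MvPolynomial.eval a)) h
  rw [Polynomial.map_add, Polynomial.map_mul, Polynomial.map_mul, map_C, map_pow,
    ← derivative_map] at e
  refine ⟨Polynomial.C (MvPolynomial.eval a C.Δ ^ j)⁻¹ * A.map (MvPolynomial.eval a),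
    Polynomial.C (MvPolynomial.eval a C.Δ ^ j)⁻¹ * B.map (MvPolynomial.eval a), ?_⟩
  have : Polynomial.C (MvPolynomial.eval a C.Δ ^ j)⁻¹ *
      Polynomial.C (MvPolynomial.eval a C.Δ ^ j) = 1 := by
    rw [← C_mul, inv_mul_cancel₀ (pow_ne_zero _ ha), C_1]
  rw [← this, ← e]; ring

theorem card {a : ι → ℂ} (ha : MvPolynomial.eval a C.Δ ≠ 0) :
    (D.π ⁻¹' {a}).encard = C.f.natDegree := by
  classical
  have hm := C.monic.map (MvPolynomial.eval a)
  have hi : InjOn C.w (D.π ⁻¹' {a}) := fun p hp q hq e => C.inj p q (hp.trans hq.symm) e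
  have e : C.w '' (D.π ⁻¹' {a}) = (C.f.map (MvPolynomial.eval a)).roots.toFinset := by
    ext s
    rw [Finset.mem_coe, Multiset.mem_toFinset, mem_roots hm.ne_zero, IsRoot, ← ev2_eq]
    constructor
    · rintro ⟨p, rfl, rfl⟩; exact C.root p
    · intro h
      obtain ⟨p, h1, h2⟩ := (C.mem a s).2 ⟨ha, h⟩
      exact ⟨p, h1, h2⟩
  rw [← hi.encard_image, e, encard_coe_eq_coe_finsetCard,
    Multiset.toFinset_card_of_nodup (nodup_roots (C.separable ha)),
    ← (IsAlgClosed.splits _).natDegree_eq_card_roots, C.monic.natDegree_map]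

theorem card_le (a : ι → ℂ) : (D.π ⁻¹' {a}).encard ≤ C.f.natDegree := by
  by_cases ha : MvPolynomial.eval a C.Δ = 0
  · have : D.π ⁻¹' {a} = ∅ := eq_empty_of_forall_notMem fun p hp => C.Δ_ne p (by rwa [hp])
    simp [this]
  · exact (C.card ha).le

include C in
theorem fin (a : ι → ℂ) : (D.π ⁻¹' {a}).Finite := finite_of_encard_le_coe (C.card_le a)

theorem w_bound : ∃ (A : ℝ) (N : ℕ), ∀ p, ‖C.w p‖ ≤ A * (1 + ‖D.π p‖) ^ N := by
  obtain ⟨A, N, -, h⟩ := root_size C.monic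
  exact ⟨A, N, fun p => h _ (by simp) _ _ (by simp) (C.root p)⟩

theorem isOpen_base : IsOpen {a | MvPolynomial.eval a C.Δ ≠ 0} :=
  isOpen_ne_fun (mv_cont _) continuous_const

variable [T2Space S]

/-- near a point of the base every point lies on one of the sheets -/
theorem sheets {a : ι → ℂ} (ha : MvPolynomial.eval a C.Δ ≠ 0) :
    ∀ᶠ b in 𝓝 a, ∀ p, D.π p = b → ∃ q, D.π q = a ∧ p = D.sec q b := by
  have h1 : ∀ᶠ b in 𝓝 a, ∀ q ∈ D.π ⁻¹' {a}, D.π (D.sec q b) = b :=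
    (eventually_all_finite (C.fin a)).2 fun q hq => by
      have := D.π_sec_ev q; rwa [show D.π q = a from hq] at this
  have h2 : ∀ᶠ b in 𝓝 a, ∀ q ∈ D.π ⁻¹' {a}, ∀ q' ∈ D.π ⁻¹' {a},
      D.sec q b = D.sec q' b → q = q' :=
    (eventually_all_finite (C.fin a)).2 fun q hq => (eventually_all_finite (C.fin a)).2
      fun q' hq' => by
        by_cases e : q = q'
        · exact .of_forall fun _ _ => e
        have t1 := D.tendsto_sec q
        have t2 := D.tendsto_sec q'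
        rw [show D.π q = a from hq] at t1
        rw [show D.π q' = a from hq'] at t2
        exact ((t1.prodMk_nhds t2).eventually
          ((isOpen_ne_fun continuous_fst continuous_snd).mem_nhds e)).mono fun b hb h => (hb h).elim
  filter_upwards [h1, h2, C.isOpen_base.mem_nhds ha] with b k1 k2 k3 p hp
  have hs : (fun q => D.sec q b) '' (D.π ⁻¹' {a}) ⊆ D.π ⁻¹' {b} := by
    rintro _ ⟨q, hq, rfl⟩; exact k1 q hq
  have he := (C.fin b).eq_of_subset_of_encard_le' hs (by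
    rw [InjOn.encard_image fun q hq q' hq' e => k2 q hq q' hq' e, C.card ha, C.card k3])
  obtain ⟨q, hq, e⟩ := he.ge hp
  exact ⟨q, hq, e.symm⟩

theorem closed : IsClosedMap fun p =>
    (⟨D.π p, C.Δ_ne p⟩ : {a | MvPolynomial.eval a C.Δ ≠ 0}) := by
  refine isClosedMap_iff_comap_nhds_le.2 fun {a} W hW => ?_
  have h1 : ∀ᶠ b in 𝓝 a.1, ∀ q ∈ D.π ⁻¹' {a.1}, D.sec q b ∈ W :=
    (eventually_all_finite (C.fin a)).2 fun q hq => by
      have t := D.tendsto_sec q
      rw [show D.π q = a.1 from hq] at t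
      exact t (mem_nhdsSet_iff_forall.1 hW q (Subtype.ext hq))
  refine mem_comap.2 ⟨_, continuous_subtype_val.continuousAt (h1.and (C.sheets a.2)), ?_⟩
  intro p hp
  obtain ⟨q, hq, e⟩ := hp.2 p rfl
  rw [e]; exact hp.1 q hq

theorem covering : IsCoveringMapOn D.π {a | MvPolynomial.eval a C.Δ ≠ 0} := by
  refine .of_isCoveringMap_subtype C.isOpen_base C.Δ_ne
    (isCoveringMap_iff_isCoveringMapOn_univ.2
      (C.closed.isCoveringMapOn_of_isLocalHomeomorphOn (fun a _ => ?_) ?_))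
  · exact (C.fin a.1).subset fun p hp => congrArg Subtype.val hp
  · exact (IsLocalHomeomorph.of_comp (g := Subtype.val)
      (f := fun p => (⟨D.π p, C.Δ_ne p⟩ : {a | MvPolynomial.eval a C.Δ ≠ 0})) D.loc
      C.isOpen_base.isOpenEmbedding_subtypeVal.isLocalHomeomorph
      (D.cont_π.subtype_mk _)).isLocalHomeomorphOn

theorem cpt {K : Set (ι → ℂ)} (hK : IsCompact K) (hs : ∀ a ∈ K, MvPolynomial.eval a C.Δ ≠ 0) :
    IsCompact (D.π ⁻¹' K) := by
  have hp : IsProperMap fun p => (⟨D.π p, C.Δ_ne p⟩ : {a | MvPolynomial.eval a C.Δ ≠ 0}) :=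
    isProperMap_iff_isClosedMap_and_compact_fibers.2 ⟨D.cont_π.subtype_mk _, C.closed, fun a =>
      ((C.fin a.1).subset fun p hp => by exact congrArg Subtype.val hp).isCompact⟩
  exact hp.isCompact_preimage (IsInducing.subtypeVal.isCompact_preimage' hK fun a ha =>
    ⟨⟨a, hs a ha⟩, rfl⟩)

theorem compact (R : ℝ) :
    IsCompact {p | ‖D.π p‖ ≤ R ∧ R⁻¹ ≤ ‖MvPolynomial.eval (D.π p) C.Δ‖} := by
  rcases le_or_gt R 0 with h | h
  · exact ((C.fin 0).subset fun p hp => norm_le_zero_iff.1 (hp.1.trans h)).isCompact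
  refine C.cpt (K := closedBall 0 R ∩ {a | R⁻¹ ≤ ‖MvPolynomial.eval a C.Δ‖})
    ((isCompact_closedBall _ _).inter_right (isClosed_le continuous_const (mv_cont _).norm))
    (fun a ha => norm_pos_iff.1 ((inv_pos.2 h).trans_le ha.2)) |>.of_isClosed_subset ?_ ?_
  · exact (isClosed_le D.cont_π.norm continuous_const).inter
      (isClosed_le continuous_const ((mv_cont _).comp D.cont_π).norm)
  · exact fun p hp => ⟨mem_closedBall_zero_iff.2 hp.1, hp.2⟩

/-- convex sets in the base lift -/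
theorem lift_convex {U : Set (ι → ℂ)} (hU : Convex ℝ U)
    (hs : ∀ a ∈ U, MvPolynomial.eval a C.Δ ≠ 0) {p : S} (hp : D.π p ∈ U) :
    ∃ σ : (ι → ℂ) → S, σ (D.π p) = p ∧ ContinuousOn σ U ∧ ∀ a ∈ U, D.π (σ a) = a := by
  classical
  have := hU.contractibleSpace ⟨_, hp⟩
  have := hU.locallyPathConnectedSpace
  obtain ⟨F, ⟨h0, hF⟩, -⟩ := C.covering.existsUnique_continuousMap_lifts
    (⟨Subtype.val, continuous_subtype_val⟩ : C(U, ι → ℂ)) (a₀ := ⟨_, hp⟩) (e₀ := p) rfl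
    fun a => hs a a.2
  refine ⟨fun a => if h : a ∈ U then F ⟨a, h⟩ else p, (dif_pos hp).trans h0, ?_, fun a ha => ?_⟩
  · rw [continuousOn_iff_continuous_domRestrict]
    exact F.continuous.congr fun a => by simp
  · beta_reduce
    rw [dif_pos ha]; exact congrFun hF _

/-- balls of polynomial radius lift -/
theorem lift_ball : ∃ (c : ℝ) (N : ℕ), 0 < c ∧ ∀ p, ∃ σ : (ι → ℂ) → S,
    σ (D.π p) = p ∧
    ContinuousOn σ (Metric.ball (D.π p) (c * ‖MvPolynomial.eval (D.π p) C.Δ‖ / (1 + ‖D.π p‖) ^ N)) ∧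
    ∀ a ∈ Metric.ball (D.π p) (c * ‖MvPolynomial.eval (D.π p) C.Δ‖ / (1 + ‖D.π p‖) ^ N),
      D.π (σ a) = a ∧ ‖MvPolynomial.eval (D.π p) C.Δ‖ ≤ 2 * ‖MvPolynomial.eval a C.Δ‖ := by
  obtain ⟨A, N, hA, h⟩ := pl_mv C.Δ
  refine ⟨1 / (2 * A + 2), N, by positivity, fun p => ?_⟩
  have h0 := norm_pos_iff.2 (C.Δ_ne p)
  have hR : 1 ≤ 1 + ‖D.π p‖ := by simp
  have hP : 0 < (1 + ‖D.π p‖) ^ N := by positivity
  have key : ∀ a ∈ Metric.ball (D.π p)
      (1 / (2 * A + 2) * ‖MvPolynomial.eval (D.π p) C.Δ‖ / (1 + ‖D.π p‖) ^ N),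
      ‖MvPolynomial.eval (D.π p) C.Δ‖ ≤ 2 * ‖MvPolynomial.eval a C.Δ‖ := by
    intro a ha
    rw [mem_ball', dist_eq_norm, lt_div_iff₀ hP, one_div, inv_mul_eq_div,
      lt_div_iff₀ (by positivity)] at ha
    have k0 := (h _ hR (D.π p) (D.π p) (by simp) (by simp)).1
    have hn := norm_nonneg (D.π p - a)
    have k1 : ‖D.π p - a‖ ≤ 1 := by
      by_contra hc
      have := mul_le_mul_of_nonneg_right (not_le.1 hc).le
        (show 0 ≤ (1 + ‖D.π p‖) ^ N * (2 * A + 2) by positivity)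
      nlinarith
    have k2 : ‖a‖ ≤ 1 + ‖D.π p‖ := by
      have := norm_sub_norm_le a (D.π p)
      rw [norm_sub_rev] at this
      linarith
    have k3 := (h _ hR (D.π p) a (by simp) k2).2
    have k4 := norm_sub_norm_le (MvPolynomial.eval (D.π p) C.Δ) (MvPolynomial.eval a C.Δ)
    nlinarith [mul_nonneg hn hP.le]
  obtain ⟨σ, a, b, c⟩ := C.lift_convex (convex_ball _ _)
    (fun a ha => norm_pos_iff.1 (by linarith [key a ha])) (p := p) (mem_ball_self (by positivity))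
  exact ⟨σ, a, b, fun z hz => ⟨c z hz, key z hz⟩⟩

end RD.Cov

end Pool.Agent.Lib.MP_5c318e_ag
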