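import Pool.Agent.Lib.MP_5c318e_ag.S.ADefs
import Pool.Agent.Lib.MP_5c318e_ag.S.PBas
import Pool.Agent.Lib.MP_5c318e_ag.S.RCov

/-! Charts as finite coverings, generic points, moderate growth of rational functions. -/

set_option autoImplicit false

namespace Pool.Agent.Lib.MP_5c318e_ag

open MeasureTheory Set Filter Topology Polynomial

section fin

variable {R O ν : Type} [CommRing R] [Algebra ℂ R] [CommRing O] [Algebra ℂ O]
  {inc : R →ₐ[ℂ] O} {x : ν → O}

theorem Pt.ccov_hom (p : Pt O) (inc : R →ₐ[ℂ] O) (x : ν → O) :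
    (p.hom : O →+* ℂ).comp (MvPolynomial.eval₂Hom (inc : R →+* O) x) =
      MvPolynomial.eval₂Hom ((p.res inc).hom : R →+* ℂ) fun i => p (x i) := by
  refine MvPolynomial.ringHom_ext (fun r => ?_) fun i => ?_
  · simp only [RingHom.comp_apply, MvPolynomial.eval₂Hom_C]; rfl
  · simp only [RingHom.comp_apply, MvPolynomial.eval₂Hom_X']; rfl

/-- the value of a polynomial in the fibre coordinates -/
theorem Pt.apply_mv (p : Pt O) (inc : R →ₐ[ℂ] O) (x : ν → O) (q : MvPolynomial ν R) :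
    p (MvPolynomial.eval₂ (inc : R →+* O) x q) = MvPolynomial.eval (fun i => p (x i))
      (MvPolynomial.map ((p.res inc).hom : R →+* ℂ) q) := by
  rw [MvPolynomial.eval_map]
  exact DFunLike.congr_fun (p.ccov_hom inc x) q

theorem ev2_map (b : Pt R) (P : (MvPolynomial ν R)[X]) (a : ν → ℂ) (s : ℂ) :
    ev2 (P.map (MvPolynomial.map (b.hom : R →+* ℂ))) a s =
      P.eval₂ (MvPolynomial.eval₂Hom (b.hom : R →+* ℂ) a) s := by
  rw [ev2, eval₂_map]
  congr 1
  refine MvPolynomial.ringHom_ext (fun r => ?_) fun i => ?_ <;> simp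

/-- the value of a polynomial in the fibre coordinates and the generator -/
theorem Pt.apply_ev2 (p : Pt O) (inc : R →ₐ[ℂ] O) (x : ν → O) (P : (MvPolynomial ν R)[X])
    (w : O) : p (P.eval₂ (MvPolynomial.eval₂Hom (inc : R →+* O) x) w) =
      ev2 (P.map (MvPolynomial.map ((p.res inc).hom : R →+* ℂ))) (fun i => p (x i)) (p w) := by
  rw [ev2_map, ← p.ccov_hom inc x]
  exact hom_eval₂ P _ (p.hom : O →+* ℂ) w

theorem Fini.Δ_ne (h : Fini inc x) (p : Pt O) : MvPolynomial.eval (fun i => p (x i))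
    (MvPolynomial.map ((p.res inc).hom : R →+* ℂ) h.Δ) ≠ 0 := by
  rw [← p.apply_mv]
  exact (h.unit.map p.hom).ne_zero

theorem Fini.root_pt (h : Fini inc x) (p : Pt O) :
    ev2 (h.f.map (MvPolynomial.map ((p.res inc).hom : R →+* ℂ))) (fun i => p (x i)) (p h.w) = 0 := by
  rw [← p.apply_ev2, h.root, map_zero]

/-- every element of the ring is a polynomial expression over a power of `Δ` -/
theorem Fini.gen_pt (h : Fini inc x) (φ : O) : ∃ (P : (MvPolynomial ν R)[X]) (j : ℕ), ∀ p : Pt O,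
    p φ * MvPolynomial.eval (fun i => p (x i))
      (MvPolynomial.map ((p.res inc).hom : R →+* ℂ) h.Δ) ^ j =
    ev2 (P.map (MvPolynomial.map ((p.res inc).hom : R →+* ℂ))) (fun i => p (x i)) (p h.w) := by
  obtain ⟨P, j, e⟩ := h.gen φ
  refine ⟨P, j, fun p => ?_⟩
  rw [← p.apply_ev2, ← e, map_mul, map_pow, p.apply_mv]

theorem Fini.pt_ext (h : Fini inc x) {p q : Pt O} (hb : p.res inc = q.res inc)
    (hx : ∀ i, p (x i) = q (x i)) (hw : p h.w = q h.w) : p = q := by
  refine DFunLike.ext _ _ fun φ => ?_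
  obtain ⟨P, j, e⟩ := h.gen_pt φ
  have e1 := e p
  have e2 := e q
  rw [hb, funext hx, hw, ← e2] at e1
  exact mul_right_cancel₀ (pow_ne_zero _ (h.Δ_ne q)) e1

theorem Fini.cert_map (h : Fini inc x) (b : Pt R) : ∃ (A B : (MvPolynomial ν ℂ)[X]) (j : ℕ),
    h.f.map (MvPolynomial.map (b.hom : R →+* ℂ)) * A +
      derivative (h.f.map (MvPolynomial.map (b.hom : R →+* ℂ))) * B =
      C (MvPolynomial.map (b.hom : R →+* ℂ) h.Δ ^ j) := by
  obtain ⟨A, B, j, e⟩ := h.cert
  refine ⟨A.map (MvPolynomial.map (b.hom : R →+* ℂ)), B.map (MvPolynomial.map (b.hom : R →+* ℂ)),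
    j, ?_⟩
  rw [derivative_map, ← Polynomial.map_mul, ← Polynomial.map_mul, ← Polynomial.map_add, e, map_C,
    map_pow]

theorem Pt.hom_complex (b : Pt ℂ) : (b.hom : ℂ →+* ℂ) = RingHom.id ℂ :=
  RingHom.ext fun c => b.hom.commutes c

theorem Pt.map_complex (b : Pt ℂ) :
    MvPolynomial.map (σ := ν) (b.hom : ℂ →+* ℂ) = RingHom.id _ := by
  rw [b.hom_complex]
  exact RingHom.ext fun q => MvPolynomial.map_id q

end fin

section C

variable {ι F : Type} [Fintype ι] [DecidableEq ι] [Field F] [Algebra ℂ F]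
variable {δ ν K M : Type} [Fintype δ] [DecidableEq δ] [Fintype ν] [DecidableEq ν]
  [Field K] [Algebra ℂ K] [Field M] [Algebra ℂ M] [Algebra K M] [IsScalarTower ℂ K M]
variable {B : Cht δ K}

theorem Cht.π_fun (c : Cht ι F) (p : Pt c.O) : c.D.π p = fun i => p (c.z i) := funext (c.π_eq p)

omit [IsScalarTower ℂ K M] in
theorem Rel.π_fun (T : Rel B ν M) (b : Pt B.O) (p : T.Fib b) :
    (T.fib b).π p = fun i => p.1 (T.X.z (Sum.inr i)) := funext (T.fib_π b p)

theorem Cht.cov (c : Cht ι F) (h : Fini (Algebra.ofId ℂ c.O) c.z) :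
    ∃ C : c.D.Cov, C.f = h.f ∧ C.Δ = h.Δ ∧ ∀ p, C.w p = p h.w := by
  refine ⟨⟨h.f, h.Δ, fun p => p h.w, h.monic, h.ne, c.hol _, fun p q e1 e2 => ?_,
    fun a s => ⟨?_, fun ⟨h1, h2⟩ => ?_⟩, h.cert⟩, rfl, rfl, fun _ => rfl⟩
  · refine h.pt_ext (Subsingleton.elim (α := ℂ →ₐ[ℂ] ℂ) _ _) (fun i => ?_) e2
    rw [← c.π_eq, ← c.π_eq, e1]
  · rintro ⟨p, rfl, rfl⟩
    have h1 := h.Δ_ne p
    have h2 := h.root_pt p
    rw [Pt.map_complex] at h1 h2
    rw [Polynomial.map_id] at h2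
    rw [c.π_fun]
    exact ⟨h1, h2⟩
  · let b : Pt ℂ := Pt.mk (AlgHom.id ℂ ℂ)
    obtain ⟨p, -, e1, e2⟩ := h.ex b a s (by rw [b.hom_complex]; exact h1) (by
      rw [← ev2_map, Pt.map_complex, Polynomial.map_id]; exact h2)
    exact ⟨p, by rw [c.π_fun]; exact funext e1, e2⟩

omit [IsScalarTower ℂ K M] in
theorem Fam.cov (T : Fam B ν M) (b : Pt B.O) (hb : MvPolynomial.map (b.hom : B.O →+* ℂ) T.finX.Δ ≠ 0) :
    ∃ C : (T.fib b).Cov, C.f = T.finX.f.map (MvPolynomial.map (b.hom : B.O →+* ℂ)) ∧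
      C.Δ = MvPolynomial.map (b.hom : B.O →+* ℂ) T.finX.Δ ∧ ∀ p, C.w p = p.1 T.finX.w := by
  refine ⟨⟨_, _, fun p => p.1 T.finX.w, T.finX.monic.map _, hb, T.fib_hol b _,
    fun p q e1 e2 => ?_, fun a s => ⟨?_, fun ⟨h1, h2⟩ => ?_⟩, T.finX.cert_map b⟩, rfl, rfl,
    fun _ => rfl⟩
  · refine Subtype.ext (T.finX.pt_ext (p.2.trans q.2.symm) (fun i => ?_) e2)
    rw [← T.fib_π b, ← T.fib_π b, e1]
  · rintro ⟨p, rfl, rfl⟩
    have h1 := T.finX.Δ_ne p.1
    have h2 := T.finX.root_pt p.1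
    rw [p.2] at h1 h2
    rw [T.toRel.π_fun]
    exact ⟨h1, h2⟩
  · obtain ⟨p, e0, e1, e2⟩ := T.finX.ex b a s (by rw [← MvPolynomial.eval_map]; exact h1) (by
      rw [← ev2_map]; exact h2)
    exact ⟨⟨p, e0⟩, by rw [T.toRel.π_fun]; exact funext e1, e2⟩

/-- a nonzero element divides a nonzero polynomial in the coordinates -/
theorem Cht.exists_dvd (c : Cht ι F) {h : c.O} (h0 : h ≠ 0) :
    ∃ (g : MvPolynomial ι ℂ) (t : c.O), g ≠ 0 ∧ h * t = MvPolynomial.aeval c.z g := by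
  have ha := (c.basis.isAlgebraic.isAlgebraic (h : F))
  have hn : (h : F) ∈ nonZeroDivisors F :=
    mem_nonZeroDivisors_of_ne_zero fun e => h0 (Subtype.ext e)
  obtain ⟨t, ht, r, hr, e⟩ := ha.exists_nonzero_eq_adjoin_mul hn
  have hle : Algebra.adjoin ℂ (range fun i => (c.z i : F)) ≤ c.O :=
    Algebra.adjoin_le (by rintro _ ⟨i, rfl⟩; exact (c.z i).2)
  have htO : t ∈ c.O := by
    refine Algebra.adjoin_induction (fun y hy => ?_) (fun y => hle y.2)
      (fun _ _ _ _ => c.O.add_mem) (fun _ _ _ _ => c.O.mul_mem) ht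
    rw [mem_singleton_iff.1 hy]; exact h.2
  obtain ⟨g, hg⟩ := (Algebra.adjoin_range_eq_range_aeval ℂ fun i => (c.z i : F)).le r.2
  have hg' : MvPolynomial.aeval (fun i => (c.z i : F)) g = (r : F) := hg
  refine ⟨g, ⟨t, htO⟩, ?_, Subtype.ext ?_⟩
  · rintro rfl
    exact hr (Subtype.ext (by rw [← hg', map_zero]; rfl))
  · have := MvPolynomial.comp_aeval_apply (f := c.z) c.O.val g
    exact (e.trans hg'.symm).trans this.symm

theorem Cht.apply_aeval (c : Cht ι F) (p : Pt c.O) (g : MvPolynomial ι ℂ) :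
    p (MvPolynomial.aeval c.z g) = MvPolynomial.eval (c.D.π p) g := by
  rw [c.π_fun, ← MvPolynomial.coe_aeval_eq_eval]
  exact MvPolynomial.comp_aeval_apply (f := c.z) p.hom g

theorem Cht.gen_ne (c : Cht ι F) {h : c.O} (h0 : h ≠ 0) : ∀ᶠ p in c.D.gen, p h ≠ 0 := by
  obtain ⟨g, t, hg, e⟩ := c.exists_dvd h0
  refine ⟨g, hg, fun p hp => ?_⟩
  rw [← c.apply_aeval, ← e, map_mul] at hp
  exact left_ne_zero_of_mul hp

theorem Cht.gen_reg (c : Cht ι F) (φ : F) : ∀ᶠ p in c.D.gen, p.Reg φ := by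
  obtain ⟨a, b, hb, e⟩ := c.frac φ
  exact (c.gen_ne hb).mono fun p hp => ⟨a, b, hp, e⟩

/-- a nonzero polynomial over the ring of a chart stays nonzero at a general point -/
theorem Cht.gen_map (B : Cht δ K) {σ : Type} {q : MvPolynomial σ B.O} (hq : q ≠ 0) :
    ∀ᶠ b in B.D.gen, MvPolynomial.map (b.hom : B.O →+* ℂ) q ≠ 0 := by
  obtain ⟨m, hm⟩ := MvPolynomial.exists_coeff_ne_zero hq
  refine (B.gen_ne hm).mono fun b hb e => hb ?_
  have := congrArg (MvPolynomial.coeff m) e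
  rw [MvPolynomial.coeff_map, MvPolynomial.coeff_zero] at this
  exact this

omit [IsScalarTower ℂ K M] in
theorem Fam.gen_Δ (T : Fam B ν M) :
    ∀ᶠ b in B.D.gen, MvPolynomial.map (b.hom : B.O →+* ℂ) T.finX.Δ ≠ 0 := B.gen_map T.finX.ne

omit [IsScalarTower ℂ K M] in
theorem Rel.zy_coe (T : Rel B ν M) (i : δ) :
    (T.X.z (Sum.inl i) : M) = algebraMap K M (B.z i) := by rw [T.zy, T.inc_eq]

theorem Rel.basis (T : Rel B ν M) : IsTranscendenceBasis K T.x := by
  have : Algebra.IsAlgebraic (Algebra.adjoin ℂ (range fun i => (B.z i : K))) K :=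
    B.basis.isAlgebraic
  have h1 : AlgebraicIndependent ℂ (Sum.elim T.x fun i => algebraMap K M (B.z i)) := by
    have := T.X.basis.1.comp _ (Equiv.sumComm ν δ).injective
    convert this using 1
    funext i
    rcases i with i | i
    · rfl
    · exact (T.zy_coe i).symm
  have hle : (Algebra.adjoin ℂ (range fun i => (B.z i : K))).map (IsScalarTower.toAlgHom ℂ K M) ≤
      Algebra.adjoin ℂ (range fun i => algebraMap K M (B.z i)) := by
    rw [AlgHom.map_adjoin, ← range_comp]; exact le_rfl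
  let f : Algebra.adjoin ℂ (range fun i => (B.z i : K)) →+*
      Algebra.adjoin ℂ (range fun i => algebraMap K M (B.z i)) :=
    ((Subalgebra.inclusion hle).comp ((IsScalarTower.toAlgHom ℂ K M).subalgebraMap _)).toRingHom
  have hf : ∀ a, (f a : M) = algebraMap K M a := fun _ => rfl
  have h2 : AlgebraicIndependent (Algebra.adjoin ℂ (range fun i => (B.z i : K))) T.x :=
    AlgebraicIndependent.of_ringHom_of_comp_eq f (RingHom.id M)
      (AlgebraicIndependent.sumElim_iff.1 h1).2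
      (fun a b e => Subtype.ext ((algebraMap K M).injective (by rw [← hf, ← hf, e])))
      (RingHom.ext fun a => hf a)
  have h3 : AlgebraicIndependent K T.x := h2.extendScalars K
  rw [h3.isTranscendenceBasis_iff_isAlgebraic]
  refine ⟨fun φ => ?_⟩
  have h4 : ∀ a ∈ Algebra.adjoin ℂ (range fun i => (T.X.z i : M)),
      a ∈ Algebra.adjoin K (range T.x) := fun a ha => by
    refine Algebra.adjoin_induction ?_ (fun y => ?_) (fun _ _ _ _ => add_mem)
      (fun _ _ _ _ => mul_mem) ha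
    · rintro _ ⟨i | i, rfl⟩
      · beta_reduce
        rw [T.zy_coe]
        exact Subalgebra.algebraMap_mem _ _
      · exact Algebra.subset_adjoin ⟨i, rfl⟩
    · rw [IsScalarTower.algebraMap_apply ℂ K M]
      exact Subalgebra.algebraMap_mem _ _
  let g : Algebra.adjoin ℂ (range fun i => (T.X.z i : M)) →+* Algebra.adjoin K (range T.x) :=
    (Algebra.adjoin ℂ (range fun i => (T.X.z i : M))).val.toRingHom.codRestrict
      (Algebra.adjoin K (range T.x)) fun a => h4 a a.2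
  exact (T.X.basis.isAlgebraic.isAlgebraic φ).ringHom_of_comp_eq g (RingHom.id M)
    (fun a b e => Subtype.ext (show (g a : M) = g b from congrArg Subtype.val e)) (RingHom.ext fun _ => rfl)

theorem Rel.dual (T : Rel B ν M) : Dual K T.x T.dx :=
  ⟨T.basis, fun i j => by
    rw [T.dx_eq, Rel.x, T.X.der_z]; simp only [Sum.inr.injEq]⟩

theorem Cht.dual (c : Cht ι F) : Dual ℂ (fun i => (c.z i : F)) c.der := ⟨c.basis, c.der_z⟩

theorem Cht.exists_adjoin (c : Cht ι F) (k : Type) [Field k] [Algebra ℂ k] [Algebra k F]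
    [IsScalarTower ℂ k F] : (⊤ : IntermediateField k F).FG := by
  obtain ⟨s, hs⟩ := (Subalgebra.fg_iff_finiteType c.O).2 c.ft
  refine ⟨s, top_le_iff.1 fun φ _ => ?_⟩
  have hle : ∀ a ∈ c.O, a ∈ IntermediateField.adjoin k (s : Set F) := fun a ha => by
    rw [← hs] at ha
    refine Algebra.adjoin_induction (fun y hy => IntermediateField.subset_adjoin _ _ hy)
      (fun y => ?_) (fun _ _ _ _ => add_mem) (fun _ _ _ _ => mul_mem) ha
    rw [IsScalarTower.algebraMap_apply ℂ k F]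
    exact IntermediateField.algebraMap_mem _ _
  obtain ⟨a, b, hb, e⟩ := c.frac φ
  have hb' : (b : F) ≠ 0 := fun e => hb (Subtype.ext e)
  rw [eq_div_of_mul_eq hb' e]
  exact div_mem (hle _ a.2) (hle _ b.2)

theorem Cht.fg (c : Cht ι F) : (⊤ : IntermediateField ℂ F).FG := c.exists_adjoin ℂ

theorem Rel.fg (T : Rel B ν M) : (⊤ : IntermediateField K M).FG := T.X.exists_adjoin K

omit [IsScalarTower ℂ K M] in
theorem Rel.gen_ne (T : Rel B ν M) {h : T.X.O} (h0 : h ≠ 0) :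
    ∀ᶠ b in B.D.gen, ∀ᶠ p in (T.fib b).gen, p.1 h ≠ 0 := by
  obtain ⟨g, t, hg, e⟩ := T.X.exists_dvd h0
  let G : MvPolynomial ν (MvPolynomial δ ℂ) :=
    MvPolynomial.sumAlgEquiv ℂ ν δ (MvPolynomial.renameEquiv ℂ (Equiv.sumComm δ ν) g)
  have hG : G ≠ 0 := by
    simpa only [G, ne_eq, map_eq_zero_iff _ (AlgEquiv.injective _)] using hg
  obtain ⟨m, hm⟩ := MvPolynomial.exists_coeff_ne_zero hG
  refine ⟨_, hm, fun b hb => ⟨MvPolynomial.map (MvPolynomial.eval (B.D.π b)) G, fun e => hb ?_,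
    fun p hp => ?_⟩⟩
  · have := congrArg (MvPolynomial.coeff m) e
    rwa [MvPolynomial.coeff_map, MvPolynomial.coeff_zero] at this
  · have key : ∀ g : MvPolynomial (δ ⊕ ν) ℂ, MvPolynomial.eval ((T.fib b).π p)
        (MvPolynomial.map (MvPolynomial.eval (B.D.π b)) (MvPolynomial.sumAlgEquiv ℂ ν δ
          (MvPolynomial.renameEquiv ℂ (Equiv.sumComm δ ν) g))) =
        MvPolynomial.eval (T.X.D.π p.1) g := fun g => by
      induction g using MvPolynomial.induction_on with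
      | C c => simp
      | add p q hp hq => simp only [map_add, hp, hq]
      | mul_X q i hq =>
        simp only [map_mul, hq]
        congr 1
        rcases i with i | i
        · have : p.1 (T.X.z (Sum.inl i)) = b (B.z i) := by
            rw [T.zy]; exact DFunLike.congr_fun p.2 (B.z i)
          simp [T.X.π_eq, B.π_eq, this]
        · simp [T.X.π_eq, T.fib_π]
    rw [key, ← T.X.apply_aeval, ← e, map_mul] at hp
    exact left_ne_zero_of_mul hp

theorem Cht.mod_ev (c : Cht ι F) (h : Fini (Algebra.ofId ℂ c.O) c.z) (φ : F) :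
    c.D.Mod fun p => ENNReal.ofReal ‖p.ev φ‖ := by
  obtain ⟨C, -, hΔ, hw⟩ := c.cov h
  obtain ⟨a, b, hb, e⟩ := c.frac φ
  obtain ⟨g, t, hg, e'⟩ := c.exists_dvd hb
  obtain ⟨P, j, hP⟩ := h.gen_pt (a * t)
  obtain ⟨A, N, hA⟩ := C.w_bound
  obtain ⟨A', N', hA', hP'⟩ := pl_ev2 P
  refine ⟨g * h.Δ ^ j, mul_ne_zero hg (pow_ne_zero _ h.ne), A' * (|A| + 1) ^ N', (N + 1) * N' + 1,
    fun p hp => ENNReal.ofReal_le_ofReal ?_⟩
  have h1 := hP p
  rw [Pt.map_complex, Polynomial.map_id, ← c.π_fun, RingHom.id_apply] at h1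
  have hp' := hp
  rw [map_mul, map_pow] at hp'
  have hg' : p (b * t) ≠ 0 := by rw [e', c.apply_aeval]; exact left_ne_zero_of_mul hp'
  have h2 : p.ev φ = ev2 P (c.D.π p) (p h.w) / MvPolynomial.eval (c.D.π p) (g * h.Δ ^ j) := by
    rw [p.ev_eq (a := a * t) hg' (by push_cast; rw [← mul_assoc, e]), ← h1, e', c.apply_aeval,
      map_mul (MvPolynomial.eval _), map_pow, mul_div_mul_right _ _ (right_ne_zero_of_mul hp')]
  set s := 1 + ‖c.D.π p‖ with hs
  have hs1 : 1 ≤ s := le_add_of_nonneg_right (norm_nonneg _)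
  have hR1 : s ≤ (|A| + 1) * s ^ (N + 1) :=
    (le_self_pow₀ hs1 N.succ_ne_zero).trans
      (le_mul_of_one_le_left (by positivity) (le_add_of_nonneg_left (abs_nonneg _)))
  have hn : ‖(c.D.π p, p h.w)‖ ≤ (|A| + 1) * s ^ (N + 1) := by
    rw [Prod.norm_mk]
    refine max_le ((le_add_of_nonneg_left zero_le_one).trans hR1) ?_
    rw [← hw]
    refine (hA p).trans (mul_le_mul ((le_abs_self _).trans (le_add_of_nonneg_right zero_le_one))
      (pow_le_pow_right₀ hs1 N.le_succ) (by positivity) (by positivity))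
  have h3 := (hP' _ (hs1.trans hR1) _ _ hn hn).1
  set u := ‖MvPolynomial.eval (c.D.π p) (g * h.Δ ^ j)‖ with hu
  have hu0 : 0 < u := norm_pos_iff.2 hp
  rw [h2, norm_div, ← hu]
  calc _ ≤ A' * ((|A| + 1) * s ^ (N + 1)) ^ N' / u := div_le_div_of_nonneg_right h3 hu0.le
    _ = A' * (|A| + 1) ^ N' * (s ^ ((N + 1) * N') * (1 / u)) := by rw [mul_pow, ← pow_mul]; ring
    _ ≤ _ := by
      refine mul_le_mul_of_nonneg_left ?_ (by positivity)
      rw [pow_succ]
      refine mul_le_mul (pow_le_pow_left₀ (by positivity) (le_add_of_nonneg_left (by positivity)) _)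
        ((div_le_div_of_nonneg_right hs1 hu0.le).trans (le_add_of_nonneg_right (by positivity)))
        (by positivity) (by positivity)

omit [IsScalarTower ℂ K M] in
/-- polynomial expressions on a fibre or on the base come from the ring -/
theorem Fam.exists_elt (T : Fam B ν M) (b : Pt B.O) (P : Polynomial (MvPolynomial ν ℂ)) (j : ℕ) :
    ∃ φ : T.X.O, ∀ p : T.Fib b, p.1 φ * MvPolynomial.eval ((T.fib b).π p)
      (MvPolynomial.map (b.hom : B.O →+* ℂ) T.finX.Δ) ^ j = ev2 P ((T.fib b).π p) (p.1 T.finX.w) := by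
  obtain ⟨u, hu⟩ := T.finX.unit.exists_left_inv
  refine ⟨P.eval₂ (MvPolynomial.eval₂Hom (Algebra.ofId ℂ T.X.O : ℂ →+* T.X.O)
    fun i => T.X.z (Sum.inr i)) T.finX.w * u ^ j, fun p => ?_⟩
  have h1 := congrArg p.1 hu
  rw [map_mul, map_one, p.1.apply_mv, p.2] at h1
  rw [map_mul, map_pow, p.1.apply_ev2, Pt.map_complex, Polynomial.map_id, T.toRel.π_fun, mul_assoc,
    ← mul_pow, h1, one_pow, mul_one]

end C

end Pool.Agent.Lib.MP_5c318e_ag
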