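import Pool.Agent.Lib.MP_5c318e_ag.S.ADefs
import Pool.Agent.Lib.MP_5c318e_ag.A.Ram

/-! Algebra of regular pluricanonical forms over any field of characteristic zero. -/

set_option autoImplicit false

namespace Pool.Agent.Lib.MP_5c318e_ag

section A
variable {k F ι : Type} [Field k] [CharZero k] [Field F] [Algebra k F] [Fintype ι] [DecidableEq ι]
  {z : ι → F} {d : ι → Derivation k F F}

omit [CharZero k] in
theorem div_pow_mem_iff {O : ValuationSubring F} {J φ : F} {m : ℕ} (hJ : J ≠ 0) :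
    φ / J ^ m ∈ O ↔ O.valuation φ ≤ O.valuation J ^ m := by
  rw [← O.valuation_le_one_iff, map_div₀, div_le_one₀ ((Valuation.pos_iff _).2 (pow_ne_zero m hJ)),
    map_pow]

omit [CharZero k] in
theorem regI_iff_val {m : ℕ} {φ : F} {O : ValuationSubring F} : RegI d m φ O ↔
    ∃ f : ι → F, (∀ j, f j ∈ O) ∧ O.valuation φ ≤ O.valuation (Jac d f) ^ m := by
  refine exists_congr fun f => and_congr_right fun _ => ⟨?_, fun hφ => ?_⟩
  · rintro ⟨u, hu, rfl⟩
    rw [map_mul, map_pow]
    exact mul_le_of_le_one_left' ((O.valuation_le_one_iff u).2 hu)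
  · by_cases hJ : Jac d f ^ m = 0
    · rw [← map_pow, hJ, map_zero, le_zero_iff, Valuation.zero_iff] at hφ
      exact ⟨0, zero_mem _, by rw [hφ, zero_mul]⟩
    · refine ⟨φ / Jac d f ^ m, ?_, (div_mul_cancel₀ _ hJ).symm⟩
      rw [← O.valuation_le_one_iff, map_div₀, div_le_one₀ ((Valuation.pos_iff _).2 hJ), map_pow]
      exact hφ

omit [CharZero k] in
theorem RegI.add {m : ℕ} {φ ψ : F} {O : ValuationSubring F} (h : RegI d m φ O)
    (h' : RegI d m ψ O) : RegI d m (φ + ψ) O := by
  obtain ⟨f, hf, h1⟩ := regI_iff_val.1 h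
  obtain ⟨g, hg, h2⟩ := regI_iff_val.1 h'
  rcases le_total (O.valuation (Jac d f)) (O.valuation (Jac d g)) with h3 | h3
  · exact regI_iff_val.2 ⟨g, hg, O.valuation.map_add_le (h1.trans (pow_le_pow_left' h3 m)) h2⟩
  · exact regI_iff_val.2 ⟨f, hf, O.valuation.map_add_le h1 (h2.trans (pow_le_pow_left' h3 m))⟩

omit [CharZero k] in
theorem RegI.mem_mul {m : ℕ} {φ a : F} {O : ValuationSubring F} (h : RegI d m φ O) (ha : a ∈ O) :
    RegI d m (a * φ) O := by
  obtain ⟨f, hf, u, hu, rfl⟩ := h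
  exact ⟨f, hf, a * u, mul_mem ha hu, (mul_assoc _ _ _).symm⟩

omit [CharZero k] in
theorem RegI.zero (m : ℕ) (O : ValuationSubring F) : RegI d m 0 O :=
  ⟨0, fun _ => zero_mem _, 0, zero_mem _, (zero_mul _).symm⟩

set_option linter.unusedSectionVars false in
set_option linter.unusedVariables false in
theorem Plu.zero_add_smul (m : ℕ) (hm : 0 < m) : ∃ E : Submodule k F, ∀ φ, φ ∈ E ↔ Plu d m φ :=
  ⟨{ carrier := {φ | Plu d m φ}
     add_mem' := fun ha hb O hO => (ha O hO).add (hb O hO)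
     zero_mem' := fun O _ => RegI.zero m O
     smul_mem' := fun a φ h O hO => by
       rw [Algebra.smul_def]
       exact (h O hO).mem_mul (hO.const a) }, fun _ => Iff.rfl⟩

set_option linter.unusedSectionVars false in
theorem RegI.mul {m m' : ℕ} {φ ψ : F} {O : ValuationSubring F} (h : RegI d m φ O)
    (h' : RegI d m' ψ O) : RegI d (m + m') (φ * ψ) O := by
  obtain ⟨f, hf, h1⟩ := regI_iff_val.1 h
  obtain ⟨g, hg, h2⟩ := regI_iff_val.1 h'
  rcases le_total (O.valuation (Jac d f)) (O.valuation (Jac d g)) with h3 | h3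
  · refine regI_iff_val.2 ⟨g, hg, ?_⟩
    rw [map_mul, pow_add]
    exact mul_le_mul' (h1.trans (pow_le_pow_left' h3 m)) h2
  · refine regI_iff_val.2 ⟨f, hf, ?_⟩
    rw [map_mul, pow_add]
    exact mul_le_mul' h1 (h2.trans (pow_le_pow_left' h3 m'))

set_option linter.unusedSectionVars false in
theorem Dual.exists (hz : IsTranscendenceBasis k z) :
    ∃ d : ι → Derivation k F F, Dual k z d := by
  obtain ⟨d, hd⟩ := der_dual_exists hz.1
  exact ⟨d, hz, fun i j => by rw [hd]; simp only [eq_comm]⟩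

omit [CharZero k] [Fintype ι] in
theorem Dual.dual' (h : Dual k z d) (j a : ι) : d j (z a) = if a = j then 1 else 0 := by
  rw [h.dual]
  simp only [eq_comm]

omit [CharZero k] in
theorem Dual.jac_one (h : Dual k z d) : Jac d z = 1 := jac_self h.dual'

omit [CharZero k] in
theorem Dual.isFr (h : Dual k z d) : IsFr d := isFr_dual h.basis h.dual'

theorem Dual.jac_chain (h : Dual k z d) (e : ι → Derivation k F F) (f : ι → F) :
    Jac e f = Jac e z * Jac d f := by
  have := jac_swap h.basis (D := d) (by rw [h.jac_one]; exact one_ne_zero) e f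
  rwa [h.jac_one, mul_one, mul_comm] at this

theorem Adp.regI_iff {O : ValuationSubring F} {c : ι → F} {i0 : ι} (hc : Adp k O c i0) (m : ℕ)
    (φ : F) : RegI d m φ O ↔ O.valuation φ ≤ O.valuation (Jac d c) ^ m :=
  regI_iff_val.trans ⟨fun ⟨_, hf, h⟩ => h.trans (pow_le_pow_left' (hc.jac_le d hf) m),
    fun h => ⟨c, hc.mem, h⟩⟩

theorem plu_iff (h : IsFr d) {m : ℕ} {φ : F} : Plu d m φ ↔ PluD d m φ :=
  ⟨fun hp O _ _ hc => (hc.regI_iff m φ).1 (hp O hc.divisorial), fun hp O hO => by
    obtain ⟨c, i0, hc⟩ := hO.exists_adp h.trdeg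
    exact (hc.regI_iff m φ).2 (hp O c i0 hc)⟩

theorem Dual.ratios_eq (h : Dual k z d) : ratios k F =
    {g | ∃ m : ℕ, 0 < m ∧ ∃ φ ψ : F, Plu d m φ ∧ Plu d m ψ ∧ ψ ≠ 0 ∧ g = φ / ψ} := by
  ext g
  simp only [mem_ratios_iff h.isFr, plu_iff h.isFr, Set.mem_ofPred_eq]

omit [CharZero k] [Fintype ι] [DecidableEq ι] in
theorem Adp.adapted {O : ValuationSubring F} {c : ι → F} {i0 : ι} (h : Adp k O c i0) :
    Adapted k O c i0 where
  ne := h.ne_zero i0
  lt := h.lt
  unif := fun a ha => by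
    rw [← O.valuation_le_one_iff, map_div₀, div_le_one₀ h.val_pos]
    exact h.le_unif ha
  ind := h.res

set_option linter.unusedSectionVars false in
theorem Adapted.basis (hz : IsTranscendenceBasis k z) {O : ValuationSubring F} {c : ι → F} {i0 : ι}
    (hc : Adapted k O c i0) : IsTranscendenceBasis k c := by
  have h1 := (indep_option hc.ne hc.lt (y := fun i : {i // i ≠ i0} => c i) hc.ind).comp _
    (Equiv.optionSubtypeNe i0).symm.injective
  have h2 : AlgebraicIndependent k c := by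
    convert h1 using 1
    ext j
    by_cases hj : j = i0
    · simp [hj]
    · simp [Equiv.optionSubtypeNe_symm_of_ne hj]
  exact h2.isTranscendenceBasis_of_trdeg_le_of_finite hz.cardinalMk_eq_trdeg.ge

theorem Adapted.adp (hz : IsTranscendenceBasis k z) {O : ValuationSubring F}
    [IsDiscreteValuationRing O] {c : ι → F} {i0 : ι} (hc : Adapted k O c i0) : Adp k O c i0 where
  basis := hc.basis hz
  lt := hc.lt
  res := hc.ind
  grp := by
    obtain ⟨t, h0, ht, hg⟩ := exists_unif O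
    have hp : 0 < O.valuation t := (Valuation.pos_iff _).2 h0
    have h1 := hc.unif t ht
    rw [← O.valuation_le_one_iff, map_div₀, div_le_one₀ ((Valuation.pos_iff _).2 hc.ne)] at h1
    obtain ⟨n, hn⟩ := hg _ hc.ne
    have h2 := hc.lt
    rw [hn] at h1 h2
    have h3 := (zpow_lt_one_iff_right_of_lt_one₀ hp ht).1 h2
    nth_rewrite 1 [← zpow_one (O.valuation t)] at h1
    have h4 := (zpow_le_zpow_iff_right_of_lt_one₀ hp ht).1 h1
    obtain rfl : n = 1 := by omega
    rw [hn, zpow_one]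
    exact hg

set_option linter.unusedVariables false in
/-- normal form -/
theorem Adapted.regI_iff (h : Dual k z d) {O : ValuationSubring F} (hO : IsDivisorial k F O)
    (hfg : (⊤ : IntermediateField k F).FG) {c : ι → F} {i0 : ι} (hc : Adapted k O c i0) (m : ℕ)
    (φ : F) : RegI d m φ O ↔ φ / Jac d c ^ m ∈ O := by
  have := hO.1
  rw [(hc.adp h.basis).regI_iff, div_pow_mem_iff (h.isFr.jac_ne (hc.basis h.basis).1)]

set_option linter.unusedSectionVars false in
theorem exists_adapted (hz : IsTranscendenceBasis k z) {O : ValuationSubring F}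
    (hO : IsDivisorial k F O) : Nonempty ι ∧ ∀ i0 : ι, ∃ c : ι → F, Adapted k O c i0 := by
  obtain ⟨c, i1, hc⟩ := hO.exists_adp (ι := ι)
    (by rw [← hz.cardinalMk_eq_trdeg, Cardinal.mk_fintype])
  refine ⟨⟨i1⟩, fun i0 => ⟨c ∘ Equiv.swap i0 i1, ?_⟩⟩
  simpa using (hc.reindex (Equiv.swap i0 i1)).adapted

end A

end Pool.Agent.Lib.MP_5c318e_ag
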