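import Pool.Agent.Lib.MP_5c318e_ag.S.PDefs
import Pool.Agent.Lib.MP_5c318e_ag.RD.RMeas
import Pool.Agent.Lib.MP_5c318e_ag.N.Pol
import Pool.Agent.Lib.MP_9ff3e7_ag.F.Osg

/-! The area formula on Riemann domains, new coordinates, null sets. -/

set_option autoImplicit false
set_option linter.unusedSectionVars false

namespace Pool.Agent.Lib.MP_5c318e_ag

open MeasureTheory Set Filter Topology Function
open Pool.Agent.Lib.MP_9ff3e7_ag

variable {ι : Type} [Fintype ι] [DecidableEq ι] {S S' : Type}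
  [TopologicalSpace S] [MeasurableSpace S] [BorelSpace S] [T2Space S] [SigmaCompactSpace S]
  [TopologicalSpace S'] [MeasurableSpace S'] [BorelSpace S'] [T2Space S'] [SigmaCompactSpace S']

namespace RArea

theorem det_real (A : (ι → ℂ) →L[ℂ] (ι → ℂ)) : |(A.restrictScalars ℝ).det| = ‖A.det‖ ^ 2 := by
  have h : (A.restrictScalars ℝ).det = Algebra.norm ℝ A.det := by
    have := LinearMap.det_restrictScalars (R := ℝ) (S := ℂ) (f := (A : (ι → ℂ) →ₗ[ℂ] (ι → ℂ)))
    simpa [ContinuousLinearMap.det] using this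
  rw [h, Algebra.norm_complex_apply, abs_of_nonneg (Complex.normSq_nonneg _),
    Complex.normSq_eq_norm_sq]

theorem sc (D : RD ι S) : SecondCountableTopology S := by
  obtain ⟨s, hs, h⟩ := countable_cover_nhds_of_sigmaCompact
    (fun x : S => (D.ch x).open_source.mem_nhds (D.mem_src x))
  have := hs.to_subtype
  have : ∀ x : s, SecondCountableTopology (D.ch x).source := fun x =>
    (D.ch x).secondCountableTopology_source
  exact TopologicalSpace.secondCountableTopology_of_countable_cover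
    (U := fun x : s => (D.ch x).source) (fun x => (D.ch x).open_source) (by rw [← h, biUnion_eq_iUnion])

/-- a countable measurable partition into small pieces -/
theorem cover {X : Type} [TopologicalSpace X] [MeasurableSpace X] [OpensMeasurableSpace X]
    [SecondCountableTopology X] {s : Set X} (hs : MeasurableSet s) (W : X → Set X)
    (hW : ∀ x ∈ s, W x ∈ 𝓝 x) : ∃ A : ℕ → Set X, (∀ n, MeasurableSet (A n)) ∧
      Pairwise (Disjoint on A) ∧ ⋃ n, A n = s ∧ ∀ n, A n = ∅ ∨ ∃ x ∈ s, A n ⊆ W x := by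
  obtain ⟨t, h1, h2, h3⟩ := TopologicalSpace.countable_cover_nhdsWithin (s := s)
    (f := fun x => interior (W x)) fun x hx => mem_nhdsWithin_of_mem_nhds (interior_mem_nhds.2 (hW x hx))
  rcases t.eq_empty_or_nonempty with rfl | hne
  · refine ⟨fun _ => ∅, fun _ => MeasurableSet.empty, fun _ _ _ => by simp [onFun], ?_,
      fun _ => Or.inl rfl⟩
    simp only [mem_empty_iff_false, iUnion_of_empty, iUnion_empty, subset_empty_iff] at h3
    simp [h3]
  obtain ⟨f, rfl⟩ := h2.exists_eq_range hne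
  refine ⟨fun n => s ∩ disjointed (fun n => interior (W (f n))) n, fun n => hs.inter
    (MeasurableSet.disjointed (fun _ => isOpen_interior.measurableSet) n), fun i j hij => ?_, ?_,
    fun n => Or.inr ⟨f n, h1 (mem_range_self n), fun x hx => interior_subset
      (disjointed_subset (fun n => interior (W (f n))) n hx.2)⟩⟩
  · exact (disjoint_disjointed (fun n => interior (W (f n))) hij).mono inter_subset_right
      inter_subset_right
  · rw [← inter_iUnion, iUnion_disjointed, inter_eq_left]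
    rwa [biUnion_range] at h3

theorem img_meas0 (D : RD ι S) (x : S) {A : Set S} (hA : MeasurableSet A) :
    MeasurableSet (D.π '' (A ∩ (D.ch x).source)) := by
  rw [D.img_src, inter_comm, ← Subtype.image_preimage_coe]
  exact (MeasurableEmbedding.subtype_coe (D.ch x).open_target.measurableSet).measurableSet_image.2
    ((continuousOn_iff_continuous_domRestrict.1 (D.sec_contOn x)).measurable hA)

theorem img_meas (D : RD ι S) {A : Set S} (hA : MeasurableSet A) : MeasurableSet (D.π '' A) := by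
  have := sc D
  obtain ⟨B, h1, -, h3, h4⟩ := cover hA (fun x => (D.ch x).source)
    fun x _ => (D.ch x).open_source.mem_nhds (D.mem_src x)
  rw [← h3, image_iUnion]
  refine MeasurableSet.iUnion fun n => ?_
  rcases h4 n with h | ⟨x, -, h⟩
  · simp [h]
  · rw [← inter_eq_left.2 h]
    exact img_meas0 D x (h1 n)

theorem emb {X Y : Type} [TopologicalSpace X] [MeasurableSpace X] [BorelSpace X]
    [TopologicalSpace Y] [MeasurableSpace Y] [BorelSpace Y] {τ : X → Y} {A : Set X}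
    (hA : MeasurableSet A) (hc : ContinuousOn τ A) (hi : InjOn τ A)
    (hm : ∀ B ⊆ A, MeasurableSet B → MeasurableSet (τ '' B)) :
    MeasurableEmbedding fun p : A => τ p :=
  ⟨fun p q h => Subtype.ext (hi p.2 q.2 h),
    (continuousOn_iff_continuous_domRestrict.1 hc).measurable, fun B hB => by
      rw [← image_image τ Subtype.val]
      exact hm _ (Subtype.coe_image_subset _ _)
        ((MeasurableEmbedding.subtype_coe hA).measurableSet_image.2 hB)⟩

/-- integrals over a piece of one sheet -/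
theorem lint (D : RD ι S) {A : Set S} (hA : MeasurableSet A) (hi : InjOn D.π A)
    (F : (ι → ℂ) → ENNReal) : ∫⁻ p in A, F (D.π p) ∂D.μ = ∫⁻ z in D.π '' A, F z := by
  have e := emb hA D.cont_π.continuousOn hi fun B _ hB => img_meas D hB
  have h : Measure.map (fun p : A => D.π p) (D.μ.comap Subtype.val) = volume.restrict (D.π '' A) := by
    ext B hB
    rw [e.map_apply, (MeasurableEmbedding.subtype_coe hA).comap_apply, Measure.restrict_apply hB]
    have : Subtype.val '' ((fun p : A => D.π p) ⁻¹' B) = A ∩ D.π ⁻¹' B := by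
      ext p
      simp only [mem_image, mem_preimage, Subtype.exists, exists_and_right, exists_eq_right,
        mem_inter_iff]
      exact ⟨fun ⟨h1, h2⟩ => ⟨h1, h2⟩, fun ⟨h1, h2⟩ => ⟨h1, h2⟩⟩
    rw [this, D.vol _ (hA.inter (D.cont_π.measurable hB)) (hi.mono inter_subset_left),
      image_inter_preimage, inter_comm]
  rw [← h, e.lintegral_map, ← lintegral_subtype_comap hA]

theorem lint_sec (D : RD ι S) (x : S) {A : Set S} (hA : MeasurableSet A)
    (hs : A ⊆ (D.ch x).source) (F : S → ENNReal) :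
    ∫⁻ p in A, F p ∂D.μ = ∫⁻ z in D.π '' A, F (D.sec x z) := by
  rw [← lint D hA ((D.injOn_src x).mono hs)]
  exact setLIntegral_congr_fun hA fun p hp => by rw [RD.sec_π (hs hp)]

theorem germ' (D : RD ι S) {E : Type} (g : S → E) {x p : S} (hp : p ∈ (D.ch x).source) :
    (fun z => g (D.sec x z)) =ᶠ[𝓝 (D.π p)] fun z => g (D.sec p z) := by
  have := RD.germ_f g (RD.π_mem hp)
  rwa [RD.sec_π hp] at this

theorem fd_eq (D : RD ι S) {E : Type} [NormedAddCommGroup E] [NormedSpace ℂ E] (g : S → E)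
    {x p : S} (hp : p ∈ (D.ch x).source) :
    D.fd g p = fderiv ℂ (fun z => g (D.sec x z)) (D.π p) := (germ' D g hp).fderiv_eq.symm

/-- holomorphic near a point: analytic in the chart -/
theorem ana {κ : Type} [Fintype κ] (D : RD ι S) {g : S → κ → ℂ} {x : S}
    (h : ∀ᶠ p in 𝓝 x, DifferentiableAt ℂ (fun z => g (D.sec p z)) (D.π p)) :
    AnalyticAt ℂ (fun z => g (D.sec x z)) (D.π x) := by
  have h1 : ∀ᶠ z in 𝓝 (D.π x), DifferentiableAt ℂ (fun z => g (D.sec x z)) z := by
    filter_upwards [(D.tendsto_sec x).eventually h, RD.tgt_nhds (D.mem_tgt x)] with z h1 h2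
    rw [RD.π_sec h2] at h1
    exact h1.congr_of_eventuallyEq (RD.germ_f g h2)
  obtain ⟨O, h2, h3, h4⟩ := eventually_nhds_iff.1 h1
  refine analyticAt_pi_iff.2 fun k => F.osgood h3 (fun z hz => ?_) _ h4
  exact (differentiableAt_pi.1 (h2 z hz) k).differentiableWithinAt

theorem jac_contAt (D : RD ι S) {g : S → ι → ℂ} {x : S}
    (h : ∀ᶠ p in 𝓝 x, DifferentiableAt ℂ (fun z => g (D.sec p z)) (D.π p)) :
    ContinuousAt (D.jac g) x := by
  have h1 : ContinuousAt (fun p => (fderiv ℂ (fun z => g (D.sec x z)) (D.π p)).det) x :=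
    ContinuousLinearMap.continuous_det.continuousAt.comp
      ((ana D h).fderiv.continuousAt.comp D.cont_π.continuousAt)
  refine h1.congr ?_
  filter_upwards [(D.ch x).open_source.mem_nhds (D.mem_src x)] with p hp
  rw [RD.jac, fd_eq D g hp]

/-- the inverse function theorem in the chart -/
theorem exists_oph (D : RD ι S) {g : S → ι → ℂ} {x : S}
    (h : ∀ᶠ p in 𝓝 x, DifferentiableAt ℂ (fun z => g (D.sec p z)) (D.π p)) (hJ : D.jac g x ≠ 0) :
    ∃ e : OpenPartialHomeomorph S (ι → ℂ), x ∈ e.source ∧ EqOn g e e.source := by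
  have h1 := (ana D h).hasStrictFDerivAt
  obtain ⟨L, hL⟩ : ∃ L : (ι → ℂ) ≃L[ℂ] (ι → ℂ), (L : (ι → ℂ) →L[ℂ] (ι → ℂ)) = D.fd g x :=
    ⟨_, ContinuousLinearMap.coe_toContinuousLinearEquivOfDetNeZero _ hJ⟩
  have h2 : HasStrictFDerivAt (fun z => g (D.sec x z)) (L : (ι → ℂ) →L[ℂ] (ι → ℂ)) (D.π x) := by
    rw [hL]
    exact h1
  refine ⟨(D.ch x).trans (h2.toOpenPartialHomeomorph _), ⟨D.mem_src x, ?_⟩, fun p hp => ?_⟩
  · show D.ch x x ∈ (h2.toOpenPartialHomeomorph _).source
    rw [D.ch_coe]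
    exact h2.mem_toOpenPartialHomeomorph_source
  · rw [OpenPartialHomeomorph.trans_apply, D.ch_coe, h2.toOpenPartialHomeomorph_coe]
    exact (congrArg g (RD.sec_π hp.1)).symm

theorem loc (D : RD ι S) (D' : RD ι S') {τ : S → S'} {A : Set S} (hA : MeasurableSet A) {x : S}
    {y : S'} (hs : A ⊆ (D.ch x).source) (hs' : MapsTo τ A (D'.ch y).source) (hi : InjOn τ A)
    (hh : ∀ p ∈ A, DifferentiableAt ℂ (fun z => D'.π (τ (D.sec p z))) (D.π p)) :
    MeasurableSet (τ '' A) ∧ ∀ H : S' → ENNReal, ∫⁻ q in τ '' A, H q ∂D'.μ =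
      ∫⁻ p in A, ENNReal.ofReal (‖D.jac (fun p => D'.π (τ p)) p‖ ^ 2) * H (τ p) ∂D.μ := by
  let φ : (ι → ℂ) → ι → ℂ := fun z => D'.π (τ (D.sec x z))
  have hd : ∀ z ∈ D.π '' A, HasFDerivWithinAt φ ((fderiv ℂ φ z).restrictScalars ℝ) (D.π '' A) z := by
    rintro _ ⟨p, hp, rfl⟩
    exact (((hh p hp).congr_of_eventuallyEq (germ' D (fun p => D'.π (τ p)) (hs hp))).hasFDerivAt.restrictScalars
      ℝ).hasFDerivWithinAt
  have hφ : ∀ p ∈ A, φ (D.π p) = D'.π (τ p) := fun p hp => by simp only [φ, RD.sec_π (hs hp)]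
  have hj : InjOn φ (D.π '' A) := by
    rintro _ ⟨p, hp, rfl⟩ _ ⟨q, hq, rfl⟩ e
    rw [hφ p hp, hφ q hq] at e
    rw [hi hp hq (D'.injOn_src y (hs' hp) (hs' hq) e)]
  have him : D'.π '' (τ '' A) = φ '' (D.π '' A) := by
    rw [image_image, image_image]
    exact image_congr fun p hp => (hφ p hp).symm
  have hm : MeasurableSet (τ '' A) := by
    have : τ '' A = (D'.ch y).source ∩ D'.π ⁻¹' (φ '' (D.π '' A)) := by
      rw [← him]
      refine subset_antisymm (fun q hq => ⟨hs'.image_subset hq, mem_image_of_mem _ hq⟩) ?_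
      rintro q ⟨h1, q', h2, h3⟩
      rwa [← D'.injOn_src y (hs'.image_subset h2) h1 h3]
    rw [this]
    exact (D'.ch y).open_source.measurableSet.inter (D'.cont_π.measurable
      (measurable_image_of_fderivWithin (img_meas D hA) hd hj))
  refine ⟨hm, fun H => ?_⟩
  rw [lint_sec D' y hm hs'.image_subset, him,
    lintegral_image_eq_lintegral_abs_det_fderiv_mul volume (img_meas D hA) hd hj,
    ← lint D hA ((D.injOn_src x).mono hs)]
  refine setLIntegral_congr_fun hA fun p hp => ?_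
  simp only [det_real, hφ p hp, RD.sec_π (hs' hp), RD.jac, fd_eq D _ (hs hp), φ]

theorem tsum_fib {X Y : Type} {τ : X → Y} {A : ℕ → Set X} (hd : Pairwise (Disjoint on A))
    (hi : ∀ n, InjOn τ (A n)) (G : X → ENNReal) (q : Y) {T : Set X}
    (hT : ∀ p, p ∈ T ↔ (∃ n, p ∈ A n) ∧ τ p = q) :
    ∑' n, extend (fun p : A n => τ p) (fun p => G p) 0 q = ∑' p : T, G p := by
  classical
  have h1 : ∀ n, extend (fun p : A n => τ p) (fun p => G p) 0 q =
      ∑' p, (T ∩ A n).indicator G p := by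
    intro n
    by_cases h : ∃ p : A n, τ p = q
    · obtain ⟨p, rfl⟩ := h
      rw [Injective.extend_apply (fun a b e => Subtype.ext (hi n a.2 b.2 e)),
        tsum_eq_single p.1 fun p' hp' => indicator_of_notMem
          (fun hh => hp' (hi n hh.2 p.2 ((hT _).1 hh.1).2)) _,
        indicator_of_mem (mem_inter ((hT _).2 ⟨⟨n, p.2⟩, rfl⟩) p.2)]
    · rw [extend_apply' _ _ _ h]
      refine (ENNReal.tsum_eq_zero.2 fun p => indicator_of_notMem (fun hh => h ?_) _).symm
      exact ⟨⟨p, hh.2⟩, ((hT _).1 hh.1).2⟩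
  simp only [h1]
  rw [ENNReal.tsum_comm, tsum_subtype]
  refine tsum_congr fun p => ?_
  by_cases hp : p ∈ T
  · obtain ⟨n, hn⟩ := ((hT p).1 hp).1
    rw [tsum_eq_single n fun m hm => indicator_of_notMem
      (fun hh => disjoint_left.1 (hd hm) hh.2 hn) _, indicator_of_mem (mem_inter hp hn),
      indicator_of_mem hp]
  · rw [indicator_of_notMem hp]
    exact ENNReal.tsum_eq_zero.2 fun n => indicator_of_notMem (fun hh => hp hh.1) _

/-- the area formula together with the measurability of the fibre sums -/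
theorem area (D : RD ι S) (D' : RD ι S') {U : Set S} (hU : IsOpen U) {τ : S → S'}
    (hc : ContinuousOn τ U)
    (hh : ∀ p ∈ U, DifferentiableAt ℂ (fun z => D'.π (τ (D.sec p z))) (D.π p))
    {G : S → ENNReal} (hG : Measurable G) :
    (Measurable fun q =>
      ∑' p : {p | p ∈ U ∧ τ p = q ∧ D.jac (fun p => D'.π (τ p)) p ≠ 0}, G p) ∧
    ∫⁻ p in U, ENNReal.ofReal (‖D.jac (fun p => D'.π (τ p)) p‖ ^ 2) * G p ∂D.μ =
      ∫⁻ q, ∑' p : {p | p ∈ U ∧ τ p = q ∧ D.jac (fun p => D'.π (τ p)) p ≠ 0}, G p ∂D'.μ := by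
  have := sc D
  set J := D.jac fun p => D'.π (τ p) with hJ
  have hev : ∀ x ∈ U, ∀ᶠ p in 𝓝 x, DifferentiableAt ℂ (fun z => D'.π (τ (D.sec p z))) (D.π p) :=
    fun x hx => Filter.mem_of_superset (hU.mem_nhds hx) hh
  have ho : IsOpen {p | p ∈ U ∧ J p ≠ 0} := isOpen_iff_mem_nhds.2 fun x hx =>
    inter_mem (hU.mem_nhds hx.1) ((jac_contAt D (g := fun p => D'.π (τ p)) (hev x hx.1)).eventually_ne hx.2)
  have hW : ∀ x, x ∈ {p | p ∈ U ∧ J p ≠ 0} → ∃ W ∈ 𝓝 x, W ⊆ (D.ch x).source ∧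
      MapsTo τ W (D'.ch (τ x)).source ∧ InjOn τ W := by
    intro x hx
    obtain ⟨e, h1, h2⟩ := exists_oph D (g := fun p => D'.π (τ p)) (hev x hx.1) hx.2
    refine ⟨(D.ch x).source ∩ (τ ⁻¹' (D'.ch (τ x)).source ∩ e.source),
      inter_mem ((D.ch x).open_source.mem_nhds (D.mem_src x)) (inter_mem
        ((hc.continuousAt (hU.mem_nhds hx.1)).eventually
          ((D'.ch (τ x)).open_source.mem_nhds (D'.mem_src _))) (e.open_source.mem_nhds h1)),
      inter_subset_left, fun p hp => hp.2.1, fun p hp q hq k => e.injOn hp.2.2 hq.2.2 ?_⟩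
    rw [← h2 hp.2.2, ← h2 hq.2.2]
    exact congrArg D'.π k
  choose! W w1 w2 w3 w4 using hW
  obtain ⟨A, a1, a2, a3, a4⟩ := cover ho.measurableSet W w1
  have a5 : ∀ n, A n ⊆ {p | p ∈ U ∧ J p ≠ 0} := fun n => a3 ▸ subset_iUnion A n
  have a6 : ∀ n, InjOn τ (A n) := fun n => by
    rcases a4 n with h | ⟨x, hx, h⟩
    · rw [h]; exact injOn_empty _
    · exact (w4 x hx).mono h
  have a7 : ∀ n, ∀ B ⊆ A n, MeasurableSet B → MeasurableSet (τ '' B) ∧ ∀ H : S' → ENNReal,
      ∫⁻ q in τ '' B, H q ∂D'.μ = ∫⁻ p in B, ENNReal.ofReal (‖J p‖ ^ 2) * H (τ p) ∂D.μ := by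
    intro n B hB hm
    rcases a4 n with h | ⟨x, hx, h⟩
    · rw [h, subset_empty_iff] at hB
      simp [hB]
    · exact loc D D' hm ((hB.trans h).trans (w2 x hx)) ((w3 x hx).mono_left (hB.trans h))
        ((a6 n).mono hB) fun p hp => hh p (a5 n (hB hp)).1
  have em : ∀ n, MeasurableEmbedding fun p : A n => τ p := fun n =>
    emb (a1 n) (hc.mono fun p hp => (a5 n hp).1) (a6 n) fun B hB hm => (a7 n B hB hm).1
  have mH : ∀ n, Measurable (extend (fun p : A n => τ p) (fun p => G p) 0) := fun n =>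
    (em n).measurable_extend (hG.comp measurable_subtype_coe) measurable_zero
  have e1 : ∀ q, ∑' p : {p | p ∈ U ∧ τ p = q ∧ J p ≠ 0}, G p =
      ∑' n, extend (fun p : A n => τ p) (fun p => G p) 0 q := fun q =>
    (tsum_fib a2 a6 G q fun p => by
      rw [← mem_iUnion, a3]
      exact ⟨fun h => ⟨⟨h.1, h.2.2⟩, h.2.1⟩, fun h => ⟨h.1.1, h.2, h.1.2⟩⟩).symm
  simp only [e1]
  refine ⟨Measurable.tsum mH, ?_⟩
  rw [lintegral_tsum fun n => (mH n).aemeasurable, ← lintegral_inter_add_sdiff _ U ho.measurableSet,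
    inter_eq_right.2 fun p hp => hp.1, setLIntegral_congr_fun (g := fun _ => 0)
      (hU.measurableSet.diff ho.measurableSet) fun p hp => by
        have : J p = 0 := by_contra fun h => hp.2 ⟨hp.1, h⟩
        simp [this], lintegral_zero, add_zero, ← a3, lintegral_iUnion a1 a2]
  refine tsum_congr fun n => ?_
  rw [← setLIntegral_eq_of_support_subset (s := τ '' A n) fun q hq => by
    by_contra h
    exact hq (extend_apply' _ _ _ fun ⟨p, hp⟩ => h ⟨p, p.2, hp⟩), (a7 n _ subset_rfl (a1 n)).2]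
  refine setLIntegral_congr_fun (a1 n) fun p hp => ?_
  exact congrArg _ ((em n).injective.extend_apply (fun p : A n => G p) 0 ⟨p, hp⟩).symm

theorem null_pre (D : RD ι S) {N : Set (ι → ℂ)} (hN : volume N = 0) : D.μ (D.π ⁻¹' N) = 0 := by
  have := sc D
  obtain ⟨M, h1, h2, h3⟩ := exists_measurable_superset_of_null hN
  refine measure_mono_null (preimage_mono h1) ?_
  obtain ⟨B, b1, -, b3, b4⟩ := cover (D.cont_π.measurable h2) (fun x => (D.ch x).source)
    fun x _ => (D.ch x).open_source.mem_nhds (D.mem_src x)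
  rw [← b3]
  refine measure_iUnion_null fun n => ?_
  rcases b4 n with h | ⟨x, -, h⟩
  · simp [h]
  · rw [D.vol _ (b1 n) ((D.injOn_src x).mono h)]
    refine measure_mono_null ?_ h3
    rw [image_subset_iff, ← b3]
    exact subset_iUnion B n

theorem null_poly {g : MvPolynomial ι ℂ} (hg : g ≠ 0) : ∀ᵐ z : ι → ℂ, MvPolynomial.eval z g ≠ 0 := by
  obtain ⟨m, hm⟩ := MvPolynomial.ne_zero_iff.1 hg
  have hc : (0 : ℝ) < 1 / (g.totalDegree + 1) := by positivity
  have h : ∀ n : ℕ, ∀ᵐ z : ι → ℂ, z ∈ Metric.closedBall (0 : ι → ℂ) n →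
      MvPolynomial.eval z g ≠ 0 := by
    intro n
    obtain ⟨C, hC, h⟩ := N.pol (ι := ι) (d := g.totalDegree) hc (by
      rw [div_mul_eq_mul_div, div_lt_iff₀ (by positivity)]
      have : (0 : ℝ) ≤ g.totalDegree := Nat.cast_nonneg _
      linarith) (Nat.cast_nonneg n)
    have h1 := (h g le_rfl m).trans_lt (ENNReal.mul_lt_top hC.lt_top (lt_top_iff_ne_top.2 (by
      simp [ENNReal.rpow_eq_top_iff, hm])))
    have h2 := ae_lt_top ((N.measurable_eval g).enorm.pow_const _) h1.ne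
    rw [ae_restrict_iff' measurableSet_closedBall] at h2
    filter_upwards [h2] with z h3 hz e
    have := h3 hz
    rw [e, enorm_zero, ENNReal.zero_rpow_of_neg (neg_neg_of_pos hc)] at this
    exact lt_irrefl _ this
  filter_upwards [ae_all_iff.2 h] with z hz
  obtain ⟨n, hn⟩ := exists_nat_ge ‖z‖
  exact hz n (mem_closedBall_zero_iff.2 hn)

end RArea

/-- area formula -/
theorem RD.area (D : RD ι S) (D' : RD ι S') {U : Set S} (hU : IsOpen U) {τ : S → S'}
    (hc : ContinuousOn τ U)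
    (hh : ∀ p ∈ U, DifferentiableAt ℂ (fun z => D'.π (τ (D.sec p z))) (D.π p))
    {G : S → ENNReal} (hG : Measurable G) :
    ∫⁻ p in U, ENNReal.ofReal (‖D.jac (fun p => D'.π (τ p)) p‖ ^ 2) * G p ∂D.μ =
      ∫⁻ q, ∑' p : {p | p ∈ U ∧ τ p = q ∧ D.jac (fun p => D'.π (τ p)) p ≠ 0}, G p ∂D'.μ :=
  (RArea.area D D' hU hc hh hG).2

/-- the coordinate space as a Riemann domain -/
theorem RD.exists_id : ∃ D : RD ι (ι → ℂ), D.π = id ∧ D.μ = volume ∧ ∀ x, D.sec x =ᶠ[𝓝 x] id := by
  let D : RD ι (ι → ℂ) := ⟨id, (Homeomorph.refl _).isLocalHomeomorph, volume, fun A _ _ => by simp⟩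
  exact ⟨D, rfl, rfl, fun x => (D.sec_unique (x := x) (σ := id) rfl continuousAt_id
    (.of_forall fun _ => rfl)).symm⟩

/-- new coordinates -/
theorem RD.isLocalHomeomorph_of_jac (D : RD ι S) {g : S → ι → ℂ} (hg : D.Hol g)
    (hJ : ∀ p, D.jac g p ≠ 0) : IsLocalHomeomorph g :=
  IsLocalHomeomorph.mk g fun x => RArea.exists_oph D (.of_forall hg) (hJ x)

theorem RD.hol_of_jac (D D' : RD ι S) (hg : D.Hol D'.π) (hJ : ∀ p, D.jac D'.π p ≠ 0)
    {E : Type} [NormedAddCommGroup E] [NormedSpace ℂ E] {u : S → E} {p : S}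
    (hu : DifferentiableAt ℂ (fun z => u (D.sec p z)) (D.π p)) :
    DifferentiableAt ℂ (fun z => u (D'.sec p z)) (D'.π p) ∧
      D.fd u p = (D'.fd u p).comp (D.fd D'.π p) := by
  have s1 : ∀ᶠ w in 𝓝 (D'.π p), D.sec p (D.π (D'.sec p w)) = D'.sec p w :=
    ((D'.tendsto_sec p).eventually ((D.ch p).open_source.mem_nhds (D.mem_src p))).mono
      fun _ h => RD.sec_π h
  have s2 : ∀ᶠ z in 𝓝 (D.π p), D'.sec p (D'.π (D.sec p z)) = D.sec p z :=
    ((D.tendsto_sec p).eventually ((D'.ch p).open_source.mem_nhds (D'.mem_src p))).mono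
      fun _ h => RD.sec_π h
  obtain ⟨L, hL⟩ : ∃ L : (ι → ℂ) ≃L[ℂ] (ι → ℂ), (L : (ι → ℂ) →L[ℂ] (ι → ℂ)) = D.fd D'.π p :=
    ⟨_, ContinuousLinearMap.coe_toContinuousLinearEquivOfDetNeZero _ (hJ p)⟩
  have h1 : HasFDerivAt (fun w => D.π (D'.sec p w)) (L.symm : (ι → ℂ) →L[ℂ] (ι → ℂ)) (D'.π p) := by
    refine HasFDerivAt.of_local_left_inverse (f := fun z => D'.π (D.sec p z))
      (D.cont_π.continuousAt.comp (RD.sec_contAt (D'.mem_tgt p))) ?_ ?_
    · rw [D'.sec_self, hL]
      exact (hg p).hasFDerivAt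
    · filter_upwards [s1, D'.π_sec_ev p] with w e1 e2
      rw [e1, e2]
  have h2 : DifferentiableAt ℂ (fun z => u (D'.sec p z)) (D'.π p) := by
    have := DifferentiableAt.comp (D'.π p) (g := fun z => u (D.sec p z))
      (by rw [D'.sec_self]; exact hu) h1.differentiableAt
    exact this.congr_of_eventuallyEq (s1.mono fun w e => (congrArg u e).symm)
  refine ⟨h2, ?_⟩
  have h3 := fderiv_comp (D.π p) (g := fun z => u (D'.sec p z)) (f := fun z => D'.π (D.sec p z))
    (by rw [D.sec_self]; exact h2) (hg p)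
  rw [D.sec_self] at h3
  rw [RD.fd, RD.fd, RD.fd, ← h3]
  exact Filter.EventuallyEq.fderiv_eq (s2.mono fun z e => (congrArg u e).symm)

/-- zero sets of polynomials in the coordinates are null -/
theorem RD.null_poly (D : RD ι S) {g : MvPolynomial ι ℂ} (hg : g ≠ 0) :
    ∀ᵐ p ∂D.μ, MvPolynomial.eval (D.π p) g ≠ 0 :=
  RArea.null_pre D (RArea.null_poly hg)

theorem RD.openPos (D : RD ι S) : D.μ.IsOpenPosMeasure := ⟨fun U hU ⟨x, hx⟩ h => by
  have ho := hU.inter (D.ch x).open_source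
  have h1 := measure_mono_null (inter_subset_left (t := (D.ch x).source)) h
  rw [D.vol _ ho.measurableSet ((D.injOn_src x).mono inter_subset_right)] at h1
  exact (D.loc.isOpenMap _ ho).measure_ne_zero volume ⟨_, x, ⟨hx, D.mem_src x⟩, rfl⟩ h1⟩

theorem RD.ae_of_gen (D : RD ι S) {P : S → Prop} (h : ∀ᶠ p in D.gen, P p) : ∀ᵐ p ∂D.μ, P p := by
  obtain ⟨g, hg, h⟩ := h
  exact (D.null_poly hg).mono h

end Pool.Agent.Lib.MP_5c318e_ag
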