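import Pool.Agent.Lib.MP_5c318e_ag.S.PBas
import Pool.Agent.Lib.MP_5c318e_ag.S.APlu
import Pool.Agent.Lib.MP_5c318e_ag.S.RCov
import Pool.Agent.Lib.MP_5c318e_ag.S.RArea
import Pool.Agent.Lib.MP_5c318e_ag.RD.RInt

/-! Closure properties of moderate growth, the volume of a polydisc in a finite covering, and the
integral of a regular form over a space covered by finitely many frames. -/

set_option autoImplicit false

namespace Pool.Agent.Lib.MP_5c318e_ag

open MeasureTheory Set Filter Topology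

noncomputable section

namespace Front

section mod

variable {ι : Type} [Fintype ι]

/-- the weight of moderate growth -/
def wt (g : MvPolynomial ι ℂ) (z : ι → ℂ) : ℝ := (1 + ‖z‖) / ‖MvPolynomial.eval z g‖ + (1 + ‖z‖)

theorem le_wt (g : MvPolynomial ι ℂ) (z : ι → ℂ) : 1 + ‖z‖ ≤ wt g z :=
  le_add_of_nonneg_left (by positivity)

theorem one_le_wt (g : MvPolynomial ι ℂ) (z : ι → ℂ) : 1 ≤ wt g z :=
  (le_add_of_nonneg_right (norm_nonneg z)).trans (le_wt g z)

theorem wt_mul (g h : MvPolynomial ι ℂ) : ∃ (A : ℝ) (N : ℕ), 0 ≤ A ∧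
    ∀ z, MvPolynomial.eval z (g * h) ≠ 0 → wt g z ≤ A * wt (g * h) z ^ N := by
  obtain ⟨A, N, hA, H⟩ := pl_mv h
  refine ⟨A + 1, N + 1, by positivity, fun z hz => ?_⟩
  have h1 := one_le_wt (g * h) z
  have h2 := le_wt (g * h) z
  have h3 : ‖MvPolynomial.eval z h‖ ≤ A * wt (g * h) z ^ N :=
    (H _ h1 z z (by linarith) (by linarith)).1
  rw [map_mul] at hz
  have hg := norm_pos_iff.2 (left_ne_zero_of_mul hz)
  have hh := norm_pos_iff.2 (right_ne_zero_of_mul hz)
  have h4 : (1 + ‖z‖) / ‖MvPolynomial.eval z (g * h)‖ ≤ wt (g * h) z :=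
    le_add_of_nonneg_right (by positivity)
  have h5 : (1 + ‖z‖) / ‖MvPolynomial.eval z g‖ =
      ‖MvPolynomial.eval z h‖ * ((1 + ‖z‖) / ‖MvPolynomial.eval z (g * h)‖) := by
    rw [map_mul, norm_mul]; field_simp
  have h6 : wt (g * h) z ≤ wt (g * h) z ^ (N + 1) := le_self_pow₀ h1 (Nat.succ_ne_zero N)
  calc wt g z = ‖MvPolynomial.eval z h‖ * ((1 + ‖z‖) / ‖MvPolynomial.eval z (g * h)‖) +
        (1 + ‖z‖) := by rw [wt, h5]
    _ ≤ A * wt (g * h) z ^ N * wt (g * h) z + wt (g * h) z ^ (N + 1) :=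
        add_le_add (mul_le_mul h3 h4 (by positivity) (hh.le.trans h3)) (h2.trans h6)
    _ = _ := by ring

variable {S : Type} [TopologicalSpace S] [MeasurableSpace S] {D : RD ι S} {u v : S → ENNReal}

theorem mod_shrink (h : D.Mod u) : ∃ g : MvPolynomial ι ℂ, g ≠ 0 ∧ ∀ g' : MvPolynomial ι ℂ,
    ∃ (A : ℝ) (N : ℕ), 0 ≤ A ∧ ∀ p, MvPolynomial.eval (D.π p) (g * g') ≠ 0 →
      u p ≤ ENNReal.ofReal (A * wt (g * g') (D.π p) ^ N) := by
  obtain ⟨g, hg, A, N, H⟩ := h
  refine ⟨g, hg, fun g' => ?_⟩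
  obtain ⟨A', N', hA', H'⟩ := wt_mul g g'
  refine ⟨|A| * A' ^ N, N' * N, by positivity, fun p hp => ?_⟩
  have h1 : MvPolynomial.eval (D.π p) g ≠ 0 := left_ne_zero_of_mul (by rwa [map_mul] at hp)
  refine (H p h1).trans (ENNReal.ofReal_le_ofReal ?_)
  have h2 := zero_le_one.trans (one_le_wt g (D.π p))
  calc A * wt g (D.π p) ^ N ≤ |A| * (A' * wt (g * g') (D.π p) ^ N') ^ N :=
        mul_le_mul (le_abs_self A) (pow_le_pow_left₀ h2 (H' _ hp) N) (pow_nonneg h2 N)
          (abs_nonneg A)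
    _ = _ := by rw [mul_pow, ← pow_mul, mul_assoc]

theorem mod_two (hu : D.Mod u) (hv : D.Mod v) : ∃ g : MvPolynomial ι ℂ, g ≠ 0 ∧
    ∃ (A : ℝ) (N : ℕ), 0 ≤ A ∧ ∀ p, MvPolynomial.eval (D.π p) g ≠ 0 →
      u p ≤ ENNReal.ofReal (A * wt g (D.π p) ^ N) ∧ v p ≤ ENNReal.ofReal (A * wt g (D.π p) ^ N) := by
  obtain ⟨g, hg, H⟩ := mod_shrink hu
  obtain ⟨g', hg', H'⟩ := mod_shrink hv
  obtain ⟨A, N, hA, H⟩ := H g'
  obtain ⟨A', N', hA', H'⟩ := H' g
  rw [mul_comm g' g] at H'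
  refine ⟨g * g', mul_ne_zero hg hg', A + A', N + N', by positivity, fun p hp => ?_⟩
  have h1 := one_le_wt (g * g') (D.π p)
  have h2 := zero_le_one.trans h1
  exact ⟨(H p hp).trans (ENNReal.ofReal_le_ofReal (mul_le_mul (by linarith)
      (pow_le_pow_right₀ h1 (Nat.le_add_right _ _)) (pow_nonneg h2 _) (by positivity))),
    (H' p hp).trans (ENNReal.ofReal_le_ofReal (mul_le_mul (by linarith)
      (pow_le_pow_right₀ h1 (Nat.le_add_left _ _)) (pow_nonneg h2 _) (by positivity)))⟩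

theorem mod_add (hu : D.Mod u) (hv : D.Mod v) : D.Mod fun p => u p + v p := by
  obtain ⟨g, hg, A, N, hA, H⟩ := mod_two hu hv
  refine ⟨g, hg, A + A, N, fun p hp => (add_le_add (H p hp).1 (H p hp).2).trans_eq ?_⟩
  have h2 := mul_nonneg hA (pow_nonneg (zero_le_one.trans (one_le_wt g (D.π p))) N)
  rw [← ENNReal.ofReal_add h2 h2, ← add_mul]
  rfl

theorem mod_mul (hu : D.Mod u) (hv : D.Mod v) : D.Mod fun p => u p * v p := by
  obtain ⟨g, hg, A, N, hA, H⟩ := mod_two hu hv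
  refine ⟨g, hg, A * A, N + N, fun p hp => (mul_le_mul' (H p hp).1 (H p hp).2).trans_eq ?_⟩
  have h2 := mul_nonneg hA (pow_nonneg (zero_le_one.trans (one_le_wt g (D.π p))) N)
  rw [← ENNReal.ofReal_mul h2, mul_mul_mul_comm, ← pow_add]
  rfl

theorem mod_const (D : RD ι S) {c : ENNReal} (hc : c ≠ ⊤) : D.Mod fun _ => c :=
  ⟨1, one_ne_zero, c.toReal, 0, fun p _ => by simp [ENNReal.ofReal_toReal hc]⟩

theorem mod_mono (hv : D.Mod v) (h : ∀ᶠ p in D.gen, u p ≤ v p) : D.Mod u := by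
  obtain ⟨g, hg, H⟩ := mod_shrink hv
  obtain ⟨g', hg', H'⟩ := h
  obtain ⟨A, N, -, H⟩ := H g'
  exact ⟨g * g', mul_ne_zero hg hg', A, N, fun p hp =>
    le_trans (H' p (right_ne_zero_of_mul (by rwa [map_mul] at hp))) (H p hp)⟩

theorem mod_pow (hu : D.Mod u) (n : ℕ) : D.Mod fun p => u p ^ n := by
  induction n with
  | zero => simpa using mod_const D ENNReal.one_ne_top
  | succ n ih => simpa only [pow_succ] using mod_mul ih hu

theorem mod_sum {I : Type*} (s : Finset I) {u : I → S → ENNReal} (h : ∀ i ∈ s, D.Mod (u i)) :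
    D.Mod fun p => ∑ i ∈ s, u i p := by
  classical
  induction s using Finset.induction_on with
  | empty => simpa using mod_const D ENNReal.zero_ne_top
  | insert i s hi ih =>
    simpa only [Finset.sum_insert hi] using mod_add (h i (Finset.mem_insert_self i s))
      (ih fun j hj => h j (Finset.mem_insert_of_mem hj))

theorem mod_lt_top (hu : D.Mod u) : ∀ᶠ p in D.gen, u p < ⊤ := by
  obtain ⟨g, hg, A, N, H⟩ := hu
  exact ⟨g, hg, fun p hp => (H p hp).trans_lt ENNReal.ofReal_lt_top⟩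

end mod

section vol

variable {ι : Type} [Fintype ι] {S : Type} [TopologicalSpace S] [MeasurableSpace S] [BorelSpace S]
  [SigmaCompactSpace S] {D : RD ι S}

/-- the mass above a set is at most the number of sheets times its volume -/
theorem cov_vol (C : D.Cov) {A : Set (ι → ℂ)} (hA : MeasurableSet A) :
    ∫⁻ p, indicator A 1 (D.π p) ∂D.μ ≤ C.f.natDegree * volume A := by
  rw [D.lintegral_eq (F := fun p => indicator A 1 (D.π p))
      ((measurable_one.indicator hA).comp D.cont_π.measurable), ← lintegral_indicator_one hA,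
    ← lintegral_const_mul _ (measurable_one.indicator hA)]
  refine lintegral_mono fun z => ?_
  have e : ∀ y : D.π ⁻¹' {z}, indicator A (1 : (ι → ℂ) → ENNReal) (D.π y) = indicator A 1 z :=
    fun y => by rw [show D.π y = z from y.2]
  simp only [e]
  rw [ENNReal.tsum_set_const]
  exact mul_le_mul_left (by exact_mod_cast ENat.toENNReal_le.2 (C.card_le z)) _

theorem ball_vol (ι : Type) [Fintype ι] : ∃ (v : ENNReal) (d : ℕ), v ≠ ⊤ ∧ ∀ R : ℝ, 0 ≤ R →
    volume {z : ι → ℂ | ∀ j, ‖z j‖ ≤ R} = ENNReal.ofReal R ^ d * v :=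
  ⟨volume (Metric.ball (0 : ι → ℂ) 1), Module.finrank ℝ (ι → ℂ), measure_ball_lt_top.ne,
    fun R hR => by
      rw [← ENNReal.ofReal_pow hR, ← Measure.addHaar_closedBall _ (0 : ι → ℂ) hR]
      congr 1
      ext z
      rw [mem_closedBall_zero_iff, pi_norm_le_iff_of_nonneg hR]
      rfl⟩

end vol

section core

variable {k F ι : Type} [Field k] [Field F] [Algebra k F] [Fintype ι] [DecidableEq ι]
  {d : ι → Derivation k F F}

theorem basis_of_jac [CharZero F] {z f : ι → F} (hz : IsTranscendenceBasis k z)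
    (h : Jac d f ≠ 0) : IsTranscendenceBasis k f :=
  (indep_kR_iff.1 (indep_of_jac (k0 := kR k F) d (fun _ => der_kR _)
    h)).isTranscendenceBasis_of_trdeg_le_of_finite hz.cardinalMk_eq_trdeg.ge

/-- the polydisc of radius `R` in the coordinates `f` -/
def disc (f : ι → F) (R : ℝ) : Set (F → ℂ) := {g | ∀ j, ‖g (f j)‖ ≤ R}

omit [Field F] [DecidableEq ι] in
theorem disc_meas (f : ι → F) (R : ℝ) : MeasurableSet (disc f R) := by
  rw [disc, ofPred_forall]
  exact MeasurableSet.iInter fun j =>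
    measurableSet_le (measurable_pi_apply (f j)).norm measurable_const

/-- at every complex point one of the frames bounds the form -/
theorem cert (Fr : Frames d) {m : ℕ} (hm : 0 < m) {φ : F} (hφ : Plu d m φ) :
    ∃ (s : Finset F) (c : Finset k) (n : ℕ), ∀ (x : CPt F) (B : ℝ), 1 ≤ B →
      (∀ a ∈ c, algebraMap k F a ∈ x.R ∧ ‖x.ev (algebraMap k F a)‖ ≤ B) → (∀ g ∈ s, g ∈ x.R) →
      ENNReal.ofReal (‖x.ev φ‖ ^ (2 / m : ℝ)) ≤ ENNReal.ofReal ((n + 1) * B ^ n) ^ 2 *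
        ∑ i, ENNReal.ofReal (‖x.ev (Jac d (Fr.f i))‖ ^ 2) *
          indicator (disc (Fr.f i) ((n + 1) * B ^ n)) 1 x.ev := by
  classical
  let u : Fin Fr.N → F := fun i => φ / Jac d (Fr.f i) ^ m
  let G : Fin Fr.N → Finset F := fun i => insert (u i) (Finset.univ.image (Fr.f i))
  obtain ⟨s, c, n, H⟩ := cover_cert (k := k) G fun O hO => by
    obtain ⟨i, hi⟩ := Fr.cover O hO
    refine ⟨i, fun g hg => hi g ?_⟩
    rcases Finset.mem_insert.1 hg with rfl | hg
    · exact Fr.reg i m φ hφ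
    · obtain ⟨j, -, rfl⟩ := Finset.mem_image.1 hg
      exact Fr.mem i j
  refine ⟨Finset.univ.biUnion G ∪ Finset.univ.image fun i => Jac d (Fr.f i), c, n,
    fun x B hB hc hs => ?_⟩
  have hG : ∀ i, ∀ g ∈ G i, g ∈ x.R := fun i g hg =>
    hs g (Finset.mem_union_left _ (Finset.mem_biUnion.2 ⟨i, Finset.mem_univ i, hg⟩))
  obtain ⟨i, -, hi⟩ := H x B hB hc fun i _ => hG i
  have hJ : Jac d (Fr.f i) ∈ x.R :=
    hs _ (Finset.mem_union_right _ (Finset.mem_image_of_mem _ (Finset.mem_univ i)))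
  have hp : 1 ≤ B ^ n := one_le_pow₀ hB
  have hn : (0 : ℝ) ≤ n := Nat.cast_nonneg n
  have hR : n * B ^ n ≤ (n + 1) * B ^ n := by nlinarith
  have hR1 : 1 ≤ (n + 1) * B ^ n := by nlinarith
  generalize (n + 1) * B ^ n = R at hR hR1 ⊢
  have hu : ‖x.ev (u i)‖ ≤ R := (hi _ (Finset.mem_insert_self _ _)).trans hR
  have hd : x.ev ∈ disc (Fr.f i) R := fun j => (hi _ (Finset.mem_insert_of_mem
    (Finset.mem_image_of_mem _ (Finset.mem_univ j)))).trans hR
  have e : x.ev φ = x.ev (u i) * x.ev (Jac d (Fr.f i)) ^ m := by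
    have e1 : x.ev (Jac d (Fr.f i) ^ m) = x.ev (Jac d (Fr.f i)) ^ m := map_pow x.hom ⟨_, hJ⟩ m
    rw [← e1, ← x.mul _ (hG i _ (Finset.mem_insert_self _ _)) _ (x.R.pow_mem hJ m),
      div_mul_cancel₀ _ (pow_ne_zero m (Fr.ne i))]
  have hm' : (1 : ℝ) ≤ m := Nat.one_le_cast.2 hm
  have h1 : ‖x.ev φ‖ ^ (2 / m : ℝ) ≤ R ^ 2 * ‖x.ev (Jac d (Fr.f i))‖ ^ 2 := by
    rw [e, norm_mul, norm_pow, Real.mul_rpow (norm_nonneg _) (by positivity),
      ← Real.rpow_natCast, ← Real.rpow_mul (norm_nonneg _), mul_div_cancel₀ _ (by positivity),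
      Real.rpow_two]
    refine mul_le_mul_of_nonneg_right ?_ (by positivity)
    refine (Real.rpow_le_rpow (norm_nonneg _) hu (by positivity)).trans ?_
    rw [← Real.rpow_two]
    exact Real.rpow_le_rpow_of_exponent_le hR1 (div_le_self zero_le_two hm')
  refine (ENNReal.ofReal_le_ofReal h1).trans ?_
  rw [ENNReal.ofReal_mul (by positivity), ENNReal.ofReal_pow (zero_le_one.trans hR1)]
  refine mul_le_mul_right (le_trans ?_ (Finset.single_le_sum (f := fun i =>
    ENNReal.ofReal (‖x.ev (Jac d (Fr.f i))‖ ^ 2) * indicator (disc (Fr.f i) R) 1 x.ev)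
    (fun _ _ => zero_le) (Finset.mem_univ i))) _
  simp only [indicator_of_mem hd, Pi.one_apply, mul_one, le_refl]

omit [Field F] [DecidableEq ι] in
/-- the integrated form of the bound -/
theorem core {S I : Type} [MeasurableSpace S] [Fintype I] {μ : Measure S} {e : S → F → ℂ}
    (he : Measurable e) {f : I → ι → F} {J : I → F} {w : S → ENNReal} {ρ : ENNReal} {R : ℝ}
    {V : I → ENNReal}
    (h1 : ∀ᵐ p ∂μ, w p ≤ ρ * ∑ i, ENNReal.ofReal (‖e p (J i)‖ ^ 2) *
      indicator (disc (f i) R) 1 (e p))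
    (h2 : ∀ i, ∫⁻ p, ENNReal.ofReal (‖e p (J i)‖ ^ 2) * indicator (disc (f i) R) 1 (e p) ∂μ ≤ V i) :
    ∫⁻ p, w p ∂μ ≤ ρ * ∑ i, V i := by
  have hm : ∀ i, Measurable fun p => ENNReal.ofReal (‖e p (J i)‖ ^ 2) *
      indicator (disc (f i) R) 1 (e p) := fun i =>
    (((measurable_pi_apply (J i)).comp he).norm.pow_const 2).ennreal_ofReal.mul
      ((measurable_one.indicator (disc_meas (f i) R)).comp he)
  refine (lintegral_mono_ae h1).trans ?_
  rw [lintegral_const_mul _ (Finset.measurable_fun_sum _ fun i _ => hm i),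
    lintegral_finsetSum _ fun i _ => hm i]
  exact mul_le_mul_right (Finset.sum_le_sum fun i _ => h2 i) _

end core

end Front

end

end Pool.Agent.Lib.MP_5c318e_ag
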