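import Pool.Agent.Lib.MP_5c318e_ag.S.APlu
import Pool.Agent.Lib.MP_5c318e_ag.A.Split

/-! Horizontal and vertical prime divisors of a fibration. -/

set_option autoImplicit false

namespace Pool.Agent.Lib.MP_5c318e_ag

section B
variable {δ ν K M : Type} [Fintype δ] [DecidableEq δ] [Fintype ν] [DecidableEq ν]
  [Field K] [Algebra ℂ K] [Field M] [Algebra ℂ M] [Algebra K M] [IsScalarTower ℂ K M]
  {y : δ → K} {x : ν → M} {dK : δ → Derivation ℂ K K} {dx : ν → Derivation K M M}
  {dM : δ ⊕ ν → Derivation ℂ M M}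

theorem trdeg_of_basis {k F ι : Type} [Field k] [Field F] [Algebra k F] [Fintype ι] {z : ι → F}
    (hz : IsTranscendenceBasis k z) : Algebra.trdeg k F = Fintype.card ι := by
  rw [← hz.cardinalMk_eq_trdeg, Cardinal.mk_fintype]

set_option linter.unusedSectionVars false in
/-- horizontal prime divisors -/
theorem divisorial_iff_of_le (hy : IsTranscendenceBasis ℂ y) (hx : IsTranscendenceBasis K x)
    {O : ValuationSubring M} (hK : ∀ c : K, algebraMap K M c ∈ O) :
    IsDivisorial ℂ M O ↔ IsDivisorial K M O :=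
  ⟨fun h => h.horiz (trdeg_of_basis hy) (trdeg_of_basis hx) hK, fun h => by
    obtain ⟨c, i0, hc⟩ := h.exists_adp (trdeg_of_basis hx)
    exact (hc.horiz hy).divisorial⟩

/-- vertical prime divisors: for adapted coordinates `c` below, there are adapted coordinates
above -/
theorem divisorial_vertical (hy : IsTranscendenceBasis ℂ y) (hx : IsTranscendenceBasis K x)
    {O : ValuationSubring M} (hO : IsDivisorial ℂ M O) (hK : ¬ ∀ c : K, algebraMap K M c ∈ O) :
    IsDivisorial ℂ K (O.comap (algebraMap K M)) ∧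
    ∀ (c : δ → K) (i0 : δ), Adapted ℂ (O.comap (algebraMap K M)) c i0 →
      ∃ (ξ : M) (w : ν → M) (μ : ℕ), 0 < μ ∧ IsTranscendenceBasis K w ∧
        O.valuation (algebraMap K M (c i0)) = O.valuation ξ ^ μ ∧
        Adapted ℂ O (Sum.elim (Function.update (fun i => algebraMap K M (c i)) i0 ξ) w)
          (Sum.inl i0) := by
  have h1 := hO.comap (trdeg_of_basis hy) (trdeg_of_basis hx) hK
  refine ⟨h1, fun c i0 hc => ?_⟩
  have := h1.1
  obtain ⟨w, ξ, hv⟩ := hO.exists_vert_of (trdeg_of_basis hx) (hc.adp hy)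
  obtain ⟨n, hn⟩ := hv.top.grp _ ((map_ne_zero (algebraMap K M)).2 hc.ne)
  have h2 := hv.lt
  rw [hn] at h2
  have h3 := (zpow_lt_one_iff_right_of_lt_one₀ hv.top.val_pos hv.top.lt).1 h2
  obtain ⟨μ, rfl⟩ := Int.eq_ofNat_of_zero_le h3.le
  refine ⟨ξ, w, μ, by exact_mod_cast h3, hv.basis, by simpa using hn, ?_⟩
  have h4 := hv.top.adapted
  rwa [Sum.update_elim_inl] at h4

omit [Fintype δ] [Fintype ν] in
/-- the dual frame of the total space is a split frame -/
theorem Dual.split_eq (hK : Dual ℂ y dK) (hx : Dual K x dx)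
    (hM : Dual ℂ (Sum.elim (fun i => algebraMap K M (y i)) x) dM) :
    Lifts dK (fun j => dM (Sum.inl j)) ∧ dM = splitD (fun j => dM (Sum.inl j)) dx := by
  constructor
  · intro j a
    refine DFunLike.congr_fun (der_ext_basis hK.basis ((dM (Sum.inl j)).compAlgebraMap K)
      ((Algebra.linearMap K M).compDer (dK j)) fun a => ?_) a
    have h1 := hM.dual (Sum.inl j) (Sum.inl a)
    change dM (Sum.inl j) (algebraMap K M (y a)) = algebraMap K M (dK j (y a))
    rw [hK.dual]
    simpa [apply_ite] using h1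
  · ext1 (j | j)
    · rfl
    · refine der_ext_basis hM.basis _ _ ?_
      rintro (a | a)
      · rw [hM.dual]
        exact (if_neg (by simp)).trans ((dx j).map_algebraMap (y a)).symm
      · rw [hM.dual]
        change _ = dx j (x a)
        simp [hx.dual]

/-- Jacobians of the total space for functions from the base and functions on the fibre -/
theorem Dual.jac_split (hK : Dual ℂ y dK) (hx : Dual K x dx)
    (hM : Dual ℂ (Sum.elim (fun i => algebraMap K M (y i)) x) dM) (c : δ → K) (w : ν → M) :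
    Jac dM (Sum.elim (fun i => algebraMap K M (c i)) w) = algebraMap K M (Jac dK c) * Jac dx w := by
  rw [(hK.split_eq hx hM).2]
  exact _root_.Pool.Agent.Lib.MP_5c318e_ag.jac_split (hK.split_eq hx hM).1 dx c w

/-- the ramification formula at a vertical prime divisor -/
theorem Dual.jac_vertical (hK : Dual ℂ y dK) (hx : Dual K x dx)
    (hM : Dual ℂ (Sum.elim (fun i => algebraMap K M (y i)) x) dM) {O : ValuationSubring M}
    (hO : IsDivisorial ℂ M O) {c : δ → K} {i0 : δ} {ξ : M} {w : ν → M} (h0 : c i0 ≠ 0)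
    (h1 : O.valuation (algebraMap K M (c i0)) ≠ 1)
    (hc : Adapted ℂ O (Sum.elim (Function.update (fun i => algebraMap K M (c i)) i0 ξ) w)
      (Sum.inl i0)) :
    O.valuation (algebraMap K M (c i0)) * O.valuation
        (Jac dM (Sum.elim (Function.update (fun i => algebraMap K M (c i)) i0 ξ) w)) =
      O.valuation (algebraMap K M (Jac dK c)) * O.valuation (Jac dx w) * O.valuation ξ := by
  have := hO.1
  have h2 := (hc.adp hM.basis).ram dM ((map_ne_zero (algebraMap K M)).2 h0) h1
  rw [Sum.update_elim_inl, Function.update_idem, Function.update_eq_self_iff.2 (by rfl),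
    hK.jac_split hx hM, map_mul, Sum.elim_inl, Function.update_self] at h2
  exact h2.symm

theorem relReg_horizontal (hK : Dual ℂ y dK) (hx : Dual K x dx)
    (hM : Dual ℂ (Sum.elim (fun i => algebraMap K M (y i)) x) dM) {q : ℕ} {Φ : M} (h : Plu dx q Φ)
    {O : ValuationSubring M} (hO : IsDivisorial ℂ M O) (hKO : ∀ c : K, algebraMap K M c ∈ O)
    (g : K) : RegI dM q (Φ * algebraMap K M g) O := by
  obtain ⟨f, hf, u, hu, rfl⟩ := h O ((divisorial_iff_of_le hK.basis hx.basis hKO).1 hO)
  refine ⟨Sum.elim (fun i => algebraMap K M (y i)) f, ?_, u * algebraMap K M g,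
    mul_mem hu (hKO g), ?_⟩
  · rintro (a | a)
    exacts [hKO _, hf a]
  · rw [hK.jac_split hx hM, hK.jac_one, map_one, one_mul, mul_right_comm]

/-- a form that is regular on the total space is regular on the generic fibre -/
theorem Plu.fibre (hK : Dual ℂ y dK) (hx : Dual K x dx)
    (hM : Dual ℂ (Sum.elim (fun i => algebraMap K M (y i)) x) dM) {q : ℕ} {Φ : M}
    (h : Plu dM q Φ) : Plu dx q Φ := by
  have : CharZero K := charZero_of_injective_algebraMap (algebraMap ℂ K).injective
  rw [plu_iff hM.isFr, (hK.split_eq hx hM).2] at h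
  exact (plu_iff hx.isFr).2 (h.fibre hK.isFr (hK.split_eq hx hM).1)

end B

end Pool.Agent.Lib.MP_5c318e_ag
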