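import Pool.Agent.Lib.MP_5c318e_ag.S.PDefs

/-! Finite etale charts of a finitely generated field over a polynomial ring. -/

set_option autoImplicit false

namespace Pool.Agent.Lib.MP_5c318e_ag

open Polynomial Set
open scoped IntermediateField

namespace CFin

section prim

variable {R L M : Type} [CommRing R] [IsDomain R] [Field L] [Field M] [Algebra R L]
  [IsFractionRing R L] [Algebra L M] [Algebra R M] [IsScalarTower R L M]

theorem clear (Q : L[X]) : ∃ (P : R[X]) (c : R), c ≠ 0 ∧
    P.map (algebraMap R L) = C (algebraMap R L c) * Q := by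
  obtain ⟨b, hb, e⟩ := IsLocalization.integerNormalization_spec (nonZeroDivisors R) Q
  exact ⟨_, b, nonZeroDivisors.ne_zero hb, by
    rw [e, ← IsScalarTower.algebraMap_smul L b Q, smul_eq_C_mul]⟩

variable (R L M) in
/-- an integral primitive element whose minimal polynomial has coefficients in `R` -/
theorem prim [FiniteDimensional L M] [CharZero L] :
    ∃ (w : M) (f : R[X]), f.Monic ∧ (∀ q : R[X], aeval w q = 0 ↔ f ∣ q) ∧
      (∀ φ : M, ∃ (P : R[X]) (c : R), c ≠ 0 ∧ φ * algebraMap R M c = aeval w P) ∧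
      ∃ (A B : R[X]) (c : R), c ≠ 0 ∧ f * A + derivative f * B = C c := by
  have hi := IsFractionRing.injective R L
  have hL : ∀ {c : R}, c ≠ 0 → algebraMap R L c ≠ 0 := fun h e => h (hi (e.trans (map_zero _).symm))
  have hM : ∀ c : R, algebraMap R M c = 0 → c = 0 := fun c e => by
    rw [IsScalarTower.algebraMap_apply R L M, map_eq_zero] at e
    by_contra h; exact hL h e
  obtain ⟨w0, h0⟩ := Field.exists_primitive_element L M
  obtain ⟨p, b, hb, ep⟩ := clear (R := R) (minpoly L w0)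
  have hg := minpoly.ne_zero_of_finite L w0
  have hp : p ≠ 0 := fun e => by
    rw [e, Polynomial.map_zero] at ep
    exact mul_ne_zero (C_ne_zero.2 (hL hb)) hg ep.symm
  have hd : p.natDegree = Module.finrank L M := by
    rw [← natDegree_map_eq_of_injective hi, ep, natDegree_C_mul (hL hb),
      (Field.primitive_element_iff_minpoly_natDegree_eq L w0).1 h0]
  have hz : aeval w0 p = 0 := by
    rw [← aeval_map_algebraMap L, ep, map_mul, minpoly.aeval, mul_zero]
  have hf := integralNormalization_aeval_eq_zero hz hM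
  set w := algebraMap R M p.leadingCoeff * w0 with hw
  have hm := monic_integralNormalization hp
  have ht : L⟮w⟯ = ⊤ := by
    rw [eq_top_iff, ← h0, IntermediateField.adjoin_simple_le_iff]
    have e : w0 = (algebraMap L M (algebraMap R L p.leadingCoeff))⁻¹ * w := by
      rw [hw, IsScalarTower.algebraMap_apply R L M, inv_mul_cancel_left₀]
      exact (_root_.map_ne_zero _).2 (hL (leadingCoeff_ne_zero.2 hp))
    rw [e]
    exact mul_mem (inv_mem (IntermediateField.algebraMap_mem _ _))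
      (IntermediateField.mem_adjoin_simple_self L w)
  have hint : IsIntegral L w := .of_finite L w
  have hfm : (integralNormalization p).map (algebraMap R L) = minpoly L w :=
    eq_of_monic_of_dvd_of_natDegree_le (minpoly.monic hint) (hm.map _)
      (minpoly.dvd L w (by rw [aeval_map_algebraMap, hf])) (by
        rw [hm.natDegree_map, natDegree_integralNormalization, hd,
          (Field.primitive_element_iff_minpoly_natDegree_eq L w).1 ht])
  refine ⟨w, _, hm, fun q => ⟨fun h => ?_, ?_⟩, fun φ => ?_, ?_⟩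
  · rw [← map_dvd_map _ hi hm, hfm]
    exact minpoly.dvd L w (by rw [aeval_map_algebraMap, h])
  · rintro ⟨k, rfl⟩
    rw [map_mul, hf, zero_mul]
  · have : φ ∈ L⟮w⟯.toSubalgebra := by rw [ht]; trivial
    rw [IntermediateField.adjoin_simple_toSubalgebra_of_isAlgebraic hint.isAlgebraic,
      Algebra.adjoin_singleton_eq_range_aeval] at this
    obtain ⟨Q, rfl⟩ := this
    obtain ⟨P, c, hc, e⟩ := clear (R := R) Q
    refine ⟨P, c, hc, ?_⟩
    rw [← aeval_map_algebraMap L w P, e, map_mul, aeval_C, ← IsScalarTower.algebraMap_apply,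
      mul_comm]
    rfl
  · obtain ⟨a, a', e⟩ : (minpoly L w).Separable := Algebra.IsSeparable.isSeparable L w
    obtain ⟨A, c, hc, e1⟩ := clear (R := R) a
    obtain ⟨B, c', hc', e2⟩ := clear (R := R) a'
    refine ⟨C c' * A, C c * B, c * c', mul_ne_zero hc hc', map_injective _ hi ?_⟩
    simp only [Polynomial.map_add, Polynomial.map_mul, map_C, ← derivative_map, hfm, e1, e2,
      map_mul]
    linear_combination (C (algebraMap R L c) * C (algebraMap R L c')) * e

end prim

variable {B M ν : Type} [CommRing B] [IsDomain B] [Algebra ℂ B] [Field M] [Algebra ℂ M]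

/-- the ring `R[w][1 / Δ]` -/
def ring {R : Type} [CommRing R] [Algebra ℂ R] [Algebra R M] [IsScalarTower ℂ R M] (w : M) (Δ : R) :
    Subalgebra ℂ M where
  carrier := {φ | ∃ (P : R[X]) (j : ℕ), φ * algebraMap R M Δ ^ j = aeval w P}
  mul_mem' := by
    rintro a b ⟨P, j, e⟩ ⟨Q, l, e'⟩
    exact ⟨P * Q, j + l, by rw [map_mul, ← e, ← e']; ring⟩
  add_mem' := by
    rintro a b ⟨P, j, e⟩ ⟨Q, l, e'⟩
    exact ⟨P * C Δ ^ l + Q * C Δ ^ j, j + l, by
      simp only [map_add, map_mul, map_pow, aeval_C, ← e, ← e']; ring⟩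
  algebraMap_mem' c := ⟨C (algebraMap ℂ R c), 0, by
    rw [pow_zero, mul_one, aeval_C, ← IsScalarTower.algebraMap_apply]⟩

theorem main (j : B →ₐ[ℂ] M) (x : ν → M)
    (hi : Function.Injective (MvPolynomial.eval₂Hom (j : B →+* M) x)) (t : Finset M)
    (ht : Subfield.closure (range j ∪ t) = ⊤)
    (halg : ∀ φ : M, IsAlgebraic (Subfield.closure (range j ∪ range x)) φ) (s : Finset M) :
    ∃ (O : Subalgebra ℂ M) (inc : B →ₐ[ℂ] O) (x' : ν → O), (∀ a, (inc a : M) = j a) ∧
      (∀ i, (x' i : M) = x i) ∧ (∀ a ∈ s, a ∈ O) ∧ (∀ φ : M, ∃ a b : O, b ≠ 0 ∧ φ * b = a) ∧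
      Nonempty (Fini inc x') ∧ (MvPolynomial.eval₂Hom (inc : B →+* O) x').Etale := by
  classical
  let R := MvPolynomial ν B
  let ρ : R →+* M := MvPolynomial.eval₂Hom (j : B →+* M) x
  have hC : ∀ a, ρ (MvPolynomial.C a) = j a := fun a => MvPolynomial.eval₂Hom_C _ _ a
  have hX : ∀ i, ρ (MvPolynomial.X i) = x i := fun i => MvPolynomial.eval₂Hom_X' _ _ i
  let _ : Algebra R M := ρ.toAlgebra
  have : IsScalarTower ℂ R M := .of_algebraMap_eq fun c =>
    ((hC (algebraMap ℂ B c)).trans (j.commutes c)).symm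
  let L := Subfield.closure (range j ∪ range x)
  have hρ : ∀ g, ρ g ∈ L := fun g => by
    induction g using MvPolynomial.induction_on with
    | C c => exact Subfield.subset_closure (Or.inl ⟨c, (hC c).symm⟩)
    | add p q hp hq => rw [map_add]; exact add_mem hp hq
    | mul_X p i hp =>
      rw [map_mul]
      exact mul_mem hp (Subfield.subset_closure (Or.inr ⟨i, (hX i).symm⟩))
  let _ : Algebra R L := (ρ.codRestrict L hρ).toAlgebra
  have : IsScalarTower R L M := .of_algebraMap_eq fun _ => rfl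
  have : FaithfulSMul R L := (faithfulSMul_iff_algebraMap_injective R L).2 fun a b e =>
    hi (congrArg Subtype.val e)
  have : IsFractionRing R L := IsFractionRing.of_field R L fun z => by
    obtain ⟨a, ha, b, hb, e⟩ := Subfield.mem_closure_iff.1 z.2
    have hle : Subring.closure (range j ∪ range x) ≤ ρ.range := Subring.closure_le.2 (by
      rintro _ (⟨c, rfl⟩ | ⟨i, rfl⟩)
      · exact ⟨MvPolynomial.C c, hC c⟩
      · exact ⟨MvPolynomial.X i, hX i⟩)
    obtain ⟨a, rfl⟩ := hle ha
    obtain ⟨b, rfl⟩ := hle hb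
    exact ⟨a, b, Subtype.ext e.symm⟩
  have : CharZero M := charZero_of_injective_algebraMap (algebraMap ℂ M).injective
  have : FiniteDimensional L M := by
    have h1 := IntermediateField.finiteDimensional_adjoin (K := L) (S := (t : Set M))
      fun a _ => (halg a).isIntegral
    have h2 : IntermediateField.adjoin L (t : Set M) = ⊤ := by
      rw [eq_top_iff]
      intro a _
      have : Subfield.closure (range j ∪ t) ≤ (IntermediateField.adjoin L (t : Set M)).toSubfield :=
        Subfield.closure_le.2 (by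
          rintro _ (⟨c, rfl⟩ | h)
          · exact IntermediateField.algebraMap_mem _
              (⟨j c, Subfield.subset_closure (Or.inl ⟨c, rfl⟩)⟩ : L)
          · exact IntermediateField.subset_adjoin _ _ h)
      exact this (ht ▸ trivial)
    rw [h2] at h1
    exact IntermediateField.topEquiv.toLinearEquiv.finiteDimensional
  obtain ⟨w, f, hm, hk, hg, A, A', c0, hc0, hc⟩ := prim R L M
  choose Pf cf hcf ef using hg
  let Δ : R := c0 * ∏ a ∈ s, cf a
  have hΔ : Δ ≠ 0 := mul_ne_zero hc0 (Finset.prod_ne_zero_iff.2 fun a _ => hcf a)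
  have hM : ∀ {g : R}, g ≠ 0 → algebraMap R M g ≠ 0 := fun h e => h (hi (e.trans (map_zero _).symm))
  let O := ring w Δ
  have hO : ∀ q : R[X], aeval w q ∈ O := fun q => ⟨q, 0, by simp⟩
  have hR : ∀ g : R, ρ g ∈ O := fun g => by
    have := hO (C g)
    rwa [aeval_C] at this
  let inc : B →ₐ[ℂ] O := j.codRestrict O fun a => hC a ▸ hR (MvPolynomial.C a)
  let x' : ν → O := fun i => ⟨x i, hX i ▸ hR (MvPolynomial.X i)⟩
  let ρ' : R →+* O := MvPolynomial.eval₂Hom (inc : B →+* O) x'
  have hC' : ∀ a, ρ' (MvPolynomial.C a) = inc a := fun a => MvPolynomial.eval₂Hom_C _ _ a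
  have hX' : ∀ i, ρ' (MvPolynomial.X i) = x' i := fun i => MvPolynomial.eval₂Hom_X' _ _ i
  have hρ' : ∀ g, (ρ' g : M) = ρ g := fun g =>
    DFunLike.congr_fun (show (O.val : O →+* M).comp ρ' = ρ from
      MvPolynomial.ringHom_ext (fun a => (congrArg Subtype.val (hC' a)).trans (hC a).symm)
        fun i => (congrArg Subtype.val (hX' i)).trans (hX i).symm) g
  let _ : Algebra R O := ρ'.toAlgebra
  let v : O →ₐ[R] M := { toRingHom := (O.val : O →+* M), commutes' := hρ' }
  let w' : O := ⟨w, by simpa using hO X⟩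
  have hv : ∀ q : R[X], ((aeval w' q : O) : M) = aeval w q := fun q =>
    (aeval_algHom_apply v w' q).symm
  have hu : IsUnit (algebraMap R O Δ) :=
    IsUnit.of_mul_eq_one ⟨(algebraMap R M Δ)⁻¹, 1, 1, by simp [hM hΔ]⟩
      (Subtype.ext ((congrArg (· * _) (hρ' Δ)).trans (mul_inv_cancel₀ (hM hΔ))))
  have hcert : f * (A * C (∏ a ∈ s, cf a)) + derivative f * (A' * C (∏ a ∈ s, cf a)) =
      C (Δ ^ 1) := by
    rw [pow_one, C_mul, ← hc]; ring
  have hgen : ∀ φ : O, ∃ (P : R[X]) (l : ℕ), φ * algebraMap R O Δ ^ l = aeval w' P := by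
    intro φ
    obtain ⟨P, l, e⟩ := φ.2
    exact ⟨P, l, Subtype.ext ((congrArg (fun y => (φ : M) * y ^ l) (hρ' Δ)).trans
      (e.trans (hv P).symm))⟩
  have hroot : aeval w' f = 0 := Subtype.ext ((hv f).trans ((hk f).2 dvd_rfl))
  let E : StandardEtalePair R := ⟨f, hm, C Δ, _, _, 1, by
    rw [add_comm, hcert, pow_one, pow_one]⟩
  have hx : E.HasMap w' := ⟨hroot, by rw [show E.g = C Δ from rfl, aeval_C]; exact hu⟩
  have hbij : Function.Bijective (E.lift w' hx) := by
    constructor
    · rw [injective_iff_map_eq_zero]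
      intro a ha
      obtain ⟨p, m, e3⟩ := StandardEtalePresentation.exists_mul_aeval_x_g_pow_eq_aeval_x
        ⟨E, E.X, E.hasMap_X, by simpa [E.lift_X_left] using Function.bijective_id⟩ a
      have e4 := congrArg (E.lift _ hx) e3
      rw [map_mul, ha, zero_mul, ← aeval_algHom_apply, E.lift_X] at e4
      obtain ⟨q, hq⟩ := (hk p).1 (by rw [← hv, ← e4]; rfl)
      rw [hq, map_mul, show aeval E.X f = 0 from E.hasMap_X.1, zero_mul] at e3
      exact (E.hasMap_X.2.pow m).mul_left_eq_zero.1 e3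
    · intro φ
      obtain ⟨P, l, e⟩ := hgen φ
      have hE : IsUnit (algebraMap R E.Ring Δ) := by
        have := E.hasMap_X.2
        rwa [show E.g = C Δ from rfl, aeval_C] at this
      obtain ⟨y, hy⟩ := (hE.pow l).exists_right_inv
      refine ⟨aeval E.X P * y, ?_⟩
      have := congrArg (E.lift _ hx) hy
      rw [map_mul, map_pow, AlgHom.commutes, map_one] at this
      rw [map_mul, ← aeval_algHom_apply, E.lift_X, ← e, mul_assoc, this, mul_one]
  let e := AlgEquiv.ofBijective _ hbij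
  refine ⟨O, inc, x', fun _ => rfl, fun _ => rfl, fun a ha => ?_, fun φ => ?_,
    ⟨⟨Δ, f, w', hm, hu, hroot, hgen, hΔ, fun b a z h1 h2 => ?_, _, _, 1, hcert⟩⟩, ?_⟩
  · refine ⟨Pf a * C (c0 * ∏ y ∈ s.erase a, cf y), 1, ?_⟩
    rw [map_mul (aeval w), aeval_C, ← ef, pow_one, mul_assoc, ← map_mul, mul_left_comm,
      Finset.mul_prod_erase s cf ha]
  · exact ⟨⟨_, hO (Pf φ)⟩, ⟨_, hR (cf φ)⟩, fun h => hM (hcf φ) (congrArg Subtype.val h), ef φ⟩
  · let _ : Algebra R ℂ := (MvPolynomial.eval₂Hom (b.hom : B →+* ℂ) a).toAlgebra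
    have hz : E.HasMap z := ⟨h2, by
      rw [show E.g = C Δ from rfl, aeval_C]; exact Ne.isUnit h1⟩
    let φ : O →ₐ[R] ℂ := (E.lift z hz).comp e.symm.toAlgHom
    have hφ : ∀ g, φ (ρ' g) = MvPolynomial.eval₂Hom (b.hom : B →+* ℂ) a g := φ.commutes
    have h3 : ∀ y, φ (inc y) = b.hom y := fun y => by
      rw [← hC', hφ]; exact MvPolynomial.eval₂Hom_C _ _ y
    refine ⟨({ toRingHom := φ, commutes' := fun c => ?_ } : O →ₐ[ℂ] ℂ), AlgHom.ext h3,
      fun i => ?_, ?_⟩
    · change φ _ = _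
      rw [← inc.commutes, h3, AlgHom.commutes]
    · change φ _ = _
      rw [← hX', hφ]; exact MvPolynomial.eval₂Hom_X' _ _ i
    · change E.lift z hz (e.symm w') = z
      rw [show e.symm w' = E.X from e.symm_apply_eq.2 (E.lift_X _ hx).symm, E.lift_X]
  · exact RingHom.etale_algebraMap.2 (Algebra.Etale.of_equiv e)

theorem alg_mono {M : Type} [Field M] {L L' : Subfield M} (h : L ≤ L') {φ : M}
    (hφ : IsAlgebraic L φ) : IsAlgebraic L' φ :=
  hφ.ringHom_of_comp_eq (Subfield.inclusion h) (RingHom.id M)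
    (Subfield.inclusion h).injective (RingHom.ext fun _ => rfl)

theorem alg_basis {K M ν : Type} [Field K] [Field M] [Algebra K M] {x : ν → M}
    (hx : IsTranscendenceBasis K x) {L : Subfield M} (hK : ∀ c, algebraMap K M c ∈ L)
    (hL : ∀ i, x i ∈ L) (φ : M) : IsAlgebraic L φ := by
  have h : ∀ a ∈ Algebra.adjoin K (range x), a ∈ L := fun a ha => by
    induction ha using Algebra.adjoin_induction with
    | mem y hy => obtain ⟨i, rfl⟩ := hy; exact hL i
    | algebraMap r => exact hK r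
    | add y z _ _ hy hz => exact add_mem hy hz
    | mul y z _ _ hy hz => exact mul_mem hy hz
  let g : Algebra.adjoin K (range x) →+* L :=
    (algebraMap (Algebra.adjoin K (range x)) M).codRestrict L fun a => h a a.2
  exact (hx.isAlgebraic.isAlgebraic φ).ringHom_of_comp_eq g (RingHom.id M)
    (fun a b e => Subtype.ext (congrArg (fun y : L => (y : M)) e)) (RingHom.ext fun _ => rfl)

theorem top_of_fg {K M : Type} [Field K] [Field M] [Algebra K M] {t : Set M}
    (ht : IntermediateField.adjoin K t = ⊤) {L : Subfield M} (hK : ∀ c, algebraMap K M c ∈ L)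
    (hL : t ⊆ L) : L = ⊤ := by
  rw [eq_top_iff]
  intro a _
  have : IntermediateField.adjoin K t ≤ L.toIntermediateField hK :=
    IntermediateField.adjoin_le_iff.2 hL
  exact this (ht ▸ trivial)

end CFin

variable {ι F : Type} [Field F] [Algebra ℂ F]
  {ν K M : Type} [Field K] [Algebra ℂ K] [Field M] [Algebra ℂ M] [Algebra K M]
  [IsScalarTower ℂ K M]

/-- finite etale charts over a given base ring -/
theorem exists_fini (hfg : (⊤ : IntermediateField K M).FG) {x : ν → M} (hx : IsTranscendenceBasis K x)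
    (B : Subalgebra ℂ K) (hB : ∀ φ : K, ∃ a b : B, b ≠ 0 ∧ φ * b = a) (s : Finset M) :
    ∃ (O : Subalgebra ℂ M) (inc : B →ₐ[ℂ] O) (x' : ν → O), (∀ a, (inc a : M) = algebraMap K M a) ∧
      (∀ i, (x' i : M) = x i) ∧ (∀ a ∈ s, a ∈ O) ∧ (∀ φ : M, ∃ a b : O, b ≠ 0 ∧ φ * b = a) ∧
      Nonempty (Fini inc x') ∧ (MvPolynomial.eval₂Hom (inc : B →+* O) x').Etale := by
  obtain ⟨t, ht⟩ := hfg
  let j : B →ₐ[ℂ] M := (IsScalarTower.toAlgHom ℂ K M).comp B.val
  have hK : ∀ (u : Set M) (c : K), algebraMap K M c ∈ Subfield.closure (range j ∪ u) := by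
    intro u c
    obtain ⟨a, b, hb, e⟩ := hB c
    rw [eq_div_of_mul_eq (fun h => hb (Subtype.ext h)) e, map_div₀]
    exact div_mem (Subfield.subset_closure (Or.inl ⟨a, rfl⟩))
      (Subfield.subset_closure (Or.inl ⟨b, rfl⟩))
  refine CFin.main j x ?_ t (CFin.top_of_fg ht (hK _) fun a ha =>
    Subfield.subset_closure (Or.inr ha)) (CFin.alg_basis hx (hK _) fun i =>
      Subfield.subset_closure (Or.inr ⟨i, rfl⟩)) s
  have e : MvPolynomial.eval₂Hom (j : B →+* M) x = ((MvPolynomial.aeval x :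
      MvPolynomial ν K →ₐ[K] M) : _ →+* M).comp (MvPolynomial.map (B.val : B →+* K)) :=
    MvPolynomial.ringHom_ext (fun a => by simp [j]) fun i => by simp
  rw [e, RingHom.coe_comp]
  exact Function.Injective.comp (algebraicIndependent_iff_injective_aeval.1 hx.1)
    (MvPolynomial.map_injective _ Subtype.val_injective)

/-- the absolute case -/
theorem exists_fini_abs (hfg : (⊤ : IntermediateField ℂ F).FG) {z : ι → F}
    (hz : IsTranscendenceBasis ℂ z) (s : Finset F) :
    ∃ (O : Subalgebra ℂ F) (z' : ι → O), (∀ i, (z' i : F) = z i) ∧ (∀ a ∈ s, a ∈ O) ∧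
      (∀ φ : F, ∃ a b : O, b ≠ 0 ∧ φ * b = a) ∧ Nonempty (Fini (Algebra.ofId ℂ O) z') ∧
      (MvPolynomial.aeval z' : MvPolynomial ι ℂ →ₐ[ℂ] O).toRingHom.Etale := by
  obtain ⟨t, ht⟩ := hfg
  have hK : ∀ (u : Set F) (c : ℂ),
      algebraMap ℂ F c ∈ Subfield.closure (range (Algebra.ofId ℂ F) ∪ u) :=
    fun u c => Subfield.subset_closure (Or.inl ⟨c, rfl⟩)
  obtain ⟨O, inc, z', -, h2, h3, h4, h5, h6⟩ := CFin.main (Algebra.ofId ℂ F) z hz.1 t
    (CFin.top_of_fg ht (hK _) fun a ha => Subfield.subset_closure (Or.inr ha))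
    (CFin.alg_basis hz (hK _) fun i => Subfield.subset_closure (Or.inr ⟨i, rfl⟩)) s
  obtain rfl : inc = Algebra.ofId ℂ O := Subsingleton.elim _ _
  exact ⟨O, z', h2, h3, h4, h5, h6⟩

end Pool.Agent.Lib.MP_5c318e_ag
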