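import Pool.Agent.Lib.MP_5c318e_ag.S.CEt
import Pool.Agent.Lib.MP_5c318e_ag.S.CFin
import Pool.Agent.Lib.MP_5c318e_ag.S.BVal

/-! Existence of relative charts, families, localisation of charts. -/

set_option autoImplicit false
set_option linter.unusedSectionVars false

namespace Pool.Agent.Lib.MP_5c318e_ag

open Filter Topology Set

noncomputable section

variable {ι F : Type} [Fintype ι] [DecidableEq ι] [Field F] [Algebra ℂ F]

variable {δ ν K M : Type} [Fintype δ] [DecidableEq δ] [Fintype ν] [DecidableEq ν]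
  [Field K] [Algebra ℂ K] [Field M] [Algebra ℂ M] [Algebra K M] [IsScalarTower ℂ K M]

/-- a derivation that kills the coordinates of a chart of `K` kills `K` -/
theorem Cht.der_kill (B : Cht δ K) (D : Derivation ℂ M M)
    (h : ∀ i, D (algebraMap K M (B.z i)) = 0) (φ : K) : D (algebraMap K M φ) = 0 := by
  obtain ⟨pd, -, hu⟩ := exists_pd B.z B.et
  let q : B.O →ₐ[ℂ] M := (IsScalarTower.toAlgHom ℂ K M).comp B.O.val
  have h1 : ∀ a : B.O, D (algebraMap K M a) = 0 := fun a => by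
    have := hu M q ((D : M →ₗ[ℂ] M).comp q.toLinearMap) (fun a b => by simp) a
    simpa [q, h] using this
  obtain ⟨a, b, hb, e⟩ := B.frac φ
  have h2 := h1 a
  rw [← e, map_mul, Derivation.leibniz, h1, smul_zero, zero_add, smul_eq_mul] at h2
  exact (mul_eq_zero.1 h2).resolve_left ((map_ne_zero _).2 fun e => hb (Subtype.ext e))

theorem hasFDerivAt_elim (y : δ → ℂ) (w : ν → ℂ) : ∃ L : (ν → ℂ) →L[ℂ] (δ ⊕ ν → ℂ),
    HasFDerivAt (fun w : ν → ℂ => (Sum.elim y w : δ ⊕ ν → ℂ)) L w ∧ ∀ v, L v = Sum.elim (fun _ => 0) v := by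
  refine ⟨ContinuousLinearMap.pi fun k => Sum.elim (fun _ => 0)
    (fun i => (ContinuousLinearMap.proj i : (ν → ℂ) →L[ℂ] ℂ)) k, hasFDerivAt_pi.2 fun k => ?_,
    fun v => funext fun k => ?_⟩
  · rcases k with k | k
    · exact hasFDerivAt_const _ _
    · exact (ContinuousLinearMap.proj k : (ν → ℂ) →L[ℂ] ℂ).hasFDerivAt
  · rcases k with k | k <;> rfl

theorem continuous_elim (y : δ → ℂ) : Continuous fun w : ν → ℂ => (Sum.elim y w : δ ⊕ ν → ℂ) :=
  continuous_iff_continuousAt.2 fun w => (hasFDerivAt_elim y w).choose_spec.1.continuousAt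

/-- the fibres of a map of Riemann domains over the projection of the coordinate spaces -/
theorem RD.exists_fib {S S' : Type} [TopologicalSpace S] [MeasurableSpace S] [BorelSpace S]
    [T2Space S] [SigmaCompactSpace S] [TopologicalSpace S'] [MeasurableSpace S'] [T2Space S']
    (D : RD (δ ⊕ ν) S) (D' : RD δ S') {q : S → S'} (hq : Continuous q)
    (h : ∀ p i, D.π p (Sum.inl i) = D'.π (q p) i) (b : S') :
    ∃ E : RD ν {p // q p = b}, (∀ p i, E.π p i = D.π p.1 (Sum.inr i)) ∧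
      ∀ p, (fun w => (E.sec p w).1) =ᶠ[𝓝 (E.π p)] fun w => D.sec p.1 (Sum.elim (D'.π b) w) := by
  classical
  have : SigmaCompactSpace {p // q p = b} := (isClosed_eq hq continuous_const).sigmaCompactSpace
  let π : {p // q p = b} → ν → ℂ := fun p i => D.π p.1 (Sum.inr i)
  have hπ : ∀ p : {p // q p = b}, Sum.elim (D'.π b) (π p) = D.π p.1 := fun p => funext fun k => by
    rcases k with k | k
    · rw [h, p.2]; rfl
    · rfl
  let σ : {p // q p = b} → (ν → ℂ) → {p // q p = b} := fun p w =>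
    if e : q (D.sec p.1 (Sum.elim (D'.π b) w)) = b then ⟨_, e⟩ else p
  have ht : ∀ p, Tendsto (fun w => (Sum.elim (D'.π b) w : δ ⊕ ν → ℂ)) (𝓝 (π p)) (𝓝 (D.π p.1)) :=
    fun p => by rw [← hπ]; exact (continuous_elim _).continuousAt
  have h1 : ∀ p, ∀ᶠ w in 𝓝 (π p), (σ p w).1 = D.sec p.1 (Sum.elim (D'.π b) w) := fun p => by
    have h2 : Tendsto (fun w => q (D.sec p.1 (Sum.elim (D'.π b) w))) (𝓝 (π p)) (𝓝 b) := by
      have := (hq.tendsto p.1).comp ((D.tendsto_sec p.1).comp (ht p))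
      rwa [p.2] at this
    filter_upwards [h2.eventually ((D'.ch b).open_source.mem_nhds (D'.mem_src b)),
      (ht p).eventually (D.π_sec_ev p.1)] with w e1 e2
    have e : q (D.sec p.1 (Sum.elim (D'.π b) w)) = b :=
      D'.injOn_src b e1 (D'.mem_src b) (funext fun i => by rw [← h, e2]; rfl)
    exact congrArg Subtype.val (dif_pos e)
  have h0 : ∀ p, σ p (π p) = p := fun p => Subtype.ext (by
    rw [(h1 p).self_of_nhds, hπ, D.sec_self])
  have h3 : ∀ p, ∀ᶠ w in 𝓝 (π p), π (σ p w) = w ∧ ContinuousAt (σ p) w := fun p => by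
    filter_upwards [(h1 p).eventually_nhds, (ht p).eventually (RD.tgt_nhds (D.mem_tgt p.1))]
      with w e1 e2
    refine ⟨funext fun i => ?_, IsInducing.subtypeVal.continuousAt_iff.2 ?_⟩
    · show D.π (σ p w).1 (Sum.inr i) = w i
      rw [e1.self_of_nhds, RD.π_sec e2]; rfl
    · exact (ContinuousAt.comp (f := fun w => (Sum.elim (D'.π b) w : δ ⊕ ν → ℂ)) (RD.sec_contAt e2)
        (continuous_elim _).continuousAt).congr (EventuallyEq.symm e1)
  have hc : Continuous π := continuous_pi fun i =>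
    (continuous_apply _).comp (D.cont_π.comp continuous_subtype_val)
  obtain ⟨E, hE⟩ := RD.exists_of π (isLocalHomeomorph_of_sec hc fun p => ⟨σ p, h0 p, h3 p, by
    filter_upwards [(hc.tendsto p).eventually (h1 p), continuous_subtype_val.continuousAt.eventually
      ((D.ch p.1).open_source.mem_nhds (D.mem_src p.1))] with y e1 e2
    exact Subtype.ext (by rw [e1, hπ, RD.sec_π e2])⟩)
  refine ⟨E, fun p i => by rw [hE], fun p => ?_⟩
  have e := E.sec_unique (x := p) (σ := σ p) (by rw [hE]; exact h0 p)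
    (by rw [hE]; exact (h3 p).self_of_nhds.2) (by rw [hE]; exact (h3 p).mono fun w e => e.1)
  rw [hE] at e ⊢
  filter_upwards [e, h1 p] with w e1 e2
  rw [← e1, e2]

theorem Rel.of_cht (B : Cht δ K) (X : Cht (δ ⊕ ν) M) (hle : ∀ a ∈ B.O, algebraMap K M a ∈ X.O)
    (hz : ∀ i, (X.z (Sum.inl i) : M) = algebraMap K M (B.z i)) :
    ∃ T : Rel B ν M, T.X = X := by
  let inc : B.O →ₐ[ℂ] X.O :=
    ((IsScalarTower.toAlgHom ℂ K M).comp B.O.val).codRestrict X.O fun a => hle a a.2
  have hzy : ∀ i, X.z (Sum.inl i) = inc (B.z i) := fun i => Subtype.ext (hz i)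
  have hk : ∀ i (c : K), X.der (Sum.inr i) (algebraMap K M c) = 0 := fun i =>
    B.der_kill _ fun j => by rw [← hz, X.der_z]; simp
  choose E hπ hs using fun b => RD.exists_fib X.D B.D (Pt.continuous_res inc)
    (fun p i => by rw [X.π_eq, B.π_eq, hzy]; rfl) b
  have he : ∀ b (p : {p : Pt X.O // p.res inc = b}),
      Sum.elim (B.D.π b) ((E b).π p) = X.D.π p.1 := fun b p => funext fun k => by
    rcases k with k | k
    · rw [X.π_eq, hzy, Sum.elim_inl, B.π_eq]
      exact (DFunLike.congr_fun p.2 _).symm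
    · exact hπ b p k
  have hd : ∀ b (φ : X.O) (p : {p : Pt X.O // p.res inc = b}), ∃ L : (ν → ℂ) →L[ℂ] (δ ⊕ ν → ℂ),
      HasFDerivAt (fun w => ((E b).sec p w).1 φ) ((X.D.fd (fun q => q φ) p.1).comp L) ((E b).π p) ∧
      ∀ v, L v = Sum.elim (fun _ => 0) v := fun b φ p => by
    obtain ⟨L, hL, hv⟩ := hasFDerivAt_elim (B.D.π b) ((E b).π p)
    have h1 := (X.hol φ p.1).hasFDerivAt
    rw [← he b p] at h1
    refine ⟨L, ?_, hv⟩
    rw [RD.fd, ← he b p]
    exact (h1.comp _ hL).congr_of_eventuallyEq ((hs b p).mono fun w hw => by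
      simp only [hw, Function.comp])
  refine ⟨{ X := X, inc := inc, inc_eq := fun _ => rfl, zy := hzy
            dx := fun i => Derivation.mk'
              { toFun := X.der (Sum.inr i), map_add' := map_add _
                map_smul' := fun c φ => by
                  rw [Algebra.smul_def, Derivation.leibniz, hk, smul_zero, add_zero, smul_eq_mul,
                    RingHom.id_apply, Algebra.smul_def] }
              fun a b => (X.der (Sum.inr i)).leibniz a b
            dx_eq := fun _ _ => rfl, fib := E, fib_π := fun b p i => by rw [hπ, X.π_eq]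
            fib_hol := fun b φ p => (hd b φ p).choose_spec.1.differentiableAt
            fib_fd := fun b φ p i => ?_ }, rfl⟩
  obtain ⟨L, hL, hv⟩ := hd b φ p
  rw [RD.fd, hL.fderiv, ContinuousLinearMap.comp_apply, hv, ← X.fd_eq]
  congr 1
  funext k
  rcases k with k | k <;> simp [Pi.single_apply]

theorem exists_base (hK : (⊤ : IntermediateField ℂ K).FG) {y : δ → K} (hy : IsTranscendenceBasis ℂ y)
    (s : Finset K) : ∃ B : Cht δ K, (∀ i, (B.z i : K) = y i) ∧ (∀ a ∈ s, a ∈ B.O) ∧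
      Nonempty (Fini (Algebra.ofId ℂ B.O) B.z) := by
  obtain ⟨O, z, hz, hs, hf, hF, he⟩ := exists_fini_abs hK hy s
  obtain ⟨B, rfl, h⟩ := Cht.of_etale O z (by simpa only [hz] using hy) hf he
  obtain rfl : B.z = z := funext fun i => Subtype.ext (h i)
  exact ⟨B, hz, hs, hF⟩

/-- etale over etale -/
theorem etale_tower {R O : Type} [CommRing R] [Algebra ℂ R] [CommRing O] [Algebra ℂ O] {y : δ → R}
    (hy : (MvPolynomial.aeval y : MvPolynomial δ ℂ →ₐ[ℂ] R).toRingHom.Etale) (inc : R →ₐ[ℂ] O)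
    {x : ν → O} (hx : (MvPolynomial.eval₂Hom (inc : R →+* O) x).Etale) :
    (MvPolynomial.aeval (Sum.elim (fun i => inc (y i)) x) :
      MvPolynomial (δ ⊕ ν) ℂ →ₐ[ℂ] O).toRingHom.Etale := by
  let P := MvPolynomial δ ℂ
  let f : P →+* R := (MvPolynomial.aeval y : P →ₐ[ℂ] R).toRingHom
  have h1 : (MvPolynomial.map (σ := ν) f).Etale := by
    let _ := f.toAlgebra
    let _ := MvPolynomial.algebraMvPolynomial (σ := ν) (R := P) (S := R)
    exact RingHom.Etale.isStableUnderBaseChange P R (MvPolynomial ν P) (MvPolynomial ν R) hy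
  let e : MvPolynomial (δ ⊕ ν) ℂ ≃ₐ[ℂ] MvPolynomial ν P :=
    (MvPolynomial.renameEquiv ℂ (Equiv.sumComm δ ν)).trans (MvPolynomial.sumAlgEquiv ℂ ν δ)
  have h2 := RingHom.Etale.stableUnderComposition _ _ (RingHom.Etale.stableUnderComposition _ _
    (RingHom.Etale.of_bijective (f := (e : MvPolynomial (δ ⊕ ν) ℂ →+* MvPolynomial ν P))
      e.bijective) h1) hx
  convert h2 using 1
  refine MvPolynomial.ringHom_ext (fun c => ?_) fun k => ?_
  · simp [e, f, P]
  · rcases k with k | k <;> simp [e, f, P]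

theorem exists_fam (hM : (⊤ : IntermediateField K M).FG) (B : Cht δ K)
    (hB : Nonempty (Fini (Algebra.ofId ℂ B.O) B.z))
    {x : ν → M} (hx : IsTranscendenceBasis K x) (s : Finset M) :
    ∃ T : Fam B ν M, (∀ i, T.x i = x i) ∧ ∀ a ∈ s, a ∈ T.X.O := by
  obtain ⟨O, inc, x', hi, hx', hs, hf, ⟨hF⟩, he⟩ := exists_fini hM hx B.O B.frac s
  have hb : IsTranscendenceBasis ℂ fun k => ((Sum.elim (fun i => inc (B.z i)) x' k : O) : M) := by
    have e : (fun k => ((Sum.elim (fun i => inc (B.z i)) x' k : O) : M)) =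
        Sum.elim (algebraMap K M ∘ fun i => (B.z i : K)) x := funext fun k => by
      rcases k with k | k
      · exact hi _
      · exact hx' _
    rw [e]
    exact basis_sum B.basis hx
  obtain ⟨X, rfl, h⟩ := Cht.of_etale O _ hb hf (etale_tower B.et inc he)
  obtain ⟨T, rfl⟩ := Rel.of_cht B X (fun a ha => by rw [← hi ⟨a, ha⟩]; exact (inc _).2)
    fun i => (h _).trans (hi _)
  obtain rfl : T.inc = inc := AlgHom.ext fun a => Subtype.ext ((T.inc_eq a).trans (hi a).symm)
  obtain rfl : (fun i => T.X.z (Sum.inr i)) = x' := funext fun i => Subtype.ext (h _)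
  exact ⟨⟨T, hB.some, hF⟩, hx', hs⟩

section loc

variable {A : Subalgebra ℂ F}

theorem le_locAway (A : Subalgebra ℂ F) (h : A) : A ≤ locAway A h :=
  fun a ha => ⟨0, ⟨a, ha⟩, by simp⟩

theorem inv_mem_locAway (h : A) : (h : F)⁻¹ ∈ locAway A h := by
  by_cases h0 : (h : F) = 0
  · rw [h0, inv_zero]; exact zero_mem _
  · exact ⟨1, 1, by simp [h0]⟩

theorem etale_locAway {h : A} (h0 : h ≠ 0) :
    (Subalgebra.inclusion (le_locAway A h)).toRingHom.Etale := by
  let _ := (Subalgebra.inclusion (le_locAway A h)).toRingHom.toAlgebra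
  have h1 : (h : F) ≠ 0 := fun e => h0 (Subtype.ext e)
  have : IsLocalization.Away h (locAway A h) := by
    refine IsLocalization.Away.mk h ?_ ?_ ?_
    · exact IsUnit.of_mul_eq_one ⟨_, inv_mem_locAway h⟩ (Subtype.ext (mul_inv_cancel₀ h1))
    · rintro ⟨φ, k, a, e⟩
      exact ⟨k, a, Subtype.ext (by
        change φ * (h : F) ^ k = a
        simpa using e)⟩
    · intro a b e
      exact ⟨0, by rw [show a = b from Subtype.ext (congrArg Subtype.val e :)]⟩
  exact Algebra.Etale.of_isLocalizationAway h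

/-- inverting one element of a chart -/
theorem Cht.exists_loc (c : Cht ι F) {h : c.O} (h0 : h ≠ 0) :
    ∃ c' : Cht ι F, c'.O = locAway c.O h ∧ ∀ i, (c'.z i : F) = c.z i := by
  let j := Subalgebra.inclusion (le_locAway c.O h)
  obtain ⟨c', e, hz⟩ := Cht.of_etale (locAway c.O h) (fun i => j (c.z i)) c.basis (fun φ => by
    obtain ⟨a, b, hb, e⟩ := c.frac φ
    exact ⟨j a, j b, fun e => hb (Subtype.ext (congrArg Subtype.val e :)), e⟩) (by
    convert RingHom.Etale.stableUnderComposition _ _ c.et (etale_locAway h0) using 1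
    exact congrArg AlgHom.toRingHom (MvPolynomial.comp_aeval c.z j).symm)
  exact ⟨c', e, hz⟩

theorem Cht.At.away {c c' : Cht ι F} {P : ValuationSubring F} {i0 : ι} (H : c.At P i0) {h : c.O}
    (hv : P.valuation (h : F) = 1) (e : c'.O = locAway c.O h) (hz : ∀ i, (c'.z i : F) = c.z i) :
    c'.At P i0 := by
  have h0 : (h : F) ≠ 0 := fun e => by simp [e] at hv
  have hle : c.O ≤ c'.O := e ▸ le_locAway _ h
  have hval : ∀ φ ∈ c'.O, ∃ (k : ℕ) (a : c.O), φ * (h : F) ^ k = a ∧
      P.valuation φ = P.valuation (a : F) := fun φ hφ => by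
    obtain ⟨k, a, e⟩ := e ▸ hφ
    push_cast at e
    exact ⟨k, a, e, by rw [← e, map_mul, map_pow, hv, one_pow, mul_one]⟩
  refine ⟨by simpa only [hz] using H.ad, fun φ hφ => ?_, fun φ hφ => ?_, fun φ hφ => ?_⟩
  · obtain ⟨k, a, -, e⟩ := hval φ hφ
    rw [← P.valuation_le_one_iff, e, P.valuation_le_one_iff]
    exact H.le a a.2
  · obtain ⟨a, b, hb, e⟩ := H.loc φ hφ
    exact ⟨⟨a, hle a.2⟩, ⟨b, hle b.2⟩, hb, e⟩
  · obtain ⟨k, a, e1, e2⟩ := hval φ φ.2
    obtain ⟨b, rfl⟩ := H.ker a (e2 ▸ hφ)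
    refine ⟨⟨b * (h : F)⁻¹ ^ k, mul_mem (hle b.2) (pow_mem (e ▸ inv_mem_locAway h) k)⟩,
      Subtype.ext ?_⟩
    push_cast at e1 ⊢
    rw [hz, ← mul_assoc, ← e1, mul_assoc, ← mul_pow, mul_inv_cancel₀ h0, one_pow, mul_one]

end loc

end

end Pool.Agent.Lib.MP_5c318e_ag
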