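import Pool.Agent.Lib.MP_5c318e_ag.S.CVA
import Pool.Agent.Lib.MP_5c318e_ag.S.APlu
import Pool.Agent.Lib.MP_5c318e_ag.S.CCov

/-! Change of chart in integrals. -/

set_option autoImplicit false
set_option linter.unusedSectionVars false

namespace Pool.Agent.Lib.MP_5c318e_ag

open MeasureTheory Set Filter Topology

theorem CV.jac_ne {k F ι : Type} [Field k] [CharZero k] [Field F] [Algebra k F] [Algebra ℂ F]
    [Fintype ι] [DecidableEq ι] {A : Subalgebra ℂ F} {z z' : ι → F} {d d' : ι → Derivation k F F}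
    (h : Dual k z d) (h' : Dual k z' d') {p : Pt A} (r : p.Reg (Jac d z')) (r' : p.Reg (Jac d' z)) :
    p.ev (Jac d z') ≠ 0 := fun e => by
  have := (p.ev_mul r r').2
  rw [← h'.jac_chain, h.jac_one, e, zero_mul, p.ev_one] at this
  exact one_ne_zero this

variable {ι F : Type} [Fintype ι] [DecidableEq ι] [Field F] [Algebra ℂ F]
variable {δ ν K M : Type} [Fintype δ] [DecidableEq δ] [Fintype ν] [DecidableEq ν]
  [Field K] [Algebra ℂ K] [Field M] [Algebra ℂ M] [Algebra K M] [IsScalarTower ℂ K M]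
variable {B : Cht δ K}

theorem Cht.cv (c c' : Cht ι F) (τ : Tr c.O c'.O) {G : Pt c'.O → ENNReal} (hG : Measurable G) :
    ∫⁻ q, G q ∂c'.D.μ = ∫⁻ p in {p | p τ.h ≠ 0},
      ENNReal.ofReal (‖p.ev (Jac c.der fun i => (c'.z i : F))‖ ^ 2) * G (τ.map p) ∂c.D.μ := by
  have key : ∀ p : Pt c.O, p τ.h ≠ 0 →
      DifferentiableAt ℂ (fun z => c'.D.π (τ.map (c.D.sec p z))) (c.D.π p) ∧
      c.D.jac (fun p => c'.D.π (τ.map p)) p = p.ev (Jac c.der fun i => (c'.z i : F)) :=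
    fun p hp => c.cvEv.jac (f := fun i => (c'.z i : F)) (g := fun p => c'.D.π (τ.map p))
      (fun i => (τ.map_apply hp _).1) <| by
      filter_upwards [τ.isOpen.mem_nhds hp] with q hq i
      rw [c'.π_eq, (τ.map_apply hq _).2]
      rfl
  refine (CV.cv_abs c.D c'.D τ.isOpen τ.continuousOn (fun p hp => (key p hp).1) (fun p hp => ?_)
    τ.injOn ?_ hG).trans
    (setLIntegral_congr_fun τ.isOpen.measurableSet fun p hp => by simp only [(key p hp).2])
  · rw [(key p hp).2]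
    exact CV.jac_ne c.dual c'.dual (c.cvEv.reg_jac fun i => (τ.map_apply hp _).1)
      (((τ.same p hp).1 _).1.2 (c'.cvEv.reg_jac fun i => ((τ.same p hp).1 _).1.1 (p.reg_coe _)))
  · filter_upwards [c'.D.ae_of_gen (c'.gen_ne τ.ne')] with q hq
    exact ⟨τ.inv q, (τ.same' q hq).2.1, (τ.same' q hq).2.2⟩

theorem Rel.res_of_same {T T' : Rel B ν M} {p : Pt T.X.O} {q : Pt T'.X.O} (h : p.Same q) :
    q.res T'.inc = p.res T.inc := Pt.ext fun a => by
  show q (T'.inc a) = p (T.inc a)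
  rw [← Pt.ev_coe, ← Pt.ev_coe, T.inc_eq, T'.inc_eq, (h _).2]

theorem Rel.cv (T T' : Rel B ν M) : ∀ᶠ b in B.D.gen, ∀ G : (M → ℂ) → ENNReal, Measurable G →
    ∫⁻ q, G q.1.ev ∂(T'.fib b).μ =
      ∫⁻ p, ENNReal.ofReal (‖p.1.ev (Jac T.dx T'.x)‖ ^ 2) * G p.1.ev ∂(T.fib b).μ := by
  classical
  have : CharZero K := charZero_of_injective_algebraMap (algebraMap ℂ K).injective
  obtain ⟨τ⟩ := Tr.exists T.X.frac T'.X.frac
  filter_upwards [T.gen_ne τ.ne, T'.gen_ne τ.ne'] with b h1 h2 G hG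
  have a1 := (T.fib b).ae_of_gen h1
  have a2 := (T'.fib b).ae_of_gen h2
  have hU : IsOpen {p : T.Fib b | p.1 τ.h ≠ 0} := τ.isOpen.preimage continuous_subtype_val
  have back : ∀ q : T'.Fib b, q.1 τ.h' ≠ 0 → (τ.inv q.1).res T.inc = b := fun q hq =>
    (Rel.res_of_same (τ.same' q.1 hq).1).symm.trans q.2
  have forth : ∀ p : T.Fib b, p.1 τ.h ≠ 0 → (τ.map p.1).res T'.inc = b := fun p hp =>
    (Rel.res_of_same (τ.same p.1 hp).1).trans p.2
  by_cases hne : ∃ p : T.Fib b, p.1 τ.h ≠ 0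
  swap
  · rw [lintegral_congr_ae (g := fun _ => 0) (a1.mono fun p hp => absurd ⟨p, hp⟩ hne),
      lintegral_congr_ae (g := fun _ => 0) (a2.mono fun q hq =>
        absurd ⟨⟨τ.inv q.1, back q hq⟩, (τ.same' q.1 hq).2.1⟩ hne), lintegral_zero, lintegral_zero]
  obtain ⟨p0, hp0⟩ := hne
  let t : T.Fib b → T'.Fib b := fun p =>
    if h : p.1 τ.h ≠ 0 then ⟨τ.map p.1, forth p h⟩ else ⟨τ.map p0.1, forth p0 hp0⟩
  have ht : ∀ p : T.Fib b, p.1 τ.h ≠ 0 → (t p).1 = τ.map p.1 := fun p hp => by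
    simp only [t, dif_pos hp]
  have key : ∀ p : T.Fib b, p.1 τ.h ≠ 0 →
      DifferentiableAt ℂ (fun z => (T'.fib b).π (t ((T.fib b).sec p z))) ((T.fib b).π p) ∧
      (T.fib b).jac (fun p => (T'.fib b).π (t p)) p = p.1.ev (Jac T.dx T'.x) :=
    fun p hp => (T.cvEv b).jac (f := T'.x) (g := fun p => (T'.fib b).π (t p))
      (fun i => (τ.map_apply hp _).1) <| by
      filter_upwards [hU.mem_nhds hp] with q hq i
      rw [T'.fib_π, ht q hq, (τ.map_apply hq _).2]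
      rfl
  have hc : ContinuousOn t {p : T.Fib b | p.1 τ.h ≠ 0} := by
    rw [Topology.IsInducing.subtypeVal.continuousOn_iff]
    exact (τ.continuousOn.comp continuous_subtype_val.continuousOn fun _ h => h).congr ht
  refine (CV.cv_abs (T.fib b) (T'.fib b) hU hc (fun p hp => (key p hp).1) (fun p hp => ?_)
    (fun p hp q hq e => ?_) ?_ (G := fun q => G q.1.ev)
    (hG.comp (Pt.measurable_ev'.comp measurable_subtype_coe))).trans ?_
  · rw [(key p hp).2]
    exact CV.jac_ne T.dual T'.dual ((T.cvEv b).reg_jac fun i => (τ.map_apply hp _).1)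
      (((τ.same p.1 hp).1 _).1.2 ((T'.cvEv b).reg_jac fun i =>
        ((τ.same p.1 hp).1 _).1.1 (p.1.reg_coe _)))
  · exact Subtype.ext (τ.injOn hp hq (by rw [← ht p hp, ← ht q hq, e]))
  · filter_upwards [a2] with q hq
    exact ⟨⟨τ.inv q.1, back q hq⟩, (τ.same' q.1 hq).2.1,
      Subtype.ext ((ht ⟨τ.inv q.1, back q hq⟩ (τ.same' q.1 hq).2.1).trans (τ.same' q.1 hq).2.2)⟩
  · rw [Measure.restrict_eq_self_of_ae_mem (s := {p : T.Fib b | p.1 τ.h ≠ 0}) a1]
    refine lintegral_congr_ae (a1.mono fun p hp => ?_)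
    simp only [(key p hp).2, ht p hp, (τ.same p.1 hp).1.ev_eq]

end Pool.Agent.Lib.MP_5c318e_ag
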