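import Pool.Agent.Lib.MP_5c318e_ag.S.FrontA
import Pool.Agent.Lib.MP_5c318e_ag.S.CRel
import Pool.Agent.Lib.MP_5c318e_ag.S.CCov
import Pool.Agent.Lib.MP_5c318e_ag.S.CV

/-! Regular pluricanonical forms have finite pseudo-norm; in families the fibre integrals have
moderate growth. -/

set_option autoImplicit false

namespace Pool.Agent.Lib.MP_5c318e_ag

open MeasureTheory Set Filter Topology

variable {ι F : Type} [Fintype ι] [DecidableEq ι] [Field F] [Algebra ℂ F]
  {δ ν K M : Type} [Fintype δ] [DecidableEq δ] [Fintype ν] [DecidableEq ν]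
  [Field K] [Algebra ℂ K] [Field M] [Algebra ℂ M] [Algebra K M] [IsScalarTower ℂ K M]
  {B : Cht δ K}

namespace Front

theorem ind_congr {X Y : Type} {s : Set X} {t : Set Y} {x : X} {y : Y} (h : x ∈ s ↔ y ∈ t) :
    indicator s (1 : X → ENNReal) x = indicator t 1 y := by
  by_cases hx : x ∈ s
  · rw [indicator_of_mem hx, indicator_of_mem (h.1 hx)]; rfl
  · rw [indicator_of_notMem hx, indicator_of_notMem (mt h.2 hx)]

theorem rel_reg (T : Rel B ν M) (φ : M) :
    ∀ᶠ b in B.D.gen, ∀ᶠ p in (T.fib b).gen, p.1.Reg φ := by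
  obtain ⟨a, h, h0, e⟩ := T.X.frac φ
  exact (T.gen_ne h0).mono fun b hb => hb.mono fun p hp => ⟨a, h, hp, e⟩

omit [IsScalarTower ℂ K M] in
/-- functions on the base are constant on the fibres -/
theorem rel_const (T : Rel B ν M) {b : Pt B.O} (p : T.Fib b) {a : K} (ha : b.Reg a) :
    p.1.Reg (algebraMap K M a) ∧ p.1.ev (algebraMap K M a) = b.ev a := by
  obtain ⟨u, v, hv, e⟩ := ha
  have h : ∀ w, p.1 (T.inc w) = b w := fun w => DFunLike.congr_fun p.2 w
  have h1 : p.1 (T.inc v) ≠ 0 := by rwa [h]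
  have h2 : algebraMap K M a * T.inc v = T.inc u := by rw [T.inc_eq, T.inc_eq, ← map_mul, e]
  exact ⟨⟨_, _, h1, h2⟩, by rw [p.1.ev_eq h1 h2, b.ev_eq hv e, h, h]⟩

/-- change of chart for functions of the values -/
theorem cht_cv (c c' : Cht ι F) {G : (F → ℂ) → ENNReal} (hG : Measurable G) :
    ∫⁻ q, G q.ev ∂c'.D.μ =
      ∫⁻ p, ENNReal.ofReal (‖p.ev (Jac c.der fun i => (c'.z i : F))‖ ^ 2) * G p.ev ∂c.D.μ := by
  obtain ⟨τ⟩ := Tr.exists c.frac c'.frac
  have h := c.D.ae_of_gen (c.gen_ne τ.ne)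
  rw [c.cv c' τ (G := fun q => G q.ev) (hG.comp Pt.measurable_ev'),
    Measure.restrict_eq_self_of_ae_mem (s := {p : Pt c.O | p τ.h ≠ 0}) h]
  exact lintegral_congr_ae (h.mono fun p hp => by simp only [(τ.same p hp).1.ev_eq])

end Front

open Front

theorem Fam.front (T : Fam B ν M) (Fr : Frames T.dx) {m : ℕ}
    (hm : 0 < m) {φ : M} (hφ : Plu T.dx m φ) : B.D.Mod (T.N m φ) := by
  have : CharZero M := charZero_of_injective_algebraMap (algebraMap ℂ M).injective
  obtain ⟨s, c, n, H⟩ := cert Fr hm hφ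
  choose T' hT' _ using fun i => exists_fam T.fg B ⟨T.finB⟩
    (basis_of_jac T.dual.basis (Fr.ne i)) ∅
  obtain ⟨v, d, hv, hball⟩ := ball_vol ν
  let β : Pt B.O → ℝ := fun b => 1 + ∑ a ∈ c, ‖b.ev a‖
  have hβ : ∀ b, 1 ≤ β b := fun b => le_add_of_nonneg_right (by positivity)
  let R : Pt B.O → ℝ := fun b => (n + 1) * β b ^ n
  have hR : ∀ b, 0 ≤ R b := fun b => mul_nonneg (by positivity) (pow_nonneg (by positivity) n)
  have m1 : B.D.Mod fun b => ENNReal.ofReal (β b) := by
    refine mod_mono (mod_add (mod_const B.D ENNReal.one_ne_top)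
      (mod_sum c fun a _ => B.mod_ev T.finB a)) (Eventually.of_forall fun b => le_of_eq ?_)
    rw [ENNReal.ofReal_add zero_le_one (by positivity), ENNReal.ofReal_one,
      ENNReal.ofReal_sum_of_nonneg fun _ _ => norm_nonneg _]
  have m2 : B.D.Mod fun b => ENNReal.ofReal (R b) := by
    refine mod_mono (mod_mul (mod_const B.D (c := ENNReal.ofReal (n + 1)) ENNReal.ofReal_ne_top)
      (mod_pow m1 n)) (Eventually.of_forall fun b => le_of_eq ?_)
    rw [ENNReal.ofReal_mul (by positivity), ENNReal.ofReal_pow (zero_le_one.trans (hβ b))]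
  refine mod_mono (mod_mul (mod_pow m2 2) (mod_sum Finset.univ fun i _ =>
    mod_mul (mod_const B.D (ENNReal.natCast_ne_top (T' i).finX.f.natDegree))
      (mod_mul (mod_pow m2 d) (mod_const B.D hv)))) ?_
  filter_upwards [(eventually_all_finset c).2 fun a _ => B.gen_reg a,
    (eventually_all_finset s).2 fun g _ => rel_reg T.toRel g,
    eventually_all.2 fun i => T.cv (T' i).toRel, eventually_all.2 fun i => (T' i).gen_Δ]
    with b h1 h2 h3 h4
  refine core (e := fun p : T.Fib b => p.1.ev) (f := Fr.f) (J := fun i => Jac T.dx (Fr.f i))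
    (R := R b) (Pt.measurable_ev'.comp measurable_subtype_coe) ?_ fun i => ?_
  · refine ((T.fib b).ae_of_gen ((eventually_all_finset s).2 h2)).mono fun p hp => ?_
    refine H p.1.cp (β b) (hβ b) (fun a ha => ?_) hp
    obtain ⟨e1, e2⟩ := rel_const T.toRel p (h1 a ha)
    refine ⟨e1, le_trans (le_of_eq (congrArg norm e2))
      (le_trans ?_ (le_add_of_nonneg_left zero_le_one))⟩
    exact Finset.single_le_sum (f := fun a => ‖b.ev a‖) (fun _ _ => norm_nonneg _) ha
  · obtain ⟨C, hC, -⟩ := (T' i).cov b (h4 i)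
    have e := h3 i _ (measurable_one.indicator (disc_meas (Fr.f i) (R b)))
    rw [show (T' i).x = Fr.f i from funext (hT' i)] at e
    rw [← e, ← hball _ (hR b)]
    have hA : MeasurableSet {z : ν → ℂ | ∀ j, ‖z j‖ ≤ R b} := disc_meas id (R b)
    refine le_trans (le_of_eq (lintegral_congr fun q => ?_)) ((cov_vol C hA).trans
      (mul_le_mul_left (Nat.cast_le.2 (hC ▸ Polynomial.natDegree_map_le)) _))
    refine ind_congr (forall_congr' fun j => ?_)
    rw [(T' i).fib_π, ← hT' i j, ← Pt.ev_coe]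
    rfl

theorem Cht.front (c : Cht ι F) (Fr : Frames c.der) {m : ℕ}
    (hm : 0 < m) {φ : F} (hφ : Plu c.der m φ) :
    ∫⁻ p, ENNReal.ofReal (‖p.ev φ‖ ^ (2 / m : ℝ)) ∂c.D.μ < ⊤ := by
  have : CharZero F := charZero_of_injective_algebraMap (algebraMap ℂ F).injective
  obtain ⟨s, t, n, H⟩ := cert Fr hm hφ
  choose c' hc' _ hf using fun i => exists_base c.fg (basis_of_jac c.basis (Fr.ne i)) ∅
  choose C _ using fun i => (c' i).cov (hf i).some
  obtain ⟨v, d, hv, hball⟩ := ball_vol ι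
  let β : ℝ := 1 + ∑ a ∈ t, ‖a‖
  have hβ : 1 ≤ β := le_add_of_nonneg_right (by positivity)
  let R : ℝ := (n + 1) * β ^ n
  have hR : 0 ≤ R := mul_nonneg (by positivity) (pow_nonneg (by positivity) n)
  refine lt_of_le_of_lt (core (e := fun p : Pt c.O => p.ev) (f := Fr.f)
    (J := fun i => Jac c.der (Fr.f i)) (R := R) (ρ := ENNReal.ofReal R ^ 2)
    (V := fun i => (C i).f.natDegree * (ENNReal.ofReal R ^ d * v)) Pt.measurable_ev' ?_
    fun i => ?_) ?_
  · refine (c.D.ae_of_gen ((eventually_all_finset s).2 fun g _ => c.gen_reg g)).mono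
      fun p hp => H p.cp β hβ (fun a ha => ⟨p.loc.algebraMap_mem a, ?_⟩) hp
    refine le_trans (le_of_eq (congrArg norm (p.ev_alg a)))
      (le_trans ?_ (le_add_of_nonneg_left zero_le_one))
    exact Finset.single_le_sum (f := fun a : ℂ => ‖a‖) (fun _ _ => norm_nonneg _) ha
  · have e := cht_cv c (c' i) (measurable_one.indicator (disc_meas (Fr.f i) R))
    rw [show (fun j => ((c' i).z j : F)) = Fr.f i from funext (hc' i)] at e
    rw [← e, ← hball _ hR]
    have hA : MeasurableSet {z : ι → ℂ | ∀ j, ‖z j‖ ≤ R} := disc_meas id R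
    refine le_trans (le_of_eq (lintegral_congr fun q => ?_)) (cov_vol (C i) hA)
    refine ind_congr (forall_congr' fun j => ?_)
    rw [(c' i).π_eq, ← hc' i j, Pt.ev_coe]
  · have h := ENNReal.ofReal_lt_top (r := R)
    exact ENNReal.mul_lt_top (ENNReal.pow_lt_top h) (ENNReal.sum_lt_top.2 fun i _ =>
      ENNReal.mul_lt_top (ENNReal.natCast_lt_top _)
        (ENNReal.mul_lt_top (ENNReal.pow_lt_top h) hv.lt_top))

end Pool.Agent.Lib.MP_5c318e_ag
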