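import Pool.Agent.Lib.MP_5c318e_ag.S.RArea
import Pool.Agent.Lib.MP_5c318e_ag.RD.RInt

/-! Restriction of Riemann domains to open sets, and products. -/

set_option autoImplicit false
set_option linter.unusedSectionVars false

namespace Pool.Agent.Lib.MP_5c318e_ag

open MeasureTheory Set Filter Topology Function

variable {ι : Type} [Fintype ι] [DecidableEq ι] {S S' : Type}
  [TopologicalSpace S] [MeasurableSpace S] [BorelSpace S] [T2Space S] [SigmaCompactSpace S]
  [TopologicalSpace S'] [MeasurableSpace S'] [BorelSpace S'] [T2Space S'] [SigmaCompactSpace S']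

namespace RSub

/-- a continuous map over the coordinates carries sections to sections -/
theorem sec_map {T : Type} [TopologicalSpace T] [MeasurableSpace T] [BorelSpace T] (D : RD ι S)
    (D' : RD ι T) {j : T → S} {p : T} (hj : ContinuousAt j p) (h : ∀ᶠ q in 𝓝 p, D.π (j q) = D'.π q) :
    (fun z => j (D'.sec p z)) =ᶠ[𝓝 (D'.π p)] D.sec (j p) := by
  have e : D'.π p = D.π (j p) := h.self_of_nhds.symm
  have := D.sec_unique (x := j p) (σ := fun z => j (D'.sec p z)) (by rw [← e, D'.sec_self])
    (by
      rw [← e]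
      exact ContinuousAt.comp (by rw [D'.sec_self]; exact hj) (RD.sec_contAt (D'.mem_tgt p)))
    (by
      rw [← e]
      filter_upwards [(D'.tendsto_sec p).eventually h, D'.π_sec_ev p] with z h1 h2
      rw [h1, h2])
  rwa [← e] at this

/-- measures that agree locally agree -/
theorem ext_loc {X : Type} [TopologicalSpace X] [MeasurableSpace X] [OpensMeasurableSpace X]
    [SecondCountableTopology X] {μ ν : Measure X}
    (h : ∀ x, ∃ W ∈ 𝓝 x, ∀ A ⊆ W, MeasurableSet A → μ A = ν A) : μ = ν := by
  choose W h1 h2 using h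
  ext A hA
  obtain ⟨B, b1, b2, b3, b4⟩ := RArea.cover hA W fun x _ => h1 x
  rw [← b3, measure_iUnion b2 b1, measure_iUnion b2 b1]
  refine tsum_congr fun n => ?_
  rcases b4 n with h | ⟨x, -, h⟩
  · simp [h]
  · exact h2 x _ h (b1 n)

/-- the measure is determined by the coordinates -/
theorem μ_eq (D D' : RD ι S) (h : D.π = D'.π) : D.μ = D'.μ := by
  have := RArea.sc D
  refine ext_loc fun x => ⟨_, (D.ch x).open_source.mem_nhds (D.mem_src x), fun A h1 h2 => ?_⟩
  have h3 := (D.injOn_src x).mono h1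
  rw [D.vol A h2 h3, D'.vol A h2 (h ▸ h3), h]

theorem sigmaFinite (D : RD ι S) : SigmaFinite D.μ := inferInstance

theorem mp_curry (κ : Type) [Fintype κ] :
    MeasurePreserving (MeasurableEquiv.curry κ ι ℂ).symm := ⟨by fun_prop,
  (Measure.pi_eq fun s hs => by
    rw [MeasurableEquiv.map_apply, Fintype.prod_prod_type,
      show (MeasurableEquiv.curry κ ι ℂ).symm ⁻¹' Set.univ.pi s =
        Set.univ.pi fun r => Set.univ.pi fun i => s (r, i) by
          ext y; simp [MeasurableEquiv.curry]]
    simp only [volume_pi_pi]).symm⟩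

end RSub

theorem RD.exists_restrict (D : RD ι S) {U : Set S} (hU : IsOpen U) : ∃ D' : RD ι U,
    (∀ p, D'.π p = D.π p) ∧ D'.μ = D.μ.comap Subtype.val ∧
      ∀ p : U, (fun z => (D'.sec p z : S)) =ᶠ[𝓝 (D.π p)] D.sec p := by
  have e := MeasurableEmbedding.subtype_coe hU.measurableSet
  let D' : RD ι U := ⟨fun p => D.π p, D.loc.comp hU.isOpenEmbedding_subtypeVal.isLocalHomeomorph,
    D.μ.comap Subtype.val, fun A hA hi => by
      rw [e.comap_apply, D.vol _ (e.measurableSet_image.2 hA), image_image]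
      rintro _ ⟨p, hp, rfl⟩ _ ⟨q, hq, rfl⟩ h
      rw [hi hp hq h]⟩
  exact ⟨D', fun _ => rfl, rfl, fun p => RSub.sec_map D D' continuous_subtype_val.continuousAt
    (.of_forall fun _ => rfl)⟩

theorem RD.sigmaCompact_open (D : RD ι S) {U : Set S} (hU : IsOpen U) : SigmaCompactSpace U := by
  have := RArea.sc D
  have := D.wlc
  have := hU.locallyCompactSpace
  infer_instance

theorem RD.secondCountable (D : RD ι S) : SecondCountableTopology S := RArea.sc D

theorem RD.Cov.exists_restrict {D : RD ι S} (C : D.Cov) {g : MvPolynomial ι ℂ} (hg : g ≠ 0)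
    (D' : RD ι {p | MvPolynomial.eval (D.π p) g ≠ 0}) (h : ∀ p, D'.π p = D.π p) :
    ∃ C' : D'.Cov, C'.f = C.f ∧ C'.Δ = C.Δ * g ∧ ∀ p, C'.w p = C.w p := by
  refine ⟨⟨C.f, C.Δ * g, fun p => C.w p, C.monic, mul_ne_zero C.ne hg, fun p => ?_,
    fun p q h1 h2 => Subtype.ext (C.inj _ _ (by rw [← h, ← h, h1]) h2), fun a s => ?_, ?_⟩,
    rfl, rfl, fun _ => rfl⟩
  · have := RSub.sec_map D D' (p := p) continuous_subtype_val.continuousAt
      (.of_forall fun q => (h q).symm)
    refine DifferentiableAt.congr_of_eventuallyEq ?_ (this.mono fun z e => congrArg C.w e)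
    rw [h]
    exact C.hol p
  · rw [map_mul, mul_ne_zero_iff]
    constructor
    · rintro ⟨p, h1, h2⟩
      rw [h] at h1
      have := (C.mem a s).1 ⟨p, h1, h2⟩
      exact ⟨⟨this.1, h1 ▸ p.2⟩, this.2⟩
    · rintro ⟨⟨h1, h2⟩, h3⟩
      obtain ⟨p, rfl, h4⟩ := (C.mem a s).2 ⟨h1, h3⟩
      exact ⟨⟨p, h2⟩, h _, h4⟩
  · obtain ⟨A, B, j, e⟩ := C.cert
    refine ⟨A * Polynomial.C (g ^ j), B * Polynomial.C (g ^ j), j, ?_⟩
    rw [mul_pow, Polynomial.C_mul, ← e]
    ring

theorem RD.exists_pi (D : RD ι S) [SecondCountableTopology S] (κ : Type) [Fintype κ] [DecidableEq κ] :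
    ∃ D' : RD (κ × ι) (κ → S), (∀ p k i, D'.π p (k, i) = D.π (p k) i) ∧
      D'.μ = Measure.pi (fun _ => D.μ) ∧ SigmaFinite D.μ ∧
      ∀ p, D'.sec p =ᶠ[𝓝 (D'.π p)] fun z k => D.sec (p k) fun i => z (k, i) := by
  have hl : IsLocalHomeomorph fun (p : κ → S) (k : κ × ι) => D.π (p k.1) k.2 := by
    refine (Homeomorph.piCurry (X := κ) (Y := ι) (Z := ℂ)).symm.isLocalHomeomorph.comp
      (f := fun (p : κ → S) k => D.π (p k)) (IsLocalHomeomorph.mk _ fun p => ?_)
    refine ⟨OpenPartialHomeomorph.pi fun k => D.ch (p k), fun k _ => D.mem_src _, fun q _ => ?_⟩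
    funext k
    rw [OpenPartialHomeomorph.pi_apply, D.ch_coe]
  obtain ⟨D', hD⟩ := RD.exists_of _ hl
  refine ⟨D', fun p k i => by rw [hD], ?_, inferInstance, fun p => ?_⟩
  · refine RSub.ext_loc fun p => ⟨pi univ fun k => (D.ch (p k)).source,
      set_pi_mem_nhds finite_univ fun k _ => (D.ch _).open_source.mem_nhds (D.mem_src _),
      fun A h1 h2 => ?_⟩
    have key : (Measure.pi fun _ : κ => D.μ).restrict (pi univ fun k => (D.ch (p k)).source) =
        D'.μ.restrict (pi univ fun k => (D.ch (p k)).source) := by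
      rw [Measure.restrict_pi_pi]
      refine Measure.pi_eq fun s hs => ?_
      have m : ∀ k, MeasurableSet (s k ∩ (D.ch (p k)).source) := fun k =>
        (hs k).inter (D.ch _).open_source.measurableSet
      rw [Measure.restrict_apply (MeasurableSet.univ_pi hs), ← pi_inter_distrib,
        D'.vol _ (MeasurableSet.univ_pi m) (by
          intro a ha b hb e
          rw [hD] at e
          exact funext fun k => D.injOn_src (p k) (ha k trivial).2 (hb k trivial).2
            (funext fun i => congrFun e (k, i))), hD,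
        ← (RSub.mp_curry (ι := ι) κ).measure_preimage_equiv]
      have : (MeasurableEquiv.curry κ ι ℂ).symm ⁻¹' ((fun (p : κ → S) (k : κ × ι) => D.π (p k.1) k.2) ''
          pi univ fun k => s k ∩ (D.ch (p k)).source) =
          pi univ fun k => D.π '' (s k ∩ (D.ch (p k)).source) := by
        ext z
        constructor
        · rintro ⟨a, ha, e⟩ k -
          exact ⟨a k, ha k trivial, funext fun i => congrFun e (k, i)⟩
        · intro h
          choose a h1 h2 using fun k => h k trivial
          exact ⟨a, fun k _ => h1 k, funext fun k => congrFun (h2 k.1) k.2⟩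
      rw [this, volume_pi_pi]
      refine Finset.prod_congr rfl fun k _ => ?_
      rw [Measure.restrict_apply (hs k), D.vol _ (m k) ((D.injOn_src _).mono inter_subset_right)]
    rw [← Measure.restrict_eq_self _ h1, ← key, Measure.restrict_eq_self _ h1]
  · have hc : ∀ k, Tendsto (fun (z : κ × ι → ℂ) i => z (k, i)) (𝓝 (D'.π p)) (𝓝 (D.π (p k))) :=
      fun k => by
        have : Continuous fun (z : κ × ι → ℂ) i => z (k, i) := by fun_prop
        have h := this.tendsto (D'.π p)
        rwa [hD] at h ⊢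
    refine (D'.sec_unique ?_ ?_ ?_).symm
    · funext k
      rw [hD]
      exact D.sec_self _
    · refine continuousAt_pi.2 fun k => ?_
      have h := (D.tendsto_sec (p k)).comp (hc k)
      have e : D.sec (p k) (fun i => D'.π p (k, i)) = p k := by
        rw [hD]
        exact D.sec_self _
      rw [ContinuousAt, e]
      exact h
    · filter_upwards [eventually_all.2 fun k => (hc k).eventually (D.π_sec_ev (p k))] with z hz
      rw [hD]
      exact funext fun k => congrFun (hz k.1) k.2

end Pool.Agent.Lib.MP_5c318e_ag
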