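import Pool.Agent.Lib.MP_5c318e_ag.S.CCov
import Pool.Agent.Lib.MP_5c318e_ag.S.CRel
import Pool.Agent.Lib.MP_5c318e_ag.S.RSub
import Pool.Agent.Lib.MP_5c318e_ag.S.APlu
import Pool.Agent.Lib.MP_5c318e_ag.RD.RInt

/-! Inverting one element: rings, points, charts, finiteness data, measures. -/

set_option autoImplicit false

namespace Pool.Agent.Lib.MP_5c318e_ag

open MeasureTheory Set Filter Topology Polynomial

noncomputable section

section rd

variable {ι : Type} [Fintype ι] {S S' : Type}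
  [TopologicalSpace S] [MeasurableSpace S] [BorelSpace S] [SigmaCompactSpace S]
  [TopologicalSpace S'] [MeasurableSpace S'] [BorelSpace S'] [SigmaCompactSpace S']

/-- a bijection over the coordinate space preserves integrals -/
theorem RD.lint_bij (D : RD ι S) (D' : RD ι S') {U : Set S} {V : Set S'} (hU : MeasurableSet U)
    (hV : MeasurableSet V) {t : S → S'} (hm : Measurable t) (hb : BijOn t U V)
    (hπ : ∀ p ∈ U, D'.π (t p) = D.π p) {G : S' → ENNReal} (hG : Measurable G) :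
    ∫⁻ p in U, G (t p) ∂D.μ = ∫⁻ q in V, G q ∂D'.μ := by
  rw [← lintegral_indicator hU, ← lintegral_indicator hV,
    D.lintegral_eq (F := indicator U fun p => G (t p)) ((hG.comp hm).indicator hU),
    D'.lintegral_eq (hG.indicator hV)]
  refine lintegral_congr fun z => ?_
  have h : BijOn t (D.π ⁻¹' {z} ∩ U) (D'.π ⁻¹' {z} ∩ V) :=
    ⟨fun p hp => ⟨(hπ p hp.2).trans hp.1, hb.mapsTo hp.2⟩, hb.injOn.mono inter_subset_right,
      fun q hq => by
        obtain ⟨p, hp, rfl⟩ := hb.surjOn hq.2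
        exact ⟨p, ⟨(hπ p hp).symm.trans hq.1, hp⟩, rfl⟩⟩
  rw [tsum_subtype (D.π ⁻¹' {z}) (indicator U fun p => G (t p)),
    tsum_subtype (D'.π ⁻¹' {z}) (indicator V G), indicator_indicator, indicator_indicator,
    ← tsum_subtype, ← tsum_subtype, ← (h.equiv t).tsum_eq]
  rfl

theorem RD.mp_bij (D : RD ι S) (D' : RD ι S') {U : Set S} {V : Set S'} (hU : MeasurableSet U)
    (hV : MeasurableSet V) {t : S → S'} (hm : Measurable t) (hb : BijOn t U V)
    (hπ : ∀ p ∈ U, D'.π (t p) = D.π p) (h : ∀ᵐ p ∂D.μ, p ∈ U) (h' : ∀ᵐ q ∂D'.μ, q ∈ V) :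
    MeasurePreserving t D.μ D'.μ := ⟨hm, Measure.ext fun A hA => by
  have e := D.lint_bij D' hU hV hm hb hπ (measurable_one.indicator hA)
  rw [Measure.restrict_eq_self_of_ae_mem h, Measure.restrict_eq_self_of_ae_mem h',
    lintegral_indicator_one hA] at e
  rw [Measure.map_apply hm hA, ← e, ← lintegral_indicator_one (hm hA)]
  rfl⟩

end rd

section ring

variable {F : Type} [Field F] [Algebra ℂ F] {A A' A'' : Subalgebra ℂ F}

theorem Pt.isUnit_of_ne {O : Type} [CommRing O] [Algebra ℂ O] [Algebra.FiniteType ℂ O] {h : O}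
    (H : ∀ p : Pt O, p h ≠ 0) : IsUnit h := by
  by_contra hu
  obtain ⟨p, hp⟩ := Pt.exists_zero (mt Ideal.span_singleton_eq_top.1 hu)
  exact H p (hp h (Ideal.mem_span_singleton_self h))

theorem inv_mem_of_isUnit {a : A} (h : IsUnit a) : (a : F)⁻¹ ∈ A := by
  obtain ⟨b, hb⟩ := h.exists_right_inv
  have e : (a : F) * b = 1 := congrArg Subtype.val hb
  rw [← eq_inv_of_mul_eq_one_right e]
  exact b.2

theorem isUnit_of_inv_mem {a : A} (h0 : a ≠ 0) (h : (a : F)⁻¹ ∈ A) : IsUnit a :=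
  IsUnit.of_mul_eq_one ⟨_, h⟩ (Subtype.ext (mul_inv_cancel₀ fun e => h0 (Subtype.ext e)))

/-- `A' = A[1 / h]` -/
structure IsLoc (A A' : Subalgebra ℂ F) (h : A) : Prop where
  ne : h ≠ 0
  le : A ≤ A'
  inl : InLoc A' A h
  inv : (h : F)⁻¹ ∈ A'

theorem isLoc_locAway {h : A} (h0 : h ≠ 0) : IsLoc A (locAway A h) h :=
  ⟨h0, le_locAway A h, fun _ hφ => hφ, inv_mem_locAway h⟩

namespace IsLoc

variable {h : A} (L : IsLoc A A' h)

include L

theorem ne' : (h : F) ≠ 0 := fun e => L.ne (Subtype.ext e)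

theorem eq : A' = locAway A h := le_antisymm L.inl fun φ ⟨k, a, e⟩ => by
  have : φ = a * (h : F)⁻¹ ^ k := by
    rw [← e, SubmonoidClass.coe_pow, mul_assoc, ← mul_pow, mul_inv_cancel₀ L.ne', one_pow, mul_one]
  rw [this]
  exact mul_mem (L.le a.2) (pow_mem L.inv k)

/-- the inclusion -/
abbrev j : A →ₐ[ℂ] A' := Subalgebra.inclusion L.le

theorem unit : IsUnit (L.j h) :=
  isUnit_of_inv_mem (fun e => L.ne' (congrArg Subtype.val e)) L.inv

theorem etale : (L.j : A →+* A').Etale := by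
  let _ : Algebra A A' := (L.j : A →+* A').toAlgebra
  have : IsLocalization.Away h A' := IsLocalization.Away.mk h L.unit
    (fun s => by
      obtain ⟨k, a, e⟩ := L.inl s s.2
      exact ⟨k, a, Subtype.ext e⟩)
    fun a b e => ⟨0, by rw [Subalgebra.inclusion_injective L.le e]⟩
  exact Algebra.Etale.of_isLocalizationAway h

theorem frac (H : ∀ φ : F, ∃ a b : A, b ≠ 0 ∧ φ * b = a) (φ : F) :
    ∃ a b : A', b ≠ 0 ∧ φ * b = a := by
  obtain ⟨a, b, hb, e⟩ := H φ
  exact ⟨L.j a, L.j b, fun e => hb (Subtype.ext (congrArg Subtype.val e :)), e⟩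

theorem dn_ne (q : Pt A') : q.res L.j h ≠ 0 := (L.unit.map q.hom).ne_zero

/-- the point of `A'` over a point with `h ≠ 0` -/
def up (p : Pt A) (hp : p h ≠ 0) : Pt A' := p.under (L.inl.le hp)

theorem dn_up (p : Pt A) (hp : p h ≠ 0) : (L.up p hp).res L.j = p :=
  Pt.ext fun a => p.ev_coe a

theorem dn_eq (q : Pt A') : q.res L.j = q.under (L.le.trans q.le_loc) :=
  Pt.ext fun a => (q.ev_coe (L.j a)).symm

theorem same (q : Pt A') : q.Same (q.res L.j) := by
  have := L.inl.le (L.dn_ne q)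
  rw [L.dn_eq] at this ⊢
  exact q.same_under _ this

theorem up_dn (q : Pt A') : L.up (q.res L.j) (L.dn_ne q) = q :=
  ((L.same q).symm.eq_under _).symm

theorem inj : Function.Injective (Pt.res L.j) := fun p q e =>
  Pt.Same.eq fun φ => by
    have h1 := L.same p φ
    have h2 := L.same q φ
    rw [e] at h1
    exact ⟨h1.1.trans h2.1.symm, h1.2.trans h2.2.symm⟩

theorem range_eq : range (Pt.res L.j) = {p | p h ≠ 0} :=
  Set.ext fun p => ⟨fun ⟨q, e⟩ => e ▸ L.dn_ne q, fun hp => ⟨_, L.dn_up p hp⟩⟩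

theorem cont_up {X : Type} [TopologicalSpace X] {g : X → Pt A} (hg : Continuous g)
    (hp : ∀ x, g x h ≠ 0) : Continuous fun x => L.up (g x) (hp x) :=
  Pt.continuous_iff.2 fun a => continuous_iff_continuousAt.2 fun x =>
    (Pt.Reg.continuousAt (L.inl.le (hp x) a.2)).comp hg.continuousAt

/-- the points of `A[1 / h]` -/
def homeo : Pt A' ≃ₜ {p : Pt A | p h ≠ 0} where
  toFun q := ⟨q.res L.j, L.dn_ne q⟩
  invFun p := L.up p.1 p.2
  left_inv := L.up_dn
  right_inv p := Subtype.ext (L.dn_up p.1 p.2)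
  continuous_toFun := (Pt.continuous_res _).subtype_mk _
  continuous_invFun := L.cont_up continuous_subtype_val fun p => p.2

theorem emb : IsOpenEmbedding (Pt.res L.j) :=
  (isOpen_ne_fun (Pt.continuous_apply h) continuous_const).isOpenEmbedding_subtypeVal.comp
    L.homeo.isOpenEmbedding

end IsLoc

/-- a localisation of a ring between `A` and `A[1 / h]` in which `h` is a unit -/
theorem IsLoc.of_between {h : A} {g : A'} (h0 : h ≠ 0) (le : A ≤ A') (H : InLoc A' A h)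
    (L : IsLoc A' A'' g) (u : (h : F)⁻¹ ∈ A'') : ∃ h' : A, IsLoc A A'' h' := by
  obtain ⟨k, a, e⟩ := H g g.2
  have c0 : (h : F) ≠ 0 := fun e => h0 (Subtype.ext e)
  have g0 := L.ne'
  push_cast at e
  have a0 : (a : F) ≠ 0 := e ▸ mul_ne_zero g0 (pow_ne_zero _ c0)
  refine ⟨h * a, mul_ne_zero h0 fun e => a0 (by simp [e]), le.trans L.le, fun φ hφ => ?_, ?_⟩
  · obtain ⟨l, b, e'⟩ := L.inl φ hφ
    have h1 : (g : F)⁻¹ ∈ locAway A (h * a) :=
      ⟨1, h ^ (k + 1), by push_cast; rw [← e]; field_simp; ring⟩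
    have h2 : φ = b * (g : F)⁻¹ ^ l := by
      rw [← e', SubmonoidClass.coe_pow, mul_assoc, ← mul_pow, mul_inv_cancel₀ g0, one_pow, mul_one]
    exact h2 ▸ (locAway A (h * a)).mul_mem (H.mul a b b.2) (pow_mem h1 l)
  · rw [MulMemClass.coe_mul, ← e, mul_inv, mul_inv, ← inv_pow]
    exact mul_mem u (mul_mem L.inv (pow_mem u k))

end ring

section fini

variable {R O R' O' ν : Type} [CommRing R] [Algebra ℂ R] [CommRing O] [Algebra ℂ O]
  [CommRing R'] [Algebra ℂ R'] [CommRing O'] [Algebra ℂ O']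

theorem loc_hom {inc : R →ₐ[ℂ] O} {inc' : R' →ₐ[ℂ] O'} {jR : R →ₐ[ℂ] R'} {jO : O →ₐ[ℂ] O'}
    (hc : ∀ a, inc' (jR a) = jO (inc a)) (x : ν → O) :
    (MvPolynomial.eval₂Hom (inc' : R' →+* O') fun i => jO (x i)).comp
      (MvPolynomial.map (jR : R →+* R')) =
      (jO : O →+* O').comp (MvPolynomial.eval₂Hom (inc : R →+* O) x) :=
  MvPolynomial.ringHom_ext (fun r => by simp [hc]) fun i => by simp

/-- finiteness data survive when `g (x)` becomes a unit, or an element of the base -/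
def Fini.loc {inc : R →ₐ[ℂ] O} {x : ν → O} (Φ : Fini inc x) {inc' : R' →ₐ[ℂ] O'}
    {jR : R →ₐ[ℂ] R'} {jO : O →ₐ[ℂ] O'} (hc : ∀ a, inc' (jR a) = jO (inc a))
    (g : MvPolynomial ν R') (ne : MvPolynomial.map (jR : R →+* R') Φ.Δ * g ≠ 0)
    (unit : IsUnit (MvPolynomial.eval₂ (inc' : R' →+* O') (fun i => jO (x i)) g))
    (gen : ∀ φ : O', ∃ (a : O) (c : R') (k : ℕ),
      φ * MvPolynomial.eval₂ (inc' : R' →+* O') (fun i => jO (x i)) g ^ k = inc' c * jO a)
    (ex : ∀ (b : Pt R') (p : Pt O), p.res inc = b.res jR →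
      MvPolynomial.eval₂ (b.hom : R' →+* ℂ) (fun i => p (x i)) g ≠ 0 →
      ∃ q : Pt O', q.res inc' = b ∧ q.res jO = p) : Fini inc' fun i => jO (x i) where
  Δ := MvPolynomial.map (jR : R →+* R') Φ.Δ * g
  f := Φ.f.map (MvPolynomial.map (jR : R →+* R'))
  w := jO Φ.w
  monic := Φ.monic.map _
  unit := by
    rw [MvPolynomial.eval₂_mul]
    refine IsUnit.mul ?_ unit
    have h1 : MvPolynomial.eval₂ (inc' : R' →+* O') (fun i => jO (x i))
        (MvPolynomial.map (jR : R →+* R') Φ.Δ) = jO (MvPolynomial.eval₂ (inc : R →+* O) x Φ.Δ) :=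
      RingHom.congr_fun (loc_hom hc x) Φ.Δ
    exact h1 ▸ Φ.unit.map jO
  root := by
    rw [eval₂_map, loc_hom hc x]
    exact (hom_eval₂ Φ.f _ (jO : O →+* O') Φ.w).symm.trans (by rw [Φ.root, map_zero])
  gen φ := by
    obtain ⟨a, c, k, e⟩ := gen φ
    obtain ⟨P, l, e'⟩ := Φ.gen a
    refine ⟨C (MvPolynomial.C c * MvPolynomial.map (jR : R →+* R') Φ.Δ ^ k * g ^ l) *
      P.map (MvPolynomial.map (jR : R →+* R')), k + l, ?_⟩
    have h1 : MvPolynomial.eval₂ (inc' : R' →+* O') (fun i => jO (x i))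
        (MvPolynomial.map (jR : R →+* R') Φ.Δ) = jO (MvPolynomial.eval₂ (inc : R →+* O) x Φ.Δ) :=
      RingHom.congr_fun (loc_hom hc x) Φ.Δ
    have h2 := hom_eval₂ P (MvPolynomial.eval₂Hom (inc : R →+* O) x) (jO : O →+* O') Φ.w
    rw [eval₂_mul, eval₂_C, eval₂_map, loc_hom hc x]
    erw [← h2]
    rw [← e']
    simp only [MvPolynomial.coe_eval₂Hom, MvPolynomial.eval₂_mul,
      MvPolynomial.eval₂_C, h1, map_mul, map_pow, RingHom.coe_coe]
    generalize MvPolynomial.eval₂ (inc' : R' →+* O') (fun i => jO (x i)) g = u at e ⊢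
    generalize jO (MvPolynomial.eval₂ (inc : R →+* O) x Φ.Δ) = v
    linear_combination v ^ (k + l) * u ^ l * e
  ne := ne
  ex b a s h1 h2 := by
    have e : (b.hom : R' →+* ℂ).comp (jR : R →+* R') = ((b.res jR).hom : R →+* ℂ) := rfl
    rw [MvPolynomial.eval₂_mul, MvPolynomial.eval₂_map, e] at h1
    rw [eval₂_map] at h2
    obtain ⟨p, p1, p2, p3⟩ := Φ.ex (b.res jR) a s (left_ne_zero_of_mul h1) (by
      convert h2 using 2
      exact MvPolynomial.ringHom_ext (fun r => by simp) fun i => by simp)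
    obtain ⟨q, q1, rfl⟩ := ex b p p1 (by rw [funext p2]; exact right_ne_zero_of_mul h1)
    exact ⟨q, q1, p2, p3⟩
  cert := by
    obtain ⟨A, B, j, e⟩ := Φ.cert
    refine ⟨A.map (MvPolynomial.map (jR : R →+* R')) * C (g ^ j),
      B.map (MvPolynomial.map (jR : R →+* R')) * C (g ^ j), j, ?_⟩
    rw [← mul_assoc, ← mul_assoc, ← add_mul, derivative_map, ← Polynomial.map_mul,
      ← Polynomial.map_mul, ← Polynomial.map_add, e, map_C, ← map_mul, mul_pow, map_pow]

end fini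

section cht

variable {ι F : Type} [Fintype ι] [DecidableEq ι] [Field F] [Algebra ℂ F]

omit [Fintype ι] [Algebra ℂ F] in
theorem Dual.uniq {k : Type} [Field k] [CharZero k] [Algebra k F] {z : ι → F}
    {d d' : ι → Derivation k F F} (h : Dual k z d) (h' : Dual k z d') : d = d' :=
  funext fun i => der_ext_basis h.basis _ _ fun j => by rw [h.dual, h'.dual]

theorem Cht.der_eq (c c' : Cht ι F) (h : ∀ i, (c'.z i : F) = c.z i) : c'.der = c.der :=
  Dual.uniq (funext h ▸ c'.dual) c.dual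

theorem Cht.exists_isLoc (c : Cht ι F) {h : c.O} (h0 : h ≠ 0) :
    ∃ c' : Cht ι F, IsLoc c.O c'.O h ∧ ∀ i, (c'.z i : F) = c.z i := by
  obtain ⟨c', e, hz⟩ := c.exists_loc h0
  exact ⟨c', e ▸ isLoc_locAway h0, hz⟩

theorem Cht.gen_reg_ne (c : Cht ι F) {φ : F} (h0 : φ ≠ 0) :
    ∀ᶠ p in c.D.gen, p.Reg φ ∧ p.ev φ ≠ 0 := by
  obtain ⟨a, b, hb, e⟩ := c.frac φ
  have ha : a ≠ 0 := fun e' => mul_ne_zero h0 (fun e => hb (Subtype.ext e)) (by rw [e, e']; rfl)
  filter_upwards [c.gen_ne ha, c.gen_ne hb] with p h1 h2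
  exact ⟨⟨a, b, h2, e⟩, by rw [p.ev_eq h2 e]; exact div_ne_zero h1 h2⟩

variable {c c' : Cht ι F} {h : c.O}

theorem IsLoc.π_eq (L : IsLoc c.O c'.O h) (hz : ∀ i, (c'.z i : F) = c.z i) (q : Pt c'.O) :
    c.D.π (q.res L.j) = c'.D.π q := funext fun i => by
  rw [c.π_eq, c'.π_eq]
  exact congrArg q (Subtype.ext (hz i).symm)

theorem IsLoc.lint (L : IsLoc c.O c'.O h) (hz : ∀ i, (c'.z i : F) = c.z i)
    {G : Pt c.O → ENNReal} (hG : Measurable G) :
    ∫⁻ q, G (q.res L.j) ∂c'.D.μ = ∫⁻ p, G p ∂c.D.μ := by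
  refine MeasurePreserving.lintegral_comp (c'.D.mp_bij c.D MeasurableSet.univ
    L.emb.isOpen_range.measurableSet (Pt.continuous_res _).measurable
    ⟨fun q _ => mem_range_self q, L.inj.injOn, fun p ⟨q, e⟩ => ⟨q, trivial, e⟩⟩
    (fun q _ => L.π_eq hz q) (Eventually.of_forall fun _ => trivial) ?_) hG
  rw [L.range_eq]
  exact c.D.ae_of_gen (c.gen_ne L.ne)

theorem Cht.aeval_ne (c : Cht ι F) {g : MvPolynomial ι ℂ} (hg : g ≠ 0) :
    MvPolynomial.aeval c.z g ≠ 0 := fun e => hg <| c.basis.1 <| by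
  have := MvPolynomial.comp_aeval_apply (f := c.z) c.O.val g
  rw [e, map_zero] at this
  rw [map_zero]
  exact this.symm

/-- a finite chart stays finite when a polynomial in the coordinates is inverted -/
theorem IsLoc.fini {g : MvPolynomial ι ℂ} (L : IsLoc c.O c'.O (MvPolynomial.aeval c.z g))
    (hz : ∀ i, (c'.z i : F) = c.z i) (Φ : Fini (Algebra.ofId ℂ c.O) c.z) :
    ∃ Φ' : Fini (Algebra.ofId ℂ c'.O) c'.z, Φ'.Δ = Φ.Δ * g ∧ Φ'.f = Φ.f ∧ Φ'.w = L.j Φ.w := by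
  have e : c'.z = fun i => L.j (c.z i) := funext fun i => Subtype.ext (hz i)
  have e1 : MvPolynomial.eval₂ (Algebra.ofId ℂ c'.O : ℂ →+* c'.O) (fun i => L.j (c.z i)) g =
      L.j (MvPolynomial.aeval c.z g) := (MvPolynomial.comp_aeval_apply (f := c.z) L.j g).symm
  have e2 : MvPolynomial.map (σ := ι) (AlgHom.id ℂ ℂ : ℂ →+* ℂ) = RingHom.id _ :=
    RingHom.ext fun q => MvPolynomial.map_id q
  have hg : g ≠ 0 := fun e => L.ne (by rw [e, map_zero])
  rw [e]
  refine ⟨Φ.loc (jR := AlgHom.id ℂ ℂ) (jO := L.j) (fun a => by simp [Algebra.ofId_apply]) g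
    (by rw [e2]; exact mul_ne_zero Φ.ne hg) (e1 ▸ L.unit) (fun φ => ?_) fun b p _ hp => ?_,
    by simp only [Fini.loc, e2, RingHom.id_apply], by simp only [Fini.loc, e2, Polynomial.map_id],
    rfl⟩
  · obtain ⟨k, a, ha⟩ := L.inl φ φ.2
    exact ⟨a, 1, k, by rw [e1, map_one, one_mul]; exact Subtype.ext ha⟩
  · have h1 : p (MvPolynomial.aeval c.z g) ≠ 0 := by
      rw [c.apply_aeval, c.π_fun]
      rwa [b.hom_complex] at hp
    exact ⟨L.up p h1, Subsingleton.elim (α := ℂ →ₐ[ℂ] ℂ) _ _, L.dn_up p h1⟩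

end cht

end

end Pool.Agent.Lib.MP_5c318e_ag
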