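import Pool.Agent.Lib.MP_5c318e_ag.RD.RDefs

/-!
Complex points of finitely generated algebras, charts of function fields as Riemann domains,
finite coverings, families and their fibres.
-/

set_option autoImplicit false

namespace Pool.Agent.Lib.MP_5c318e_ag

open MeasureTheory Polynomial

noncomputable section

/-- the complex points of an algebra, with the topology of pointwise convergence -/
def Pt (O : Type) [CommRing O] [Algebra ℂ O] : Type := O →ₐ[ℂ] ℂ

namespace Pt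

variable {O R : Type} [CommRing O] [Algebra ℂ O] [CommRing R] [Algebra ℂ R]

instance : FunLike (Pt O) O ℂ := inferInstanceAs (FunLike (O →ₐ[ℂ] ℂ) O ℂ)

instance : AlgHomClass (Pt O) ℂ O ℂ := inferInstanceAs (AlgHomClass (O →ₐ[ℂ] ℂ) ℂ O ℂ)

instance : TopologicalSpace (Pt O) := .induced (fun p : Pt O => (p : O → ℂ)) inferInstance

instance : MeasurableSpace (Pt O) := borel _

instance : BorelSpace (Pt O) := ⟨rfl⟩

/-- a point as an algebra map -/
def hom (p : Pt O) : O →ₐ[ℂ] ℂ := p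

/-- the map on points induced by an algebra map -/
def res (inc : R →ₐ[ℂ] O) (p : Pt O) : Pt R := p.hom.comp inc

variable {F : Type} [Field F] [Algebra ℂ F] {A : Subalgebra ℂ F}

/-- `φ` is regular at the point `p` -/
def Reg (p : Pt A) (φ : F) : Prop := ∃ a b : A, p b ≠ 0 ∧ φ * b = a

open Classical in
/-- the value at `p` of an element of the field (zero if it is not regular at `p`) -/
def ev (p : Pt A) (φ : F) : ℂ :=
  if h : p.Reg φ then p h.choose / p h.choose_spec.choose else 0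

end Pt

/-- the value of a polynomial in `(a, s)` -/
def ev2 {ι : Type} (q : (MvPolynomial ι ℂ)[X]) (a : ι → ℂ) (s : ℂ) : ℂ :=
  q.eval₂ (MvPolynomial.eval a) s

namespace RD

variable {ι : Type} [Fintype ι] {S : Type} [TopologicalSpace S] [MeasurableSpace S] (D : RD ι S)

/-- the derivative of a map to `ℂ^κ` in the coordinates of `D` -/
def fd {E : Type} [NormedAddCommGroup E] [NormedSpace ℂ E] (g : S → E) (x : S) :
    (ι → ℂ) →L[ℂ] E :=
  fderiv ℂ (fun z => g (D.sec x z)) (D.π x)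

/-- the Jacobian determinant of a map to `ℂ^ι` -/
def jac (g : S → (ι → ℂ)) (x : S) : ℂ := (D.fd g x).det

/-- `S` is the finite covering `f (a, s) = 0` of the complement of `Δ (a) = 0` -/
structure Cov where
  f : (MvPolynomial ι ℂ)[X]
  Δ : MvPolynomial ι ℂ
  w : S → ℂ
  monic : f.Monic
  ne : Δ ≠ 0
  hol : D.Hol w
  inj : ∀ p q, D.π p = D.π q → w p = w q → p = q
  mem : ∀ a s, (∃ p, D.π p = a ∧ w p = s) ↔ MvPolynomial.eval a Δ ≠ 0 ∧ ev2 f a s = 0
  cert : ∃ (A B : (MvPolynomial ι ℂ)[X]) (j : ℕ), f * A + derivative f * B = C (Δ ^ j)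

/-- properties that hold off a hypersurface `g (π p) = 0` -/
def gen : Filter S where
  sets := {U | ∃ g : MvPolynomial ι ℂ, g ≠ 0 ∧ ∀ p, MvPolynomial.eval (D.π p) g ≠ 0 → p ∈ U}
  univ_sets := ⟨1, one_ne_zero, fun _ _ => trivial⟩
  sets_of_superset := fun ⟨g, h0, h⟩ hU => ⟨g, h0, fun p hp => hU (h p hp)⟩
  inter_sets := fun ⟨g, h0, h⟩ ⟨g', h0', h'⟩ => ⟨g * g', mul_ne_zero h0 h0', fun p hp => by
    rw [map_mul] at hp
    exact ⟨h p (left_ne_zero_of_mul hp), h' p (right_ne_zero_of_mul hp)⟩⟩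

/-- moderate growth off a hypersurface -/
def Mod (u : S → ENNReal) : Prop :=
  ∃ g : MvPolynomial ι ℂ, g ≠ 0 ∧ ∃ (A : ℝ) (N : ℕ), ∀ p, MvPolynomial.eval (D.π p) g ≠ 0 →
    u p ≤ ENNReal.ofReal (A * ((1 + ‖D.π p‖) / ‖MvPolynomial.eval (D.π p) g‖ + (1 + ‖D.π p‖)) ^ N)

end RD

/-- an affine chart of the function field `F`, spread over `ℂ^ι` by the coordinates `z`;
`der` are the derivations dual to `z` -/
structure Cht (ι F : Type) [Fintype ι] [DecidableEq ι] [Field F] [Algebra ℂ F] where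
  O : Subalgebra ℂ F
  ft : Algebra.FiniteType ℂ O
  frac : ∀ φ : F, ∃ a b : O, b ≠ 0 ∧ φ * b = a
  z : ι → O
  basis : IsTranscendenceBasis ℂ fun i => (z i : F)
  et : (MvPolynomial.aeval z : MvPolynomial ι ℂ →ₐ[ℂ] O).toRingHom.Etale
  der : ι → Derivation ℂ F F
  der_z : ∀ i j, der i (z j) = if i = j then 1 else 0
  der_mem : ∀ i, ∀ φ ∈ O, der i φ ∈ O
  D : RD ι (Pt O)
  π_eq : ∀ p i, D.π p i = p (z i)
  hol : ∀ φ : O, D.Hol fun p => p φ
  fd_eq : ∀ (φ : O) (p : Pt O) (i : ι),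
    D.fd (fun q => q φ) p (Pi.single i 1) = p ⟨der i φ, der_mem i φ φ.2⟩

/-- `O` is finite and unramified over `R[x][1 / Δ]`, generated by a root `w` of `f` -/
structure Fini {R O ν : Type} [CommRing R] [Algebra ℂ R] [CommRing O] [Algebra ℂ O]
    (inc : R →ₐ[ℂ] O) (x : ν → O) where
  Δ : MvPolynomial ν R
  f : (MvPolynomial ν R)[X]
  w : O
  monic : f.Monic
  unit : IsUnit (MvPolynomial.eval₂ (inc : R →+* O) x Δ)
  root : f.eval₂ (MvPolynomial.eval₂Hom (inc : R →+* O) x) w = 0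
  gen : ∀ φ : O, ∃ (P : (MvPolynomial ν R)[X]) (j : ℕ),
    φ * MvPolynomial.eval₂ (inc : R →+* O) x Δ ^ j =
      P.eval₂ (MvPolynomial.eval₂Hom (inc : R →+* O) x) w
  ne : Δ ≠ 0
  ex : ∀ (b : Pt R) (a : ν → ℂ) (s : ℂ), MvPolynomial.eval₂ (b.hom : R →+* ℂ) a Δ ≠ 0 →
    f.eval₂ (MvPolynomial.eval₂Hom (b.hom : R →+* ℂ) a) s = 0 →
    ∃ p : Pt O, p.res inc = b ∧ (∀ i, p (x i) = a i) ∧ p w = s
  cert : ∃ (A B : (MvPolynomial ν R)[X]) (j : ℕ), f * A + derivative f * B = C (Δ ^ j)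

instance {ι F : Type} [Fintype ι] [DecidableEq ι] [Field F] [Algebra ℂ F] (c : Cht ι F) :
    Algebra.FiniteType ℂ c.O := c.ft

/-- a chart of `M` over the chart `B` of `K`: coordinates `y` on the base, `(y, x)` above -/
structure Rel {δ K : Type} [Fintype δ] [DecidableEq δ] [Field K] [Algebra ℂ K] (B : Cht δ K)
    (ν M : Type) [Fintype ν] [DecidableEq ν] [Field M] [Algebra ℂ M] [Algebra K M] where
  X : Cht (δ ⊕ ν) M
  inc : B.O →ₐ[ℂ] X.O
  inc_eq : ∀ a, (inc a : M) = algebraMap K M a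
  zy : ∀ i, X.z (Sum.inl i) = inc (B.z i)
  dx : ν → Derivation K M M
  dx_eq : ∀ i φ, dx i φ = X.der (Sum.inr i) φ
  fib : ∀ b : Pt B.O, RD ν {p : Pt X.O // p.res inc = b}
  fib_π : ∀ b p i, (fib b).π p i = p.1 (X.z (Sum.inr i))
  fib_hol : ∀ b (φ : X.O), (fib b).Hol fun p => p.1 φ
  fib_fd : ∀ b (φ : X.O) p i, (fib b).fd (fun q => q.1 φ) p (Pi.single i 1) =
    p.1 ⟨X.der (Sum.inr i) φ, X.der_mem _ φ φ.2⟩

/-- a family of finite coverings over a finite covering -/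
structure Fam {δ K : Type} [Fintype δ] [DecidableEq δ] [Field K] [Algebra ℂ K] (B : Cht δ K)
    (ν M : Type) [Fintype ν] [DecidableEq ν] [Field M] [Algebra ℂ M] [Algebra K M]
    extends Rel B ν M where
  finB : Fini (Algebra.ofId ℂ B.O) B.z
  finX : Fini inc fun i => X.z (Sum.inr i)

end

end Pool.Agent.Lib.MP_5c318e_ag
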