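import Pool.Agent.Lib.MP_5c318e_ag.S.SDefs
import Pool.Agent.Lib.MP_5c318e_ag.S.PDefs
import Pool.Agent.Lib.MP_5c318e_ag.Gauss

/-!
Dual frames, the spaces of regular forms, relative regularity, charts at a prime divisor,
transfer between charts, fibre integrals.
-/

set_option autoImplicit false

namespace Pool.Agent.Lib.MP_5c318e_ag

open MeasureTheory

noncomputable section

section alg

variable (k : Type) {F ι : Type} [Field k] [Field F] [Algebra k F] [Fintype ι] [DecidableEq ι]

/-- `d` is the frame dual to the transcendence basis `z` -/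
structure Dual (z : ι → F) (d : ι → Derivation k F F) : Prop where
  basis : IsTranscendenceBasis k z
  dual : ∀ i j, d i (z j) = if i = j then 1 else 0

variable {k}

/-- `RegAt` for an arbitrary finite index type -/
def RegI (d : ι → Derivation k F F) (m : ℕ) (φ : F) (O : ValuationSubring F) : Prop :=
  ∃ f : ι → F, (∀ j, f j ∈ O) ∧ ∃ u ∈ O, φ = u * Jac d f ^ m

/-- `IsPluri` for an arbitrary finite index type -/
def Plu (d : ι → Derivation k F F) (m : ℕ) (φ : F) : Prop :=
  ∀ O : ValuationSubring F, IsDivisorial k F O → RegI d m φ O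

/-- a finite cover by charts with a generator of the top forms on each -/
structure Frames (d : ι → Derivation k F F) where
  N : ℕ
  A : Fin N → Subalgebra k F
  f : Fin N → ι → F
  fg : ∀ i, (A i).FG
  mem : ∀ i j, f i j ∈ A i
  ne : ∀ i, Jac d (f i) ≠ 0
  reg : ∀ i m φ, Plu d m φ → φ / Jac d (f i) ^ m ∈ A i
  cover : ∀ O : ValuationSubring F, (∀ c : k, algebraMap k F c ∈ O) → ∃ i, ∀ a ∈ A i, a ∈ O

variable (k) in
/-- `c i0` is a uniformiser of `O`, the residues of the other `c i` are independent over `k` -/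
structure Adapted (O : ValuationSubring F) (c : ι → F) (i0 : ι) : Prop where
  ne : c i0 ≠ 0
  lt : O.valuation (c i0) < 1
  unif : ∀ a : F, O.valuation a < 1 → a / c i0 ∈ O
  ind : ∀ p : MvPolynomial {i // i ≠ i0} k, p ≠ 0 →
    O.valuation (MvPolynomial.aeval (fun i : {i // i ≠ i0} => c i) p) = 1

end alg

section rel

variable {δ κ K M : Type} [Fintype δ] [DecidableEq δ] [Fintype κ] [DecidableEq κ]
  [Field K] [Algebra ℂ K] [Field M] [Algebra ℂ M] [Algebra K M]

/-- `Φ` is a regular section of `q K_(X/Y) + a K_Y` -/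
def RelReg (dK : δ → Derivation ℂ K K) (dM : κ → Derivation ℂ M M) (a q : ℕ) (Φ : M) : Prop :=
  ∀ O : ValuationSubring M, IsDivisorial ℂ M O → ∀ f : δ → K,
    (∀ j, algebraMap K M (f j) ∈ O) → RegI dM q (Φ * algebraMap K M (Jac dK f) ^ (q - a)) O

end rel

section cht

variable {ι F : Type} [Fintype ι] [DecidableEq ι] [Field F] [Algebra ℂ F]

/-- the chart `c` is centred at the prime divisor `P`, which is cut out by the coordinate `i0` -/
structure Cht.At (c : Cht ι F) (P : ValuationSubring F) (i0 : ι) : Prop where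
  ad : Adapted ℂ P (fun i => (c.z i : F)) i0
  le : ∀ a ∈ c.O, a ∈ P
  loc : ∀ φ ∈ P, ∃ a b : c.O, P.valuation (b : F) = 1 ∧ φ * b = a
  ker : ∀ a : c.O, P.valuation (a : F) < 1 → c.z i0 ∣ a

/-- two points of two charts have the same local ring and the same values -/
def Pt.Same {A A' : Subalgebra ℂ F} (p : Pt A) (p' : Pt A') : Prop :=
  ∀ φ : F, (p.Reg φ ↔ p'.Reg φ) ∧ p.ev φ = p'.ev φ

/-- an identification of `h ≠ 0` in `A` with `h' ≠ 0` in `A'` -/
structure Tr (A A' : Subalgebra ℂ F) where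
  h : A
  h' : A'
  ne : h ≠ 0
  ne' : h' ≠ 0
  map : Pt A → Pt A'
  inv : Pt A' → Pt A
  same : ∀ p, p h ≠ 0 → p.Same (map p) ∧ map p h' ≠ 0 ∧ inv (map p) = p
  same' : ∀ q, q h' ≠ 0 → (inv q).Same q ∧ inv q h ≠ 0 ∧ map (inv q) = q

end cht

section fam

variable {δ ν K M : Type} [Fintype δ] [DecidableEq δ] [Fintype ν] [DecidableEq ν]
  [Field K] [Algebra ℂ K] [Field M] [Algebra ℂ M] [Algebra K M] {B : Cht δ K}

/-- the fibre over a point of the base -/
abbrev Rel.Fib (T : Rel B ν M) (b : Pt B.O) : Type := {p : Pt T.X.O // p.res T.inc = b}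

/-- the fibre coordinates -/
def Rel.x (T : Rel B ν M) (i : ν) : M := T.X.z (Sum.inr i)

/-- the integral of `|Φ| ^ (2 / q)` over the fibre -/
def Rel.N (T : Rel B ν M) (q : ℕ) (Φ : M) (b : Pt B.O) : ENNReal :=
  ∫⁻ p, ENNReal.ofReal (‖p.1.ev Φ‖ ^ (2 / q : ℝ)) ∂(T.fib b).μ

end fam

end

end Pool.Agent.Lib.MP_5c318e_ag
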