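import Pool.Agent.Lib.MP_5c318e_ag.S.RSub
import Pool.Agent.Lib.MP_5c318e_ag.S.PBas
import Pool.Agent.Lib.MP_5c318e_ag.S.ADefs

/-! Integration over the fibres of a map of Riemann domains. -/

set_option autoImplicit false
set_option linter.unusedSectionVars false

namespace Pool.Agent.Lib.MP_5c318e_ag

open MeasureTheory Set Filter Topology Function

section abs

variable {δ ν : Type} [Fintype δ] [DecidableEq δ] [Fintype ν] [DecidableEq ν] {S B : Type}
  [TopologicalSpace S] [MeasurableSpace S] [BorelSpace S] [T2Space S] [SigmaCompactSpace S]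
  [TopologicalSpace B] [MeasurableSpace B] [BorelSpace B] [T2Space B] [SigmaCompactSpace B]

theorem CFub.tonelli {g : (δ ⊕ ν → ℂ) → ENNReal} (hg : Measurable g) :
    (Measurable fun a : δ → ℂ => ∫⁻ w : ν → ℂ, g (Sum.elim a w)) ∧
      ∫⁻ z, g z = ∫⁻ a : δ → ℂ, ∫⁻ w : ν → ℂ, g (Sum.elim a w) := by
  let e := MeasurableEquiv.sumPiEquivProdPi fun _ : δ ⊕ ν => ℂ
  have he : ∀ (a : δ → ℂ) (w : ν → ℂ), e.symm (a, w) = Sum.elim a w := fun a w => by
    funext i
    rcases i with i | i <;> rfl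
  have pe : MeasurePreserving e.symm := volume_measurePreserving_sumPiEquivProdPi_symm _
  have m : Measurable fun p : (δ → ℂ) × (ν → ℂ) => g (e.symm p) := hg.comp e.symm.measurable
  simp only [← he]
  exact ⟨m.lintegral_prod_right', by rw [← pe.lintegral_comp hg, Measure.volume_eq_prod,
    lintegral_prod _ m.aemeasurable]⟩

theorem CFub.piece (D : RD (δ ⊕ ν) S) (DB : RD δ B) {q : S → B}
    (hπ : ∀ p i, D.π p (Sum.inl i) = DB.π (q p) i) [∀ b, SigmaCompactSpace {p // q p = b}]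
    (Df : ∀ b, RD ν {p // q p = b}) (hf : ∀ b p i, (Df b).π p i = D.π p.1 (Sum.inr i))
    {G : S → ENNReal} (hG : Measurable G) {A : Set S} (hA : MeasurableSet A) (hi : InjOn D.π A)
    {y : B} (hy : MapsTo q A (DB.ch y).source) :
    (Measurable fun b => ∫⁻ p in Subtype.val ⁻¹' A, G p.1 ∂(Df b).μ) ∧
      ∫⁻ p in A, G p ∂D.μ = ∫⁻ b, ∫⁻ p in Subtype.val ⁻¹' A, G p.1 ∂(Df b).μ ∂DB.μ := by
  have em := RArea.emb hA D.cont_π.continuousOn hi fun C _ hC => RArea.img_meas D hC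
  obtain ⟨g, g1, g2, g3⟩ : ∃ g : (δ ⊕ ν → ℂ) → ENNReal, Measurable g ∧ (∀ p ∈ A, g (D.π p) = G p) ∧
      ∀ z, g z ≠ 0 → z ∈ D.π '' A :=
    ⟨extend (fun p : A => D.π p) (fun p => G p) 0,
      em.measurable_extend (hG.comp measurable_subtype_coe) measurable_zero,
      fun p hp => em.injective.extend_apply (fun p : A => G p) 0 ⟨p, hp⟩, fun z hz => by
        by_contra h
        exact hz (extend_apply' _ _ _ fun ⟨p, hp⟩ => h ⟨p, p.2, hp⟩)⟩
  obtain ⟨t1, t2⟩ := CFub.tonelli g1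
  have hs : ∀ b (p : {p // q p = b}), D.π p.1 = Sum.elim (DB.π b) ((Df b).π p) := fun b p => by
    funext i
    rcases i with i | i
    · rw [hπ, p.2]; rfl
    · exact (hf b p i).symm
  have mo := (DB.ch y).open_source.measurableSet
  have key : ∀ b, ∫⁻ p in Subtype.val ⁻¹' A, G p.1 ∂(Df b).μ =
      (DB.ch y).source.indicator (fun b => ∫⁻ w : ν → ℂ, g (Sum.elim (DB.π b) w)) b := by
    intro b
    by_cases hb : b ∈ (DB.ch y).source
    · have mA : MeasurableSet (Subtype.val ⁻¹' A : Set {p // q p = b}) := measurable_subtype_coe hA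
      rw [indicator_of_mem hb, ← setLIntegral_eq_of_support_subset
        (s := (Df b).π '' (Subtype.val ⁻¹' A)) fun w hw => by
          obtain ⟨p, h1, h2⟩ := g3 _ hw
          have h3 : q p = b := DB.injOn_src y (hy h1) hb
            (funext fun i => (hπ p i).symm.trans (congrFun h2 (Sum.inl i)))
          exact ⟨⟨p, h3⟩, h1, funext fun i => (hf b _ i).trans (congrFun h2 (Sum.inr i))⟩,
        ← RArea.lint (Df b) mA fun p hp p' hp' e => Subtype.ext (hi hp hp' (by rw [hs, hs, e]))]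
      exact setLIntegral_congr_fun mA fun p hp => by rw [← hs, g2 _ hp]
    · have : (Subtype.val ⁻¹' A : Set {p // q p = b}) = ∅ :=
        eq_empty_of_forall_notMem fun p hp => hb (p.2 ▸ hy hp)
      rw [this, indicator_of_notMem hb, Measure.restrict_empty, lintegral_zero_measure]
  simp only [key]
  refine ⟨(t1.comp DB.cont_π.measurable).indicator mo, ?_⟩
  rw [lintegral_indicator mo, RArea.lint DB mo (DB.injOn_src y)
    fun a => ∫⁻ w : ν → ℂ, g (Sum.elim a w),
    setLIntegral_eq_of_support_subset (s := DB.π '' (DB.ch y).source) fun a ha => by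
      by_contra h
      refine ha ((lintegral_congr fun w => ?_).trans lintegral_zero)
      by_contra h1
      obtain ⟨p, h2, h3⟩ := g3 _ h1
      exact h ⟨q p, hy h2, funext fun i => (hπ p i).symm.trans (congrFun h3 (Sum.inl i))⟩,
    ← t2, ← setLIntegral_eq_of_support_subset (s := D.π '' A) g3, ← RArea.lint D hA hi]
  exact setLIntegral_congr_fun hA fun p hp => (g2 p hp).symm

/-- integration over the fibres -/
theorem RD.fubini (D : RD (δ ⊕ ν) S) (DB : RD δ B) {q : S → B} (hq : Continuous q)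
    (hπ : ∀ p i, D.π p (Sum.inl i) = DB.π (q p) i) [∀ b, SigmaCompactSpace {p // q p = b}]
    (Df : ∀ b, RD ν {p // q p = b}) (hf : ∀ b p i, (Df b).π p i = D.π p.1 (Sum.inr i))
    {G : S → ENNReal} (hG : Measurable G) :
    (Measurable fun b => ∫⁻ p, G p.1 ∂(Df b).μ) ∧
      ∫⁻ p, G p ∂D.μ = ∫⁻ b, ∫⁻ p, G p.1 ∂(Df b).μ ∂DB.μ := by
  have := RArea.sc D
  obtain ⟨A, a1, a2, a3, a4⟩ := RArea.cover MeasurableSet.univ
    (fun x => (D.ch x).source ∩ q ⁻¹' (DB.ch (q x)).source) fun x _ =>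
      inter_mem ((D.ch x).open_source.mem_nhds (D.mem_src x))
        (hq.continuousAt.eventually ((DB.ch (q x)).open_source.mem_nhds (DB.mem_src _)))
  have h : ∀ n, (Measurable fun b => ∫⁻ p in Subtype.val ⁻¹' A n, G p.1 ∂(Df b).μ) ∧
      ∫⁻ p in A n, G p ∂D.μ = ∫⁻ b, ∫⁻ p in Subtype.val ⁻¹' A n, G p.1 ∂(Df b).μ ∂DB.μ := by
    intro n
    rcases a4 n with h | ⟨x, -, h⟩
    · simp [h]
    · exact CFub.piece D DB hπ Df hf hG (a1 n) ((D.injOn_src x).mono fun p hp => (h hp).1)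
        fun p hp => (h hp).2
  have e : ∀ b, ∫⁻ p, G p.1 ∂(Df b).μ = ∑' n, ∫⁻ p in Subtype.val ⁻¹' A n, G p.1 ∂(Df b).μ := by
    intro b
    rw [← lintegral_iUnion (fun n => measurable_subtype_coe (a1 n))
      (fun i j hij => (a2 hij).preimage _), ← preimage_iUnion, a3, preimage_univ,
      Measure.restrict_univ]
  simp only [e]
  refine ⟨Measurable.tsum fun n => (h n).1, ?_⟩
  rw [lintegral_tsum fun n => (h n).1.aemeasurable, ← setLIntegral_univ, ← a3,
    lintegral_iUnion a1 a2]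
  exact tsum_congr fun n => (h n).2

end abs

variable {δ ν K M : Type} [Fintype δ] [DecidableEq δ] [Fintype ν] [DecidableEq ν]
  [Field K] [Algebra ℂ K] [Field M] [Algebra ℂ M] [Algebra K M] [IsScalarTower ℂ K M]
  {B : Cht δ K}

/-- Fubini -/
theorem Rel.fubini (T : Rel B ν M) {G : Pt T.X.O → ENNReal} (hG : Measurable G) :
    (Measurable fun b => ∫⁻ p, G p.1 ∂(T.fib b).μ) ∧
      ∫⁻ p, G p ∂T.X.D.μ = ∫⁻ b, ∫⁻ p, G p.1 ∂(T.fib b).μ ∂B.D.μ :=
  RD.fubini T.X.D B.D (Pt.continuous_res T.inc)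
    (fun p i => by rw [T.X.π_eq, B.π_eq, T.zy]; rfl) T.fib
    (fun b p i => by rw [T.fib_π, T.X.π_eq]) hG

end Pool.Agent.Lib.MP_5c318e_ag
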