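import Mathlib

/-! Purity for an etale algebra over a factorial ring: an element of the fraction field that has no
pole along the primes over the principal primes of the base lies in the ring. -/

set_option autoImplicit false

namespace Pool.Agent.Lib.MP_5c318e_ag

variable {R A F : Type} [CommRing R] [CommRing A] [Algebra R A]

theorem flat_dvd [Module.Flat R A] {Q s : R} (hQ : Prime Q) (hs : ¬ Q ∣ s) {a : A}
    (h : algebraMap R A Q ∣ algebraMap R A s * a) : algebraMap R A Q ∣ a := by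
  obtain ⟨b, hb⟩ := h
  obtain ⟨n, c, y, h1, h2⟩ := Module.Flat.isTrivialRelation_of_sum_smul_eq_zero
    (f := ![s, -Q]) (x := ![a, b]) (by simp [Algebra.smul_def, hb])
  have h3 : a = ∑ j, c 0 j • y j := h1 0
  rw [h3]
  refine Finset.dvd_sum fun j _ => ?_
  have h4 := h2 j
  simp only [Fin.sum_univ_two, Matrix.cons_val_zero, Matrix.cons_val_one, neg_mul] at h4
  have h5 : Q ∣ s * c 0 j := ⟨c 1 j, add_neg_eq_zero.1 h4⟩
  rw [Algebra.smul_def]
  exact (map_dvd _ ((hQ.dvd_or_dvd h5).resolve_left hs)).mul_right _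

theorem unram_dvd [Algebra.FormallyUnramified R A] [Algebra.EssFiniteType R A] {Q : R}
    (hQ : Prime Q) (p : Ideal A) [p.IsPrime] (hp : ∀ r, algebraMap R A r ∈ p ↔ Q ∣ r) {u : A}
    (hu : u ∈ p) : ∃ t, t ∉ p ∧ algebraMap R A Q ∣ t * u := by
  have h0 : (Ideal.span {Q}).IsPrime := (Ideal.span_singleton_prime hQ.ne_zero).2 hQ
  have h1 : p.LiesOver (Ideal.span {Q}) := ⟨Ideal.ext fun r => by
    rw [Ideal.mem_span_singleton, Ideal.under_def, Ideal.mem_comap, hp]⟩
  let := Localization.AtPrime.algebraOfLiesOver (Ideal.span {Q}) p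
  have h2 := ((Algebra.isUnramifiedAt_iff_map_eq R (Ideal.span {Q}) p).1 inferInstance).2
  have h3 : algebraMap A (Localization.AtPrime p) u ∈
      (Ideal.span {algebraMap R A Q}).map (algebraMap A (Localization.AtPrime p)) := by
    rw [Ideal.map_span, Set.image_singleton, ← IsScalarTower.algebraMap_apply,
      ← Set.image_singleton, ← Ideal.map_span, h2]
    exact (IsLocalization.AtPrime.to_map_mem_maximal_iff _ p u).2 hu
  obtain ⟨t, ht, h4⟩ := (IsLocalization.algebraMap_mem_map_algebraMap_iff p.primeCompl _ _ u).1 h3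
  exact ⟨t, ht, Ideal.mem_span_singleton.1 h4⟩

/-- a prime over `Q` that avoids a given element not divisible by `Q` -/
theorem exists_prime_over [Algebra.Etale R A] {Q : R} (hQ : Prime Q) {a : A}
    (ha : ¬ algebraMap R A Q ∣ a) :
    ∃ p : Ideal A, p.IsPrime ∧ (∀ r, algebraMap R A r ∈ p ↔ Q ∣ r) ∧ a ∉ p := by
  have h0 : (Ideal.span {Q}).IsPrime := (Ideal.span_singleton_prime hQ.ne_zero).2 hQ
  let I : Ideal A := Submodule.comap (LinearMap.mulRight A a) (Ideal.span {algebraMap R A Q})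
  have hI : ∀ t, t ∈ I ↔ algebraMap R A Q ∣ t * a := fun t => Ideal.mem_span_singleton
  obtain ⟨p, hp, h1, h2⟩ := I.exists_le_prime_disjoint
    ((Ideal.span {Q}).primeCompl.map (algebraMap R A)) (Set.disjoint_left.2 (by
      rintro _ ht ⟨s, hs, rfl⟩
      exact ha (flat_dvd hQ (fun h => hs (Ideal.mem_span_singleton.2 h)) ((hI _).1 ht))))
  have h3 : ∀ r, algebraMap R A r ∈ p ↔ Q ∣ r := fun r => by
    refine ⟨fun h => of_not_not fun hn => Set.disjoint_left.1 h2 h
      ⟨r, fun h4 => hn (Ideal.mem_span_singleton.1 h4), rfl⟩, fun h => ?_⟩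
    exact h1 ((hI _).2 ((map_dvd _ h).mul_right _))
  refine ⟨p, hp, h3, fun h4 => ?_⟩
  obtain ⟨t, ht, h5⟩ := unram_dvd hQ p h3 h4
  exact ht (h1 ((hI t).2 h5))

variable [Field F] [Algebra A F]

theorem exists_centre [IsFractionRing A F] (p : Ideal A) [p.IsPrime] :
    ∃ O : ValuationSubring F, (∀ a, algebraMap A F a ∈ O) ∧
      ∀ a, O.valuation (algebraMap A F a) < 1 ↔ a ∈ p := by
  have hu : ∀ y : p.primeCompl, IsUnit (algebraMap A F y) := fun y =>
    IsUnit.mk0 _ fun h => y.2 (by
      rw [(map_eq_zero_iff _ (IsFractionRing.injective A F)).1 h]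
      exact p.zero_mem)
  let g : Localization.AtPrime p →+* F := IsLocalization.lift hu
  have hg : ∀ a, g (algebraMap A _ a) = algebraMap A F a := IsLocalization.lift_eq hu
  obtain ⟨O, h1, h2⟩ := IsLocalRing.exists_factor_valuationRing g
  refine ⟨O, fun a => hg a ▸ h1 _, fun a => ?_⟩
  rw [← hg, ← IsLocalization.AtPrime.to_map_mem_maximal_iff (Localization.AtPrime p) p a,
    IsLocalRing.mem_maximalIdeal, mem_nonunits_iff,
    ← isUnit_map_iff (g.codRestrict O.toSubring h1)]
  exact (O.valuation_lt_one_iff ⟨_, h1 _⟩).symm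

variable [Algebra R F] [IsScalarTower R A F] [IsFractionRing A F] [IsDomain R] [Algebra.Etale R A]

include A in
theorem etale_inj : Function.Injective (algebraMap R F) := by
  have := (algebraMap A F).domain_nontrivial
  rw [IsScalarTower.algebraMap_eq R A F]
  exact (IsFractionRing.injective A F).comp (FaithfulSMul.algebraMap_injective R A)

include A in
theorem etale_alg : Algebra.IsAlgebraic R F := by
  have : FaithfulSMul R F := (faithfulSMul_iff_algebraMap_injective R F).2 (etale_inj (A := A))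
  let := FractionRing.liftAlgebra R F
  have : Algebra.FormallyUnramified A F := .of_isLocalization (nonZeroDivisors A)
  have : Algebra.FormallyUnramified R F := .comp R A F
  have : Algebra.FormallyUnramified (FractionRing R) F := .of_restrictScalars R _ _
  have : Algebra.EssFiniteType A F := .of_isLocalization F (nonZeroDivisors A)
  have : Algebra.EssFiniteType R F := .comp R A F
  have : Algebra.EssFiniteType (FractionRing R) F := .of_comp R _ _
  have := Algebra.FormallyUnramified.isSeparable (FractionRing R) F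
  exact (IsFractionRing.comap_isAlgebraic_iff (K := FractionRing R)).2 inferInstance

theorem etale_den (x : F) :
    ∃ r : R, r ≠ 0 ∧ ∃ a : A, algebraMap R F r * x = algebraMap A F a := by
  have hi := IsFractionRing.injective A F
  have := (algebraMap A F).domain_nontrivial
  obtain ⟨a, b, hb, rfl⟩ := IsFractionRing.div_surjective (A := A) x
  have h1 : IsAlgebraic R b :=
    (isAlgebraic_algebraMap_iff hi).1 ((etale_alg (A := A)).isAlgebraic _)
  obtain ⟨r, hr, c, hc⟩ := h1.exists_nonzero_dvd hb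
  have hb' : algebraMap A F b ≠ 0 := IsFractionRing.to_map_ne_zero_of_mem_nonZeroDivisors hb
  refine ⟨r, hr, c * a, ?_⟩
  rw [IsScalarTower.algebraMap_apply R A F, hc, map_mul, map_mul]
  field_simp

theorem etale_grp [WfDvdMonoid R] {Q : R} (hQ : Prime Q) (p : Ideal A) [p.IsPrime]
    (hp : ∀ r, algebraMap R A r ∈ p ↔ Q ∣ r) {O : ValuationSubring F}
    (h1 : ∀ a, algebraMap A F a ∈ O) (h2 : ∀ a, O.valuation (algebraMap A F a) < 1 ↔ a ∈ p)
    (y : F) (hy : y ≠ 0) : ∃ n : ℤ, O.valuation y = O.valuation (algebraMap R F Q) ^ n := by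
  have hi := etale_inj (R := R) (A := A) (F := F)
  have hle : ∀ a, O.valuation (algebraMap A F a) ≤ 1 := fun a => (O.valuation_le_one_iff _).2 (h1 a)
  have hone : ∀ a, a ∉ p → O.valuation (algebraMap A F a) = 1 := fun a ha =>
    le_antisymm (hle a) (not_lt.1 fun h => ha ((h2 a).1 h))
  have hQ0 : 0 < O.valuation (algebraMap R F Q) :=
    (Valuation.pos_iff _).2 ((map_ne_zero_iff _ hi).2 hQ.ne_zero)
  have hR : ∀ r : R, r ≠ 0 → ∃ n : ℕ,
      O.valuation (algebraMap R F r) = O.valuation (algebraMap R F Q) ^ n := fun r hr => by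
    obtain ⟨n, s, hs, rfl⟩ := WfDvdMonoid.max_power_factor' hr hQ.not_isUnit
    refine ⟨n, ?_⟩
    rw [map_mul, map_mul, map_pow, map_pow, IsScalarTower.algebraMap_apply R A F s,
      hone _ fun h => hs ((hp s).1 h), mul_one]
  have hA : ∀ (N : ℕ) (a : A), O.valuation (algebraMap R F Q) ^ N ≤ O.valuation (algebraMap A F a) →
      ∃ n : ℕ, O.valuation (algebraMap A F a) = O.valuation (algebraMap R F Q) ^ n := by
    intro N
    induction N with
    | zero => exact fun a h => ⟨0, le_antisymm (by simpa using hle a) h⟩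
    | succ N ih =>
      intro a h
      by_cases ha : a ∈ p
      · obtain ⟨t, ht, b, hb⟩ := unram_dvd hQ p hp ha
        have h3 := congrArg (fun c => O.valuation (algebraMap A F c)) hb
        simp only [map_mul, hone t ht, one_mul, ← IsScalarTower.algebraMap_apply] at h3
        rw [h3, pow_succ', mul_le_mul_iff_right₀ hQ0] at h
        obtain ⟨n, hn⟩ := ih b h
        exact ⟨n + 1, by rw [h3, hn, pow_succ']⟩
      · exact ⟨0, by rw [hone a ha, pow_zero]⟩
  obtain ⟨r, hr, a, ha⟩ := etale_den (R := R) (A := A) y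
  have ha0 : algebraMap A F a ≠ 0 := ha ▸ mul_ne_zero ((map_ne_zero_iff _ hi).2 hr) hy
  obtain ⟨r', hr', a', ha'⟩ := etale_den (R := R) (A := A) (algebraMap A F a)⁻¹
  obtain ⟨n, hn⟩ := hR r hr
  obtain ⟨N, hN⟩ := hR r' hr'
  obtain ⟨l, hl⟩ := hA N a (by
    rw [← hN, (mul_inv_eq_iff_eq_mul₀ ha0).1 ha', map_mul]
    exact mul_le_of_le_one_left' (hle a'))
  refine ⟨l - n, ?_⟩
  rw [zpow_sub₀ hQ0.ne', zpow_natCast, zpow_natCast, ← hl, ← hn, ← ha, map_mul,
    mul_div_cancel_left₀ _ (hn ▸ (pow_pos hQ0 n).ne')]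

variable (R A F) in
/-- the valuation rings centred at the primes of `A` over the principal primes of `R` -/
def EtPr : Set (ValuationSubring F) :=
  {O | (∀ a, algebraMap A F a ∈ O) ∧
    ∃ Q : R, Prime Q ∧ ∀ r, O.valuation (algebraMap R F r) < 1 ↔ Q ∣ r}

/-- the centre of a valuation ring -/
def ctr (O : ValuationSubring F) (h : ∀ a, algebraMap A F a ∈ O) : Ideal A :=
  (IsLocalRing.maximalIdeal O).comap ((algebraMap A F).codRestrict O h)

omit [IsFractionRing A F] in
theorem mem_ctr {O : ValuationSubring F} {h : ∀ a, algebraMap A F a ∈ O} (a : A) :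
    O.valuation (algebraMap A F a) < 1 ↔ a ∈ ctr O h :=
  (O.valuation_lt_one_iff ⟨_, h a⟩).symm

instance (O : ValuationSubring F) (h : ∀ a, algebraMap A F a ∈ O) : (ctr O h).IsPrime :=
  Ideal.IsPrime.comap _

theorem etale_grp' [WfDvdMonoid R] {Q : R} (hQ : Prime Q) {O : ValuationSubring F}
    (h1 : ∀ a, algebraMap A F a ∈ O) (h2 : ∀ r, O.valuation (algebraMap R F r) < 1 ↔ Q ∣ r)
    (y : F) (hy : y ≠ 0) : ∃ n : ℤ, O.valuation y = O.valuation (algebraMap R F Q) ^ n :=
  etale_grp hQ (ctr O h1) (fun r => by rw [← mem_ctr, ← IsScalarTower.algebraMap_apply, h2]) h1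
    mem_ctr y hy

/-- the valuation ring is the localisation at its centre -/
theorem etale_loc [WfDvdMonoid R] {O : ValuationSubring F} (hO : O ∈ EtPr R A F) {y : F}
    (hy : y ∈ O) : ∃ t a : A, t ∉ ctr O hO.1 ∧ algebraMap A F t * y = algebraMap A F a := by
  have hi := etale_inj (R := R) (A := A) (F := F)
  obtain ⟨h1, Q, hQ, h2⟩ := hO
  have hp : ∀ r, algebraMap R A r ∈ ctr O h1 ↔ Q ∣ r := fun r => by
    rw [← mem_ctr, ← IsScalarTower.algebraMap_apply, h2]
  have key : ∀ (n : ℕ) (t a : A), t ∉ ctr O h1 →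
      algebraMap R F Q ^ n * (algebraMap A F t * y) = algebraMap A F a →
      ∃ t a : A, t ∉ ctr O h1 ∧ algebraMap A F t * y = algebraMap A F a := by
    intro n
    induction n with
    | zero => exact fun t a ht h => ⟨t, a, ht, by simpa using h⟩
    | succ n ih =>
      intro t a ht h
      have h3 : a ∈ ctr O h1 := by
        rw [← mem_ctr, ← h, ← map_pow, map_mul]
        exact mul_lt_one_of_lt_of_le ((h2 _).2 (dvd_pow_self Q n.succ_ne_zero))
          ((O.valuation_le_one_iff _).2 (mul_mem (h1 t) hy))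
      obtain ⟨u, hu, b, hb⟩ := unram_dvd hQ _ hp h3
      refine ih (u * t) b (Ideal.IsPrime.mul_notMem inferInstance hu ht)
        (mul_left_cancel₀ ((map_ne_zero_iff _ hi).2 hQ.ne_zero) ?_)
      have h4 := congrArg (algebraMap A F) hb
      rw [map_mul, map_mul, ← IsScalarTower.algebraMap_apply, ← h] at h4
      rw [← h4, map_mul]
      ring
  obtain ⟨r, hr, a, ha⟩ := etale_den (R := R) (A := A) y
  obtain ⟨n, s, hs, rfl⟩ := WfDvdMonoid.max_power_factor' hr hQ.not_isUnit
  refine key n (algebraMap R A s) a (fun h => hs ((hp s).1 h)) ?_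
  rw [← ha, map_mul, map_pow, ← IsScalarTower.algebraMap_apply, mul_assoc]

theorem EtPr.le_of_ctr [WfDvdMonoid R] {O O' : ValuationSubring F} (hO : O ∈ EtPr R A F)
    (h' : ∀ a, algebraMap A F a ∈ O') (h : ctr O' h' ≤ ctr O hO.1) : O ≤ O' := fun y hy => by
  obtain ⟨t, a, ht, h1⟩ := etale_loc hO hy
  have h2 : O'.valuation (algebraMap A F t) = 1 :=
    le_antisymm ((O'.valuation_le_one_iff _).2 (h' t)) (not_lt.1 fun h3 => ht (h ((mem_ctr t).1 h3)))
  have h3 := (O'.valuation_le_one_iff _).2 (h' a)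
  rwa [← h1, map_mul, h2, one_mul, O'.valuation_le_one_iff] at h3

/-- an element has finitely many poles -/
theorem EtPr.finite [UniqueFactorizationMonoid R] (g : F) : {O ∈ EtPr R A F | g ∉ O}.Finite := by
  classical
  obtain ⟨r, hr, a, ha⟩ := etale_den (R := R) (A := A) g
  let c : {O ∈ EtPr R A F | g ∉ O} → Ideal A := fun O => ctr O.1 O.2.1.1
  have hc : Function.Injective c := fun O O' h => Subtype.ext
    (le_antisymm (EtPr.le_of_ctr O.2.1 O'.2.1.1 h.ge) (EtPr.le_of_ctr O'.2.1 O.2.1.1 h.le))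
  have hf : (⋃ q ∈ (UniqueFactorizationMonoid.factors r).toFinset,
      (Ideal.span {q}).primesOver A).Finite :=
    (Finset.finite_toSet _).biUnion fun q _ => Algebra.QuasiFinite.finite_primesOver _
  refine Set.finite_coe_iff.1 (Set.finite_univ_iff.1
    ((hf.preimage hc.injOn).subset fun O _ => ?_))
  obtain ⟨O, ⟨h1, Q, hQ, h2⟩, h3⟩ := O
  have h4 : Q ∣ r := (h2 r).1 (lt_of_le_of_ne ((O.valuation_le_one_iff _).2
    (IsScalarTower.algebraMap_apply R A F r ▸ h1 _)) fun h => h3 (by
      have h5 := (O.valuation_le_one_iff _).2 (h1 a)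
      rwa [← ha, map_mul, h, one_mul, O.valuation_le_one_iff] at h5))
  obtain ⟨q, hq, h5⟩ := UniqueFactorizationMonoid.exists_mem_factors_of_dvd hr hQ.irreducible h4
  refine Set.mem_biUnion (Multiset.mem_toFinset.2 hq) ⟨inferInstanceAs (ctr O h1).IsPrime,
    ⟨Ideal.ext fun s => ?_⟩⟩
  rw [Ideal.mem_span_singleton, Ideal.under_def, Ideal.mem_comap, ← h5.dvd_iff_dvd_left, ← h2,
    IsScalarTower.algebraMap_apply R A F]
  exact mem_ctr _

/-- purity -/
theorem etale_purity' [UniqueFactorizationMonoid R] {x : F} (h : ∀ O ∈ EtPr R A F, x ∈ O) :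
    ∃ a : A, algebraMap A F a = x := by
  have hi := etale_inj (R := R) (A := A) (F := F)
  obtain ⟨r, hr, a, ha⟩ := etale_den (R := R) (A := A) x
  induction r using UniqueFactorizationMonoid.induction_on_prime generalizing a with
  | h₁ => exact (hr rfl).elim
  | h₂ u hu =>
    obtain ⟨w, hw⟩ := hu.exists_left_inv
    refine ⟨algebraMap R A w * a, ?_⟩
    rw [map_mul, ← ha, ← IsScalarTower.algebraMap_apply, ← mul_assoc, ← map_mul, hw, map_one,
      one_mul]
  | h₃ s Q hs hQ ih =>
    have h1 : algebraMap R A Q ∣ a := by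
      by_contra hn
      obtain ⟨p, hp, h2, h3⟩ := exists_prime_over hQ hn
      obtain ⟨O, h4, h5⟩ := exists_centre (F := F) p
      have h7 : ∀ r, O.valuation (algebraMap R F r) < 1 ↔ Q ∣ r := fun r => by
        rw [IsScalarTower.algebraMap_apply R A F, h5, h2]
      refine h3 ((h5 a).1 ?_)
      rw [← ha, map_mul]
      exact mul_lt_one_of_lt_of_le ((h7 _).2 (dvd_mul_right _ _))
        ((O.valuation_le_one_iff _).2 (h O ⟨h4, Q, hQ, h7⟩))
    obtain ⟨b, rfl⟩ := h1
    rw [map_mul, map_mul, mul_assoc, ← IsScalarTower.algebraMap_apply] at ha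
    exact ih hs b (mul_left_cancel₀ ((map_ne_zero_iff _ hi).2 hQ.ne_zero) ha)

theorem etale_purity [UniqueFactorizationMonoid R] {x : F}
    (h : ∀ Q : R, Prime Q → ∀ O : ValuationSubring F, (∀ r, algebraMap R F r ∈ O) →
      (∀ r, O.valuation (algebraMap R F r) < 1 ↔ Q ∣ r) →
      (∀ y, y ≠ 0 → ∃ n : ℤ, O.valuation y = O.valuation (algebraMap R F Q) ^ n) → x ∈ O) :
    ∃ a : A, algebraMap A F a = x :=
  etale_purity' (R := R) fun O ⟨h1, Q, hQ, h2⟩ => h Q hQ O
    (fun r => IsScalarTower.algebraMap_apply R A F r ▸ h1 _) h2 (etale_grp' hQ h1 h2)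

end Pool.Agent.Lib.MP_5c318e_ag
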