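import Pool.Agent.Lib.MP_5c318e_ag.S.ADefs
import Pool.Agent.Lib.MP_5c318e_ag.S.AEt
import Pool.Agent.Lib.MP_5c318e_ag.A.Plu

/-! A smooth complete model has a finite cover by charts with a generator of the top forms. -/

set_option autoImplicit false

namespace Pool.Agent.Lib.MP_5c318e_ag

open Set

variable {k F ι : Type} [Field k] [Field F] [Algebra k F]

theorem SmoothModel.fg (h : SmoothModel k F) : (⊤ : IntermediateField k F).FG := by
  obtain ⟨N, A, h1, h2⟩ := h
  obtain ⟨i, -⟩ := h2 ⊤ fun _ => trivial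
  obtain ⟨_, _⟩ := h1 i
  obtain ⟨s, hs⟩ := (Subalgebra.fg_top (A i)).1 Algebra.FiniteType.out
  refine ⟨s, top_le_iff.1 fun x _ => ?_⟩
  obtain ⟨a, b, -, rfl⟩ := IsFractionRing.div_surjective (A := A i) x
  have h3 : ∀ c : A i, (c : F) ∈ IntermediateField.adjoin k (s : Set F) := fun c =>
    IntermediateField.algebra_adjoin_le_adjoin k _ (hs.ge c.2)
  exact div_mem (h3 a) (h3 b)

theorem prime_var {σ : Type} {Q : MvPolynomial σ k} (hQ : Prime Q) : ∃ i0 : σ,
    ∀ p : MvPolynomial {a // a ≠ i0} k, p ≠ 0 → ¬ Q ∣ MvPolynomial.rename Subtype.val p := by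
  classical
  have hne : Q.vars.Nonempty := by
    rw [Finset.nonempty_iff_ne_empty]
    intro h
    have e := MvPolynomial.vars_eq_empty_iff_eq_C.mp h
    have h0 : Q.coeff 0 ≠ 0 := fun h0 => hQ.ne_zero (by rw [e, h0, map_zero])
    exact hQ.not_isUnit (e ▸ (IsUnit.mk0 _ h0).map MvPolynomial.C)
  obtain ⟨i0, hi0⟩ := hne
  refine ⟨i0, fun p hp ⟨r, hr⟩ => ?_⟩
  have hp' : MvPolynomial.rename (Subtype.val : {a // a ≠ i0} → σ) p ≠ 0 := fun h =>
    hp (MvPolynomial.rename_injective _ Subtype.val_injective (by rw [h, map_zero]))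
  have hr0 : r ≠ 0 := fun h => hp' (by rw [hr, h, mul_zero])
  have : i0 ∈ (MvPolynomial.rename (Subtype.val : {a // a ≠ i0} → σ) p).vars := by
    rw [MvPolynomial.mem_vars_iff_degreeOf_ne_zero, hr,
      MvPolynomial.degreeOf_mul_eq hQ.ne_zero hr0]
    have := MvPolynomial.mem_vars_iff_degreeOf_ne_zero.mp hi0
    omega
  obtain ⟨i, -, hi⟩ := MvPolynomial.mem_vars_rename _ _ this
  exact i.2 hi

theorem der_aeval_mem {σ : Type} {y : σ → F} {O : ValuationSubring F}
    (hO : ∀ p : MvPolynomial σ k, MvPolynomial.aeval y p ∈ O) (δ : Derivation k F F)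
    (hδ : ∀ j, δ (y j) ∈ O) (p : MvPolynomial σ k) : δ (MvPolynomial.aeval y p) ∈ O := by
  induction p using MvPolynomial.induction_on with
  | C a => rw [MvPolynomial.aeval_C, δ.map_algebraMap]; exact zero_mem _
  | add p q hp hq => rw [map_add, map_add]; exact add_mem hp hq
  | mul_X p j hp =>
    have h1 := hO (MvPolynomial.X j)
    rw [MvPolynomial.aeval_X] at h1
    rw [map_mul, MvPolynomial.aeval_X, δ.leibniz, smul_eq_mul, smul_eq_mul]
    exact add_mem (mul_mem (hO p) (hδ j)) (mul_mem h1 hp)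

variable [CharZero k] [Fintype ι] [DecidableEq ι] {z : ι → F} {d : ι → Derivation k F F}

omit [CharZero k] in
theorem Dual.isFr' (hd : Dual k z d) : IsFr d :=
  isFr_dual hd.basis fun j a => by rw [hd.dual]; simp only [eq_comm]

theorem RegI.le_adp {m : ℕ} {φ : F} {O : ValuationSubring F} (h : RegI d m φ O) {c : ι → F}
    {i0 : ι} (hc : Adp k O c i0) : O.valuation φ ≤ O.valuation (Jac d c) ^ m := by
  obtain ⟨f, hf, u, hu, rfl⟩ := h
  rw [map_mul, map_pow]
  exact (mul_le_of_le_one_left' ((O.valuation_le_one_iff u).2 hu)).trans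
    (pow_le_pow_left' (hc.jac_le d hf) m)

theorem Plu.le_adp {m : ℕ} {φ : F} (h : Plu d m φ) {O : ValuationSubring F} {c : ι → F} {i0 : ι}
    (hc : Adp k O c i0) : O.valuation φ ≤ O.valuation (Jac d c) ^ m :=
  (h O hc.divisorial).le_adp hc

theorem chart_of_etale (hd : Dual k z d) {A σ : Type} [CommRing A] [Algebra k A] [Algebra A F]
    [IsScalarTower k A F] [IsFractionRing A F] [Fintype σ] (g : MvPolynomial σ k →ₐ[k] A)
    (hg : g.toRingHom.Etale) : ∃ f : ι → A, Jac d (fun j => algebraMap A F (f j)) ≠ 0 ∧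
      ∃ Pr : Set (ValuationSubring F), (∀ O ∈ Pr, IsDivisorial k F O) ∧
        (∀ x : F, {O ∈ Pr | x ∉ O}.Finite) ∧ ∀ m φ, (∀ O ∈ Pr, RegI d m φ O) →
          ∃ a : A, algebraMap A F a = φ / Jac d (fun j => algebraMap A F (f j)) ^ m := by
  classical
  let : Algebra (MvPolynomial σ k) A := g.toRingHom.toAlgebra
  let : Algebra (MvPolynomial σ k) F := ((algebraMap A F).comp g.toRingHom).toAlgebra
  have : IsScalarTower (MvPolynomial σ k) A F := .of_algebraMap_eq' rfl
  have : Algebra.Etale (MvPolynomial σ k) A := hg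
  let y : σ → F := fun j => algebraMap A F (g (MvPolynomial.X j))
  have hy : ∀ p, algebraMap (MvPolynomial σ k) F p = MvPolynomial.aeval y p := fun p =>
    DFunLike.congr_fun (MvPolynomial.algHom_ext (f := (IsScalarTower.toAlgHom k A F).comp g)
      (g := MvPolynomial.aeval y) fun j => by rw [MvPolynomial.aeval_X]; rfl) p
  have hi : AlgebraicIndependent k y := fun p q e =>
    etale_inj (R := MvPolynomial σ k) (A := A) (F := F) (by rw [hy, hy]; exact e)
  have hb : IsTranscendenceBasis k y := hi.isTranscendenceBasis_iff_isAlgebraic.2 ⟨fun x =>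
    ((etale_alg (R := MvPolynomial σ k) (A := A) (F := F)).isAlgebraic x).ringHom_of_comp_eq
      (hi.aevalEquiv : MvPolynomial σ k →+* Algebra.adjoin k (range y)) (RingHom.id F)
      hi.aevalEquiv.injective (RingHom.ext fun p => (hy p).symm)⟩
  have hc : Fintype.card ι = Fintype.card σ := by
    have h1 := hd.basis.cardinalMk_eq_trdeg.trans hb.cardinalMk_eq_trdeg.symm
    rw [Cardinal.mk_fintype, Cardinal.mk_fintype] at h1
    exact_mod_cast h1
  let e := Fintype.equivOfCardEq hc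
  have hJ : Jac d (fun j => y (e j)) ≠ 0 := hd.isFr'.jac_ne (hi.comp e e.injective)
  have key : ∀ O ∈ EtPr (MvPolynomial σ k) A F, ∃ (c : ι → F) (i0 : ι), Adp k O c i0 ∧
      O.valuation (Jac d c) ≤ O.valuation (Jac d fun j => y (e j)) := by
    rintro O ⟨h0, Q, hQ, h2⟩
    have h3 := etale_grp' hQ h0 h2
    have h1 : ∀ p, algebraMap (MvPolynomial σ k) F p ∈ O := fun p => h0 _
    simp only [hy] at h1 h2 h3
    obtain ⟨i0, h4⟩ := prime_var hQ
    have h5 : RIndC k O.valuation fun j : {a // a ≠ i0} => y j := fun p hp => by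
      have h6 : MvPolynomial.aeval (fun a : {a // a ≠ i0} => y a) p
          = MvPolynomial.aeval y (MvPolynomial.rename Subtype.val p) := by
        rw [MvPolynomial.aeval_rename]; rfl
      rw [h6]
      exact le_antisymm ((O.valuation_le_one_iff _).2 (h1 _))
        (not_lt.1 fun h => h4 p hp ((h2 _).1 h))
    have h6 : Fintype.card (Option {a // a ≠ i0}) = Fintype.card σ :=
      Fintype.card_congr (Equiv.optionSubtypeNe i0)
    refine ⟨_, _, (adp_option (fun h => hQ.ne_zero (hi (h.trans (map_zero _).symm)))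
      ((h2 Q).2 dvd_rfl) h3 h5 (by
        rw [← hb.cardinalMk_eq_trdeg, Cardinal.mk_fintype, ← h6, Fintype.card_option])).reindex
      (Fintype.equivOfCardEq (hc.trans h6.symm)), ?_⟩
    rw [jac_chain d hJ, map_mul]
    refine mul_le_of_le_one_right' ?_
    refine (val_jac_le O.valuation _ _ (fun _ => 1) (fun _ => 1) fun a b => ?_).trans (by simp)
    have h9 : ∀ j, dual d (fun j => y (e j)) b (y j) ∈ O := fun j => by
      obtain ⟨l, rfl⟩ := e.surjective j
      rw [dual_self d hJ b l]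
      split_ifs
      exacts [one_mem _, zero_mem _]
    rw [one_mul, O.valuation_le_one_iff, Function.comp_apply]
    cases Fintype.equivOfCardEq (hc.trans h6.symm) a with
    | none => exact der_aeval_mem h1 _ h9 Q
    | some j => exact h9 j
  refine ⟨fun j => g (MvPolynomial.X (e j)), hJ, EtPr (MvPolynomial σ k) A F, fun O hO => ?_,
    EtPr.finite, fun m φ hφ => etale_purity' (R := MvPolynomial σ k) fun O hO => ?_⟩
  · obtain ⟨c, i0, h1, -⟩ := key O hO
    exact h1.divisorial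
  · obtain ⟨c, i0, h1, h2⟩ := key O hO
    change φ / Jac d (fun j => y (e j)) ^ m ∈ O
    rw [← O.valuation_le_one_iff, map_div₀, map_pow,
      div_le_one₀ (pow_pos ((Valuation.pos_iff _).2 hJ) m)]
    exact ((hφ O hO).le_adp h1).trans (pow_le_pow_left' h2 m)

/-- a chart with a generator of the top forms -/
def GoodChart (d : ι → Derivation k F F) (B : Subalgebra k F) : Prop :=
  B.FG ∧ ∃ f : ι → F, (∀ j, f j ∈ B) ∧ Jac d f ≠ 0 ∧
    ∃ Pr : Set (ValuationSubring F), (∀ O ∈ Pr, IsDivisorial k F O) ∧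
      (∀ x : F, {O ∈ Pr | x ∉ O}.Finite) ∧
      ∀ m φ, (∀ O ∈ Pr, RegI d m φ O) → φ / Jac d f ^ m ∈ B

theorem good_away (hd : Dual k z d) (A : Subalgebra k F) [IsFractionRing A F]
    [Algebra.FiniteType k A] {g : A} (hg : g ≠ 0)
    (hs : Algebra.IsStandardSmooth k (Localization.Away g)) :
    ∃ B, GoodChart d B ∧ ∀ O : ValuationSubring F, (∀ a ∈ A, a ∈ O) → O.valuation (g : F) = 1 →
      ∀ b ∈ B, b ∈ O := by
  have hg' : (g : F) ≠ 0 := fun h => hg (Subtype.ext h)
  have hu : IsUnit (algebraMap A F g) := IsUnit.mk0 _ hg'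
  let : Algebra (Localization.Away g) F := (IsLocalization.Away.lift g hu).toAlgebra
  have : IsScalarTower A (Localization.Away g) F :=
    .of_algebraMap_eq fun a => (IsLocalization.Away.lift_eq g hu a).symm
  have : IsScalarTower k (Localization.Away g) F := .of_algebraMap_eq fun a => by
    rw [IsScalarTower.algebraMap_apply k A (Localization.Away g), ← IsScalarTower.algebraMap_apply,
      ← IsScalarTower.algebraMap_apply]
  have : IsFractionRing (Localization.Away g) F :=
    IsFractionRing.isFractionRing_of_isDomain_of_isLocalization (Submonoid.powers g) _ _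
  obtain ⟨n, φ, h1, h2⟩ := RingHom.IsStandardSmooth.exists_etale_mvPolynomial
    (f := algebraMap k (Localization.Away g)) (RingHom.isStandardSmooth_algebraMap.2 hs)
  obtain ⟨f, h3, h4⟩ := chart_of_etale hd (A := Localization.Away g)
    { φ with commutes' := fun a => DFunLike.congr_fun h1 a } h2
  refine ⟨(IsScalarTower.toAlgHom k (Localization.Away g) F).range, ⟨?_, _, fun j => ⟨f j, rfl⟩,
    h3, h4⟩, ?_⟩
  · rw [← Algebra.map_top]
    exact Algebra.FiniteType.out.map _
  · rintro O h5 h6 _ ⟨b, rfl⟩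
    obtain ⟨⟨a, _, l, rfl⟩, h7⟩ := IsLocalization.surj (Submonoid.powers g) b
    have h8 := congrArg (fun c => O.valuation (algebraMap _ F c)) h7
    simp only [map_mul, map_pow, ← IsScalarTower.algebraMap_apply] at h8
    rw [← O.valuation_le_one_iff]
    change O.valuation (algebraMap _ F b) ≤ 1
    change _ * O.valuation (g : F) ^ l = O.valuation (a : F) at h8
    rw [h6, one_pow, mul_one] at h8
    rw [h8, O.valuation_le_one_iff]
    exact h5 a a.2

theorem good_cover (hd : Dual k z d) (A : Subalgebra k F) [IsFractionRing A F]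
    [Algebra.Smooth k A] : ∃ S : Set (Subalgebra k F), S.Finite ∧ (∀ B ∈ S, GoodChart d B) ∧
      ∀ O : ValuationSubring F, (∀ a ∈ A, a ∈ O) → ∃ B ∈ S, ∀ b ∈ B, b ∈ O := by
  obtain ⟨s, hs, h1⟩ := Algebra.Smooth.exists_span_eq_top_isStandardSmooth k A
  obtain ⟨t, ht, h2⟩ := (Ideal.span_eq_top_iff_finite s).1 hs
  choose B h3 h4 using fun g : {g : A // g ∈ t ∧ g ≠ 0} => good_away hd A g.2.2 (h1 g (ht g.2.1))
  have : Finite {g : A // g ∈ t ∧ g ≠ 0} := (t.finite_toSet.subset fun _ h => h.1).to_subtype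
  refine ⟨range B, finite_range B, forall_mem_range.2 h3, fun O hO => ?_⟩
  have h5 : ∃ g ∈ t, O.valuation (g : F) = 1 := by
    by_contra hn
    have h6 : ∀ a ∈ Ideal.span (t : Set A), O.valuation (a : F) < 1 := fun a ha => by
      induction ha using Submodule.span_induction with
      | mem a ha =>
        exact lt_of_le_of_ne ((O.valuation_le_one_iff _).2 (hO a a.2)) fun h => hn ⟨a, ha, h⟩
      | zero => simp
      | add a b _ _ ha hb => exact O.valuation.map_add_lt ha hb
      | smul a b _ hb =>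
        rw [smul_eq_mul, Subalgebra.coe_mul, map_mul]
        exact (mul_le_of_le_one_left' ((O.valuation_le_one_iff _).2 (hO a a.2))).trans_lt hb
    simpa using h6 1 (h2 ▸ trivial)
  obtain ⟨g, hg, h6⟩ := h5
  have h7 : g ≠ 0 := fun h => by simp [h] at h6
  exact ⟨_, ⟨⟨g, hg, h7⟩, rfl⟩, h4 _ O hO h6⟩

theorem SmoothModel.good (h : SmoothModel k F) (hd : Dual k z d) :
    ∃ (n : ℕ) (B : Fin n → Subalgebra k F), (∀ j, GoodChart d (B j)) ∧
      ∀ O : ValuationSubring F, (∀ c : k, algebraMap k F c ∈ O) → ∃ j, ∀ a ∈ B j, a ∈ O := by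
  obtain ⟨N, A, h1, h2⟩ := h
  choose S h3 h4 h5 using fun i => @good_cover k F ι _ _ _ _ _ _ z d hd (A i) (h1 i).2 (h1 i).1
  obtain ⟨n, B, hB⟩ := (finite_iUnion h3).fin_param
  refine ⟨n, B, fun j => ?_, fun O hO => ?_⟩
  · obtain ⟨i, hi⟩ := mem_iUnion.1 (hB.2.le ⟨j, rfl⟩)
    exact h4 i _ hi
  · obtain ⟨i, hi⟩ := h2 O hO
    obtain ⟨C, hC, h0⟩ := h5 i O hi
    obtain ⟨j, rfl⟩ := hB.2.ge (mem_iUnion.2 ⟨i, hC⟩)
    exact ⟨j, h0⟩

theorem SmoothModel.frames (h : SmoothModel k F) (hd : Dual k z d) : Nonempty (Frames d) := by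
  obtain ⟨n, B, h1, h2⟩ := h.good hd
  choose f h3 h4 Pr h5 _ h6 using fun j => (h1 j).2
  exact ⟨⟨n, B, f, fun j => (h1 j).1, h3, h4,
    fun j m φ hφ => h6 j m φ fun O hO => hφ O (h5 j O hO), h2⟩⟩

/-- PRIMES: the height one primes of a smooth model -/
theorem SmoothModel.primes (h : SmoothModel k F) (hd : Dual k z d) :
    ∃ Pr : Set (ValuationSubring F), (∀ O ∈ Pr, IsDivisorial k F O) ∧
      (∀ m φ, (∀ O ∈ Pr, RegI d m φ O) → Plu d m φ) ∧ ∀ g : F, {O ∈ Pr | g ∉ O}.Finite := by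
  obtain ⟨n, B, h1, h2⟩ := h.good hd
  choose f h3 h4 Pr h5 h6 h7 using fun j => (h1 j).2
  refine ⟨⋃ j, Pr j, fun O hO => ?_, fun m φ hφ O hO => ?_,
    fun g => (finite_iUnion fun j => h6 j g).subset fun O hO => ?_⟩
  · obtain ⟨j, hj⟩ := mem_iUnion.1 hO
    exact h5 j O hj
  · obtain ⟨j, hj⟩ := h2 O hO.const
    exact ⟨f j, fun i => hj _ (h3 j i), _,
      hj _ (h7 j m φ fun O' hO' => hφ O' (mem_iUnion.2 ⟨j, hO'⟩)),
      (div_mul_cancel₀ _ (pow_ne_zero m (h4 j))).symm⟩
  · obtain ⟨j, hj⟩ := mem_iUnion.1 hO.1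
    exact mem_iUnion.2 ⟨j, hj, hO.2⟩

end Pool.Agent.Lib.MP_5c318e_ag
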