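import Pool.Agent.Lib.MP_5c318e_ag.S.ADefs

/-! Holomorphic coordinates near a general point of a vertical prime divisor. -/

set_option autoImplicit false

namespace Pool.Agent.Lib.MP_5c318e_ag

open MeasureTheory Metric

noncomputable section

/-- the `μ`-th power in the coordinate `i0` -/
def pw {δ : Type} [DecidableEq δ] (i0 : δ) (μ : ℕ) (y : δ → ℂ) : δ → ℂ :=
  Function.update y i0 (y i0 ^ μ)

variable {δ ν K M : Type} [Fintype δ] [DecidableEq δ] [Fintype ν] [DecidableEq ν]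
  [Field K] [Algebra ℂ K] [Field M] [Algebra ℂ M] [Algebra K M] {B : Cht δ K}

/-- coordinates `(y, s)` on a polydisc, `u = y i0`; the divisor `O` is `u = 0`, the point `Ψ (y, s)`
lies over the point of `C` near `c0` with coordinates `pw i0 μ y`, and `s` is the value of `w` -/
structure OCh (T : Rel B ν M) (O : ValuationSubring M) (C : Cht δ K) (i0 : δ) (τ : Tr C.O B.O)
    (c0 : Pt C.O) where
  μ : ℕ
  ξ : M
  w : ν → M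
  r : ℝ
  s0 : ν → ℂ
  Ψ : (δ → ℂ) × (ν → ℂ) → Pt T.X.O
  pos : 0 < μ
  ne : ξ ≠ 0
  lt : O.valuation ξ < 1
  val : O.valuation (algebraMap K M (C.z i0)) = O.valuation ξ ^ μ
  reg : ∀ (q : ℕ) (Φ : M), RegI T.X.der q Φ O ↔ O.valuation (Φ * ξ ^ ((μ - 1) * q)) ≤
    O.valuation (algebraMap K M (Jac B.der fun i => (C.z i : K)) * Jac T.dx w) ^ q
  rpos : 0 < r
  le_one : r ≤ 1
  tgt : ball (C.D.π c0) r ⊆ (C.D.ch c0).target
  res : ∀ q ∈ ball (C.D.π c0, s0) r, q.1 i0 ≠ 0 →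
    (Ψ q).res T.inc = τ.map (C.D.sec c0 (pw i0 μ q.1))
  cont : ContinuousOn Ψ {q ∈ ball (C.D.π c0, s0) r | q.1 i0 ≠ 0}
  ord : ∀ φ : M, φ ≠ 0 → ∃ (k : ℤ) (a b : (δ → ℂ) × (ν → ℂ) → ℂ),
    O.valuation φ = O.valuation ξ ^ k ∧ AnalyticOnNhd ℂ a (ball (C.D.π c0, s0) r) ∧
    AnalyticOnNhd ℂ b (ball (C.D.π c0, s0) r) ∧
    (∃ q ∈ ball (C.D.π c0, s0) r, q.1 i0 = 0 ∧ a q ≠ 0 ∧ b q ≠ 0) ∧ (φ ∈ T.X.O → b = 1) ∧
    ∀ q ∈ ball (C.D.π c0, s0) r, q.1 i0 ≠ 0 → b q ≠ 0 →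
      (Ψ q).Reg φ ∧ (Ψ q).ev φ = q.1 i0 ^ k * a q / b q
  jac : ∃ (j : ℤ) (a : (δ → ℂ) × (ν → ℂ) → ℂ), O.valuation (Jac T.dx w) = O.valuation ξ ^ j ∧
    AnalyticOnNhd ℂ a (ball (C.D.π c0, s0) r) ∧ ∀ q ∈ ball (C.D.π c0, s0) r, a q ≠ 0 ∧
      (q.1 i0 ≠ 0 → (Ψ q).Reg (Jac T.dx w) ∧ (Ψ q).ev (Jac T.dx w) = q.1 i0 ^ j * a q)
  fib : ∀ y ∈ ball (C.D.π c0) r, y i0 ≠ 0 → ∀ G : Pt T.X.O → ENNReal, Measurable G →
    ∫⁻ s in ball s0 r, ENNReal.ofReal (‖(Ψ (y, s)).ev (Jac T.dx w)‖⁻¹ ^ 2) * G (Ψ (y, s)) ≤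
      ∫⁻ p, G p.1 ∂(T.fib (τ.map (C.D.sec c0 (pw i0 μ y)))).μ

/-- the point of the base under the points `Ψ (y, s)` -/
def OCh.β {T : Rel B ν M} {O : ValuationSubring M} {C : Cht δ K} {i0 : δ} {τ : Tr C.O B.O}
    {c0 : Pt C.O} (Ω : OCh T O C i0 τ c0) (y : δ → ℂ) : Pt B.O := τ.map (C.D.sec c0 (pw i0 Ω.μ y))

/-- the fibre power of a family -/
abbrev Rel.Pow (T : Rel B ν M) (κ : Type) : Type :=
  {q : Pt B.O × (κ → Pt T.X.O) // ∀ k, (q.2 k).res T.inc = q.1}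

/-- `T'` over `B'` is a part of `T` over `B` with the same fibre integrals -/
structure Rel.Sub {δ' : Type} [Fintype δ'] [DecidableEq δ'] {B' : Cht δ' K} (T' : Rel B' ν M)
    (T : Rel B ν M) : Prop where
  le : B.O ≤ B'.O
  leX : T.X.O ≤ T'.X.O
  x_eq : T'.x = T.x
  emb : Topology.IsOpenEmbedding (Pt.res (Subalgebra.inclusion le))
  same : ∀ b : Pt B'.O, b.Same (b.res (Subalgebra.inclusion le))
  int : ∀ (b : Pt B'.O) (G : (M → ℂ) → ENNReal), Measurable G →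
    ∫⁻ p, G p.1.ev ∂(T'.fib b).μ = ∫⁻ p, G p.1.ev ∂(T.fib (b.res (Subalgebra.inclusion le))).μ

end

end Pool.Agent.Lib.MP_5c318e_ag
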