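import Pool.Agent.Lib.MP_5c318e_ag.S.RAlgA
import Pool.Agent.Lib.MP_5c318e_ag.S.RCov
import Pool.Agent.Lib.MP_5c318e_ag.RD.RInt

/-! Holomorphic functions of moderate growth on a finite covering are algebraic. -/

set_option autoImplicit false
set_option linter.unusedSectionVars false

namespace Pool.Agent.Lib.MP_5c318e_ag

open MeasureTheory Set Filter Topology Complex Metric Polynomial
open Pool.Agent.Lib.MP_9ff3e7_ag

noncomputable section

variable {ι : Type} [Fintype ι] {S : Type} [TopologicalSpace S] [MeasurableSpace S] {D : RD ι S}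

namespace RD.Cov

variable (C : D.Cov)

/-- the sum over the sheets -/
def tr (v : S → ℂ) (a : ι → ℂ) : ℂ := ∑ p ∈ (C.fin a).toFinset, v p

theorem card_fib (a : ι → ℂ) : (C.fin a).toFinset.card ≤ C.f.natDegree := by
  have := C.card_le a
  rw [(C.fin a).encard_eq_coe_toFinset_card] at this
  exact_mod_cast this

theorem tr_mul (v : S → ℂ) (c : (ι → ℂ) → ℂ) (a : ι → ℂ) :
    C.tr (fun p => v p * c (D.π p)) a = C.tr v a * c a := by
  rw [tr, tr, Finset.sum_mul]
  refine Finset.sum_congr rfl fun p hp => ?_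
  rw [show D.π p = a by simpa using hp]

/-- interpolation: the values on a fibre are recovered from the traces -/
theorem interp (u : S → ℂ) (p : S) :
    ∑ i ∈ Finset.range (C.f.natDegree + 1), MvPolynomial.eval (D.π p) (C.f.coeff i) *
      ∑ l ∈ Finset.range i, C.w p ^ l * C.tr (fun q => u q * C.w q ^ (i - 1 - l)) (D.π p) =
    u p * ev2 (derivative C.f) (D.π p) (C.w p) := by
  have e : ∀ q, ev2 C.f (D.π p) q = ∑ i ∈ Finset.range (C.f.natDegree + 1),
      MvPolynomial.eval (D.π p) (C.f.coeff i) * q ^ i := fun q => eval₂_eq_sum_range _ _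
  have e1 : ∀ i, ∑ l ∈ Finset.range i,
      C.w p ^ l * C.tr (fun q => u q * C.w q ^ (i - 1 - l)) (D.π p) =
      ∑ q ∈ (C.fin (D.π p)).toFinset,
        u q * ∑ l ∈ Finset.range i, C.w p ^ l * C.w q ^ (i - 1 - l) := fun i => by
    simp only [tr, Finset.mul_sum]
    rw [Finset.sum_comm]
    exact Finset.sum_congr rfl fun q _ => Finset.sum_congr rfl fun l _ => by ring
  simp only [e1]
  simp only [Finset.mul_sum _ _ (MvPolynomial.eval (D.π p) (C.f.coeff _))]
  rw [Finset.sum_comm, Finset.sum_eq_single p]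
  · simp only [mul_left_comm _ (u p), ← Finset.mul_sum, geom_sum₂_self]
    congr 1
    conv_rhs => rw [C.f.as_sum_range_C_mul_X_pow, map_sum, ev2, eval₂_finsetSum]
    refine Finset.sum_congr rfl fun i _ => ?_
    rw [derivative_C_mul_X_pow, eval₂_mul, eval₂_C, eval₂_X_pow, map_mul, map_natCast, mul_assoc]
  · intro q hq hne
    have hq' : D.π q = D.π p := by simpa using hq
    have hw : C.w p - C.w q ≠ 0 := sub_ne_zero.2 fun h => hne (C.inj q p hq' h.symm)
    simp only [mul_left_comm _ (u q), ← Finset.mul_sum]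
    refine mul_eq_zero_of_right _ (mul_right_cancel₀ hw ?_)
    rw [zero_mul, Finset.sum_mul]
    simp only [mul_assoc, geom_sum₂_mul]
    simp only [mul_sub, Finset.sum_sub_distrib]
    rw [← e, ← e, C.root p, ← hq', C.root q, sub_zero]
  · intro h
    exact absurd (by simp) h

/-- if all traces are polynomials after multiplication by `c`, the function is algebraic -/
theorem alg_of_tr {u : S → ℂ} {U : Set (ι → ℂ)} {c : (ι → ℂ) → ℂ}
    (h : ∀ n : ℕ, ∃ P : MvPolynomial ι ℂ, ∀ a ∈ U,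
      C.tr (fun q => u q * C.w q ^ n) a * c a = MvPolynomial.eval a P) :
    ∃ (P : (MvPolynomial ι ℂ)[X]) (j : ℕ), ∀ p, D.π p ∈ U →
      u p * c (D.π p) * MvPolynomial.eval (D.π p) C.Δ ^ j = ev2 P (D.π p) (C.w p) := by
  choose T hT using h
  obtain ⟨A, B, j, hc⟩ := C.cert
  refine ⟨(∑ i ∈ Finset.range (C.f.natDegree + 1), Polynomial.C (C.f.coeff i) *
    ∑ l ∈ Finset.range i, X ^ l * Polynomial.C (T (i - 1 - l))) * B, j, fun p hp => ?_⟩
  have h1 := congrArg (fun q => ev2 q (D.π p) (C.w p)) hc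
  simp only [ev2_add, ev2_mul, ev2_C, C.root p, zero_mul, zero_add] at h1
  rw [ev2_mul, ← map_pow, ← h1, ← mul_assoc, mul_right_comm (u p), ← C.interp u p]
  congr 1
  simp only [ev2, eval₂_finsetSum, eval₂_mul, eval₂_C, eval₂_X_pow, ← hT _ _ hp, Finset.sum_mul,
    Finset.mul_sum, mul_assoc]

variable [T2Space S]

theorem tr_ev (v : S → ℂ) {a : ι → ℂ} (ha : MvPolynomial.eval a C.Δ ≠ 0) :
    C.tr v =ᶠ[𝓝 a] fun b => ∑ q ∈ (C.fin a).toFinset, v (D.sec q b) := by
  classical
  have h1 : ∀ᶠ b in 𝓝 a, ∀ q ∈ D.π ⁻¹' {a}, D.π (D.sec q b) = b :=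
    (eventually_all_finite (C.fin a)).2 fun q hq => by
      have := D.π_sec_ev q; rwa [show D.π q = a from hq] at this
  have h2 : ∀ᶠ b in 𝓝 a, ∀ q ∈ D.π ⁻¹' {a}, ∀ q' ∈ D.π ⁻¹' {a},
      D.sec q b = D.sec q' b → q = q' :=
    (eventually_all_finite (C.fin a)).2 fun q hq =>
      (eventually_all_finite (C.fin a)).2 fun q' hq' => by
        by_cases h : q = q'
        · exact Eventually.of_forall fun _ _ => h
        · have t := D.tendsto_sec q
          have t' := D.tendsto_sec q'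
          rw [show D.π q = a from hq] at t
          rw [show D.π q' = a from hq'] at t'
          exact ((t.prodMk_nhds t').eventually (isClosed_diagonal.isOpen_compl.mem_nhds h)).mono
            fun b hb e => absurd e hb
  filter_upwards [h1, h2, C.sheets ha] with b b1 b2 b3
  rw [tr, eq_comm]
  refine Finset.sum_bij (fun q _ => D.sec q b) (fun q hq => ?_) (fun q hq q' hq' => ?_)
    (fun p hp => ?_) fun _ _ => rfl
  · simpa using b1 q (by simpa using hq)
  · exact b2 q (by simpa using hq) q' (by simpa using hq')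
  · obtain ⟨q, q1, q2⟩ := b3 p (by simpa using hp)
    exact ⟨q, by simpa using q1, q2.symm⟩

theorem tr_diff {v : S → ℂ} {a : ι → ℂ} (ha : MvPolynomial.eval a C.Δ ≠ 0)
    (hv : ∀ p, D.π p = a → DifferentiableAt ℂ (fun z => v (D.sec p z)) (D.π p)) :
    DifferentiableAt ℂ (C.tr v) a := by
  refine DifferentiableAt.congr_of_eventuallyEq ?_ (C.tr_ev v ha)
  refine DifferentiableAt.fun_sum fun q hq => ?_
  have hq' : D.π q = a := by simpa using hq
  exact hq' ▸ hv q hq'

/-- pointwise moderate growth off a hypersurface -/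
theorem alg_pt {g : MvPolynomial ι ℂ} {u : S → ℂ}
    (hu : ∀ p, MvPolynomial.eval (D.π p) g ≠ 0 →
      DifferentiableAt ℂ (fun z => u (D.sec p z)) (D.π p)) {A : ℝ} {M N : ℕ}
    (hb : ∀ p, MvPolynomial.eval (D.π p) g ≠ 0 →
      ‖u p‖ * ‖MvPolynomial.eval (D.π p) (C.Δ * g)‖ ^ M ≤ A * (1 + ‖D.π p‖) ^ N) :
    ∃ (P : (MvPolynomial ι ℂ)[X]) (j : ℕ), ∀ p, MvPolynomial.eval (D.π p) g ≠ 0 →
      u p * MvPolynomial.eval (D.π p) (C.Δ * g) ^ j = ev2 P (D.π p) (C.w p) := by
  obtain ⟨B, L, hB⟩ := C.w_bound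
  obtain ⟨P, j, hP⟩ := C.alg_of_tr (u := u) (U := {a | MvPolynomial.eval a (C.Δ * g) ≠ 0})
    (c := fun a => MvPolynomial.eval a (C.Δ * g) ^ (M + 2)) fun n => by
      refine Rat.poly_of_mod (A := C.f.natDegree * (|A| * |B| ^ n)) (N := N + L * n)
        (fun a ha => ?_) fun a ha => ?_
      · rw [map_mul] at ha
        refine C.tr_diff (left_ne_zero_of_mul ha) fun p hp => ?_
        exact (hu p (hp ▸ right_ne_zero_of_mul ha)).mul ((C.hol p).pow n)
      · rw [mul_assoc]
        refine (mul_le_mul_of_nonneg_right (norm_sum_le _ _) (by positivity)).trans ?_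
        rw [Finset.sum_mul]
        refine (Finset.sum_le_card_nsmul _ _ (|A| * |B| ^ n * (1 + ‖a‖) ^ (N + L * n))
          fun p hp => ?_).trans ?_
        · obtain rfl : D.π p = a := by simpa using hp
          have h1 := (hb p (by rw [map_mul] at ha; exact right_ne_zero_of_mul ha)).trans
            (mul_le_mul_of_nonneg_right (le_abs_self A) (by positivity))
          have h2 := (hB p).trans (mul_le_mul_of_nonneg_right (le_abs_self B) (by positivity))
          rw [norm_mul, norm_pow, mul_right_comm]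
          calc _ ≤ |A| * (1 + ‖D.π p‖) ^ N * (|B| * (1 + ‖D.π p‖) ^ L) ^ n :=
                mul_le_mul h1 (pow_le_pow_left₀ (norm_nonneg _) h2 n) (by positivity)
                  (by positivity)
            _ = _ := by ring
        · rw [nsmul_eq_mul]
          exact mul_le_mul_of_nonneg_right (by exact_mod_cast C.card_fib a) (by positivity)
  refine ⟨P * Polynomial.C (g ^ j), M + 2 + j, fun p hp => ?_⟩
  rw [ev2_mul, ev2_C, ← hP p (by simpa using ⟨C.Δ_ne p, hp⟩)]
  simp only [map_mul, map_pow]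
  ring

variable [BorelSpace S] [SigmaCompactSpace S]

/-- holomorphic off a hypersurface and of moderate growth in the mean: algebraic -/
theorem alg [DecidableEq ι] {g : MvPolynomial ι ℂ} (hg : g ≠ 0) {u : S → ℂ}
    (hu : ∀ p, MvPolynomial.eval (D.π p) g ≠ 0 → DifferentiableAt ℂ (fun z => u (D.sec p z)) (D.π p))
    (k N : ℕ) (hi : ∫⁻ p in {p | MvPolynomial.eval (D.π p) g ≠ 0}, ENNReal.ofReal (‖u p‖ ^ 2 *
      ‖MvPolynomial.eval (D.π p) C.Δ‖ ^ (2 * k) / (1 + ‖D.π p‖ ^ 2) ^ N) ∂D.μ < ⊤) :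
    ∃ (P : Polynomial (MvPolynomial ι ℂ)) (j : ℕ), ∀ p, MvPolynomial.eval (D.π p) g ≠ 0 →
      u p * MvPolynomial.eval (D.π p) C.Δ ^ j = ev2 P (D.π p) (C.w p) := by
  obtain ⟨B, L, hB⟩ := C.w_bound
  set V := {p | MvPolynomial.eval (D.π p) g ≠ 0} with hV
  have Vo : IsOpen V := (Rat.isOpen_ne g).preimage D.cont_π
  set G : S → ENNReal := fun p => ENNReal.ofReal (‖u p‖ ^ 2 *
    ‖MvPolynomial.eval (D.π p) C.Δ‖ ^ (2 * k) / (1 + ‖D.π p‖ ^ 2) ^ N) with hG
  have uc : ContinuousOn u V := fun x hx => by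
    refine (((hu x hx).continuousAt.comp D.cont_π.continuousAt).congr ?_).continuousWithinAt
    filter_upwards [(D.ch x).open_source.mem_nhds (D.mem_src x)] with y hy
    simp only [Function.comp, sec_π hy]
  have Gm : Measurable (V.indicator G) := by
    have c1 := D.cont_π
    have c2 := (mv_cont C.Δ).comp c1
    have c3 : ContinuousOn G V := ENNReal.continuous_ofReal.comp_continuousOn
      (((uc.norm.pow 2).mul (c2.norm.pow _).continuousOn).div (by fun_prop)
        fun p _ => by positivity)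
    clear_value V G
    classical
    exact c3.measurable_piecewise continuousOn_const Vo.measurableSet
  rw [← lintegral_indicator Vo.measurableSet, D.lintegral_eq Gm] at hi
  obtain ⟨P, j, hP⟩ := C.alg_of_tr (u := u) (U := {a | MvPolynomial.eval a (C.Δ * g) ≠ 0})
    (c := fun a => MvPolynomial.eval a C.Δ ^ k) fun n => by
      refine Rat.poly_of_l2 (mul_ne_zero C.ne hg) (fun a ha => ?_) (N + L * n) ?_
      · rw [map_mul] at ha
        refine (C.tr_diff (left_ne_zero_of_mul ha) fun p hp => ?_).mul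
          ((mv_analytic _ a).differentiableAt.pow k)
        exact (hu p (hp ▸ right_ne_zero_of_mul ha)).mul ((C.hol p).pow n)
      · refine lt_of_le_of_lt ?_ (ENNReal.mul_lt_top
          (a := ENNReal.ofReal (C.f.natDegree * (B ^ 2 * 2 ^ L) ^ n)) ENNReal.ofReal_lt_top hi)
        rw [← lintegral_const_mul' _ _ ENNReal.ofReal_ne_top]
        refine le_trans (setLIntegral_mono' (Rat.isOpen_ne _).measurableSet fun a ha => ?_)
          (setLIntegral_le_lintegral _ _)
        have ga : MvPolynomial.eval a g ≠ 0 := by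
          rw [mem_ofPred_eq, map_mul] at ha
          exact right_ne_zero_of_mul ha
        have e : ∑' y : D.π ⁻¹' {a}, V.indicator G y = ENNReal.ofReal
            (∑ p ∈ (C.fin a).toFinset, ‖u p‖ ^ 2 *
              ‖MvPolynomial.eval a C.Δ‖ ^ (2 * k) / (1 + ‖a‖ ^ 2) ^ N) := by
          rw [ENNReal.ofReal_sum_of_nonneg fun p _ => by positivity,
            ← (C.fin a).toFinset.tsum_subtype', (C.fin a).coe_toFinset]
          refine tsum_congr fun y => ?_
          have hy : D.π y = a := y.2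
          rw [indicator_of_mem (show y.1 ∈ V by simpa [hV, hy] using ga)]
          simp only [hG, hy]
        rw [e, ← ENNReal.ofReal_mul (by positivity)]
        refine ENNReal.ofReal_le_ofReal ?_
        have s1 : ‖C.tr (fun q => u q * C.w q ^ n) a‖ ^ 2 ≤ C.f.natDegree *
            ∑ p ∈ (C.fin a).toFinset, ‖u p‖ ^ 2 * (B ^ 2 * 2 ^ L * (1 + ‖a‖ ^ 2) ^ L) ^ n := by
          refine (pow_le_pow_left₀ (norm_nonneg _) (norm_sum_le _ _) 2).trans
            (sq_sum_le_card_mul_sum_sq.trans (mul_le_mul (by exact_mod_cast C.card_fib a)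
              (Finset.sum_le_sum fun p hp => ?_) (by positivity) (by positivity)))
          obtain rfl : D.π p = a := by simpa using hp
          rw [norm_mul, norm_pow, mul_pow, pow_right_comm]
          refine mul_le_mul_of_nonneg_left (pow_le_pow_left₀ (by positivity) ?_ n) (by positivity)
          refine (pow_le_pow_left₀ (norm_nonneg _) (hB p) 2).trans ?_
          rw [mul_pow, pow_right_comm, mul_assoc, ← mul_pow]
          refine mul_le_mul_of_nonneg_left (pow_le_pow_left₀ (by positivity) ?_ L) (by positivity)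
          nlinarith [sq_nonneg (1 - ‖D.π p‖)]
        rw [norm_mul, mul_pow, div_le_iff₀ (by positivity)]
        refine (mul_le_mul_of_nonneg_right s1 (by positivity)).trans (le_of_eq ?_)
        rw [← Finset.sum_mul, ← Finset.sum_div, ← Finset.sum_mul, norm_pow]
        field_simp
        ring
  refine ⟨P, k + j, fun p hp => ?_⟩
  rw [← hP p (by simpa using ⟨C.Δ_ne p, hp⟩), pow_add, mul_assoc]

/-- a holomorphic function with an integrable power has moderate growth -/
theorem mod_of_rpow {u : S → ℂ} (hu : D.Hol u) {s : ℝ} (hs : 0 < s) (k N : ℕ)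
    (hi : ∫⁻ p, ENNReal.ofReal (‖u p‖ ^ s *
      ‖MvPolynomial.eval (D.π p) C.Δ‖ ^ k / (1 + ‖D.π p‖ ^ 2) ^ N) ∂D.μ < ⊤) :
    ∃ (A : ℝ) (M L : ℕ), ∀ p,
      ‖u p‖ * ‖MvPolynomial.eval (D.π p) C.Δ‖ ^ M ≤ A * (1 + ‖D.π p‖) ^ L := by
  set G : S → ENNReal := fun p => ENNReal.ofReal (‖u p‖ ^ s *
    ‖MvPolynomial.eval (D.π p) C.Δ‖ ^ k / (1 + ‖D.π p‖ ^ 2) ^ N) with hG
  have Gm : Measurable G := by
    have c1 := D.cont_π
    have c2 := (mv_cont C.Δ).comp c1
    exact (ENNReal.continuous_ofReal.comp (((hu.cont.norm.rpow_const fun _ => Or.inr hs.le).mul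
      (c2.norm.pow _)).div (by fun_prop) fun p => by positivity)).measurable
  set J := ∫⁻ p, G p ∂D.μ with hJ
  obtain ⟨c, L, c0, hc⟩ := Rat.ball_ne C.Δ
  obtain ⟨B, L', -, hB⟩ := pl_mv C.Δ
  obtain ⟨A', M', N', h'⟩ := Rat.mod_of_rpow hs
    (J.toReal * 2 ^ (2 * N + k) / (Real.pi * c ^ 2) ^ Fintype.card ι) (2 * Fintype.card ι + k)
    (2 * N + L * 2 * Fintype.card ι) B L'
  refine ⟨A', M', N', fun p => ?_⟩
  have g0 : 0 < ‖MvPolynomial.eval (D.π p) C.Δ‖ := norm_pos_iff.2 (C.Δ_ne p)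
  have n0 := norm_nonneg (D.π p)
  refine h' _ _ _ (norm_nonneg _) g0 n0
    (hB (1 + ‖D.π p‖) (by linarith) _ (D.π p) (by linarith) (by linarith)).1
    (Rat.mod_of_mean g0 n0 c0 ?_)
  set r := c * ‖MvPolynomial.eval (D.π p) C.Δ‖ / (1 + ‖D.π p‖) ^ L with hr
  have r0 : 0 < r := by positivity
  obtain ⟨σ, s0, s1, s2⟩ := C.lift_convex (convex_ball (D.π p) r)
    (fun a ha => norm_pos_iff.1 (by linarith [(hc _).2 a ha])) (mem_ball_self r0)
  have hd : DifferentiableOn ℂ (fun z => u (σ z)) (ball (D.π p) r) := fun z hz => by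
    have e := D.sec_unique (x := σ z) (σ := σ) (by rw [s2 z hz])
      (by rw [s2 z hz]; exact s1.continuousAt (isOpen_ball.mem_nhds hz))
      (by rw [s2 z hz]; exact Filter.mem_of_superset (isOpen_ball.mem_nhds hz) s2)
    have := (hu (σ z)).congr_of_eventuallyEq (f₁ := fun z => u (σ z))
      (e.mono fun w hw => congrArg u hw)
    rw [s2 z hz] at this
    exact this.differentiableWithinAt
  have m := Rat.submean_rpow hd hs
  simp only [s0] at m
  set K : ℝ := (2 * (1 + ‖D.π p‖)) ^ (2 * N) / (‖MvPolynomial.eval (D.π p) C.Δ‖ / 2) ^ k with hK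
  have b : ∫⁻ y in ball (D.π p) r, ENNReal.ofReal (‖u (σ y)‖ ^ s) ≤ ENNReal.ofReal K * J := by
    rw [hJ, D.lintegral_eq Gm, ← lintegral_const_mul' _ _ ENNReal.ofReal_ne_top]
    refine le_trans (setLIntegral_mono' measurableSet_ball fun y hy => ?_)
      (setLIntegral_le_lintegral _ _)
    refine le_trans ?_ (mul_le_mul_right (ENNReal.le_tsum ⟨σ y, s2 y hy⟩) _)
    simp only [hG, s2 y hy]
    rw [← ENNReal.ofReal_mul (by positivity)]
    refine ENNReal.ofReal_le_ofReal ?_
    have a1 : (1 + ‖y‖ ^ 2) ^ N ≤ (2 * (1 + ‖D.π p‖)) ^ (2 * N) := by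
      rw [pow_mul]
      exact pow_le_pow_left₀ (by positivity)
        (Rat.one_add_sq_le ((mem_ball_iff_norm.1 hy).le.trans (hc _).1)) N
    have a2 : (‖MvPolynomial.eval (D.π p) C.Δ‖ / 2) ^ k ≤ ‖MvPolynomial.eval y C.Δ‖ ^ k :=
      pow_le_pow_left₀ (by positivity) (by linarith [(hc _).2 y hy]) k
    rw [hK, div_mul_div_comm, le_div_iff₀ (by positivity)]
    calc _ ≤ ‖u (σ y)‖ ^ s * (‖MvPolynomial.eval y C.Δ‖ ^ k * (2 * (1 + ‖D.π p‖)) ^ (2 * N)) := by
          gcongr
      _ = _ := by ring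
  have := m.trans b
  rw [Rat.vol_ball r0, ← ENNReal.ofReal_mul (by positivity), ← ENNReal.ofReal_toReal hi.ne,
    ← ENNReal.ofReal_mul (by positivity), ENNReal.ofReal_le_ofReal_iff (by positivity), hK,
    div_mul_eq_mul_div, le_div_iff₀ (by positivity), mul_comm _ J.toReal] at this
  exact this

/-- the same as `alg` for an arbitrary positive power -/
theorem alg_rpow {u : S → ℂ} (hu : D.Hol u) {s : ℝ} (hs : 0 < s) (k N : ℕ)
    (hi : ∫⁻ p, ENNReal.ofReal (‖u p‖ ^ s *
      ‖MvPolynomial.eval (D.π p) C.Δ‖ ^ k / (1 + ‖D.π p‖ ^ 2) ^ N) ∂D.μ < ⊤) :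
    ∃ (P : Polynomial (MvPolynomial ι ℂ)) (j : ℕ), ∀ p,
      u p * MvPolynomial.eval (D.π p) C.Δ ^ j = ev2 P (D.π p) (C.w p) := by
  obtain ⟨A, M, L, h⟩ := C.mod_of_rpow hu hs k N hi
  obtain ⟨P, j, hP⟩ := C.alg_pt (g := 1) (u := u) (fun p _ => hu p) (A := A) (M := M) (N := L)
    fun p _ => by simpa using h p
  exact ⟨P, j, fun p => by simpa using hP p (by simp)⟩

end RD.Cov

end

end Pool.Agent.Lib.MP_5c318e_ag
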