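import Pool.Agent.Lib.MP_5c318e_ag.S.CV

/-! Change of chart in fibre integrals for two families over two different base charts. -/

set_option autoImplicit false
set_option linter.unusedSectionVars false

namespace Pool.Agent.Lib.MP_5c318e_ag

open MeasureTheory Set Filter Topology

variable {δ δ' ν K M : Type} [Fintype δ] [DecidableEq δ] [Fintype δ'] [DecidableEq δ']
  [Fintype ν] [DecidableEq ν]
  [Field K] [Algebra ℂ K] [Field M] [Algebra ℂ M] [Algebra K M] [IsScalarTower ℂ K M]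
  {B : Cht δ K} {B' : Cht δ' K}

/-- functions of the base are evaluated at the base point -/
theorem Rel.ev_base (T : Rel B ν M) (p : Pt T.X.O) {φ : K} (h : (p.res T.inc).Reg φ) :
    p.Reg (algebraMap K M φ) ∧ p.ev (algebraMap K M φ) = (p.res T.inc).ev φ := by
  obtain ⟨a, b, hb, e⟩ := h
  have e' : algebraMap K M φ * T.inc b = T.inc a := by
    rw [T.inc_eq, T.inc_eq, ← map_mul, e]
  exact ⟨⟨_, _, hb, e'⟩, (p.ev_eq hb e').trans (Pt.ev_eq _ hb e).symm⟩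

theorem Rel.res_of_same2 {T : Rel B ν M} {T' : Rel B' ν M} {p : Pt T.X.O} {q : Pt T'.X.O}
    (h : p.Same q) {b' : Pt B'.O} (hb : (p.res T.inc).Same b') : q.res T'.inc = b' :=
  Pt.ext fun a => by
    show q (T'.inc a) = b' a
    rw [← Pt.ev_coe, ← Pt.ev_coe, T'.inc_eq, ← (h _).2, ← (hb _).2,
      (T.ev_base p ((hb _).1.2 (b'.reg_coe a))).2]

theorem Cht.gen_ev_ne (c : Cht δ K) {φ : K} (h0 : φ ≠ 0) :
    ∀ᶠ p in c.D.gen, p.Reg φ ∧ p.ev φ ≠ 0 := by
  obtain ⟨a, b, hb, e⟩ := c.frac φ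
  have ha : a ≠ 0 := fun h => mul_ne_zero h0 (fun h1 => hb (Subtype.ext h1))
    (e.trans (congrArg Subtype.val h))
  filter_upwards [c.gen_ne ha, c.gen_ne hb] with p h1 h2
  exact ⟨⟨a, b, h2, e⟩, by rw [p.ev_eq h2 e]; exact div_ne_zero h1 h2⟩

/-- a gluing map sends general points to general points -/
theorem Tr.tendsto_gen (σ : Tr B.O B'.O) : Tendsto σ.map B.D.gen B'.D.gen := by
  rintro U ⟨g, h0, hU⟩
  have h1 : ((MvPolynomial.aeval B'.z g : B'.O) : K) ≠ 0 := fun h => h0 (B'.basis.1 (by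
    rw [map_zero, ← h]
    exact ((MvPolynomial.comp_aeval_apply B'.z B'.O.val g).symm)))
  rw [Filter.mem_map]
  filter_upwards [B.gen_ne σ.ne, B.gen_ev_ne h1] with b h2 h3
  refine hU _ ?_
  have h4 : B'.D.π (σ.map b) = fun i => σ.map b (B'.z i) := funext (B'.π_eq _)
  rw [h4, ← MvPolynomial.coe_aeval_eq_eval]
  have h5 := (MvPolynomial.comp_aeval_apply B'.z (σ.map b).hom g).symm
  exact fun h => h3.2 ((σ.map_apply h2 _).2.symm.trans (h5.symm.trans h))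

/-- the change of variables for two fibres over the same point -/
theorem Rel.cv_at (T : Rel B ν M) (T' : Rel B' ν M) (τ : Tr T.X.O T'.X.O) {b : Pt B.O}
    {b' : Pt B'.O} (hb : b.Same b') (a1 : ∀ᵐ p ∂(T.fib b).μ, p.1 τ.h ≠ 0)
    (a2 : ∀ᵐ q ∂(T'.fib b').μ, q.1 τ.h' ≠ 0) {G : (M → ℂ) → ENNReal} (hG : Measurable G) :
    ∫⁻ q, G q.1.ev ∂(T'.fib b').μ =
      ∫⁻ p, ENNReal.ofReal (‖p.1.ev (Jac T.dx T'.x)‖ ^ 2) * G p.1.ev ∂(T.fib b).μ := by
  classical
  have : CharZero K := charZero_of_injective_algebraMap (algebraMap ℂ K).injective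
  have hU : IsOpen {p : T.Fib b | p.1 τ.h ≠ 0} := τ.isOpen.preimage continuous_subtype_val
  have back : ∀ q : T'.Fib b', q.1 τ.h' ≠ 0 → (τ.inv q.1).res T.inc = b := fun q hq =>
    Rel.res_of_same2 (τ.same' q.1 hq).1.symm (q.2.symm ▸ hb.symm)
  have forth : ∀ p : T.Fib b, p.1 τ.h ≠ 0 → (τ.map p.1).res T'.inc = b' := fun p hp =>
    Rel.res_of_same2 (τ.same p.1 hp).1 (p.2.symm ▸ hb)
  by_cases hne : ∃ p : T.Fib b, p.1 τ.h ≠ 0
  swap
  · rw [lintegral_congr_ae (g := fun _ => 0) (a1.mono fun p hp => absurd ⟨p, hp⟩ hne),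
      lintegral_congr_ae (g := fun _ => 0) (a2.mono fun q hq =>
        absurd ⟨⟨τ.inv q.1, back q hq⟩, (τ.same' q.1 hq).2.1⟩ hne), lintegral_zero, lintegral_zero]
  obtain ⟨p0, hp0⟩ := hne
  let t : T.Fib b → T'.Fib b' := fun p =>
    if h : p.1 τ.h ≠ 0 then ⟨τ.map p.1, forth p h⟩ else ⟨τ.map p0.1, forth p0 hp0⟩
  have ht : ∀ p : T.Fib b, p.1 τ.h ≠ 0 → (t p).1 = τ.map p.1 := fun p hp => by
    simp only [t, dif_pos hp]
  have key : ∀ p : T.Fib b, p.1 τ.h ≠ 0 →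
      DifferentiableAt ℂ (fun z => (T'.fib b').π (t ((T.fib b).sec p z))) ((T.fib b).π p) ∧
      (T.fib b).jac (fun p => (T'.fib b').π (t p)) p = p.1.ev (Jac T.dx T'.x) :=
    fun p hp => (T.cvEv b).jac (f := T'.x) (g := fun p => (T'.fib b').π (t p))
      (fun i => (τ.map_apply hp _).1) <| by
      filter_upwards [hU.mem_nhds hp] with q hq i
      rw [T'.fib_π, ht q hq, (τ.map_apply hq _).2]
      rfl
  have hc : ContinuousOn t {p : T.Fib b | p.1 τ.h ≠ 0} := by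
    refine Topology.IsInducing.subtypeVal.continuousOn_iff.2 ?_
    exact (τ.continuousOn.comp continuous_subtype_val.continuousOn fun _ h => h).congr ht
  refine (CV.cv_abs (T.fib b) (T'.fib b') hU hc (fun p hp => (key p hp).1) (fun p hp => ?_)
    (fun p hp q hq e => ?_) ?_ (G := fun q => G q.1.ev)
    (hG.comp (Pt.measurable_ev'.comp measurable_subtype_coe))).trans ?_
  · rw [(key p hp).2]
    exact CV.jac_ne T.dual T'.dual ((T.cvEv b).reg_jac fun i => (τ.map_apply hp _).1)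
      (((τ.same p.1 hp).1 _).1.2 ((T'.cvEv b').reg_jac fun i =>
        ((τ.same p.1 hp).1 _).1.1 (p.1.reg_coe _)))
  · exact Subtype.ext (τ.injOn hp hq (by rw [← ht p hp, ← ht q hq, e]))
  · filter_upwards [a2] with q hq
    exact ⟨⟨τ.inv q.1, back q hq⟩, (τ.same' q.1 hq).2.1,
      Subtype.ext ((ht ⟨τ.inv q.1, back q hq⟩ (τ.same' q.1 hq).2.1).trans (τ.same' q.1 hq).2.2)⟩
  · rw [Measure.restrict_eq_self_of_ae_mem (s := {p : T.Fib b | p.1 τ.h ≠ 0}) a1]
    refine lintegral_congr_ae (a1.mono fun p hp => ?_)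
    simp only [(key p hp).2, ht p hp, (τ.same p.1 hp).1.ev_eq]

/-- change of chart over two bases -/
theorem Rel.cv2 (T : Rel B ν M) (T' : Rel B' ν M) (σ : Tr B.O B'.O) :
    ∀ᶠ b in B.D.gen, b σ.h ≠ 0 ∧ ∀ G : (M → ℂ) → ENNReal, Measurable G →
      ∫⁻ q, G q.1.ev ∂(T'.fib (σ.map b)).μ =
        ∫⁻ p, ENNReal.ofReal (‖p.1.ev (Jac T.dx T'.x)‖ ^ 2) * G p.1.ev ∂(T.fib b).μ := by
  obtain ⟨τ⟩ := Tr.exists T.X.frac T'.X.frac
  filter_upwards [B.gen_ne σ.ne, T.gen_ne τ.ne, σ.tendsto_gen.eventually (T'.gen_ne τ.ne')]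
    with b h0 h1 h2
  exact ⟨h0, fun G hG => T.cv_at T' τ (σ.same b h0).1 ((T.fib b).ae_of_gen h1)
    ((T'.fib _).ae_of_gen h2) hG⟩

/-- the same fibre coordinates: the fibre integrals agree -/
theorem Rel.cv2_eq (T : Rel B ν M) (T' : Rel B' ν M) (hx : T'.x = T.x) (σ : Tr B.O B'.O) :
    ∀ᶠ b in B.D.gen, b σ.h ≠ 0 ∧ ∀ G : (M → ℂ) → ENNReal, Measurable G →
      ∫⁻ q, G q.1.ev ∂(T'.fib (σ.map b)).μ = ∫⁻ p, G p.1.ev ∂(T.fib b).μ := by
  have : CharZero K := charZero_of_injective_algebraMap (algebraMap ℂ K).injective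
  filter_upwards [T.cv2 T' σ] with b h
  refine ⟨h.1, fun G hG => ?_⟩
  rw [h.2 G hG, hx, T.dual.jac_one]
  simp

/-- a general property of points holds off the zero set of one element of the ring -/
theorem Cht.gen_iff (c : Cht δ K) {P : Pt c.O → Prop} :
    (∀ᶠ p in c.D.gen, P p) ↔ ∃ e : c.O, e ≠ 0 ∧ ∀ p, p e ≠ 0 → P p := by
  constructor
  · rintro ⟨g, h0, hU⟩
    refine ⟨MvPolynomial.aeval c.z g, fun h => h0 (c.basis.1 ?_), fun p hp => hU p ?_⟩
    · rw [map_zero]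
      exact (MvPolynomial.comp_aeval_apply c.z c.O.val g).symm.trans (congrArg Subtype.val h)
    · have h4 : c.D.π p = fun i => p (c.z i) := funext (c.π_eq _)
      rw [h4, ← MvPolynomial.coe_aeval_eq_eval]
      exact fun h => hp ((MvPolynomial.comp_aeval_apply c.z p.hom g).trans h)
  · rintro ⟨e, h0, h⟩
    exact (c.gen_ne h0).mono h

end Pool.Agent.Lib.MP_5c318e_ag
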