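import Pool.Agent.Lib.MP_5c318e_ag.S.PBas
import Pool.Agent.Lib.MP_5c318e_ag.S.RArea

/-! Derivatives of field elements along a Riemann domain of points; abstract change of chart. -/

set_option autoImplicit false
set_option linter.unusedSectionVars false

namespace Pool.Agent.Lib.MP_5c318e_ag

open MeasureTheory Set Filter Topology

namespace CV

variable {ι : Type} [Fintype ι] [DecidableEq ι] {S S' : Type}
  [TopologicalSpace S] [MeasurableSpace S] [BorelSpace S] [T2Space S] [SigmaCompactSpace S]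
  [TopologicalSpace S'] [MeasurableSpace S'] [BorelSpace S'] [T2Space S'] [SigmaCompactSpace S']

/-- change of variables for a map that is injective on `U` with almost full image -/
theorem cv_abs (D : RD ι S) (D' : RD ι S') {U : Set S} (hU : IsOpen U) {τ : S → S'}
    (hc : ContinuousOn τ U)
    (hh : ∀ p ∈ U, DifferentiableAt ℂ (fun z => D'.π (τ (D.sec p z))) (D.π p))
    (hJ : ∀ p ∈ U, D.jac (fun p => D'.π (τ p)) p ≠ 0) (hi : InjOn τ U)
    (hs : ∀ᵐ q ∂D'.μ, q ∈ τ '' U) {G : S' → ENNReal} (hG : Measurable G) :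
    ∫⁻ q, G q ∂D'.μ =
      ∫⁻ p in U, ENNReal.ofReal (‖D.jac (fun p => D'.π (τ p)) p‖ ^ 2) * G (τ p) ∂D.μ := by
  classical
  have hm : Measurable fun p => if p ∈ U then G (τ p) else 0 := by
    refine measurable_of_restrict_of_restrict_compl hU.measurableSet ?_ ?_
    · have : (U.domRestrict fun p => if p ∈ U then G (τ p) else 0) = fun p => G (U.domRestrict τ p) :=
        funext fun p => if_pos p.2
      rw [this]
      exact hG.comp hc.domRestrict.measurable
    · have : (Uᶜ.domRestrict fun p => if p ∈ U then G (τ p) else 0) = fun _ => 0 :=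
        funext fun p => if_neg p.2
      rw [this]
      exact measurable_const
  rw [setLIntegral_congr_fun hU.measurableSet (g := fun p =>
    ENNReal.ofReal (‖D.jac (fun p => D'.π (τ p)) p‖ ^ 2) * if p ∈ U then G (τ p) else 0)
    fun p hp => by simp only [if_pos hp], D.area D' hU hc hh hm]
  refine lintegral_congr_ae (hs.mono ?_)
  rintro _ ⟨p, hp, rfl⟩
  beta_reduce
  rw [tsum_eq_single ⟨p, hp, rfl, hJ p hp⟩, if_pos hp]
  rintro ⟨p', hp', e, h⟩ hne
  exact absurd (Subtype.ext (hi hp' hp e)) hne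

variable {k F : Type} [Field k] [Field F] [Algebra k F] [Algebra ℂ F] {A : Subalgebra ℂ F}

/-- a Riemann domain of points of `A` whose coordinate derivatives are the derivations `d` -/
structure Ev (D : RD ι S) (j : S → Pt A) (d : ι → Derivation k F F) : Prop where
  cont : Continuous j
  mem : ∀ i, ∀ φ ∈ A, d i φ ∈ A
  hol : ∀ φ : A, D.Hol fun p => j p φ
  fd : ∀ (φ : A) (p : S) (i : ι), D.fd (fun q => j q φ) p (Pi.single i 1) = (j p).ev (d i φ)

variable {D : RD ι S} {j : S → Pt A} {d : ι → Derivation k F F}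

theorem Ev.reg (h : Ev D j d) {q : Pt A} {φ : F} (hφ : q.Reg φ) (i : ι) :
    q.Reg (d i φ) := by
  obtain ⟨a, b, hb, e⟩ := hφ
  refine ⟨⟨d i a, h.mem i a a.2⟩ * b - a * ⟨d i b, h.mem i b b.2⟩, b * b, by simpa using hb, ?_⟩
  push_cast
  rw [← e, Derivation.leibniz, smul_eq_mul, smul_eq_mul]
  ring

theorem Ev.diff (h : Ev D j d) {p : S} {φ : F} (hφ : (j p).Reg φ) :
    DifferentiableAt ℂ (fun z => (j (D.sec p z)).ev φ) (D.π p) ∧
      ∀ i, D.fd (fun q => (j q).ev φ) p (Pi.single i 1) = (j p).ev (d i φ) := by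
  obtain ⟨a, b, hb, e⟩ := id hφ
  have hb' : j (D.sec p (D.π p)) b ≠ 0 := by rwa [D.sec_self]
  have ev : (fun z => (j (D.sec p z)).ev φ) =ᶠ[𝓝 (D.π p)]
      fun z => j (D.sec p z) a * (j (D.sec p z) b)⁻¹ := by
    filter_upwards [(h.hol b p).continuousAt.eventually_ne hb'] with z hz
    rw [Pt.ev_eq _ hz e, div_eq_mul_inv]
  have dφ : DifferentiableAt ℂ (fun z => (j (D.sec p z)).ev φ) (D.π p) :=
    ((h.hol a p).mul ((h.hol b p).inv hb')).congr_of_eventuallyEq ev
  refine ⟨dφ, fun i => ?_⟩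
  have ev2 : (fun z => j (D.sec p z) a) =ᶠ[𝓝 (D.π p)]
      fun z => (j (D.sec p z)).ev φ * j (D.sec p z) b := by
    filter_upwards [(h.hol b p).continuousAt.eventually_ne hb'] with z hz
    rw [Pt.ev_eq _ hz e, div_mul_cancel₀ _ hz]
  have e1 := h.fd a p i
  rw [RD.fd, ev2.fderiv_eq, fderiv_fun_mul dφ (h.hol b p), D.sec_self] at e1
  have e2 := h.fd b p i
  rw [RD.fd] at e2
  simp only [_root_.add_apply, _root_.smul_apply, e2, smul_eq_mul] at e1
  have r1 := (j p).ev_mul hφ (h.reg ((j p).reg_coe b) i)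
  have r2 := (j p).ev_mul ((j p).reg_coe b) (h.reg hφ i)
  rw [← e, Derivation.leibniz, smul_eq_mul, smul_eq_mul, ((j p).ev_add r1.1 r2.1).2, r1.2, r2.2,
    Pt.ev_coe] at e1
  exact mul_left_cancel₀ hb (add_left_cancel e1)

theorem Ev.reg_jac (h : Ev D j d) {q : Pt A} {f : ι → F} (hf : ∀ i, q.Reg (f i)) :
    q.Reg (Jac d f) := (q.ev_det fun a b => h.reg (hf a) b).1

theorem Ev.jac (h : Ev D j d) {p : S} {f : ι → F} (hf : ∀ i, (j p).Reg (f i)) {g : S → ι → ℂ}
    (hg : ∀ᶠ q in 𝓝 p, ∀ i, g q i = (j q).ev (f i)) :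
    DifferentiableAt ℂ (fun z => g (D.sec p z)) (D.π p) ∧ D.jac g p = (j p).ev (Jac d f) := by
  have ev : (fun z => g (D.sec p z)) =ᶠ[𝓝 (D.π p)] fun z i => (j (D.sec p z)).ev (f i) :=
    ((D.tendsto_sec p).eventually hg).mono fun z hz => funext hz
  refine ⟨(differentiableAt_pi.2 fun i => (h.diff (hf i)).1).congr_of_eventuallyEq ev, ?_⟩
  rw [RD.jac, RD.fd, ev.fderiv_eq, fderiv_pi fun i => (h.diff (hf i)).1, Jac,
    ((j p).ev_det (N := Matrix.of fun a b => d b (f a)) fun a b => h.reg (hf a) b).2,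
    ContinuousLinearMap.det, ← LinearMap.det_toMatrix']
  congr 1
  ext a b
  rw [LinearMap.toMatrix'_apply]
  exact (h.diff (hf a)).2 b

end CV

section

variable {ι F : Type} [Fintype ι] [DecidableEq ι] [Field F] [Algebra ℂ F]
variable {δ ν K M : Type} [Fintype δ] [DecidableEq δ] [Fintype ν] [DecidableEq ν]
  [Field K] [Algebra ℂ K] [Field M] [Algebra ℂ M] [Algebra K M] {B : Cht δ K}

theorem Cht.cvEv (c : Cht ι F) : CV.Ev c.D id c.der :=
  ⟨continuous_id, c.der_mem, c.hol, fun φ p i => (c.fd_eq φ p i).trans (p.ev_of_mem _).symm⟩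

theorem Rel.cvEv (T : Rel B ν M) (b : Pt B.O) : CV.Ev (T.fib b) Subtype.val T.dx :=
  ⟨continuous_subtype_val, fun i φ hφ => T.dx_eq i φ ▸ T.X.der_mem _ φ hφ, T.fib_hol b,
    fun φ p i => by rw [T.fib_fd, T.dx_eq]; exact (p.1.ev_of_mem _).symm⟩

end

end Pool.Agent.Lib.MP_5c318e_ag
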