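import Pool.Agent.Lib.MP_5c318e_ag.S.PBas

/-! Points lift along an injective map of finitely generated domains, off a hypersurface. -/

set_option autoImplicit false

namespace Pool.Agent.Lib.MP_5c318e_ag

open PrimeSpectrum

/-- points lift along an injective map off a hypersurface -/
theorem Pt.exists_lift {R O : Type} [CommRing R] [IsDomain R] [Algebra ℂ R] [CommRing O] [IsDomain O]
    [Algebra ℂ O] [Algebra.FiniteType ℂ R] [Algebra.FiniteType ℂ O] (f : R →ₐ[ℂ] O)
    (hf : Function.Injective f) {h : O} (h0 : h ≠ 0) :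
    ∃ e : R, e ≠ 0 ∧ ∀ b : Pt R, b e ≠ 0 → ∃ p : Pt O, p.res f = b ∧ p h ≠ 0 := by
  have : IsNoetherianRing R := Algebra.FiniteType.isNoetherianRing ℂ R
  have ft : (f : R →+* O).FiniteType := by
    refine RingHom.FiniteType.of_comp_finiteType (f := algebraMap ℂ R) ?_
    rw [AlgHom.comp_algebraMap]
    exact RingHom.finiteType_algebraMap.2 inferInstance
  obtain ⟨S, hS⟩ := exists_constructibleSetData_iff.2 (isConstructible_comap_image
    (RingHom.FinitePresentation.of_finiteType.1 ft) (isConstructible_basicOpen (f := h)))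
  have hb : (⊥ : PrimeSpectrum R) ∈ S.toSet := by
    rw [hS]
    exact ⟨⊥, h0, PrimeSpectrum.ext (Ideal.comap_bot_of_injective _ hf)⟩
  obtain ⟨C, hC, h1, h2⟩ := Set.mem_iUnion₂.1 hb
  refine ⟨C.f, fun e => h2 (by simp [e]), fun b hb => ?_⟩
  have : (⟨RingHom.ker b, RingHom.ker_isPrime b⟩ : PrimeSpectrum R) ∈ S.toSet :=
    Set.mem_iUnion₂.2 ⟨C, hC, fun a ha => by
      have : a = 0 := h1 ha
      simp [this], fun e => hb (e rfl)⟩
  rw [hS] at this
  obtain ⟨Q, hQ, e⟩ := this
  obtain ⟨p, p1, p2⟩ := Pt.exists_zero_ne (I := Q.asIdeal) (h := h)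
    (by rw [Q.isPrime.radical]; exact hQ)
  refine ⟨p, Pt.ext fun a => ?_, p2⟩
  have h3 : a - algebraMap ℂ R (b a) ∈ (comap (f : R →+* O) Q).asIdeal := by
    rw [e]
    simp [RingHom.mem_ker]
  have := p1 _ h3
  simpa [sub_eq_zero] using this

end Pool.Agent.Lib.MP_5c318e_ag
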