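import Pool.Agent.Lib.MP_5c318e_ag.S.CCov
import Pool.Agent.Lib.MP_5c318e_ag.S.PLift
import Pool.Agent.Lib.MP_5c318e_ag.S.BVal

/-! Charts at a prime divisor: the local equation is prime, points on the divisor. -/

set_option autoImplicit false

namespace Pool.Agent.Lib.MP_5c318e_ag

open Set

section one
variable {δ K : Type} [Fintype δ] [DecidableEq δ] [Field K] [Algebra ℂ K]
  {C : Cht δ K} {P : ValuationSubring K} {i0 : δ}

theorem Cht.At.val_le_one (hC : C.At P i0) (a : C.O) : P.valuation (a : K) ≤ 1 :=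
  (P.valuation_le_one_iff _).2 (hC.le a a.2)

theorem Cht.At.dvd_iff (hC : C.At P i0) {a : C.O} : C.z i0 ∣ a ↔ P.valuation (a : K) < 1 := by
  refine ⟨?_, hC.ker a⟩
  rintro ⟨t, rfl⟩
  rw [MulMemClass.coe_mul, map_mul]
  exact (mul_le_of_le_one_right' (hC.val_le_one t)).trans_lt hC.ad.lt

theorem Cht.At.not_dvd_iff (hC : C.At P i0) {a : C.O} :
    ¬ C.z i0 ∣ a ↔ P.valuation (a : K) = 1 := by
  rw [hC.dvd_iff, not_lt]
  exact ⟨le_antisymm (hC.val_le_one a), fun h => h.ge⟩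

theorem Cht.At.not_dvd_mul {C : Cht δ K} {P : ValuationSubring K} {i0 : δ} (hC : C.At P i0)
    {e e' : C.O} (he : ¬ C.z i0 ∣ e) (he' : ¬ C.z i0 ∣ e') : ¬ C.z i0 ∣ e * e' := by
  rw [hC.not_dvd_iff] at he he' ⊢
  rw [MulMemClass.coe_mul, map_mul, he, he', one_mul]

theorem Cht.At.not_dvd_one (hC : C.At P i0) : ¬ C.z i0 ∣ 1 := hC.not_dvd_iff.2 (by simp)

theorem Cht.At.prime (hC : C.At P i0) : Prime (C.z i0) :=
  ⟨fun h => hC.ad.ne (congrArg Subtype.val h), fun h => hC.not_dvd_one h.dvd, fun a b h => by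
    by_contra hn
    exact hC.not_dvd_mul (fun h => hn (Or.inl h)) (fun h => hn (Or.inr h)) h⟩

/-- points of the divisor off a hypersurface of it -/
theorem Cht.At.exists_pt {C : Cht δ K} {P : ValuationSubring K} {i0 : δ} (hC : C.At P i0) {e : C.O}
    (he : ¬ C.z i0 ∣ e) : ∃ c0 : Pt C.O, c0 (C.z i0) = 0 ∧ c0 e ≠ 0 := by
  have hp := (Ideal.span_singleton_prime hC.prime.ne_zero).2 hC.prime
  obtain ⟨p, h1, h2⟩ := Pt.exists_zero_ne (I := Ideal.span {C.z i0}) (h := e)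
    (by rw [hp.radical, Ideal.mem_span_singleton]; exact he)
  exact ⟨p, h1 _ (Ideal.mem_span_singleton_self _), h2⟩

/-- the order of an element of the ring -/
theorem Cht.At.exists_pow (hC : C.At P i0) {a : C.O} (ha : a ≠ 0) :
    ∃ (n : ℕ) (b : C.O), ¬ C.z i0 ∣ b ∧ a = C.z i0 ^ n * b := by
  have : IsNoetherianRing C.O := Algebra.FiniteType.isNoetherianRing ℂ C.O
  exact WfDvdMonoid.max_power_factor ha hC.prime.irreducible

/-- the order of an element of the field -/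
theorem Cht.At.exists_zpow (hC : C.At P i0) {φ : K} (h0 : φ ≠ 0) :
    ∃ (k : ℤ) (a b : C.O), ¬ C.z i0 ∣ a ∧ ¬ C.z i0 ∣ b ∧ φ * b = (C.z i0 : K) ^ k * a := by
  obtain ⟨a, b, hb, e⟩ := C.frac φ
  have ha : a ≠ 0 := by
    rintro rfl
    exact mul_ne_zero h0 (fun h => hb (Subtype.ext h)) e
  obtain ⟨n, a, h1, rfl⟩ := hC.exists_pow ha
  obtain ⟨m, b, h2, rfl⟩ := hC.exists_pow hb
  refine ⟨n - m, a, b, h1, h2, ?_⟩
  have hz : (C.z i0 : K) ≠ 0 := hC.ad.ne
  push_cast at e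
  rw [zpow_sub₀ hz, zpow_natCast, zpow_natCast, div_mul_eq_mul_div, ← e]
  field_simp

theorem Cht.At.dvr (hC : C.At P i0) : IsDiscreteValuationRing P := by
  have := Br_dvr P.valuation hC.ad.ne hC.ad.lt fun φ h0 => by
    obtain ⟨k, a, b, h1, h2, e⟩ := hC.exists_zpow h0
    refine ⟨k, ?_⟩
    have := congrArg P.valuation e
    rwa [map_mul, map_mul, hC.not_dvd_iff.1 h1, hC.not_dvd_iff.1 h2, mul_one, mul_one,
      map_zpow₀] at this
  rwa [ValuationSubring.valuationSubring_valuation] at this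

theorem Cht.At.adp (hC : C.At P i0) : Adp ℂ P (fun i => (C.z i : K)) i0 :=
  have := hC.dvr
  hC.ad.adp C.basis

/-- setting one variable equal to zero -/
noncomputable def kil (i0 : δ) : MvPolynomial δ ℂ →ₐ[ℂ] MvPolynomial {i // i ≠ i0} ℂ :=
  MvPolynomial.aeval fun i => if h : i = i0 then 0 else MvPolynomial.X ⟨i, h⟩

omit [Fintype δ] in
theorem dvd_sub_kil (i0 : δ) (G : MvPolynomial δ ℂ) :
    MvPolynomial.X i0 ∣ G - MvPolynomial.rename Subtype.val (kil i0 G) := by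
  induction G using MvPolynomial.induction_on with
  | C a => simp [kil]
  | add p q hp hq =>
    rw [map_add, map_add, add_sub_add_comm]
    exact dvd_add hp hq
  | mul_X p i hp =>
    rw [map_mul, map_mul]
    by_cases h : i = i0
    · simp [kil, h]
    · have : MvPolynomial.rename Subtype.val (kil i0 (MvPolynomial.X i)) = MvPolynomial.X i := by
        simp [kil, h]
      rw [this, ← sub_mul]
      exact hp.mul_right _

/-- a unit of the valuation ring is not zero on an open part of the divisor -/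
theorem Cht.At.exists_poly {C : Cht δ K} {P : ValuationSubring K} {i0 : δ} (hC : C.At P i0)
    {e : C.O} (he : ¬ C.z i0 ∣ e) : ∃ g : MvPolynomial {i // i ≠ i0} ℂ, g ≠ 0 ∧
      ∀ c : Pt C.O, c (C.z i0) = 0 →
      MvPolynomial.eval (fun i => C.D.π c i.1) g ≠ 0 → c e ≠ 0 := by
  obtain ⟨G, t, hG, h⟩ := C.exists_dvd (h := e) (by rintro rfl; exact he (dvd_zero _))
  obtain ⟨k, G, h1, rfl⟩ := WfDvdMonoid.max_power_factor hG (MvPolynomial.X_prime (i := i0)).irreducible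
  rw [map_mul, map_pow, MvPolynomial.aeval_X] at h
  obtain ⟨t, rfl⟩ := hC.prime.pow_dvd_of_dvd_mul_left k he ⟨_, h⟩
  rw [mul_left_comm] at h
  have h2 := mul_left_cancel₀ (pow_ne_zero k hC.prime.ne_zero) h
  obtain ⟨s, hs⟩ := dvd_sub_kil i0 G
  refine ⟨kil i0 G, fun h0 => h1 ⟨s, by simpa [h0] using hs⟩, fun c hc hg h0 => hg ?_⟩
  have h3 := C.apply_aeval c G
  rw [← h2, map_mul, h0, zero_mul, sub_eq_iff_eq_add.1 hs, map_add, map_mul, MvPolynomial.eval_X,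
    C.π_eq, hc, zero_mul, zero_add, MvPolynomial.eval_rename] at h3
  exact h3.symm

variable {A A' : Subalgebra ℂ K}

theorem Tr.inLoc [Algebra.FiniteType ℂ A] (τ : Tr A A') : InLoc A' A τ.h := fun φ hφ => by
  let I : Ideal A :=
    { carrier := {b | ∃ a : A, φ * b = a}
      add_mem' := fun ⟨a, e⟩ ⟨a', e'⟩ => ⟨a + a', by push_cast; rw [mul_add, e, e']⟩
      zero_mem' := ⟨0, by simp⟩
      smul_mem' := fun c b ⟨a, e⟩ => ⟨c * a, by
        rw [smul_eq_mul, MulMemClass.coe_mul, MulMemClass.coe_mul, mul_left_comm, e]⟩ }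
  by_contra hn
  obtain ⟨p, h1, h2⟩ := Pt.exists_zero_ne (I := I) (h := τ.h) fun ⟨k, a, e⟩ => hn ⟨k, a, e⟩
  obtain ⟨a, b, hb, e⟩ := ((τ.same p h2).1 φ).1.2 ((τ.map p).reg_of_mem hφ)
  exact hb (h1 b ⟨a, e⟩)

/-- elements of a ring that is glued along the divisor have no denominator -/
theorem Cht.At.exists_zpow_of_mem (hC : C.At P i0) (τ : Tr C.O A') (hτ : τ.h = C.z i0) {φ : K}
    (h0 : φ ≠ 0) (hφ : φ ∈ A') :
    ∃ (k : ℤ) (a : C.O), ¬ C.z i0 ∣ a ∧ φ = (C.z i0 : K) ^ k * a := by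
  obtain ⟨m, a, e⟩ := τ.inLoc φ hφ
  have hz : (C.z i0 : K) ≠ 0 := hC.ad.ne
  rw [hτ] at e
  push_cast at e
  have ha : a ≠ 0 := by
    rintro rfl
    exact mul_ne_zero h0 (pow_ne_zero m hz) e
  obtain ⟨n, a, h1, rfl⟩ := hC.exists_pow ha
  refine ⟨n - m, a, h1, ?_⟩
  push_cast at e
  rw [zpow_sub₀ hz, zpow_natCast, zpow_natCast, div_mul_eq_mul_div, ← e]
  field_simp

end one

section two
variable {δ ν K M : Type} [Fintype δ] [DecidableEq δ] [Fintype ν] [DecidableEq ν]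
  [Field K] [Algebra ℂ K] [Field M] [Algebra ℂ M] [Algebra K M] [IsScalarTower ℂ K M]

/-- the prime divisors below the vertical primes -/
theorem exists_vset' {y : δ → K} {x : ν → M} (hy : IsTranscendenceBasis ℂ y)
    (hx : IsTranscendenceBasis K x) {Pr : Set (ValuationSubring M)}
    (hd : ∀ O ∈ Pr, IsDivisorial ℂ M O) (hf : ∀ g : M, {O ∈ Pr | g ∉ O}.Finite) :
    ∃ V : Set (ValuationSubring K), (∀ v ∈ V, IsDivisorial ℂ K v) ∧
      (∀ g : K, {v ∈ V | g ∉ v}.Finite) ∧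
      ∀ O ∈ Pr, (¬ ∀ c : K, algebraMap K M c ∈ O) → O.comap (algebraMap K M) ∈ V := by
  refine ⟨(fun O => O.comap (algebraMap K M)) '' {O ∈ Pr | ¬ ∀ c : K, algebraMap K M c ∈ O}, ?_,
    fun g => ((hf (algebraMap K M g)).image fun O => O.comap (algebraMap K M)).subset ?_,
    fun O h1 h2 => ⟨O, ⟨h1, h2⟩, rfl⟩⟩
  · rintro _ ⟨O, ⟨h1, h2⟩, rfl⟩
    exact (divisorial_vertical hy hx (hd O h1) h2).1
  · rintro _ ⟨⟨O, ⟨h1, -⟩, rfl⟩, h3⟩
    exact ⟨O, ⟨h1, h3⟩, rfl⟩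

omit [IsScalarTower ℂ K M] in
/-- values of functions from the base -/
theorem Pt.ev_res {A : Subalgebra ℂ K} {A' : Subalgebra ℂ M} (inc : A →ₐ[ℂ] A')
    (hi : ∀ a, (inc a : M) = algebraMap K M a) (p : Pt A') {φ : K} (h : (p.res inc).Reg φ) :
    p.Reg (algebraMap K M φ) ∧ p.ev (algebraMap K M φ) = (p.res inc).ev φ := by
  obtain ⟨a, b, hb, e⟩ := h
  have e' : algebraMap K M φ * inc b = inc a := by rw [hi, hi, ← map_mul, e]
  exact ⟨⟨_, _, hb, e'⟩, by rw [p.ev_eq hb e', (p.res inc).ev_eq hb e]; rfl⟩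

omit [IsScalarTower ℂ K M] in
/-- points of the divisor below lift to the divisor above -/
theorem Cht.At.exists_lift {κ : Type} [Fintype κ] [DecidableEq κ] {C : Cht δ K} {X : Cht κ M}
    {O : ValuationSubring M} {i0 : δ} {j0 : κ} (hC : C.At (O.comap (algebraMap K M)) i0)
    (hX : X.At O j0) (inc : C.O →ₐ[ℂ] X.O) (hi : ∀ a, (inc a : M) = algebraMap K M a) :
    ∃ e : C.O, ¬ C.z i0 ∣ e ∧ ∀ c0 : Pt C.O, c0 (C.z i0) = 0 → c0 e ≠ 0 →
      ∃ p0 : Pt X.O, p0 (X.z j0) = 0 ∧ p0.res inc = c0 := by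
  have key : ∀ a, X.z j0 ∣ inc a ↔ C.z i0 ∣ a := fun a => by
    rw [hX.dvd_iff, hC.dvd_iff, hi, (comap_isEquiv (L := K) O).lt_one_iff_lt_one]
    rfl
  have h1 := (Ideal.span_singleton_prime hC.prime.ne_zero).2 hC.prime
  have h2 := (Ideal.span_singleton_prime hX.prime.ne_zero).2 hX.prime
  have hle : Ideal.span {C.z i0} ≤ (Ideal.span {X.z j0}).comap inc := fun a ha =>
    Ideal.mem_span_singleton.2 ((key a).2 (Ideal.mem_span_singleton.1 ha))
  let f := Ideal.quotientMapₐ (Ideal.span {X.z j0}) inc hle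
  have hf : Function.Injective f := Ideal.quotientMap_injective' (H := hle) fun a ha =>
    Ideal.mem_span_singleton.2 ((key a).1 (Ideal.mem_span_singleton.1 ha))
  obtain ⟨e, he, H⟩ := Pt.exists_lift f hf (h := 1) one_ne_zero
  obtain ⟨e, rfl⟩ := Ideal.Quotient.mk_surjective e
  refine ⟨e, fun h => he (Ideal.Quotient.eq_zero_iff_mem.2 (Ideal.mem_span_singleton.2 h)),
    fun c0 h0 hne => ?_⟩
  let b : Pt (C.O ⧸ Ideal.span {C.z i0}) := Pt.mk (Ideal.Quotient.liftₐ _ c0.hom fun a ha => by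
    obtain ⟨t, rfl⟩ := Ideal.mem_span_singleton.1 ha
    rw [map_mul, Pt.hom_apply, h0, zero_mul])
  obtain ⟨p, hp, -⟩ := H b hne
  refine ⟨p.res (Ideal.Quotient.mkₐ ℂ _), ?_, Pt.ext fun a => ?_⟩
  · rw [Pt.res_apply, Ideal.Quotient.mkₐ_eq_mk,
      Ideal.Quotient.eq_zero_iff_mem.2 (Ideal.mem_span_singleton_self _), map_zero]
  · exact DFunLike.congr_fun hp (Ideal.Quotient.mk _ a)

end two

end Pool.Agent.Lib.MP_5c318e_ag
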