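import Pool.Agent.Lib.MP_5c318e_ag.S.PBas
import Pool.Agent.Lib.MP_5c318e_ag.S.RArea
import Pool.Agent.Lib.MP_5c318e_ag.A.NF
import Pool.Agent.Lib.MP_5c318e_ag.Wron

/-! Independent functions stay independent on every open piece of a general fibre. -/

set_option autoImplicit false
set_option linter.unusedSectionVars false

namespace Pool.Agent.Lib.MP_5c318e_ag

open MeasureTheory Set Filter Topology

variable {δ ν K M : Type} [Fintype δ] [DecidableEq δ] [Fintype ν] [DecidableEq ν]
  [Field K] [Algebra ℂ K] [Field M] [Algebra ℂ M] [Algebra K M] [IsScalarTower ℂ K M]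
  {B : Cht δ K}

/-- the constants of the fibre derivations are algebraic over the base -/
theorem wr_const (T : Rel B ν M) {y : M} (hy : ∀ i, T.dx i y = 0) : IsAlgebraic K y := by
  have : CharZero K := charZero_of_injective_algebraMap (algebraMap ℂ K).injective
  by_contra ht
  have hi : AlgebraicIndependent K fun _ : Unit => y :=
    algebraicIndependent_unique_type_iff.2 ht
  obtain ⟨d, hd⟩ := der_exists hi fun _ => 1
  have e : d.restrictScalars ℂ = ∑ i, d (T.X.z (Sum.inr i)) • T.X.der (Sum.inr i) := by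
    refine der_ext_basis T.X.basis _ _ fun j => ?_
    rw [der_sum_apply]
    simp only [Derivation.smul_apply, T.X.der_z, smul_eq_mul]
    rcases j with j | j
    · rw [T.zy, T.inc_eq]
      simp
    · simp
  have h1 := congrArg (fun D : Derivation ℂ M M => D y) e
  simp only [der_sum_apply, Derivation.smul_apply, ← T.dx_eq, hy,
    smul_zero, Finset.sum_const_zero] at h1
  exact one_ne_zero ((hd ()).symm.trans h1)

/-- words in the fibre derivations, inside the chart -/
def wr_word (T : Rel B ν M) (β : List ν) (φ : T.X.O) : T.X.O :=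
  ⟨word T.dx β φ, word_mem T.dx (S := (T.X.O : Set M))
    (fun i y hy => by rw [T.dx_eq]; exact T.X.der_mem _ y hy) β φ.2⟩

theorem wr_elim (T : Rel B ν M) (hc : ∀ x : M, IsAlgebraic K x → x ∈ Set.range (algebraMap K M))
    {r : Type} [Fintype r] [DecidableEq r] {τ : r → T.X.O}
    (hτ : LinearIndependent K fun i => (τ i : M)) :
    ∃ (h : T.X.O) (s : Finset (List ν)) (c : r → List ν → T.X.O), h ≠ 0 ∧
      ∀ j l, ∑ β ∈ s, c j β * wr_word T β (τ l) = if l = j then h else 0 := by
  classical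
  obtain ⟨s, lam, -, H⟩ := wron T.dx ⊤ (fun _ _ _ => trivial) (fun i => (τ i : M))
    (fun _ => trivial) fun k _ hk h0 j => by
      choose a ha using fun j => hc (k j) (wr_const T (hk j))
      have := Fintype.linearIndependent_iff.1 hτ a (by simpa only [Algebra.smul_def, ha] using h0) j
      rw [← ha, this, map_zero]
  obtain ⟨h, h0, hh⟩ := exists_den T.X.frac ((Finset.univ ×ˢ s).image fun p => lam p.1 p.2)
  have hh' : ∀ j β, ∃ a : T.X.O, β ∈ s → lam j β * h = a := fun j β => by
    by_cases hβ : β ∈ s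
    · obtain ⟨a, ha⟩ := hh _ (Finset.mem_image.2 ⟨(j, β), by simp [hβ], rfl⟩)
      exact ⟨a, fun _ => ha⟩
    · exact ⟨0, fun h => absurd h hβ⟩
  choose c hc' using hh'
  refine ⟨h, s, c, h0, fun j l => Subtype.ext ?_⟩
  have e := H (fun i => if i = l then 1 else 0) (fun j i => by split_ifs <;> simp) j
  simp only [ite_mul, one_mul, zero_mul, Finset.sum_ite_eq', Finset.mem_univ, if_true] at e
  have e2 : ((∑ β ∈ s, c j β * wr_word T β (τ l) : T.X.O) : M) =
      (∑ β ∈ s, lam j β * word T.dx β (τ l)) * h := by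
    rw [AddSubmonoidClass.coe_finsetSum, Finset.sum_mul]
    refine Finset.sum_congr rfl fun β hβ => ?_
    rw [MulMemClass.coe_mul, ← hc' j β hβ]
    change _ * word T.dx β (τ l) = _
    ring
  rw [e2, ← e]
  by_cases hl : l = j
  · simp [hl]
  · simp [hl, Ne.symm hl]

theorem wr_step (T : Rel B ν M) {b : Pt B.O} {U : Set (T.Fib b)} (hU : IsOpen U) {r : Type}
    [Fintype r] {τ : r → T.X.O} {a : r → ℂ} (h : ∀ p ∈ U, ∑ i, a i * p.1 (τ i) = 0) (β : List ν) :
    ∀ p ∈ U, ∑ i, a i * p.1 (wr_word T β (τ i)) = 0 := by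
  induction β with
  | nil => exact h
  | cons j β ih =>
    intro p hp
    have e : (fun q : T.Fib b => ∑ i, a i * q.1 (wr_word T β (τ i))) =ᶠ[𝓝 p] fun _ => 0 :=
      (hU.mem_nhds hp : _)|> fun hm => mem_of_superset hm ih
    have e1 := (RD.ev_sec (D := T.fib b) e).fderiv_eq (𝕜 := ℂ)
    have e2 : HasFDerivAt (fun w => ∑ i, a i * ((T.fib b).sec p w).1 (wr_word T β (τ i)))
        (∑ i, a i • (T.fib b).fd (fun q => q.1 (wr_word T β (τ i))) p) ((T.fib b).π p) :=
      HasFDerivAt.fun_sum fun i _ => ((T.fib_hol b (wr_word T β (τ i)) p).hasFDerivAt).const_mul (a i)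
    rw [e2.fderiv, fderiv_fun_const] at e1
    have e3 := congrArg (fun L : (ν → ℂ) →L[ℂ] ℂ => L (Pi.single j 1)) e1
    simp only [_root_.sum_apply, _root_.smul_apply, T.fib_fd,
      smul_eq_mul, Pi.zero_apply, _root_.zero_apply] at e3
    rw [← e3]
    refine Finset.sum_congr rfl fun i _ => ?_
    congr 2
    exact Subtype.ext (T.dx_eq j _)

theorem wr_gen_ne (T : Rel B ν M) {h : T.X.O} (h0 : h ≠ 0) :
    ∀ᶠ b in B.D.gen, ∀ᶠ p in (T.fib b).gen, p.1 h ≠ 0 := by
  obtain ⟨t, ht, ⟨c, hc⟩, c0, e⟩ := (T.X.basis.isAlgebraic.isAlgebraic (h : M)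
    ).exists_nonzero_eq_adjoin_mul (mem_nonZeroDivisors_of_ne_zero (by simpa using h0))
  have hle : Algebra.adjoin ℂ (range fun i => (T.X.z i : M)) ≤ T.X.O :=
    Algebra.adjoin_le (by rintro _ ⟨i, rfl⟩; exact (T.X.z i).2)
  have htO : t ∈ T.X.O := by
    clear e
    induction ht using Algebra.adjoin_induction with
    | mem x hx => exact hx ▸ h.2
    | algebraMap x => exact hle x.2
    | add x y _ _ hx hy => exact add_mem hx hy
    | mul x y _ _ hx hy => exact mul_mem hx hy
  obtain ⟨g, hg⟩ : ∃ g, MvPolynomial.aeval (fun i => (T.X.z i : M)) g = c := by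
    rwa [Algebra.adjoin_range_eq_range_aeval] at hc
  have g0 : g ≠ 0 := by
    rintro rfl
    exact c0 (Subtype.ext (hg.symm.trans (map_zero _)))
  have eO : h * ⟨t, htO⟩ = MvPolynomial.aeval T.X.z g := Subtype.ext (by
    refine (e.trans hg.symm).trans ?_
    exact (MvPolynomial.aeval_algebraMap_apply M T.X.z g))
  obtain ⟨a, ha⟩ : ∃ a, MvPolynomial.eval a g ≠ 0 := by
    by_contra hcon
    push Not at hcon
    exact g0 (MvPolynomial.funext fun a => by rw [hcon, map_zero])
  have ev : ∀ {κ : Type} (u : δ ⊕ ν → MvPolynomial κ ℂ) (w : κ → ℂ),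
      MvPolynomial.eval w (MvPolynomial.aeval u g) =
        MvPolynomial.eval (fun i => MvPolynomial.eval w (u i)) g := fun u w => by
    simpa only [MvPolynomial.aeval_eq_eval] using
      MvPolynomial.comp_aeval_apply u (MvPolynomial.aeval w : MvPolynomial _ ℂ →ₐ[ℂ] ℂ) g
  refine ⟨MvPolynomial.aeval (Sum.elim MvPolynomial.X fun i => MvPolynomial.C (a (Sum.inr i))) g,
    fun h1 => ha ?_, fun b hb => ⟨MvPolynomial.aeval
      (Sum.elim (fun i => MvPolynomial.C (B.D.π b i)) MvPolynomial.X) g, fun h1 => hb ?_,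
      fun p hp h1 => hp ?_⟩⟩
  · have := ev (Sum.elim MvPolynomial.X fun i => MvPolynomial.C (a (Sum.inr i)))
      fun i => a (Sum.inl i)
    rw [h1, map_zero] at this
    rw [this]
    congr 2
    funext i
    rcases i with i | i <;> simp
  · have := ev (Sum.elim (fun i => MvPolynomial.C (B.D.π b i)) MvPolynomial.X)
      fun i => a (Sum.inr i)
    rw [h1, map_zero] at this
    rw [this, ev]
    congr 2
    funext i
    rcases i with i | i <;> simp
  · have h2 : p.1 (MvPolynomial.aeval T.X.z g) = 0 := by rw [← eO, map_mul, h1, zero_mul]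
    rw [ev, ← h2]
    refine Eq.trans ?_ (MvPolynomial.comp_aeval_apply T.X.z p.1.hom g).symm
    rw [MvPolynomial.aeval_eq_eval]
    congr 2
    funext i
    rcases i with i | i
    · simp [B.π_eq, T.zy, ← p.2]
    · simp [T.fib_π]

theorem Rel.indep (T : Rel B ν M) (hc : ∀ x : M, IsAlgebraic K x → x ∈ Set.range (algebraMap K M))
    {r : Type} [Fintype r] {τ : r → T.X.O} (hτ : LinearIndependent K fun i => (τ i : M)) :
    ∀ᶠ b in B.D.gen, ∀ U : Set (T.Fib b), IsOpen U → U.Nonempty → ∀ a : r → ℂ,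
      (∀ p ∈ U, ∑ i, a i * p.1 (τ i) = 0) → a = 0 := by
  classical
  obtain ⟨h, s, c, h0, H⟩ := wr_elim T hc hτ
  filter_upwards [wr_gen_ne T h0] with b hb U hU hne a ha
  have := (T.fib b).openPos
  obtain ⟨p, hp, hph⟩ : ∃ p ∈ U, p.1 h ≠ 0 := by
    by_contra hcon
    push Not at hcon
    refine hU.measure_ne_zero (T.fib b).μ hne (measure_mono_null (fun p hp => ?_)
      ((T.fib b).ae_of_gen hb))
    exact fun h1 => h1 (hcon p hp)
  funext j
  have e : ∑ l, a l * p.1 (∑ β ∈ s, c j β * wr_word T β (τ l)) = 0 := by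
    simp only [map_sum, map_mul, Finset.mul_sum]
    rw [Finset.sum_comm]
    refine Finset.sum_eq_zero fun β _ => ?_
    have := congrArg (fun t => p.1 (c j β) * t) (wr_step T hU ha β p hp)
    simp only [Finset.mul_sum, mul_zero] at this
    rw [← this]
    exact Finset.sum_congr rfl fun l _ => by ring
  simp only [H, apply_ite p.1, map_zero, mul_ite, mul_zero, Finset.sum_ite_eq', Finset.mem_univ,
    if_true] at e
  exact (mul_eq_zero.1 e).resolve_right hph

end Pool.Agent.Lib.MP_5c318e_ag
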