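import Pool.Agent.Lib.MP_5c318e_ag.S.ADefs
import Pool.Agent.Lib.MP_5c318e_ag.A.Plu
import Pool.Agent.Lib.MP_5c318e_ag.Cover
import Pool.Agent.Lib.MP_5c318e_ag.Ht1

/-! The regular forms of a fixed weight on a complete model form a finite dimensional space. -/

set_option autoImplicit false

namespace Pool.Agent.Lib.MP_5c318e_ag

open Set
open scoped NNReal

section Om

variable {Om ι : Type} [Field Om] {k0 : Subfield Om} {s : ι → Om}

/-- integral elements: no pole at the finite primes, a bounded pole at infinity -/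
def BdR (k0 : Subfield Om) (s : ι → Om) : Subring Om where
  carrier := {r | (∀ v, PV k0 s v → v r ≤ 1) ∧ ∃ c : ℝ≥0, ∀ v, DV k0 s v → v r ≤ c}
  mul_mem' := fun ⟨h1, c, h2⟩ ⟨h3, e, h4⟩ => ⟨fun v hv => by
    rw [map_mul]; exact mul_le_one' (h1 v hv) (h3 v hv), c * e, fun v hv => by
    rw [map_mul]; exact mul_le_mul' (h2 v hv) (h4 v hv)⟩
  one_mem' := ⟨fun v _ => v.map_one.le, 1, fun v _ => v.map_one.le⟩
  add_mem' := fun ⟨h1, c, h2⟩ ⟨h3, e, h4⟩ => ⟨fun v hv => v.map_add_le (h1 v hv) (h3 v hv),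
    max c e, fun v hv => v.map_add_le ((h2 v hv).trans (le_max_left _ _))
      ((h4 v hv).trans (le_max_right _ _))⟩
  zero_mem' := ⟨fun v _ => by simp, 0, fun v _ => by simp⟩
  neg_mem' := fun ⟨h1, c, h2⟩ => ⟨fun v hv => by rw [v.map_neg]; exact h1 v hv, c, fun v hv => by
    rw [v.map_neg]; exact h2 v hv⟩

theorem aeval_mem_BdR (p : MvPolynomial ι k0) : MvPolynomial.aeval s p ∈ BdR k0 s := by
  refine ⟨fun v ⟨Q, _, h1, h2⟩ => (prime_val_iff
    (MvPolynomial.aeval s : MvPolynomial ι k0 →ₐ[k0] Om).toRingHom v h1 h2 p).1,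
    (Real.exp p.totalDegree).toNNReal, fun v hv => ?_⟩
  by_cases hp : p = 0
  · simp [hp]
  · rw [← hv p hp, Real.toNNReal_coe]

theorem closure_le_BdR : Subring.closure ((k0 : Set Om) ∪ range s) ≤ BdR k0 s := by
  refine Subring.closure_le.2 ?_
  rintro a (ha | ⟨i, rfl⟩)
  · have := aeval_mem_BdR (s := s) (MvPolynomial.C (⟨a, ha⟩ : k0))
    rwa [MvPolynomial.aeval_C] at this
  · simpa using aeval_mem_BdR (s := s) (k0 := k0) (MvPolynomial.X i)

theorem exists_mul_BdR {u : Om} (hu : IsAlgebraic (Subfield.closure ((k0 : Set Om) ∪ range s)) u) :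
    ∃ r ∈ Subring.closure ((k0 : Set Om) ∪ range s), r ≠ 0 ∧ r * u ∈ BdR k0 s := by
  obtain ⟨P, h0, h1, h2⟩ := Ht1_rel _ hu
  choose c hc using fun i => (closure_le_BdR (h1 i)).2
  refine ⟨P.leadingCoeff, h1 _, Polynomial.leadingCoeff_ne_zero.2 h0,
    fun v hv => Cover_lc v P 1 (fun i => (closure_le_BdR (h1 i)).1 v hv) u h2,
    ∑ i ∈ P.support, c i, fun v hv => Cover_lc v P _ (fun i => ?_) u h2⟩
  by_cases hi : i ∈ P.support
  · exact (hc i v hv).trans (Finset.single_le_sum (fun _ _ => zero_le) hi)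
  · simp [Polynomial.notMem_support_iff.1 hi]

theorem DV.const {v : Valuation Om ℝ≥0} (hv : DV k0 s v) {a : Om} (ha : a ∈ k0) : v a ≤ 1 := by
  by_cases h0 : a = 0
  · simp [h0]
  have h1 := hv (MvPolynomial.C ⟨a, ha⟩)
    fun h => h0 (congrArg Subtype.val (MvPolynomial.C_eq_zero.1 h))
  rw [MvPolynomial.totalDegree_C, Nat.cast_zero, Real.exp_zero, MvPolynomial.aeval_C] at h1
  exact (NNReal.coe_eq_one.mp h1).le

end Om

variable {k F ι : Type} [Field k] [CharZero k] [Field F] [Algebra k F] [Fintype ι] [DecidableEq ι]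
  {z : ι → F} {d : ι → Derivation k F F}

theorem Frames.finite (hd : Dual k z d) (hfg : (⊤ : IntermediateField k F).FG) (Fr : Frames d)
    (m : ℕ) (E : Submodule k F) (hE : ∀ φ ∈ E, Plu d m φ) : FiniteDimensional k E := by
  let Om := AlgebraicClosure F
  let ψ : F →+* Om := algebraMap F Om
  have : CharZero F := charZero_of_injective_algebraMap (algebraMap k F).injective
  have : CharZero Om := charZero_of_injective_algebraMap ψ.injective
  let s : ι → Om := fun j => ψ (z j)
  have hb : IsTranscendenceBasis k s := hd.basis.algebraMap_comp (A := Om)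
  have halg := alg_of_basis hb
  have hk : ∀ a : k, ψ (algebraMap k F a) = algebraMap k Om a := fun a =>
    (IsScalarTower.algebraMap_apply k F Om a).symm
  have hN : kR k Om ≤ ψ.fieldRange := by
    rintro _ ⟨a, rfl⟩
    exact ⟨_, hk a⟩
  set K0 := Subfield.closure ((kR k Om : Set Om) ∪ range s) with hK0
  have hKN : K0 ≤ ψ.fieldRange := Subfield.closure_le.2 (union_subset hN (by
    rintro _ ⟨j, rfl⟩
    exact ⟨_, rfl⟩))
  have hRK : ∀ r ∈ Subring.closure ((kR k Om : Set Om) ∪ range s), r ∈ K0 := fun r hr =>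
    Subfield.subring_closure_le _ hr
  obtain ⟨S, hS⟩ := hfg
  let M := IntermediateField.adjoin K0 (ψ '' S)
  have : Finite (ψ '' S) := (S.finite_toSet.image ψ).to_subtype
  have : FiniteDimensional K0 M :=
    IntermediateField.finiteDimensional_adjoin fun y _ => (halg y).isIntegral
  obtain ⟨θ, hθ⟩ := Field.exists_primitive_element K0 M
  have h1 : M = IntermediateField.adjoin K0 {(θ : Om)} := by
    have := congrArg (IntermediateField.map M.val) hθ
    rw [IntermediateField.adjoin_map, Set.image_singleton, ← AlgHom.fieldRange_eq_map,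
      IntermediateField.fieldRange_val] at this
    exact this.symm
  have hMN : ∀ y ∈ M, y ∈ ψ.fieldRange := fun y hy => by
    have h2 : M.toSubfield ≤ ψ.fieldRange := by
      rw [← closure_eq_adjoin]
      exact Subfield.closure_le.2 (union_subset hKN (by
        rintro _ ⟨a, -, rfl⟩
        exact ⟨a, rfl⟩))
    exact h2 hy
  have hNM : ∀ x : F, ψ x ∈ M := fun x => by
    have h2 : Subfield.closure ((kR k F : Set F) ∪ S) ≤ M.toSubfield.comap ψ := by
      refine Subfield.closure_le.2 ?_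
      rintro a (⟨b, rfl⟩ | ha)
      · exact M.algebraMap_mem (⟨_, Subfield.subset_closure (Or.inl ⟨b, (hk b).symm⟩)⟩ : K0)
      · exact IntermediateField.subset_adjoin _ _ ⟨a, ha, rfl⟩
    rw [closure_kR, hS] at h2
    exact h2 trivial
  obtain ⟨r0, hr0, h0, ht1, c0, ht2⟩ := exists_mul_BdR (halg θ)
  choose r hr hr1 hr2 using fun i => exists_mul_BdR (halg (ψ (Jac d (Fr.f i))))
  let ρ := ∏ i, r i
  have hρ : ∀ i, ρ * ψ (Jac d (Fr.f i)) ∈ BdR (kR k Om) s := fun i => by
    rw [show ρ = _ from (Finset.prod_erase_mul _ _ (Finset.mem_univ i)).symm, mul_assoc]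
    exact mul_mem (prod_mem fun j _ => closure_le_BdR (hr j)) (hr2 i)
  choose c hc using fun i => (hρ i).2
  have hfin := FinV_fin (indep_kR_iff.2 hb.1) halg (r0 * θ) ψ.fieldRange hN (by
      rintro _ ⟨x, rfl⟩
      refine (IntermediateField.adjoin_simple_le_iff (K := IntermediateField.adjoin K0 {r0 * θ})).2
        ?_ (h1 ▸ hNM x)
      have h2 : r0⁻¹ * (r0 * θ) ∈ IntermediateField.adjoin K0 {r0 * θ} :=
        mul_mem (inv_mem ((IntermediateField.adjoin K0 {r0 * θ}).algebraMap_mem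
          ⟨r0, hRK _ hr0⟩)) (IntermediateField.mem_adjoin_simple_self K0 (r0 * θ))
      rwa [inv_mul_cancel_left₀ h0] at h2)
    (1 + c0 + ∑ i, c i ^ m) (le_add_right (le_add_right le_rfl))
    ⟨mul_mem (hKN (hRK _ hr0)) (hMN _ θ.2), ht1,
      fun v hv => (ht2 v hv).trans (le_add_right (le_add_left le_rfl))⟩
  obtain ⟨T, hT⟩ := (Submodule.fg_iff_finiteDimensional _).2 hfin
  have key : ∀ φ ∈ E, ∀ v : Valuation Om ℝ≥0, (∀ a ∈ kR k Om, v a ≤ 1) →
      ∃ i, v (ρ ^ m * ψ φ) ≤ v (ρ * ψ (Jac d (Fr.f i))) ^ m := fun φ hφ v hv => by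
    obtain ⟨i, hi⟩ := Fr.cover (v.comap ψ).valuationSubring fun a => hv _ ⟨a, (hk a).symm⟩
    have h2 : v (ψ (φ / Jac d (Fr.f i) ^ m)) ≤ 1 := hi _ (Fr.reg i m φ (hE φ hφ))
    refine ⟨i, ?_⟩
    rw [← div_mul_cancel₀ φ (pow_ne_zero m (Fr.ne i)), map_mul ψ, mul_left_comm, map_pow ψ,
      ← mul_pow, map_mul, map_pow]
    exact mul_le_of_le_one_left' h2
  let L : E →ₗ[k] Om := (LinearMap.mulLeft k (ρ ^ m)).comp
    ((IsScalarTower.toAlgHom k F Om).toLinearMap.comp E.subtype)
  have hL : ∀ φ : E, L φ ∈ Submodule.span k (T : Set Om) := fun φ => by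
    have h2 : L φ ∈ Submodule.span (kR k Om) (T : Set Om) := by
      rw [hT]
      refine ⟨mul_mem (pow_mem (hKN (prod_mem fun i _ => hRK _ (hr i))) m) ⟨φ, rfl⟩,
        fun v hv => ?_, fun v hv => ?_⟩
      · obtain ⟨i, hi⟩ := key φ φ.2 v fun a ha =>
          (closure_le_BdR (s := s) (Subring.subset_closure (Or.inl ha))).1 v hv
        exact hi.trans (pow_le_one' ((hρ i).1 v hv) m)
      · obtain ⟨i, hi⟩ := key φ φ.2 v fun a ha => hv.const ha
        exact (hi.trans (pow_le_pow_left' (hc i v hv) m)).trans (le_add_left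
          (Finset.single_le_sum (f := fun i => c i ^ m) (fun _ _ => zero_le) (Finset.mem_univ i)))
    generalize L φ = w at h2
    induction h2 using Submodule.span_induction with
    | mem a ha => exact Submodule.subset_span ha
    | zero => exact zero_mem _
    | add a b _ _ ha hb => exact add_mem ha hb
    | smul a b _ hb =>
      obtain ⟨_, a, rfl⟩ := a
      have := Submodule.smul_mem _ a hb
      rwa [Algebra.smul_def] at this
  refine FiniteDimensional.of_injective (L.codRestrict _ hL) fun a b h => Subtype.ext ?_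
  exact ψ.injective (mul_left_cancel₀ (pow_ne_zero m (Finset.prod_ne_zero_iff.2 fun i _ => hr1 i))
    (congrArg Subtype.val h))

end Pool.Agent.Lib.MP_5c318e_ag
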