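import Pool.Agent.Lib.MP_5c318e_ag.S.Low
import Pool.Agent.Lib.MP_5c318e_ag.S.Front
import Pool.Agent.Lib.MP_5c318e_ag.N.Auer

/-! Upper bounds of moderate size for the mass of a frame and for the determinant line. -/

set_option autoImplicit false

namespace Pool.Agent.Lib.MP_5c318e_ag

open MeasureTheory
open scoped ENNReal

variable {δ ν K M : Type} [Fintype δ] [DecidableEq δ] [Fintype ν] [DecidableEq ν]
  [Field K] [Algebra ℂ K] [Field M] [Algebra ℂ M] [Algebra K M] [IsScalarTower ℂ K M]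
  {B : Cht δ K}

theorem Fam.up_B (T : Fam B ν M) (Fr : Frames T.dx) {m : ℕ} (hm : 0 < m) {r : Type} [Fintype r]
    {τ : r → T.X.O} (hτ : ∀ i, Plu T.dx m (τ i : M)) :
    B.D.Mod fun b => N.nB (T.fib b).μ (fun p i => p.1 (τ i)) (2 / m) := by
  classical
  have hp : (0 : ℝ) < 2 / m := by positivity
  refine (RD.Mod.sum Finset.univ fun i _ => T.front Fr hm (hτ i)).mono' fun b =>
    (N.nB_le_sum (T.measurable_fr τ b) hp).trans (Finset.sum_le_sum fun i _ => le_of_eq ?_)
  refine lintegral_congr fun p => ?_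
  rw [single_dotProduct, one_mul, Pt.ev_coe, ← ofReal_norm,
    ENNReal.ofReal_rpow_of_nonneg (norm_nonneg _) hp.le]

theorem Fam.up_D (T : Fam B ν M) (Fr : Frames T.dx) {m : ℕ} (hm : 0 < m) {r : ℕ}
    {τ : Fin r → T.X.O} (hτ : ∀ i, Plu T.dx m (τ i : M)) :
    B.D.Mod fun b => N.nD (T.fib b).μ (fun p i => p.1 (τ i)) (2 / m) := by
  have hp : (0 : ℝ) ≤ 2 / m := by positivity
  refine ((RD.Mod.const (ENNReal.rpow_ne_top_of_nonneg hp (ENNReal.natCast_ne_top r.factorial))).mul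
    ((T.up_B Fr hm hτ).pow r)).mono' fun b => ?_
  have := T.sigmaFinite_fib b
  exact N.nD_le (T.measurable_fr τ b) hp

end Pool.Agent.Lib.MP_5c318e_ag
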