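import Pool.Agent.Lib.MP_5c318e_ag.S.RCov
import Pool.Agent.Lib.MP_5c318e_ag.S.RArea

/-! Calculus of functions of moderate growth; integration over finite coverings. -/

set_option autoImplicit false

namespace Pool.Agent.Lib.MP_5c318e_ag

open MeasureTheory Set Filter Topology MvPolynomial

noncomputable section

variable {ι : Type} [Fintype ι]

/-- the size function in the definition of moderate growth -/
def msz (g : MvPolynomial ι ℂ) (z : ι → ℂ) : ℝ := (1 + ‖z‖) / ‖eval z g‖ + (1 + ‖z‖)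

theorem msz_ge (g : MvPolynomial ι ℂ) (z : ι → ℂ) : 1 + ‖z‖ ≤ msz g z :=
  le_add_of_nonneg_left (by positivity)

theorem one_le_msz (g : MvPolynomial ι ℂ) (z : ι → ℂ) : 1 ≤ msz g z :=
  (le_add_of_nonneg_right (norm_nonneg z)).trans (msz_ge g z)

theorem inv_le_msz (g : MvPolynomial ι ℂ) (z : ι → ℂ) : ‖eval z g‖⁻¹ ≤ msz g z := by
  refine le_trans ?_ (le_add_of_nonneg_right (by positivity))
  rw [div_eq_mul_inv]
  exact le_mul_of_one_le_left (by positivity) (le_add_of_nonneg_right (norm_nonneg z))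

theorem mv_growth (g : MvPolynomial ι ℂ) :
    ∃ (A : ℝ) (N : ℕ), 0 ≤ A ∧ ∀ z, ‖eval z g‖ ≤ A * (1 + ‖z‖) ^ N := by
  obtain ⟨A, N, hA, h⟩ := pl_mv g
  exact ⟨A, N, hA, fun z => (h _ (by simp) z z (by simp) (by simp)).1⟩

theorem msz_mul (g g' : MvPolynomial ι ℂ) : ∃ (A : ℝ) (N : ℕ), 1 ≤ A ∧
    ∀ z, eval z (g * g') ≠ 0 → msz g z ≤ A * msz (g * g') z ^ N := by
  obtain ⟨A, N, hA, h⟩ := mv_growth g'
  refine ⟨A + 1, N + 1, by linarith, fun z hz => ?_⟩
  have h1 := msz_ge (g * g') z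
  have h2 := one_le_msz (g * g') z
  have h3 : (1 + ‖z‖) / ‖eval z (g * g')‖ ≤ msz (g * g') z := le_add_of_nonneg_right (by positivity)
  rw [map_mul] at hz
  have h4 : (1 + ‖z‖) / ‖eval z g‖ = ‖eval z g'‖ * ((1 + ‖z‖) / ‖eval z (g * g')‖) := by
    have := norm_ne_zero_iff.2 (left_ne_zero_of_mul hz)
    have := norm_ne_zero_iff.2 (right_ne_zero_of_mul hz)
    rw [map_mul, norm_mul]; field_simp
  have h5 : ‖eval z g'‖ ≤ A * msz (g * g') z ^ N := (h z).trans (by gcongr)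
  have h6 : msz (g * g') z ≤ msz (g * g') z ^ (N + 1) := le_self_pow₀ h2 (by omega)
  calc msz g z = ‖eval z g'‖ * ((1 + ‖z‖) / ‖eval z (g * g')‖) + (1 + ‖z‖) := by rw [msz, h4]
    _ ≤ A * msz (g * g') z ^ N * msz (g * g') z + msz (g * g') z ^ (N + 1) := by
        gcongr; exact h1.trans h6
    _ = _ := by ring

theorem msz_contAt (g : MvPolynomial ι ℂ) {z : ι → ℂ} (hz : eval z g ≠ 0) :
    ContinuousAt (msz g) z :=
  ((continuousAt_const.add continuous_norm.continuousAt).div (mv_cont g).norm.continuousAt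
    (norm_ne_zero_iff.2 hz)).add (continuousAt_const.add continuous_norm.continuousAt)

variable {S : Type} [TopologicalSpace S] [MeasurableSpace S] {D : RD ι S} {u v : S → ENNReal}

namespace RD

theorem gen_of {g : MvPolynomial ι ℂ} (hg : g ≠ 0) : ∀ᶠ p in D.gen, eval (D.π p) g ≠ 0 :=
  ⟨g, hg, fun _ h => h⟩

namespace Mod

theorem nf (h : D.Mod u) : ∃ g : MvPolynomial ι ℂ, g ≠ 0 ∧ ∃ (A : ℝ) (N : ℕ), 1 ≤ A ∧
    ∀ p, eval (D.π p) g ≠ 0 → u p ≤ ENNReal.ofReal (A * msz g (D.π p) ^ N) := by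
  obtain ⟨g, hg, A, N, h⟩ := h
  refine ⟨g, hg, max A 1, N, le_max_right _ _, fun p hp => (h p hp).trans
    (ENNReal.ofReal_le_ofReal (mul_le_mul_of_nonneg_right (le_max_left _ _) ?_))⟩
  exact pow_nonneg (zero_le_one.trans (one_le_msz g _)) _

/-- the hypersurface can be enlarged -/
theorem nf_mul (h : D.Mod u) : ∃ g : MvPolynomial ι ℂ, g ≠ 0 ∧ ∀ g' : MvPolynomial ι ℂ,
    ∃ (A : ℝ) (N : ℕ), 1 ≤ A ∧ ∀ p, eval (D.π p) (g * g') ≠ 0 →
      u p ≤ ENNReal.ofReal (A * msz (g * g') (D.π p) ^ N) := by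
  obtain ⟨g, hg, A, N, hA, h⟩ := h.nf
  refine ⟨g, hg, fun g' => ?_⟩
  obtain ⟨A', N', hA', h'⟩ := msz_mul g g'
  refine ⟨A * A' ^ N, N' * N, one_le_mul_of_one_le_of_one_le hA (one_le_pow₀ hA'), fun p hp => ?_⟩
  have h1 : eval (D.π p) g ≠ 0 := by rw [map_mul] at hp; exact left_ne_zero_of_mul hp
  refine (h p h1).trans (ENNReal.ofReal_le_ofReal ?_)
  have h2 := one_le_msz g (D.π p)
  rw [mul_assoc, pow_mul, ← mul_pow]
  gcongr
  exact h' _ hp

theorem mono (h : D.Mod u) (hv : ∀ᶠ p in D.gen, v p ≤ u p) : D.Mod v := by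
  obtain ⟨g, hg, h⟩ := h.nf_mul
  obtain ⟨g', hg', h'⟩ := hv
  obtain ⟨A, N, -, h⟩ := h g'
  refine ⟨g * g', mul_ne_zero hg hg', A, N, fun p hp => le_trans (h' p ?_) (h p hp)⟩
  rw [map_mul] at hp; exact right_ne_zero_of_mul hp

theorem mono' (h : D.Mod u) (hv : ∀ p, v p ≤ u p) : D.Mod v := h.mono (.of_forall hv)

theorem both (h : D.Mod u) (h' : D.Mod v) : ∃ g : MvPolynomial ι ℂ, g ≠ 0 ∧ ∃ (A : ℝ) (N : ℕ),
    1 ≤ A ∧ ∀ p, eval (D.π p) g ≠ 0 → u p ≤ ENNReal.ofReal (A * msz g (D.π p) ^ N) ∧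
      v p ≤ ENNReal.ofReal (A * msz g (D.π p) ^ N) := by
  obtain ⟨g, hg, h⟩ := h.nf_mul
  obtain ⟨g', hg', h'⟩ := h'.nf_mul
  obtain ⟨A, N, hA, h⟩ := h g'
  obtain ⟨A', N', hA', h'⟩ := h' g
  rw [mul_comm g' g] at h'
  refine ⟨g * g', mul_ne_zero hg hg', A * A', N + N', one_le_mul_of_one_le_of_one_le hA hA',
    fun p hp => ?_⟩
  have h2 := one_le_msz (g * g') (D.π p)
  constructor
  · refine (h p hp).trans (ENNReal.ofReal_le_ofReal ?_)
    gcongr
    · exact le_mul_of_one_le_right (by linarith) hA'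
    · omega
  · refine (h' p hp).trans (ENNReal.ofReal_le_ofReal ?_)
    gcongr
    · exact le_mul_of_one_le_left (by linarith) hA
    · omega

theorem const {c : ENNReal} (hc : c ≠ ⊤) : D.Mod fun _ => c :=
  ⟨1, one_ne_zero, c.toReal, 0, fun _ _ => by simp [hc]⟩

theorem add (h : D.Mod u) (h' : D.Mod v) : D.Mod fun p => u p + v p := by
  obtain ⟨g, hg, A, N, hA, h⟩ := h.both h'
  refine ⟨g, hg, 2 * A, N, fun p hp => (add_le_add (h p hp).1 (h p hp).2).trans (le_of_eq ?_)⟩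
  have h2 := one_le_msz g (D.π p)
  rw [← ENNReal.ofReal_add (by positivity) (by positivity)]
  congr 1
  rw [msz]; ring

theorem mul (h : D.Mod u) (h' : D.Mod v) : D.Mod fun p => u p * v p := by
  obtain ⟨g, hg, A, N, hA, h⟩ := h.both h'
  refine ⟨g, hg, A * A, N + N, fun p hp => (mul_le_mul' (h p hp).1 (h p hp).2).trans (le_of_eq ?_)⟩
  have h2 := one_le_msz g (D.π p)
  rw [← ENNReal.ofReal_mul (by positivity)]
  congr 1
  rw [msz]; ring

theorem pow (h : D.Mod u) (n : ℕ) : D.Mod fun p => u p ^ n := by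
  induction n with
  | zero => simpa using const ENNReal.one_ne_top
  | succ n ih => simpa only [pow_succ] using ih.mul h

theorem rpow (h : D.Mod u) {s : ℝ} (hs : 0 ≤ s) : D.Mod fun p => u p ^ s := by
  refine ((h.add (const ENNReal.one_ne_top)).pow ⌈s⌉₊).mono' fun p => ?_
  rw [← ENNReal.rpow_natCast]
  exact (ENNReal.rpow_le_rpow le_self_add hs).trans
    (ENNReal.rpow_le_rpow_of_exponent_le le_add_self (Nat.le_ceil s))

theorem sum {I : Type*} (s : Finset I) {w : I → S → ENNReal} (h : ∀ i ∈ s, D.Mod (w i)) :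
    D.Mod fun p => ∑ i ∈ s, w i p := by
  classical
  induction s using Finset.induction_on with
  | empty => simpa using const ENNReal.zero_ne_top
  | insert a s ha ih =>
    simpa only [Finset.sum_insert ha] using (h a (Finset.mem_insert_self _ _)).add
      (ih fun i hi => h i (Finset.mem_insert_of_mem hi))

theorem prod {I : Type*} (s : Finset I) {w : I → S → ENNReal} (h : ∀ i ∈ s, D.Mod (w i)) :
    D.Mod fun p => ∏ i ∈ s, w i p := by
  classical
  induction s using Finset.induction_on with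
  | empty => simpa using const ENNReal.one_ne_top
  | insert a s ha ih =>
    simpa only [Finset.prod_insert ha] using (h a (Finset.mem_insert_self _ _)).mul
      (ih fun i hi => h i (Finset.mem_insert_of_mem hi))

theorem ne_top (h : D.Mod u) : ∀ᶠ p in D.gen, u p ≠ ⊤ := by
  obtain ⟨g, hg, A, N, h⟩ := h
  exact ⟨g, hg, fun p hp => ne_top_of_le_ne_top ENNReal.ofReal_ne_top (h p hp)⟩

/-- bounded on compact sets off a hypersurface -/
theorem bdd (h : D.Mod u) : ∃ g : MvPolynomial ι ℂ, g ≠ 0 ∧ ∀ T : Set S, IsCompact T →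
    (∀ p ∈ T, eval (D.π p) g ≠ 0) → ∃ C : ℝ, 1 ≤ C ∧ ∀ p ∈ T, u p ≤ ENNReal.ofReal C := by
  obtain ⟨g, hg, A, N, hA, h⟩ := h.nf
  refine ⟨g, hg, fun T hT hne => ?_⟩
  have hc : ContinuousOn (fun p => A * msz g (D.π p) ^ N) T := fun p hp =>
    (continuousAt_const.mul (((msz_contAt g (hne p hp)).comp
      D.loc.continuous.continuousAt).pow N)).continuousWithinAt
  obtain ⟨C, hC⟩ := hT.bddAbove_image hc
  exact ⟨max C 1, le_max_right _ _, fun p hp => (h p (hne p hp)).trans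
    (ENNReal.ofReal_le_ofReal ((hC ⟨p, hp, rfl⟩).trans (le_max_left _ _)))⟩

end Mod

variable [DecidableEq ι] [BorelSpace S] [T2Space S] [SigmaCompactSpace S]

/-- integration along the fibres of the projection -/
theorem lint_fib (D : RD ι S) {G : S → ENNReal} (hG : Measurable G) :
    (Measurable fun z => ∑' p : D.π ⁻¹' {z}, G p) ∧
      ∫⁻ p, G p ∂D.μ = ∫⁻ z, ∑' p : D.π ⁻¹' {z}, G p := by
  obtain ⟨E, e1, e2, -⟩ := RD.exists_id (ι := ι)
  have hs : ∀ p, (fun z => E.π (D.π (D.sec p z))) =ᶠ[𝓝 (D.π p)] fun z => z := fun p => by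
    filter_upwards [RD.tgt_nhds (D.mem_tgt p)] with z hz
    rw [e1, id, RD.π_sec hz]
  have hJ : ∀ p, D.jac (fun p => E.π (D.π p)) p = 1 := fun p => by
    rw [RD.jac, RD.fd, (hs p).fderiv_eq, fderiv_fun_id]
    exact LinearMap.det_id
  have h := RArea.area D E isOpen_univ (τ := D.π) D.loc.continuous.continuousOn
    (fun p _ => differentiableAt_fun_id.congr_of_eventuallyEq (hs p)) hG
  have e : ∀ z, {p | p ∈ univ ∧ D.π p = z ∧ D.jac (fun p => E.π (D.π p)) p ≠ 0} = D.π ⁻¹' {z} :=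
    fun z => by ext p; simp [hJ]
  have e' : ∀ z, ∑' p : {p | p ∈ univ ∧ D.π p = z ∧ D.jac (fun p => E.π (D.π p)) p ≠ 0}, G p =
      ∑' p : D.π ⁻¹' {z}, G p := fun z => by rw [e z]
  simp only [e', hJ, norm_one, one_pow, ENNReal.ofReal_one, one_mul, Measure.restrict_univ,
    e2] at h
  exact h

theorem Cov.lint_le (C : D.Cov) {F : (ι → ℂ) → ENNReal} (hF : Measurable F) :
    ∫⁻ p, F (D.π p) ∂D.μ ≤ C.f.natDegree * ∫⁻ z, F z := by
  rw [(D.lint_fib (G := fun p => F (D.π p)) (hF.comp D.loc.continuous.measurable)).2,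
    ← lintegral_const_mul _ hF]
  refine lintegral_mono fun z => ?_
  have e : ∀ p : D.π ⁻¹' {z}, F (D.π p) = F z := fun p => congrArg F p.2
  simp only [e, ENNReal.tsum_const]
  refine mul_le_mul_left ?_ _
  have := C.card_le z
  rw [encard] at this
  exact_mod_cast ENat.toENNReal_le.2 this

end RD

end

end Pool.Agent.Lib.MP_5c318e_ag
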