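import Pool.Agent.Lib.MP_5c318e_ag.S.LowA
import Pool.Agent.Lib.MP_5c318e_ag.S.ModA
import Pool.Agent.Lib.MP_5c318e_ag.S.CCov
import Pool.Agent.Lib.MP_5c318e_ag.S.Wr
import Pool.Agent.Lib.MP_5c318e_ag.S.RSub
import Pool.Agent.Lib.MP_5c318e_ag.N.Det

/-! A lower bound of moderate size for the fibre integrals of a frame. -/

set_option autoImplicit false

namespace Pool.Agent.Lib.MP_5c318e_ag

open MeasureTheory Set Filter Topology Metric Matrix
open scoped ENNReal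

noncomputable section

variable {δ ν K M : Type} [Fintype δ] [DecidableEq δ] [Fintype ν] [DecidableEq ν]
  [Field K] [Algebra ℂ K] [Field M] [Algebra ℂ M] [Algebra K M] [IsScalarTower ℂ K M]
  {B : Cht δ K}

namespace Low

theorem gen_exists (c : Cht δ K) {P : Pt c.O → Prop} (h : ∀ᶠ b in c.D.gen, P b) : ∃ b, P b := by
  obtain ⟨g, hg, h⟩ := h
  have h0 : MvPolynomial.aeval c.z g ≠ 0 := fun e => hg (c.basis.1 (by
    rw [map_zero, MvPolynomial.aeval_algebraMap_apply K c.z g |>.trans (congrArg _ e) |>.trans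
      (map_zero _) |>.symm]
    rfl))
  obtain ⟨p, -, hp⟩ := Pt.exists_zero_ne (I := (⊥ : Ideal c.O)) (h := MvPolynomial.aeval c.z g)
    (by rwa [Ideal.radical_bot_of_isReduced, Ideal.mem_bot])
  exact ⟨p, h p (by rwa [← c.apply_aeval])⟩

theorem mod_pt (hB : Fini (Algebra.ofId ℂ B.O) B.z) (a : B.O) : B.D.Mod fun b => ‖b a‖ₑ := by
  simpa only [Pt.ev_coe, ofReal_norm] using B.mod_ev hB (a : K)

theorem mod_inv (hB : Fini (Algebra.ofId ℂ B.O) B.z) {a : B.O} (ha : a ≠ 0) :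
    B.D.Mod fun b => ‖b a‖ₑ⁻¹ :=
  (B.mod_ev hB (a : K)⁻¹).mono ((B.gen_ne ha).mono fun b hb => by
    rw [b.ev_inv (b.reg_coe a) (by simpa using hb), Pt.ev_coe, ofReal_norm, enorm_inv hb])

/-- evaluation of a polynomial over the base ring -/
abbrev ep (b : Pt B.O) (z : ν → ℂ) : MvPolynomial ν B.O →+* ℂ :=
  MvPolynomial.eval₂Hom (b.hom : B.O →+* ℂ) z

omit [Fintype ν] [DecidableEq ν] in
theorem ep_eq (b : Pt B.O) (z : ν → ℂ) (q : MvPolynomial ν B.O) :
    MvPolynomial.eval z (MvPolynomial.map (b.hom : B.O →+* ℂ) q) = ep b z q :=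
  MvPolynomial.eval_map _ _ _

omit [DecidableEq ν] in
theorem box (hB : Fini (Algebra.ofId ℂ B.O) B.z) (q : MvPolynomial ν B.O) :
    ∃ u, B.D.Mod u ∧ ∀ (b : Pt B.O) (z : ν → ℂ), ‖z‖ ≤ 1 → ‖ep b z q‖ₑ ≤ u b := by
  induction q using MvPolynomial.induction_on with
  | C a => exact ⟨_, mod_pt hB a, fun b z _ => by simp⟩
  | add p q hp hq =>
    obtain ⟨u, hu, h⟩ := hp
    obtain ⟨v, hv, h'⟩ := hq
    exact ⟨_, hu.add hv, fun b z hz => by
      rw [map_add]; exact (enorm_add_le _ _).trans (add_le_add (h b z hz) (h' b z hz))⟩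
  | mul_X p i hp =>
    obtain ⟨u, hu, h⟩ := hp
    refine ⟨u, hu, fun b z hz => ?_⟩
    rw [map_mul, enorm_mul, MvPolynomial.eval₂Hom_X']
    refine (mul_le_of_le_one_right' ?_).trans (h b z hz)
    rw [← ofReal_norm, ← ENNReal.ofReal_one]
    exact ENNReal.ofReal_le_ofReal ((norm_le_pi_norm z i).trans hz)

omit [IsScalarTower ℂ K M] in
theorem Δ_ne (T : Fam B ν M) (b : Pt B.O) (p : T.Fib b) :
    ep b ((T.fib b).π p) T.finX.Δ ≠ 0 := by
  have := T.finX.Δ_ne p.1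
  rwa [p.2, ep_eq, ← T.π_fun] at this

omit [IsScalarTower ℂ K M] in
theorem root (T : Fam B ν M) (b : Pt B.O) (p : T.Fib b) :
    T.finX.f.eval₂ (ep b ((T.fib b).π p)) (p.1 T.finX.w) = 0 := by
  have := T.finX.root_pt p.1
  rwa [p.2, ev2_map, ← T.π_fun] at this

omit [IsScalarTower ℂ K M] in
theorem enum (T : Fam B ν M) (b : Pt B.O) {z : ν → ℂ} (hz : ep b z T.finX.Δ ≠ 0) :
    ∃ σ : Fin T.finX.f.natDegree ≃ (T.fib b).π ⁻¹' {z},
      Function.Injective fun i => (σ i).1.1 T.finX.w := by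
  rw [← ep_eq] at hz
  obtain ⟨C, h1, h2, h3⟩ := T.cov b fun e => hz (by rw [e, map_zero])
  have h4 := C.card (a := z) (by rwa [h2])
  rw [h1, T.finX.monic.natDegree_map] at h4
  have := (C.fin z).to_subtype
  have h5 : Nat.card ((T.fib b).π ⁻¹' {z}) = T.finX.f.natDegree := by
    rw [Nat.card_coe_set_eq, ncard_def, h4, ENat.toNat_natCast]
  refine ⟨(Finite.equivFinOfCardEq h5).symm, fun i j e => (Finite.equivFinOfCardEq h5).symm.injective
    (Subtype.ext (C.inj _ _ ?_ (by rw [h3, h3]; exact e)))⟩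
  exact ((Finite.equivFinOfCardEq h5).symm i).2.trans ((Finite.equivFinOfCardEq h5).symm j).2.symm

omit [IsScalarTower ℂ K M] in
theorem traces (T : Fam B ν M) {r : Type} [Fintype r] (τ : r → T.X.O) :
    ∃ (J : ℕ) (Θ : r → ℕ → MvPolynomial ν B.O), ∀ (b : Pt B.O) (z : ν → ℂ)
      (σ : Fin T.finX.f.natDegree → (T.fib b).π ⁻¹' {z}),
      (Function.Injective fun i => (σ i).1.1 T.finX.w) → ∀ k l, ep b z (Θ k l) =
        ∑ i, ep b z T.finX.Δ ^ J * (σ i).1.1 (τ k) * (σ i).1.1 T.finX.w ^ l := by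
  choose P j h using fun k => T.finX.gen_pt (τ k)
  choose Θ hΘ using fun k l => trc T.finX.monic
    (Polynomial.C (T.finX.Δ ^ (∑ k, j k - j k)) * P k * Polynomial.X ^ l)
  refine ⟨∑ k, j k, Θ, fun b z σ hσ k l => ?_⟩
  have hπ : ∀ i, (T.fib b).π (σ i).1 = z := fun i => (σ i).2
  rw [hΘ k l (ep b z) _ hσ fun i => by simpa only [hπ] using root T b (σ i).1]
  refine Finset.sum_congr rfl fun i _ => ?_
  have h1 := h k (σ i).1.1
  rw [(σ i).1.2, ev2_map, ep_eq, ← T.π_fun, hπ] at h1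
  have h2 : j k ≤ ∑ k, j k := Finset.single_le_sum (fun _ _ => zero_le) (Finset.mem_univ k)
  rw [Polynomial.eval₂_mul, Polynomial.eval₂_mul, Polynomial.eval₂_C, Polynomial.eval₂_X_pow, ← h1,
    map_pow, mul_comm ((σ i).1.1 (τ k)), ← mul_assoc, ← pow_add, Nat.sub_add_cancel h2]

omit [IsScalarTower ℂ K M] in
theorem deg_pos (T : Fam B ν M) : 0 < T.finX.f.natDegree := by
  refine Nat.pos_of_ne_zero fun h => ?_
  have := T.finX.root
  rw [T.finX.monic.natDegree_eq_zero.1 h, Polynomial.eval₂_one] at this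
  exact one_ne_zero this

omit [IsScalarTower ℂ K M] in
theorem fib_nonempty (T : Fam B ν M) {b : Pt B.O}
    (hb : MvPolynomial.map (b.hom : B.O →+* ℂ) T.finX.Δ ≠ 0) : Nonempty (T.Fib b) := by
  obtain ⟨z, hz⟩ : ∃ z, ep b z T.finX.Δ ≠ 0 := by
    by_contra hcon
    push Not at hcon
    exact hb (MvPolynomial.funext fun a => by rw [ep_eq, hcon, map_zero])
  obtain ⟨σ, -⟩ := enum T b hz
  exact ⟨(σ ⟨0, deg_pos T⟩).1⟩

end Low

open Low in
/-- the lower half of the estimate for the fibre integrals -/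
theorem Fam.low (T : Fam B ν M) (hc : ∀ x : M, IsAlgebraic K x → x ∈ Set.range (algebraMap K M))
    {r : Type} [Fintype r] {τ : r → T.X.O} (hτ : LinearIndependent K fun i => (τ i : M))
    {s : ℝ} (hs : 0 < s) :
    ∃ c : Pt B.O → ℝ≥0∞, B.D.Mod c ∧ ∀ᶠ b in B.D.gen, ∀ a : r → ℂ,
      ‖a‖ₑ ^ s ≤ c b * N.nN (T.fib b).μ (fun p i => p.1 (τ i)) s a := by
  classical
  obtain ⟨J, Θ, hΘ⟩ := traces T τ
  set D := T.finX.f.natDegree with hD
  let S : Finset (ν →₀ ℕ) := Finset.univ.biUnion fun q : r × Fin D => (Θ q.1 q.2).support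
  let E : Matrix (Fin D × S) r B.O := Matrix.of fun q k => (Θ k q.1).coeff q.2
  let G : Pt B.O → (r → ℂ) → ℕ → MvPolynomial ν ℂ := fun b a l =>
    ∑ k, a k • MvPolynomial.map (b.hom : B.O →+* ℂ) (Θ k l)
  have hG : ∀ (b : Pt B.O) a l m, (G b a l).coeff m = ∑ k, b ((Θ k l).coeff m) * a k :=
    fun b a l m => by
      simp only [G, MvPolynomial.coeff_sum, MvPolynomial.coeff_smul, MvPolynomial.coeff_map,
        smul_eq_mul, mul_comm]
      rfl
  have hE : ∀ (b : Pt B.O) a q, (E.map b.hom *ᵥ a) q = (G b a q.1).coeff q.2 := fun b a q =>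
    (hG b a q.1 q.2).symm
  have hev : ∀ (b : Pt B.O) a z (σ : Fin D → (T.fib b).π ⁻¹' {z}),
      (Function.Injective fun i => (σ i).1.1 T.finX.w) → ∀ l, MvPolynomial.eval z (G b a l) =
      ∑ i, ep b z T.finX.Δ ^ J * (a ⬝ᵥ fun k => (σ i).1.1 (τ k)) * (σ i).1.1 T.finX.w ^ l :=
    fun b a z σ hσ l => by
      simp only [G, map_sum, MvPolynomial.smul_eval, ep_eq, hΘ b z σ hσ, dotProduct,
        Finset.mul_sum, Finset.sum_mul]
      rw [Finset.sum_comm]
      exact Finset.sum_congr rfl fun i _ => Finset.sum_congr rfl fun k _ => by ring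
  obtain ⟨b0, hb0, hi0⟩ := gen_exists B (T.gen_Δ.and (T.indep hc hτ))
  obtain ⟨L, q, hq, hL⟩ := left_inv E b0.hom fun a ha => by
    have := fib_nonempty T hb0
    refine hi0 univ isOpen_univ univ_nonempty a fun p _ => ?_
    obtain ⟨σ, hσ⟩ := enum T b0 (Δ_ne T b0 p)
    have h0 : ∀ l : Fin D, G b0 a l = 0 := fun l => by
      ext m
      by_cases hm : m ∈ S
      · exact (hE b0 a (l, ⟨m, hm⟩)).symm.trans (congrFun ha _)
      · rw [hG, MvPolynomial.coeff_zero]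
        refine Finset.sum_eq_zero fun k _ => ?_
        rw [MvPolynomial.notMem_support_iff.1 fun h =>
          hm (Finset.mem_biUnion.2 ⟨(k, l), Finset.mem_univ _, h⟩), map_zero, zero_mul]
    have h1 := congrFun (eq_zero_of_forall_pow_sum_mul_pow_eq_zero hσ fun l => by
      rw [← hev b0 a _ σ hσ l, h0, map_zero]) (σ.symm ⟨p, rfl⟩)
    rw [σ.apply_symm_apply] at h1
    exact (mul_eq_zero.1 h1).resolve_left (pow_ne_zero _ (Δ_ne T b0 p))
  have hq0 : q ≠ 0 := fun e => by rw [e, map_zero] at hq; exact zero_ne_one hq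
  obtain ⟨C, hC, hcoef⟩ := coeff_le (ι := ν) (S.sup fun m => m.sum fun _ e => e) hs
  obtain ⟨uΔ, huΔ, hΔ⟩ := box T.finB T.finX.Δ
  choose uf huf hf using fun i => box T.finB (T.finX.f.coeff i)
  let W : Pt B.O → ℝ≥0∞ := fun b => 1 + ∑ i ∈ Finset.range D, uf i b
  let U : Pt B.O → ℝ≥0∞ := fun b => uΔ b ^ J * W b ^ D
  let V : Pt B.O → ℝ≥0∞ := fun b => ‖b q‖ₑ⁻¹ * ∑ i, ∑ x, ‖b (L i x)‖ₑ
  have hU : B.D.Mod U := (huΔ.pow J).mul
    (((RD.Mod.const ENNReal.one_ne_top).add (RD.Mod.sum _ fun i _ => huf i)).pow D)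
  have hV : B.D.Mod V := (mod_inv T.finB hq0).mul
    (RD.Mod.sum _ fun i _ => RD.Mod.sum _ fun x _ => mod_pt T.finB _)
  refine ⟨fun b => V b ^ s * (C * (U b ^ s * (D : ℝ≥0∞) ^ s)), (hV.rpow hs.le).mul
    ((RD.Mod.const hC).mul ((hU.rpow hs.le).mul (RD.Mod.const
      (ENNReal.rpow_ne_top_of_nonneg hs.le (ENNReal.natCast_ne_top D))))), ?_⟩
  filter_upwards [T.gen_Δ, B.gen_ne hq0] with b hb hqb a
  set n := N.nN (T.fib b).μ (fun p i => p.1 (τ i)) s a with hn
  have hm : Measurable fun p : T.Fib b => ‖a ⬝ᵥ fun i => p.1 (τ i)‖ₑ ^ s := by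
    refine (Measurable.enorm (Continuous.measurable ?_)).pow_const _
    exact continuous_finsetSum _ fun i _ =>
      continuous_const.mul ((Pt.continuous_apply _).comp continuous_subtype_val)
  have h1 : ∀ x : Fin D × S, ‖(E.map b.hom *ᵥ a) x‖ₑ ^ s ≤ C * (U b ^ s * (D : ℝ≥0∞) ^ s) * n := by
    intro x
    rw [hE, mul_assoc]
    refine (hcoef _ ?_ _).trans (mul_le_mul_right ?_ _)
    · refine Finset.sup_mono fun m hm => ?_
      by_contra hS
      refine MvPolynomial.mem_support_iff.1 hm ?_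
      rw [hG]
      refine Finset.sum_eq_zero fun k _ => ?_
      rw [MvPolynomial.notMem_support_iff.1 fun h =>
        hS (Finset.mem_biUnion.2 ⟨(k, x.1), Finset.mem_univ _, h⟩), map_zero, zero_mul]
    rw [hn, N.nN, ((T.fib b).lint_fib hm).2, ← lintegral_const_mul _ ((T.fib b).lint_fib hm).1]
    refine le_trans (lintegral_mono_ae ?_) (setLIntegral_le_lintegral (closedBall 0 1) _)
    rw [ae_restrict_iff' measurableSet_closedBall]
    filter_upwards [RArea.null_poly hb] with z hz hz1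
    rw [ep_eq] at hz
    rw [mem_closedBall_zero_iff] at hz1
    obtain ⟨σ, hσ⟩ := enum T b hz
    have h2 := sum_rpow_le (fun i => ‖a ⬝ᵥ fun k => (σ i).1.1 (τ k)‖ₑ) hs
    rw [Fintype.card_fin] at h2
    rw [← σ.tsum_eq, tsum_fintype, hev b a z σ hσ, mul_assoc]
    refine le_trans ?_ (mul_le_mul_right h2 _)
    rw [← ENNReal.mul_rpow_of_nonneg _ _ hs.le, Finset.mul_sum]
    refine ENNReal.rpow_le_rpow ((enorm_sum_le _ _).trans (Finset.sum_le_sum fun i _ => ?_)) hs.le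
    have h3 : ‖(σ i).1.1 T.finX.w‖ₑ ≤ W b := by
      have h4 := root T b (σ i).1
      rw [show (T.fib b).π (σ i).1 = z from (σ i).2] at h4
      exact (root_le T.finX.monic _ h4).trans
        (add_le_add_right (Finset.sum_le_sum fun i _ => hf i b z hz1) _)
    rw [enorm_mul, enorm_mul, enorm_pow, enorm_pow, mul_right_comm]
    refine mul_le_mul_left (mul_le_mul' (pow_le_pow_left' (hΔ b z hz1) _) ?_) _
    exact (pow_le_pow_left' h3 _).trans (pow_le_pow_right' le_self_add x.1.2.le)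
  set ρ := (C * (U b ^ s * (D : ℝ≥0∞) ^ s) * n) ^ s⁻¹ with hρ
  have h2 : ∀ x, ‖(E.map b.hom *ᵥ a) x‖ₑ ≤ ρ := fun x => (ENNReal.le_rpow_inv_iff hs).2 (h1 x)
  have h3 : L.map b.hom *ᵥ (E.map b.hom *ᵥ a) = b q • a := by
    rw [mulVec_mulVec, ← Matrix.map_mul, hL]
    ext i
    simp [mulVec, dotProduct, one_apply, apply_ite b]
  have h4 : ‖a‖ₑ ≤ V b * ρ := by
    have h5 : ∀ i, ‖a i‖ₑ ≤ V b * ρ := fun i => by
      have h6 : ‖b q‖ₑ * ‖a i‖ₑ ≤ (∑ i, ∑ x, ‖b (L i x)‖ₑ) * ρ := by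
        rw [← enorm_mul, ← smul_eq_mul, ← Pi.smul_apply, ← h3]
        refine (enorm_sum_le _ _).trans (le_trans ?_ (mul_le_mul_left (Finset.single_le_sum
          (f := fun i => ∑ x, ‖b (L i x)‖ₑ) (fun _ _ => zero_le) (Finset.mem_univ i)) _))
        rw [Finset.sum_mul]
        exact Finset.sum_le_sum fun x _ => by
          rw [enorm_mul]; exact mul_le_mul_right (h2 x) _
      rw [mul_assoc, ← one_mul ‖a i‖ₑ, ← ENNReal.inv_mul_cancel (a := ‖b q‖ₑ) (by simpa using hqb)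
        enorm_ne_top, mul_assoc]
      exact mul_le_mul_right h6 _
    rw [enorm_eq_nnnorm, Pi.nnnorm_def, ENNReal.coe_finset_sup]
    exact Finset.sup_le fun i _ => h5 i
  refine (ENNReal.rpow_le_rpow h4 hs.le).trans (le_of_eq ?_)
  rw [ENNReal.mul_rpow_of_nonneg _ _ hs.le, hρ, ENNReal.rpow_inv_rpow hs.ne', ← mul_assoc]

omit [IsScalarTower ℂ K M] in
theorem Rel.sigmaFinite_fib (T : Rel B ν M) (b : Pt B.O) : SigmaFinite (T.fib b).μ := by
  have := (T.fib b).secondCountable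
  obtain ⟨-, -, -, h, -⟩ := (T.fib b).exists_pi Unit
  exact h

omit [IsScalarTower ℂ K M] in
theorem Rel.measurable_fr (T : Rel B ν M) {r : Type} [Fintype r] (τ : r → T.X.O) (b : Pt B.O) :
    Measurable fun (p : T.Fib b) i => p.1 (τ i) :=
  (continuous_pi fun i => (Pt.continuous_apply (τ i)).comp continuous_subtype_val).measurable

/-- the lower bound for the norm of the determinant line -/
theorem Fam.low_D (T : Fam B ν M) (hc : ∀ x : M, IsAlgebraic K x → x ∈ Set.range (algebraMap K M))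
    {r : ℕ} {τ : Fin r → T.X.O} (hτ : LinearIndependent K fun i => (τ i : M))
    {s : ℝ} (hs : 0 < s) : B.D.Mod fun b => (N.nD (T.fib b).μ (fun p i => p.1 (τ i)) s)⁻¹ := by
  obtain ⟨c, hc, h⟩ := T.low hc hτ hs
  refine (hc.pow r).mono ?_
  filter_upwards [h, hc.ne_top] with b hb ht
  have := T.sigmaFinite_fib b
  rw [ENNReal.inv_le_iff_inv_le, ENNReal.inv_pow]
  by_cases h0 : c b = 0
  · rcases Nat.eq_zero_or_pos r with rfl | hr
    · simpa using N.le_nD (ν := (T.fib b).μ) (T.measurable_fr τ b) hs.le (C := 1) fun a => by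
        rw [Subsingleton.elim a 0, enorm_zero, ENNReal.zero_rpow_of_pos hs, mul_zero]
        exact zero_le
    · have : Nonempty (Fin r) := ⟨⟨0, hr⟩⟩
      have h1 := hb 1
      simp [h0] at h1
  refine N.le_nD (T.measurable_fr τ b) hs.le fun a => ?_
  rw [← one_mul (N.nN _ _ _ _), ← ENNReal.inv_mul_cancel h0 ht, mul_assoc]
  exact mul_le_mul_right (hb a) _

end

end Pool.Agent.Lib.MP_5c318e_ag
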