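import Pool.Agent.Lib.MP_5c318e_ag.S.ADefs

/-! An etale chart at a prime divisor. -/

set_option autoImplicit false

namespace Pool.Agent.Lib.MP_5c318e_ag

open IsLocalRing

namespace CDivA

variable {F : Type} [Field F] (P : ValuationSubring F)

theorem unit_iff (a : P) : IsUnit a ↔ P.valuation (a : F) = 1 :=
  P.valuation_eq_one_iff a

/-- the centre of `P` in a ring below it -/
abbrev cen (B : Type) [CommRing B] [Algebra B P] : Ideal B :=
  (maximalIdeal P).comap (algebraMap B P)

theorem not_mem_cen {B : Type} [CommRing B] [Algebra B P] [Algebra B F] [IsScalarTower B P F]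
    (b : B) : b ∉ cen P B ↔ P.valuation (algebraMap B F b) = 1 := by
  rw [Ideal.mem_comap, notMem_maximalIdeal, unit_iff, IsScalarTower.algebraMap_apply B P F]
  rfl

theorem mem_cen {B : Type} [CommRing B] [Algebra B P] [Algebra B F] [IsScalarTower B P F]
    (b : B) : b ∈ cen P B ↔ P.valuation (algebraMap B F b) < 1 := by
  rw [Ideal.mem_comap, P.valuation_lt_one_iff, IsScalarTower.algebraMap_apply B P F]
  rfl

theorem isLoc (B : Type) [CommRing B] [Algebra B P] [Algebra B F] [IsScalarTower B P F]
    [FaithfulSMul B F] (h : ∀ φ ∈ P, ∃ a b : B, P.valuation (algebraMap B F b) = 1 ∧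
      φ * algebraMap B F b = algebraMap B F a) : IsLocalization.AtPrime P (cen P B) := by
  rw [IsLocalization.AtPrime, isLocalization_iff]
  refine ⟨fun y => notMem_maximalIdeal.1 y.2, fun z => ?_, fun {x y} e => ⟨1, ?_⟩⟩
  · obtain ⟨a, b, h1, h2⟩ := h z z.2
    refine ⟨(a, ⟨b, (not_mem_cen P b).2 h1⟩), Subtype.ext ?_⟩
    rw [IsScalarTower.algebraMap_apply B P F, IsScalarTower.algebraMap_apply B P F] at h2
    exact h2
  · have := congrArg (algebraMap P F) e
    rw [← IsScalarTower.algebraMap_apply, ← IsScalarTower.algebraMap_apply] at this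
    rw [FaithfulSMul.algebraMap_injective B F this]

/-- a valuation ring above a Dedekind domain is a localisation -/
theorem loc_of_dedekind (B : Type) [CommRing B] [IsDedekindDomain B] [Algebra B P] [Algebra B F]
    [IsScalarTower B P F] [IsFractionRing B F] {φ : F} (hφ : φ ∈ P) :
    ∃ a b : B, P.valuation (algebraMap B F b) = 1 ∧ φ * algebraMap B F b = algebraMap B F a := by
  obtain ⟨x, y, hy, rfl⟩ := IsFractionRing.div_surjective B φ
  have hy' : algebraMap B F y ≠ 0 := IsFractionRing.to_map_ne_zero_of_mem_nonZeroDivisors hy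
  have hle : ∀ a : B, P.valuation (algebraMap B F a) ≤ 1 := fun a => by
    rw [IsScalarTower.algebraMap_apply B P F]
    exact P.valuation_le_one _
  let L := Localization.AtPrime (cen P B)
  have hi : Function.Injective (algebraMap B L) :=
    IsLocalization.injective L (cen P B).primeCompl_le_nonZeroDivisors
  obtain ⟨c, hc⟩ := ValuationRing.cond (algebraMap B L x) (algebraMap B L y)
  obtain ⟨⟨a, b⟩, e⟩ := IsLocalization.surj (cen P B).primeCompl c
  have hb := (not_mem_cen P (b : B)).1 b.2
  rcases hc with hc | hc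
  · have e1 : x * a = y * b := hi (by rw [map_mul, map_mul, ← e, ← hc, mul_assoc])
    have e2 : algebraMap B F x / algebraMap B F y * algebraMap B F a = algebraMap B F b := by
      rw [div_mul_eq_mul_div, ← map_mul, e1, map_mul, mul_div_cancel_left₀ _ hy']
    refine ⟨b, a, le_antisymm (hle a) ?_, e2⟩
    rw [← hb, ← e2, map_mul]
    exact mul_le_of_le_one_left' ((P.valuation_le_one_iff _).2 hφ)
  · have e1 : y * a = x * b := hi (by rw [map_mul, map_mul, ← e, ← hc, mul_assoc])
    refine ⟨a, b, hb, ?_⟩
    rw [div_mul_eq_mul_div, ← map_mul, ← e1, map_mul, mul_div_cancel_left₀ _ hy']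

/-- an unramified extension of a discrete valuation ring in a finite extension -/
theorem core (A : Type) [CommRing A] [IsDomain A] [IsPrincipalIdealRing A] [IsLocalRing A]
    [CharZero (ResidueField A)] [Algebra A F] [FaithfulSMul A F] [Algebra.EssFiniteType A F]
    [Algebra.IsAlgebraic A F] [Algebra A P] [IsScalarTower A P F] [IsLocalHom (algebraMap A P)]
    (H : (maximalIdeal A).map (algebraMap A P) = maximalIdeal P) :
    Algebra.EssFiniteType A P ∧ Algebra.FormallyEtale A P := by
  let K := FractionRing A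
  let := FractionRing.liftAlgebra A F
  have : CharZero A := (residue A).charZero
  have : CharZero K := charZero_of_injective_algebraMap (IsFractionRing.injective A K)
  have : Algebra.EssFiniteType K F := .of_comp A K F
  have : Algebra.IsAlgebraic K F := IsFractionRing.comap_isAlgebraic_iff.1 ‹_›
  have : FiniteDimensional K F := Algebra.finite_of_essFiniteType_of_isAlgebraic
  let B := integralClosure A F
  have : Module.Finite A B := IsIntegralClosure.finite A K F B
  have : IsDedekindDomain B := IsIntegralClosure.isDedekindDomain A K F B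
  have : IsFractionRing B F := IsIntegralClosure.isFractionRing_of_finite_extension A K F B
  have hBP : ∀ b : B, (b : F) ∈ P := fun b => by
    have h1 : IsIntegral P (b : F) := IsIntegral.tower_top (R := A) b.2
    obtain ⟨y, hy⟩ := IsIntegrallyClosed.isIntegral_iff.1 h1
    exact hy ▸ y.2
  let : Algebra B P := (B.val.toRingHom.codRestrict P.toSubring hBP).toAlgebra
  have : IsScalarTower B P F := .of_algebraMap_eq fun _ => rfl
  have : IsScalarTower A B P := .of_algebraMap_eq fun a =>
    Subtype.ext (IsScalarTower.algebraMap_apply A P F a).symm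
  have hl := isLoc P B fun φ hφ => loc_of_dedekind P B hφ
  have : Algebra.EssFiniteType B P := .of_isLocalization P (cen P B).primeCompl
  have hE : Algebra.EssFiniteType A P := .comp A B P
  have : Algebra.IsAlgebraic (ResidueField A) (ResidueField P) := ⟨fun x => by
    obtain ⟨φ, rfl⟩ := residue_surjective x
    obtain ⟨⟨a, b⟩, e⟩ := IsLocalization.surj (cen P B).primeCompl φ
    have hint : ∀ a : B, IsIntegral (ResidueField A) (residue P (algebraMap B P a)) := fun a =>
      IsIntegral.tower_top (R := A) ((Algebra.IsIntegral.isIntegral (R := A) a).map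
        ((IsScalarTower.toAlgHom A P (ResidueField P)).comp (IsScalarTower.toAlgHom A B P)))
    have hb : residue P (algebraMap B P b) ≠ 0 := fun h => b.2 ((residue_eq_zero_iff _).1 h)
    have e1 : residue P φ = residue P (algebraMap B P a) * (residue P (algebraMap B P b))⁻¹ := by
      rw [← e, map_mul, mul_inv_cancel_right₀ hb]
    rw [e1]
    exact ((hint a).mul (hint b).inv).isAlgebraic⟩
  have : Algebra.FormallyUnramified A P := .of_map_maximalIdeal H
  let e := (IsLocalization.algEquiv (cen P B).primeCompl P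
    (Localization.AtPrime (cen P B))).restrictScalars A
  have : Algebra.IsUnramifiedAt A (cen P B) := .of_equiv e
  have : Algebra.FinitePresentation A B := Algebra.FinitePresentation.of_finiteType.1 inferInstance
  have := Algebra.IsEtaleAt.of_isUnramifiedAt_of_flat (R := A) (cen P B)
  exact ⟨hE, .of_equiv e.symm⟩

/-- the same over a ring in which the centre is principal -/
theorem mid (R : Type) [CommRing R] [IsDomain R] [IsNoetherianRing R] [Algebra ℚ R] [Algebra R F]
    [FaithfulSMul R F] [Algebra.EssFiniteType R F] [Algebra.IsAlgebraic R F] [Algebra R P]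
    [IsScalarTower R P F] {t : R} (ht : cen P R = Ideal.span {t})
    (hu : ∀ a ∈ maximalIdeal P, algebraMap R P t ∣ a) :
    Algebra.EssFiniteType R P ∧ Algebra.FormallyEtale R P := by
  let A := Localization.AtPrime (cen P R)
  have h1 : ∀ y : (cen P R).primeCompl, IsUnit (algebraMap R P y) := fun y =>
    notMem_maximalIdeal.1 y.2
  let : Algebra A P := (IsLocalization.lift h1).toAlgebra
  have : IsScalarTower R A P := .of_algebraMap_eq fun a => (IsLocalization.lift_eq h1 a).symm
  let : Algebra A F := ((algebraMap P F).comp (algebraMap A P)).toAlgebra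
  have : IsScalarTower A P F := .of_algebraMap_eq fun _ => rfl
  have : IsScalarTower R A F := .of_algebraMap_eq fun a => by
    rw [IsScalarTower.algebraMap_apply A P F, ← IsScalarTower.algebraMap_apply R A P,
      ← IsScalarTower.algebraMap_apply]
  have hi : Function.Injective (algebraMap R A) :=
    IsLocalization.injective A (cen P R).primeCompl_le_nonZeroDivisors
  have : FaithfulSMul A F := by
    rw [faithfulSMul_iff_algebraMap_injective,
      IsLocalization.injective_iff_map_algebraMap_eq (cen P R).primeCompl]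
    intro x y
    rw [← IsScalarTower.algebraMap_apply, ← IsScalarTower.algebraMap_apply, hi.eq_iff,
      (FaithfulSMul.algebraMap_injective R F).eq_iff]
  have hm : maximalIdeal A = (cen P R).map (algebraMap R A) :=
    Localization.AtPrime.map_eq_maximalIdeal.symm
  have H : (maximalIdeal A).map (algebraMap A P) = maximalIdeal P := by
    rw [hm, Ideal.map_map, ← IsScalarTower.algebraMap_eq]
    refine le_antisymm Ideal.map_comap_le fun a ha => ?_
    rw [ht, Ideal.map_span, Set.image_singleton]
    exact Ideal.mem_span_singleton.2 (hu a ha)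
  have : IsLocalHom (algebraMap A P) := ((local_hom_TFAE (algebraMap A P)).out 2 0).1 H.le
  have hp : (maximalIdeal A).IsPrincipal := by
    rw [hm]
    refine ⟨algebraMap R A t, ?_⟩
    rw [show (cen P R).map (algebraMap R A) = (Ideal.span {t}).map (algebraMap R A) from
      congrArg _ ht, Ideal.map_span, Set.image_singleton]
  have : IsPrincipalIdealRing A :=
    ((tfae_of_isNoetherianRing_of_isLocalRing_of_isDomain A).out 4 0).1 hp
  have : CharZero (ResidueField A) := algebraRat.charZero _
  have : Algebra.EssFiniteType A F := .of_comp R A F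
  have : Algebra.IsAlgebraic A F := .extendScalars hi
  obtain ⟨h2, h3⟩ := core P A H
  have : Algebra.EssFiniteType R A := .of_isLocalization A (cen P R).primeCompl
  have : Algebra.FormallyEtale R A := .of_isLocalization (cen P R).primeCompl
  exact ⟨.comp R A P, .comp R A P⟩

/-- spreading out -/
theorem spread (R : Type) [CommRing R] [IsNoetherianRing R] [Algebra R F] [Algebra R P]
    [IsScalarTower R P F] [Algebra.EssFiniteType R P] [Algebra.FormallyEtale R P] {t : R}
    (hu : ∀ a ∈ maximalIdeal P, algebraMap R P t ∣ a) (s : Finset F) (hs : ∀ a ∈ s, a ∈ P) :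
    ∃ O : Subalgebra R F, (∀ a ∈ s, a ∈ O) ∧ (∀ a ∈ O, a ∈ P) ∧
      (∀ φ ∈ P, ∃ a b : O, P.valuation (b : F) = 1 ∧ φ * b = a) ∧
      (∀ a : O, P.valuation (a : F) < 1 → algebraMap R O t ∣ a) ∧ Algebra.Etale R O := by
  classical
  obtain ⟨σ, hσ⟩ := (Algebra.essFiniteType_iff R P).1 ‹_›
  let j : P →ₐ[R] F := IsScalarTower.toAlgHom R P F
  let B : Subalgebra R F := Algebra.adjoin R ((σ.image j ∪ s : Finset F) : Set F)
  have hBP : ∀ b : B, (b : F) ∈ P := fun b => by
    have : B ≤ j.range := Algebra.adjoin_le fun x hx => by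
      rcases Finset.mem_union.1 hx with h | h
      · obtain ⟨y, -, rfl⟩ := Finset.mem_image.1 h
        exact ⟨y, rfl⟩
      · exact ⟨⟨x, hs x h⟩, rfl⟩
    obtain ⟨y, hy⟩ := this b.2
    exact hy ▸ y.2
  have hσB : ∀ x ∈ Algebra.adjoin R (σ : Set P), (x : F) ∈ B := fun x hx => by
    have : Algebra.adjoin R (σ : Set P) ≤ B.comap j := Algebra.adjoin_le fun y hy =>
      Algebra.subset_adjoin (Finset.mem_union_left _ (Finset.mem_image_of_mem _ hy))
    exact this hx
  have hloc : ∀ φ ∈ P, ∃ a b : B, P.valuation (b : F) = 1 ∧ φ * b = a := fun φ hφ => by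
    obtain ⟨b, h1, h2, h3⟩ := hσ ⟨φ, hφ⟩
    exact ⟨⟨_, hσB _ h3⟩, ⟨_, hσB _ h1⟩, (unit_iff P b).1 h2, rfl⟩
  let : Algebra B P := (B.val.toRingHom.codRestrict P.toSubring hBP).toAlgebra
  have : IsScalarTower B P F := .of_algebraMap_eq fun _ => rfl
  have : IsScalarTower R B P := .of_algebraMap_eq fun a =>
    Subtype.ext (IsScalarTower.algebraMap_apply R P F a).symm
  have hl := isLoc P B hloc
  have : IsFractionRing B F := IsFractionRing.of_field B F fun z => by
    have key : ∀ φ ∈ P, ∃ a b : B, φ = algebraMap B F a / algebraMap B F b := fun φ hφ => by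
      obtain ⟨a, b, h1, h2⟩ := hloc φ hφ
      refine ⟨a, b, (eq_div_iff fun h0 => ?_).2 h2⟩
      rw [show (b : F) = 0 from h0, map_zero] at h1
      exact zero_ne_one h1
    rcases P.mem_or_inv_mem z with h | h
    · exact key z h
    · obtain ⟨a, b, e⟩ := key _ h
      exact ⟨b, a, by rw [← inv_div, ← e, inv_inv]⟩
  have : Algebra.FiniteType R B := (Subalgebra.fg_iff_finiteType _).1 ⟨_, rfl⟩
  have : Algebra.FinitePresentation R B := Algebra.FinitePresentation.of_finiteType.1 ‹_›
  have : IsNoetherianRing B := Algebra.FiniteType.isNoetherianRing R B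
  have : Algebra.IsEtaleAt R (cen P B) := .of_equiv
    ((IsLocalization.algEquiv (cen P B).primeCompl P
      (Localization.AtPrime (cen P B))).restrictScalars R)
  obtain ⟨f, hf, hE⟩ := Algebra.exists_etale_of_isEtaleAt (R := R) (cen P B)
  -- a common denominator for the quotients of generators of the centre
  have hden : ∀ q ∈ cen P B, ∃ b, b ∉ cen P B ∧ algebraMap R B t ∣ b * q := fun q hq => by
    obtain ⟨u, e⟩ := hu _ hq
    obtain ⟨a, b, h1, h2⟩ := hloc u u.2
    refine ⟨b, (not_mem_cen P b).2 h1, a, Subtype.ext ?_⟩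
    have e1 : (q : F) = algebraMap R F t * u := by
      rw [IsScalarTower.algebraMap_apply R P F]
      exact congrArg Subtype.val e
    show (b : F) * q = algebraMap R F t * a
    rw [e1, ← h2]
    ring
  obtain ⟨g, hg, hgq⟩ : ∃ g, g ∉ cen P B ∧ ∀ q ∈ cen P B, algebraMap R B t ∣ g * q := by
    obtain ⟨G, hG⟩ := IsNoetherian.noetherian (cen P B)
    choose! b hb using hden
    have hG' : ∀ q ∈ G, q ∈ cen P B := fun q hq => hG ▸ Submodule.subset_span hq
    refine ⟨∏ q ∈ G, b q, (cen P B).primeCompl.prod_mem fun q hq => (hb q (hG' q hq)).1,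
      fun q hq => ?_⟩
    rw [← hG] at hq
    induction hq using Submodule.span_induction with
    | mem x hx =>
      exact (hb x (hG' x hx)).2.trans (mul_dvd_mul_right (Finset.dvd_prod_of_mem b hx) x)
    | zero => simp
    | add x y _ _ hx hy => exact mul_add _ x y ▸ dvd_add hx hy
    | smul a x _ hx => exact smul_eq_mul a x ▸ mul_left_comm a _ x ▸ hx.mul_left a
  have hfg : f * g ∉ cen P B := (cen P B).primeCompl.mul_mem hf hg
  have hv : ∀ b ∈ Submonoid.powers (f * g), P.valuation (algebraMap B F b) = 1 := by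
    rintro _ ⟨n, rfl⟩
    rw [map_pow, map_pow, (not_mem_cen P _).1 hfg, one_pow]
  have hS : Submonoid.powers (f * g) ≤ nonZeroDivisors B :=
    powers_le_nonZeroDivisors_of_noZeroDivisors fun h => hfg (h ▸ zero_mem _)
  let O := Localization.subalgebra.ofField F (Submonoid.powers (f * g)) hS
  have hO : ∀ x ∈ O, ∃ a b : B, b ∈ Submonoid.powers (f * g) ∧
      x = algebraMap B F a * (algebraMap B F b)⁻¹ := fun x ⟨a, b, h1, h2⟩ => ⟨a, b, h1, h2⟩
  have hE' : Algebra.Etale R (Localization.Away (f * g)) := by
    rw [← Algebra.basicOpen_subset_etaleLocus_iff_etale] at hE ⊢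
    exact subset_trans (PrimeSpectrum.basicOpen_mul_le_left f g) hE
  have hE'' : Algebra.Etale R O := .of_equiv
    ((IsLocalization.algEquiv (Submonoid.powers (f * g)) (Localization.Away (f * g))
      O).restrictScalars R)
  refine ⟨O.restrictScalars R, fun a ha => ?_, fun x hx => ?_, fun φ hφ => ?_, fun x hx => ?_, hE''⟩
  · exact O.algebraMap_mem ⟨a, Algebra.subset_adjoin (Finset.mem_union_right _ ha)⟩
  · obtain ⟨a, b, h1, rfl⟩ := hO x hx
    rw [← P.valuation_le_one_iff, map_mul, map_inv₀, hv b h1, inv_one, mul_one]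
    exact (P.valuation_le_one_iff _).2 (hBP a)
  · obtain ⟨a, b, h1, h2⟩ := hloc φ hφ
    exact ⟨⟨a, O.algebraMap_mem a⟩, ⟨b, O.algebraMap_mem b⟩, h1, h2⟩
  · obtain ⟨a, b, h1, h2⟩ := hO x x.2
    rw [h2, map_mul, map_inv₀, hv b h1, inv_one, mul_one] at hx
    obtain ⟨u, e⟩ := hgq a ((mem_cen P a).2 hx)
    have h3 := mul_mem h1 (Submonoid.mem_powers (f * g))
    have hne : ∀ b : B, P.valuation (algebraMap B F b) = 1 → algebraMap B F b ≠ 0 := fun b h h0 => by
      rw [h0, map_zero] at h
      exact zero_ne_one h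
    refine ⟨⟨algebraMap B F (u * f) * (algebraMap B F (b * (f * g)))⁻¹, _, _, h3, rfl⟩,
      Subtype.ext ?_⟩
    have e1 : algebraMap B F g * algebraMap B F a = algebraMap R F t * algebraMap B F u := by
      rw [← map_mul, e, map_mul, ← IsScalarTower.algebraMap_apply]
    have n1 := hne b (hv b h1)
    have n2 := hne f ((not_mem_cen P f).1 hf)
    have n3 := hne g ((not_mem_cen P g).1 hg)
    show (x : F) = algebraMap R F t * (algebraMap B F (u * f) * (algebraMap B F (b * (f * g)))⁻¹)
    rw [h2, map_mul, map_mul, map_mul]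
    field_simp
    rw [← e1]
    ring

theorem split {ι k : Type} [DecidableEq ι] [CommRing k] (i0 : ι) (r : MvPolynomial ι k) :
    ∃ p : MvPolynomial {i // i ≠ i0} k,
      MvPolynomial.X i0 ∣ r - MvPolynomial.rename Subtype.val p := by
  let ψ : MvPolynomial ι k →ₐ[k] MvPolynomial {i // i ≠ i0} k :=
    MvPolynomial.aeval fun i => if h : i = i0 then 0 else MvPolynomial.X ⟨i, h⟩
  let I : Ideal (MvPolynomial ι k) := Ideal.span {MvPolynomial.X i0}
  have e : Ideal.Quotient.mkₐ k I =
      (Ideal.Quotient.mkₐ k I).comp ((MvPolynomial.rename Subtype.val).comp ψ) := by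
    refine MvPolynomial.algHom_ext fun i => ?_
    by_cases h : i = i0
    · subst h
      simp [ψ, I]
    · simp [ψ, h]
  exact ⟨ψ r, Ideal.mem_span_singleton.1 (Ideal.Quotient.eq.1 (DFunLike.congr_fun e r))⟩

end CDivA

open CDivA

variable {ι F : Type} [Fintype ι] [DecidableEq ι] [Field F] [Algebra ℂ F]

/-- an etale chart at a prime divisor that contains a given finite set -/
theorem exists_etale_at (hfg : (⊤ : IntermediateField ℂ F).FG) {P : ValuationSubring F}
    (hP : IsDivisorial ℂ F P) {c : ι → F} {i0 : ι} (hc : Adapted ℂ P c i0)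
    (hb : IsTranscendenceBasis ℂ c) (s : Finset F) (hs : ∀ a ∈ s, a ∈ P) :
    ∃ (O : Subalgebra ℂ F) (z : ι → O), (∀ i, (z i : F) = c i) ∧ (∀ a ∈ s, a ∈ O) ∧ (∀ a ∈ O, a ∈ P) ∧
      (∀ φ ∈ P, ∃ a b : O, P.valuation (b : F) = 1 ∧ φ * b = a) ∧
      (∀ a : O, P.valuation (a : F) < 1 → z i0 ∣ a) ∧
      (MvPolynomial.aeval z : MvPolynomial ι ℂ →ₐ[ℂ] O).toRingHom.Etale := by
  have _ := hP
  let R := MvPolynomial ι ℂ
  let φ : R →ₐ[ℂ] F := MvPolynomial.aeval c
  let : Algebra R F := φ.toRingHom.toAlgebra
  have hφ : ∀ r, algebraMap R F r = MvPolynomial.aeval c r := fun _ => rfl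
  have hX : ∀ i, algebraMap R F (MvPolynomial.X i) = c i := fun i => MvPolynomial.aeval_X c i
  have : IsScalarTower ℂ R F := .of_algebraMap_eq fun a => (φ.commutes a).symm
  have : FaithfulSMul R F := (faithfulSMul_iff_algebraMap_injective R F).2 hb.1
  have : Algebra.EssFiniteType ℂ F := IntermediateField.fg_top_iff.1 hfg
  have : Algebra.EssFiniteType R F := .of_comp ℂ R F
  have : Algebra.IsAlgebraic R F := by
    have := hb.isAlgebraic
    refine Algebra.IsAlgebraic.of_ringHom_of_comp_eq hb.1.aevalEquiv (RingHom.id F)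
      hb.1.aevalEquiv.surjective Function.injective_id (RingHom.ext fun r => ?_)
    exact hb.1.algebraMap_aevalEquiv r
  have hcP : ∀ i, c i ∈ P := fun i => by
    rw [← P.valuation_le_one_iff]
    by_cases h : i = i0
    · rw [h]
      exact hc.lt.le
    · simpa using (hc.ind (MvPolynomial.X ⟨i, h⟩) (MvPolynomial.X_ne_zero _)).le
  have hRP : ∀ r : R, algebraMap R F r ∈ P := fun r => by
    induction r using MvPolynomial.induction_on with
    | C a =>
      rw [← P.valuation_le_one_iff, hφ]
      by_cases ha : a = 0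
      · simp [ha]
      · simpa using (hc.ind (MvPolynomial.C a) (by simpa using ha)).le
    | add p q hp hq => exact map_add (algebraMap R F) p q ▸ add_mem hp hq
    | mul_X p i hp => exact map_mul (algebraMap R F) p _ ▸ mul_mem hp (hX i ▸ hcP i)
  let : Algebra R P := ((algebraMap R F).codRestrict P.toSubring hRP).toAlgebra
  have : IsScalarTower R P F := .of_algebraMap_eq fun _ => rfl
  have h0 : MvPolynomial.X i0 ∈ cen P R := (mem_cen P _).2 (hX i0 ▸ hc.lt)
  have ht : cen P R = Ideal.span {MvPolynomial.X i0} := by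
    refine le_antisymm (fun r hr => ?_) ((Ideal.span_singleton_le_iff_mem _).2 h0)
    obtain ⟨p, hp⟩ := split i0 r
    have h1 : MvPolynomial.rename Subtype.val p ∈ cen P R := by
      have := sub_mem hr (Ideal.mem_of_dvd _ hp h0)
      rwa [sub_sub_cancel] at this
    rw [mem_cen, hφ, MvPolynomial.aeval_rename] at h1
    have h2 : p = 0 := of_not_not fun h => h1.ne (hc.ind p h)
    rw [h2, map_zero, sub_zero] at hp
    exact Ideal.mem_span_singleton.2 hp
  have hu : ∀ a ∈ maximalIdeal P, algebraMap R P (MvPolynomial.X i0) ∣ a := fun a ha =>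
    ⟨⟨a / c i0, hc.unif a ((P.valuation_lt_one_iff a).1 ha)⟩, Subtype.ext (by
      show (a : F) = algebraMap R F (MvPolynomial.X i0) * (a / c i0)
      rw [hX, mul_div_cancel₀ _ hc.ne])⟩
  obtain ⟨h1, h2⟩ := mid P R ht hu
  obtain ⟨O, h3, h4, h5, h6, h7⟩ := spread P R hu s hs
  refine ⟨O.restrictScalars ℂ, fun i => algebraMap R O (MvPolynomial.X i), hX, h3, h4, h5, h6, ?_⟩
  have e : (MvPolynomial.aeval fun i => algebraMap R O (MvPolynomial.X i) :
      R →ₐ[ℂ] O.restrictScalars ℂ).toRingHom = algebraMap R O := by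
    refine MvPolynomial.ringHom_ext (fun a => Subtype.ext ?_) fun i => MvPolynomial.aeval_X _ i
    rw [AlgHom.toRingHom_eq_coe, RingHom.coe_coe, MvPolynomial.algHom_C]
    exact (φ.commutes a).symm
  have h8 : (algebraMap R O).Etale := RingHom.etale_algebraMap.2 h7
  exact (congrArg RingHom.Etale e).mpr h8

end Pool.Agent.Lib.MP_5c318e_ag
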