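import Pool.Agent.Lib.MP_5c318e_ag.S.CRel
import Pool.Agent.Lib.MP_5c318e_ag.S.CDiv
import Pool.Agent.Lib.MP_5c318e_ag.S.CCov

/-! Charts at a prime divisor, glued to a given chart exactly off the divisor. -/

set_option autoImplicit false
set_option linter.unusedSectionVars false

namespace Pool.Agent.Lib.MP_5c318e_ag

open Filter Topology Set

variable {ι F : Type} [Fintype ι] [DecidableEq ι] [Field F] [Algebra ℂ F]

theorem locAway_le {A L : Subalgebra ℂ F} {h : A} (h0 : h ≠ 0) (hA : A ≤ L) (hh : (h : F)⁻¹ ∈ L) :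
    locAway A h ≤ L := by
  rintro φ ⟨k, a, e⟩
  have h1 : (h : F) ≠ 0 := fun e => h0 (Subtype.ext e)
  push_cast at e
  have : φ = a * (h : F)⁻¹ ^ k := by
    rw [← e, mul_assoc, ← mul_pow, mul_inv_cancel₀ h1, one_pow, mul_one]
  rw [this]
  exact mul_mem (hA a.2) (pow_mem hh k)

theorem zpow_mem_of_inv {L : Subalgebra ℂ F} {t : F} (h : t ∈ L) (h' : t⁻¹ ∈ L) (n : ℤ) :
    t ^ n ∈ L := by
  obtain ⟨k, rfl | rfl⟩ := n.eq_nat_or_neg
  · rw [zpow_natCast]; exact pow_mem h k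
  · rw [zpow_neg, zpow_natCast, ← inv_pow]; exact pow_mem h' k

/-- a chart at a prime divisor that contains a given finite set -/
theorem exists_cht_at0 (hfg : (⊤ : IntermediateField ℂ F).FG) {P : ValuationSubring F}
    (hP : IsDivisorial ℂ F P) {c : ι → F} {i0 : ι} (hc : Adapted ℂ P c i0)
    (hb : IsTranscendenceBasis ℂ c) (s : Finset F) (hs : ∀ a ∈ s, a ∈ P) :
    ∃ C : Cht ι F, C.At P i0 ∧ (∀ i, (C.z i : F) = c i) ∧ ∀ a ∈ s, a ∈ C.O := by
  obtain ⟨O, z, hz, h1, h2, h3, h4, h5⟩ := exists_etale_at hfg hP hc hb s hs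
  have ne : ∀ b : O, P.valuation (b : F) = 1 → b ≠ 0 := fun b hb e => by simp [e] at hb
  obtain ⟨C, rfl, h⟩ := Cht.of_etale O z (by simpa only [hz] using hb) (fun φ => by
    by_cases h0 : φ = 0
    · exact ⟨0, 1, one_ne_zero, by simp [h0]⟩
    rcases P.mem_or_inv_mem φ with hφ | hφ
    · obtain ⟨a, b, hb, e⟩ := h3 φ hφ
      exact ⟨a, b, ne b hb, e⟩
    · obtain ⟨a, b, hb, e⟩ := h3 _ hφ
      refine ⟨b, a, fun e' => ne b hb (Subtype.ext ?_), by rw [← e]; field_simp⟩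
      rw [e'] at e
      exact (mul_eq_zero.1 e).resolve_left (inv_ne_zero h0)) h5
  obtain rfl : C.z = z := funext fun i => Subtype.ext (h i)
  exact ⟨C, ⟨by simpa only [hz] using hc, h2, h3, h4⟩, hz, h1⟩

/-- chart at a prime divisor, glued to a given chart exactly along `t ≠ 0` -/
theorem exists_cht_at (B : Cht ι F) {P : ValuationSubring F}
    (hP : IsDivisorial ℂ F P) {c : ι → F} {i0 : ι} (hc : Adapted ℂ P c i0)
    (s : Finset F) (hs : ∀ a ∈ s, a ∈ P) :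
    ∃ C : Cht ι F, C.At P i0 ∧ (∀ i, (C.z i : F) = c i) ∧ (∀ a ∈ s, a ∈ C.O) ∧
      ∃ τ : Tr C.O B.O, τ.h = C.z i0 := by
  classical
  have := hP.1
  have hA := hc.adp B.basis
  obtain ⟨g, hg⟩ := (Subalgebra.fg_iff_finiteType B.O).2 B.ft
  have hk : ∀ a : F, ∃ k : ℕ, a * c i0 ^ k ∈ P := fun a => by
    by_cases h0 : a = 0
    · exact ⟨0, by simp [h0]⟩
    obtain ⟨n, hn⟩ := hA.grp a h0
    refine ⟨n.natAbs, ?_⟩
    rw [← P.valuation_le_one_iff, map_mul, map_pow, hn, ← zpow_natCast, ← zpow_add₀ hA.val_pos.ne']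
    exact zpow_le_one₀ hA.val_pos hc.lt.le (by omega)
  choose k hk using hk
  obtain ⟨C1, at1, hz1, hs1⟩ := exists_cht_at0 B.fg hP hc hA.basis
    (s ∪ g.image fun a => a * c i0 ^ k a) fun a ha => by
      rcases Finset.mem_union.1 ha with ha | ha
      · exact hs a ha
      · obtain ⟨b, -, rfl⟩ := Finset.mem_image.1 ha
        exact hk b
  obtain ⟨h1, h10, H1⟩ := exists_inLoc (A' := C1.O) B.frac
  obtain ⟨a0, b0, hb0, e0⟩ := B.frac (c i0)⁻¹
  have h20 : h1 * b0 ≠ 0 := mul_ne_zero h10 hb0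
  have H2 := H1.mul b0
  have t2 : (c i0)⁻¹ ∈ locAway B.O (h1 * b0) := ⟨1, a0 * h1, by push_cast; rw [← e0]; ring⟩
  generalize h1 * b0 = h2 at h20 H2 t2
  have h2F : (h2 : F) ≠ 0 := fun e => h20 (Subtype.ext e)
  obtain ⟨n, hn⟩ := hA.grp h2 h2F
  obtain ⟨u, hu, eu⟩ := hA.exists_unit hn
  obtain ⟨a, b, hb, e⟩ := at1.loc u⁻¹ (by rw [← P.valuation_le_one_iff, map_inv₀, hu, inv_one])
  have hbF : (b : F) ≠ 0 := fun e => by simp [e] at hb
  have hb0 : b ≠ 0 := fun e => hbF (by simp [e])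
  obtain ⟨C, eC, hz⟩ := C1.exists_loc hb0
  have hle : C1.O ≤ C.O := eC ▸ le_locAway _ b
  have hzc : ∀ i, (C.z i : F) = c i := fun i => (hz i).trans (hz1 i)
  obtain ⟨l, m, em⟩ := H2 b b.2
  push_cast at em
  have hmF : (m : F) ≠ 0 := em ▸ mul_ne_zero hbF (pow_ne_zero _ h2F)
  have hm0 : m ≠ 0 := fun e => hmF (by simp [e])
  have ht0 : C.z i0 ≠ 0 := fun e => hc.ne (by rw [← hzc, e]; rfl)
  have hL := le_locAway C.O (C.z i0)
  have hti : (c i0)⁻¹ ∈ locAway C.O (C.z i0) := hzc i0 ▸ inv_mem_locAway _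
  have hbi : (b : F)⁻¹ ∈ C.O := eC ▸ inv_mem_locAway b
  have h2i : (h2 : F)⁻¹ ∈ locAway C.O (C.z i0) := by
    have : (h2 : F)⁻¹ = a * (b : F)⁻¹ * c i0 ^ (-n) := by
      rw [eu, ← e, zpow_neg]; field_simp
    rw [this]
    exact mul_mem (hL (mul_mem (hle a.2) hbi))
      (zpow_mem_of_inv (hL (hzc i0 ▸ (C.z i0).2)) hti _)
  have g1 : B.O ≤ locAway C.O (C.z i0) := by
    rw [← hg]
    refine Algebra.adjoin_le fun a ha => ⟨k a, ⟨_, hle (hs1 _ (Finset.mem_union_right _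
      (Finset.mem_image_of_mem _ ha)))⟩, ?_⟩
    push_cast
    rw [hzc]
  have g2 : C.O ≤ locAway B.O (h2 * m) := by
    rw [eC]
    refine locAway_le hb0 (H2.mul m) ⟨1, h2 ^ (l + 1), ?_⟩
    push_cast
    rw [← em]
    field_simp
    ring
  have g3 : ((h2 * m : B.O) : F)⁻¹ ∈ locAway C.O (C.z i0) := by
    have : ((h2 * m : B.O) : F)⁻¹ = (h2 : F)⁻¹ ^ (l + 1) * (b : F)⁻¹ := by
      push_cast
      rw [← em, inv_pow, ← mul_inv]
      congr 1
      ring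
    rw [this]
    exact mul_mem (pow_mem h2i _) (hL hbi)
  have g4 : (C.z i0 : F)⁻¹ ∈ locAway B.O (h2 * m) := by
    rw [hzc]
    exact InLoc.mul (A' := locAway B.O h2) (fun _ h => h) m _ t2
  obtain ⟨τ, hτ, -⟩ := Tr.of_inLoc ht0 (mul_ne_zero h20 hm0) g1 g2 g3 g4
  exact ⟨C, at1.away hb eC hz, hzc, fun a ha => hle (hs1 a (Finset.mem_union_left _ ha)), τ, hτ⟩

end Pool.Agent.Lib.MP_5c318e_ag
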