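import Pool.Agent.Lib.MP_5c318e_ag.S.ORoot
import Pool.Agent.Lib.MP_5c318e_ag.S.ODefs
import Pool.Agent.Lib.MP_5c318e_ag.S.CAt

/-! Existence of holomorphic coordinates near a general point of a vertical prime divisor. -/

set_option autoImplicit false

namespace Pool.Agent.Lib.MP_5c318e_ag

open MeasureTheory Set Filter Topology Metric

variable {δ ν K M : Type} [Fintype δ] [DecidableEq δ] [Fintype ν] [DecidableEq ν]
  [Field K] [Algebra ℂ K] [Field M] [Algebra ℂ M] [Algebra K M] [IsScalarTower ℂ K M] {B : Cht δ K}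

/-- regularity at a vertical prime divisor -/
theorem Rel.regI_vertical (T : Rel B ν M) {O : ValuationSubring M} (hO : IsDivisorial ℂ M O)
    {c : δ → K} {i0 : δ} {ξ : M} {w : ν → M} {μ : ℕ} (h0 : c i0 ≠ 0) (hμ : 0 < μ)
    (hv : O.valuation (algebraMap K M (c i0)) = O.valuation ξ ^ μ)
    (hc : Adapted ℂ O (Sum.elim (Function.update (fun i => algebraMap K M (c i)) i0 ξ) w)
      (Sum.inl i0)) (q : ℕ) (Φ : M) :
    RegI T.X.der q Φ O ↔ O.valuation (Φ * ξ ^ ((μ - 1) * q)) ≤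
      O.valuation (algebraMap K M (Jac B.der c) * Jac T.dx w) ^ q := by
  have := hO.1
  have hM : Dual ℂ (Sum.elim (fun i => algebraMap K M (B.z i)) T.x) T.X.der := by
    convert T.X.dual using 1
    ext (i | i)
    exacts [(T.zy_coe i).symm, rfl]
  have h1 : ξ ≠ 0 := by simpa using hc.ne
  have h2 : O.valuation ξ < 1 := by simpa using hc.lt
  have hp : 0 < O.valuation ξ := (Valuation.pos_iff _).2 h1
  have h3 := B.dual.jac_vertical T.dual hM hO h0 (hv ▸ (pow_lt_one₀ hp.le h2 hμ.ne').ne) hc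
  obtain ⟨n, rfl⟩ : ∃ n, μ = n + 1 := ⟨μ - 1, by omega⟩
  rw [hv, pow_succ, mul_right_comm, mul_left_inj' hp.ne'] at h3
  rw [(hc.adp T.X.basis).regI_iff, map_mul, map_mul, ← h3, mul_pow, map_pow, Nat.add_sub_cancel,
    pow_mul, mul_comm (O.valuation Φ), mul_le_mul_iff_right₀ (pow_pos (pow_pos hp n) q)]

omit [IsScalarTower ℂ K M] in
/-- the measure of a fibre in the coordinates `w` -/
theorem Rel.fib_le (T : Rel B ν M) (b : Pt B.O) (w : ν → M) {A : Set (ν → ℂ)} (hA : MeasurableSet A)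
    {Ψ : (ν → ℂ) → Pt T.X.O} (h : ∀ s ∈ A, (Ψ s).res T.inc = b ∧ (Ψ s).ev (Jac T.dx w) ≠ 0 ∧
      ∀ j, (Ψ s).Reg (w j) ∧ (Ψ s).ev (w j) = s j) {G : Pt T.X.O → ENNReal} (hG : Measurable G) :
    ∫⁻ s in A, ENNReal.ofReal (‖(Ψ s).ev (Jac T.dx w)‖⁻¹ ^ 2) * G (Ψ s) ≤
      ∫⁻ p, G p.1 ∂(T.fib b).μ := by
  obtain ⟨D', d1, d2, -⟩ := RD.exists_id (ι := ν)
  let U : Set (T.Fib b) := {p | ∀ j, p.1.Reg (w j)}
  let m : T.Fib b → ν → ℂ := fun p j => p.1.ev (w j)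
  have hU : IsOpen U := by
    rw [show U = ⋂ j, Subtype.val ⁻¹' {p : Pt T.X.O | p.Reg (w j)} by ext; simp [U]]
    exact isOpen_iInter_of_finite fun j => (Pt.isOpen_reg _).preimage continuous_subtype_val
  have hj : ∀ p ∈ U, DifferentiableAt ℂ (fun z => D'.π (m ((T.fib b).sec p z))) ((T.fib b).π p) ∧
      (T.fib b).jac (fun p => D'.π (m p)) p = p.1.ev (Jac T.dx w) := fun p hp => by
    rw [d1]
    exact (T.cvEv b).jac hp (g := m) (.of_forall fun _ _ => rfl)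
  have hm : Measurable fun p : T.Fib b =>
      ENNReal.ofReal (‖p.1.ev (Jac T.dx w)‖⁻¹ ^ 2) * G p.1 :=
    ((((Pt.measurable_ev _).norm.inv.pow_const 2).ennreal_ofReal).mul hG).comp
      measurable_subtype_coe
  have key := (T.fib b).area D' hU (τ := m) (fun p hp => (continuousAt_pi.2 fun j =>
    (hp j).continuousAt.comp continuous_subtype_val.continuousAt).continuousWithinAt)
    (fun p hp => (hj p hp).1) hm
  rw [d2] at key
  refine ((setLIntegral_mono' hA fun s hs => ?_).trans (setLIntegral_le_lintegral _ _)).trans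
    (key.ge.trans ((setLIntegral_mono' hU.measurableSet fun p hp => ?_).trans
      (setLIntegral_le_lintegral _ _)))
  · obtain ⟨h1, h2, h3⟩ := h s hs
    have hp : (⟨Ψ s, h1⟩ : T.Fib b) ∈ U := fun j => (h3 j).1
    exact ENNReal.le_tsum (⟨⟨Ψ s, h1⟩, hp, funext fun j => (h3 j).2, (hj _ hp).2 ▸ h2⟩ :
      {p | p ∈ U ∧ m p = s ∧ (T.fib b).jac (fun p => D'.π (m p)) p ≠ 0})
  · rw [(hj p hp).2, ← mul_assoc, ← ENNReal.ofReal_mul (by positivity), ← mul_pow]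
    exact mul_le_of_le_one_left'
      (ENNReal.ofReal_le_one.2 (pow_le_one₀ (by positivity) mul_inv_le_one))

omit [IsScalarTower ℂ K M] in
/-- the analytic part -/
theorem OCh.of_cht (T : Rel B ν M) {O : ValuationSubring M} {C : Cht δ K} {i0 : δ}
    (τ : Tr C.O B.O) (hτ : τ.h = C.z i0) {X : Cht (δ ⊕ ν) M} (hX : X.At O (Sum.inl i0))
    (σ : Tr X.O T.X.O) (hσ : σ.h = X.z (Sum.inl i0)) (inc : C.O →ₐ[ℂ] X.O)
    (hi : ∀ a, (inc a : M) = algebraMap K M a) (hz : ∀ i ≠ i0, X.z (Sum.inl i) = inc (C.z i))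
    {μ : ℕ} (hμ : 0 < μ) {υ υ' : X.O} (hυ : IsUnit υ) (hυ' : IsUnit υ') {j : ℤ}
    (ht : inc (C.z i0) = X.z (Sum.inl i0) ^ μ * υ)
    (hJ : Jac T.dx (fun k => (X.z (Sum.inr k) : M)) = (X.z (Sum.inl i0) : M) ^ j * υ')
    (reg : ∀ (q : ℕ) (Φ : M), RegI T.X.der q Φ O ↔
      O.valuation (Φ * (X.z (Sum.inl i0) : M) ^ ((μ - 1) * q)) ≤
      O.valuation (algebraMap K M (Jac B.der fun i => (C.z i : K)) *
        Jac T.dx fun k => (X.z (Sum.inr k) : M)) ^ q)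
    {p0 : Pt X.O} (h0 : p0 (X.z (Sum.inl i0)) = 0) :
    ∃ Ω : OCh T O C i0 τ (p0.res inc), Ω.μ = μ ∧ Ω.ξ = X.z (Sum.inl i0) ∧
      Ω.w = fun k => (X.z (Sum.inr k) : M) := by
  set c0 := p0.res inc with hc0
  obtain ⟨P, ρ, hP0, hP⟩ := X.exists_par (Sum.inl i0) p0 h0 hυ hμ
  let J : (δ → ℂ) × (ν → ℂ) → δ ⊕ ν → ℂ := fun q => Sum.elim q.1 q.2
  have hJa : ∀ q, AnalyticAt ℂ J q := fun q => analyticAt_pi_iff.2 <| by
    rintro (i | i)
    · exact ((ContinuousLinearMap.proj i).comp (ContinuousLinearMap.fst ℂ (δ → ℂ) (ν → ℂ))).analyticAt q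
    · exact ((ContinuousLinearMap.proj i).comp (ContinuousLinearMap.snd ℂ (δ → ℂ) (ν → ℂ))).analyticAt q
  let s0 : ν → ℂ := fun k => X.D.π p0 (Sum.inr k)
  have hy0 : C.D.π c0 i0 = 0 := by
    rw [C.π_eq, hc0, Pt.res_apply, ht, map_mul, map_pow, h0, zero_pow hμ.ne', zero_mul]
  have hJ0 : J (C.D.π c0, s0) = X.D.π p0 := by
    ext (i | i)
    · by_cases h : i = i0
      · rw [h, X.π_eq, h0]; exact hy0
      · rw [X.π_eq, hz i h]; exact C.π_eq c0 i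
    · rfl
  have hT : Tendsto J (𝓝 (C.D.π c0, s0)) (𝓝 (X.D.π p0)) := hJ0 ▸ (hJa _).continuousAt
  have hPc : ContinuousAt P (X.D.π p0) :=
    Pt.continuousAt_iff.2 fun a => (hP.self_of_nhds.2.1 a).continuousAt
  have hs : ∀ᶠ z in 𝓝 (X.D.π p0), (P z).res inc ∈ (C.D.ch c0).source :=
    ((Pt.continuous_res inc).continuousAt.comp hPc).eventually
      ((C.D.ch c0).open_source.mem_nhds (by simpa only [Function.comp, hP0] using C.D.mem_src c0))
  obtain ⟨r1, r1p, hr1⟩ := Metric.eventually_nhds_iff_ball.1 (hT.eventually (hP.and hs))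
  obtain ⟨r2, r2p, hr2⟩ := Metric.mem_nhds_iff.1 (RD.tgt_nhds (C.D.mem_tgt c0))
  obtain ⟨r, rp, r1', r2', r3'⟩ : ∃ r : ℝ, 0 < r ∧ r ≤ r1 ∧ r ≤ r2 ∧ r ≤ 1 :=
    ⟨min r1 (min r2 1), by positivity, by simp, by simp, by simp⟩
  have H := fun q (hq : q ∈ ball (C.D.π c0, s0) r) => hr1 q (ball_subset_ball r1' hq)
  have hx : ∀ q ∈ ball (C.D.π c0, s0) r, P (J q) (X.z (Sum.inl i0)) = q.1 i0 / ρ (J q) :=
    fun q hq => eq_div_of_mul_eq (H q hq).1.2.2.1 (H q hq).1.2.2.2.2.1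
  have hne : ∀ q ∈ ball (C.D.π c0, s0) r, q.1 i0 ≠ 0 → P (J q) σ.h ≠ 0 := fun q hq hu => by
    rw [hσ, hx q hq]
    exact div_ne_zero hu (H q hq).1.2.2.1
  have hsame := fun q hq hu => (σ.same _ (hne q hq hu)).1
  have ha : ∀ a : X.O, AnalyticOnNhd ℂ (fun q => P (J q) a) (ball (C.D.π c0, s0) r) :=
    fun a q hq => ((H q hq).1.2.1 a).comp (hJa q)
  have hρ : ∀ (k : ℤ) (a : X.O), AnalyticOnNhd ℂ (fun q => ρ (J q) ^ (-k) * P (J q) a)
      (ball (C.D.π c0, s0) r) :=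
    fun k a q hq => (((H q hq).1.1.comp (hJa q)).zpow (H q hq).1.2.2.1).mul (ha a q hq)
  have hπ : ∀ q ∈ ball (C.D.π c0, s0) r, C.D.π ((P (J q)).res inc) = pw i0 μ q.1 := fun q hq => by
    ext i
    rw [C.π_eq, Pt.res_apply, pw]
    by_cases h : i = i0
    · rw [h, ht, map_mul, map_pow, ← (H q hq).1.2.2.2.1, ← mul_pow, (H q hq).1.2.2.2.2.1,
        Function.update_self]
      rfl
    · rw [← hz i h, (H q hq).1.2.2.2.2.2 _ (by simpa using h), Function.update_of_ne h]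
      rfl
  have hres : ∀ q ∈ ball (C.D.π c0, s0) r, q.1 i0 ≠ 0 →
      (σ.map (P (J q))).res T.inc = τ.map (C.D.sec c0 (pw i0 μ q.1)) := fun q hq hu => by
    have hb : (P (J q)).res inc τ.h ≠ 0 := by
      rw [hτ, ← C.π_eq, hπ q hq, pw, Function.update_self]
      exact pow_ne_zero _ hu
    rw [← hπ q hq, RD.sec_π (H q hq).2]
    refine Pt.ext fun a => ?_
    rw [Pt.res_apply, (σ.map_apply (hne q hq hu) _).2, T.inc_eq, (τ.map_apply hb a).2]
    exact (Pt.ev_res inc hi _ (τ.map_apply hb a).1).2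
  have hev : ∀ (φ : M) (k : ℤ) (a b : X.O), φ * b = (X.z (Sum.inl i0) : M) ^ k * a →
      ∀ q ∈ ball (C.D.π c0, s0) r, q.1 i0 ≠ 0 → P (J q) b ≠ 0 → (σ.map (P (J q))).Reg φ ∧
      (σ.map (P (J q))).ev φ = q.1 i0 ^ k * (ρ (J q) ^ (-k) * P (J q) a) / P (J q) b := by
    intro φ k a b e q hq hu hb
    have hb0 : (b : M) ≠ 0 := fun h => hb (by rw [show b = 0 from Subtype.ext h, map_zero])
    have h1 := (P (J q)).ev_zpow ((P (J q)).reg_coe (X.z (Sum.inl i0)))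
      (by rw [Pt.ev_coe, ← hσ]; exact hne q hq hu) k
    have h2 := (P (J q)).ev_mul h1.1 ((P (J q)).reg_coe a)
    have h3 := (P (J q)).ev_div h2.1 ((P (J q)).reg_coe b) (by rwa [Pt.ev_coe])
    rw [← eq_div_of_mul_eq hb0 e] at h3
    refine ⟨(hsame q hq hu φ).1.1 h3.1, ?_⟩
    rw [← (hsame q hq hu φ).2, h3.2, h2.2, h1.2, Pt.ev_coe, Pt.ev_coe, Pt.ev_coe, hx q hq, div_zpow,
      zpow_neg, div_eq_mul_inv (q.1 i0 ^ k), mul_assoc]
  have hval : ∀ (φ : M) (k : ℤ) (a b : X.O), ¬ X.z (Sum.inl i0) ∣ a → ¬ X.z (Sum.inl i0) ∣ b →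
      φ * b = (X.z (Sum.inl i0) : M) ^ k * a →
      O.valuation φ = O.valuation (X.z (Sum.inl i0) : M) ^ k := fun φ k a b h1 h2 e => by
    have := congrArg O.valuation e
    rwa [map_mul, map_mul, hX.not_dvd_iff.1 h1, hX.not_dvd_iff.1 h2, mul_one, mul_one,
      map_zpow₀] at this
  have hu : ∀ {u : X.O}, IsUnit u → ¬ X.z (Sum.inl i0) ∣ u := fun h h' =>
    hX.prime.not_isUnit (isUnit_of_dvd_unit h' h)
  have hJ' : Jac T.dx (fun k => (X.z (Sum.inr k) : M)) * (1 : X.O) =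
      (X.z (Sum.inl i0) : M) ^ j * υ' := by rw [← hJ]; simp
  have hjac := fun q hq hu => hev _ j υ' 1 hJ' q hq hu (by simp)
  have hjne : ∀ q ∈ ball (C.D.π c0, s0) r, ρ (J q) ^ (-j) * P (J q) υ' ≠ 0 := fun q hq =>
    mul_ne_zero (zpow_ne_zero _ (H q hq).1.2.2.1) (hυ'.map (P (J q))).ne_zero
  refine ⟨⟨μ, X.z (Sum.inl i0), fun k => X.z (Sum.inr k), r, s0, fun q => σ.map (P (J q)), hμ,
    hX.ad.ne, hX.ad.lt, ?_, reg, rp, r3', (ball_subset_ball r2').trans hr2, hres, ?_, ?_,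
    ⟨j, _, hval _ j υ' 1 (hu hυ') hX.not_dvd_one hJ', hρ j υ', fun q hq => ⟨hjne q hq, fun h => ?_⟩⟩,
    fun y hy hu G hG => ?_⟩, rfl, rfl, rfl⟩
  · rw [← hi, ht, MulMemClass.coe_mul, map_mul, hX.not_dvd_iff.1 (hu hυ), mul_one,
      SubmonoidClass.coe_pow, map_pow]
  · exact fun q hq => ((σ.continuousAt (hne q hq.1 hq.2)).comp (f := fun q => P (J q))
      (Pt.continuousAt_iff.2 fun a => (ha a q hq.1).continuousAt)).continuousWithinAt
  · intro φ hφ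
    obtain ⟨k, a, b, h1, h2, e, h3⟩ : ∃ (k : ℤ) (a b : X.O), ¬ X.z (Sum.inl i0) ∣ a ∧
        ¬ X.z (Sum.inl i0) ∣ b ∧ φ * b = (X.z (Sum.inl i0) : M) ^ k * a ∧ (φ ∈ T.X.O → b = 1) := by
      by_cases h : φ ∈ T.X.O
      · obtain ⟨k, a, h1, e⟩ := hX.exists_zpow_of_mem σ hσ hφ h
        exact ⟨k, a, 1, h1, hX.not_dvd_one, by simpa using e, fun _ => rfl⟩
      · obtain ⟨k, a, b, h1, h2, e⟩ := hX.exists_zpow hφ
        exact ⟨k, a, b, h1, h2, e, fun h' => absurd h' h⟩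
    refine ⟨k, _, _, hval φ k a b h1 h2 e, hρ k a, ha b, ?_,
      fun h => funext fun q => by rw [h3 h]; exact map_one _, hev φ k a b e⟩
    obtain ⟨g, g0, hg⟩ := hX.exists_poly (hX.not_dvd_mul h1 h2)
    obtain ⟨x, x1, x2⟩ := exists_eval_ne_ball g0 (fun i => X.D.π p0 i.1) rp
    let q : (δ → ℂ) × (ν → ℂ) := (fun i => if h : i = i0 then 0 else x ⟨Sum.inl i, by simpa using h⟩,
      fun k => x ⟨Sum.inr k, by simp⟩)
    have q0 : q.1 i0 = 0 := dif_pos rfl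
    have hq : q ∈ ball (C.D.π c0, s0) r := by
      rw [← ball_prod_same]
      refine ⟨(dist_pi_lt_iff rp).2 fun i => ?_, (dist_pi_lt_iff rp).2 fun k => x1 _⟩
      by_cases h : i = i0
      · rwa [h, q0, hy0, dist_self]
      · have := x1 ⟨Sum.inl i, by simpa using h⟩
        rw [← hJ0] at this
        simpa [q, h, J] using this
    have h4 := hg (P (J q)) (by rw [hx q hq, q0, zero_div]) (by
      convert x2 using 3
      ext ⟨i, hi⟩
      rw [X.π_eq, (H q hq).1.2.2.2.2.2 i hi]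
      rcases i with i | i
      · exact dif_neg (by simpa using hi)
      · rfl)
    rw [map_mul] at h4
    exact ⟨q, hq, q0, mul_ne_zero (zpow_ne_zero _ (H q hq).1.2.2.1) (left_ne_zero_of_mul h4),
      right_ne_zero_of_mul h4⟩
  · simpa using hjac q hq h
  · refine T.fib_le _ _ measurableSet_ball (Ψ := fun s => σ.map (P (J (y, s)))) (fun s hs => ?_) hG
    have hq : (y, s) ∈ ball (C.D.π c0, s0) r := by rw [← ball_prod_same]; exact ⟨hy, hs⟩
    refine ⟨hres _ hq hu, ?_, fun k => ⟨(hsame _ hq hu _).1.1 (Pt.reg_coe _ _), ?_⟩⟩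
    · rw [(hjac _ hq hu).2]
      exact div_ne_zero (mul_ne_zero (zpow_ne_zero _ hu) (hjne _ hq)) (by simp)
    · rw [← (hsame _ hq hu _).2, Pt.ev_coe, (H _ hq).1.2.2.2.2.2 _ (by simp)]
      rfl

theorem exists_och (T : Rel B ν M) {O : ValuationSubring M} (hO : IsDivisorial ℂ M O)
    (hv : ¬ ∀ c : K, algebraMap K M c ∈ O) {C : Cht δ K} {i0 : δ}
    (hC : C.At (O.comap (algebraMap K M)) i0) (τ : Tr C.O B.O) (hτ : τ.h = C.z i0) :
    ∃ (μ : ℕ) (ξ : M) (w : ν → M) (e : C.O), ¬ C.z i0 ∣ e ∧ ∀ c0 : Pt C.O, c0 (C.z i0) = 0 →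
      c0 e ≠ 0 → ∃ Ω : OCh T O C i0 τ c0, Ω.μ = μ ∧ Ω.ξ = ξ ∧ Ω.w = w := by
  classical
  have : CharZero K := charZero_of_injective_algebraMap (algebraMap ℂ K).injective
  have := hO.1
  obtain ⟨ξ, w, μ, hμ, hw, h1, hc⟩ := (divisorial_vertical B.basis T.basis hO hv).2 _ i0 hC.ad
  have hξ : ξ ≠ 0 := by simpa using hc.ne
  have hp : O.valuation ξ ≠ 0 := (Valuation.ne_zero_iff _).2 hξ
  have hJ : Jac T.dx w ≠ 0 := T.dual.isFr.jac_ne hw.1
  have ht : algebraMap K M (C.z i0) ≠ 0 := (map_ne_zero _).2 hC.ad.ne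
  obtain ⟨j, hj⟩ := (hc.adp T.X.basis).grp _ hJ
  simp only [Sum.elim_inl, Function.update_self] at hj
  obtain ⟨s, hs⟩ := (Subalgebra.fg_iff_finiteType C.O).2 C.ft
  have v1 : O.valuation (algebraMap K M (C.z i0) / ξ ^ μ) = 1 := by
    rw [map_div₀, map_pow, h1, div_self (pow_ne_zero _ hp)]
  have v2 : O.valuation (Jac T.dx w / ξ ^ j) = 1 := by
    rw [map_div₀, map_zpow₀, hj, div_self (zpow_ne_zero _ hp)]
  obtain ⟨X, hX, hz, hm, σ, hσ⟩ := exists_cht_at T.X hO hc (s.image (algebraMap K M) ∪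
    {algebraMap K M (C.z i0) / ξ ^ μ, (algebraMap K M (C.z i0) / ξ ^ μ)⁻¹, Jac T.dx w / ξ ^ j,
      (Jac T.dx w / ξ ^ j)⁻¹}) (by
    simp only [Finset.mem_union, Finset.mem_image, Finset.mem_insert, Finset.mem_singleton]
    rintro a (⟨a, ha, rfl⟩ | rfl | rfl | rfl | rfl)
    · exact hC.le a (hs ▸ Algebra.subset_adjoin ha)
    · exact (O.valuation_le_one_iff _).1 v1.le
    · exact (O.valuation_le_one_iff _).1 (by rw [map_inv₀, v1, inv_one])
    · exact (O.valuation_le_one_iff _).1 v2.le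
    · exact (O.valuation_le_one_iff _).1 (by rw [map_inv₀, v2, inv_one]))
  have hle : C.O ≤ X.O.comap (IsScalarTower.toAlgHom ℂ K M) := by
    rw [← hs, Algebra.adjoin_le_iff]
    exact fun a ha => hm _ (Finset.mem_union_left _ (Finset.mem_image_of_mem _ ha))
  let inc : C.O →ₐ[ℂ] X.O :=
    ((IsScalarTower.toAlgHom ℂ K M).comp C.O.val).codRestrict X.O fun a => hle a.2
  have un : ∀ {u : M} (h0 : u ≠ 0) (h : u ∈ X.O), u⁻¹ ∈ X.O → IsUnit (⟨u, h⟩ : X.O) :=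
    fun h0 h h' => IsUnit.of_mul_eq_one ⟨_, h'⟩ (Subtype.ext (mul_inv_cancel₀ h0))
  have z0 : (X.z (Sum.inl i0) : M) = ξ := by simp [hz]
  have zw : (fun k => (X.z (Sum.inr k) : M)) = w := funext fun k => hz _
  obtain ⟨e, he, H⟩ := hC.exists_lift hX inc fun _ => rfl
  refine ⟨μ, ξ, w, e, he, fun c0 h0 hne => ?_⟩
  obtain ⟨p0, h2, rfl⟩ := H c0 h0 hne
  rw [← z0, ← zw]
  refine OCh.of_cht T τ hτ hX σ hσ inc (fun _ => rfl) (fun i hi => Subtype.ext ?_) hμ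
    (un (div_ne_zero ht (pow_ne_zero μ hξ)) (hm _ (by simp)) (hm _ (by simp)))
    (un (div_ne_zero hJ (zpow_ne_zero j hξ)) (hm _ (by simp)) (hm _ (by simp))) (j := j)
    (Subtype.ext ?_) ?_ ?_ h2
  · rw [hz, Sum.elim_inl, Function.update_of_ne hi]
    rfl
  · rw [MulMemClass.coe_mul, SubmonoidClass.coe_pow, z0, mul_div_cancel₀ _ (pow_ne_zero μ hξ)]
    rfl
  · rw [z0, zw, mul_div_cancel₀ _ (zpow_ne_zero j hξ)]
  · rw [z0, zw]
    exact T.regI_vertical hO hC.ad.ne hμ h1 hc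

end Pool.Agent.Lib.MP_5c318e_ag
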