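import Pool.Agent.Lib.MP_5c318e_ag.S.OIntA
import Pool.Agent.Lib.MP_5c318e_ag.S.OCh

/-! Growth of the fibre integral along a divisor of the base gives regularity upstairs. -/

set_option autoImplicit false

namespace Pool.Agent.Lib.MP_5c318e_ag

open MeasureTheory Set Filter Topology Metric

variable {δ ν K M : Type} [Fintype δ] [DecidableEq δ] [Fintype ν] [DecidableEq ν]
  [Field K] [Algebra ℂ K] [Field M] [Algebra ℂ M] [Algebra K M] [IsScalarTower ℂ K M] {B : Cht δ K}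

/-- BACK for `r = 1` -/
theorem Rel.back_one (T : Rel B ν M) {O : ValuationSubring M} (hO : IsDivisorial ℂ M O)
    (hv : ¬ ∀ c : K, algebraMap K M c ∈ O) {C : Cht δ K} {i0 : δ}
    (hC : C.At (O.comap (algebraMap K M)) i0) (τ : Tr C.O B.O) (hτ : τ.h = C.z i0)
    {m : ℕ} (hm : 0 < m) {φ : M} {α : ℝ} {e : C.O} (he : ¬ C.z i0 ∣ e)
    (H : ∀ c0 : Pt C.O, c0 (C.z i0) = 0 → c0 e ≠ 0 → ∀ ε : ℝ, 0 < ε → ∃ A : ℝ, ∀ᶠ c in 𝓝 c0,
      c (C.z i0) ≠ 0 → T.N m φ (τ.map c) ≤ ENNReal.ofReal (A * ‖c (C.z i0)‖ ^ (2 * α - ε)))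
    (b : ℕ) {g : K} {k : ℤ}
    (hg : (O.comap (algebraMap K M)).valuation (g / (Jac B.der fun i => (C.z i : K)) ^ (m * b)) ≤
      (O.comap (algebraMap K M)).valuation (C.z i0 : K) ^ k) (hk : 0 ≤ (k : ℝ) + m * b * α) :
    RegI T.X.der (m * b) (φ ^ b * algebraMap K M g) O := by
  obtain ⟨μ, ξ, w, e', he', h⟩ := exists_och T hO hv hC τ hτ
  obtain ⟨c0, h0, hc⟩ := hC.exists_pt he'
  obtain ⟨Ω, -⟩ := h c0 h0 hc
  exact Ω.back hC h0 hm he H b hg hk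

end Pool.Agent.Lib.MP_5c318e_ag
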