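import Pool.Agent.Lib.MP_5c318e_ag.W.Conn
import Pool.Agent.Lib.MP_5c318e_ag.S.RAlg
import Pool.Agent.Lib.MP_5c318e_ag.C.Psi

/-! Finite charts are connected; holomorphic functions of moderate size come from the ring. -/

set_option autoImplicit false

namespace Pool.Agent.Lib.MP_5c318e_ag

open MeasureTheory Set Filter Topology

noncomputable section

/-- Nullstellensatz: a nonzero element of a domain does not vanish at some point -/
theorem Pt.exists_ne_zero {O : Type} [CommRing O] [IsDomain O] [Algebra ℂ O] [Algebra.FiniteType ℂ O]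
    {a : O} (ha : a ≠ 0) : ∃ p : Pt O, p a ≠ 0 := by
  obtain ⟨p, -, h⟩ := Pt.exists_zero_ne (I := (⊥ : Ideal O)) (h := a) (by
    rintro ⟨n, hn⟩
    exact ha (pow_eq_zero_iff' .. |>.1 (Ideal.mem_bot.1 hn)).1)
  exact ⟨p, h⟩

theorem Pt.ext_elt {O : Type} [CommRing O] [IsDomain O] [Algebra ℂ O] [Algebra.FiniteType ℂ O]
    {a b : O} (h : ∀ p : Pt O, p a = p b) : a = b := by
  by_contra e
  obtain ⟨p, hp⟩ := Pt.exists_ne_zero (sub_ne_zero.2 e)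
  exact hp (by rw [map_sub, h, sub_self])

variable {ι K : Type} [Fintype ι] [DecidableEq ι] [Field K] [Algebra ℂ K]

theorem Cht.nonempty_pt (c : Cht ι K) : Nonempty (Pt c.O) :=
  let ⟨p, _⟩ := Pt.exists_ne_zero (O := c.O) one_ne_zero; ⟨p⟩

theorem Cht.connected (c : Cht ι K) (h : Fini (Algebra.ofId ℂ c.O) c.z) :
    ConnectedSpace (Pt c.O) :=
  { c.preconnected h with toNonempty := c.nonempty_pt }

/-- RAT in `L^s` -/
theorem Cht.ratLs (c : Cht ι K) (h : Fini (Algebra.ofId ℂ c.O) c.z) {u : Pt c.O → ℂ}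
    (hu : c.D.Hol u) {s : ℝ} (hs : 0 < s) (k N : ℕ) (hi : ∫⁻ p, ENNReal.ofReal (‖u p‖ ^ s *
      ‖MvPolynomial.eval (c.D.π p) h.Δ‖ ^ k / (1 + ‖c.D.π p‖ ^ 2) ^ N) ∂c.D.μ < ⊤) :
    ∃ ψ : c.O, ∀ p, u p = p ψ := by
  obtain ⟨C, -, e1, e2⟩ := c.cov h
  obtain ⟨P, j, hP⟩ := C.alg_rpow hu hs k N (e1 ▸ hi)
  obtain ⟨ψ, hψ⟩ := c.exists_elt h P j
  exact ⟨ψ, fun p => hψ p _ (by rw [← e1, ← e2]; exact hP p)⟩

section cov

variable {S : Type} [TopologicalSpace S] [MeasurableSpace S] {D : RD ι S}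

omit [DecidableEq ι] in
/-- moderate size for `ψ` in terms of `Δ` and the norm -/
theorem RD.Cov.of_md (C : D.Cov) {u : S → ℝ} (h : Md C.ψ u) : ∃ (A : ℝ) (M N : ℕ), 0 < A ∧ ∀ p,
    u p * ‖MvPolynomial.eval (D.π p) C.Δ‖ ^ (2 * M) ≤ A * (1 + ‖D.π p‖ ^ 2) ^ N := by
  obtain ⟨L, L0, hL⟩ := h
  obtain ⟨n, hn⟩ := exists_nat_ge L
  refine ⟨Real.exp n * (2 * (Fintype.card ι + 1)) ^ (C.A * n), n, C.A * n, by positivity,
    fun p => ?_⟩
  have d0 : 0 < ‖MvPolynomial.eval (D.π p) C.Δ‖ := norm_pos_iff.2 (C.Δ_ne p)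
  have h1 : u p ≤ Real.exp n * Real.exp (C.ψ p) ^ n := by
    rw [← Real.exp_nat_mul, ← Real.exp_add]
    exact (hL p).trans (Real.exp_le_exp.2 (by nlinarith [C.ψ_nonneg p]))
  have h2 : Hyp.nsq (D.π p) ≤ (Fintype.card ι + 1) * (1 + ‖D.π p‖ ^ 2) := by
    have : ∑ i, ‖D.π p i‖ ^ 2 ≤ ∑ _i : ι, ‖D.π p‖ ^ 2 := Finset.sum_le_sum fun i _ =>
      pow_le_pow_left₀ (norm_nonneg _) (norm_le_pi_norm _ i) 2
    rw [Finset.sum_const, Finset.card_univ, nsmul_eq_mul] at this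
    unfold Hyp.nsq
    nlinarith [sq_nonneg ‖D.π p‖, (Nat.cast_nonneg (Fintype.card ι) : (0 : ℝ) ≤ _)]
  have n0 : 0 ≤ Hyp.nsq (D.π p) := by unfold Hyp.nsq; positivity
  refine (mul_le_mul_of_nonneg_right h1 (by positivity)).trans ?_
  rw [C.exp_ψ, div_pow, ← pow_mul, ← pow_mul, mul_assoc, div_mul_cancel₀ _ (by positivity),
    mul_assoc, ← mul_pow]
  exact mul_le_mul_of_nonneg_left (pow_le_pow_left₀ (by positivity) (by linarith) _)
    (Real.exp_pos _).le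

end cov

/-- on a finite chart, moderate for `siz` is moderate for `ψ` -/
theorem Cht.md_ψ (c : Cht ι K) (h : Fini (Algebra.ofId ℂ c.O) c.z) (C : c.D.Cov) (hΔ : C.Δ = h.Δ)
    (hw : ∀ p, C.w p = p h.w) {u : Pt c.O → ℝ} (hu : Md c.siz u) : Md C.ψ u := by
  have h1 : ∀ a : c.O, Md C.ψ fun p => ‖p a‖ := fun a => by
    obtain ⟨P, j, e⟩ := h.gen_pt a
    refine (C.md_ev2 P j).mono fun p => le_of_eq ?_
    have e1 := e p
    rw [Pt.map_complex, RingHom.id_apply, Polynomial.map_id, ← c.π_fun, ← hΔ, ← hw] at e1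
    rw [← e1, mul_div_cancel_right₀ _ (pow_ne_zero _ (C.Δ_ne p))]
  have h2 : Md C.ψ fun p => ∑ a ∈ c.gens, ‖p a‖ ^ 2 + 1 :=
    Md.add C.ψ_nonneg (Md.sum C.ψ_nonneg _ fun a _ => (h1 a).pow C.ψ_nonneg (fun _ => norm_nonneg _) 2)
      (Md.const C.ψ_nonneg 1)
  obtain ⟨L, L0, hL⟩ := h2.log_le fun p => by positivity
  obtain ⟨N, N0, hN⟩ := hu
  refine ⟨N * L + N, by positivity, fun p => (hN p).trans (Real.exp_le_exp.2 ?_)⟩
  have := mul_le_mul_of_nonneg_left (hL p) N0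
  unfold Cht.siz
  nlinarith [C.ψ_nonneg p]

/-- moderate size for `siz` in terms of `Δ` and the norm -/
theorem Cht.of_md (c : Cht ι K) (h : Fini (Algebra.ofId ℂ c.O) c.z) {u : Pt c.O → ℝ}
    (hu : Md c.siz u) : ∃ (A : ℝ) (M N : ℕ), 0 < A ∧ ∀ p,
      u p * ‖MvPolynomial.eval (c.D.π p) h.Δ‖ ^ (2 * M) ≤ A * (1 + ‖c.D.π p‖ ^ 2) ^ N := by
  obtain ⟨C, -, e1, e2⟩ := c.cov h
  exact e1 ▸ C.of_md (c.md_ψ h C e1 e2 hu)

/-- RAT, pointwise, for `siz` -/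
theorem Cht.rat_md (c : Cht ι K) (h : Fini (Algebra.ofId ℂ c.O) c.z) {u : Pt c.O → ℂ}
    (hu : c.D.Hol u) (hb : Md c.siz fun p => ‖u p‖) : ∃ ψ : c.O, ∀ p, u p = p ψ := by
  obtain ⟨C, -, e1, e2⟩ := c.cov h
  obtain ⟨A, M, N, A0, hA⟩ := C.of_md (c.md_ψ h C e1 e2 hb)
  obtain ⟨P, j, hP⟩ := C.alg_pt (g := 1) (u := u) (fun p _ => hu p) (A := A) (M := 2 * M)
    (N := 2 * N) fun p _ => by
      rw [mul_one, pow_mul (1 + _)]
      refine (hA p).trans (mul_le_mul_of_nonneg_left (pow_le_pow_left₀ (by positivity) ?_ N) A0.le)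
      nlinarith [norm_nonneg (c.D.π p)]
  obtain ⟨ψ, hψ⟩ := c.exists_elt h P j
  exact ⟨ψ, fun p => hψ p _ (by rw [← e1, ← e2]; simpa using hP p (by simp))⟩

/-- RAT in `L^s`, weight with a moderate inverse -/
theorem Cht.rat_wt (c : Cht ι K) (h : Fini (Algebra.ofId ℂ c.O) c.z) {u : Pt c.O → ℂ}
    (hu : c.D.Hol u) {s : ℝ} (hs : 0 < s) {om : Pt c.O → ℝ} (h0 : ∀ p, 0 < om p)
    (hom : Md c.siz om) (hi : ∫⁻ p, ENNReal.ofReal (‖u p‖ ^ s / om p) ∂c.D.μ < ⊤) :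
    ∃ ψ : c.O, ∀ p, u p = p ψ := by
  obtain ⟨A, M, N, A0, hA⟩ := c.of_md h hom
  refine c.ratLs h hu hs (2 * M) N (lt_of_le_of_lt (lintegral_mono fun p => ?_)
    ((lintegral_const_mul' (ENNReal.ofReal A) _ ENNReal.ofReal_ne_top).trans_lt
      (ENNReal.mul_lt_top ENNReal.ofReal_lt_top hi)))
  rw [← ENNReal.ofReal_mul A0.le]
  refine ENNReal.ofReal_le_ofReal ?_
  have := hA p
  have o := h0 p
  rw [div_le_iff₀ (by positivity), mul_div_assoc', div_mul_eq_mul_div, le_div_iff₀ o]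
  nlinarith [mul_le_mul_of_nonneg_left this (Real.rpow_nonneg (norm_nonneg (u p)) s)]

end

end Pool.Agent.Lib.MP_5c318e_ag
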