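import Pool.Agent.Lib.MP_5c318e_ag.S.SatB
import Pool.Agent.Lib.MP_5c318e_ag.S.CAt

/-! Saturation: on almost every fibre the square integrable twisted forms are spanned by the
regular pluricanonical forms of the generic fibre. -/

set_option autoImplicit false
set_option linter.unusedSectionVars false

namespace Pool.Agent.Lib.MP_5c318e_ag

open MeasureTheory Set Filter Topology

variable {δ ν K M : Type} [Fintype δ] [DecidableEq δ] [Fintype ν] [DecidableEq ν]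
  [Field K] [Algebra ℂ K] [Field M] [Algebra ℂ M] [Algebra K M] [IsScalarTower ℂ K M]
  {B : Cht δ K}

theorem Adp.exists_pow {O : ValuationSubring M} {c : ν → M} {i0 : ν} (hc : Adp K O c i0)
    {n : Type} [Fintype n] (x : n → M) : ∃ N : ℕ, ∀ i, x i * c i0 ^ N ∈ O := by
  classical
  have h1 : ∀ y : M, ∃ N : ℕ, y * c i0 ^ N ∈ O := fun y => by
    rcases eq_or_ne y 0 with rfl | hy
    · exact ⟨0, by simp⟩
    obtain ⟨k, hk⟩ := hc.grp y hy
    refine ⟨(-k).toNat, ?_⟩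
    rw [← O.valuation_le_one_iff, map_mul, map_pow, hk, ← zpow_natCast, ← zpow_add₀ hc.val_pos.ne']
    exact zpow_le_one₀ hc.val_pos hc.lt.le (by omega)
  choose N hN using h1
  refine ⟨∑ i, N (x i), fun i => ?_⟩
  rw [← Finset.add_sum_erase _ _ (Finset.mem_univ i), pow_add, ← mul_assoc]
  exact mul_mem (hN _) (pow_mem (hc.mem i0) _)

/-- regularity along one prime divisor -/
theorem Rel.sat_at (T : Rel B ν M) {m : ℕ} (hm : 0 < m) {r n : Type} [Fintype r] [Fintype n]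
    (τ : r → T.X.O) (φ : n → T.X.O) {O : ValuationSubring M} (hO : IsDivisorial K M O)
    (hτ : ∀ j, RegI T.dx m (τ j) O) :
    ∀ᵐ b ∂B.D.μ, ∀ a : n → ℂ,
      ∫⁻ p, Sat.G m (∑ i, a i * p.1 (φ i)) (fun j => p.1 (τ j)) ∂(T.fib b).μ < ⊤ →
      ∃ a' : n → B.O, RegI T.dx m (∑ i, algebraMap K M (a' i) * φ i) O ∧ ∀ i, a i = b (a' i) := by
  classical
  have : CharZero K := charZero_of_injective_algebraMap (algebraMap ℂ K).injective
  obtain ⟨c, i0, hc⟩ := hO.exists_adp (ι := ν) (trdeg_of_basis T.basis)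
  have reg : ∀ x, RegI T.dx m x O ↔ x * (Jac T.dx c)⁻¹ ^ m ∈ O := fun x => by
    rw [hc.regI_iff, ← div_pow_mem_iff (T.dual.isFr.jac_ne hc.basis.1), div_eq_mul_inv, inv_pow]
  obtain ⟨N, hN⟩ := hc.exists_pow fun i => (φ i : M) * (Jac T.dx c)⁻¹ ^ m
  obtain ⟨k, g, hg⟩ := Pt.exists_gens B.O
  let f : Fin k ⊕ r ⊕ n → M := Sum.elim (fun i => algebraMap K M (g i)) (Sum.elim
    (fun j => τ j * (Jac T.dx c)⁻¹ ^ m) fun i => φ i * (Jac T.dx c)⁻¹ ^ m * c i0 ^ N)
  have hc' := hc.horiz B.basis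
  obtain ⟨C, hC, hz, hs⟩ := exists_cht_at0 T.X.fg hc'.divisorial hc'.adapted hc'.basis
    (Finset.univ.image f) (Finset.forall_mem_image.2 (by
      rintro (i | j | i) -
      exacts [hO.const _, (reg _).1 (hτ j), hN i]))
  have hf : ∀ i, f i ∈ C.O := fun i => hs _ (Finset.mem_image_of_mem f (Finset.mem_univ i))
  obtain ⟨T', rfl⟩ := Rel.of_cht B C (fun a ha => (Algebra.adjoin_le (S := C.O.comap
    ((IsScalarTower.toAlgHom ℂ K M).comp B.O.val)) (range_subset_iff.2 fun i => hf (.inl i)))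
    (hg ▸ Algebra.mem_top (x := (⟨a, ha⟩ : B.O)))) fun i => hz (.inl i)
  have hx : T'.x = c := funext fun i => hz (.inr i)
  have hJ : Jac T'.dx T.x = (Jac T.dx c)⁻¹ := eq_inv_of_mul_eq_one_left (by
    rw [← T.dual.jac_chain, ← hx, T'.dual.jac_one])
  filter_upwards [T.sat_loc T' hm τ φ i0 N (fun j => ⟨_, hf (.inr (.inl j))⟩)
    (fun i => ⟨_, hf (.inr (.inr i))⟩) (fun j => by rw [hJ]; rfl) fun i => by rw [hJ, hx]; rfl]
    with b hb a ha
  obtain ⟨a', h1, h2⟩ := hb a ha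
  exact ⟨a', (reg _).2 (hC.le _ (hJ ▸ h1)), h2⟩

/-- saturation on a finitely generated module -/
theorem Rel.sat_fin (T : Rel B ν M) {m : ℕ} (hm : 0 < m) {r n : Type} [Fintype r] [Fintype n]
    {τ : r → T.X.O}
    (hτ : ∀ φ, Plu T.dx m φ ↔ φ ∈ Submodule.span K (Set.range fun i => (τ i : M)))
    (φ : n → T.X.O) : ∀ᵐ b ∂B.D.μ, ∀ a : n → ℂ,
      ∫⁻ p, Sat.G m (∑ i, a i * p.1 (φ i)) (fun j => p.1 (τ j)) ∂(T.fib b).μ < ⊤ →
      ∃ c : r → ℂ, ∀ p : T.Fib b, ∑ i, a i * p.1 (φ i) = ∑ j, c j * p.1 (τ j) := by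
  classical
  have : CharZero K := charZero_of_injective_algebraMap (algebraMap ℂ K).injective
  obtain ⟨J, hJ, hfin⟩ := Sat.fin_val T.dx m fun i => (φ i : M)
  let L := Fintype.linearCombination B.O fun i => (φ i : M)
  let L' := Fintype.linearCombination B.O fun i => (τ i : M)
  have sm : ∀ (a : B.O) (x : M), a • x = algebraMap K M a * x := fun a x => Algebra.smul_def (a : K) x
  have hL : ∀ a, L a = ∑ i, algebraMap K M (a i) * φ i := fun a => by
    simp only [L, Fintype.linearCombination_apply, sm]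
  have hL' : ∀ a, L' a = ∑ i, algebraMap K M (a i) * τ i := fun a => by
    simp only [L', Fintype.linearCombination_apply, sm]
  let R : J → Submodule B.O M := fun O =>
    { carrier := {x | RegI T.dx m x O}
      add_mem' := RegI.add
      zero_mem' := RegI.zero m _
      smul_mem' := fun a x hx => by
        rw [sm]
        exact hx.mem_mul ((hJ _ O.2).const _) }
  obtain ⟨S, s1, s2, s3⟩ := Sat.spread_inf fun O => (R O).comap L
  obtain ⟨d, hd, hden⟩ := Sat.exists_den ((LinearMap.range L').comap L)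
  filter_upwards [(ae_ball_iff s1).2 fun d hd => FibRed.ae_ne B (s2 d hd), FibRed.ae_ne B hd,
    ae_all_iff.2 fun O : J => T.sat_at hm τ φ (hJ _ O.2) fun j =>
      (hτ _).2 (Submodule.subset_span ⟨j, rfl⟩) _ (hJ _ O.2)] with b h1 h2 h3 a ha
  obtain ⟨v, v1, v2⟩ := s3 _ (Sat.ker_max b) h1 (fun i => algebraMap ℂ _ (a i)) fun O => by
    obtain ⟨a', e1, e2⟩ := h3 O a ha
    exact ⟨a', by rwa [← hL] at e1, (Sat.mem_smul b _).2 fun i => by simp [e2 i]⟩
  have v3 : ∀ i, a i = b (v i) := fun i => by simpa [sub_eq_zero] using (Sat.mem_smul b _).1 v2 i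
  obtain ⟨c, hc⟩ := (Submodule.mem_span_range_iff_exists_fun K).1 ((hτ _).1
    (hfin (fun i => v i) fun O hO => by rw [← hL]; exact v1 ⟨O, hO⟩))
  obtain ⟨e, he, hce⟩ := exists_den B.frac (Finset.univ.image c)
  choose c' hc' using fun j => hce _ (Finset.mem_image_of_mem c (Finset.mem_univ j))
  obtain ⟨c'', h4⟩ := hden e v he ⟨c', by
    rw [map_smul, hL, hL', ← hc, sm, Finset.mul_sum]
    exact Finset.sum_congr rfl fun j _ => by rw [← hc', map_mul, Algebra.smul_def]; ring⟩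
  have h5 : ∑ j, T.inc (c'' j) * τ j = T.inc d * ∑ i, T.inc (v i) * φ i := Subtype.ext (by
    rw [map_smul, hL, hL', sm] at h4
    simpa only [MulMemClass.coe_mul, AddSubmonoidClass.coe_finsetSum, T.inc_eq] using h4)
  refine ⟨fun j => b (c'' j) / b d, fun p => ?_⟩
  have h6 : ∀ a, p.1 (T.inc a) = b a := fun a => DFunLike.congr_fun p.2 a
  have h7 := congrArg p.1 h5
  simp only [map_sum, map_mul, h6, ← v3] at h7
  simp only [div_mul_eq_mul_div, ← Finset.sum_div, h7, mul_div_cancel_left₀ _ h2]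

/-- SATURATION -/
theorem Fam.sat (T : Fam B ν M) {m : ℕ} (hm : 0 < m) {r : Type} [Fintype r] {τ : r → T.X.O}
    (hτ : ∀ φ, Plu T.dx m φ ↔ φ ∈ Submodule.span K (Set.range fun i => (τ i : M))) :
    ∀ᵐ b ∂B.D.μ, ∀ (g : MvPolynomial ν ℂ) (u : T.Fib b → ℂ), g ≠ 0 →
      (∀ p, MvPolynomial.eval ((T.fib b).π p) g ≠ 0 →
        DifferentiableAt ℂ (fun z => u ((T.fib b).sec p z)) ((T.fib b).π p)) →
      ∫⁻ p, ENNReal.ofReal (‖u p‖ ^ 2) *
        ENNReal.ofReal (∑ i, ‖p.1 (τ i)‖ ^ 2) ^ (-((m - 1) / m) : ℝ) ∂(T.fib b).μ < ⊤ →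
      ∃ a : r → ℂ, ∀ p, MvPolynomial.eval ((T.fib b).π p) g ≠ 0 → u p = ∑ i, a i * p.1 (τ i) := by
  obtain ⟨s, hs, e⟩ := FibRed.countable_span T.X.O
  filter_upwards [B.D.ae_of_gen T.gen_Δ, (ae_ball_iff (W.countable_finset_subset hs)).2
    fun F _ => T.sat_fin hm hτ fun i : F => i.1] with b h1 h2 g u hg hu hi
  obtain ⟨φ, hφ⟩ := T.sat_alg hm τ h1 hg hu hi
  obtain ⟨F, hF, h3⟩ := Submodule.mem_span_finite_of_mem_span
    (e ▸ Submodule.mem_top : φ ∈ Submodule.span ℂ s)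
  obtain ⟨a, -, rfl⟩ := Submodule.mem_span_finset.1 h3
  have h4 : ∀ p : T.Fib b, p.1 (∑ i ∈ F, a i • i) = ∑ i : F, a i * p.1 i := fun p => by
    simp only [map_sum, map_smul, smul_eq_mul]
    exact (Finset.sum_coe_sort F fun i => a i * p.1 i).symm
  obtain ⟨c, hc⟩ := h2 F hF (fun i => a i) (lt_of_eq_of_lt (lintegral_congr_ae
    (((T.fib b).null_poly hg).mono fun p hp => by simp only [← h4, ← hφ p hp]; rfl)) hi)
  exact ⟨c, fun p hp => by rw [hφ p hp, h4, hc]⟩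

end Pool.Agent.Lib.MP_5c318e_ag
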