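import Pool.Agent.Lib.MP_5c318e_ag.S.RSub

/-! Saturation on a power from saturation on the factor. -/

set_option autoImplicit false

namespace Pool.Agent.Lib.MP_5c318e_ag

open MeasureTheory Set Filter Topology Function

theorem exists_tensor_fin {S r : Type} [Fintype r] (t : r → S → ℂ) (n : ℕ) :
    ∀ {f : (Fin n → S) → ℂ},
      (∀ k p, ∃ a : r → ℂ, ∀ x, f (update p k x) = ∑ i, a i * t i x) →
      ∃ c : (Fin n → r) → ℂ, ∀ p, f p = ∑ I, c I * ∏ k, t (I k) (p k) := by
  let L : (r → ℂ) →ₗ[ℂ] S → ℂ := Fintype.linearCombination ℂ t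
  have hL : ∀ a x, L a x = ∑ i, a i * t i x := fun a x => by
    simp [L, Fintype.linearCombination_apply, Finset.sum_apply]
  obtain ⟨G, hG⟩ : ∃ G : (S → ℂ) →ₗ[ℂ] r → ℂ, ∀ a, L (G (L a)) = L a := by
    obtain ⟨g, hg⟩ := L.rangeRestrict.exists_rightInverse_of_surjective L.range_rangeRestrict
    obtain ⟨G, hG⟩ := g.exists_extend
    exact ⟨G, fun a => by
      have h1 := LinearMap.congr_fun hG ⟨L a, a, rfl⟩
      have h2 := congrArg Subtype.val (LinearMap.congr_fun hg ⟨L a, a, rfl⟩)
      exact (congrArg L h1).trans h2⟩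
  induction n with
  | zero => exact fun {f} _ => ⟨fun _ => f default, fun p => by simp [Subsingleton.elim p default]⟩
  | succ n ih =>
    intro f h
    have key : ∀ i, ∃ c : (Fin n → r) → ℂ, ∀ q : Fin n → S,
        G (fun x => f (Fin.cons x q)) i = ∑ I, c I * ∏ k, t (I k) (q k) := fun i => ih fun k q => by
      choose a ha using fun x => h k.succ (Fin.cons x q)
      refine ⟨fun l => G (fun x => a x l) i, fun y => ?_⟩
      have : (fun x => f (Fin.cons x (update q k y))) = ∑ l, t l y • fun x => a x l := by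
        funext x
        rw [Fin.cons_update, ha]
        simp [Finset.sum_apply, mul_comm]
      rw [this, map_sum]
      simp [Finset.sum_apply, mul_comm]
    choose c hc using key
    refine ⟨fun I => c (I 0) (Fin.tail I), fun p => ?_⟩
    obtain ⟨a, ha⟩ := h 0 p
    have e : (fun x => f (Fin.cons x (Fin.tail p))) = L a := funext fun x => by
      rw [hL, ← ha, ← Fin.update_cons_zero (p 0), Fin.cons_self_tail]
    have := congrFun (hG a) (p 0)
    rw [← e, hL] at this
    simp only [Fin.cons_self_tail] at this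
    rw [← this, ← (Fin.consEquiv fun _ => r).sum_comp, Fintype.sum_prod_type]
    refine Finset.sum_congr rfl fun i _ => ?_
    rw [hc, Finset.sum_mul]
    refine Finset.sum_congr rfl fun I _ => ?_
    simp [Fin.consEquiv, Fin.prod_univ_succ, Fin.tail]
    ring

/-- slotwise membership in finite dimensional function spaces gives a tensor -/
theorem exists_tensor {κ : Type} [Fintype κ] [DecidableEq κ] {S r : Type} [Fintype r]
    (t : r → S → ℂ) {f : (κ → S) → ℂ}
    (h : ∀ k p, ∃ a : r → ℂ, ∀ x, f (Function.update p k x) = ∑ i, a i * t i x) :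
    ∃ c : (κ → r) → ℂ, ∀ p, f p = ∑ I, c I * ∏ k, t (I k) (p k) := by
  let e := Fintype.equivFin κ
  obtain ⟨c, hc⟩ := exists_tensor_fin t _ (f := fun q => f (q ∘ e)) fun k q => by
    obtain ⟨a, ha⟩ := h (e.symm k) (q ∘ e)
    exact ⟨a, fun x => by rw [update_comp_equiv, ha]⟩
  refine ⟨fun I => c (I ∘ e.symm), fun p => ?_⟩
  have := hc (p ∘ e.symm)
  rw [comp_assoc, e.symm_comp_self, comp_id] at this
  rw [this, ← (e.symm.arrowCongr (Equiv.refl r)).sum_comp]
  refine Finset.sum_congr rfl fun I _ => ?_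
  congr 1
  · congr 1
    funext k
    simp
  · rw [← e.symm.prod_comp]
    simp

/-- slices of an integrable function are integrable -/
theorem ae_slice_lt_top {κ : Type} [Fintype κ] [DecidableEq κ] {S : Type} [MeasurableSpace S]
    (μ : Measure S) [SigmaFinite μ] {F : (κ → S) → ENNReal} (hF : Measurable F)
    (hi : ∫⁻ p, F p ∂(Measure.pi fun _ => μ) < ⊤) (k : κ) :
    ∀ᵐ p ∂(Measure.pi fun _ : κ => μ), ∫⁻ x, F (update p k x) ∂μ < ⊤ := by
  have m : Measurable fun p => ∫⁻ x, F (update p k x) ∂μ := by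
    have := hF.lmarginal (fun _ : κ => μ) (s := {k})
    rwa [lmarginal_singleton] at this
  have mB : MeasurableSet {p : κ → S | ∫⁻ x, F (update p k x) ∂μ = ⊤} :=
    m (measurableSet_singleton _)
  have := lintegral_le_of_lmarginal_le (μ := fun _ : κ => μ) {k}
    ((measurable_const (a := (⊤ : ENNReal))).indicator mB) hF fun p => by
      simp only [lmarginal_singleton]
      by_cases hp : ∫⁻ x, F (update p k x) ∂μ = ⊤
      · exact le_top.trans hp.ge
      · simp [indicator, hp]
  rw [lintegral_indicator_const mB] at this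
  have z := (ENNReal.mul_lt_top_iff.1 (this.trans_lt hi)).resolve_left fun h => lt_irrefl _ h.1
  simpa only [ae_iff, not_lt, top_le_iff] using z.resolve_left ENNReal.top_ne_zero

/-- saturation on a power from saturation on the factor -/
theorem RD.sat_pi {ν : Type} [Fintype ν] [DecidableEq ν] {S : Type} [TopologicalSpace S]
    [MeasurableSpace S] [BorelSpace S] [T2Space S]
    [SigmaCompactSpace S] (D : RD ν S) {r : Type} [Fintype r] {t : r → S → ℂ} (ht : ∀ i, D.Hol (t i))
    {ω : S → ENNReal} (hω : Measurable ω) (h0 : ∀ᵐ p ∂D.μ, ω p ≠ 0)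
    (hs : ∀ u : S → ℂ, D.Hol u → ∫⁻ p, ENNReal.ofReal (‖u p‖ ^ 2) * ω p ∂D.μ < ⊤ →
      ∃ a : r → ℂ, ∀ p, u p = ∑ i, a i * t i p)
    {κ : Type} [Fintype κ] [DecidableEq κ] {f : (κ → S) → ℂ} (hc : Continuous f)
    (hf : ∀ k p, D.Hol fun x => f (Function.update p k x))
    (hi : ∫⁻ p, ENNReal.ofReal (‖f p‖ ^ 2) * ∏ k, ω (p k) ∂(Measure.pi fun _ : κ => D.μ) < ⊤) :
    ∃ c : (κ → r) → ℂ, ∀ p, f p = ∑ I, c I * ∏ k, t (I k) (p k) := by
  have _ := ht
  have := D.secondCountable
  have := D.openPos
  refine exists_tensor t fun k => ?_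
  let W := Submodule.span ℂ (range t)
  have : FiniteDimensional ℂ W := FiniteDimensional.span_of_finite ℂ (finite_range t)
  have cl : IsClosed {p : κ → S | (fun x => f (update p k x)) ∈ W} :=
    W.closed_of_finiteDimensional.preimage (continuous_pi fun x => hc.comp (by fun_prop))
  have ae : ∀ᵐ p ∂(Measure.pi fun _ : κ => D.μ), (fun x => f (update p k x)) ∈ W := by
    filter_upwards [ae_slice_lt_top D.μ (by fun_prop) hi k, eventually_all.2 fun j =>
      (Measure.quasiMeasurePreserving_eval (fun _ : κ => D.μ) j).ae h0] with p h1 h2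
    simp only [Finset.prod_update_of_mem (Finset.mem_univ k), apply_update (fun _ => ω),
      ← mul_assoc] at h1
    rw [lintegral_mul_const'' _ (by
      have := (hf k p).cont
      fun_prop)] at h1
    obtain ⟨a, ha⟩ := hs _ (hf k p) ((ENNReal.mul_lt_top_iff.1 h1).elim (·.1) fun h => h.elim
      (fun h => h ▸ ENNReal.zero_lt_top) fun h => absurd h (Finset.prod_ne_zero_iff.2 fun j _ => h2 j))
    exact (Submodule.mem_span_range_iff_exists_fun ℂ).2 ⟨a, funext fun x => by
      simp [ha, Finset.sum_apply]⟩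
  intro p
  have hp : (fun x => f (update p k x)) ∈ W :=
    cl.closure_subset (Measure.dense_of_ae ae p)
  obtain ⟨a, ha⟩ := (Submodule.mem_span_range_iff_exists_fun ℂ).1 hp
  exact ⟨a, fun x => by simp [← congrFun ha x, Finset.sum_apply]⟩

end Pool.Agent.Lib.MP_5c318e_ag
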