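import Pool.Agent.Lib.MP_5c318e_ag.S.PBas
import Pool.Agent.Lib.MP_5c318e_ag.RD.RInt
import Pool.Agent.Lib.MP_5c318e_ag.Jac0

/-! Etale algebras over a polynomial ring are charts. -/

set_option autoImplicit false
set_option linter.unusedSectionVars false

namespace Pool.Agent.Lib.MP_5c318e_ag

open Polynomial Filter Topology Set
open scoped ContDiff

noncomputable section

namespace Sheet

variable {ι : Type} [Fintype ι]

/-- evaluation of a polynomial over `ℂ[z]` at `(w, s)` -/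
def ev3 (q : (MvPolynomial ι ℂ)[X]) (u : (ι → ℂ) × ℂ) : ℂ := ev2 q u.1 u.2

theorem mv_analytic (a : MvPolynomial (ι) ℂ) (w : ι → ℂ) :
    AnalyticAt ℂ (fun w : ι → ℂ => MvPolynomial.eval w a) w := by
  induction a using MvPolynomial.induction_on with
  | C c => simpa using analyticAt_const
  | add p q hp hq => simpa using hp.fun_add hq
  | mul_X p i hp =>
    have : AnalyticAt ℂ (fun w : ι → ℂ => w i) w :=
      (ContinuousLinearMap.proj (R := ℂ) (φ := fun _ : ι => ℂ) i).analyticAt w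
    simpa using hp.fun_mul this

theorem ev3_analytic (q : (MvPolynomial (ι) ℂ)[X]) (u : (ι → ℂ) × ℂ) :
    AnalyticAt ℂ (ev3 q) u := by
  induction q using Polynomial.induction_on' with
  | add p q hp hq =>
    have : ev3 (p + q) = fun u => ev3 p u + ev3 q u := by
      funext u; simp [ev3, ev2, eval₂_add]
    rw [this]; exact hp.add hq
  | monomial k a =>
    have : ev3 (monomial k a) = fun u : (ι → ℂ) × ℂ => MvPolynomial.eval u.1 a * u.2 ^ k := by
      funext u; simp [ev3, ev2, eval₂_monomial]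
    rw [this]
    exact ((mv_analytic a u.1).comp analyticAt_fst).mul (analyticAt_snd.pow k)

theorem ev3_eq (q : (MvPolynomial (ι) ℂ)[X]) (w : ι → ℂ) (s : ℂ) :
    ev3 q (w, s) = (q.map (MvPolynomial.eval w)).eval s := by
  simp [ev3, ev2, eval_map]

theorem ev3_deriv (q : (MvPolynomial (ι) ℂ)[X]) (w : ι → ℂ) (s : ℂ) :
    HasDerivAt (fun s => ev3 q (w, s)) (ev3 (derivative q) (w, s)) s := by
  simp only [ev3_eq]
  rw [← derivative_map]
  exact Polynomial.hasDerivAt _ s

/-- the analytic implicit function of a simple root -/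
theorem exists_root (q : (MvPolynomial (ι) ℂ)[X]) (u : (ι → ℂ) × ℂ) (h0 : ev3 q u = 0)
    (h1 : ev3 (derivative q) u ≠ 0) :
    ∃ θ : (ι → ℂ) → ℂ, AnalyticAt ℂ θ u.1 ∧ θ u.1 = u.2 ∧
      (∀ᶠ w in 𝓝 u.1, ev3 q (w, θ w) = 0) ∧ ∀ᶠ v in 𝓝 u, ev3 q v = 0 → θ v.1 = v.2 := by
  have cdf : ContDiffAt ℂ ω (ev3 q) u := (ev3_analytic q u).contDiffAt
  have hd : HasFDerivAt (ev3 q) (fderiv ℂ (ev3 q) u) u :=
    (ev3_analytic q u).differentiableAt.hasFDerivAt
  have h2 : HasFDerivAt (fun s : ℂ => ev3 q (u.1, s))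
      (fderiv ℂ (ev3 q) u ∘L .inr ℂ (ι → ℂ) ℂ) u.2 :=
    HasFDerivAt.comp (f := fun s : ℂ => (u.1, s)) u.2 hd (hasFDerivAt_prodMk_right u.1 u.2)
  have h3 := (ev3_deriv q u.1 u.2).hasFDerivAt
  have h4 := h2.unique h3
  have hinv : (fderiv ℂ (ev3 q) u ∘L .inr ℂ (ι → ℂ) ℂ).IsInvertible := by
    rw [h4]
    refine ⟨ContinuousLinearEquiv.unitsEquivAut ℂ (Units.mk0 _ h1), ?_⟩
    ext
    simp
  refine ⟨cdf.implicitFunction (by simp) hinv, ?_, cdf.implicitFunction_apply_self _ hinv, ?_, ?_⟩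
  · exact (cdf.contDiffAt_implicitFunction _ hinv).analyticAt
  · simpa [h0] using cdf.eventually_apply_implicitFunction (by simp) hinv
  · filter_upwards [cdf.eventually_apply_eq_iff_implicitFunction (by simp) hinv] with v hv h
    exact hv.1 (by rw [h, h0])

variable {O : Type} [CommRing O] [Algebra ℂ O] [Algebra (MvPolynomial (ι) ℂ) O]
  [IsScalarTower ℂ (MvPolynomial (ι) ℂ) O]

variable (ι) in
/-- base coordinates of a point -/
def zc (y : O →ₐ[ℂ] ℂ) : ι → ℂ :=
  fun i => y (algebraMap (MvPolynomial (ι) ℂ) O (MvPolynomial.X i))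

theorem apply_algebraMap (y : O →ₐ[ℂ] ℂ) (a : MvPolynomial (ι) ℂ) :
    y (algebraMap (MvPolynomial (ι) ℂ) O a) = MvPolynomial.eval (zc ι y) a := by
  induction a using MvPolynomial.induction_on with
  | C c =>
    rw [← MvPolynomial.algebraMap_eq, ← IsScalarTower.algebraMap_apply]
    simp
  | add p q hp hq => simp [hp, hq]
  | mul_X p i hp => simp [hp, zc]

theorem apply_aeval (y : O →ₐ[ℂ] ℂ) (x : O) (q : (MvPolynomial (ι) ℂ)[X]) :
    y (aeval x q) = ev3 q (zc ι y, y x) := by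
  rw [aeval_def, ev3, ev2]
  have := Polynomial.hom_eval₂ q (algebraMap (MvPolynomial (ι) ℂ) O) (y : O →+* ℂ) x
  refine this.trans ?_
  congr 1
  ext1
  · ext c; simpa using apply_algebraMap y (MvPolynomial.C c)
  · simpa using apply_algebraMap y (MvPolynomial.X _)

variable (E : StandardEtalePresentation (MvPolynomial (ι) ℂ) O)

theorem pt_f (y : O →ₐ[ℂ] ℂ) : ev3 E.f (zc ι y, y E.x) = 0 := by
  rw [← apply_aeval, E.hasMap.1, map_zero]

theorem pt_g (y : O →ₐ[ℂ] ℂ) : ev3 E.g (zc ι y, y E.x) ≠ 0 := by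
  rw [← apply_aeval]; exact (E.hasMap.2.map y).ne_zero

theorem pt_f' (y : O →ₐ[ℂ] ℂ) : ev3 (derivative E.f) (zc ι y, y E.x) ≠ 0 := by
  rw [← apply_aeval]; exact (E.hasMap.isUnit_derivative_f.map y).ne_zero

/-- every element is a fixed rational function of the coordinates -/
theorem exists_rat (f : O) : ∃ (p : (MvPolynomial (ι) ℂ)[X]) (m : ℕ), ∀ y : O →ₐ[ℂ] ℂ,
    y f = ev3 p (zc ι y, y E.x) / ev3 E.g (zc ι y, y E.x) ^ m := by
  obtain ⟨p, m, h⟩ := E.exists_mul_aeval_x_g_pow_eq_aeval_x f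
  refine ⟨p, m, fun y => ?_⟩
  rw [eq_div_iff (pow_ne_zero _ (pt_g E y)), ← apply_aeval, ← apply_aeval, ← h]
  simp

theorem pt_ext {y y' : O →ₐ[ℂ] ℂ} (h1 : zc ι y = zc ι y') (h2 : y E.x = y' E.x) : y = y' := by
  ext f
  obtain ⟨p, m, h⟩ := exists_rat E f
  rw [h, h, h1, h2]

theorem exists_pt (w : ι → ℂ) (s : ℂ) (h1 : ev3 E.f (w, s) = 0) (h2 : ev3 E.g (w, s) ≠ 0) :
    ∃ y : O →ₐ[ℂ] ℂ, zc ι y = w ∧ y E.x = s := by
  let _ : Algebra (MvPolynomial (ι) ℂ) ℂ := (MvPolynomial.eval w).toAlgebra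
  have hm : E.P.HasMap s := ⟨h1, Ne.isUnit h2⟩
  let φ : O →ₐ[MvPolynomial (ι) ℂ] ℂ := (E.P.lift s hm).comp E.equivRing.toAlgHom
  have hφ : ∀ a, φ (algebraMap (MvPolynomial (ι) ℂ) O a) = MvPolynomial.eval w a :=
    fun a => φ.commutes a
  refine ⟨{ toRingHom := φ, commutes' := fun c => ?_ }, ?_, ?_⟩
  · change φ _ = _
    rw [IsScalarTower.algebraMap_apply ℂ (MvPolynomial (ι) ℂ) O, hφ]
    simp
  · funext i
    change φ _ = _
    rw [hφ]; simp
  · change φ _ = _
    simp [φ]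

/-- the sheet through a point -/
theorem exists_sheet (p : O →ₐ[ℂ] ℂ) :
    ∃ σ : (ι → ℂ) → (O →ₐ[ℂ] ℂ), σ (zc ι p) = p ∧ (∀ᶠ w in 𝓝 (zc ι p), zc ι (σ w) = w) ∧
      (∀ᶠ w in 𝓝 (zc ι p), ∀ f, AnalyticAt ℂ (fun w => σ w f) w) ∧
      ∀ᶠ v in 𝓝 (zc ι p, p E.x), ∀ y : O →ₐ[ℂ] ℂ, (zc ι y, y E.x) = v → σ (zc ι y) = y := by
  classical
  obtain ⟨θ, ha, h0, h1, h2⟩ := exists_root E.f (zc ι p, p E.x) (pt_f E p) (pt_f' E p)
  simp only at ha h0 h1
  have hpair : AnalyticAt ℂ (fun w => (w, θ w)) (zc ι p) := analyticAt_id.prod ha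
  have hg : ∀ᶠ w in 𝓝 (zc ι p), ev3 E.g (w, θ w) ≠ 0 := by
    have : ContinuousAt (fun w => ev3 E.g (w, θ w)) (zc ι p) :=
      (AnalyticAt.comp (f := fun w => (w, θ w)) (ev3_analytic E.g _) hpair).continuousAt
    refine this.eventually_ne ?_
    rw [h0]; exact pt_g E p
  let σ : (ι → ℂ) → (O →ₐ[ℂ] ℂ) := fun w =>
    if h : ev3 E.f (w, θ w) = 0 ∧ ev3 E.g (w, θ w) ≠ 0 then (exists_pt E w _ h.1 h.2).choose else p
  have hσ : ∀ w, ev3 E.f (w, θ w) = 0 → ev3 E.g (w, θ w) ≠ 0 →
      zc ι (σ w) = w ∧ σ w E.x = θ w := by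
    intro w a b
    have : σ w = (exists_pt E w _ a b).choose := dif_pos ⟨a, b⟩
    rw [this]; exact (exists_pt E w _ a b).choose_spec
  have hev : ∀ᶠ w in 𝓝 (zc ι p), zc ι (σ w) = w ∧ σ w E.x = θ w ∧ ev3 E.g (w, θ w) ≠ 0 := by
    filter_upwards [h1, hg] with w a b
    exact ⟨(hσ w a b).1, (hσ w a b).2, b⟩
  refine ⟨σ, ?_, hev.mono fun w h => h.1, ?_, ?_⟩
  · have := hev.self_of_nhds
    exact pt_ext E this.1 (this.2.1.trans h0)
  · filter_upwards [hev.eventually_nhds, ha.eventually_analyticAt] with w hw haw f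
    obtain ⟨q, m, h⟩ := exists_rat E f
    have hp : AnalyticAt ℂ (fun w => (w, θ w)) w := analyticAt_id.prod haw
    have : AnalyticAt ℂ (fun w => ev3 q (w, θ w) / ev3 E.g (w, θ w) ^ m) w :=
      (AnalyticAt.comp (f := fun w => (w, θ w)) (ev3_analytic q _) hp).div
        ((AnalyticAt.comp (f := fun w => (w, θ w)) (ev3_analytic E.g _) hp).pow m)
        (pow_ne_zero _ hw.self_of_nhds.2.2)
    refine this.congr ?_
    filter_upwards [hw] with w' hw'
    rw [h, hw'.1, hw'.2.1]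
  · filter_upwards [h2] with v hv y hy
    subst hy
    have e : θ (zc ι y) = y E.x := hv (pt_f E y)
    have := hσ (zc ι y) (by rw [e]; exact pt_f E y) (by rw [e]; exact pt_g E y)
    exact pt_ext E this.1 (this.2.trans e)


/-- the sheet through a point of an etale algebra -/
theorem exists_sheet_etale [Algebra.Etale (MvPolynomial ι ℂ) O] (p : Pt O) :
    ∃ σ : (ι → ℂ) → Pt O, σ (zc ι p.hom) = p ∧ (∀ᶠ w in 𝓝 (zc ι p.hom), zc ι (σ w).hom = w) ∧
      (∀ᶠ w in 𝓝 (zc ι p.hom), ∀ f, AnalyticAt ℂ (fun w => σ w f) w) ∧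
      ∀ᶠ y in 𝓝 p, σ (zc ι y.hom) = y := by
  have hQ : (RingHom.ker p.hom).IsPrime := RingHom.ker_isPrime _
  obtain ⟨f, hf, ⟨⟨E⟩⟩⟩ := Algebra.IsEtaleAt.exists_isStandardEtale (R := MvPolynomial ι ℂ)
    (RingHom.ker p.hom)
  have hf : p f ≠ 0 := hf
  let L := Localization.Away f
  let lift : ∀ y : Pt O, y f ≠ 0 → (L →ₐ[ℂ] ℂ) := fun y hy =>
    IsLocalization.liftAlgHom (M := Submonoid.powers f) (f := y.hom) fun ⟨_, k, hk⟩ => by
      subst hk
      exact Ne.isUnit (by simpa using fun h => (hy h).elim)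
  have hl : ∀ y hy (a : O), lift y hy (algebraMap O L a) = y a := fun y hy a => by
    simp [lift]
  let dn : (L →ₐ[ℂ] ℂ) → Pt O := fun u => Pt.mk (u.comp (IsScalarTower.toAlgHom ℂ O L))
  have hz : ∀ u, zc ι (dn u).hom = zc ι u := fun u => funext fun i => by
    simp only [zc]
    rw [IsScalarTower.algebraMap_apply (MvPolynomial ι ℂ) O L]
    rfl
  have hdn : ∀ y hy, dn (lift y hy) = y := fun y hy => Pt.ext fun a => hl y hy a
  have hz' : ∀ y hy, zc ι (lift y hy) = zc ι y.hom := fun y hy => by rw [← hz, hdn y hy]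
  obtain ⟨σ, h0, h1, h2, h3⟩ := exists_sheet E (lift p hf)
  rw [hz' p hf] at h0 h1 h2 h3
  refine ⟨fun w => dn (σ w), (congrArg dn h0).trans (hdn p hf), h1.mono fun w hw => by rw [hz, hw],
    h2.mono fun w hw a => hw (algebraMap O L a), ?_⟩
  obtain ⟨⟨a, _, k, rfl⟩, ha⟩ := IsLocalization.surj (Submonoid.powers f) E.x
  have hx : ∀ y hy, lift y hy E.x = y a / y f ^ k := fun y hy => by
    have := congrArg (lift y hy) ha
    rw [map_mul, hl y hy, hl y hy, map_pow] at this
    rw [eq_div_iff (pow_ne_zero _ hy), this]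
  have hc : ContinuousAt (fun y : Pt O => (zc ι y.hom, y a / y f ^ k)) p :=
    (continuous_pi fun i => Pt.continuous_apply _).continuousAt.prodMk
      ((Pt.continuous_apply a).continuousAt.div ((Pt.continuous_apply f).pow k).continuousAt
        (pow_ne_zero _ hf))
  rw [hx p hf] at h3
  filter_upwards [hc.eventually h3, (Pt.continuous_apply f).continuousAt.eventually_ne hf] with
    y hy hyf
  have := hy (lift y hyf) (by rw [hz' y hyf, hx y hyf])
  rw [hz' y hyf] at this
  rw [this, hdn y hyf]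

end Sheet

/-- a map with continuous two sided local inverses is a local homeomorphism -/
theorem isLocalHomeomorph_of_sec {S T : Type} [TopologicalSpace S] [TopologicalSpace T] {π : S → T}
    (hπ : Continuous π) (h : ∀ p, ∃ σ : T → S, σ (π p) = p ∧
      (∀ᶠ w in 𝓝 (π p), π (σ w) = w ∧ ContinuousAt σ w) ∧ ∀ᶠ y in 𝓝 p, σ (π y) = y) :
    IsLocalHomeomorph π := fun p => by
  obtain ⟨σ, h0, h1, h2⟩ := h p
  obtain ⟨V, hV, hVo, hpV⟩ := eventually_nhds_iff.1 h1
  obtain ⟨U, hU, hUo, hpU⟩ := eventually_nhds_iff.1 h2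
  have hσ : ContinuousOn σ V := fun w hw => (hV w hw).2.continuousWithinAt
  exact ⟨{ toFun := π, invFun := σ, source := U ∩ π ⁻¹' V, target := V ∩ σ ⁻¹' U
           map_source' := fun y hy => ⟨hy.2, by rw [mem_preimage, hU y hy.1]; exact hy.1⟩
           map_target' := fun w hw => ⟨hw.2, by rw [mem_preimage, (hV w hw.1).1]; exact hw.1⟩
           left_inv' := fun y hy => hU y hy.1
           right_inv' := fun w hw => (hV w hw.1).1
           open_source := hUo.inter (hVo.preimage hπ)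
           open_target := hσ.isOpen_inter_preimage hVo hUo
           continuousOn_toFun := hπ.continuousOn
           continuousOn_invFun := hσ.mono inter_subset_left }, ⟨hpU, hpV⟩, rfl⟩

section der

variable {k ι O : Type} [CommRing k] [Fintype ι] [DecidableEq ι] [CommRing O] [Algebra k O]

/-- the coordinate derivations of an etale algebra; every derivation is a combination of them -/
theorem exists_pd (z : ι → O)
    (h : (MvPolynomial.aeval z : MvPolynomial ι k →ₐ[k] O).toRingHom.Etale) :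
    ∃ pd : ι → Derivation k O O, (∀ i j, pd i (z j) = if i = j then 1 else 0) ∧
      ∀ (L : Type) [CommRing L] [Algebra k L] (q : O →ₐ[k] L) (D : O →ₗ[k] L),
        (∀ a b, D (a * b) = q a * D b + q b * D a) → ∀ φ, D φ = ∑ i, q (pd i φ) * D (z i) := by
  let P := MvPolynomial ι k
  let _ : Algebra P O := (MvPolynomial.aeval z : P →ₐ[k] O).toRingHom.toAlgebra
  have hP : ∀ a : P, algebraMap P O a = MvPolynomial.aeval z a := fun _ => rfl
  have : IsScalarTower k P O := .of_algebraMap_eq fun c => by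
    rw [hP]; exact ((MvPolynomial.aeval z).commutes c).symm
  have : Algebra.Etale P O := h
  let b := ((KaehlerDifferential.mvPolynomialBasis k ι).baseChange O).map
      (KaehlerDifferential.tensorKaehlerEquivOfFormallyEtale k P O)
  have hb : ∀ a, b a = KaehlerDifferential.D k O (z a) := fun a => by
    rw [Module.Basis.map_apply, Module.Basis.baseChange_apply,
      KaehlerDifferential.mvPolynomialBasis_apply,
      ← KaehlerDifferential.tensorKaehlerEquivOfFormallyEtale_symm_D_algebraMap k P O,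
      LinearEquiv.apply_symm_apply, hP, MvPolynomial.aeval_X]
  refine ⟨fun i => (b.coord i).compDer (KaehlerDifferential.D k O), fun i j => ?_,
    fun L _ _ q D hD φ => ?_⟩
  · change b.coord i (KaehlerDifferential.D k O (z j)) = _
    rw [← hb, Module.Basis.coord_apply, Module.Basis.repr_self, Finsupp.single_apply]
    simp only [eq_comm]
  · let _ : Algebra O L := q.toRingHom.toAlgebra
    have : IsScalarTower k O L := .of_algebraMap_eq fun c => (q.commutes c).symm
    let D' : Derivation k O L := Derivation.mk' D fun a b => hD a b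
    have e : ∀ a, D a = D'.liftKaehlerDifferential (KaehlerDifferential.D k O a) := fun a =>
      (D'.liftKaehlerDifferential_comp_D a).symm
    rw [e, ← b.sum_repr (KaehlerDifferential.D k O φ), map_sum]
    refine Finset.sum_congr rfl fun i _ => ?_
    rw [map_smul, hb, ← e]
    rfl

end der

variable {ι F : Type} [Fintype ι] [DecidableEq ι] [Field F] [Algebra ℂ F]

/-- the points of an etale algebra form a Riemann domain on which all elements are holomorphic -/
theorem exists_rd_etale {O : Type} [CommRing O] [Algebra ℂ O] (z : ι → O)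
    (h : (MvPolynomial.aeval z : MvPolynomial ι ℂ →ₐ[ℂ] O).toRingHom.Etale) :
    Algebra.FiniteType ℂ O ∧ ∃ D : RD ι (Pt O), (∀ p i, D.π p i = p (z i)) ∧
      ∀ φ : O, D.Hol fun p => p φ := by
  let P := MvPolynomial ι ℂ
  let _ : Algebra P O := (MvPolynomial.aeval z : P →ₐ[ℂ] O).toRingHom.toAlgebra
  have hP : ∀ a : P, algebraMap P O a = MvPolynomial.aeval z a := fun _ => rfl
  have : IsScalarTower ℂ P O := .of_algebraMap_eq fun c => by
    rw [hP]; exact ((MvPolynomial.aeval z).commutes c).symm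
  have : Algebra.Etale P O := h
  have hft : Algebra.FiniteType ℂ O := .trans (S := P) inferInstance inferInstance
  have hz : ∀ p : Pt O, Sheet.zc ι p.hom = fun i => p (z i) := fun p => funext fun i =>
    congrArg p ((hP _).trans (MvPolynomial.aeval_X z i))
  choose σ h0 h1 h2 h3 using fun p : Pt O => Sheet.exists_sheet_etale (ι := ι) p
  have hc : ∀ p, ∀ᶠ w in 𝓝 (Sheet.zc ι p.hom), ContinuousAt (σ p) w := fun p =>
    (h2 p).mono fun w hw => Pt.continuousAt_iff.2 fun f => (hw f).continuousAt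
  obtain ⟨D, hD⟩ := RD.exists_of (fun p : Pt O => Sheet.zc ι p.hom)
    (isLocalHomeomorph_of_sec (continuous_pi fun i => Pt.continuous_apply _)
      fun p => ⟨σ p, h0 p, (h1 p).and (hc p), h3 p⟩)
  refine ⟨hft, D, fun p i => by rw [hD]; exact congrFun (hz p) i, fun φ p => ?_⟩
  have e := D.sec_unique (x := p) (σ := σ p) (by rw [hD]; exact h0 p)
    (by rw [hD]; exact (hc p).self_of_nhds) (by rw [hD]; exact h1 p)
  have : DifferentiableAt ℂ (fun w => σ p w φ) (D.π p) := by
    rw [hD]; exact ((h2 p).self_of_nhds φ).differentiableAt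
  exact this.congr_of_eventuallyEq (e.mono fun w hw => by simp only [hw])

/-- the derivative at a point is a point derivation -/
theorem RD.fd_pt {O S : Type} [CommRing O] [Algebra ℂ O] [TopologicalSpace S] [MeasurableSpace S]
    (D : RD ι S) (j : S → Pt O) (hol : ∀ φ : O, D.Hol fun p => j p φ) (p : S) (v : ι → ℂ) :
    ∃ L : O →ₗ[ℂ] ℂ, (∀ φ, L φ = D.fd (fun q => j q φ) p v) ∧
      ∀ a b, L (a * b) = j p a * L b + j p b * L a := by
  refine ⟨{ toFun := fun φ => D.fd (fun q => j q φ) p v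
            map_add' := fun a b => ?_
            map_smul' := fun c a => ?_ }, fun _ => rfl, fun a b => ?_⟩
  · simp only [RD.fd, map_add]
    rw [fderiv_fun_add (hol a p) (hol b p)]
    rfl
  · simp only [RD.fd, map_smul, RingHom.id_apply]
    rw [fderiv_fun_const_smul (hol a p)]
    rfl
  · simp only [RD.fd, map_mul, LinearMap.coe_mk, AddHom.coe_mk]
    rw [fderiv_fun_mul (hol a p) (hol b p)]
    simp only [D.sec_self, add_apply, smul_apply, smul_eq_mul]

theorem RD.fd_π {S : Type} [TopologicalSpace S] [MeasurableSpace S] (D : RD ι S) (p : S) (j : ι)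
    (v : ι → ℂ) : D.fd (fun q => D.π q j) p v = v j := by
  have he : (fun w => D.π (D.sec p w) j) =ᶠ[𝓝 (D.π p)]
      (ContinuousLinearMap.proj j : (ι → ℂ) →L[ℂ] ℂ) :=
    (D.π_sec_ev p).mono fun w hw => congrFun hw j
  rw [RD.fd, he.fderiv_eq, ContinuousLinearMap.fderiv, ContinuousLinearMap.proj_apply]

theorem Cht.of_etale (O : Subalgebra ℂ F) (z : ι → O) (hz : IsTranscendenceBasis ℂ fun i => (z i : F))
    (frac : ∀ φ : F, ∃ a b : O, b ≠ 0 ∧ φ * b = a)
    (h : (MvPolynomial.aeval z : MvPolynomial ι ℂ →ₐ[ℂ] O).toRingHom.Etale) :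
    ∃ c : Cht ι F, ∃ _ : c.O = O, ∀ i, (c.z i : F) = z i := by
  obtain ⟨hft, D, hπ, hol⟩ := exists_rd_etale z h
  obtain ⟨pd, hpd, hu⟩ := exists_pd z h
  obtain ⟨d, hd⟩ := der_dual_exists hz.1
  have he : ∀ i (φ : O), d i φ = pd i φ := fun i φ => by
    have := hu F O.val ((d i : F →ₗ[ℂ] F).comp O.val.toLinearMap) (fun a b => by simp) φ
    simpa [hd] using this
  refine ⟨{ O := O, ft := hft, frac := frac, z := z, basis := hz, et := h, der := d
            der_z := fun i j => by rw [hd]; simp only [eq_comm]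
            der_mem := fun i φ hφ => by rw [he i ⟨φ, hφ⟩]; exact (pd i _).2
            D := D, π_eq := hπ, hol := hol, fd_eq := fun φ p i => ?_ }, rfl, fun _ => rfl⟩
  obtain ⟨L, hL, hm⟩ := D.fd_pt id hol p (Pi.single i 1)
  have h1 := hu ℂ p.hom L hm φ
  have h2 : ∀ j, L (z j) = if j = i then 1 else 0 := fun j => by
    rw [hL]
    simp only [id, ← hπ]
    rw [D.fd_π, Pi.single_apply]
  refine (hL φ).symm.trans (h1.trans ?_)
  simp only [h2, mul_ite, mul_one, mul_zero, Finset.sum_ite_eq', Finset.mem_univ, if_true]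
  exact congrArg p (Subtype.ext (he i φ).symm)

end

end Pool.Agent.Lib.MP_5c318e_ag
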