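import Pool.Agent.Lib.MP_5c318e_ag.S.CCov

/-! General evaluation maps of a function field; upper bounds by regular functions. -/

set_option autoImplicit false
set_option linter.unusedSectionVars false

namespace Pool.Agent.Lib.MP_5c318e_ag

open MeasureTheory Set Filter Topology

/-- properties of the evaluation at a point at which finitely many given elements are regular
and, unless zero, invertible -/
def gnr (F : Type) [Field F] [Algebra ℂ F] : Filter (F → ℂ) where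
  sets := {U | ∃ s : Finset F, ∀ (A : Subalgebra ℂ F) (p : Pt A),
    (∀ a ∈ s, p.Reg a ∧ (a ≠ 0 → p.ev a ≠ 0)) → p.ev ∈ U}
  univ_sets := ⟨∅, fun _ _ _ => trivial⟩
  sets_of_superset := fun ⟨s, h⟩ hU => ⟨s, fun A p hp => hU (h A p hp)⟩
  inter_sets := fun ⟨s, h⟩ ⟨s', h'⟩ => by
    classical
    exact ⟨s ∪ s', fun A p hp => ⟨h A p fun a ha => hp a (Finset.mem_union_left _ ha),
      h' A p fun a ha => hp a (Finset.mem_union_right _ ha)⟩⟩

variable {F : Type} [Field F] [Algebra ℂ F]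

namespace gnr

theorem of_fam {κ : Type} [Finite κ] (f : κ → F) {P : (F → ℂ) → Prop}
    (h : ∀ (A : Subalgebra ℂ F) (p : Pt A),
      (∀ i, p.Reg (f i)) → (∀ i, f i ≠ 0 → p.ev (f i) ≠ 0) → P p.ev) : ∀ᶠ e in gnr F, P e :=
  ⟨(finite_range f).toFinset, fun A p hp => h A p (fun i => (hp _ (by simp)).1)
    fun i => (hp _ (by simp)).2⟩

theorem ne {a : F} (ha : a ≠ 0) : ∀ᶠ e in gnr F, e a ≠ 0 :=
  of_fam (fun _ : Unit => a) fun _ _ _ h => h () ha

theorem alg : ∀ᶠ e in gnr F, ∀ c : ℂ, e (algebraMap ℂ F c) = c :=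
  ⟨∅, fun _ p _ => p.ev_alg⟩

theorem one : ∀ᶠ e in gnr F, e 1 = 1 := ⟨∅, fun _ p _ => p.ev_one⟩

theorem zero : ∀ᶠ e in gnr F, e 0 = 0 := ⟨∅, fun _ p _ => p.ev_zero⟩

theorem mul (a b : F) : ∀ᶠ e in gnr F, e (a * b) = e a * e b :=
  of_fam ![a, b] fun _ p h _ => (p.ev_mul (h 0) (h 1)).2

theorem add (a b : F) : ∀ᶠ e in gnr F, e (a + b) = e a + e b :=
  of_fam ![a, b] fun _ p h _ => (p.ev_add (h 0) (h 1)).2

theorem pow (a : F) (n : ℕ) : ∀ᶠ e in gnr F, e (a ^ n) = e a ^ n :=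
  of_fam (fun _ : Unit => a) fun _ p h _ => (p.ev_pow (h ()) n).2

theorem inv (a : F) : ∀ᶠ e in gnr F, e a⁻¹ = (e a)⁻¹ :=
  of_fam (fun _ : Unit => a) fun _ p h h' => by
    rcases eq_or_ne a 0 with rfl | ha
    · simp
    · exact p.ev_inv (h ()) (h' () ha)

theorem div (a b : F) : ∀ᶠ e in gnr F, e (a / b) = e a / e b := by
  filter_upwards [mul a b⁻¹, inv b] with e h1 h2
  rw [div_eq_mul_inv, h1, h2, div_eq_mul_inv]

theorem zpow (a : F) (n : ℤ) : ∀ᶠ e in gnr F, e (a ^ n) = e a ^ n := by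
  obtain ⟨k, rfl | rfl⟩ := n.eq_nat_or_neg
  · simpa using pow a k
  · filter_upwards [inv (a ^ k), pow a k] with e h1 h2
    simp [h1, h2]

theorem sum {κ : Type} (s : Finset κ) (f : κ → F) :
    ∀ᶠ e in gnr F, e (∑ i ∈ s, f i) = ∑ i ∈ s, e (f i) :=
  of_fam (fun i : s => f i) fun _ p h _ => (p.ev_sum s fun i hi => h ⟨i, hi⟩).2

theorem prod {κ : Type} (s : Finset κ) (f : κ → F) :
    ∀ᶠ e in gnr F, e (∏ i ∈ s, f i) = ∏ i ∈ s, e (f i) :=
  of_fam (fun i : s => f i) fun _ p h _ => (p.ev_prod s fun i hi => h ⟨i, hi⟩).2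

/-- all linear combinations of a finite family at once -/
theorem lin {κ : Type} [Fintype κ] (f : κ → F) :
    ∀ᶠ e in gnr F, ∀ a : κ → ℂ, e (∑ i, a i • f i) = ∑ i, a i * e (f i) :=
  of_fam f fun _ p h _ a => by
    have r := fun i => p.ev_mul (p.reg_of_mem (Subalgebra.algebraMap_mem _ (a i))) (h i)
    simp only [Algebra.smul_def]
    rw [(p.ev_sum _ fun i _ => (r i).1).2]
    exact Finset.sum_congr rfl fun i _ => by rw [(r i).2, p.ev_alg]

theorem exists_elt {A : Subalgebra ℂ F} (hA : ∀ φ : F, ∃ a b : A, b ≠ 0 ∧ φ * b = a)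
    {P : (F → ℂ) → Prop} (h : ∀ᶠ e in gnr F, P e) :
    ∃ g : A, g ≠ 0 ∧ ∀ p : Pt A, p g ≠ 0 → P p.ev := by
  obtain ⟨s, hs⟩ := h
  have key : ∀ φ : F, ∃ g : A, g ≠ 0 ∧ ∀ p : Pt A, p g ≠ 0 → p.Reg φ ∧ (φ ≠ 0 → p.ev φ ≠ 0) := by
    intro φ
    obtain ⟨a, b, hb, e⟩ := hA φ
    rcases eq_or_ne φ 0 with rfl | h0
    · exact ⟨b, hb, fun p hp => ⟨⟨a, b, hp, e⟩, fun h => absurd rfl h⟩⟩
    refine ⟨a * b, mul_ne_zero (fun ha => ?_) hb, fun p hp => ?_⟩
    · rw [ha] at e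
      exact mul_ne_zero h0 (fun h => hb (Subtype.ext h)) e
    · rw [map_mul] at hp
      refine ⟨⟨a, b, right_ne_zero_of_mul hp, e⟩, fun _ => ?_⟩
      rw [p.ev_eq (right_ne_zero_of_mul hp) e]
      exact div_ne_zero (left_ne_zero_of_mul hp) (right_ne_zero_of_mul hp)
  choose g g0 hg using key
  refine ⟨∏ φ ∈ s, g φ, Finset.prod_ne_zero_iff.2 fun φ _ => g0 φ, fun p hp => hs A p fun φ hφ =>
    hg φ p ?_⟩
  rw [map_prod] at hp
  exact Finset.prod_ne_zero_iff.1 hp φ hφ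

end gnr

theorem Cht.of_gnr {ι : Type} [Fintype ι] [DecidableEq ι] (c : Cht ι F) {P : (F → ℂ) → Prop}
    (h : ∀ᶠ e in gnr F, P e) : ∀ᶠ p in c.D.gen, P p.ev := by
  obtain ⟨g, g0, hg⟩ := gnr.exists_elt c.frac h
  exact (c.gen_ne g0).mono hg

theorem Rel.of_gnr {δ ν K : Type} [Fintype δ] [DecidableEq δ] [Fintype ν] [DecidableEq ν]
    [Field K] [Algebra ℂ K] [Algebra K F] {B : Cht δ K} (T : Rel B ν F) {P : (F → ℂ) → Prop}
    (h : ∀ᶠ e in gnr F, P e) : ∀ᶠ b in B.D.gen, ∀ᶠ p in (T.fib b).gen, P p.1.ev := by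
  obtain ⟨g, g0, hg⟩ := gnr.exists_elt T.X.frac h
  exact (T.gen_ne g0).mono fun _ hb => hb.mono fun p hp => hg p.1 hp

/-- the size of finitely many values -/
noncomputable def szv (s : Finset F) (e : F → ℂ) : ℝ := 2 + ∑ a ∈ s, ‖e a‖ ^ 2

theorem two_le_szv (s : Finset F) (e : F → ℂ) : 2 ≤ szv s e :=
  le_add_of_nonneg_right (by positivity)

theorem szv_pos (s : Finset F) (e : F → ℂ) : 0 < szv s e := two_pos.trans_le (two_le_szv s e)

theorem szv_mono {s s' : Finset F} (h : s ⊆ s') (e : F → ℂ) : szv s e ≤ szv s' e :=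
  add_le_add_right (Finset.sum_le_sum_of_subset_of_nonneg h fun _ _ _ => by positivity) _

/-- `W` is bounded by a polynomial in the absolute values of elements of `A` -/
def Up (A : Set F) (W : (F → ℂ) → ENNReal) : Prop :=
  ∃ (s : Finset F) (N : ℕ), ↑s ⊆ A ∧ ∀ᶠ e in gnr F, W e ≤ ENNReal.ofReal (szv s e) ^ N

namespace Up

variable {A A' : Set F} {W W' : (F → ℂ) → ENNReal}

theorem two_le (s : Finset F) (e : F → ℂ) : 2 ≤ ENNReal.ofReal (szv s e) := by
  simpa using ENNReal.ofReal_le_ofReal (two_le_szv s e)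

theorem one_le (s : Finset F) (e : F → ℂ) : 1 ≤ ENNReal.ofReal (szv s e) :=
  one_le_two.trans (two_le s e)

theorem mono (h : Up A W) (h' : ∀ᶠ e in gnr F, W' e ≤ W e) : Up A W' := by
  obtain ⟨s, N, hs, h⟩ := h
  exact ⟨s, N, hs, (h.and h').mono fun e he => he.2.trans he.1⟩

theorem subset (h : Up A W) (h' : A ⊆ A') : Up A' W := by
  obtain ⟨s, N, hs, h⟩ := h
  exact ⟨s, N, hs.trans h', h⟩

theorem const {c : ENNReal} (hc : c ≠ ⊤) : Up A fun _ => c := by
  obtain ⟨n, hn⟩ := ENNReal.exists_nat_gt hc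
  refine ⟨∅, n, by simp, Eventually.of_forall fun e => hn.le.trans (le_trans ?_
    (pow_le_pow_left' (two_le ∅ e) n))⟩
  exact_mod_cast n.lt_two_pow_self.le

theorem sq {a : F} (ha : a ∈ A) : Up A fun e => ENNReal.ofReal (‖e a‖ ^ 2) :=
  ⟨{a}, 1, by simpa using ha, Eventually.of_forall fun e => by
    rw [pow_one]
    exact ENNReal.ofReal_le_ofReal (by simp [szv])⟩

theorem mul (h : Up A W) (h' : Up A W') : Up A fun e => W e * W' e := by
  classical
  obtain ⟨s, N, hs, h⟩ := h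
  obtain ⟨s', N', hs', h'⟩ := h'
  refine ⟨s ∪ s', N + N', by simp [hs, hs'], (h.and h').mono fun e he => ?_⟩
  rw [pow_add]
  exact mul_le_mul' (he.1.trans (pow_le_pow_left' (ENNReal.ofReal_le_ofReal
    (szv_mono Finset.subset_union_left e)) _)) (he.2.trans (pow_le_pow_left'
    (ENNReal.ofReal_le_ofReal (szv_mono Finset.subset_union_right e)) _))

theorem max (h : Up A W) (h' : Up A W') : Up A fun e => max (W e) (W' e) := by
  obtain ⟨s, N, hs, h⟩ := h
  obtain ⟨s', N', hs', h'⟩ := h'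
  refine (mul ⟨s, N, hs, Eventually.of_forall fun _ => le_rfl⟩
    ⟨s', N', hs', Eventually.of_forall fun _ => le_rfl⟩).mono ((h.and h').mono fun e he => ?_)
  exact max_le (he.1.trans (le_mul_of_one_le_right' (one_le_pow₀ (one_le _ _))))
    (he.2.trans (le_mul_of_one_le_left' (one_le_pow₀ (one_le _ _))))

theorem add (h : Up A W) (h' : Up A W') : Up A fun e => W e + W' e :=
  ((const (c := 2) (by simp)).mul (h.max h')).mono (Eventually.of_forall fun e => by
    rw [two_mul]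
    exact add_le_add (le_max_left _ _) (le_max_right _ _))

theorem pow (h : Up A W) (n : ℕ) : Up A fun e => W e ^ n := by
  obtain ⟨s, N, hs, h⟩ := h
  exact ⟨s, N * n, hs, h.mono fun e he => by rw [pow_mul]; exact pow_le_pow_left' he n⟩

theorem rpow (h : Up A W) {c : ℝ} (hc : 0 ≤ c) : Up A fun e => W e ^ c := by
  obtain ⟨s, N, hs, h⟩ := h
  refine ⟨s, N * ⌈c⌉₊, hs, h.mono fun e he => (ENNReal.rpow_le_rpow he hc).trans ?_⟩
  rw [pow_mul, ← ENNReal.rpow_natCast _ ⌈c⌉₊]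
  exact ENNReal.rpow_le_rpow_of_exponent_le (one_le_pow₀ (one_le _ _)) (Nat.le_ceil c)

theorem sum {κ : Type} (s : Finset κ) {V : κ → (F → ℂ) → ENNReal} (h : ∀ i ∈ s, Up A (V i)) :
    Up A fun e => ∑ i ∈ s, V i e := by
  classical
  induction s using Finset.induction_on with
  | empty => simpa using const (c := 0) (by simp)
  | insert i s hi ih =>
    simpa only [Finset.sum_insert hi] using (h i (Finset.mem_insert_self _ _)).add
      (ih fun j hj => h j (Finset.mem_insert_of_mem hj))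

theorem prod {κ : Type} (s : Finset κ) {V : κ → (F → ℂ) → ENNReal} (h : ∀ i ∈ s, Up A (V i)) :
    Up A fun e => ∏ i ∈ s, V i e := by
  classical
  induction s using Finset.induction_on with
  | empty => simpa using const (c := 1) (by simp)
  | insert i s hi ih =>
    simpa only [Finset.prod_insert hi] using (h i (Finset.mem_insert_self _ _)).mul
      (ih fun j hj => h j (Finset.mem_insert_of_mem hj))

/-- sums of squares -/
theorem sos {κ : Type} [Fintype κ] {f : κ → F} (h : ∀ i, f i ∈ A) :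
    Up A fun e => ENNReal.ofReal (∑ i, ‖e (f i)‖ ^ 2) := by
  simpa only [ENNReal.ofReal_sum_of_nonneg fun _ _ => sq_nonneg _] using
    sum Finset.univ fun i _ => sq (h i)

/-- the inverse of a sum of squares with a unit among its terms -/
theorem sos_inv {κ : Type} [Fintype κ] {f : κ → F} (i : κ) (h0 : f i ≠ 0) (h : (f i)⁻¹ ∈ A) :
    Up A fun e => (ENNReal.ofReal (∑ i, ‖e (f i)‖ ^ 2))⁻¹ := by
  refine (sq h).mono ?_
  filter_upwards [gnr.inv (f i), gnr.ne h0] with e h1 h2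
  rw [h1, norm_inv, inv_pow, ENNReal.ofReal_inv_of_pos (by positivity)]
  exact ENNReal.inv_le_inv.2 (ENNReal.ofReal_le_ofReal
    (Finset.single_le_sum (f := fun i => ‖e (f i)‖ ^ 2) (fun _ _ => by positivity)
      (Finset.mem_univ i)))

end Up

end Pool.Agent.Lib.MP_5c318e_ag
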