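import Pool.Agent.Lib.MP_5c318e_ag.S.Sat
import Pool.Agent.Lib.MP_5c318e_ag.S.Gnr

/-! Saturation for an arbitrary weight and arbitrary bounds on the poles. -/

set_option autoImplicit false
set_option linter.unusedSectionVars false

namespace Pool.Agent.Lib.MP_5c318e_ag

open MeasureTheory Set Filter Topology

section abs

variable {ι F : Type} [Fintype ι] [DecidableEq ι] [Field F] [Algebra ℂ F]

theorem Pt.continuous_szv {A : Subalgebra ℂ F} {s : Finset F} (hs : ∀ a ∈ s, a ∈ A) :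
    Continuous fun p : Pt A => szv s p.ev :=
  continuous_const.add (continuous_finsetSum _ fun a ha => by
    simp only [Pt.ev_of_mem _ (hs a ha)]
    exact (Pt.continuous_apply _).norm.pow 2)

theorem Sat.le_W {z x g : ℝ} {N : ℕ} {W : ENNReal} (hz : 0 < z) (hx : 0 ≤ x)
    (h : ENNReal.ofReal g / W ≤ ENNReal.ofReal z ^ N) :
    ENNReal.ofReal ((z ^ N)⁻¹ * (x * g)) ≤ ENNReal.ofReal x * W := by
  have z0 : ENNReal.ofReal z ^ N ≠ 0 := pow_ne_zero _ (by simpa using hz)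
  have zt : ENNReal.ofReal z ^ N ≠ ⊤ := ENNReal.pow_ne_top ENNReal.ofReal_ne_top
  rw [ENNReal.div_le_iff_le_mul (Or.inr zt) (Or.inr z0)] at h
  rw [ENNReal.ofReal_mul (by positivity), ENNReal.ofReal_mul hx,
    ENNReal.ofReal_inv_of_pos (by positivity), ENNReal.ofReal_pow hz.le, mul_left_comm]
  exact mul_le_mul_right ((mul_le_mul_right h _).trans_eq (ENNReal.inv_mul_cancel_left z0 zt)) _

theorem Cht.cv_ev (c c' : Cht ι F) {G : (F → ℂ) → ENNReal} (hG : Measurable G) :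
    ∫⁻ q, G q.ev ∂c'.D.μ = ∫⁻ p,
      ENNReal.ofReal (‖p.ev (Jac c.der fun i => (c'.z i : F))‖ ^ 2) * G p.ev ∂c.D.μ := by
  obtain ⟨τ⟩ := Tr.exists c.frac c'.frac
  have a1 := c.D.ae_of_gen (c.gen_ne τ.ne)
  rw [c.cv c' τ (G := fun q => G q.ev) (hG.comp Pt.measurable_ev'),
    Measure.restrict_eq_self_of_ae_mem (s := {p : Pt c.O | p τ.h ≠ 0}) a1]
  exact lintegral_congr_ae (a1.mono fun p hp => by simp only [(τ.same p hp).1.ev_eq])

/-- square integrable rational functions have bounded poles -/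
theorem Cht.regI_of_l2 (c : Cht ι F) {W : (F → ℂ) → ENNReal} (hW : Measurable W) {φ γ : F}
    {O : ValuationSubring F} (hO : IsDivisorial ℂ F O)
    (hγ : Up O fun e => ENNReal.ofReal (‖e γ‖ ^ 2) / W e)
    (hi : ∫⁻ p, ENNReal.ofReal (‖p.ev φ‖ ^ 2) * W p.ev ∂c.D.μ < ⊤) : RegI c.der 1 (φ * γ) O := by
  obtain ⟨z, i0, hz⟩ := hO.exists_adp (ι := ι) (trdeg_of_basis c.basis)
  have hJ := c.dual.isFr.jac_ne hz.basis.1
  rw [hz.regI_iff, ← div_pow_mem_iff hJ, pow_one]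
  by_contra hx
  have x0 : φ * γ / Jac c.der z ≠ 0 := fun e => hx (e ▸ zero_mem O)
  have hy := hz.adapted.unif (φ * γ / Jac c.der z)⁻¹ (by
    rw [map_inv₀]
    exact inv_lt_one_of_one_lt₀ (not_le.1 fun h => hx ((O.valuation_le_one_iff _).1 h)))
  set y := (φ * γ / Jac c.der z)⁻¹ / z i0 with ey
  obtain ⟨s, N, hs, hN⟩ := (Up.sq hy).mul hγ
  obtain ⟨C, hC, hz', hs'⟩ := exists_cht_at0 c.fg hO hz.adapted hz.basis s hs
  obtain rfl : z = fun i => (C.z i : F) := (funext hz').symm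
  have hJ' : Jac C.der (fun i => (c.z i : F)) = (Jac c.der fun i => (C.z i : F))⁻¹ :=
    eq_inv_of_mul_eq_one_left (by rw [← c.dual.jac_chain, C.dual.jac_one])
  rw [C.cv_ev c (G := fun e => ENNReal.ofReal (‖e φ‖ ^ 2) * W e) (by fun_prop), hJ'] at hi
  obtain ⟨p0, hp0⟩ := Pt.exists_zero (I := Ideal.span {C.z i0}) fun h => by
    obtain ⟨u, hu⟩ := (Ideal.span_singleton_eq_top.1 h).exists_right_inv
    have h1 := congrArg (fun a : C.O => O.valuation (a : F)) hu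
    simp only [MulMemClass.coe_mul, map_mul, OneMemClass.coe_one, map_one] at h1
    exact (mul_lt_one_of_lt_of_le hz.lt ((O.valuation_le_one_iff _).2 (hC.le _ u.2))).ne h1
  have c1 : Continuous fun p : Pt C.O => (szv s p.ev ^ N)⁻¹ :=
    ((Pt.continuous_szv hs').pow N).inv₀ fun p => (pow_pos (szv_pos _ _) N).ne'
  have p1 : 0 < (szv s p0.ev ^ N)⁻¹ := inv_pos.2 (pow_pos (szv_pos _ _) N)
  refine Sat.ni C.D (p0 := p0) (i0 := i0)
    (by rw [C.π_eq]; exact hp0 _ (Ideal.mem_span_singleton_self _)) hi (half_pos p1)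
    (c1.continuousAt.eventually (lt_mem_nhds (half_lt_self p1))) ?_
  have e1 : (Jac c.der fun i => (C.z i : F))⁻¹ * φ * (y * γ) * C.z i0 = 1 := by
    have := hz.ne_zero i0
    have := left_ne_zero_of_mul (div_ne_zero_iff.1 x0).1
    have := right_ne_zero_of_mul (div_ne_zero_iff.1 x0).1
    rw [ey]
    field_simp
  have e2 : ∀ᶠ e in gnr F, e (Jac c.der fun i => (C.z i : F))⁻¹ * e φ * (e y * e γ) *
      e (C.z i0) = 1 := by
    filter_upwards [gnr.one, gnr.mul _ (C.z i0 : F), gnr.mul _ (y * γ), gnr.mul y γ,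
      gnr.mul (Jac c.der fun i => (C.z i : F))⁻¹ φ] with e h1 h2 h3 h4 h5
    rw [← h4, ← h5, ← h3, ← h2, e1, h1]
  filter_upwards [C.D.ae_of_gen (C.of_gnr (hN.and e2))] with p hp hU
  have h1 := Sat.le_W (szv_pos s p.ev) (x := ‖p.ev (Jac c.der fun i => (C.z i : F))⁻¹‖ ^ 2 *
    ‖p.ev φ‖ ^ 2) (g := ‖p.ev y‖ ^ 2 * ‖p.ev γ‖ ^ 2) (W := W p.ev) (by positivity) (by
      rw [ENNReal.ofReal_mul (by positivity), mul_div_assoc]; exact hp.1)
  rw [ENNReal.ofReal_mul (p := ‖_‖ ^ 2) (by positivity), mul_assoc (ENNReal.ofReal _)] at h1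
  refine le_trans (ENNReal.ofReal_le_ofReal ?_) h1
  rw [← mul_pow, ← mul_pow, ← mul_pow, ← norm_mul, ← norm_mul, ← norm_mul,
    eq_inv_of_mul_eq_one_left hp.2, norm_inv, inv_pow, ← div_eq_mul_inv, Pt.ev_coe, C.π_eq]
  exact div_le_div_of_nonneg_right (le_of_lt hU) (by positivity)

end abs

variable {δ ν K M : Type} [Fintype δ] [DecidableEq δ] [Fintype ν] [DecidableEq ν]
  [Field K] [Algebra ℂ K] [Field M] [Algebra ℂ M] [Algebra K M] [IsScalarTower ℂ K M]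
  {B : Cht δ K} {W : (M → ℂ) → ENNReal}

/-- a square integrable function on a general fibre comes from the ring -/
theorem Fam.satG_alg (T : Fam B ν M) (h0 : Up T.X.O fun e => (W e)⁻¹) :
    ∀ᶠ b in B.D.gen, ∀ (g : MvPolynomial ν ℂ) (u : T.Fib b → ℂ), g ≠ 0 →
      (∀ p, MvPolynomial.eval ((T.fib b).π p) g ≠ 0 →
        DifferentiableAt ℂ (fun z => u ((T.fib b).sec p z)) ((T.fib b).π p)) →
      ∫⁻ p, ENNReal.ofReal (‖u p‖ ^ 2) * W p.1.ev ∂(T.fib b).μ < ⊤ →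
      ∃ φ : T.X.O, ∀ p, MvPolynomial.eval ((T.fib b).π p) g ≠ 0 → u p = p.1 φ := by
  classical
  obtain ⟨s, N, hs, hN⟩ := h0
  let σ : Option (Option s) → T.X.O := fun o => o.elim 1 fun o => o.elim 1 fun a => ⟨a, hs a.2⟩
  filter_upwards [T.gen_Δ, T.toRel.of_gnr hN] with b h1 h2 g u hg hu hi
  refine T.sat_alg (m := 2) two_pos (fun I : Fin (N * 2) → Option (Option s) => ∏ l, σ (I l)) h1
    hg hu (lt_of_le_of_lt (lintegral_mono_ae (((T.fib b).ae_of_gen h2).mono fun p hp =>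
      mul_le_mul_right ?_ _)) hi)
  have e : ∑ I : Fin (N * 2) → Option (Option s), ‖p.1 (∏ l, σ (I l))‖ ^ 2 =
      (szv s p.1.ev ^ N) ^ 2 := by
    simp only [map_prod, norm_prod, ← Finset.prod_pow]
    rw [← Fintype.sum_pow (fun o => ‖p.1 (σ o)‖ ^ 2), ← pow_mul]
    congr 1
    rw [szv, ← Finset.sum_coe_sort s]
    simp only [Fintype.sum_option, σ, Option.elim, map_one, norm_one, ← Pt.ev_of_mem]
    ring
  have z0 := szv_pos s p.1.ev
  rw [e, ENNReal.ofReal_pow (by positivity), ENNReal.ofReal_pow z0.le, ← ENNReal.rpow_natCast _ 2,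
    ← ENNReal.rpow_mul, show ((2 : ℕ) : ℝ) * -((((2 : ℕ) : ℝ) - 1) / (2 : ℕ)) = -1 by norm_num,
    ENNReal.rpow_neg_one]
  exact ENNReal.inv_le_iff_inv_le.1 hp

theorem Rel.satG_loc (T T' : Rel B ν M) (hW : Measurable W) {n : Type} [Fintype n]
    (φ : n → T.X.O) {γ : M} (i0 : ν) (N : ℕ) (ψ : n → T'.X.O)
    (hγ : Up T'.X.O fun e => ENNReal.ofReal (‖e γ‖ ^ 2) / W e)
    (hψ : ∀ i, Jac T'.dx T.x * φ i * γ * T'.x i0 ^ N = ψ i) :
    ∀ᵐ b ∂B.D.μ, ∀ a : n → ℂ,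
      ∫⁻ p, ENNReal.ofReal (‖∑ i, a i * p.1 (φ i)‖ ^ 2) * W p.1.ev ∂(T.fib b).μ < ⊤ →
      ∃ a' : n → B.O, Jac T'.dx T.x * (∑ i, algebraMap K M (a' i) * φ i) * γ ∈ T'.X.O ∧
        ∀ i, a i = b (a' i) := by
  obtain ⟨s, N0, hs, hN⟩ := hγ
  obtain ⟨S, s1, s2, s3⟩ := Sat.spread_div T'.inc (FibRed.radical_fibre _ _ T'.etale) ψ
    (T'.X.z (Sum.inr i0) ^ N)
  have e2 : ∀ᶠ e in gnr M, ∀ i,
      e (ψ i) = e (Jac T'.dx T.x) * e (φ i) * e γ * e (T'.x i0) ^ N := eventually_all.2 fun i => by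
    filter_upwards [gnr.mul _ (T'.x i0 ^ N), gnr.mul _ γ, gnr.mul (Jac T'.dx T.x) (φ i),
      gnr.pow (T'.x i0) N] with e h1 h2 h3 h4
    rw [← h4, ← h3, ← h2, ← h1, hψ]
  filter_upwards [B.D.ae_of_gen (T'.cv T), B.D.ae_of_gen (T'.of_gnr (hN.and e2)),
    (ae_ball_iff s1).2 fun d hd => FibRed.ae_ne B (s2 d hd)] with b hcv h1 hb a hi
  have h3 := hcv (fun e => ENNReal.ofReal (‖∑ i, a i * e (φ i)‖ ^ 2) * W e) (by fun_prop)
  simp only [Pt.ev_coe] at h3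
  obtain ⟨h, hh⟩ := T'.sat_pole b i0 (h3 ▸ hi) (w := fun p => (szv s p.1.ev ^ N0)⁻¹)
    ((((Pt.continuous_szv hs).comp continuous_subtype_val).pow N0).inv₀
      fun p => (pow_pos (szv_pos _ _) _).ne') (fun p => inv_pos.2 (pow_pos (szv_pos _ _) _)) N
    (∑ i, a i • ψ i) (by
    filter_upwards [(T'.fib b).ae_of_gen h1, (T'.fib b).null_poly (MvPolynomial.X_ne_zero i0)]
      with q q1 q3
    rw [MvPolynomial.eval_X, T'.fib_π] at q3
    have h4 := Sat.le_W (szv_pos s q.1.ev) (x := ‖q.1.ev (Jac T'.dx T.x)‖ ^ 2 *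
      ‖∑ i, a i * q.1.ev (φ i)‖ ^ 2) (by positivity) q1.1
    rw [ENNReal.ofReal_mul (p := ‖_‖ ^ 2) (by positivity), mul_assoc (ENNReal.ofReal _)] at h4
    refine le_trans (le_of_eq ?_) h4
    have k2 : q.1 (∑ i, a i • ψ i) = q.1.ev (Jac T'.dx T.x) * (∑ i, a i * q.1.ev (φ i)) *
        q.1.ev γ * q.1 (T'.X.z (Sum.inr i0)) ^ N := by
      simp only [map_sum, map_smul, smul_eq_mul, ← Pt.ev_coe, q1.2, Finset.mul_sum, Finset.sum_mul]
      exact Finset.sum_congr rfl fun i _ => by rw [Rel.x]; ring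
    have := norm_ne_zero_iff.2 q3
    rw [k2, norm_mul, norm_mul, norm_mul, norm_pow]
    congr 1
    field_simp
    ring)
  obtain ⟨a', h', e1, e2⟩ := s3 b hb (fun i => algebraMap ℂ _ (a i)) h fun p hp => by
    simpa [sub_eq_zero] using hh ⟨p, hp⟩
  refine ⟨a', ?_, fun i => by simpa using e2 i⟩
  have e3 := congrArg (fun x : T'.X.O => (x : M)) e1
  simp only [MulMemClass.coe_mul, SubmonoidClass.coe_pow, AddSubmonoidClass.coe_finsetSum,
    T'.inc_eq, ← hψ] at e3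
  have e4 : Jac T'.dx T.x * (∑ i, algebraMap K M (a' i) * φ i) * γ = h' :=
    mul_right_cancel₀ (pow_ne_zero N (T'.basis.1.ne_zero i0)) (Eq.trans (by
      simp only [Finset.mul_sum, Finset.sum_mul]
      exact Finset.sum_congr rfl fun i _ => by ring) e3.symm)
  exact e4 ▸ h'.2

theorem Rel.satG_at (T : Rel B ν M) (hW : Measurable W) {n : Type} [Fintype n]
    (φ : n → T.X.O) {γ : M} {O : ValuationSubring M} (hO : IsDivisorial K M O)
    (hγ : Up O fun e => ENNReal.ofReal (‖e γ‖ ^ 2) / W e) :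
    ∀ᵐ b ∂B.D.μ, ∀ a : n → ℂ,
      ∫⁻ p, ENNReal.ofReal (‖∑ i, a i * p.1 (φ i)‖ ^ 2) * W p.1.ev ∂(T.fib b).μ < ⊤ →
      ∃ a' : n → B.O, RegI T.dx 1 ((∑ i, algebraMap K M (a' i) * φ i) * γ) O ∧
        ∀ i, a i = b (a' i) := by
  classical
  have : CharZero K := charZero_of_injective_algebraMap (algebraMap ℂ K).injective
  obtain ⟨s, N0, hs0, hN0⟩ := hγ
  obtain ⟨c, i0, hc⟩ := hO.exists_adp (ι := ν) (trdeg_of_basis T.basis)
  obtain ⟨N, hN⟩ := hc.exists_pow fun i => (Jac T.dx c)⁻¹ * φ i * γ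
  obtain ⟨k, g, hg⟩ := Pt.exists_gens B.O
  let f : Fin k ⊕ s ⊕ n → M := Sum.elim (fun i => algebraMap K M (g i)) (Sum.elim
    (fun j => j) fun i => (Jac T.dx c)⁻¹ * φ i * γ * c i0 ^ N)
  have hc' := hc.horiz B.basis
  obtain ⟨C, hC, hz, hs⟩ := exists_cht_at0 T.X.fg hc'.divisorial hc'.adapted hc'.basis
    (Finset.univ.image f) (Finset.forall_mem_image.2 (by
      rintro (i | j | i) -
      exacts [hO.const _, hs0 j.2, hN i]))
  have hf : ∀ i, f i ∈ C.O := fun i => hs _ (Finset.mem_image_of_mem f (Finset.mem_univ i))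
  obtain ⟨T', rfl⟩ := Rel.of_cht B C (fun a ha => (Algebra.adjoin_le (S := C.O.comap
    ((IsScalarTower.toAlgHom ℂ K M).comp B.O.val)) (range_subset_iff.2 fun i => hf (.inl i)))
    (hg ▸ Algebra.mem_top (x := (⟨a, ha⟩ : B.O)))) fun i => hz (.inl i)
  have hx : T'.x = c := funext fun i => hz (.inr i)
  have hJ : Jac T'.dx T.x = (Jac T.dx c)⁻¹ := eq_inv_of_mul_eq_one_left (by
    rw [← T.dual.jac_chain, ← hx, T'.dual.jac_one])
  filter_upwards [T.satG_loc T' hW φ i0 N (fun i => ⟨_, hf (.inr (.inr i))⟩)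
    ⟨s, N0, fun a ha => hf (.inr (.inl ⟨a, ha⟩)), hN0⟩ fun i => by rw [hJ, hx]; rfl]
    with b hb a ha
  obtain ⟨a', h1, h2⟩ := hb a ha
  refine ⟨a', ?_, h2⟩
  rw [hc.regI_iff, ← div_pow_mem_iff (T.dual.isFr.jac_ne hc.basis.1), pow_one, div_eq_inv_mul,
    ← mul_assoc, ← hJ]
  exact hC.le _ h1

theorem Rel.satG_fin (T : Rel B ν M) (hW : Measurable W) {Pr : Set (ValuationSubring M)}
    (hPr : ∀ O ∈ Pr, IsDivisorial K M O) {γ : ValuationSubring M → M}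
    (hγ : ∀ O ∈ Pr, Up O fun e => ENNReal.ofReal (‖e (γ O)‖ ^ 2) / W e)
    {r n : Type} [Fintype r] [Fintype n] {τ : r → T.X.O}
    (hτ : ∀ φ : T.X.O, (∀ O ∈ Pr, RegI T.dx 1 (φ * γ O) O) →
      (φ : M) ∈ Submodule.span K (range fun i => (τ i : M)))
    (φ : n → T.X.O) : ∀ᵐ b ∂B.D.μ, ∀ a : n → ℂ,
      ∫⁻ p, ENNReal.ofReal (‖∑ i, a i * p.1 (φ i)‖ ^ 2) * W p.1.ev ∂(T.fib b).μ < ⊤ →
      ∃ c : r → ℂ, ∀ p : T.Fib b, ∑ i, a i * p.1 (φ i) = ∑ j, c j * p.1 (τ j) := by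
  classical
  let L := Fintype.linearCombination B.O fun i => (φ i : M)
  let L' := Fintype.linearCombination B.O fun i => (τ i : M)
  have sm : ∀ (a : B.O) (x : M), a • x = algebraMap K M a * x := fun a x => Algebra.smul_def (a : K) x
  have hL : ∀ a, L a = ∑ i, algebraMap K M (a i) * φ i := fun a => by
    simp only [L, Fintype.linearCombination_apply, sm]
  have hL' : ∀ a, L' a = ∑ i, algebraMap K M (a i) * τ i := fun a => by
    simp only [L', Fintype.linearCombination_apply, sm]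
  let R : Pr → Submodule K M := fun O =>
    { carrier := {x | RegI T.dx 1 (x * γ O) O}
      add_mem' := fun ha hb => by simpa only [mem_ofPred_eq, add_mul] using ha.add hb
      zero_mem' := by simpa using RegI.zero 1 _
      smul_mem' := fun a x hx => by
        simpa only [mem_ofPred_eq, Algebra.smul_def, mul_assoc] using
          hx.mem_mul ((hPr _ O.2).const a) }
  let LK := Fintype.linearCombination K fun i => (φ i : M)
  obtain ⟨_, ⟨J, rfl⟩, hmin⟩ := IsArtinian.set_has_minimal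
    (range fun J : Finset Pr => ⨅ O ∈ J, (R O).comap LK) (range_nonempty _)
  have hfin : ∀ a : n → K, (∀ O ∈ J, LK a ∈ R O) → ∀ O, LK a ∈ R O := fun a ha O => by
    have hle : ⨅ O' ∈ insert O J, (R O').comap LK ≤ ⨅ O ∈ J, (R O).comap LK :=
      biInf_mono fun _ => Finset.mem_insert_of_mem
    have := (hle.eq_of_not_lt (hmin _ ⟨_, rfl⟩)).ge (by simpa using ha : a ∈ _)
    exact (biInf_le (fun O => (R O).comap LK) (Finset.mem_insert_self O J)) this
  obtain ⟨S, s1, s2, s3⟩ := Sat.spread_inf fun O : J => ((R O).restrictScalars B.O).comap L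
  obtain ⟨d, hd, hden⟩ := Sat.exists_den ((LinearMap.range L').comap L)
  filter_upwards [(ae_ball_iff s1).2 fun d hd => FibRed.ae_ne B (s2 d hd), FibRed.ae_ne B hd,
    ae_all_iff.2 fun O : J => T.satG_at hW φ (hPr _ O.1.2) (hγ _ O.1.2)] with b h1 h2 h3 a ha
  obtain ⟨v, v1, v2⟩ := s3 _ (Sat.ker_max b) h1 (fun i => algebraMap ℂ _ (a i)) fun O => by
    obtain ⟨a', e1, e2⟩ := h3 O a ha
    exact ⟨a', by rwa [← hL] at e1, (Sat.mem_smul b _).2 fun i => by simp [e2 i]⟩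
  have v3 : ∀ i, a i = b (v i) := fun i => by simpa [sub_eq_zero] using (Sat.mem_smul b _).1 v2 i
  have v4 : ((∑ i, T.inc (v i) * φ i : T.X.O) : M) = L v := by
    simp only [hL, MulMemClass.coe_mul, AddSubmonoidClass.coe_finsetSum, T.inc_eq]
  obtain ⟨c, hc⟩ := (Submodule.mem_span_range_iff_exists_fun K).1 (hτ _ fun O hO => by
    rw [v4]
    exact hfin (fun i => v i) (fun O hO => v1 ⟨O, hO⟩) ⟨O, hO⟩)
  obtain ⟨e, he, hce⟩ := exists_den B.frac (Finset.univ.image c)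
  choose c' hc' using fun j => hce _ (Finset.mem_image_of_mem c (Finset.mem_univ j))
  obtain ⟨c'', h4⟩ := hden e v he ⟨c', by
    rw [map_smul, hL', ← v4, ← hc, sm, Finset.mul_sum]
    exact Finset.sum_congr rfl fun j _ => by rw [← hc', map_mul, Algebra.smul_def]; ring⟩
  have h5 : ∑ j, T.inc (c'' j) * τ j = T.inc d * ∑ i, T.inc (v i) * φ i := Subtype.ext (by
    rw [map_smul, hL, hL', sm] at h4
    simpa only [MulMemClass.coe_mul, AddSubmonoidClass.coe_finsetSum, T.inc_eq] using h4)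
  refine ⟨fun j => b (c'' j) / b d, fun p => ?_⟩
  have h6 : ∀ a, p.1 (T.inc a) = b a := fun a => DFunLike.congr_fun p.2 a
  have h7 := congrArg p.1 h5
  simp only [map_sum, map_mul, h6, ← v3] at h7
  simp only [div_mul_eq_mul_div, ← Finset.sum_div, h7, mul_div_cancel_left₀ _ h2]

/-- SATURATION for an arbitrary weight -/
theorem Fam.satG (T : Fam B ν M) (hW : Measurable W) (h0 : Up T.X.O fun e => (W e)⁻¹)
    {Pr : Set (ValuationSubring M)} (hPr : ∀ O ∈ Pr, IsDivisorial K M O)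
    {γ : ValuationSubring M → M}
    (hγ : ∀ O ∈ Pr, Up O fun e => ENNReal.ofReal (‖e (γ O)‖ ^ 2) / W e)
    {r : Type} [Fintype r] {τ : r → T.X.O}
    (hτ : ∀ φ : T.X.O, (∀ O ∈ Pr, RegI T.dx 1 (φ * γ O) O) →
      (φ : M) ∈ Submodule.span K (range fun i => (τ i : M))) :
    ∀ᵐ b ∂B.D.μ, ∀ (g : MvPolynomial ν ℂ) (u : T.Fib b → ℂ), g ≠ 0 →
      (∀ p, MvPolynomial.eval ((T.fib b).π p) g ≠ 0 →
        DifferentiableAt ℂ (fun z => u ((T.fib b).sec p z)) ((T.fib b).π p)) →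
      ∫⁻ p, ENNReal.ofReal (‖u p‖ ^ 2) * W p.1.ev ∂(T.fib b).μ < ⊤ →
      ∃ a : r → ℂ, ∀ p, MvPolynomial.eval ((T.fib b).π p) g ≠ 0 → u p = ∑ i, a i * p.1 (τ i) := by
  obtain ⟨s, hs, e⟩ := FibRed.countable_span T.X.O
  filter_upwards [B.D.ae_of_gen (T.satG_alg h0),
    (ae_ball_iff (MP_5c318e_ag.W.countable_finset_subset hs)).2 fun F _ =>
      T.satG_fin hW hPr hγ hτ fun i : F => i.1] with b h1 h2 g u hg hu hi
  obtain ⟨φ, hφ⟩ := h1 g u hg hu hi
  obtain ⟨F, hF, h3⟩ := Submodule.mem_span_finite_of_mem_span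
    (e ▸ Submodule.mem_top : φ ∈ Submodule.span ℂ s)
  obtain ⟨a, -, rfl⟩ := Submodule.mem_span_finset.1 h3
  have h4 : ∀ p : T.Fib b, p.1 (∑ i ∈ F, a i • i) = ∑ i : F, a i * p.1 i := fun p => by
    simp only [map_sum, map_smul, smul_eq_mul]
    exact (Finset.sum_coe_sort F fun i => a i * p.1 i).symm
  obtain ⟨c, hc⟩ := h2 F hF (fun i => a i) (lt_of_eq_of_lt (lintegral_congr_ae
    (((T.fib b).null_poly hg).mono fun p hp => by simp only [← h4, ← hφ p hp])) hi)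
  exact ⟨c, fun p hp => by rw [hφ p hp, h4, hc]⟩

end Pool.Agent.Lib.MP_5c318e_ag
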