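import Pool.Agent.Lib.MP_5c318e_ag.S.ODefs
import Pool.Agent.Lib.MP_5c318e_ag.S.CV
import Pool.Agent.Lib.MP_5c318e_ag.S.OAt
import Pool.Agent.Lib.MP_5c318e_ag.N.Det

/-! Integrals in the coordinates at a vertical prime divisor. -/

set_option autoImplicit false
set_option linter.unusedSectionVars false

namespace Pool.Agent.Lib.MP_5c318e_ag

open MeasureTheory Set Filter Topology Metric
open scoped ENNReal

namespace OI

section dom

variable {A X Y : Type} [MeasurableSpace A] [MeasurableSpace X] [MeasurableSpace Y]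
  {α : Measure A} {β : Measure Y} [SigmaFinite α] [SigmaFinite β] {f : A → X} {g : Y → X}
  {w : A → ℝ≥0∞}

theorem meas_cons {n : ℕ} : Measurable fun q : (Fin n → X) × X => (Fin.cons q.2 q.1 : Fin (n + 1) → X) :=
  measurable_pi_lambda _ fun i => by
    refine Fin.cases ?_ (fun j => ?_) i
    · exact measurable_snd
    · exact (measurable_pi_apply j).comp measurable_fst

theorem meas_comp {κ : Type} (hf : Measurable f) : Measurable fun (a : κ → A) k => f (a k) :=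
  measurable_pi_lambda _ fun k => hf.comp (measurable_pi_apply k)

theorem meas_l {κ : Type} [Fintype κ] (hf : Measurable f) (hw : Measurable w)
    {G : (κ → X) → ℝ≥0∞} (hG : Measurable G) :
    Measurable fun a : κ → A => (∏ k, w (a k)) * G fun k => f (a k) :=
  (N.measurable_prod_apply fun _ => hw).mul (hG.comp (meas_comp hf))

theorem meas_r {κ : Type} (hg : Measurable g) {G : (κ → X) → ℝ≥0∞} (hG : Measurable G) :
    Measurable fun y : κ → Y => G fun k => g (y k) := hG.comp (meas_comp hg)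

theorem dom_fin (hf : Measurable f) (hg : Measurable g) (hw : Measurable w)
    (h : ∀ G : X → ℝ≥0∞, Measurable G → ∫⁻ a, w a * G (f a) ∂α ≤ ∫⁻ y, G (g y) ∂β) (n : ℕ)
    (G : (Fin n → X) → ℝ≥0∞) (hG : Measurable G) :
    ∫⁻ a, (∏ k, w (a k)) * G (fun k => f (a k)) ∂(Measure.pi fun _ => α) ≤
      ∫⁻ y, G (fun k => g (y k)) ∂(Measure.pi fun _ => β) := by
  induction n with
  | zero =>
    rw [Measure.pi_of_empty, Measure.pi_of_empty, lintegral_dirac' _ (meas_l hf hw hG),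
      lintegral_dirac' _ (meas_r hg hG), Finset.univ_eq_empty, Finset.prod_empty, one_mul]
    exact le_of_eq (congrArg G (Subsingleton.elim _ _))
  | succ n ih =>
    have h1 : Measurable fun ξ : Fin n → X => ∫⁻ y, G (Fin.cons (g y) ξ) ∂β :=
      Measurable.lintegral_prod_right' (f := fun q : (Fin n → X) × Y => G (Fin.cons (g q.2) q.1))
        (hG.comp (meas_cons.comp (measurable_fst.prodMk (hg.comp measurable_snd))))
    rw [N.lintegral_pi_succ (meas_l hf hw hG), N.lintegral_pi_succ (meas_r hg hG)]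
    have e1 : ∀ (y : A) (s : Fin n → A), (fun k => f ((Fin.cons y s : Fin (n + 1) → A) k)) =
        Fin.cons (f y) fun k => f (s k) := fun y s => funext fun k => by
      refine Fin.cases rfl (fun _ => rfl) k
    have e2 : ∀ (y : Y) (s : Fin n → Y), (fun k => g ((Fin.cons y s : Fin (n + 1) → Y) k)) =
        Fin.cons (g y) fun k => g (s k) := fun y s => funext fun k => by
      refine Fin.cases rfl (fun _ => rfl) k
    simp only [e1, e2, Fin.prod_univ_succ, Fin.cons_zero, Fin.cons_succ]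
    refine le_trans (lintegral_mono fun s => ?_) (ih _ h1)
    have h2 : Measurable fun x : X => G (Fin.cons x fun k => f (s k)) :=
      hG.comp (meas_cons.comp (measurable_const.prodMk measurable_id))
    refine le_trans (le_of_eq ?_) (mul_le_mul_right (h _ h2) _)
    have h3 : Measurable fun a => w a * G (Fin.cons (f a) fun k => f (s k)) := hw.mul (h2.comp hf)
    rw [← lintegral_const_mul _ h3]
    exact lintegral_congr fun a => by ring

theorem dom_pi (hf : Measurable f) (hg : Measurable g) (hw : Measurable w)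
    (h : ∀ G : X → ℝ≥0∞, Measurable G → ∫⁻ a, w a * G (f a) ∂α ≤ ∫⁻ y, G (g y) ∂β)
    {κ : Type} [Fintype κ] {G : (κ → X) → ℝ≥0∞} (hG : Measurable G) :
    ∫⁻ a, (∏ k, w (a k)) * G (fun k => f (a k)) ∂(Measure.pi fun _ => α) ≤
      ∫⁻ y, G (fun k => g (y k)) ∂(Measure.pi fun _ => β) := by
  let e := (Fintype.equivFin κ).symm
  rw [N.lintegral_pi_equiv e (meas_l hf hw hG), N.lintegral_pi_equiv e (meas_r hg hG)]
  refine le_trans (le_of_eq (lintegral_congr fun a => ?_)) (dom_fin hf hg hw h _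
    (fun x => G fun b => x (e.symm b))
    (hG.comp (measurable_pi_lambda _ fun b => measurable_pi_apply _)))
  rw [← e.symm.prod_comp]

end dom

theorem exists_meas {S S' : Type} [TopologicalSpace S] [MeasurableSpace S] [BorelSpace S]
    [TopologicalSpace S'] [MeasurableSpace S'] [BorelSpace S'] {U : Set S} (hU : IsOpen U)
    {τ : S → S'} (hc : ContinuousOn τ U) (y0 : S') :
    ∃ τ' : S → S', Measurable τ' ∧ ∀ p ∈ U, τ' p = τ p := by
  classical
  exact ⟨_, hc.measurable_piecewise (continuousOn_const (c := y0)) hU.measurableSet,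
    fun p hp => piecewise_eq_of_mem _ _ _ hp⟩

variable {δ : Type} [Fintype δ] [DecidableEq δ]

theorem continuous_pw (i0 : δ) (μ : ℕ) : Continuous (pw i0 μ) :=
  continuous_id.update i0 ((continuous_apply i0).pow μ)

theorem pw_self (i0 : δ) (μ : ℕ) (y : δ → ℂ) : pw i0 μ y i0 = y i0 ^ μ := Function.update_self ..

theorem pw_zero {i0 : δ} {μ : ℕ} (hμ : 0 < μ) {y : δ → ℂ} (h : y i0 = 0) : pw i0 μ y = y := by
  rw [pw, h, zero_pow hμ.ne', ← h, Function.update_eq_self]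

theorem pw_mem {i0 : δ} {μ : ℕ} (hμ : 0 < μ) {c y : δ → ℂ} (hc : c i0 = 0) {r : ℝ} (hr : r ≤ 1)
    (hy : y ∈ ball c r) : pw i0 μ y ∈ ball c r := by
  have h0 : 0 < r := pos_of_mem_ball hy
  rw [mem_ball, dist_pi_lt_iff h0] at hy ⊢
  intro i
  by_cases e : i = i0
  · have h1 := hy i0
    rw [hc, dist_zero_right] at h1
    rw [e, pw_self, hc, dist_zero_right, norm_pow]
    exact (pow_le_of_le_one (norm_nonneg _) (h1.le.trans hr) hμ.ne').trans_lt h1
  · rw [pw, Function.update_of_ne e]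
    exact hy i

theorem pw_fderiv (i0 : δ) (μ : ℕ) (y : δ → ℂ) : DifferentiableAt ℂ (pw i0 μ) y ∧
    (fderiv ℂ (pw i0 μ) y).det = μ * y i0 ^ (μ - 1) := by
  let c : δ → ℂ := Function.update 1 i0 (μ * y i0 ^ (μ - 1))
  have h : HasFDerivAt (pw i0 μ) (ContinuousLinearMap.pi fun i =>
      c i • (ContinuousLinearMap.proj i : (δ → ℂ) →L[ℂ] ℂ)) y := hasFDerivAt_pi.2 fun i => by
    by_cases e : i = i0
    · subst e
      simp only [pw, c, Function.update_self]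
      exact (hasDerivAt_pow μ (y i)).comp_hasFDerivAt y
        (ContinuousLinearMap.proj i : (δ → ℂ) →L[ℂ] ℂ).hasFDerivAt
    · simp only [pw, c, Function.update_of_ne e, Pi.one_apply, one_smul]
      exact (ContinuousLinearMap.proj i : (δ → ℂ) →L[ℂ] ℂ).hasFDerivAt
  refine ⟨h.differentiableAt, ?_⟩
  rw [h.fderiv, ContinuousLinearMap.det, ← LinearMap.det_toMatrix']
  have e : LinearMap.toMatrix' ((ContinuousLinearMap.pi fun i =>
      c i • (ContinuousLinearMap.proj i : (δ → ℂ) →L[ℂ] ℂ) : (δ → ℂ) →L[ℂ] (δ → ℂ)) :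
        (δ → ℂ) →ₗ[ℂ] (δ → ℂ)) = Matrix.diagonal c := by
    ext a b
    simp [LinearMap.toMatrix'_apply, Matrix.diagonal_apply, Pi.single_apply]
  rw [e, Matrix.det_diagonal, Finset.prod_update_of_mem (Finset.mem_univ _)]
  simp

theorem pw_card (i0 : δ) {μ : ℕ} (hμ : 0 < μ) (a : δ → ℂ) : {y | pw i0 μ y = a}.encard ≤ μ := by
  classical
  have h1 : InjOn (fun y : δ → ℂ => y i0) {y | pw i0 μ y = a} := fun y hy y' hy' e =>
    funext fun i => by
      by_cases h : i = i0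
      · rw [h]; exact e
      · have := congrFun (hy.trans (Eq.symm hy')) i
        rwa [pw, pw, Function.update_of_ne h, Function.update_of_ne h] at this
  rw [← h1.encard_image]
  refine (encard_le_encard (t := (Polynomial.nthRoots μ (a i0)).toFinset) ?_).trans ?_
  · rintro _ ⟨y, hy, rfl⟩
    rw [Finset.mem_coe, Multiset.mem_toFinset, Polynomial.mem_nthRoots hμ, ← hy, pw_self]
  · rw [encard_coe_eq_coe_finsetCard]
    exact Nat.cast_le.2 ((Multiset.toFinset_card_le _).trans (Polynomial.card_nthRoots μ (a i0)))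

/-- the power map in a chart -/
theorem pw_int {S : Type} [TopologicalSpace S] [MeasurableSpace S] [BorelSpace S] [T2Space S]
    [SigmaCompactSpace S] (D : RD δ S) (c0 : S) {i0 : δ} {μ : ℕ} (hμ : 0 < μ) {U : Set (δ → ℂ)}
    (hU : IsOpen U) (ht : ∀ y ∈ U, pw i0 μ y ∈ (D.ch c0).target) {H : S → ℝ≥0∞}
    (hH : Measurable H) :
    ∫⁻ y in U, ENNReal.ofReal (‖y i0‖ ^ (2 * (μ - 1))) * H (D.sec c0 (pw i0 μ y)) ≤
      ∫⁻ c, H c ∂D.μ := by
  classical
  obtain ⟨E, h1, h2, h3⟩ := RD.exists_id (ι := δ)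
  have hc : ContinuousOn (fun y => D.sec c0 (pw i0 μ y)) U :=
    (D.sec_contOn c0).comp (continuous_pw i0 μ).continuousOn ht
  obtain ⟨σ, hσ, hs⟩ := exists_meas hU hc c0
  have ev : ∀ y ∈ U, (fun z => D.π (D.sec c0 (pw i0 μ (E.sec y z)))) =ᶠ[𝓝 (E.π y)] pw i0 μ :=
    fun y hy => by
      rw [h1]
      filter_upwards [h3 y, hU.mem_nhds hy] with z e hz
      rw [e, id, RD.π_sec (ht z hz)]
  have hj : ∀ y ∈ U, E.jac (fun p => D.π (D.sec c0 (pw i0 μ p))) y = μ * y i0 ^ (μ - 1) :=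
    fun y hy => by rw [RD.jac, RD.fd, (ev y hy).fderiv_eq, h1, id, (pw_fderiv i0 μ y).2]
  have key := E.area D hU hc (fun y hy => by
    refine DifferentiableAt.congr_of_eventuallyEq ?_ (ev y hy)
    exact (pw_fderiv i0 μ _).1) (hH.comp hσ)
  have hm : (μ : ℝ≥0∞) ≠ 0 := Nat.cast_ne_zero.2 hμ.ne'
  have h4 : (μ : ℝ≥0∞) * ∫⁻ y in U, ENNReal.ofReal (‖y i0‖ ^ (2 * (μ - 1))) *
      H (D.sec c0 (pw i0 μ y)) ≤ μ * ∫⁻ c, H c ∂D.μ := by
    rw [← lintegral_const_mul' _ _ (ENNReal.natCast_ne_top μ), ← lintegral_const_mul _ hH, ← h2]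
    refine le_trans (setLIntegral_mono' hU.measurableSet fun y hy => ?_)
      (key.le.trans (lintegral_mono fun q => ?_))
    · rw [hj y hy, Function.comp_apply, hs y hy, ← mul_assoc, norm_mul, mul_pow, norm_pow,
        ← pow_mul, mul_comm (μ - 1), ENNReal.ofReal_mul (by positivity), Complex.norm_natCast,
        ENNReal.ofReal_pow (Nat.cast_nonneg μ), ENNReal.ofReal_natCast]
      gcongr
      exact le_self_pow₀ (by exact_mod_cast hμ) two_ne_zero
    · rw [tsum_congr (g := fun _ => H q) fun p => by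
        rw [Function.comp_apply, hs _ p.2.1, p.2.2.1], ENNReal.tsum_set_const]
      gcongr
      refine le_trans (ENat.toENNReal_le.2 ((encard_le_encard ?_).trans
        (pw_card i0 hμ (D.π q)))) (by simp)
      rintro y ⟨hy, e, -⟩
      exact ((congrArg D.π e).symm.trans (RD.π_sec (ht y hy))).symm
  exact (ENNReal.mul_le_mul_iff_right hm (ENNReal.natCast_ne_top μ)).1 h4

theorem exp_le {c A a b : ℝ} (hc : 0 < c)
    (h : ∀ᶠ t in 𝓝[>] (0 : ℝ), c * t ^ a ≤ A * t ^ b) : b ≤ a := by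
  by_contra hn
  have h1 : Tendsto (fun t : ℝ => A * t ^ (b - a)) (𝓝[>] 0) (𝓝 (A * 0)) := by
    refine Tendsto.const_mul A ?_
    have := (Real.continuousAt_rpow_const 0 (b - a) (Or.inr (by linarith))).tendsto
    rw [Real.zero_rpow (by linarith)] at this
    exact this.mono_left nhdsWithin_le_nhds
  rw [mul_zero] at h1
  obtain ⟨t, h2, h3, h4⟩ := (h.and ((h1.eventually (gt_mem_nhds hc)).and self_mem_nhdsWithin)).exists
  have h5 : (0 : ℝ) < t := h4
  rw [Real.rpow_sub h5, ← mul_div_assoc, div_lt_iff₀ (Real.rpow_pos_of_pos h5 a)] at h3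
  exact absurd h2 (not_le.2 h3)

end OI

variable {δ ν K M : Type} [Fintype δ] [DecidableEq δ] [Fintype ν] [DecidableEq ν]
  [Field K] [Algebra ℂ K] [Field M] [Algebra ℂ M] [Algebra K M] [IsScalarTower ℂ K M] {B : Cht δ K}
  {T : Rel B ν M} {O : ValuationSubring M} {C : Cht δ K} {i0 : δ} {τ : Tr C.O B.O} {c0 : Pt C.O}

theorem OCh.pw_tgt (Ω : OCh T O C i0 τ c0) (h0 : c0 (C.z i0) = 0) {y : δ → ℂ}
    (hy : y ∈ ball (C.D.π c0) Ω.r) : pw i0 Ω.μ y ∈ (C.D.ch c0).target :=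
  Ω.tgt (OI.pw_mem Ω.pos ((C.π_eq c0 i0).trans h0) Ω.le_one hy)

theorem OCh.sec_z (Ω : OCh T O C i0 τ c0) (h0 : c0 (C.z i0) = 0) {y : δ → ℂ}
    (hy : y ∈ ball (C.D.π c0) Ω.r) : C.D.sec c0 (pw i0 Ω.μ y) (C.z i0) = y i0 ^ Ω.μ := by
  rw [← C.π_eq, RD.π_sec (Ω.pw_tgt h0 hy), OI.pw_self]

theorem Tr.jac_inv (τ : Tr C.O B.O) {c : Pt C.O} (hc : c τ.h ≠ 0) :
    c.ev (Jac C.der fun i => (B.z i : K)) =
      ((τ.map c).ev (Jac B.der fun i => (C.z i : K)))⁻¹ := by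
  have : CharZero K := charZero_of_injective_algebraMap (algebraMap ℂ K).injective
  have h1 := (c.ev_mul (C.cvEv.reg_jac fun i => (τ.map_apply hc (B.z i)).1)
    (((τ.same c hc).1 _).1.2 (B.cvEv.reg_jac fun i =>
      ((τ.same c hc).1 _).1.1 (c.reg_coe (C.z i))))).2
  rw [← B.dual.jac_chain, C.dual.jac_one, c.ev_one] at h1
  rw [← (τ.same c hc).1.ev_eq]
  exact eq_inv_of_mul_eq_one_left h1.symm

/-- the base measure in the coordinates `y` -/
theorem OCh.base (Ω : OCh T O C i0 τ c0) (hτ : τ.h = C.z i0) (h0 : c0 (C.z i0) = 0)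
    {G : Pt B.O → ENNReal} (hG : Measurable G) :
    ∫⁻ y in {y ∈ ball (C.D.π c0) Ω.r | y i0 ≠ 0}, ENNReal.ofReal (‖y i0‖ ^ (2 * (Ω.μ - 1)) *
      ‖(Ω.β y).ev (Jac B.der fun i => (C.z i : K))‖⁻¹ ^ 2) * G (Ω.β y) ≤ ∫⁻ b, G b ∂B.D.μ := by
  have hU : IsOpen {y ∈ ball (C.D.π c0) Ω.r | y i0 ≠ 0} :=
    isOpen_ball.inter (isOpen_ne_fun (continuous_apply i0) continuous_const)
  obtain ⟨σ, hσ, hs⟩ := OI.exists_meas τ.isOpen τ.continuousOn (τ.map c0)
  have hH : Measurable fun c : Pt C.O =>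
      ENNReal.ofReal (‖c.ev (Jac C.der fun i => (B.z i : K))‖ ^ 2) * G (σ c) :=
    ((Pt.measurable_ev _).norm.pow_const 2).ennreal_ofReal.mul (hG.comp hσ)
  refine le_trans (le_of_eq (setLIntegral_congr_fun hU.measurableSet fun y hy => ?_))
    ((OI.pw_int C.D c0 Ω.pos hU (fun y hy => Ω.pw_tgt h0 hy.1)
      (hH.indicator τ.isOpen.measurableSet)).trans (le_of_eq ?_))
  · have hc : C.D.sec c0 (pw i0 Ω.μ y) τ.h ≠ 0 := by
      rw [hτ, Ω.sec_z h0 hy.1]
      exact pow_ne_zero _ hy.2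
    rw [indicator_of_mem (s := {p : Pt C.O | p τ.h ≠ 0}) hc, hs _ hc, τ.jac_inv hc, norm_inv,
      ENNReal.ofReal_mul (by positivity), mul_assoc]
    rfl
  · rw [lintegral_indicator τ.isOpen.measurableSet, C.cv B τ hG]
    exact setLIntegral_congr_fun τ.isOpen.measurableSet fun c hc => by simp only [hs c hc]

theorem OCh.mem_ball (Ω : OCh T O C i0 τ c0) {y : δ → ℂ} (hy : y ∈ ball (C.D.π c0) Ω.r)
    {s : ν → ℂ} (hs : s ∈ ball Ω.s0 Ω.r) : (y, s) ∈ ball (C.D.π c0, Ω.s0) Ω.r :=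
  ball_prod_same (C.D.π c0) Ω.s0 Ω.r ▸ mk_mem_prod hy hs

/-- fibre powers -/
theorem OCh.fib_pi (Ω : OCh T O C i0 τ c0) (κ : Type) [Fintype κ] {y : δ → ℂ}
    (hy : y ∈ ball (C.D.π c0) Ω.r) (hu : y i0 ≠ 0) {G : (κ → Pt T.X.O) → ENNReal} (hG : Measurable G) :
    ∫⁻ s in Set.pi univ fun _ : κ => ball Ω.s0 Ω.r,
      ENNReal.ofReal (∏ k, ‖(Ω.Ψ (y, s k)).ev (Jac T.dx Ω.w)‖⁻¹ ^ 2) * G (fun k => Ω.Ψ (y, s k)) ≤
      ∫⁻ p : κ → T.Fib (Ω.β y), G (fun k => (p k).1) ∂Measure.pi fun _ => (T.fib (Ω.β y)).μ := by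
  have hc : ContinuousOn (fun s => Ω.Ψ (y, s)) (ball Ω.s0 Ω.r) :=
    Ω.cont.comp (continuous_const.prodMk continuous_id).continuousOn
      fun s hs => ⟨Ω.mem_ball hy hs, hu⟩
  obtain ⟨f, hf, hs⟩ := OI.exists_meas isOpen_ball hc (Ω.Ψ (y, Ω.s0))
  have key := OI.dom_pi (α := volume.restrict (ball Ω.s0 Ω.r)) (β := (T.fib (Ω.β y)).μ)
    (g := Subtype.val) (w := fun s => ENNReal.ofReal (‖(f s).ev (Jac T.dx Ω.w)‖⁻¹ ^ 2)) hf
    measurable_subtype_coe
    ((((Pt.measurable_ev _).comp hf).norm.inv.pow_const 2).ennreal_ofReal) (fun G hG =>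
      le_trans (le_of_eq (setLIntegral_congr_fun measurableSet_ball fun s h => by
        simp only [hs s h])) (Ω.fib y hy hu G hG)) hG
  rw [← Measure.restrict_pi_pi] at key
  refine le_trans (le_of_eq (setLIntegral_congr_fun
    (MeasurableSet.univ_pi fun _ => measurableSet_ball) fun s h => ?_)) key
  have h1 : ∀ k, f (s k) = Ω.Ψ (y, s k) := fun k => hs _ (h k trivial)
  simp only [h1]
  rw [ENNReal.ofReal_prod_of_nonneg fun _ _ => by positivity]

theorem OCh.val_pos (Ω : OCh T O C i0 τ c0) : 0 < O.valuation Ω.ξ := (Valuation.pos_iff _).2 Ω.ne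

theorem OCh.jac_ne (Ω : OCh T O C i0 τ c0) : Jac T.dx Ω.w ≠ 0 := by
  obtain ⟨j, a, h, -⟩ := Ω.jac
  exact (Valuation.pos_iff _).1 (h ▸ zpow_pos Ω.val_pos j)

/-- lower bound for the fibre integral on an open part of the divisor -/
theorem OCh.N_lower (Ω : OCh T O C i0 τ c0) {m : ℕ} (hm : 0 < m) {φ : M} (h0 : φ ≠ 0) {k : ℤ}
    (hk : O.valuation (φ / Jac T.dx Ω.w ^ m) = O.valuation Ω.ξ ^ k) :
    ∃ y1 ∈ ball (C.D.π c0) Ω.r, y1 i0 = 0 ∧ ∃ c : ℝ, 0 < c ∧ ∀ᶠ y in 𝓝 y1, y i0 ≠ 0 →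
      ENNReal.ofReal (c * ‖y i0‖ ^ (2 * k / m : ℝ)) ≤ T.N m φ (Ω.β y) := by
  obtain ⟨k', a, b, h1, ha, hb, ⟨q, hq, h2, h3, h4⟩, -, h5⟩ := Ω.ord φ h0
  obtain ⟨j, a', h6, ha', h7⟩ := Ω.jac
  have hk' : k' - j * m = k := by
    rw [map_div₀, map_pow, h1, h6, ← zpow_natCast, ← zpow_mul, ← zpow_sub₀ Ω.val_pos.ne'] at hk
    exact zpow_right_injective₀ Ω.val_pos Ω.lt.ne hk
  have hm' : (0 : ℝ) < m := Nat.cast_pos.2 hm
  let h : (δ → ℂ) × (ν → ℂ) → ℝ := fun q => ‖a' q‖⁻¹ ^ 2 * (‖a q‖ / ‖b q‖) ^ (2 / m : ℝ)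
  have hc : ContinuousAt h q :=
    (((ha' q hq).continuousAt.norm.inv₀ (norm_ne_zero_iff.2 (h7 q hq).1)).pow 2).mul
      (((ha q hq).continuousAt.norm.div (hb q hq).continuousAt.norm
        (norm_ne_zero_iff.2 h4)).rpow_const (Or.inr (by positivity)))
  have hp : 0 < h q := mul_pos (pow_pos (inv_pos.2 (norm_pos_iff.2 (h7 q hq).1)) 2)
    (Real.rpow_pos_of_pos (div_pos (norm_pos_iff.2 h3) (norm_pos_iff.2 h4)) _)
  have ev : ∀ᶠ p in 𝓝 (q.1, q.2), h q / 2 < h p ∧ b p ≠ 0 ∧ p ∈ ball (C.D.π c0, Ω.s0) Ω.r :=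
    (hc.eventually (lt_mem_nhds (half_lt_self hp))).and
      (((hb q hq).continuousAt.eventually_ne h4).and (isOpen_ball.mem_nhds hq))
  obtain ⟨W1, hW1, W2, hW2, hW⟩ := mem_nhds_prod_iff.1 ev
  obtain ⟨ρ, hρ, hW3⟩ := Metric.mem_nhds_iff.1 hW2
  have hq' := (ball_prod_same (C.D.π c0) Ω.s0 Ω.r).symm ▸ hq
  have hv : 0 < volume (ball q.2 ρ) := measure_ball_pos _ _ hρ
  have hv' : volume (ball q.2 ρ) ≠ ⊤ := measure_ball_lt_top.ne
  refine ⟨q.1, hq'.1, h2, h q / 2 * (volume (ball q.2 ρ)).toReal,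
    mul_pos (half_pos hp) (ENNReal.toReal_pos hv.ne' hv'), ?_⟩
  filter_upwards [hW1] with y hy hu
  have h8 : ∀ s ∈ ball q.2 ρ, h q / 2 < h (y, s) ∧ b (y, s) ≠ 0 ∧
      (y, s) ∈ ball (C.D.π c0, Ω.s0) Ω.r := fun s hs => hW (mk_mem_prod hy (hW3 hs))
  have h9 : ∀ s ∈ ball q.2 ρ, (y, s) ∈ ball (C.D.π c0) Ω.r ×ˢ ball Ω.s0 Ω.r := fun s hs =>
    (ball_prod_same (C.D.π c0) Ω.s0 Ω.r).symm ▸ (h8 s hs).2.2
  refine le_trans ?_ (Ω.fib y (h9 _ (mem_ball_self hρ)).1 hu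
    (fun p => ENNReal.ofReal (‖p.ev φ‖ ^ (2 / m : ℝ)))
    ((Pt.measurable_ev _).norm.pow_const _).ennreal_ofReal)
  refine le_trans ?_ (lintegral_mono_set fun s hs => (h9 s hs).2)
  have hu' : 0 < ‖y i0‖ := norm_pos_iff.2 hu
  rw [mul_right_comm, ENNReal.ofReal_mul (by positivity), ENNReal.ofReal_toReal hv',
    ← setLIntegral_const]
  refine setLIntegral_mono' measurableSet_ball fun s hs => ?_
  obtain ⟨e1, e2, e3⟩ := h8 s hs
  rw [← ENNReal.ofReal_mul (by positivity), (h5 _ e3 hu e2).2, ((h7 _ e3).2 hu).2]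
  refine ENNReal.ofReal_le_ofReal ((mul_le_mul_of_nonneg_right e1.le (by positivity)).trans
    (le_of_eq ?_))
  have e4 : (2 * k / m : ℝ) = k' * (2 / m) + j * (-2) := by
    rw [← hk']
    push_cast
    field_simp
    ring
  rw [e4, Real.rpow_add hu', Real.rpow_mul hu'.le, Real.rpow_mul hu'.le, Real.rpow_intCast,
    Real.rpow_intCast, Real.rpow_neg (by positivity), Real.rpow_two, norm_div, norm_mul, norm_mul,
    norm_zpow, norm_zpow, mul_div_assoc, Real.mul_rpow (by positivity) (by positivity)]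
  simp only [h]
  ring

/-- an upper bound for the fibre integral bounds the order from below -/
theorem OCh.ord_ge (Ω : OCh T O C i0 τ c0) {P : ValuationSubring K} (hC : C.At P i0)
    (h0 : c0 (C.z i0) = 0) {m : ℕ} (hm : 0 < m) {φ : M} (hφ : φ ≠ 0) {k : ℤ}
    (hk : O.valuation (φ / Jac T.dx Ω.w ^ m) = O.valuation Ω.ξ ^ k) {α : ℝ} {e : C.O}
    (he : ¬ C.z i0 ∣ e)
    (H : ∀ c0 : Pt C.O, c0 (C.z i0) = 0 → c0 e ≠ 0 → ∀ ε : ℝ, 0 < ε → ∃ A : ℝ, ∀ᶠ c in 𝓝 c0,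
      c (C.z i0) ≠ 0 → T.N m φ (τ.map c) ≤ ENNReal.ofReal (A * ‖c (C.z i0)‖ ^ (2 * α - ε))) :
    m * Ω.μ * α ≤ k := by
  obtain ⟨y1, h1, h2, c, hc, h3⟩ := Ω.N_lower hm hφ hk
  obtain ⟨g, hg, h4⟩ := hC.exists_poly he
  let E : ({i // i ≠ i0} → ℂ) → δ → ℂ := fun x i => if h : i = i0 then 0 else x ⟨i, h⟩
  have hE : Continuous E := continuous_pi fun i => by
    by_cases h : i = i0
    · simp only [E, dif_pos h]; exact continuous_const
    · simp only [E, dif_neg h]; exact continuous_apply _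
  have hE1 : E (fun i => y1 i) = y1 := funext fun i => by
    by_cases h : i = i0
    · simp only [E, dif_pos h]; rw [h, h2]
    · simp only [E, dif_neg h]
  have h5 := (hE.tendsto' (fun i : {i // i ≠ i0} => y1 i) y1 hE1).eventually (h3.eventually_nhds.and (isOpen_ball.mem_nhds h1))
  obtain ⟨x, hx, h6, h7⟩ := (Measure.dense_of_ae (RArea.null_poly hg)).inter_nhds_nonempty h5
  have h8 : E x i0 = 0 := dif_pos rfl
  have h9 : pw i0 Ω.μ (E x) = E x := OI.pw_zero Ω.pos h8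
  have ht := Ω.tgt h7
  have hz : C.D.sec c0 (E x) (C.z i0) = 0 := by rw [← C.π_eq, RD.π_sec ht, h8]
  have hne : C.D.sec c0 (E x) e ≠ 0 := h4 _ hz (by
    rw [RD.π_sec ht]
    have : (fun i : {i // i ≠ i0} => E x i) = x := funext fun i => dif_neg i.2
    rw [this]
    exact hx)
  have hm' : (0 : ℝ) < m := Nat.cast_pos.2 hm
  have hμ : (0 : ℝ) < Ω.μ := Nat.cast_pos.2 Ω.pos
  have key : ∀ ε : ℝ, 0 < ε → Ω.μ * (2 * α - ε) ≤ 2 * k / m := fun ε hε => by
    obtain ⟨A, hA⟩ := H _ hz hne ε hε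
    have t1 : Tendsto (fun t : ℝ => Function.update (E x) i0 (t : ℂ)) (𝓝 0) (𝓝 (E x)) :=
      (continuous_const.update i0 Complex.continuous_ofReal).tendsto' _ _ (by
        rw [Complex.ofReal_zero, ← h8, Function.update_eq_self])
    have t2 := (RD.sec_contAt ht).tendsto.comp (((OI.continuous_pw i0 Ω.μ).tendsto' _ _ h9).comp t1)
    refine OI.exp_le (A := A) hc ?_
    filter_upwards [mem_nhdsWithin_of_mem_nhds (t1.eventually h6),
      mem_nhdsWithin_of_mem_nhds (t2.eventually hA),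
      mem_nhdsWithin_of_mem_nhds (t1.eventually (isOpen_ball.mem_nhds h7)), self_mem_nhdsWithin]
      with t e1 e2 e3 e4
    have e5 : (0 : ℝ) < t := e4
    have e6 : (t : ℂ) ≠ 0 := Complex.ofReal_ne_zero.2 e5.ne'
    simp only [Function.comp_apply, Ω.sec_z h0 e3, Function.update_self] at e1 e2
    have e7 := (e1 e6).trans (e2 (pow_ne_zero _ e6))
    rw [norm_pow, Complex.norm_real, Real.norm_of_nonneg e5.le, ← Real.rpow_natCast,
      ← Real.rpow_mul e5.le] at e7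
    exact (ENNReal.ofReal_le_ofReal_iff'.1 e7).resolve_right
      (not_le.2 (mul_pos hc (Real.rpow_pos_of_pos e5 _)))
  have h10 : Ω.μ * (2 * α) ≤ 2 * k / m := le_of_forall_pos_le_add fun ε hε => by
    have := key (ε / Ω.μ) (div_pos hε hμ)
    rw [mul_sub, mul_div_cancel₀ _ hμ.ne'] at this
    linarith
  rw [le_div_iff₀ hm'] at h10
  linarith

theorem OCh.back (Ω : OCh T O C i0 τ c0) (hC : C.At (O.comap (algebraMap K M)) i0)
    (h0 : c0 (C.z i0) = 0) {m : ℕ} (hm : 0 < m) {φ : M} {α : ℝ} {e : C.O} (he : ¬ C.z i0 ∣ e)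
    (H : ∀ c0 : Pt C.O, c0 (C.z i0) = 0 → c0 e ≠ 0 → ∀ ε : ℝ, 0 < ε → ∃ A : ℝ, ∀ᶠ c in 𝓝 c0,
      c (C.z i0) ≠ 0 → T.N m φ (τ.map c) ≤ ENNReal.ofReal (A * ‖c (C.z i0)‖ ^ (2 * α - ε)))
    (b : ℕ) {g : K} {k : ℤ}
    (hg : (O.comap (algebraMap K M)).valuation (g / (Jac B.der fun i => (C.z i : K)) ^ (m * b)) ≤
      (O.comap (algebraMap K M)).valuation (C.z i0 : K) ^ k) (hk : 0 ≤ (k : ℝ) + m * b * α) :
    RegI T.X.der (m * b) (φ ^ b * algebraMap K M g) O := by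
  have hJ : (Jac B.der fun i => (C.z i : K)) ≠ 0 := B.dual.isFr.jac_ne C.basis.1
  have hJ' := (map_ne_zero (algebraMap K M)).2 hJ
  rw [← map_zpow₀, (comap_isEquiv O).le_iff_le, Valuation.comap_apply, Valuation.comap_apply,
    map_zpow₀, map_zpow₀, Ω.val, ← zpow_natCast (O.valuation Ω.ξ), ← zpow_mul, map_div₀, map_pow] at hg
  have key : ∀ k1 : ℤ, O.valuation (φ / Jac T.dx Ω.w ^ m) ^ b ≤ O.valuation Ω.ξ ^ k1 →
      0 ≤ k1 + Ω.μ * k → RegI T.X.der (m * b) (φ ^ b * algebraMap K M g) O := fun k1 h1 h2 => by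
    rw [Ω.reg, ← map_pow, ← div_le_one₀ ((Valuation.pos_iff _).2
      (pow_ne_zero _ (mul_ne_zero hJ' Ω.jac_ne))), ← map_div₀]
    have e : φ ^ b * algebraMap K M g * Ω.ξ ^ ((Ω.μ - 1) * (m * b)) /
        (algebraMap K M (Jac B.der fun i => (C.z i : K)) * Jac T.dx Ω.w) ^ (m * b) =
        (φ / Jac T.dx Ω.w ^ m) ^ b * (algebraMap K M g /
          algebraMap K M (Jac B.der fun i => (C.z i : K)) ^ (m * b)) *
          Ω.ξ ^ ((Ω.μ - 1) * (m * b)) := by
      rw [div_pow, ← pow_mul, mul_pow]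
      ring
    rw [e, map_mul, map_mul, map_pow, map_pow]
    refine mul_le_one' ((mul_le_mul' h1 hg).trans ?_) (pow_le_one' Ω.lt.le _)
    rw [← zpow_add₀ Ω.val_pos.ne']
    exact zpow_le_one₀ Ω.val_pos Ω.lt.le h2
  rcases Nat.eq_zero_or_pos b with rfl | hb
  · refine key 0 (by simp) ?_
    have : 0 ≤ k := by simpa using hk
    positivity
  by_cases hφ : φ = 0
  · refine key (-(Ω.μ * k)) ?_ (by simp)
    simp [hφ, hb.ne']
  obtain ⟨k1, -, -, h1, -⟩ := Ω.ord _ (div_ne_zero hφ (pow_ne_zero m Ω.jac_ne))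
  have h2 := Ω.ord_ge hC h0 hm hφ h1 he H
  refine key (k1 * b) (by rw [h1, zpow_mul, zpow_natCast]) ?_
  have h3 : (0 : ℝ) ≤ k1 * b + Ω.μ * k := by
    have h4 := mul_le_mul_of_nonneg_right h2 (Nat.cast_nonneg b)
    have h5 := mul_nonneg (Nat.cast_nonneg Ω.μ) hk
    nlinarith
  exact_mod_cast h3

end Pool.Agent.Lib.MP_5c318e_ag
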