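import Pool.Agent.Lib.MP_5c318e_ag.S.LocA
import Pool.Agent.Lib.MP_5c318e_ag.S.ODefs
import Pool.Agent.Lib.MP_5c318e_ag.S.Front

/-! Shrinking the base of a family; comparison of two families with the same fibre coordinates. -/

set_option autoImplicit false
set_option linter.unusedSectionVars false

namespace Pool.Agent.Lib.MP_5c318e_ag

open MeasureTheory Set Filter Topology

noncomputable section

variable {δ δ' δ'' ν K M : Type} [Fintype δ] [DecidableEq δ] [Fintype δ'] [DecidableEq δ']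
  [Fintype δ''] [DecidableEq δ''] [Fintype ν] [DecidableEq ν]
  [Field K] [Algebra ℂ K] [Field M] [Algebra ℂ M] [Algebra K M] [IsScalarTower ℂ K M]

theorem Rel.fib_ev {B : Cht δ K} (T : Rel B ν M) (b : Pt B.O) (p : T.Fib b) :
    (T.fib b).π p = fun i => p.1.ev (T.x i) := funext fun i => by
  rw [T.fib_π, Rel.x, Pt.ev_coe]

theorem Rel.dx_eq_of_x {B : Cht δ K} {B' : Cht δ' K} {T : Rel B ν M} {T' : Rel B' ν M}
    (h : T'.x = T.x) : T'.dx = T.dx :=
  have : CharZero K := charZero_of_injective_algebraMap (algebraMap ℂ K).injective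
  Dual.uniq (h ▸ T'.dual) T.dual

/-- points of the total spaces with the same values lie over points with the same values -/
theorem Rel.res_eq {B : Cht δ K} {B' : Cht δ' K} {T : Rel B ν M} {T' : Rel B' ν M}
    {b' : Pt B'.O} {b : Pt B.O} (hb : b'.Same b) (p : T'.Fib b') {q : Pt T.X.O}
    (h : p.1.Same q) : q.res T.inc = b := Pt.ext fun a => by
  have h1 := Front.rel_const T' p ((hb a).1.2 (b.reg_coe a))
  rw [Pt.res_apply, ← Pt.ev_coe, T.inc_eq, ← (h _).2, h1.2, (hb _).2, Pt.ev_coe]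

/-- general fibres of two families with the same fibre coordinates agree almost everywhere -/
theorem Rel.exists_mp {B : Cht δ K} {B' : Cht δ' K} (T' : Rel B' ν M) (T : Rel B ν M)
    (hx : T'.x = T.x) : ∀ᶠ b' in B'.D.gen, ∀ b : Pt B.O, b'.Same b →
      ∃ t : T'.Fib b' → T.Fib b, MeasurePreserving t (T'.fib b').μ (T.fib b).μ ∧
        ∀ᵐ p ∂(T'.fib b').μ, p.1.Same (t p).1 := by
  classical
  obtain ⟨τ⟩ := Tr.exists T'.X.frac T.X.frac
  obtain ⟨g, hg, H⟩ := T.gen_ne τ.ne'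
  have g0 : ((MvPolynomial.aeval B.z g : B.O) : K) ≠ 0 := fun e => B.aeval_ne hg (Subtype.ext e)
  filter_upwards [T'.gen_ne τ.ne, B'.gen_reg_ne g0] with b' h1 h2 b hb
  have a1 := (T'.fib b').ae_of_gen h1
  have a2 := (T.fib b).ae_of_gen (H b (by
    rw [← B.apply_aeval, ← Pt.ev_coe, ← (hb _).2]; exact h2.2))
  have hU : IsOpen {p : T'.Fib b' | p.1 τ.h ≠ 0} := τ.isOpen.preimage continuous_subtype_val
  have hV : IsOpen {q : T.Fib b | q.1 τ.h' ≠ 0} := τ.symm.isOpen.preimage continuous_subtype_val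
  have forth : ∀ p : T'.Fib b', p.1 τ.h ≠ 0 → (τ.map p.1).res T.inc = b := fun p hp =>
    Rel.res_eq hb p (τ.same p.1 hp).1
  have back : ∀ q : T.Fib b, q.1 τ.h' ≠ 0 → (τ.inv q.1).res T'.inc = b' := fun q hq =>
    Rel.res_eq hb.symm q (τ.same' q.1 hq).1.symm
  have hne : ∀ p : T'.Fib b', ∃ p0 : T'.Fib b', p0.1 τ.h ≠ 0 := fun p => by
    have := (T'.fib b').openPos
    have : NeZero (T'.fib b').μ := ⟨fun e => isOpen_univ.measure_ne_zero (T'.fib b').μ ⟨p, trivial⟩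
      (by rw [e]; rfl)⟩
    exact a1.exists
  choose p0 hp0 using hne
  let t : T'.Fib b' → T.Fib b := fun p =>
    if h : p.1 τ.h ≠ 0 then ⟨τ.map p.1, forth p h⟩
    else ⟨τ.map (p0 (Classical.choice ⟨p⟩)).1, forth _ (hp0 _)⟩
  have ht : ∀ p : T'.Fib b', p.1 τ.h ≠ 0 → (t p).1 = τ.map p.1 := fun p hp => by
    simp only [t, dif_pos hp]
  have hc : ContinuousOn t {p : T'.Fib b' | p.1 τ.h ≠ 0} := by
    exact Topology.IsInducing.subtypeVal.continuousOn_iff.2
      ((τ.continuousOn.comp continuous_subtype_val.continuousOn fun _ h => h).congr ht)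
  have hm : Measurable t := by
    refine measurable_of_restrict_of_restrict_compl hU.measurableSet
      (continuousOn_iff_continuous_domRestrict.1 hc).measurable ?_
    refine measurable_const' fun p q => ?_
    have h : ∀ u : T'.Fib b', ¬ u.1 τ.h ≠ 0 →
        t u = ⟨τ.map (p0 (Classical.choice ⟨u⟩)).1, forth _ (hp0 _)⟩ := fun u hu => dif_neg hu
    exact (h p p.2).trans (h q q.2).symm
  refine ⟨t, (T'.fib b').mp_bij (T.fib b) hU.measurableSet hV.measurableSet hm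
    ⟨fun p hp => ?_, fun p hp q hq e => ?_, fun q hq => ?_⟩ (fun p hp => ?_) a1 a2,
    a1.mono fun p hp => ht p hp ▸ (τ.same p.1 hp).1⟩
  · show (t p).1 τ.h' ≠ 0
    rw [ht p hp]
    exact (τ.same p.1 hp).2.1
  · exact Subtype.ext (τ.injOn hp hq (by rw [← ht p hp, ← ht q hq, e]))
  · exact ⟨⟨τ.inv q.1, back q hq⟩, (τ.same' q.1 hq).2.1,
      Subtype.ext ((ht ⟨τ.inv q.1, back q hq⟩ (τ.same' q.1 hq).2.1).trans (τ.same' q.1 hq).2.2)⟩
  · rw [T.fib_ev, T'.fib_ev, ht p hp, hx, (τ.same p.1 hp).1.ev_eq]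

/-- `T'` is `T` with the function `h` on the base inverted -/
structure Rel.Loc {B B' : Cht δ K} (T' : Rel B' ν M) (T : Rel B ν M) (h : B.O) : Prop where
  base : IsLoc B.O B'.O h
  top : IsLoc T.X.O T'.X.O (T.inc h)
  z : ∀ i, (B'.z i : K) = B.z i
  x : T'.x = T.x

namespace Rel.Loc

variable {B B' : Cht δ K} {T' : Rel B' ν M} {T : Rel B ν M} {h : B.O} (L : T'.Loc T h)

include L

theorem comm (a : B.O) : T'.inc (L.base.j a) = L.top.j (T.inc a) :=
  Subtype.ext ((T'.inc_eq _).trans (T.inc_eq a).symm)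

theorem ne {b : Pt B'.O} (p : T.Fib (b.res L.base.j)) : p.1 (T.inc h) ≠ 0 := by
  have : p.1 (T.inc h) = b.res L.base.j h := DFunLike.congr_fun p.2 h
  rw [this]
  exact L.base.dn_ne b

/-- the fibres do not change -/
def e (b : Pt B'.O) : T'.Fib b ≃ₜ T.Fib (b.res L.base.j) where
  toFun q := ⟨q.1.res L.top.j, Rel.res_eq (L.base.same b) q (L.top.same q.1)⟩
  invFun p := ⟨L.top.up p.1 (L.ne p), Rel.res_eq (L.base.same b).symm p (by
    have := (L.top.same (L.top.up p.1 (L.ne p))).symm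
    rwa [L.top.dn_up] at this)⟩
  left_inv q := Subtype.ext (L.top.up_dn q.1)
  right_inv p := Subtype.ext (L.top.dn_up p.1 (L.ne p))
  continuous_toFun := ((Pt.continuous_res _).comp continuous_subtype_val).subtype_mk _
  continuous_invFun := (L.top.cont_up continuous_subtype_val L.ne).subtype_mk _

theorem e_val (b : Pt B'.O) (q : T'.Fib b) : (L.e b q).1 = q.1.res L.top.j := rfl

theorem same (b : Pt B'.O) (q : T'.Fib b) : q.1.Same (L.e b q).1 := L.top.same q.1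

theorem π_eq (b : Pt B'.O) (q : T'.Fib b) : (T.fib _).π (L.e b q) = (T'.fib b).π q := by
  rw [T.fib_ev, T'.fib_ev, L.x, (L.same b q).ev_eq]

theorem mp (b : Pt B'.O) : MeasurePreserving (L.e b) (T'.fib b).μ (T.fib (b.res L.base.j)).μ :=
  (T'.fib b).mp_bij (T.fib _) MeasurableSet.univ MeasurableSet.univ (L.e b).continuous.measurable
    (bijOn_univ.2 (L.e b).bijective) (fun q _ => L.π_eq b q)
    (Eventually.of_forall fun _ => trivial) (Eventually.of_forall fun _ => trivial)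

theorem int (b : Pt B'.O) {G : (M → ℂ) → ENNReal} (hG : Measurable G) :
    ∫⁻ p, G p.1.ev ∂(T'.fib b).μ = ∫⁻ p, G p.1.ev ∂(T.fib (b.res L.base.j)).μ := by
  rw [← (L.mp b).lintegral_comp (f := fun p => G p.1.ev)
    (hG.comp (Pt.measurable_ev'.comp measurable_subtype_coe))]
  exact lintegral_congr fun p => congrArg G (L.same b p).ev_eq

theorem sub : T'.Sub T :=
  ⟨L.base.le, L.top.le, L.x, L.base.emb, L.base.same, fun b _ hG => L.int b hG⟩

end Rel.Loc

theorem Rel.exists_loc {B : Cht δ K} (T : Rel B ν M) {h : B.O} (h0 : h ≠ 0) :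
    ∃ (B' : Cht δ K) (T' : Rel B' ν M), T'.Loc T h := by
  have h1 : T.inc h ≠ 0 := fun e => h0 (Subtype.ext ((algebraMap K M).injective (by
    rw [← T.inc_eq, e]; simp)))
  obtain ⟨B', LB, hB⟩ := B.exists_isLoc h0
  obtain ⟨X', LX, hX⟩ := T.X.exists_isLoc h1
  obtain ⟨T', rfl⟩ := Rel.of_cht B' X' (fun a ha => by
    obtain ⟨k, c, e⟩ := LB.inl a ha
    rw [LX.eq]
    refine ⟨k, T.inc c, ?_⟩
    rw [← map_pow, T.inc_eq, T.inc_eq, ← map_mul, e]) fun i => by rw [hX, hB, T.zy_coe]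
  exact ⟨B', T', LB, LX, hB, funext fun i => hX _⟩

/-- inverting a polynomial in the base coordinates -/
theorem Fam.exists_loc {B : Cht δ K} (T : Fam B ν M) {g : MvPolynomial δ ℂ} (hg : g ≠ 0) :
    ∃ (B' : Cht δ K) (T' : Fam B' ν M) (L : T'.toRel.Loc T.toRel (MvPolynomial.aeval B.z g)),
      T'.finB.Δ = T.finB.Δ * g ∧
      T'.finX.Δ = MvPolynomial.map (L.base.j : B.O →+* B'.O) T.finX.Δ := by
  obtain ⟨B', T', L⟩ := T.toRel.exists_loc (B.aeval_ne hg)
  obtain ⟨Φ, hΦ, -⟩ := L.base.fini L.z T.finB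
  have e : (fun i => T'.X.z (Sum.inr i)) = fun i => L.top.j (T.X.z (Sum.inr i)) :=
    funext fun i => Subtype.ext (congrFun L.x i)
  have H : ∃ Ψ : Fini T'.inc fun i => T'.X.z (Sum.inr i),
      Ψ.Δ = MvPolynomial.map (L.base.j : B.O →+* B'.O) T.finX.Δ := by
    rw [e]
    refine ⟨T.finX.loc L.comm 1 ?_ (by simp) (fun φ => ?_) fun b p hp _ => ?_, mul_one _⟩
    · rw [mul_one]
      exact fun e => T.finX.ne (MvPolynomial.map_injective _
        (Subalgebra.inclusion_injective L.base.le) (e.trans (map_zero _).symm))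
    · obtain ⟨k, a, ha⟩ := L.top.inl φ φ.2
      refine ⟨a, ⟨_, L.base.inv⟩ ^ k, 0, Subtype.ext ?_⟩
      have h0 := L.top.ne'
      rw [pow_zero, mul_one, MulMemClass.coe_mul, T'.inc_eq, SubmonoidClass.coe_pow, map_pow,
        map_inv₀, ← T.inc_eq, Subalgebra.coe_inclusion, ← ha, SubmonoidClass.coe_pow,
        mul_left_comm, ← mul_pow, inv_mul_cancel₀ h0, one_pow, mul_one]
    · exact ⟨((L.e b).symm ⟨p, hp⟩).1, ((L.e b).symm ⟨p, hp⟩).2,
        congrArg Subtype.val ((L.e b).apply_symm_apply ⟨p, hp⟩)⟩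
  obtain ⟨Ψ, hΨ⟩ := H
  exact ⟨B', ⟨T', Φ, Ψ⟩, L, hΦ, hΨ⟩

/-- a generic property holds everywhere after shrinking -/
theorem Fam.exists_loc_gen {B : Cht δ K} (T : Fam B ν M) {P : Pt B.O → Prop}
    (hP : ∀ᶠ b in B.D.gen, P b) :
    ∃ (g : MvPolynomial δ ℂ) (B' : Cht δ K) (T' : Fam B' ν M)
      (L : T'.toRel.Loc T.toRel (MvPolynomial.aeval B.z g)), (∀ b : Pt B'.O, P (b.res L.base.j)) ∧
      T'.finX.Δ = MvPolynomial.map (L.base.j : B.O →+* B'.O) T.finX.Δ := by
  obtain ⟨g, hg, H⟩ := hP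
  obtain ⟨B', T', L, -, h⟩ := T.exists_loc hg
  exact ⟨g, B', T', L, fun b => H _ (B.apply_aeval _ g ▸ L.base.dn_ne b), h⟩

theorem Rel.Sub.trans {B : Cht δ K} {B' : Cht δ' K} {B'' : Cht δ'' K} {T : Rel B ν M}
    {T' : Rel B' ν M} {T'' : Rel B'' ν M} (h' : T''.Sub T') (h : T'.Sub T) : T''.Sub T :=
  ⟨h.le.trans h'.le, h.leX.trans h'.leX, h'.x_eq.trans h.x_eq, h.emb.comp h'.emb,
    fun b φ => ⟨(h'.same b φ).1.trans (h.same _ φ).1, (h'.same b φ).2.trans (h.same _ φ).2⟩,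
    fun b G hG => (h'.int b G hG).trans (h.int _ G hG)⟩

theorem exists_gens_le {F : Type} [Field F] [Algebra ℂ F] (A : Subalgebra ℂ F)
    [h : Algebra.FiniteType ℂ A] : ∃ s : Finset F, ∀ A' : Subalgebra ℂ F,
      (∀ a ∈ s, a ∈ A') → A ≤ A' := by
  obtain ⟨s, hs⟩ := (Subalgebra.fg_iff_finiteType A).2 h
  exact ⟨s, fun A' H => hs ▸ Algebra.adjoin_le H⟩

/-- change of the base chart, all finite lists of elements become regular, `g` becomes a unit -/
theorem Fam.shrink {B : Cht δ K} (T : Fam B ν M) {δ' : Type} [Fintype δ'] [DecidableEq δ']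
    {y : δ' → K} (hy : IsTranscendenceBasis ℂ y) (s : Finset K) (t : Finset M) :
    ∃ (B' : Cht δ' K) (T' : Fam B' ν M), (∀ i, (B'.z i : K) = y i) ∧ (∀ a ∈ s, a ∈ B'.O) ∧
      (∀ a ∈ t, a ∈ T'.X.O) ∧ T'.toRel.Sub T.toRel := by
  classical
  obtain ⟨s0, hs0⟩ := exists_gens_le B.O
  obtain ⟨t0, ht0⟩ := exists_gens_le T.X.O
  obtain ⟨B1, hz, hs, hF⟩ := exists_base B.fg hy (s ∪ s0)
  obtain ⟨T1, hx, ht⟩ := exists_fam T.fg B1 hF T.basis (t ∪ t0)
  have le : B.O ≤ B1.O := hs0 _ fun a ha => hs a (Finset.mem_union_right _ ha)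
  have leX : T.X.O ≤ T1.X.O := ht0 _ fun a ha => ht a (Finset.mem_union_right _ ha)
  obtain ⟨h, h0, H⟩ := exists_inLoc (A' := B1.O) B.frac
  have h1 : Subalgebra.inclusion le h ≠ 0 := fun e => h0 (Subtype.ext (congrArg Subtype.val e :))
  obtain ⟨g, B', T', L, hP, -⟩ := T1.exists_loc_gen
    ((B1.gen_ne h1).and (T1.toRel.exists_mp T.toRel (funext hx)))
  obtain ⟨h', L'⟩ := IsLoc.of_between h0 le H L.base
    (inv_mem_of_isUnit (a := L.base.j (Subalgebra.inclusion le h))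
      (Pt.isUnit_of_ne fun b => (hP b).1))
  refine ⟨B', T', fun i => (L.z i).trans (hz i),
    fun a ha => L.base.le (hs a (Finset.mem_union_left _ ha)),
    fun a ha => L.top.le (ht a (Finset.mem_union_left _ ha)),
    L'.le, leX.trans L.top.le, L.x.trans (funext hx), L'.emb, L'.same, fun b G hG => ?_⟩
  obtain ⟨u, hu, e⟩ := (hP b).2 (b.res L'.j) fun φ =>
    ⟨(L.base.same b φ).1.symm.trans (L'.same b φ).1, (L.base.same b φ).2.symm.trans (L'.same b φ).2⟩
  rw [L.int b hG, ← hu.lintegral_comp (f := fun p => G p.1.ev)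
    (hG.comp (Pt.measurable_ev'.comp measurable_subtype_coe))]
  exact lintegral_congr_ae (e.mono fun p hp => congrArg G hp.ev_eq)

end

end Pool.Agent.Lib.MP_5c318e_ag
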