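import Pool.Agent.Lib.MP_5c318e_ag.N.Pol

/-! Traces over the roots of a monic polynomial, lower bounds for integrals of polynomials. -/

set_option autoImplicit false

namespace Pool.Agent.Lib.MP_5c318e_ag.Low

open MeasureTheory Set Metric Polynomial Matrix
open scoped ENNReal

/-- the sum of the values over the roots is a universal expression in the coefficients -/
theorem trc {R : Type} [CommRing R] {f : R[X]} (hf : f.Monic) (P : R[X]) :
    ∃ θ : R, ∀ (e : R →+* ℂ) (w : Fin f.natDegree → ℂ), Function.Injective w →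
      (∀ i, f.eval₂ e (w i) = 0) → e θ = ∑ i, P.eval₂ e (w i) := by
  obtain ⟨bs, hbs⟩ : ∃ bs : Module.Basis (Fin f.natDegree) R (AdjoinRoot f),
      ∀ k, bs k = AdjoinRoot.root f ^ (k : ℕ) :=
    ⟨(AdjoinRoot.powerBasis' hf).basis, (AdjoinRoot.powerBasis' hf).basis_eq_pow⟩
  let A : Matrix (Fin f.natDegree) (Fin f.natDegree) R :=
    Algebra.leftMulMatrix bs (AdjoinRoot.mk f P)
  refine ⟨A.trace, fun e w hw h0 => ?_⟩
  have key : vandermonde w * A.map e = diagonal (fun i => P.eval₂ e (w i)) * vandermonde w := by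
    ext i j
    let χ := AdjoinRoot.lift e (w i) (h0 i)
    have hb : ∀ k : Fin f.natDegree, χ (bs k) = w i ^ (k : ℕ) := fun k => by
      rw [hbs, map_pow]
      exact congrArg (· ^ (k : ℕ)) (AdjoinRoot.lift_root (h0 i))
    have h1 := congrArg χ (bs.sum_repr (AdjoinRoot.mk f P * bs j))
    rw [map_sum, map_mul χ, hb, AdjoinRoot.lift_mk] at h1
    rw [diagonal_mul, vandermonde_apply, ← h1, mul_apply]
    refine Finset.sum_congr rfl fun k _ => ?_
    rw [Algebra.smul_def, map_mul, hb, AdjoinRoot.algebraMap_eq, AdjoinRoot.lift_of,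
      vandermonde_apply, map_apply, mul_comm, ← Algebra.leftMulMatrix_eq_repr_mul]
  have hu : IsUnit (vandermonde w).det := (det_vandermonde_ne_zero_iff.2 hw).isUnit
  have h2 : A.map e = (vandermonde w)⁻¹ * (diagonal (fun i => P.eval₂ e (w i)) * vandermonde w) := by
    rw [← key, nonsing_inv_mul_cancel_left _ _ hu]
  rw [AddMonoidHom.map_trace e A, h2, trace_mul_comm, mul_nonsing_inv_cancel_right _ _ hu,
    trace_diagonal]

theorem one_le_two_terms {x t : ℝ≥0∞} {s c : ℝ} (hs : 0 ≤ s) (hc : 0 ≤ c) (ht0 : t ≠ 0)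
    (ht : t ≠ ⊤) : 1 ≤ t⁻¹ ^ s * x ^ s + t ^ c * x ^ (-c) := by
  rcases le_total t x with h | h
  · refine le_trans ?_ le_self_add
    rw [← ENNReal.mul_rpow_of_nonneg _ _ hs, ← ENNReal.one_rpow s]
    refine ENNReal.rpow_le_rpow ?_ hs
    rw [← ENNReal.inv_mul_cancel ht0 ht]
    gcongr
  · refine le_trans ?_ le_add_self
    have h1 : t ^ c ≠ 0 := (ENNReal.rpow_pos (pos_iff_ne_zero.2 ht0) ht).ne'
    have h2 : t ^ c ≠ ⊤ := ENNReal.rpow_ne_top_of_nonneg hc ht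
    calc 1 = t ^ c * t ^ (-c) := by rw [ENNReal.rpow_neg, ENNReal.mul_inv_cancel h1 h2]
      _ ≤ _ := mul_le_mul_right (N.rpow_neg_anti hc h) _

/-- the coefficients are bounded by the mean over the unit polydisc -/
theorem coeff_le {ι : Type} [Fintype ι] (d : ℕ) {s : ℝ} (hs : 0 < s) :
    ∃ C : ℝ≥0∞, C ≠ ⊤ ∧ ∀ P : MvPolynomial ι ℂ, P.totalDegree ≤ d → ∀ m,
      ‖P.coeff m‖ₑ ^ s ≤ C * ∫⁻ z in closedBall (0 : ι → ℂ) 1, ‖MvPolynomial.eval z P‖ₑ ^ s := by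
  have hc : (0 : ℝ) < 1 / (d + 1) := by positivity
  obtain ⟨C, hC, h⟩ := N.pol (ι := ι) (d := d) (R := 1) hc (by
    rw [div_mul_eq_mul_div, div_lt_iff₀ (by positivity)]
    have : (0 : ℝ) ≤ d := Nat.cast_nonneg d
    linarith) zero_le_one
  generalize (1 / (d + 1) : ℝ) = c at hc h
  set v := volume (closedBall (0 : ι → ℂ) 1) with hv
  have hv0 : v ≠ 0 := (measure_closedBall_pos _ _ one_pos).ne'
  have hvt : v ≠ ⊤ := measure_closedBall_lt_top.ne
  have hh0 : v / 2 ≠ 0 := ENNReal.div_ne_zero.2 ⟨hv0, ENNReal.ofNat_ne_top⟩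
  have hht : v / 2 ≠ ⊤ := ENNReal.div_ne_top hvt two_ne_zero
  have hC1 : C + 1 ≠ ⊤ := ENNReal.add_ne_top.2 ⟨hC, ENNReal.one_ne_top⟩
  have hC0 : C + 1 ≠ 0 := by simp
  set κ := (v / 2 / (C + 1)) ^ c⁻¹ with hκ
  have hq0 : v / 2 / (C + 1) ≠ 0 := ENNReal.div_ne_zero.2 ⟨hh0, hC1⟩
  have hqt : v / 2 / (C + 1) ≠ ⊤ := ENNReal.div_ne_top hht hC0
  have hκ0 : κ ≠ 0 := (ENNReal.rpow_pos (pos_iff_ne_zero.2 hq0) hqt).ne'
  have hκt : κ ≠ ⊤ := ENNReal.rpow_ne_top_of_nonneg (by positivity) hqt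
  have hκc : κ ^ c * C ≤ v / 2 := by
    rw [hκ, ENNReal.rpow_inv_rpow hc.ne']
    calc _ ≤ v / 2 / (C + 1) * (C + 1) := by gcongr; exact le_self_add
      _ = _ := ENNReal.div_mul_cancel hC0 hC1
  refine ⟨(v / 2)⁻¹ * κ⁻¹ ^ s, ENNReal.mul_ne_top (ENNReal.inv_ne_top.2 hh0)
    (ENNReal.rpow_ne_top_of_nonneg hs.le (ENNReal.inv_ne_top.2 hκ0)), fun P hP m => ?_⟩
  by_cases h0 : P.coeff m = 0
  · simp [h0, ENNReal.zero_rpow_of_pos hs]
  set a := ‖P.coeff m‖ₑ with ha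
  have ha0 : a ≠ 0 := by simpa [ha] using h0
  have hat : a ≠ ⊤ := enorm_ne_top
  set J := ∫⁻ z in closedBall (0 : ι → ℂ) 1, ‖MvPolynomial.eval z P‖ₑ ^ s with hJ
  have hm := (N.measurable_eval P).enorm
  have h1 : v ≤ (κ * a)⁻¹ ^ s * J + v / 2 := by
    calc v = ∫⁻ _ in closedBall (0 : ι → ℂ) 1, 1 := by simp [hv]
      _ ≤ ∫⁻ z in closedBall (0 : ι → ℂ) 1, ((κ * a)⁻¹ ^ s * ‖MvPolynomial.eval z P‖ₑ ^ s +
            (κ * a) ^ c * ‖MvPolynomial.eval z P‖ₑ ^ (-c)) := lintegral_mono fun z =>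
          one_le_two_terms hs.le hc.le (mul_ne_zero hκ0 ha0) (ENNReal.mul_ne_top hκt hat)
      _ = (κ * a)⁻¹ ^ s * J + (κ * a) ^ c *
            ∫⁻ z in closedBall (0 : ι → ℂ) 1, ‖MvPolynomial.eval z P‖ₑ ^ (-c) := by
          rw [lintegral_add_left ((hm.pow_const s).const_mul _),
            lintegral_const_mul _ (hm.pow_const s), lintegral_const_mul _ (hm.pow_const _)]
      _ ≤ (κ * a)⁻¹ ^ s * J + (κ * a) ^ c * (C * a ^ (-c)) := by gcongr; exact h P hP m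
      _ ≤ _ := by
          refine add_le_add_right (le_trans (le_of_eq ?_) hκc) _
          have h1 : a ^ c ≠ 0 := (ENNReal.rpow_pos (pos_iff_ne_zero.2 ha0) hat).ne'
          have h2 : a ^ c ≠ ⊤ := ENNReal.rpow_ne_top_of_nonneg hc.le hat
          rw [ENNReal.mul_rpow_of_nonneg _ _ hc.le, ENNReal.rpow_neg, mul_mul_mul_comm,
            ENNReal.mul_inv_cancel h1 h2, mul_one]
  have h2 : v / 2 ≤ (κ * a)⁻¹ ^ s * J := by
    exact (ENNReal.add_le_add_iff_right hht).1 ((ENNReal.add_halves v).trans_le h1)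
  have h3 : a ^ s * a⁻¹ ^ s = 1 := by
    rw [← ENNReal.mul_rpow_of_nonneg _ _ hs.le, ENNReal.mul_inv_cancel ha0 hat, ENNReal.one_rpow]
  calc a ^ s = (v / 2)⁻¹ * (a ^ s * (v / 2)) := by
        rw [mul_left_comm, ENNReal.inv_mul_cancel hh0 hht, mul_one]
    _ ≤ (v / 2)⁻¹ * (a ^ s * ((κ * a)⁻¹ ^ s * J)) := by gcongr
    _ = (v / 2)⁻¹ * κ⁻¹ ^ s * J * (a ^ s * a⁻¹ ^ s) := by
        rw [ENNReal.mul_inv (Or.inl hκ0) (Or.inl hκt), ENNReal.mul_rpow_of_nonneg _ _ hs.le]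
        ring
    _ = _ := by rw [h3, mul_one]

theorem sum_rpow_le {I : Type} [Fintype I] (x : I → ℝ≥0∞) {s : ℝ} (hs : 0 < s) :
    (∑ i, x i) ^ s ≤ (Fintype.card I : ℝ≥0∞) ^ s * ∑ i, x i ^ s := by
  have h : ∀ i, x i ≤ (∑ i, x i ^ s) ^ s⁻¹ := fun i => by
    rw [ENNReal.le_rpow_inv_iff hs]
    exact Finset.single_le_sum (f := fun i => x i ^ s) (fun _ _ => zero_le) (Finset.mem_univ i)
  have h2 : ∑ i, x i ≤ (Fintype.card I : ℝ≥0∞) * (∑ i, x i ^ s) ^ s⁻¹ := by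
    simpa using Finset.sum_le_card_nsmul Finset.univ x _ fun i _ => h i
  refine (ENNReal.rpow_le_rpow h2 hs.le).trans (le_of_eq ?_)
  rw [ENNReal.mul_rpow_of_nonneg _ _ hs.le, ENNReal.rpow_inv_rpow hs.ne']

/-- a root of a monic polynomial is bounded by the coefficients -/
theorem root_le {R : Type} [CommRing R] {f : R[X]} (hf : f.Monic) (e : R →+* ℂ) {w : ℂ}
    (h : f.eval₂ e w = 0) : ‖w‖ₑ ≤ 1 + ∑ i ∈ Finset.range f.natDegree, ‖e (f.coeff i)‖ₑ := by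
  have hm := hf.map e
  have h1 : (f.map e).IsRoot w := by rwa [IsRoot, eval_map]
  have h2 := (h1.norm_lt_cauchyBound hm.ne_zero).le
  rw [cauchyBound, hm.leadingCoeff, nnnorm_one, div_one, hf.natDegree_map] at h2
  rw [add_comm, enorm]
  refine (ENNReal.coe_le_coe.2 h2).trans ?_
  rw [ENNReal.coe_add, ENNReal.coe_one]
  refine add_le_add_left ?_ _
  rw [ENNReal.coe_finset_sup]
  refine Finset.sup_le fun i hi => ?_
  rw [coeff_map]
  exact Finset.single_le_sum (f := fun i => ‖e (f.coeff i)‖ₑ) (fun _ _ => zero_le) hi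

/-- a left inverse at one point gives a left inverse up to a nonzero factor -/
theorem left_inv {R I r : Type} [CommRing R] [Algebra ℂ R] [Fintype I] [Fintype r] [DecidableEq r]
    (E : Matrix I r R) (b0 : R →ₐ[ℂ] ℂ) (h : ∀ a, E.map b0 *ᵥ a = 0 → a = 0) :
    ∃ (L : Matrix r I R) (q : R), b0 q = 1 ∧ L * E = q • (1 : Matrix r r R) := by
  classical
  obtain ⟨g, hg⟩ := LinearMap.exists_leftInverse_of_injective (E.map b0).mulVecLin
    (LinearMap.ker_eq_bot'.2 h)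
  let L0 := LinearMap.toMatrix' g
  have h1 : L0 * E.map b0 = 1 := by
    have := congrArg LinearMap.toMatrix' hg
    rwa [LinearMap.toMatrix'_comp, LinearMap.toMatrix'_id, ← toLin'_apply',
      LinearMap.toMatrix'_toLin'] at this
  let H := L0.map (algebraMap ℂ R) * E
  refine ⟨H.adjugate * L0.map (algebraMap ℂ R), H.det, ?_, by rw [Matrix.mul_assoc, adjugate_mul]⟩
  have h2 : H.map b0 = 1 := by
    rw [← h1]
    ext i j
    simp [H, mul_apply]
  rw [AlgHom.map_det, AlgHom.mapMatrix_apply, h2, det_one]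

end Pool.Agent.Lib.MP_5c318e_ag.Low
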