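import Pool.Agent.Lib.MP_5c318e_ag.C.Pol
import Pool.Agent.Lib.MP_5c318e_ag.S.RArea
import Pool.Agent.Lib.MP_5c318e_ag.E.FlatA
import Pool.Agent.Lib.MP_9ff3e7_ag.F.Riem
import Pool.Agent.Lib.MP_9ff3e7_ag.F.Liou

/-! Holomorphic functions of moderate growth off a hypersurface of `ℂ^ι` are rational. -/

set_option autoImplicit false

namespace Pool.Agent.Lib.MP_5c318e_ag.Rat

open MeasureTheory Set Filter Topology Complex Metric
open Pool.Agent.Lib.MP_9ff3e7_ag

variable {ι : Type} [Fintype ι]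

theorem circ_rpow {f : ℂ → ℂ} (hf : DifferentiableOn ℂ f (closedBall 0 1)) {s : ℝ} (hs : 0 < s) :
    ‖f 0‖ ^ s ≤ Real.circleAverage (fun z => ‖f z‖ ^ s) 0 1 := by
  refine Flat.MPx.submean (u := fun z => ‖f z‖ ^ s) ?_
    ((hf.continuousOn.mono sphere_subset_closedBall).norm.rpow_const fun _ _ => Or.inr hs.le)
    fun z _ => by positivity
  intro p M hM w hw
  have hF : DifferentiableOn ℂ (fun z => f z * cexp (-(p.eval z) / s)) (closedBall 0 1) :=
    hf.mul ((p.differentiable.neg.div_const (s : ℂ)).cexp).differentiableOn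
  have hn : ∀ z, ‖f z * cexp (-(p.eval z) / s)‖ ^ s = ‖f z‖ ^ s * Real.exp (-(p.eval z).re) := by
    intro z
    rw [norm_mul, Real.mul_rpow (norm_nonneg _) (norm_nonneg _), Complex.norm_exp, ← Real.exp_mul,
      div_ofReal_re, div_mul_cancel₀ _ hs.ne', neg_re]
  have hM0 : 0 ≤ M := le_trans (by positivity) (hM 1 (by simp))
  have := Complex.norm_le_of_forall_mem_frontier_norm_le (U := ball (0 : ℂ) 1) isBounded_ball
    (hF.mono closure_ball_subset_closedBall).diffContOnCl (C := M ^ s⁻¹) (fun z hz => by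
      rw [frontier_ball _ one_ne_zero] at hz
      rw [Real.le_rpow_inv_iff_of_pos (norm_nonneg _) hM0 hs, hn]
      exact hM z hz) (subset_closure hw)
  rw [← hn]
  exact (Real.le_rpow_inv_iff_of_pos (norm_nonneg _) hM0 hs).1 this

/-- the mean value inequality for positive powers -/
theorem submean_rpow {G : (ι → ℂ) → ℂ} {x : ι → ℂ} {r : ℝ} (hF : DifferentiableOn ℂ G (ball x r))
    {s : ℝ} (hs : 0 < s) :
    ENNReal.ofReal (‖G x‖ ^ s) * volume (ball (0 : ι → ℂ) r) ≤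
      ∫⁻ y in ball x r, ENNReal.ofReal (‖G y‖ ^ s) := by
  classical
  let g := (ball x r).indicator fun y => ENNReal.ofReal (‖G y‖ ^ s)
  have gm : Measurable g :=
    ContinuousOn.measurable_piecewise (ENNReal.continuous_ofReal.comp_continuousOn
      (hF.continuousOn.norm.rpow_const fun _ _ => Or.inr hs.le)) continuousOn_const
      measurableSet_ball
  have key : ∀ y ∈ ball (0 : ι → ℂ) r, ENNReal.ofReal (‖G x‖ ^ s) ≤
      ∫⁻ t : F.Osg.Tc, g (x + fourier 1 t • y) ∂AddCircle.haarAddCircle := fun y hy => by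
    have m : ∀ a : ℂ, ‖a‖ ≤ 1 → x + a • y ∈ ball x r := fun a ha => by
      rw [add_mem_ball_iff_norm, norm_smul]
      exact (mul_le_of_le_one_left (norm_nonneg _) ha).trans_lt (mem_ball_zero_iff.1 hy)
    have d : DifferentiableOn ℂ (fun a : ℂ => G (x + a • y)) (closedBall 0 1) :=
      hF.comp (by fun_prop) fun a ha => m a (mem_closedBall_zero_iff.1 ha)
    have e := circ_rpow d hs
    rw [zero_smul, add_zero] at e
    have e2 := F.Osg.avg fun a : ℂ => ((‖G (x + a • y)‖ ^ s : ℝ) : ℂ)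
    have e3 : Real.circleAverage (fun a : ℂ => ((‖G (x + a • y)‖ ^ s : ℝ) : ℂ)) 0 1 =
        (Real.circleAverage (fun a : ℂ => ‖G (x + a • y)‖ ^ s) 0 1 : ℝ) := by
      simp only [Real.circleAverage, intervalIntegral.integral_ofReal, real_smul, smul_eq_mul,
        ofReal_mul]
    refine (ENNReal.ofReal_le_ofReal (e.trans (le_abs_self _))).trans ?_
    rw [← Real.norm_eq_abs, ← norm_real, ← e3, ← e2, ofReal_norm]
    refine (enorm_integral_le_lintegral_enorm _).trans_eq (lintegral_congr fun t => ?_)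
    simp only [g]
    rw [Set.indicator_of_mem (m _ (F.Osg.nrm t).le), ← ofReal_norm, norm_real,
      Real.norm_of_nonneg (by positivity)]
  calc _ = ∫⁻ _ in ball (0 : ι → ℂ) r, ENNReal.ofReal (‖G x‖ ^ s) := (setLIntegral_const _ _).symm
    _ ≤ ∫⁻ y, ∫⁻ t : F.Osg.Tc, g (x + fourier 1 t • y) ∂AddCircle.haarAddCircle :=
        (setLIntegral_mono' measurableSet_ball key).trans (setLIntegral_le_lintegral _ _)
    _ = ∫⁻ t : F.Osg.Tc, (∫⁻ y, g (x + fourier 1 t • y)) ∂AddCircle.haarAddCircle :=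
        lintegral_lintegral_swap (gm.comp (Continuous.measurable (by fun_prop))).aemeasurable
    _ = ∫⁻ _ : F.Osg.Tc, (∫⁻ y, g y) ∂AddCircle.haarAddCircle :=
        lintegral_congr fun t => (F.rot_pres x _).lintegral_comp gm
    _ = _ := by rw [lintegral_const, measure_univ, mul_one, lintegral_indicator measurableSet_ball]

theorem isOpen_ne (G : MvPolynomial ι ℂ) : IsOpen {a : ι → ℂ | MvPolynomial.eval a G ≠ 0} :=
  isOpen_ne_fun (mv_cont _) continuous_const

/-- pointwise moderate growth -/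
theorem poly_of_mod {G : MvPolynomial ι ℂ} {h : (ι → ℂ) → ℂ}
    (hh : ∀ a, MvPolynomial.eval a G ≠ 0 → DifferentiableAt ℂ h a) {A : ℝ} {M N : ℕ}
    (hb : ∀ a, MvPolynomial.eval a G ≠ 0 →
      ‖h a‖ * ‖MvPolynomial.eval a G‖ ^ M ≤ A * (1 + ‖a‖) ^ N) :
    ∃ P : MvPolynomial ι ℂ, ∀ a, MvPolynomial.eval a G ≠ 0 →
      h a * MvPolynomial.eval a G ^ (M + 2) = MvPolynomial.eval a P := by
  obtain ⟨B, L, B0, hB⟩ := pl_mv G
  let k : (ι → ℂ) → ℂ := fun a => h a * MvPolynomial.eval a G ^ (M + 2)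
  have kb : ∀ a, ‖k a‖ ≤ |A| * (1 + ‖a‖) ^ N * ‖MvPolynomial.eval a G‖ ^ 2 := fun a => by
    by_cases ha : MvPolynomial.eval a G = 0
    · simp [k, ha]
    · simp only [k]
      rw [norm_mul, norm_pow, pow_add, ← mul_assoc]
      exact mul_le_mul_of_nonneg_right ((hb a ha).trans
        (mul_le_mul_of_nonneg_right (le_abs_self A) (by positivity))) (by positivity)
  have kd : Differentiable ℂ k := fun a => by
    by_cases ha : MvPolynomial.eval a G = 0
    · refine (HasFDerivAt.differentiableAt (f' := 0) ?_)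
      rw [hasFDerivAt_iff_isLittleO_nhds_zero]
      have k0 : k a = 0 := by simp [k, ha]
      simp only [k0, sub_zero, zero_apply]
      refine Asymptotics.IsBigO.trans_isLittleO (g := fun v : ι → ℂ => ‖v‖ ^ 2) ?_
        (Asymptotics.isLittleO_norm_pow_id one_lt_two)
      refine Asymptotics.IsBigO.of_bound
        (|A| * (1 + (‖a‖ + 1)) ^ N * (B * (‖a‖ + 1) ^ L) ^ 2) ?_
      filter_upwards [closedBall_mem_nhds (0 : ι → ℂ) one_pos] with v hv
      have v1 : ‖v‖ ≤ 1 := mem_closedBall_zero_iff.1 hv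
      have n1 : ‖a + v‖ ≤ ‖a‖ + 1 := (norm_add_le _ _).trans (by linarith)
      have := (hB (‖a‖ + 1) (by linarith [norm_nonneg a]) (a + v) a n1 (by linarith)).2
      simp only [ha, sub_zero, add_sub_cancel_left] at this
      rw [Real.norm_of_nonneg (by positivity)]
      calc _ ≤ _ := kb (a + v)
        _ ≤ |A| * (1 + (‖a‖ + 1)) ^ N * (B * (‖a‖ + 1) ^ L * ‖v‖) ^ 2 := by gcongr
        _ = _ := by ring
    · exact (hh a ha).mul ((mv_analytic G a).differentiableAt.pow _)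
  obtain ⟨P, -, hP⟩ := F.poly_of_growth kd (N + L * 2) (C := |A| * B ^ 2) fun a => by
    have n0 := norm_nonneg a
    have := (hB (‖a‖ + 2) (by linarith) a a (by linarith) (by linarith)).1
    calc _ ≤ _ := kb a
      _ ≤ |A| * (‖a‖ + 2) ^ N * (B * (‖a‖ + 2) ^ L) ^ 2 := by
          have : 1 + ‖a‖ ≤ ‖a‖ + 2 := by linarith
          gcongr
      _ = _ := by ring
  exact ⟨P, fun a _ => hP a⟩

/-- balls of polynomial radius on which a polynomial keeps its size -/
theorem ball_ne (G : MvPolynomial ι ℂ) : ∃ (c : ℝ) (L : ℕ), 0 < c ∧ ∀ a,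
    c * ‖MvPolynomial.eval a G‖ / (1 + ‖a‖) ^ L ≤ 1 ∧
    ∀ y ∈ ball a (c * ‖MvPolynomial.eval a G‖ / (1 + ‖a‖) ^ L),
      ‖MvPolynomial.eval a G‖ ≤ 2 * ‖MvPolynomial.eval y G‖ := by
  obtain ⟨B, L, B0, hB⟩ := pl_mv G
  refine ⟨1 / (2 * (B + 1) * 2 ^ L), L, by positivity, fun a => ?_⟩
  have n0 := norm_nonneg a
  have p1 : (0 : ℝ) < (1 + ‖a‖) ^ L := by positivity
  have p2 : (1 : ℝ) ≤ 2 ^ L := one_le_pow₀ one_le_two
  have r1 : 1 / (2 * (B + 1) * 2 ^ L) * ‖MvPolynomial.eval a G‖ / (1 + ‖a‖) ^ L ≤ 1 := by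
    have := (hB (1 + ‖a‖) (by linarith) a a (by linarith) (by linarith)).1
    rw [div_le_one p1, one_div_mul_eq_div, div_le_iff₀ (by positivity)]
    nlinarith [mul_le_mul_of_nonneg_left p2 (show 0 ≤ (1 + ‖a‖) ^ L * (2 * (B + 1)) by positivity)]
  refine ⟨r1, fun y hy => ?_⟩
  rw [mem_ball_iff_norm] at hy
  have n1 : ‖y‖ ≤ 2 * (1 + ‖a‖) := by
    have : ‖y‖ ≤ ‖y - a‖ + ‖a‖ := by simpa using norm_add_le (y - a) a
    linarith
  have := (hB (2 * (1 + ‖a‖)) (by linarith) y a n1 (by linarith)).2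
  have e : B * (2 * (1 + ‖a‖)) ^ L * ‖y - a‖ ≤ ‖MvPolynomial.eval a G‖ / 2 := by
    calc _ ≤ (B + 1) * (2 * (1 + ‖a‖)) ^ L *
          (1 / (2 * (B + 1) * 2 ^ L) * ‖MvPolynomial.eval a G‖ / (1 + ‖a‖) ^ L) := by
          gcongr; linarith
      _ = _ := by rw [mul_pow]; field_simp
  have t : ‖MvPolynomial.eval a G‖ ≤
      ‖MvPolynomial.eval y G - MvPolynomial.eval a G‖ + ‖MvPolynomial.eval y G‖ := by
    rw [norm_sub_rev]
    simpa using norm_add_le (MvPolynomial.eval a G - MvPolynomial.eval y G) (MvPolynomial.eval y G)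
  linarith

theorem vol_ball {r : ℝ} (hr : 0 < r) : volume (ball (0 : ι → ℂ) r) =
    ENNReal.ofReal ((Real.pi * r ^ 2) ^ Fintype.card ι) := by
  rw [ball_pi _ hr, volume_pi_pi]
  simp only [Complex.volume_ball, Finset.prod_const, Finset.card_univ]
  rw [ENNReal.ofReal_pow (by positivity), ENNReal.ofReal_mul Real.pi_pos.le,
    ENNReal.ofReal_pow hr.le, mul_comm, ← NNReal.coe_real_pi, ENNReal.ofReal_coe_nnreal]

/-- from a bound in the mean on a ball of polynomial radius to moderate growth -/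
theorem mod_of_mean {t g n c s J : ℝ} {L k N d : ℕ} (hg : 0 < g) (hn : 0 ≤ n) (hc : 0 < c)
    (h : t ^ s * (Real.pi * (c * g / (1 + n) ^ L) ^ 2) ^ d * (g / 2) ^ k ≤ J * (2 * (1 + n)) ^ N) :
    t ^ s * g ^ (2 * d + k) ≤
      J * 2 ^ (N + k) / (Real.pi * c ^ 2) ^ d * (1 + n) ^ (N + L * 2 * d) := by
  have p : 0 < (Real.pi * c ^ 2) ^ d := by have := Real.pi_pos; positivity
  have e : t ^ s * g ^ (2 * d + k) = t ^ s * (Real.pi * (c * g / (1 + n) ^ L) ^ 2) ^ d *
      (g / 2) ^ k * (2 ^ k / (Real.pi * c ^ 2) ^ d * (1 + n) ^ (L * 2 * d)) := by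
    have := Real.pi_pos
    simp only [div_pow, mul_pow, pow_add, ← pow_mul]
    field_simp
  rw [e]
  refine (mul_le_mul_of_nonneg_right h (by positivity)).trans (le_of_eq ?_)
  simp only [mul_pow, pow_add]
  ring

/-- from a power to the first power -/
theorem mod_of_rpow {s : ℝ} (hs : 0 < s) (A : ℝ) (M N : ℕ) (B : ℝ) (L : ℕ) :
    ∃ (A' : ℝ) (M' N' : ℕ), ∀ t g n : ℝ, 0 ≤ t → 0 < g → 0 ≤ n → g ≤ B * (1 + n) ^ L →
      t ^ s * g ^ M ≤ A * (1 + n) ^ N → t * g ^ M' ≤ A' * (1 + n) ^ N' := by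
  obtain ⟨j, hj⟩ := exists_nat_ge s⁻¹
  refine ⟨|B| ^ (M * j) + |A| ^ j, M * j, L * (M * j) + N * j, fun t g n ht hg hn hB h => ?_⟩
  have n1 : 1 ≤ 1 + n := by linarith
  have e1 : (1 + n) ^ (L * (M * j)) ≤ (1 + n) ^ (L * (M * j) + N * j) :=
    pow_le_pow_right₀ n1 (Nat.le_add_right _ _)
  have e2 : (1 + n) ^ (N * j) ≤ (1 + n) ^ (L * (M * j) + N * j) :=
    pow_le_pow_right₀ n1 (Nat.le_add_left _ _)
  rw [add_mul]
  rcases le_total t 1 with h1 | h1
  · refine le_add_of_le_of_nonneg ?_ (by positivity)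
    calc t * g ^ (M * j) ≤ 1 * (|B| * (1 + n) ^ L) ^ (M * j) := by
          gcongr
          exact hB.trans (mul_le_mul_of_nonneg_right (le_abs_self B) (by positivity))
      _ = |B| ^ (M * j) * (1 + n) ^ (L * (M * j)) := by rw [one_mul, mul_pow, ← pow_mul]
      _ ≤ _ := by gcongr
  · refine le_add_of_nonneg_of_le (by positivity) ?_
    have : t ≤ (t ^ s) ^ j := by
      rw [← Real.rpow_natCast, ← Real.rpow_mul ht]
      refine Real.self_le_rpow_of_one_le h1 ?_
      rw [inv_le_iff_one_le_mul₀ hs] at hj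
      linarith
    calc t * g ^ (M * j) ≤ (t ^ s) ^ j * g ^ (M * j) := by gcongr
      _ = (t ^ s * g ^ M) ^ j := by rw [mul_pow, pow_mul]
      _ ≤ (|A| * (1 + n) ^ N) ^ j := pow_le_pow_left₀ (by positivity)
          (h.trans (mul_le_mul_of_nonneg_right (le_abs_self A) (by positivity))) _
      _ = |A| ^ j * (1 + n) ^ (N * j) := by rw [mul_pow, ← pow_mul]
      _ ≤ _ := by gcongr

theorem one_add_sq_le {a y : ι → ℂ} (h : ‖y - a‖ ≤ 1) : 1 + ‖y‖ ^ 2 ≤ (2 * (1 + ‖a‖)) ^ 2 := by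
  have : ‖y‖ ≤ ‖y - a‖ + ‖a‖ := by simpa using norm_add_le (y - a) a
  have h2 : ‖y‖ ^ 2 ≤ (1 + ‖a‖) ^ 2 := pow_le_pow_left₀ (norm_nonneg _) (by linarith) 2
  nlinarith [norm_nonneg a]

/-- growth in the mean -/
theorem poly_of_l2 {G : MvPolynomial ι ℂ} (hG : G ≠ 0) {h : (ι → ℂ) → ℂ}
    (hh : ∀ a, MvPolynomial.eval a G ≠ 0 → DifferentiableAt ℂ h a) (N : ℕ)
    (hi : ∫⁻ a in {a | MvPolynomial.eval a G ≠ 0},
      ENNReal.ofReal (‖h a‖ ^ 2 / (1 + ‖a‖ ^ 2) ^ N) < ⊤) :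
    ∃ P : MvPolynomial ι ℂ, ∀ a, MvPolynomial.eval a G ≠ 0 → h a = MvPolynomial.eval a P := by
  set U := {a : ι → ℂ | MvPolynomial.eval a G ≠ 0} with hU
  set J := ∫⁻ a in U, ENNReal.ofReal (‖h a‖ ^ 2 / (1 + ‖a‖ ^ 2) ^ N) with hJ
  have loc : ∀ (a : ι → ℂ) (V : Set (ι → ℂ)), MeasurableSet V → V ⊆ U → V ⊆ closedBall a 1 →
      ∫⁻ y in V, ENNReal.ofReal (‖h y‖ ^ 2) ≤
        ENNReal.ofReal ((2 * (1 + ‖a‖)) ^ (2 * N)) * J := by
    intro a V hV h1 h2
    refine le_trans ?_ (mul_le_mul_right (lintegral_mono_set h1) _)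
    rw [← lintegral_const_mul' _ _ ENNReal.ofReal_ne_top]
    refine setLIntegral_mono' hV fun y hy => ?_
    rw [← ENNReal.ofReal_mul (by positivity)]
    refine ENNReal.ofReal_le_ofReal ?_
    rw [mul_div_assoc', le_div_iff₀ (by positivity), mul_comm, pow_mul]
    gcongr
    exact one_add_sq_le (mem_closedBall_iff_norm.1 (h2 hy))
  obtain ⟨c, L, c0, hc⟩ := ball_ne G
  obtain ⟨B, L', -, hB⟩ := pl_mv G
  obtain ⟨A', M', N', h'⟩ := mod_of_rpow two_pos
    (J.toReal * 2 ^ (2 * N + 0) / (Real.pi * c ^ 2) ^ Fintype.card ι) (2 * Fintype.card ι + 0)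
    (2 * N + L * 2 * Fintype.card ι) B L'
  obtain ⟨P, hP⟩ := poly_of_mod hh (A := A') (M := M') (N := N') fun a ha => by
    have g0 : 0 < ‖MvPolynomial.eval a G‖ := norm_pos_iff.2 ha
    have n0 := norm_nonneg a
    refine h' _ _ _ (norm_nonneg _) g0 n0
      (hB (1 + ‖a‖) (by linarith) a a (by linarith) (by linarith)).1
      (mod_of_mean g0 n0 c0 ?_)
    have sub : ball a (c * ‖MvPolynomial.eval a G‖ / (1 + ‖a‖) ^ L) ⊆ U := fun y hy =>
      norm_pos_iff.1 (by linarith [(hc a).2 y hy])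
    have := (F.submean fun y hy => (hh y (sub hy)).differentiableWithinAt).trans
      (loc a _ measurableSet_ball sub (ball_subset_closedBall.trans
        (closedBall_subset_closedBall (hc a).1)))
    rw [vol_ball (by positivity), ← ENNReal.ofReal_mul (by positivity),
      ← ENNReal.ofReal_toReal hi.ne, ← ENNReal.ofReal_mul (by positivity),
      ENNReal.ofReal_le_ofReal_iff (by positivity)] at this
    rw [pow_zero, mul_one, Real.rpow_two, mul_comm J.toReal]
    exact this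
  have ae := by classical exact RArea.null_poly hG
  have dense : ∀ y, (𝓝[U] y).NeBot := fun y =>
    mem_closure_iff_nhdsWithin_neBot.1 (Measure.dense_of_ae (μ := volume) ae y)
  have ext : ∀ y0 : ι → ℂ, ∃ k : (ι → ℂ) → ℂ, AnalyticAt ℂ k y0 ∧
      ∀ᶠ y in 𝓝 y0, y ∈ U → h y = k y := by
    intro y0
    obtain ⟨k, k1, k2⟩ := F.riemann_l2 (a := fun y => MvPolynomial.eval y P)
      (b := fun y => MvPolynomial.eval y G ^ (M' + 2)) (y0 := y0) one_pos
      (fun y _ => mv_analytic P y) (fun y _ => (mv_analytic G y).pow _)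
      (fun h0 => by
        have := dense y0
        obtain ⟨y, y1, y2⟩ := ((h0.filter_mono (nhdsWithin_le_nhds (s := U))).and
          self_mem_nhdsWithin).exists
        exact y2 (pow_eq_zero_iff (by omega) |>.1 y1))
      (by
        have e : {y : ι → ℂ | MvPolynomial.eval y G ^ (M' + 2) ≠ 0} = U := by
          ext y; simp [hU]
        have mV := measurableSet_ball (x := y0) (ε := 1) |>.inter (isOpen_ne G).measurableSet
        rw [e, setLIntegral_congr_fun mV (g := fun y => ENNReal.ofReal (‖h y‖ ^ 2))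
          fun y hy => by
            simp only
            rw [← hP y hy.2, mul_div_cancel_right₀ _ (pow_ne_zero _ hy.2)]]
        exact (loc y0 _ mV inter_subset_right
          (inter_subset_left.trans ball_subset_closedBall)).trans_lt
          (ENNReal.mul_lt_top ENNReal.ofReal_lt_top hi))
    refine ⟨k, k1, k2.mono fun y hy hU' => mul_right_cancel₀ (pow_ne_zero (M' + 2) hU') ?_⟩
    rw [hP y hU', hy, mul_comm]
  let H : (ι → ℂ) → ℂ := fun y => limUnder (𝓝[U] y) h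
  have loc2 : ∀ y0 k, AnalyticAt ℂ k y0 → (∀ᶠ y in 𝓝 y0, y ∈ U → h y = k y) → H =ᶠ[𝓝 y0] k := by
    intro y0 k k1 k2
    filter_upwards [k1.eventually_analyticAt, k2.eventually_nhds] with y y1 y2
    have := dense y
    refine Tendsto.limUnder_eq ((y1.continuousAt.tendsto.mono_left nhdsWithin_le_nhds).congr' ?_)
    filter_upwards [y2.filter_mono nhdsWithin_le_nhds, self_mem_nhdsWithin] with z z1 z2
    exact (z1 z2).symm
  have Hd : Differentiable ℂ H := fun y => by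
    obtain ⟨k, k1, k2⟩ := ext y
    exact k1.differentiableAt.congr_of_eventuallyEq (loc2 y k k1 k2)
  have Hh : ∀ y ∈ U, H y = h y := fun y hy => by
    obtain ⟨k, k1, k2⟩ := ext y
    rw [(loc2 y k k1 k2).self_of_nhds, k2.self_of_nhds hy]
  obtain ⟨Q, -, hQ⟩ := F.liouville_l2 Hd N (by
    rw [← setLIntegral_univ, setLIntegral_congr (t := U) (ae_eq_univ.2 ae).symm,
      setLIntegral_congr_fun (isOpen_ne G).measurableSet
        (g := fun a => ENNReal.ofReal (‖h a‖ ^ 2 / (1 + ‖a‖ ^ 2) ^ N)) fun y hy => by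
          simp only [Hh y hy]]
    exact hi)
  exact ⟨Q, fun a ha => (Hh a ha).symm.trans (hQ a)⟩

end Pool.Agent.Lib.MP_5c318e_ag.Rat
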