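import Pool.Agent.Lib.MP_5c318e_ag.S.BVal

/-! The final assembly: additivity from a supply of regular forms on the total space. -/

set_option autoImplicit false

namespace Pool.Agent.Lib.MP_5c318e_ag

open Set

section B
variable {δ ν K M : Type} [Fintype δ] [DecidableEq δ] [Fintype ν] [DecidableEq ν]
  [Field K] [Algebra ℂ K] [Field M] [Algebra ℂ M] [Algebra K M] [IsScalarTower ℂ K M]
  {y : δ → K} {x : ν → M} {dK : δ → Derivation ℂ K K} {dx : ν → Derivation K M M}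
  {dM : δ ⊕ ν → Derivation ℂ M M}

/-- ranks add: `p` independent elements of `L` and a set of rank `q` over `L` among the ratios -/
theorem add_le_trk {k L F : Type} [Field k] [Field L] [Field F] [Algebra k L] [Algebra L F]
    [Algebra k F] [IsScalarTower k L F] {R : Set F} {p q : ℕ} {a : Fin p → L}
    (ha : AlgebraicIndependent k a) (haR : ∀ i, algebraMap L F (a i) ∈ R) {h : Fin q → F}
    (hh : AlgebraicIndependent L h) (hR : ∀ j, IsAlgebraic (IntermediateField.adjoin L R) (h j)) :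
    ((q + p : ℕ) : ℕ∞) ≤ trk (kR k F) R := by
  have hle : kR k F ≤ kR L F := by
    rintro _ ⟨c, rfl⟩
    exact ⟨algebraMap k L c, (IsScalarTower.algebraMap_apply k L F c).symm⟩
  have hi : AlgebraicIndependent k (algebraMap L F ∘ a) :=
    ha.map' (f := IsScalarTower.toAlgHom k L F) (algebraMap L F).injective
  have h1 := trk_add_le hle (A := range (algebraMap L F ∘ a))
    (by rintro _ ⟨i, rfl⟩; exact mem_kR _) R
  rw [union_eq_right.2 (range_subset_iff (f := algebraMap L F ∘ a) |>.2 haR),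
    trk_range (indep_kR_iff.2 hi)] at h1
  have h2 := card_le_trk (indep_kR_iff.2 hh) (S := R) fun j => alg_closure_iff.2 (hR j)
  refine le_trans ?_ h1
  rw [Nat.cast_add, add_comm]
  simp only [Fintype.card_fin] at h2 ⊢
  exact add_le_add le_rfl h2

set_option linter.unusedVariables false in
/-- the final assembly (v2: no `RelReg`) -/
theorem kod_add_le (hK : Dual ℂ y dK) (hx : Dual K x dx)
    (hM : Dual ℂ (Sum.elim (fun i => algebraMap K M (y i)) x) dM)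
    (FK : Frames dK) (hfK : (⊤ : IntermediateField ℂ K).FG)
    (FM : Frames dx) (hfM : (⊤ : IntermediateField K M).FG)
    (H : ∀ m k : ℕ, 3 ≤ m → 0 < k → (∃ φ, φ ≠ 0 ∧ Plu dx m φ) → (∃ η, η ≠ 0 ∧ Plu dK k η) →
      ∃ q : ℕ, 0 < q ∧ ∃ T : Set M, T.Nonempty ∧
        (∀ s ∈ T, s ≠ 0 ∧ ∀ η, Plu dK k η → Plu dM q (s * algebraMap K M η)) ∧
        ∀ φ ψ, Plu dx m φ → Plu dx m ψ →
          IsAlgebraic (IntermediateField.adjoin K {g | ∃ s ∈ T, ∃ t ∈ T, g = s / t}) (φ / ψ)) :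
    kod K M + kod ℂ K ≤ kod ℂ M := by
  have : CharZero K := charZero_of_injective_algebraMap (algebraMap ℂ K).injective
  by_cases h1 : kod K M = ⊥
  · simp [h1]
  by_cases h2 : kod ℂ K = ⊥
  · simp [h2]
  obtain ⟨n1, e1, -⟩ := kod_eq_nat hx.isFr h1
  obtain ⟨n2, e2, -⟩ := kod_eq_nat hK.isFr h2
  obtain ⟨m, hm, ψ, hψ0, hψ, h, hh, hhψ⟩ := (le_kod_iff hx.isFr).1 e1.ge
  obtain ⟨k, hk, η, hη0, hη, a, ha, haη⟩ := (le_kod_iff hK.isFr).1 e2.ge
  have hψ3 : Plu dx (m * 3) (ψ ^ 3) := (plu_iff hx.isFr).2 (hψ.pow 3)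
  obtain ⟨q, hq, T, ⟨s0, hs0⟩, hT, halg⟩ := H (m * 3) k (by omega) hk
    ⟨_, pow_ne_zero 3 hψ0, hψ3⟩ ⟨η, hη0, (plu_iff hK.isFr).2 hη⟩
  have hη1 : algebraMap K M η ≠ 0 := (map_ne_zero _).2 hη0
  have key : ∀ s ∈ T, ∀ θ, PluD dK k θ → PluD dM q (s * algebraMap K M θ) := fun s hs θ hθ =>
    (plu_iff hM.isFr).1 ((hT s hs).2 θ ((plu_iff hK.isFr).2 hθ))
  have h3 := add_le_trk (R := ratios ℂ M) ha (fun i => (mem_ratios_iff hM.isFr).2
    ⟨q, hq, _, _, key s0 hs0 _ (haη i), key s0 hs0 _ hη, mul_ne_zero (hT s0 hs0).1 hη1, by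
      rw [map_mul, mul_div_mul_left _ _ (hT s0 hs0).1, mul_div_cancel_right₀ _ hη1]⟩) hh
    fun j => by
      have h4 : PluD dx (m * 3) (h j * ψ * ψ ^ 2) := by
        have := (hhψ j).mul (hψ.pow 2)
        rwa [show m + m * 2 = m * 3 by ring] at this
      have h5 := halg _ _ ((plu_iff hx.isFr).2 h4) hψ3
      rw [show h j * ψ * ψ ^ 2 / ψ ^ 3 = h j by field_simp] at h5
      refine alg_closure_iff.1 (Trd_alg_trans (fun g hg => Trd_alg_of_mem
        (Subfield.subset_closure (Or.inr ?_))) (alg_closure_iff.2 h5))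
      obtain ⟨s, hs, t, ht, rfl⟩ := hg
      exact (mem_ratios_iff hM.isFr).2 ⟨q, hq, _, _, key s hs _ hη, key t ht _ hη,
        mul_ne_zero (hT t ht).1 hη1, (mul_div_mul_right _ _ hη1).symm⟩
  rw [e1, e2]
  have h6 := (le_kod_iff_trk hM.isFr (n := n1 + n2)).2 ⟨(kod_ne_bot_iff hM.isFr).2
    ⟨q, hq, _, mul_ne_zero (hT s0 hs0).1 hη1, key s0 hs0 _ hη⟩, h3⟩
  exact_mod_cast h6

end B

end Pool.Agent.Lib.MP_5c318e_ag
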