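import Pool.Agent.Lib.MP_5c318e_ag.S.BAsm
import Pool.Agent.Lib.MP_5c318e_ag.S.AFrm
import Pool.Agent.Lib.MP_5c318e_ag.S.AFin

/-! The reduction of the inequality to the construction of sections. -/

set_option autoImplicit false
set_option linter.unusedSectionVars false

namespace Pool.Agent.Lib.MP_5c318e_ag

open Set

variable {δ ν κ δ' ν' κ' K M : Type} [Fintype δ] [DecidableEq δ] [Fintype ν] [DecidableEq ν]
  [Fintype κ] [DecidableEq κ] [Fintype δ'] [DecidableEq δ'] [Fintype ν'] [DecidableEq ν']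
  [Fintype κ'] [DecidableEq κ']
  [Field K] [Algebra ℂ K] [Field M] [Algebra ℂ M] [Algebra K M] [IsScalarTower ℂ K M]

/-- enough sections on the total space -/
def EndF (dK : δ → Derivation ℂ K K) (dx : ν → Derivation K M M) (dM : κ → Derivation ℂ M M)
    (m k : ℕ) : Prop :=
  ∃ q : ℕ, 0 < q ∧ ∃ T : Set M, T.Nonempty ∧
    (∀ s ∈ T, s ≠ 0 ∧ ∀ η, Plu dK k η → Plu dM q (s * algebraMap K M η)) ∧
    ∀ φ ψ, Plu dx m φ → Plu dx m ψ →
      IsAlgebraic (IntermediateField.adjoin K {g | ∃ s ∈ T, ∃ t ∈ T, g = s / t}) (φ / ψ)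

/-- the frames do not matter -/
theorem EndF.change {dK : δ → Derivation ℂ K K} {dx : ν → Derivation K M M}
    {dM : κ → Derivation ℂ M M} {eK : δ' → Derivation ℂ K K} {ex : ν' → Derivation K M M}
    {eM : κ' → Derivation ℂ M M} (h1 : IsFr dK) (h2 : IsFr dx) (h3 : IsFr dM) (g1 : IsFr eK)
    (g2 : IsFr ex) (g3 : IsFr eM) {m k : ℕ} (H : EndF eK ex eM m k) : EndF dK dx dM m k := by
  have : CharZero K := charZero_of_injective_algebraMap (algebraMap ℂ K).injective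
  obtain ⟨q, hq, T, hT, hs, ha⟩ := H
  obtain ⟨a, a0, ea⟩ := g1.change h1
  obtain ⟨b, b0, eb⟩ := g2.change h2
  obtain ⟨c, c0, ec⟩ := g3.change h3
  have u0 : algebraMap K M a ^ k / c ^ q ≠ 0 :=
    div_ne_zero (pow_ne_zero _ ((map_ne_zero _).2 a0)) (pow_ne_zero _ c0)
  refine ⟨q, hq, (· * (algebraMap K M a ^ k / c ^ q)) '' T, hT.image _, ?_, fun φ ψ hφ hψ => ?_⟩
  · rintro _ ⟨s, hsT, rfl⟩
    refine ⟨mul_ne_zero (hs s hsT).1 u0, fun η hη => ?_⟩
    have h := (hs s hsT).2 _ ((plu_iff g1).2 ((ea k η).1 ((plu_iff h1).1 hη)))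
    rw [plu_iff h3, ec, ← plu_iff g3]
    convert h using 1
    rw [map_mul, map_pow]
    field_simp
  · have h := ha _ _ ((plu_iff g2).2 ((eb m φ).1 ((plu_iff h2).1 hφ)))
      ((plu_iff g2).2 ((eb m ψ).1 ((plu_iff h2).1 hψ)))
    rw [mul_div_mul_right _ _ (pow_ne_zero _ b0)] at h
    have e : {g | ∃ s ∈ (· * (algebraMap K M a ^ k / c ^ q)) '' T,
        ∃ t ∈ (· * (algebraMap K M a ^ k / c ^ q)) '' T, g = s / t} =
        {g | ∃ s ∈ T, ∃ t ∈ T, g = s / t} := by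
      ext g
      constructor
      · rintro ⟨_, ⟨s, h1, rfl⟩, _, ⟨t, h2, rfl⟩, rfl⟩
        exact ⟨s, h1, t, h2, mul_div_mul_right _ _ u0⟩
      · rintro ⟨s, h1, t, h2, rfl⟩
        exact ⟨_, ⟨s, h1, rfl⟩, _, ⟨t, h2, rfl⟩, (mul_div_mul_right _ _ u0).symm⟩
    rwa [e]

theorem exists_basis_of_fg {k F : Type} [Field k] [Field F] [Algebra k F]
    (h : (⊤ : IntermediateField k F).FG) : ∃ (n : ℕ) (z : Fin n → F), IsTranscendenceBasis k z := by
  have : Algebra.EssFiniteType k F := IntermediateField.fg_top_iff.1 h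
  obtain ⟨n, hn⟩ := Cardinal.lt_aleph0.1 (trdeg_lt_aleph0 k F)
  obtain ⟨z, hz⟩ := exists_basis_of_trdeg (ι := Fin n) (k := k) (F := F) (by simpa using hn)
  exact ⟨n, z, hz⟩

/-- it is enough to construct the sections from a basis `t` of the forms on the fibre and one form
`η` on the base -/
theorem kod_of_endF (hY : SmoothModel ℂ K) (hF : SmoothModel K M)
    (H : ∀ (d n : ℕ) (y : Fin d → K) (dK : Fin d → Derivation ℂ K K) (x : Fin n → M)
      (dx : Fin n → Derivation K M M) (dM : Fin d ⊕ Fin n → Derivation ℂ M M), Dual ℂ y dK →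
      Dual K x dx → Dual ℂ (Sum.elim (fun i => algebraMap K M (y i)) x) dM →
      ∀ (m k r : ℕ) (t : Fin r → M) (η : K), 3 ≤ m → 0 < k → 0 < r →
        (∀ φ, Plu dx m φ ↔ φ ∈ Submodule.span K (range t)) → LinearIndependent K t → η ≠ 0 →
        Plu dK k η → EndF dK dx dM m k) :
    kod K M + kod ℂ K ≤ kod ℂ M := by
  have : CharZero K := charZero_of_injective_algebraMap (algebraMap ℂ K).injective
  obtain ⟨d, y, hy⟩ := exists_basis_of_fg hY.fg
  obtain ⟨n, x, hx⟩ := exists_basis_of_fg hF.fg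
  obtain ⟨dK, hK⟩ := Dual.exists hy
  obtain ⟨dx, hX⟩ := Dual.exists hx
  obtain ⟨dM, hM⟩ := Dual.exists (basis_sum hy hx)
  obtain ⟨FK⟩ := hY.frames hK
  obtain ⟨FM⟩ := hF.frames hX
  refine kod_add_le hK hX hM FK hY.fg FM hF.fg fun m k hm hk ⟨φ, φ0, hφ⟩ ⟨η, η0, hη⟩ => ?_
  obtain ⟨E, hE⟩ := Plu.zero_add_smul (d := dx) m (by omega)
  have := Frames.finite hX hF.fg FM m E fun φ => (hE φ).1
  have : Nontrivial E := ⟨⟨φ, (hE φ).2 hφ⟩, 0, fun e => φ0 (congrArg Subtype.val e)⟩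
  let b := Module.finBasis K E
  refine H d n y dK x dx dM hK hX hM m k _ (fun i => (b i : M)) η hm hk Module.finrank_pos
    (fun ψ => ?_) (b.linearIndependent.map' E.subtype E.ker_subtype) η0 hη
  rw [← hE, show (range fun i => (b i : M)) = E.subtype '' range b from range_comp _ _,
    ← Submodule.map_span, b.span_eq, Submodule.map_subtype_top]

end Pool.Agent.Lib.MP_5c318e_ag
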