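import Pool.Agent.Lib.MP_5c318e_ag.A.Split
import Pool.Agent.Lib.MP_5c318e_ag.Sym
import Pool.Agent.Lib.MP_5c318e_ag.S.Top

/-! The Kodaira dimension does not grow under an algebraic extension of the constants. -/

set_option autoImplicit false
set_option linter.unusedSectionVars false

namespace Pool.Agent.Lib.MP_5c318e_ag

open Set

variable {k F F' ι : Type} [Field k] [CharZero k] [Field F] [Field F'] [Algebra k F] [Algebra F F']
  [Algebra k F'] [IsScalarTower k F F'] [Fintype ι] [DecidableEq ι]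

/-- adapted coordinates pull back along an automorphism -/
theorem Adp.comap_equiv {O : ValuationSubring F} {c : ι → F} {i0 : ι} (h : Adp k O c i0)
    (s : F ≃ₐ[k] F) : Adp k (O.comap (s : F →+* F)) (fun i => s.symm (c i)) i0 ∧
      (O.comap (s : F →+* F)).valuation.IsEquiv (O.valuation.comap (s : F →+* F)) := by
  have e : (O.comap (s : F →+* F)).valuation.IsEquiv (O.valuation.comap (s : F →+* F)) := by
    rw [Valuation.isEquiv_iff_val_le_one]
    intro x
    rw [ValuationSubring.valuation_le_one_iff, Valuation.comap_apply,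
      ValuationSubring.valuation_le_one_iff]
    rfl
  refine ⟨⟨s.symm.isTranscendenceBasis h.basis, e.lt_one_iff_lt_one.2 (by simpa using h.lt),
    fun f hf => ?_, fun p hp => e.eq_one_iff_eq_one.2 ?_⟩, e⟩
  · obtain ⟨n, hn⟩ := h.grp (s f) ((map_ne_zero s).2 hf)
    refine ⟨n, ?_⟩
    rw [← map_zpow₀, e.eq_iff]
    simpa using hn
  · have := MvPolynomial.comp_aeval_apply (fun j : {j // j ≠ i0} => s.symm (c j)) (s : F →ₐ[k] F) p
    rw [Valuation.comap_apply]
    refine Eq.trans (congrArg O.valuation this) ?_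
    simpa using h.res p hp

/-- regular forms are stable under automorphisms that commute with the frame -/
theorem PluD.map_equiv {D : ι → Derivation k F F} {m : ℕ} {φ : F} (h : PluD D m φ)
    (s : F ≃ₐ[k] F) (hs : ∀ j a, D j (s a) = s (D j a)) : PluD D m (s φ) := fun O c i0 hc => by
  obtain ⟨h1, e⟩ := hc.comap_equiv s
  have h2 := h _ _ _ h1
  have h3 := jac_map D (s : F ≃+* F) (fun i => s.symm (c i)) fun j a => hs j _
  rw [← map_pow, e.le_iff_le, Valuation.comap_apply, Valuation.comap_apply, map_pow, map_pow] at h2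
  simp only [AlgEquiv.coe_ringEquiv, AlgEquiv.apply_symm_apply] at h3
  rw [show c = fun a => c a from rfl, h3]
  exact h2

theorem alg_range [Algebra.IsAlgebraic F F'] (y : F') :
    IsAlgebraic (algebraMap F F').fieldRange y :=
  (Algebra.IsAlgebraic.isAlgebraic (R := F) y).ringHom_of_comp_eq
    (algebraMap F F').rangeRestrictField (RingHom.id F')
    (algebraMap F F').rangeRestrictField.injective (RingHom.ext fun _ => rfl)

/-- adapted coordinates stay adapted after an extension of the constants -/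
theorem Adp.exists_ext [Algebra.IsAlgebraic F F'] {S : Set F'} (hS : ∀ a ∈ S, IsAlgebraic k a)
    (hgen : IntermediateField.adjoin F S = ⊤) {O : ValuationSubring F} {c : ι → F} {i0 : ι}
    (h : Adp k O c i0) : ∃ O' : ValuationSubring F', Adp k O' (algebraMap F F' ∘ c) i0 ∧
      O.valuation.IsEquiv (O'.valuation.comap (algebraMap F F')) := by
  have : CharZero F' := charZero_of_injective_algebraMap (algebraMap k F').injective
  have := h.dvr
  obtain ⟨v, -, -, -, -, hle, -⟩ := ext_dvr (algebraMap F F') O alg_range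
  have e1 : v.valuationSubring.valuation.IsEquiv v := v.isEquiv_valuation_valuationSubring.symm
  have e : O.valuation.IsEquiv (v.valuationSubring.valuation.comap (algebraMap F F')) := by
    rw [Valuation.isEquiv_iff_val_le_one]
    intro x
    rw [O.valuation_le_one_iff, Valuation.comap_apply, ValuationSubring.valuation_le_one_iff]
    exact (hle x).symm
  refine ⟨v.valuationSubring, ⟨h.basis.algebraMap_comp, e.lt_one_iff_lt_one.1 h.lt,
    fun f hf => ?_, fun p hp => ?_⟩, e⟩
  · obtain ⟨_, ⟨g, rfl⟩, hg⟩ := unrp v (fun c y hc hy => by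
      obtain ⟨n, hn⟩ := exists_pow_lt_of_lt_one (v.pos_iff.2 hy) hc
      exact ⟨n, hn⟩) (F0 := kR k F') (F := (algebraMap F F').fieldRange)
      (by rintro _ ⟨a, rfl⟩; exact ⟨_, (IsScalarTower.algebraMap_apply k F F' a).symm⟩)
      (by
        rintro _ ⟨a, rfl⟩
        rw [IsScalarTower.algebraMap_apply k F F']
        exact (hle _).2 (h.const a)) (S := S)
      (fun a ha => (hS a ha).ringHom_of_comp_eq (algebraMap k F').rangeRestrictField (RingHom.id F')
        (algebraMap k F').rangeRestrictField.injective (RingHom.ext fun _ => rfl))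
      (y := f) (show f ∈ IntermediateField.adjoin F S from hgen ▸ trivial)
    have g0 : g ≠ 0 := by
      rintro rfl
      exact hf (by simpa using hg)
    obtain ⟨n, hn⟩ := h.grp g g0
    refine ⟨n, (e1.eq_iff.2 hg).trans ?_⟩
    rw [← map_zpow₀, e.eq_iff] at hn
    simpa using hn
  · have := e.eq_one_iff_eq_one.1 (h.res p hp)
    rwa [Valuation.comap_apply, ← MvPolynomial.aeval_algebraMap_apply] at this

theorem PluD.descend [Algebra.IsAlgebraic F F'] {S : Set F'} (hS : ∀ a ∈ S, IsAlgebraic k a)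
    (hgen : IntermediateField.adjoin F S = ⊤) {D : ι → Derivation k F F}
    {D' : ι → Derivation k F' F'} (hl : Lifts D D') {m : ℕ} {φ : F}
    (h : PluD D' m (algebraMap F F' φ)) : PluD D m φ := fun O c i0 hc => by
  obtain ⟨O', h1, e⟩ := hc.exists_ext hS hgen
  have h2 := h _ _ _ h1
  rwa [hl.jac, ← map_pow, ← map_pow, ← Valuation.comap_apply, ← Valuation.comap_apply,
    ← e.le_iff_le, map_pow] at h2

theorem kod_le_of_normal [Normal F F'] {S : Set F'} (hS : ∀ a ∈ S, IsAlgebraic k a)
    (hgen : IntermediateField.adjoin F S = ⊤) {x : ι → F} (hx : IsTranscendenceBasis k x) :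
    kod k F' ≤ kod k F := by
  obtain ⟨D, hD⟩ := der_dual_exists hx.1
  have hF := isFr_dual hx hD
  obtain ⟨D', hl⟩ := exists_lifts (F := F') D
  have hx' : IsTranscendenceBasis k (algebraMap F F' ∘ x) := hx.algebraMap_comp
  have hF' : IsFr D' := ⟨_, hx', by rw [hl.jac, jac_self hD, map_one]; exact one_ne_zero⟩
  have hs : ∀ (s : F' ≃ₐ[F] F') j a, D' j (s a) = s (D' j a) := fun s j a => by
    let d : Derivation k F' F' := Derivation.mk'
      ((s.symm.toLinearMap.restrictScalars k) ∘ₗ (D' j : F' →ₗ[k] F') ∘ₗ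
        (s.toLinearMap.restrictScalars k)) fun a b => by simp
    have := der_ext_basis hx' d (D' j) fun i => by
      change s.symm (D' j (s (algebraMap F F' (x i)))) = D' j (algebraMap F F' (x i))
      rw [s.commutes, hl, s.symm.commutes]
    exact (s.apply_symm_apply _).symm.trans (congrArg s (DFunLike.congr_fun this a))
  let Om := AlgebraicClosure F'
  let ψ : F' →+* Om := algebraMap F' Om
  have : CharZero Om := charZero_of_injective_algebraMap (algebraMap k Om).injective
  have : Algebra.IsAlgebraic F Om := .trans F F' Om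
  let F0 := (algebraMap F Om).fieldRange
  have halg : Algebra.IsAlgebraic F0 Om := ⟨alg_range⟩
  let R : ℕ → AddSubgroup Om := fun m =>
    { carrier := ψ '' {φ | PluD D' m φ}
      add_mem' := by
        rintro _ _ ⟨a, ha, rfl⟩ ⟨b, hb, rfl⟩
        exact ⟨a + b, ha.add hb, map_add _ _ _⟩
      zero_mem' := ⟨0, PluD.zero, map_zero _⟩
      neg_mem' := by
        rintro _ ⟨a, ha, rfl⟩
        exact ⟨-a, ha.neg, map_neg _ _⟩ }
  have h1 : (1 : Om) ∈ R 0 := ⟨1, PluD.one, map_one _⟩
  have hmul : ∀ a b x y, x ∈ R a → y ∈ R b → x * y ∈ R (a + b) := by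
    rintro a b _ _ ⟨x, hx, rfl⟩ ⟨y, hy, rfl⟩
    exact ⟨x * y, hx.mul hy, map_mul _ _ _⟩
  have hσ : ∀ m φ, PluD D' m φ → ∀ σ : Om ≃ₐ[F0] Om, σ (ψ φ) ∈ R m := fun m φ hφ σ => by
    let σ' : Om ≃ₐ[F] Om := AlgEquiv.ofRingEquiv (f := σ.toRingEquiv) fun a => σ.commutes ⟨_, a, rfl⟩
    exact ⟨_, hφ.map_equiv ((σ'.restrictNormal F').restrictScalars k) (hs _),
      σ'.restrictNormal_commutes F' φ⟩
  have hd : ∀ m p, p ∈ F0 → p ∈ R m → ∃ a, algebraMap F Om a = p ∧ PluD D m a := by
    rintro m _ ⟨a, rfl⟩ ⟨b, hb, e⟩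
    obtain rfl : b = algebraMap F F' a :=
      ψ.injective (e.trans (IsScalarTower.algebraMap_apply F F' Om a))
    exact ⟨a, rfl, PluD.descend hS hgen hl hb⟩
  by_cases hne : kod k F' = ⊥
  · simp [hne]
  obtain ⟨n, hn, -, -⟩ := kod_eq_nat hF' hne
  obtain ⟨m, hm, η, η0, hη, h, hi, hh⟩ := (le_kod_iff hF').1 hn.ge
  obtain ⟨d, p0, p1, p3, p2, -⟩ := desc_denom F0 halg R h1 hmul m (ψ η) ((map_ne_zero ψ).2 η0)
    (hσ m η hη)
  obtain ⟨a0, rfl, ha0⟩ := hd _ p0 p1 p2
  have a00 : a0 ≠ 0 := (map_ne_zero _).1 p3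
  rw [hn, le_kod_iff_trk hF]
  refine ⟨(kod_ne_bot_iff hF).2 ⟨_, by omega, a0, a00, ha0⟩, ?_⟩
  have hk : ∀ y, y ∈ kR k Om ↔ ∃ a, algebraMap F Om (algebraMap k F a) = y := fun y =>
    exists_congr fun a => by rw [← IsScalarTower.algebraMap_apply]
  have hk' : ∀ y, y ∈ kR k Om ↔ ∃ a, ψ (algebraMap k F' a) = y := fun y =>
    exists_congr fun a => by rw [← IsScalarTower.algebraMap_apply]
  rw [trk_kR, ← trk_eq_trdeg_adjoin (algebraMap F Om) hk]
  refine (le_trk_iff.2 ⟨ψ ∘ h, fun i => mem_range_self i, (Trd_map_iff ψ hk').2 hi⟩).trans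
    (trk_le_of_alg ?_)
  rintro _ ⟨i, rfl⟩
  have := desc F0 halg R h1 hmul
    (Subfield.closure ((kR k Om : Set Om) ∪ algebraMap F Om '' ratios k F)) m
    (fun j p q p1 q1 p2 q2 q0 => ?_) (ψ (h i * η)) (ψ η) (hσ m _ (hh i)) (hσ m η hη)
  · rwa [map_mul, mul_div_cancel_right₀ _ ((map_ne_zero ψ).2 η0)] at this
  obtain ⟨a, rfl, ha⟩ := hd _ p p1 p2
  obtain ⟨b, rfl, hb⟩ := hd _ q q1 q2
  refine isAlgebraic_algebraMap (⟨_, Subfield.subset_closure (Or.inr ⟨a / b,
    (mem_ratios_iff hF).2 ⟨_, by omega, _, _, ha.mul ha0, hb.mul ha0,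
      mul_ne_zero ((map_ne_zero _).1 q0) a00, (mul_div_mul_right _ _ a00).symm⟩,
    map_div₀ _ _ _⟩)⟩ : Subfield.closure ((kR k Om : Set Om) ∪ algebraMap F Om '' ratios k F))

/-- passing to an algebraic extension of the ground field inside the same field -/
theorem kod_le_of_alg {k' : Type} [Field k'] [Algebra k k'] [Algebra k' F] [IsScalarTower k k' F]
    [Algebra.IsAlgebraic k k'] {x : ι → F} (hx : IsTranscendenceBasis k' x) :
    kod k' F ≤ kod k F := by
  have : CharZero k' := charZero_of_injective_algebraMap (algebraMap k k').injective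
  obtain ⟨E, hE⟩ := der_dual_exists hx.1
  have h1 := isFr_dual hx hE
  let G0 : Empty → Derivation k k' k' := Empty.elim
  let G : Empty → Derivation k F F := Empty.elim
  have h0 : IsFr G0 := exists_basis_of_trdeg (ι := Empty) (by simp [trdeg_eq_zero]) |>.imp
    fun b hb => ⟨hb, by simp [Jac]⟩
  have hl : Lifts G0 G := fun j => j.elim
  have h2 : ∀ m φ, PluD E m φ → PluD (splitD G E) m φ := fun m φ h =>
    (pluD_split_iff h0 hl h1).2 ⟨h, fun _ _ s0 => s0.elim⟩
  by_cases hne : kod k' F = ⊥
  · simp [hne]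
  obtain ⟨n, hn, -, -⟩ := kod_eq_nat h1 hne
  obtain ⟨m, hm, η, η0, hη, h, hi, hh⟩ := (le_kod_iff h1).1 hn.ge
  rw [hn, le_kod_iff (h0.split hl h1)]
  exact ⟨m, hm, η, η0, h2 _ _ hη, h, hi.restrictScalars (algebraMap k k').injective,
    fun a => h2 _ _ (hh a)⟩

/-- extension of the constants -/
theorem kod_const_le {k' : Type} [Field k'] [Algebra k k'] [Algebra k' F'] [IsScalarTower k k' F']
    [Normal k k'] (hgen : IntermediateField.adjoin F (range (algebraMap k' F')) = ⊤) {x : ι → F}
    (hx : IsTranscendenceBasis k x) : kod k' F' ≤ kod k F := by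
  have hS : ∀ a ∈ range (algebraMap k' F'), IsAlgebraic k a := by
    rintro _ ⟨a, rfl⟩
    exact (Algebra.IsAlgebraic.isAlgebraic a).algebraMap
  have hn : Normal F F' := by
    refine normal_iff.2 fun y => ?_
    have hy : y ∈ IntermediateField.adjoin F (range (algebraMap k' F')) := hgen ▸ trivial
    have hs : ∀ a ∈ range (algebraMap k' F'), IsIntegral F a ∧
        ((minpoly F a).map (algebraMap F F')).Splits := by
      rintro _ ⟨a, rfl⟩
      have hi : IsIntegral k a := (Algebra.IsAlgebraic.isAlgebraic a).isIntegral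
      refine ⟨(hi.algebraMap (B := F')).tower_top, ?_⟩
      have h1 := (Normal.splits ‹Normal k k'› a).map (algebraMap k' F')
      rw [Polynomial.map_map, ← IsScalarTower.algebraMap_eq, ← minpoly.algebraMap_eq
        (algebraMap k' F').injective] at h1
      exact IsIntegral.minpoly_splits_tower_top' (hi.algebraMap)
        (by rwa [← IsScalarTower.algebraMap_eq])
    exact ⟨IntermediateField.isIntegral_iff.1 (((IntermediateField.isAlgebraic_adjoin
      fun a ha => (hs a ha).1).isAlgebraic ⟨y, hy⟩).isIntegral),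
      IntermediateField.splits_of_mem_adjoin F F' hs hy⟩
  have hx' : IsTranscendenceBasis k (algebraMap F F' ∘ x) := hx.algebraMap_comp
  exact (kod_le_of_alg ((Algebra.IsAlgebraic.isTranscendenceBasis_iff k k').1 hx')).trans (kod_le_of_normal hS hgen hx)

section geo

open IntermediateField

variable {Om : Type} [Field Om] [Algebra ℂ Om] [IsAlgClosed Om] {K M : IntermediateField ℂ Om}

/-- the geometric generic fibre -/
theorem kod_geo_le (hKM : K ≤ M) (hfg : (⊤ : IntermediateField K (extendScalars hKM)).FG) :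
    kod (aclC K) (adjoin (aclC K) (M : Set Om)) ≤ kod K (extendScalars hKM) := by
  have : CharZero K := charZero_of_injective_algebraMap (algebraMap ℂ K).injective
  obtain ⟨n, x, hx⟩ := exists_basis_of_fg hfg
  let _ : Algebra K (aclC K) := (algebraicClosure K Om).algebra
  have : IsScalarTower K (aclC K) Om := .of_algebraMap_eq fun _ => rfl
  have : Normal K (aclC K) := inferInstanceAs (Normal K (algebraicClosure K Om))
  let N := adjoin (aclC K) (M : Set Om)
  let _ : Algebra (extendScalars hKM) N := ((extendScalars hKM).val.toRingHom.codRestrict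
    N.toSubfield fun a => subset_adjoin _ _ a.2).toAlgebra
  have : IsScalarTower K (extendScalars hKM) N := .of_algebraMap_eq fun _ => rfl
  refine kod_const_le (eq_top_iff.2 ?_) hx
  rintro ⟨y, hy⟩ -
  induction hy using adjoin_induction with
  | mem y hy => exact IntermediateField.algebraMap_mem _ (⟨y, hy⟩ : extendScalars hKM)
  | algebraMap y => exact subset_adjoin _ _ ⟨y, rfl⟩
  | add y z _ _ h1 h2 => exact add_mem h1 h2
  | inv y _ h => exact inv_mem h
  | mul y z _ _ h1 h2 => exact mul_mem h1 h2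

/-- from the abstract form to subfields of an algebraically closed field -/
theorem geo_of_abs
    (H : ∀ (K M : Type) [Field K] [Algebra ℂ K] [Field M] [Algebra ℂ M] [Algebra K M]
      [IsScalarTower ℂ K M], SmoothModel ℂ K → SmoothModel ℂ M → SmoothModel K M →
      (∀ x : M, IsAlgebraic K x → x ∈ range (algebraMap K M)) → kod K M + kod ℂ K ≤ kod ℂ M)
    (hKM : K ≤ M) (hY : SmoothModel ℂ K) (hX : SmoothModel ℂ M)
    (hF : SmoothModel K (extendScalars hKM)) (hc : M ⊓ aclC K ≤ K) :
    kod (aclC K) (adjoin (aclC K) (M : Set Om)) + kod ℂ K ≤ kod ℂ M := by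
  have : CharZero K := charZero_of_injective_algebraMap (algebraMap ℂ K).injective
  refine (add_le_add_left (kod_geo_le hKM hF.fg) _).trans
    (H K (extendScalars hKM) hY hX hF fun x hx => ⟨⟨x, hc ⟨x.2, ?_⟩⟩, rfl⟩)
  exact mem_algebraicClosure_iff.2 (IntermediateField.isAlgebraic_iff.1 hx)

end geo

end Pool.Agent.Lib.MP_5c318e_ag
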