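import Pool.Agent.Lib.MP_5c318e_ag.S.OAt
import Pool.Agent.Lib.MP_5c318e_ag.S.CVA

/-! Coordinates in which `z ^ μ · unit` is a `μ`-th power. -/

set_option autoImplicit false

namespace Pool.Agent.Lib.MP_5c318e_ag

open Set Filter Topology Metric
open Pool.Agent.Lib.MP_9ff3e7_ag

/-- a local root of a unit -/
theorem exists_root_germ {E : Type} [NormedAddCommGroup E] [NormedSpace ℂ E] {q0 : E} {υ : E → ℂ}
    (hυ : AnalyticAt ℂ υ q0) (hne : υ q0 ≠ 0) {μ : ℕ} (hμ : 0 < μ) :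
    ∃ κ : E → ℂ, AnalyticAt ℂ κ q0 ∧ ∀ᶠ q in 𝓝 q0, κ q ^ μ = υ q := by
  obtain ⟨c, hc⟩ := IsAlgClosed.exists_pow_nat_eq (υ q0) hμ
  have h1 : AnalyticAt ℂ (fun q => υ q / υ q0) q0 := hυ.div_const
  have h2 : AnalyticAt ℂ (fun q => Complex.log (υ q / υ q0)) q0 :=
    h1.clog (by rw [div_self hne]; exact Complex.one_mem_slitPlane)
  refine ⟨fun q => c * Complex.exp (Complex.log (υ q / υ q0) / μ),
    analyticAt_const.mul h2.div_const.cexp', ?_⟩
  filter_upwards [hυ.continuousAt.eventually_ne hne] with q hq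
  have hm : (μ : ℂ) ≠ 0 := by exact_mod_cast hμ.ne'
  rw [mul_pow, hc, ← Complex.exp_nat_mul, mul_div_cancel₀ _ hm, Complex.exp_log (div_ne_zero hq hne),
    mul_div_cancel₀ _ hne]

theorem root_coord {E : Type} [NormedAddCommGroup E] [NormedSpace ℂ E] [CompleteSpace E]
    (l : E →L[ℂ] ℂ) {v q0 : E} (hv : l v = 1) (h0 : l q0 = 0) {κ : E → ℂ}
    (hκ : AnalyticAt ℂ κ q0) (hne : κ q0 ≠ 0) :
    ∃ Λ : E → E, AnalyticAt ℂ Λ q0 ∧ Λ q0 = q0 ∧
      ∀ᶠ q in 𝓝 q0, l (Λ q) * κ (Λ q) = l q ∧ ∃ t : ℂ, Λ q = q + t • v := by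
  let Φ : E → E := fun q => q + (l q * (κ q - 1)) • v
  have hΦ : Φ q0 = q0 := by simp [Φ, h0]
  have ha : AnalyticAt ℂ Φ q0 :=
    analyticAt_id.add (((l.analyticAt q0).mul (hκ.sub analyticAt_const)).smul analyticAt_const)
  let f : ℂ → E →L[ℂ] E := fun c => ContinuousLinearMap.id ℂ E + ((c - 1) • l).smulRight v
  have hf : ∀ c c' : ℂ, c * c' = 1 → Function.LeftInverse (f c) (f c') := fun c c' h x => by
    have e : ∀ c x, f c x = x + ((c - 1) * l x) • v := fun _ _ => rfl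
    have : (c' - 1) * l x + (c - 1) * (l x + (c' - 1) * l x) = 0 := by
      linear_combination (l x) * h
    rw [e, e, map_add, map_smul, hv, smul_eq_mul, mul_one, add_assoc, ← add_smul, this, zero_smul,
      add_zero]
  let L : E ≃L[ℂ] E := ContinuousLinearEquiv.equivOfInverse (f (κ q0)) (f (κ q0)⁻¹)
    (hf _ _ (inv_mul_cancel₀ hne)) (hf _ _ (mul_inv_cancel₀ hne))
  have hd : HasFDerivAt Φ (L : E →L[ℂ] E) q0 := by
    have h1 := (l.hasFDerivAt (x := q0)).mul (hκ.differentiableAt.hasFDerivAt.sub_const 1)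
    rw [h0, zero_smul ℂ (fderiv ℂ κ q0), zero_add] at h1
    exact (hasFDerivAt_id q0).add (h1.smul_const v)
  have hc : ContDiffAt ℂ ⊤ Φ q0 := ha.contDiffAt
  have h1 := (hc.to_localInverse hd (by simp)).analyticAt
  have h2 := hc.localInverse_apply_image hd (by simp)
  have h3 : ∀ᶠ q in 𝓝 (Φ q0), Φ (hc.localInverse hd (by simp) q) = q :=
    (hc.hasStrictFDerivAt' hd (by simp)).eventually_right_inverse
  rw [hΦ] at h1 h2 h3
  refine ⟨_, h1, h2, h3.mono fun q hq => ⟨?_, ?_⟩⟩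
  · have := congrArg l hq
    simp only [Φ, map_add, map_smul, hv, smul_eq_mul, mul_one] at this
    linear_combination this
  · exact ⟨_, by rw [neg_smul]; exact eq_add_neg_of_add_eq hq⟩

variable {κ M : Type} [Fintype κ] [DecidableEq κ] [Field M] [Algebra ℂ M]

theorem Cht.ana_sec (X : Cht κ M) (p0 : Pt X.O) (a : X.O) :
    AnalyticOnNhd ℂ (fun z => X.D.sec p0 z a) (X.D.ch p0).target :=
  F.osgood (X.D.ch p0).open_target fun _ hz => ((X.hol a).at hz).differentiableWithinAt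

/-- a parametrisation of a chart in which `z j0 ^ μ * υ` is the `μ`-th power of a coordinate -/
theorem Cht.exists_par (X : Cht κ M) (j0 : κ) (p0 : Pt X.O) (h0 : p0 (X.z j0) = 0) {υ : X.O}
    (hυ : IsUnit υ) {μ : ℕ} (hμ : 0 < μ) :
    ∃ (P : (κ → ℂ) → Pt X.O) (ρ : (κ → ℂ) → ℂ), P (X.D.π p0) = p0 ∧ ∀ᶠ z in 𝓝 (X.D.π p0),
      AnalyticAt ℂ ρ z ∧ (∀ a : X.O, AnalyticAt ℂ (fun z => P z a) z) ∧ ρ z ≠ 0 ∧
      ρ z ^ μ = P z υ ∧ P z (X.z j0) * ρ z = z j0 ∧ ∀ k ≠ j0, P z (X.z k) = z k := by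
  have hu : ∀ p : Pt X.O, p υ ≠ 0 := fun p => (hυ.map p).ne_zero
  obtain ⟨k, k1, k2⟩ := exists_root_germ (X.ana_sec p0 υ _ (X.D.mem_tgt p0)) (hu _) hμ
  have k3 : k (X.D.π p0) ≠ 0 := fun h => hu _ (by rw [← k2.self_of_nhds, h, zero_pow hμ.ne'])
  obtain ⟨Λ, l1, l2, l3⟩ := root_coord (ContinuousLinearMap.proj j0) (v := Pi.single j0 1)
    (q0 := X.D.π p0) (by simp) ((X.π_eq p0 j0).trans h0) k1 k3
  have ht : Tendsto Λ (𝓝 (X.D.π p0)) (𝓝 (X.D.π p0)) := by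
    have := l1.continuousAt
    rwa [ContinuousAt, l2] at this
  refine ⟨fun z => X.D.sec p0 (Λ z), fun z => k (Λ z), by simp only [l2, X.D.sec_self], ?_⟩
  filter_upwards [l1.eventually_analyticAt, ht.eventually k1.eventually_analyticAt, ht.eventually k2,
    l3, ht.eventually (RD.tgt_nhds (X.D.mem_tgt p0))] with z h1 h2 h3 ⟨h4, t, h5⟩ h6
  have hz : ∀ i, X.D.sec p0 (Λ z) (X.z i) = Λ z i := fun i => by rw [← X.π_eq, RD.π_sec h6]
  refine ⟨h2.comp h1, fun a => (X.ana_sec p0 a _ h6).comp h1,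
    fun h => hu _ (by rw [← h3, h, zero_pow hμ.ne']), h3, by rw [hz]; exact h4, fun i hi => ?_⟩
  rw [hz, h5]
  simp [hi]

/-- a polynomial is not zero on a ball -/
theorem exists_eval_ne_ball {σ : Type} {g : MvPolynomial σ ℂ} (hg : g ≠ 0) (x0 : σ → ℂ) {r : ℝ}
    (hr : 0 < r) : ∃ x : σ → ℂ, (∀ i, dist (x i) (x0 i) < r) ∧ MvPolynomial.eval x g ≠ 0 := by
  by_contra hn
  refine hg (MvPolynomial.funext_set (fun i => ball (x0 i) r)
    (fun i => infinite_of_mem_nhds _ (ball_mem_nhds _ hr)) fun x hx => ?_)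
  rw [map_zero]
  by_contra h
  exact hn ⟨x, fun i => hx i trivial, h⟩

end Pool.Agent.Lib.MP_5c318e_ag
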