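import Pool.Agent.Lib.MP_5c318e_ag.Defs

/-!
Function fields of smooth complete varieties.
-/

namespace Pool.Agent.Lib.MP_5c318e_ag

/-- `F / k` is the function field of a smooth complete variety: there are finitely many smooth
(in particular finitely generated) `k`-subalgebras with fraction field `F`, the affine charts,
and every valuation ring of `F / k` contains one of them. -/
def SmoothModel (k F : Type) [Field k] [Field F] [Algebra k F] : Prop :=
  ∃ (N : ℕ) (A : Fin N → Subalgebra k F),
    (∀ i, Algebra.Smooth k (A i) ∧ IsFractionRing (A i) F) ∧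
    ∀ O : ValuationSubring F, (∀ c : k, algebraMap k F c ∈ O) → ∃ i, ∀ a ∈ A i, a ∈ O

end Pool.Agent.Lib.MP_5c318e_ag
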