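import Pool.Agent.Lib.MP_5c318e_ag.W.FibRed
import Pool.Agent.Lib.MP_5c318e_ag.S.BVal

/-! Square integrable functions have no pole along a coordinate hyperplane of a fibre; finitely
many prime divisors test regularity on a finite dimensional space. -/

set_option autoImplicit false
set_option linter.unusedSectionVars false

namespace Pool.Agent.Lib.MP_5c318e_ag

open MeasureTheory Set Filter Topology

namespace Sat

section ni

variable {ι : Type} [Fintype ι] [DecidableEq ι] {S : Type}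
  [TopologicalSpace S] [MeasurableSpace S] [BorelSpace S] [T2Space S] [SigmaCompactSpace S]

/-- `1 / |z i0|²` is not integrable near a point of `z i0 = 0` -/
theorem ni (D : RD ι S) {p0 : S} {i0 : ι} (h0 : D.π p0 i0 = 0) {H : S → ENNReal}
    (hH : ∫⁻ p, H p ∂D.μ < ⊤) {c : ℝ} (hc : 0 < c) {U : Set S} (hU : U ∈ 𝓝 p0)
    (h : ∀ᵐ p ∂D.μ, p ∈ U → ENNReal.ofReal (c / ‖D.π p i0‖ ^ 2) ≤ H p) : False := by
  obtain ⟨r, hr, hb⟩ := Metric.mem_nhds_iff.1
    (inter_mem (RD.tgt_nhds (D.mem_tgt p0)) (D.tendsto_sec p0 hU))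
  let V : ENNReal := (NNReal.pi : ENNReal) *
    ∏ _i ∈ Finset.univ.erase i0, (ENNReal.ofReal r ^ 2 * (NNReal.pi : ENNReal))
  have hpi : (NNReal.pi : ENNReal) ≠ 0 := by simpa using NNReal.pi_ne_zero
  have V0 : V ≠ 0 := mul_ne_zero hpi (Finset.prod_ne_zero_iff.2 fun _ _ =>
    mul_ne_zero (pow_ne_zero _ (by simpa using hr)) hpi)
  have Vt : V ≠ ⊤ := ENNReal.mul_ne_top ENNReal.coe_ne_top (ENNReal.prod_ne_top fun _ _ =>
    ENNReal.mul_ne_top (ENNReal.pow_ne_top ENNReal.ofReal_ne_top) ENNReal.coe_ne_top)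
  obtain ⟨δ, hδ, hs⟩ := exists_pos_setLIntegral_lt_of_measure_lt hH.ne
    (ε := ENNReal.ofReal c * V) (mul_ne_zero (by simpa using hc) V0)
  have ht : Tendsto (fun ρ : ℝ => ENNReal.ofReal ρ ^ 2 * V) (𝓝[>] 0) (𝓝 0) := by
    have h1 : Tendsto (fun ρ : ℝ => ENNReal.ofReal ρ ^ 2) (𝓝 0) (𝓝 (ENNReal.ofReal 0 ^ 2)) :=
      ((ENNReal.continuous_pow 2).comp ENNReal.continuous_ofReal).tendsto 0
    simpa using (ENNReal.Tendsto.mul_const h1 (Or.inr Vt)).mono_left nhdsWithin_le_nhds
  obtain ⟨ρ, hρ, hρ0, hρr⟩ := ((ht.eventually (gt_mem_nhds hδ)).and (Ioo_mem_nhdsGT hr)).exists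
  let Bx : Set (ι → ℂ) :=
    Set.pi univ fun i => Metric.ball (D.π p0 i) (Function.update (fun _ => r) i0 ρ i)
  have hB : Bx ⊆ Metric.ball (D.π p0) r := by
    rw [ball_pi _ hr]
    refine pi_mono fun i _ => Metric.ball_subset_ball ?_
    rcases eq_or_ne i i0 with rfl | hi
    · simpa using hρr.le
    · simp [hi]
  have hBo : IsOpen Bx := isOpen_set_pi finite_univ fun _ _ => Metric.isOpen_ball
  have hv : volume Bx = ENNReal.ofReal ρ ^ 2 * V := by
    rw [volume_pi_pi, ← Finset.mul_prod_erase _ _ (Finset.mem_univ i0), Function.update_self,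
      Complex.volume_ball, mul_assoc]
    congr 2
    exact Finset.prod_congr rfl fun i hi => by
      rw [Function.update_of_ne (Finset.ne_of_mem_erase hi), Complex.volume_ball]
  let A : Set S := (D.ch p0).source ∩ D.π ⁻¹' Bx
  have hA : MeasurableSet A := ((D.ch p0).open_source.inter (hBo.preimage D.cont_π)).measurableSet
  have hμ : D.μ A = ENNReal.ofReal ρ ^ 2 * V := by
    rw [D.vol A hA ((D.injOn_src p0).mono inter_subset_left), ← hv]
    congr 1
    refine Subset.antisymm (by rintro _ ⟨p, hp, rfl⟩; exact hp.2) fun z hz => ?_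
    have hz' := (hb (hB hz)).1
    exact ⟨D.sec p0 z, ⟨RD.sec_mem hz', by rwa [mem_preimage, RD.π_sec hz']⟩, RD.π_sec hz'⟩
  refine (hs A (hμ ▸ hρ)).not_ge ?_
  have e : ENNReal.ofReal c * V = ∫⁻ _ in A, ENNReal.ofReal (c / ρ ^ 2) ∂D.μ := by
    rw [setLIntegral_const, hμ, ← mul_assoc (ENNReal.ofReal (c / ρ ^ 2)), ← ENNReal.ofReal_pow hρ0.le,
      ← ENNReal.ofReal_mul (by positivity), div_mul_cancel₀ _ (by positivity)]
  rw [e]
  refine lintegral_mono_ae ((ae_restrict_iff' hA).2 ?_)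
  filter_upwards [h, D.null_poly (MvPolynomial.X_ne_zero i0)] with p hp hz hpA
  rw [MvPolynomial.eval_X] at hz
  have hU' : p ∈ U := by
    have := (hb (hB hpA.2)).2
    rwa [mem_preimage, RD.sec_π hpA.1] at this
  refine le_trans (ENNReal.ofReal_le_ofReal ?_) (hp hU')
  have h1 : ‖D.π p i0‖ < ρ := by simpa [h0] using hpA.2 i0 (mem_univ _)
  have h2 := norm_pos_iff.2 hz
  gcongr

end ni

/-- the lower bound of the weight -/
theorem wt {m : ℕ} (hm : 0 < m) {x j : ℝ} (hx : 0 ≤ x) (hj : 0 < j) :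
    ENNReal.ofReal (j ^ (m - 1) / (1 + x)) ≤
      ENNReal.ofReal (x / j ^ m) ^ (-((m - 1) / m) : ℝ) := by
  have m1 : (1 : ℝ) ≤ m := by exact_mod_cast hm
  have c0 : (0 : ℝ) ≤ (m - 1) / m := div_nonneg (by linarith) (by linarith)
  have c1 : ((m : ℝ) - 1) / m ≤ 1 := (div_le_one (by linarith)).2 (by linarith)
  have h1 : ENNReal.ofReal ((1 + x) / j ^ m) ^ (-((m - 1) / m) : ℝ) ≤
      ENNReal.ofReal (x / j ^ m) ^ (-((m - 1) / m) : ℝ) := by
    rw [ENNReal.rpow_neg, ENNReal.rpow_neg]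
    exact ENNReal.inv_le_inv.2 (ENNReal.rpow_le_rpow
      (ENNReal.ofReal_le_ofReal (by gcongr; linarith)) c0)
  refine le_trans ?_ h1
  rw [ENNReal.ofReal_rpow_of_pos (by positivity)]
  refine ENNReal.ofReal_le_ofReal ?_
  rw [Real.rpow_neg (by positivity), Real.div_rpow (by positivity) (by positivity), inv_div,
    ← Real.rpow_natCast j m, ← Real.rpow_mul hj.le, mul_div_cancel₀ _ (by positivity),
    ← Real.rpow_natCast, Nat.cast_sub hm, Nat.cast_one]
  refine div_le_div_of_nonneg_left (by positivity) (by positivity) ?_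
  simpa using Real.rpow_le_rpow_of_exponent_le (x := 1 + x) (by linarith) c1

/-- finitely many prime divisors suffice on a finite dimensional space -/
theorem fin_val {k F ι n : Type} [Field k] [CharZero k] [Field F] [Algebra k F] [Fintype ι]
    [DecidableEq ι] [Fintype n] (d : ι → Derivation k F F) (m : ℕ) (φ : n → F) :
    ∃ J : Finset (ValuationSubring F), (∀ O ∈ J, IsDivisorial k F O) ∧ ∀ a : n → k,
      (∀ O ∈ J, RegI d m (∑ i, algebraMap k F (a i) * φ i) O) →
        Plu d m (∑ i, algebraMap k F (a i) * φ i) := by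
  classical
  let W : ∀ J : Finset (ValuationSubring F), (∀ O ∈ J, IsDivisorial k F O) → Submodule k (n → k) :=
    fun J hJ =>
    { carrier := {a | ∀ O ∈ J, RegI d m (∑ i, algebraMap k F (a i) * φ i) O}
      add_mem' := fun ha hb O hO => by
        simpa only [Pi.add_apply, map_add, add_mul, Finset.sum_add_distrib] using
          (ha O hO).add (hb O hO)
      zero_mem' := fun O _ => by simpa using RegI.zero m O
      smul_mem' := fun c a ha O hO => by
        simpa only [Pi.smul_apply, smul_eq_mul, map_mul, mul_assoc, Finset.mul_sum] using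
          (ha O hO).mem_mul ((hJ O hO).const c) }
  obtain ⟨_, ⟨J, hJ, rfl⟩, hmin⟩ := IsArtinian.set_has_minimal
    {V : Submodule k (n → k) | ∃ J hJ, V = W J hJ} ⟨_, ∅, by simp, rfl⟩
  refine ⟨J, hJ, fun a ha O hO => ?_⟩
  have hJ' : ∀ O' ∈ insert O J, IsDivisorial k F O' := by
    simpa only [Finset.mem_insert, forall_eq_or_imp] using ⟨hO, hJ⟩
  have hle : W _ hJ' ≤ W J hJ := fun a ha O' hO' => ha O' (Finset.mem_insert_of_mem hO')
  have := (hle.eq_of_not_lt (hmin _ ⟨_, hJ', rfl⟩)).ge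
  exact this ha O (Finset.mem_insert_self _ _)

end Sat

section rel

variable {δ ν K M : Type} [Fintype δ] [DecidableEq δ] [Fintype ν] [DecidableEq ν]
  [Field K] [Algebra ℂ K] [Field M] [Algebra ℂ M] [Algebra K M] {B : Cht δ K}

theorem Rel.sat_ev (T : Rel B ν M) {b : Pt B.O} (p : T.Fib b) (q : MvPolynomial ν B.O) :
    p.1 (MvPolynomial.eval₂Hom (T.inc : B.O →+* T.X.O) (fun i => T.X.z (Sum.inr i)) q) =
      MvPolynomial.eval ((T.fib b).π p) (MvPolynomial.map (b.hom : B.O →+* ℂ) q) := by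
  induction q using MvPolynomial.induction_on with
  | C a => simpa using DFunLike.congr_fun p.2 a
  | add p q hp hq => simp only [map_add, hp, hq]
  | mul_X q i hq => simp only [map_mul, hq, MvPolynomial.eval₂Hom_X', MvPolynomial.map_X,
      MvPolynomial.eval_X, T.fib_π]

/-- a function that vanishes on `x i0 = 0` in a fibre is divisible by `x i0` there -/
theorem Rel.sat_div (T : Rel B ν M) (b : Pt B.O) (i0 : ν) {g : T.X.O}
    (hg : ∀ p : T.Fib b, p.1 (T.X.z (Sum.inr i0)) = 0 → p.1 g = 0) :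
    ∃ h : T.X.O, ∀ p : T.Fib b, p.1 g = p.1 (T.X.z (Sum.inr i0)) * p.1 h := by
  let σ : MvPolynomial ν B.O →ₐ[B.O] MvPolynomial ν B.O :=
    MvPolynomial.aeval (Function.update MvPolynomial.X i0 0)
  let f := MvPolynomial.eval₂Hom (T.inc : B.O →+* T.X.O) fun i => T.X.z (Sum.inr i)
  let P : Ideal (MvPolynomial ν B.O) :=
    RingHom.ker ((MvPolynomial.map (b.hom : B.O →+* ℂ)).comp
      (σ : MvPolynomial ν B.O →+* MvPolynomial ν B.O))
  have : P.IsPrime := RingHom.ker_isPrime _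
  have hσ : ∀ q, MvPolynomial.X i0 ∣ q - σ q := fun q => by
    induction q using MvPolynomial.induction_on with
    | C a => simp [σ]
    | add p q hp hq =>
      convert dvd_add hp hq using 1
      simp only [map_add]; ring
    | mul_X q i hq =>
      rcases eq_or_ne i i0 with rfl | hi
      · simp [σ]
      · convert hq.mul_right (MvPolynomial.X i) using 1
        simp [σ, hi, sub_mul]
  have h1 : g ∈ P.map f := by
    refine FibRed.mem_of_vanish (FibRed.radical_map T.etale P) fun p hp => ?_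
    have hb : p.res T.inc = b := Pt.ext fun a => by
      have := hp _ (Ideal.mem_map_of_mem f (x := MvPolynomial.C (a - algebraMap ℂ B.O (b a)))
        (by simp [P, RingHom.mem_ker, σ]))
      simpa [f, sub_eq_zero] using this
    refine hg ⟨p, hb⟩ ?_
    simpa [f] using hp _ (Ideal.mem_map_of_mem f (x := MvPolynomial.X i0)
      (by simp [P, RingHom.mem_ker, σ]))
  let I : Ideal T.X.O :=
    { carrier := {g | ∃ h : T.X.O, ∀ p : T.Fib b, p.1 g = p.1 (T.X.z (Sum.inr i0)) * p.1 h}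
      add_mem' := fun ⟨h, e⟩ ⟨h', e'⟩ => ⟨h + h', fun p => by
        rw [map_add, map_add, e p, e' p, mul_add]⟩
      zero_mem' := ⟨0, fun p => by simp⟩
      smul_mem' := fun c x ⟨h, e⟩ => ⟨c * h, fun p => by
        rw [smul_eq_mul, map_mul, map_mul, e p, mul_left_comm]⟩ }
  refine (Ideal.map_le_iff_le_comap.2 (fun q hq => ?_) : P.map f ≤ I) h1
  obtain ⟨q1, e⟩ := hσ q
  refine ⟨f q1, fun p => ?_⟩
  have h2 : MvPolynomial.map (b.hom : B.O →+* ℂ) (σ q) = 0 := hq
  rw [eq_add_of_sub_eq e, map_add, map_add, T.sat_ev p (σ q), h2, map_zero, add_zero, map_mul,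
    map_mul, MvPolynomial.eval₂Hom_X']

/-- no pole along `x i0 = 0` -/
theorem Rel.sat_pole (T : Rel B ν M) (b : Pt B.O) (i0 : ν) {H : T.Fib b → ENNReal}
    (hH : ∫⁻ p, H p ∂(T.fib b).μ < ⊤) {w : T.Fib b → ℝ} (hw : Continuous w) (w0 : ∀ p, 0 < w p)
    (n : ℕ) (g : T.X.O) (h : ∀ᵐ p ∂(T.fib b).μ,
      ENNReal.ofReal (w p * ‖p.1 g‖ ^ 2 / (‖p.1 (T.X.z (Sum.inr i0))‖ ^ 2) ^ n) ≤ H p) :
    ∃ h : T.X.O, ∀ p : T.Fib b, p.1 g = p.1 (T.X.z (Sum.inr i0)) ^ n * p.1 h := by
  induction n generalizing g with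
  | zero => exact ⟨g, fun p => by simp⟩
  | succ n ih =>
    have a0 := (T.fib b).null_poly (MvPolynomial.X_ne_zero i0)
    simp only [MvPolynomial.eval_X, T.fib_π] at a0
    obtain ⟨g1, e⟩ := T.sat_div b i0 (g := g) fun p0 hp0 => by
      by_contra hne
      have c1 : Continuous fun p : T.Fib b => w p * ‖p.1 g‖ ^ 2 :=
        hw.mul (((Pt.continuous_apply g).comp continuous_subtype_val).norm.pow 2)
      have c2 : Continuous fun p : T.Fib b => ‖p.1 (T.X.z (Sum.inr i0))‖ ^ 2 :=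
        ((Pt.continuous_apply _).comp continuous_subtype_val).norm.pow 2
      have p1 : 0 < w p0 * ‖p0.1 g‖ ^ 2 := mul_pos (w0 p0) (by positivity)
      refine Sat.ni (T.fib b) (p0 := p0) (i0 := i0) (by rw [T.fib_π, hp0]) hH (half_pos p1)
        (inter_mem (c1.continuousAt.eventually (lt_mem_nhds (half_lt_self p1)))
          (c2.continuousAt.eventually (gt_mem_nhds (show _ < (1 : ℝ) by simp [hp0])))) ?_
      filter_upwards [h, a0] with p hp hz hU
      refine le_trans (ENNReal.ofReal_le_ofReal ?_) hp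
      rw [T.fib_π]
      have h3 : 0 < ‖p.1 (T.X.z (Sum.inr i0))‖ ^ 2 := by positivity
      refine div_le_div₀ (mul_nonneg (w0 p).le (by positivity)) (le_of_lt hU.1) (by positivity) ?_
      rw [pow_succ]
      exact mul_le_of_le_one_left h3.le (pow_le_one₀ h3.le (le_of_lt hU.2))
    obtain ⟨h1, e1⟩ := ih g1 (by
      filter_upwards [h, a0] with p hp hz
      refine le_trans (le_of_eq ?_) hp
      have h3 := norm_ne_zero_iff.2 hz
      rw [e p, norm_mul]
      congr 1
      field_simp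
      ring)
    exact ⟨h1, fun p => by rw [e p, e1 p]; ring⟩

end rel

end Pool.Agent.Lib.MP_5c318e_ag
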