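import Pool.Agent.Lib.MP_5c318e_ag.S.SatA
import Pool.Agent.Lib.MP_5c318e_ag.S.CV
import Pool.Agent.Lib.MP_5c318e_ag.S.RAlg

/-! Square integrable functions on a general fibre: they come from the ring of the chart, and
their regularity along a prime divisor spreads to the generic fibre. -/

set_option autoImplicit false
set_option linter.unusedSectionVars false

namespace Pool.Agent.Lib.MP_5c318e_ag

open MeasureTheory Set Filter Topology

namespace Sat

/-- the integrand -/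
noncomputable def G (m : ℕ) {r : Type} [Fintype r] (u : ℂ) (t : r → ℂ) : ENNReal :=
  ENNReal.ofReal (‖u‖ ^ 2) * ENNReal.ofReal (∑ i, ‖t i‖ ^ 2) ^ (-((m - 1) / m) : ℝ)

theorem le_G {m : ℕ} (hm : 0 < m) {r : Type} [Fintype r] (u : ℂ) (t : r → ℂ) {J : ℂ} (hJ : J ≠ 0) :
    ENNReal.ofReal ((1 + ∑ i, ‖t i‖ ^ 2)⁻¹ * ‖u‖ ^ 2) ≤
      ENNReal.ofReal (‖J‖ ^ 2) * G m (u / J ^ m) fun i => t i / J ^ m := by
  have j0 : 0 < ‖J‖ ^ 2 := by positivity
  have x0 : 0 ≤ ∑ i, ‖t i‖ ^ 2 := by positivity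
  have e : ∀ v : ℂ, ‖v / J ^ m‖ ^ 2 = ‖v‖ ^ 2 / (‖J‖ ^ 2) ^ m := fun v => by
    rw [norm_div, norm_pow, div_pow, ← pow_mul, ← pow_mul, mul_comm]
  simp only [G, e, ← Finset.sum_div]
  refine le_trans (le_of_eq ?_) (mul_le_mul_right (mul_le_mul_right (wt hm x0 j0) _) _)
  rw [← ENNReal.ofReal_mul (by positivity), ← ENNReal.ofReal_mul (by positivity)]
  congr 1
  obtain ⟨k, rfl⟩ := Nat.exists_eq_add_one_of_ne_zero hm.ne'
  rw [Nat.add_sub_cancel, pow_succ _ k]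
  field_simp

section gr

variable {ι : Type} [Fintype ι] [DecidableEq ι] {S : Type}
  [TopologicalSpace S] [MeasurableSpace S] [BorelSpace S] [T2Space S] [SigmaCompactSpace S]

theorem gr {D : RD ι S} (C : D.Cov) (Q : Polynomial (MvPolynomial ι ℂ)) : ∃ (A : ℝ) (N : ℕ),
    0 ≤ A ∧ ∀ p, ‖ev2 Q (D.π p) (C.w p)‖ ^ 2 ≤ A * (1 + ‖D.π p‖ ^ 2) ^ N := by
  obtain ⟨A, N, hA⟩ := C.w_bound
  obtain ⟨A', N', hA', hP'⟩ := pl_ev2 Q
  refine ⟨(A' * (|A| + 1) ^ N') ^ 2 * 2 ^ ((N + 1) * N'), (N + 1) * N', by positivity, fun p => ?_⟩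
  set s := 1 + ‖D.π p‖ with hs
  have hs1 : 1 ≤ s := le_add_of_nonneg_right (norm_nonneg _)
  have hR1 : s ≤ (|A| + 1) * s ^ (N + 1) :=
    (le_self_pow₀ hs1 N.succ_ne_zero).trans
      (le_mul_of_one_le_left (by positivity) (le_add_of_nonneg_left (abs_nonneg _)))
  have hn : ‖(D.π p, C.w p)‖ ≤ (|A| + 1) * s ^ (N + 1) := by
    rw [Prod.norm_mk]
    refine max_le ((le_add_of_nonneg_left zero_le_one).trans hR1) ?_
    refine (hA p).trans (mul_le_mul ((le_abs_self _).trans (le_add_of_nonneg_right zero_le_one))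
      (pow_le_pow_right₀ hs1 N.le_succ) (by positivity) (by positivity))
  have h3 := (hP' _ (hs1.trans hR1) _ _ hn hn).1
  have h4 : s ^ 2 ≤ 2 * (1 + ‖D.π p‖ ^ 2) := by nlinarith [sq_nonneg (1 - ‖D.π p‖)]
  calc _ ≤ (A' * ((|A| + 1) * s ^ (N + 1)) ^ N') ^ 2 := pow_le_pow_left₀ (norm_nonneg _) h3 2
    _ = (A' * (|A| + 1) ^ N') ^ 2 * (s ^ 2) ^ ((N + 1) * N') := by
      rw [mul_pow (|A| + 1), ← mul_assoc, mul_pow, ← pow_mul s, ← pow_mul s, ← pow_mul s, mul_comm 2]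
    _ ≤ (A' * (|A| + 1) ^ N') ^ 2 * (2 * (1 + ‖D.π p‖ ^ 2)) ^ ((N + 1) * N') := by gcongr
    _ = _ := by rw [mul_pow 2, mul_assoc]

end gr

section alg

variable {A V : Type} [CommRing A] [IsDomain A] [AddCommGroup V] [Module A V] [Module.Finite A V]

/-- intersections of submodules specialise -/
theorem spread_inf {J : Type} [Finite J] (P : J → Submodule A V) :
    ∃ T : Set A, T.Countable ∧ (∀ d ∈ T, d ≠ 0) ∧ ∀ I : Ideal A, I.IsMaximal → (∀ d ∈ T, d ∉ I) →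
      ∀ u, (∀ j, ∃ v ∈ P j, u - v ∈ I • (⊤ : Submodule A V)) →
        ∃ v, (∀ j, v ∈ P j) ∧ u - v ∈ I • (⊤ : Submodule A V) := by
  classical
  have := Fintype.ofFinite J
  have cnt : ∀ (W : Type) [AddCommGroup W] [Module A W] [Module.Finite A W],
      ∃ s : Set W, s.Countable ∧ Submodule.span A s = ⊤ := fun W _ _ _ => by
    obtain ⟨s, hs⟩ := Module.Finite.fg_top (R := A) (M := W)
    exact ⟨s, s.countable_toSet, hs⟩
  obtain ⟨T, h1, h2, h3⟩ := W.spread (LinearMap.pi fun j => (P j).mkQ) (cnt _) (cnt _)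
  refine ⟨T, h1, h2, fun I hI hT u hu => ?_⟩
  obtain ⟨v, e1, e2⟩ := h3 I hI hT u (by
    rw [← Finset.univ_sum_single (LinearMap.pi (fun j => (P j).mkQ) u)]
    refine Submodule.sum_mem _ fun j _ => ?_
    obtain ⟨v, hv, e⟩ := hu j
    have h2 := Submodule.mem_map_of_mem
      (f := LinearMap.single A (fun j => V ⧸ P j) j ∘ₗ (P j).mkQ) e
    rw [Submodule.map_smul'', LinearMap.comp_apply, map_sub, Submodule.mkQ_apply (P j) v,
      (Submodule.Quotient.mk_eq_zero _).2 hv, sub_zero] at h2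
    exact Submodule.smul_mono le_rfl le_top h2)
  exact ⟨v, fun j => (Submodule.Quotient.mk_eq_zero _).1 (congrFun e1 j), e2⟩

/-- a common denominator -/
theorem exists_den (P : Submodule A V) :
    ∃ d : A, d ≠ 0 ∧ ∀ (e : A) (v : V), e ≠ 0 → e • v ∈ P → d • v ∈ P := by
  obtain ⟨d, n, α, β, hd, h⟩ := W.exists_split (A := A) (Q := V ⧸ P)
  refine ⟨d, hd, fun e v he hv => ?_⟩
  have h1 : e • α (P.mkQ v) = 0 := by
    rw [← map_smul, ← map_smul, Submodule.mkQ_apply, (Submodule.Quotient.mk_eq_zero _).2 hv, map_zero]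
  have h2 := h (P.mkQ v)
  rw [(smul_eq_zero.1 h1).resolve_left he, map_zero, ← map_smul] at h2
  exact (Submodule.Quotient.mk_eq_zero _).1 h2.symm

end alg

theorem mem_smul {A n : Type} [CommRing A] [Algebra ℂ A] [Finite n] (b : Pt A) (v : n → A) :
    v ∈ RingHom.ker b.hom • (⊤ : Submodule A (n → A)) ↔ ∀ i, b (v i) = 0 := by
  classical
  have := Fintype.ofFinite n
  constructor
  · intro hv
    refine Submodule.smul_induction_on hv (fun r hr y _ i => ?_) fun y z hy hz i => ?_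
    · rw [Pi.smul_apply, smul_eq_mul, map_mul, show b r = 0 from hr, zero_mul]
    · rw [Pi.add_apply, map_add, hy i, hz i, add_zero]
  · intro hv
    rw [← Finset.univ_sum_single v]
    refine Submodule.sum_mem _ fun i _ => ?_
    have := Submodule.smul_mem_smul (N := (⊤ : Submodule A (n → A)))
      (show v i ∈ RingHom.ker b.hom from hv i) (Submodule.mem_top (x := Pi.single i 1))
    rwa [← Pi.single_smul, smul_eq_mul, mul_one] at this

theorem ker_max {A : Type} [CommRing A] [Algebra ℂ A] (b : Pt A) : (RingHom.ker b.hom).IsMaximal :=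
  RingHom.ker_isMaximal_of_surjective _ fun c => ⟨algebraMap ℂ A c, by simp⟩

/-- divisibility on a very general fibre spreads -/
theorem spread_div {A O n : Type} [CommRing A] [IsDomain A] [Algebra ℂ A] [CommRing O]
    [Algebra ℂ O] [Algebra.FiniteType ℂ O] [Fintype n] (inc : A →ₐ[ℂ] O)
    (hr : ∀ b : Pt A, (Ideal.map inc (RingHom.ker b.hom)).IsRadical) (ψ : n → O) (t : O) :
    ∃ T : Set A, T.Countable ∧ (∀ d ∈ T, d ≠ 0) ∧ ∀ b : Pt A, (∀ d ∈ T, b d ≠ 0) →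
      ∀ (a : n → A) (h : O), (∀ p : Pt O, p.res inc = b → p (∑ i, inc (a i) * ψ i - t * h) = 0) →
        ∃ (a' : n → A) (h' : O), h' * t = ∑ i, inc (a' i) * ψ i ∧ ∀ i, b (a i) = b (a' i) := by
  let _ : Algebra A O := (inc : A →+* O).toAlgebra
  have : IsScalarTower ℂ A O := .of_algebraMap_eq fun c => (inc.commutes c).symm
  let P : Submodule A O := (Ideal.span {t}).restrictScalars A
  have hL : ∀ a : n → A, Fintype.linearCombination A ψ a = ∑ i, inc (a i) * ψ i := fun _ => rfl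
  obtain ⟨s, hs, e⟩ := FibRed.countable_span O
  obtain ⟨s', hs'⟩ := Module.Finite.fg_top (R := A) (M := n → A)
  obtain ⟨T, h1, h2, h3⟩ := W.spread (P.mkQ ∘ₗ Fintype.linearCombination A ψ)
    ⟨s', s'.countable_toSet, hs'⟩ ⟨P.mkQ '' s, hs.image _, by
      rw [← Submodule.map_span, Submodule.span_eq_top_of_span_eq_top ℂ A s e, Submodule.map_top,
        Submodule.range_mkQ]⟩
  refine ⟨T, h1, h2, fun b hb a h ha => ?_⟩
  obtain ⟨a', e1, e2⟩ := h3 _ (ker_max b) hb a (by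
    have h4 : ∑ i, inc (a i) * ψ i - t * h ∈ RingHom.ker b.hom • (⊤ : Submodule A O) := by
      rw [Ideal.smul_top_eq_map]
      exact (FibRed.red (hr b)).2 ha
    have h5 := Submodule.mem_map_of_mem (f := P.mkQ) h4
    rw [Submodule.map_smul'', map_sub, Submodule.mkQ_apply P (t * h),
      (Submodule.Quotient.mk_eq_zero P).2 (Ideal.mem_span_singleton.2 (dvd_mul_right t h)),
      sub_zero] at h5
    exact Submodule.smul_mono le_rfl le_top h5)
  obtain ⟨h', e3⟩ := Ideal.mem_span_singleton'.1 ((Submodule.Quotient.mk_eq_zero P).1 e1)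
  exact ⟨a', h', e3, fun i => by simpa [sub_eq_zero] using (mem_smul b _).1 e2 i⟩

end Sat

variable {δ ν K M : Type} [Fintype δ] [DecidableEq δ] [Fintype ν] [DecidableEq ν]
  [Field K] [Algebra ℂ K] [Field M] [Algebra ℂ M] [Algebra K M] [IsScalarTower ℂ K M]
  {B : Cht δ K}

/-- a square integrable function that is holomorphic off a hypersurface comes from the ring -/
theorem Fam.sat_alg (T : Fam B ν M) {m : ℕ} (hm : 0 < m) {r : Type} [Fintype r] (τ : r → T.X.O)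
    {b : Pt B.O} (hb : MvPolynomial.map (b.hom : B.O →+* ℂ) T.finX.Δ ≠ 0)
    {g : MvPolynomial ν ℂ} {u : T.Fib b → ℂ} (hg : g ≠ 0)
    (hu : ∀ p, MvPolynomial.eval ((T.fib b).π p) g ≠ 0 →
      DifferentiableAt ℂ (fun z => u ((T.fib b).sec p z)) ((T.fib b).π p))
    (hi : ∫⁻ p, Sat.G m (u p) (fun i => p.1 (τ i)) ∂(T.fib b).μ < ⊤) :
    ∃ φ : T.X.O, ∀ p, MvPolynomial.eval ((T.fib b).π p) g ≠ 0 → u p = p.1 φ := by
  classical
  obtain ⟨C, -, hΔ, hw⟩ := T.cov b hb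
  choose P j hP using fun o : Option r => T.finX.gen_pt (o.elim 1 τ)
  choose A N hA h using fun o : Option r => Sat.gr C
    ((P o).map (MvPolynomial.map (b.hom : B.O →+* ℂ)) * Polynomial.C (C.Δ ^ (∑ o, j o - j o)))
  have key : ∀ p : T.Fib b, (1 + ∑ i, ‖p.1 (τ i)‖ ^ 2) *
      ‖MvPolynomial.eval ((T.fib b).π p) C.Δ‖ ^ (2 * ∑ o, j o) ≤
      (∑ o, A o) * (1 + ‖(T.fib b).π p‖ ^ 2) ^ ∑ o, N o := fun p => by
    have e : 1 + ∑ i, ‖p.1 (τ i)‖ ^ 2 = ∑ o : Option r, ‖p.1 (o.elim 1 τ)‖ ^ 2 := by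
      simp [Fintype.sum_option]
    rw [e, Finset.sum_mul, Finset.sum_mul]
    refine Finset.sum_le_sum fun o _ => le_trans (le_of_eq ?_) ((h o p).trans ?_)
    · have h1 := hP o p.1
      rw [p.2, ← T.toRel.π_fun, ← hΔ, ← hw] at h1
      have h2 : j o ≤ ∑ o, j o := Finset.single_le_sum (fun _ _ => Nat.zero_le _) (Finset.mem_univ o)
      rw [ev2, Polynomial.eval₂_mul, Polynomial.eval₂_C, ← ev2, ← h1, map_pow, mul_assoc, ← pow_add,
        Nat.add_sub_cancel' h2, norm_mul, norm_pow, mul_pow, ← pow_mul, mul_comm 2]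
    · exact mul_le_mul_of_nonneg_left (pow_le_pow_right₀ (le_add_of_nonneg_right (by positivity))
        (Finset.single_le_sum (fun _ _ => Nat.zero_le _) (Finset.mem_univ o))) (hA o)
  have A0 : 0 ≤ ∑ o, A o := Finset.sum_nonneg fun o _ => hA o
  obtain ⟨Q, k, hQ⟩ := C.alg hg hu (∑ o, j o) (∑ o, N o) (by
    refine lt_of_le_of_lt ((setLIntegral_le_lintegral _ _).trans (lintegral_mono fun p => ?_))
      ((lintegral_const_mul' (ENNReal.ofReal (∑ o, A o)) _ ENNReal.ofReal_ne_top).trans_lt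
        (ENNReal.mul_lt_top ENNReal.ofReal_lt_top hi))
    have h1 := Sat.le_G hm (u p) (fun i => p.1 (τ i)) one_ne_zero
    simp only [norm_one, one_pow, ENNReal.ofReal_one, one_mul, div_one] at h1
    refine le_trans ?_ (mul_le_mul_right h1 _)
    rw [← ENNReal.ofReal_mul A0]
    refine ENNReal.ofReal_le_ofReal ?_
    rw [div_le_iff₀ (by positivity)]
    have x0 : 0 < 1 + ∑ i, ‖p.1 (τ i)‖ ^ 2 := by positivity
    refine le_trans (mul_le_mul_of_nonneg_left ((le_div_iff₀' x0).2 (key p)) (by positivity))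
      (le_of_eq ?_)
    ring)
  obtain ⟨φ, hφ⟩ := T.exists_elt b Q k
  refine ⟨φ, fun p hp => mul_right_cancel₀ (pow_ne_zero k (C.Δ_ne p)) ?_⟩
  rw [hQ p hp, hw, ← hφ, hΔ]

/-- regularity in the chart `T'` along `x i0 = 0` -/
theorem Rel.sat_loc (T T' : Rel B ν M) {m : ℕ} (hm : 0 < m) {r n : Type} [Fintype r] [Fintype n]
    (τ : r → T.X.O) (φ : n → T.X.O) (i0 : ν) (N : ℕ) (σ : r → T'.X.O) (ψ : n → T'.X.O)
    (hσ : ∀ j, (τ j : M) * Jac T'.dx T.x ^ m = σ j)
    (hψ : ∀ i, (φ i : M) * Jac T'.dx T.x ^ m * T'.x i0 ^ N = ψ i) :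
    ∀ᵐ b ∂B.D.μ, ∀ a : n → ℂ,
      ∫⁻ p, Sat.G m (∑ i, a i * p.1 (φ i)) (fun j => p.1 (τ j)) ∂(T.fib b).μ < ⊤ →
      ∃ a' : n → B.O, (∑ i, algebraMap K M (a' i) * φ i) * Jac T'.dx T.x ^ m ∈ T'.X.O ∧
        ∀ i, a i = b (a' i) := by
  have : CharZero K := charZero_of_injective_algebraMap (algebraMap ℂ K).injective
  obtain ⟨α, β, hβ, e⟩ := T'.X.frac (Jac T'.dx T.x)
  have hα : α ≠ 0 := by
    rintro rfl
    have h1 := T.dual.jac_chain T'.dx T'.x
    rw [T'.dual.jac_one, (mul_eq_zero.1 e).resolve_right fun h => hβ (Subtype.ext h), zero_mul] at h1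
    exact one_ne_zero h1
  obtain ⟨S, s1, s2, s3⟩ := Sat.spread_div T'.inc (FibRed.radical_fibre _ _ T'.etale) ψ
    (T'.X.z (Sum.inr i0) ^ N)
  filter_upwards [B.D.ae_of_gen (T'.cv T), B.D.ae_of_gen (T'.gen_ne hα),
    B.D.ae_of_gen (T'.gen_ne hβ), (ae_ball_iff s1).2 fun d hd => FibRed.ae_ne B (s2 d hd)]
    with b hcv h1 h2 hb a hi
  have h3 := hcv (fun e => Sat.G m (∑ i, a i * e (φ i)) fun j => e (τ j)) (by
    unfold Sat.G; fun_prop)
  simp only [Pt.ev_coe] at h3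
  obtain ⟨h, hh⟩ := T'.sat_pole b i0 (h3 ▸ hi) (w := fun p => (1 + ∑ j, ‖p.1 (σ j)‖ ^ 2)⁻¹)
    ((continuous_const.add (continuous_finsetSum _ fun j _ =>
      (((Pt.continuous_apply _).comp continuous_subtype_val).norm.pow 2))).inv₀
        fun p => ne_of_gt (add_pos_of_pos_of_nonneg one_pos (Finset.sum_nonneg fun _ _ => sq_nonneg _)))
    (fun p => by positivity) N (∑ i, a i • ψ i) (by
    filter_upwards [(T'.fib b).ae_of_gen h1, (T'.fib b).ae_of_gen h2,
      (T'.fib b).null_poly (MvPolynomial.X_ne_zero i0)] with q q1 q2 q3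
    rw [MvPolynomial.eval_X, T'.fib_π] at q3
    have key : ∀ (x : M) (y z : T'.X.O), q.1 z ≠ 0 → x * Jac T'.dx T.x ^ m * z = y →
        q.1.ev x = q.1 y / q.1 z / (q.1 α / q.1 β) ^ m := fun x y z hz hx => by
      rw [q.1.ev_eq (a := y * β ^ m) (b := α ^ m * z) (by simp [q1, hz])
        (by push_cast; rw [← e, ← hx]; ring)]
      simp only [map_mul, map_pow, div_pow]
      field_simp
    have k1 : ∀ j, q.1.ev (τ j) = q.1 (σ j) / (q.1 α / q.1 β) ^ m := fun j => by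
      simpa using key _ _ 1 (by simp) (by simpa using hσ j)
    have k2 : ∑ i, a i * q.1.ev (φ i) = q.1 (∑ i, a i • ψ i) / q.1 (T'.X.z (Sum.inr i0)) ^ N /
        (q.1 α / q.1 β) ^ m := by
      simp only [map_sum, map_smul, smul_eq_mul, Finset.sum_div, mul_div_assoc]
      refine Finset.sum_congr rfl fun i _ => ?_
      rw [key _ _ (T'.X.z (Sum.inr i0) ^ N) (by simp [q3]) (hψ i), map_pow]
    simp only [k1, k2, q.1.ev_eq q2 e]
    refine le_trans (le_of_eq ?_) (Sat.le_G hm _ _ (div_ne_zero q1 q2))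
    rw [norm_div, norm_pow, div_pow, ← pow_mul, ← pow_mul, mul_comm 2, mul_div_assoc])
  obtain ⟨a', h', e1, e2⟩ := s3 b hb (fun i => algebraMap ℂ _ (a i)) h fun p hp => by
    simpa [sub_eq_zero] using hh ⟨p, hp⟩
  refine ⟨a', ?_, fun i => by simpa using e2 i⟩
  have e3 := congrArg (fun x : T'.X.O => (x : M)) e1
  simp only [MulMemClass.coe_mul, SubmonoidClass.coe_pow, AddSubmonoidClass.coe_finsetSum,
    T'.inc_eq, ← hψ, ← mul_assoc, ← Finset.sum_mul] at e3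
  rw [← mul_right_cancel₀ (pow_ne_zero N (T'.basis.1.ne_zero i0)) e3]
  exact h'.2

end Pool.Agent.Lib.MP_5c318e_ag
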