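import Pool.Agent.Lib.MP_5c318e_ag.S.SatG

/-! Saturation for twisted pluricanonical forms with bounded poles. -/

set_option autoImplicit false
set_option linter.unusedSectionVars false

namespace Pool.Agent.Lib.MP_5c318e_ag

open MeasureTheory Set Filter Topology

section tw

variable {k F ι κ : Type} [Field k] [Field F] [Algebra k F] [Fintype ι] [DecidableEq ι]
  {d : ι → Derivation k F F} {q : κ → F} {O : ValuationSubring F} {n n' a a' : ℕ} {φ ψ : F}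

/-- `φ` is a regular `n`-form at `O` twisted by the `a`-th power of the linear system `q` -/
def TwI (d : ι → Derivation k F F) (n : ℕ) (q : κ → F) (a : ℕ) (φ : F) (O : ValuationSubring F) :
    Prop := ∃ j ψ, RegI d n ψ O ∧ φ = q j ^ a * ψ

theorem exists_top [Finite κ] [Nonempty κ] (q : κ → F) (O : ValuationSubring F) :
    ∃ j, ∀ i, O.valuation (q i) ≤ O.valuation (q j) :=
  Finite.exists_max fun i => O.valuation (q i)

theorem div_mem_of_le {x y : F} (h : O.valuation x ≤ O.valuation y) : x / y ∈ O := by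
  rw [← O.valuation_le_one_iff, map_div₀]
  exact div_le_one_of_le₀ h zero_le

theorem twI_iff {j : κ} (hj : ∀ i, O.valuation (q i) ≤ O.valuation (q j)) (h0 : q j ≠ 0) :
    TwI d n q a φ O ↔ RegI d n (φ / q j ^ a) O := by
  refine ⟨?_, fun h => ⟨j, _, h, (mul_div_cancel₀ _ (pow_ne_zero _ h0)).symm⟩⟩
  rintro ⟨i, ψ, h, rfl⟩
  rw [mul_div_right_comm, ← div_pow]
  exact h.mem_mul (pow_mem (div_mem_of_le (hj i)) a)

theorem TwI.mem_mul (h : TwI d n q a φ O) {x : F} (hx : x ∈ O) : TwI d n q a (x * φ) O := by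
  obtain ⟨j, ψ, h, rfl⟩ := h
  exact ⟨j, x * ψ, h.mem_mul hx, mul_left_comm _ _ _⟩

theorem TwI.zero [Nonempty κ] : TwI d n q a 0 O :=
  ⟨Classical.arbitrary κ, 0, RegI.zero n O, (mul_zero _).symm⟩

theorem TwI.up (h : RegI d n ψ O) {i j : κ} (hj : O.valuation (q i) ≤ O.valuation (q j)) (a : ℕ) :
    ∃ ψ', RegI d n ψ' O ∧ q i ^ a * ψ = q j ^ a * ψ' := by
  rcases eq_or_ne (q j) 0 with h0 | h0
  · rw [h0, map_zero, le_zero_iff, Valuation.zero_iff] at hj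
    exact ⟨ψ, h, by rw [h0, hj]⟩
  · exact ⟨_, h.mem_mul (pow_mem (div_mem_of_le hj) a), by rw [div_pow]; field_simp⟩

theorem TwI.add (h : TwI d n q a φ O) (h' : TwI d n q a ψ O) : TwI d n q a (φ + ψ) O := by
  obtain ⟨i, φ, h, rfl⟩ := h
  obtain ⟨j, ψ, h', rfl⟩ := h'
  rcases le_total (O.valuation (q i)) (O.valuation (q j)) with e | e
  · obtain ⟨x, hx, e⟩ := TwI.up h e a
    exact ⟨j, _, hx.add h', by rw [e, mul_add]⟩
  · obtain ⟨x, hx, e⟩ := TwI.up h' e a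
    exact ⟨i, _, h.add hx, by rw [e, mul_add]⟩

theorem TwI.mul [CharZero k] (h : TwI d n q a φ O) (h' : TwI d n' q a' ψ O) :
    TwI d (n + n') q (a + a') (φ * ψ) O := by
  obtain ⟨i, φ, h, rfl⟩ := h
  obtain ⟨j, ψ, h', rfl⟩ := h'
  rcases le_total (O.valuation (q i)) (O.valuation (q j)) with e | e
  · obtain ⟨x, hx, e⟩ := TwI.up h e a
    exact ⟨j, _, hx.mul h', by rw [e]; ring⟩
  · obtain ⟨x, hx, e⟩ := TwI.up h' e a'
    exact ⟨i, _, h.mul hx, by rw [e]; ring⟩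

/-- the space of twisted forms with bounded poles -/
def twSp [Nonempty κ] (d : ι → Derivation k F F) (n : ℕ) (q : κ → F) (a : ℕ)
    {Pr : Set (ValuationSubring F)} (hPr : ∀ O ∈ Pr, IsDivisorial k F O)
    (u : ValuationSubring F → F) : Submodule k F where
  carrier := {φ | ∀ O ∈ Pr, TwI d n q a (φ * u O) O}
  add_mem' := fun ha hb O hO => by rw [add_mul]; exact (ha O hO).add (hb O hO)
  zero_mem' := fun O _ => by rw [zero_mul]; exact TwI.zero
  smul_mem' := fun c x hx O hO => by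
    rw [Algebra.smul_def, mul_assoc]; exact (hx O hO).mem_mul ((hPr O hO).const c)

/-- a basis of the span of the elements of `E` that lie in `A` -/
theorem exists_basis_in (E : Submodule k F) [FiniteDimensional k E] {σ : Type} [SetLike σ F]
    (A : σ) : ∃ (r : ℕ) (τ : Fin r → A), (∀ i, (τ i : F) ∈ E) ∧
      LinearIndependent k (fun i => (τ i : F)) ∧
      ∀ φ : A, (φ : F) ∈ E → (φ : F) ∈ Submodule.span k (range fun i => (τ i : F)) := by
  obtain ⟨b, hb, h1, h2⟩ := exists_linearIndependent k ((E : Set F) ∩ (A : Set F))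
  have : Finite b := (LinearIndependent.of_comp (v := fun i : b => (⟨i, (hb i.2).1⟩ : E))
    E.subtype h2).finite
  obtain ⟨r, ⟨e⟩⟩ := Finite.exists_equiv_fin b
  refine ⟨r, fun i => ⟨e.symm i, (hb (e.symm i).2).2⟩, fun i => (hb (e.symm i).2).1,
    h2.comp _ e.symm.injective, fun φ hφ => ?_⟩
  have h3 : (range fun i => ((e.symm i : b) : F)) = b :=
    (e.symm.surjective.range_comp Subtype.val).trans Subtype.range_coe
  rw [h3, h1]
  exact Submodule.subset_span ⟨hφ, φ.2⟩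

end tw

variable {δ ν K M : Type} [Fintype δ] [DecidableEq δ] [Fintype ν] [DecidableEq ν]
  [Field K] [Algebra ℂ K] [Field M] [Algebra ℂ M] [Algebra K M] [IsScalarTower ℂ K M]
  {B : Cht δ K}

/-- `k`-forms that are square integrable against `|s|^(-2 (k-1) / k) / om` -/
theorem Fam.satK (T : Fam B ν M) {k : ℕ} (hk : 0 < k) {om : (M → ℂ) → ℝ} (hm : Measurable om)
    (h0 : Up T.X.O fun e => ENNReal.ofReal (om e))
    {ρ : Type} [Fintype ρ] (s : ρ → T.X.O) {Pr : Set (ValuationSubring M)}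
    (hPr : ∀ O ∈ Pr, IsDivisorial K M O) {g g' : ValuationSubring M → M} (g0 : ∀ O ∈ Pr, g O ≠ 0)
    (hs : ∀ O ∈ Pr, ∀ i, RegI T.dx k (s i * g O) O)
    (hg : ∀ O ∈ Pr, Up O fun e => ENNReal.ofReal
      (‖e (g' O)‖ ^ 2 * (‖e (g O)‖ ^ 2) ^ (-((k - 1) / k) : ℝ) * om e))
    {r : Type} [Fintype r] {τ : r → T.X.O}
    (hτ : ∀ φ : T.X.O, (∀ O ∈ Pr, RegI T.dx k (φ * g' O) O) →
      (φ : M) ∈ Submodule.span K (range fun i => (τ i : M))) :
    ∀ᵐ b ∂B.D.μ, ∀ (h : MvPolynomial ν ℂ) (u : T.Fib b → ℂ), h ≠ 0 →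
      (∀ p, MvPolynomial.eval ((T.fib b).π p) h ≠ 0 →
        DifferentiableAt ℂ (fun z => u ((T.fib b).sec p z)) ((T.fib b).π p)) →
      ∫⁻ p, ENNReal.ofReal (‖u p‖ ^ 2) *
        (ENNReal.ofReal (∑ i, ‖p.1 (s i)‖ ^ 2) ^ (-((k - 1) / k) : ℝ) *
          (ENNReal.ofReal (om p.1.ev))⁻¹) ∂(T.fib b).μ < ⊤ →
      ∃ a : r → ℂ, ∀ p, MvPolynomial.eval ((T.fib b).π p) h ≠ 0 → u p = ∑ i, a i * p.1 (τ i) := by
  have : CharZero K := charZero_of_injective_algebraMap (algebraMap ℂ K).injective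
  obtain ⟨n, rfl⟩ := Nat.exists_eq_add_one_of_ne_zero hk.ne'
  simp only [Nat.cast_add_one, add_sub_cancel_right] at hg ⊢
  have c0 : (0 : ℝ) ≤ n / (n + 1) := by positivity
  have hJ : ∀ O : ValuationSubring M, ∃ J : M, O ∈ Pr → J ≠ 0 ∧
      ∀ m φ, RegI T.dx m φ O ↔ φ / J ^ m ∈ O := fun O => by
    by_cases hO : O ∈ Pr
    · obtain ⟨c, i0, hc⟩ := (hPr O hO).exists_adp (ι := ν) (trdeg_of_basis T.basis)
      have h1 := T.dual.isFr.jac_ne hc.basis.1
      exact ⟨_, fun _ => ⟨h1, fun m φ => by rw [hc.regI_iff, div_pow_mem_iff h1]⟩⟩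
    · exact ⟨0, fun h => absurd h hO⟩
  choose J hJ using hJ
  have inv : ∀ e : M → ℂ, (ENNReal.ofReal (∑ i, ‖e (s i)‖ ^ 2) ^ (-(n / (n + 1)) : ℝ) *
      (ENNReal.ofReal (om e))⁻¹)⁻¹ =
      ENNReal.ofReal (∑ i, ‖e (s i)‖ ^ 2) ^ (n / (n + 1) : ℝ) * ENNReal.ofReal (om e) := fun e => by
    rw [ENNReal.rpow_neg, ENNReal.mul_inv (Or.inl (ENNReal.inv_ne_zero.2
      (ENNReal.rpow_ne_top_of_nonneg c0 ENNReal.ofReal_ne_top)))
      (Or.inr (ENNReal.inv_ne_zero.2 ENNReal.ofReal_ne_top)), inv_inv, inv_inv]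
  have := T.satG (W := fun e : M → ℂ => ENNReal.ofReal (∑ i, ‖e (s i)‖ ^ 2) ^
    (-(n / (n + 1)) : ℝ) * (ENNReal.ofReal (om e))⁻¹) (by fun_prop) (by
      simpa only [inv] using ((Up.sos fun i => (s i).2).rpow c0).mul h0) hPr
    (γ := fun O => g' O / J O ^ n) (fun O hO => ?_) (τ := τ) fun φ hφ => hτ φ fun O hO => ?_
  · simpa only [Pt.ev_coe] using this
  · refine (((Up.sos fun i => ((hJ O hO).2 _ _).1 (hs O hO i)).rpow c0).mul (hg O hO)).mono ?_
    filter_upwards [eventually_all.2 fun i => gnr.div (s i * g O) (J O ^ (n + 1)),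
      eventually_all.2 fun i => gnr.mul (s i : M) (g O), gnr.pow (J O) (n + 1), gnr.pow (J O) n,
      gnr.div (g' O) (J O ^ n), gnr.ne (hJ O hO).1, gnr.ne (g0 O hO)] with e h1 h2 h3 h4 h5 h6 h7
    have j0 : 0 < ‖e (J O)‖ ^ 2 := by positivity
    have g1 : 0 < ‖e (g O)‖ ^ 2 := by positivity
    have e1 : ∑ i, ‖e (s i * g O / J O ^ (n + 1))‖ ^ 2 =
        (∑ i, ‖e (s i)‖ ^ 2) * ‖e (g O)‖ ^ 2 / (‖e (J O)‖ ^ 2) ^ (n + 1) := by
      simp only [h1, h2, h3, norm_div, norm_mul, norm_pow, div_pow, mul_pow, Finset.sum_mul,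
        Finset.sum_div, ← pow_mul, mul_comm 2]
    rw [div_eq_mul_inv, inv, e1, h5, h4, ENNReal.ofReal_rpow_of_nonneg (by positivity) c0,
      ENNReal.ofReal_rpow_of_nonneg (by positivity) c0, ← ENNReal.ofReal_mul (by positivity),
      ← ENNReal.ofReal_mul (by positivity), ← ENNReal.ofReal_mul (by positivity)]
    refine ENNReal.ofReal_le_ofReal (le_of_eq ?_)
    have g2 := Real.rpow_pos_of_pos g1 (n / (n + 1))
    rw [Real.div_rpow (by positivity) (by positivity), Real.mul_rpow (by positivity) g1.le,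
      ← Real.rpow_natCast _ (n + 1), ← Real.rpow_mul j0.le, Nat.cast_add_one,
      mul_div_cancel₀ _ (by positivity), Real.rpow_natCast, Real.rpow_neg g1.le, norm_div, norm_pow,
      div_pow, ← pow_mul, ← pow_mul, mul_comm n]
    field_simp
  · have h1 := ((hJ O hO).2 _ _).1 (hφ O hO)
    rw [(hJ O hO).2, pow_succ, ← div_div, mul_div_assoc]
    rwa [pow_one] at h1

/-- the twist is a power of a linear system `q`; `u`, `u'` bound the additional poles -/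
theorem Fam.satQ (T : Fam B ν M) {k : ℕ} (hk : 0 < k) (a : ℕ) {κ : Type} [Fintype κ]
    {q : κ → T.X.O} (hq : ∃ j, q j ≠ 0) {ρ : Type} [Fintype ρ] (s : ρ → T.X.O)
    {Pr : Set (ValuationSubring M)} (hPr : ∀ O ∈ Pr, IsDivisorial K M O)
    {u u' : ValuationSubring M → M} (u0 : ∀ O ∈ Pr, u O ≠ 0)
    (hu : ∀ O ∈ Pr, u' O ^ k / u O ^ (k - 1) ∈ O)
    (hs : ∀ O ∈ Pr, ∀ i, TwI T.dx k (fun j => (q j : M)) a (s i * u O) O)
    {r : Type} [Fintype r] {τ : r → T.X.O}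
    (hτ : ∀ φ : T.X.O, (∀ O ∈ Pr, TwI T.dx k (fun j => (q j : M)) a (φ * u' O) O) →
      (φ : M) ∈ Submodule.span K (range fun i => (τ i : M))) :
    ∀ᵐ b ∂B.D.μ, ∀ (h : MvPolynomial ν ℂ) (f : T.Fib b → ℂ), h ≠ 0 →
      (∀ p, MvPolynomial.eval ((T.fib b).π p) h ≠ 0 →
        DifferentiableAt ℂ (fun z => f ((T.fib b).sec p z)) ((T.fib b).π p)) →
      ∫⁻ p, ENNReal.ofReal (‖f p‖ ^ 2) *
        (ENNReal.ofReal (∑ i, ‖p.1 (s i)‖ ^ 2) ^ (-((k - 1) / k) : ℝ) *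
          (ENNReal.ofReal ((∑ j, ‖p.1 (q j)‖ ^ 2) ^ (a / k : ℝ)))⁻¹) ∂(T.fib b).μ < ⊤ →
      ∃ c : r → ℂ, ∀ p, MvPolynomial.eval ((T.fib b).π p) h ≠ 0 → f p = ∑ i, c i * p.1 (τ i) := by
  obtain ⟨j0, hj0⟩ := hq
  have : Nonempty κ := ⟨j0⟩
  choose j hj using fun O : ValuationSubring M => exists_top (fun j => (q j : M)) O
  have q0 : ∀ O, (q (j O) : M) ≠ 0 := fun O e => hj0 (Subtype.ext (by
    have := hj O j0
    rwa [e, map_zero, le_zero_iff, Valuation.zero_iff] at this))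
  have c0 : (0 : ℝ) ≤ a / k := by positivity
  have k0 : (0 : ℝ) < k := by exact_mod_cast hk
  have := T.satK hk (om := fun e => (∑ j, ‖e (q j)‖ ^ 2) ^ (a / k : ℝ)) (by fun_prop)
    (((Up.sos fun j => (q j).2).rpow c0).mono
      (Eventually.of_forall fun e => (ENNReal.ofReal_rpow_of_nonneg (by positivity) c0).ge)) s hPr
    (g := fun O => u O / q (j O) ^ a) (g' := fun O => u' O / q (j O) ^ a)
    (fun O hO => div_ne_zero (u0 O hO) (pow_ne_zero _ (q0 O)))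
    (fun O hO i => by rw [← mul_div_assoc]; exact (twI_iff (hj O) (q0 O)).1 (hs O hO i))
    (fun O hO => ?_) (τ := τ) fun φ hφ => hτ φ fun O hO => (twI_iff (hj O) (q0 O)).2 (by
      rw [mul_div_assoc]; exact hφ O hO)
  · simpa only [Pt.ev_coe] using this
  refine (((Up.sq (hu O hO)).rpow (c := 1 / k) (by positivity)).mul
    ((Up.sos fun i => div_mem_of_le (hj O i)).rpow c0)).mono ?_
  filter_upwards [gnr.div (u' O ^ k) (u O ^ (k - 1)), gnr.pow (u' O) k, gnr.pow (u O) (k - 1),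
    eventually_all.2 fun i => gnr.div (q i : M) (q (j O)), gnr.div (u O) (q (j O) ^ a),
    gnr.div (u' O) (q (j O) ^ a), gnr.pow (q (j O) : M) a, gnr.ne (q0 O), gnr.ne (u0 O hO)]
    with e h1 h2 h3 h4 h5 h6 h7 h8 h9
  have sq : ∀ (x : ℂ) (n : ℕ), ‖x ^ n‖ ^ 2 = (‖x‖ ^ 2) ^ (n : ℝ) := fun x n => by
    rw [norm_pow, Real.rpow_natCast, ← pow_mul, ← pow_mul, mul_comm]
  simp only [h1, h2, h3, h4, h5, h6, h7, norm_div, div_pow, sq, ← Finset.sum_div]
  have p1 : 0 < ‖e (q (j O))‖ ^ 2 := by positivity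
  have p2 : 0 < ‖e (u O)‖ ^ 2 := by positivity
  have p3 : 0 ≤ ‖e (u' O)‖ ^ 2 := by positivity
  have p4 : 0 ≤ ∑ i, ‖e (q i)‖ ^ 2 := by positivity
  generalize ‖e (q (j O))‖ ^ 2 = Q, ‖e (u O)‖ ^ 2 = U, ‖e (u' O)‖ ^ 2 = U',
    ∑ i, ‖e (q i)‖ ^ 2 = S at *
  rw [ENNReal.ofReal_rpow_of_nonneg (by positivity) (by positivity),
    ENNReal.ofReal_rpow_of_nonneg (by positivity) c0, ← ENNReal.ofReal_mul (by positivity)]
  refine ENNReal.ofReal_le_ofReal (le_of_eq ?_)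
  rw [Real.div_rpow p2.le (by positivity), Real.div_rpow (by positivity) (by positivity),
    Real.div_rpow p4 p1.le, ← Real.rpow_mul p1.le, ← Real.rpow_mul p3, ← Real.rpow_mul p2.le,
    mul_one_div_cancel k0.ne', Real.rpow_one, Nat.cast_sub hk, Nat.cast_one, mul_one_div,
    Real.rpow_neg p2.le, show (a : ℝ) * -((k - 1) / k) = a / k - a by field_simp; ring,
    Real.rpow_sub p1]
  have := Real.rpow_pos_of_pos p1 a
  have := Real.rpow_pos_of_pos p1 (a / k)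
  have := Real.rpow_pos_of_pos p2 ((k - 1) / k)
  field_simp

end Pool.Agent.Lib.MP_5c318e_ag
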