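import Pool.Agent.Lib.MP_5c318e_ag.S.SatK

/-! Real orders of vanishing of weights along a prime divisor; saturation in terms of orders. -/

set_option autoImplicit false
set_option linter.unusedSectionVars false

namespace Pool.Agent.Lib.MP_5c318e_ag

open MeasureTheory Set Filter Topology

section lg

variable {F : Type} [Field F] [Algebra ℂ F]

/-- `W ≲ |t| ^ (2 α)` near a general point of `O` -/
def Lg (O : ValuationSubring F) (t : F) (W : (F → ℂ) → ENNReal) (α : ℝ) : Prop :=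
  Up O fun e => W e * ENNReal.ofReal (‖e t‖ ^ 2) ^ (-α)

namespace Lg

variable {O : ValuationSubring F} {t φ : F} {W W' : (F → ℂ) → ENNReal} {α β : ℝ}

theorem ev_ne (ht : t ≠ 0) : ∀ᶠ e in gnr F, ENNReal.ofReal (‖e t‖ ^ 2) ≠ 0 :=
  (gnr.ne ht).mono fun e he => (ENNReal.ofReal_pos.2 (by positivity)).ne'

theorem zero_iff : Lg O t W 0 ↔ Up O W := by simp [Lg]

theorem le (h : Lg O t W α) (h' : ∀ᶠ e in gnr F, W' e ≤ W e) : Lg O t W' α :=
  Up.mono h (h'.mono fun _ he => mul_le_mul_left he _)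

theorem mul (ht : t ≠ 0) (h : Lg O t W α) (h' : Lg O t W' β) :
    Lg O t (fun e => W e * W' e) (α + β) :=
  (Up.mul h h').mono ((ev_ne ht).mono fun e he => le_of_eq (by
    rw [neg_add, ENNReal.rpow_add _ _ he ENNReal.ofReal_ne_top, mul_mul_mul_comm]))

theorem self (ht : t ≠ 0) (α : ℝ) : Lg O t (fun e => ENNReal.ofReal (‖e t‖ ^ 2) ^ α) α :=
  (Up.const ENNReal.one_ne_top).mono ((ev_ne ht).mono fun e he => le_of_eq (by
    rw [← ENNReal.rpow_add _ _ he ENNReal.ofReal_ne_top, add_neg_cancel, ENNReal.rpow_zero]))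

theorem mono (ht : t ≠ 0) (hO : t ∈ O) (h : Lg O t W α) (hβ : β ≤ α) : Lg O t W β :=
  (Up.mul h ((Up.sq hO).rpow (sub_nonneg.2 hβ))).mono ((ev_ne ht).mono fun e he => le_of_eq (by
    rw [mul_assoc, ← ENNReal.rpow_add _ _ he ENNReal.ofReal_ne_top]
    congr 2
    ring))

theorem up (ht : t ≠ 0) (hO : t ∈ O) (h : Lg O t W α) (h0 : 0 ≤ α) : Up O W :=
  zero_iff.1 (h.mono ht hO h0)

theorem const {c : ENNReal} (hc : c ≠ ⊤) : Lg O t (fun _ => c) 0 := zero_iff.2 (Up.const hc)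

theorem add (h : Lg O t W α) (h' : Lg O t W' α) : Lg O t (fun e => W e + W' e) α :=
  (Up.add h h').mono (Eventually.of_forall fun _ => (add_mul _ _ _).le)

theorem max (h : Lg O t W α) (h' : Lg O t W' α) : Lg O t (fun e => max (W e) (W' e)) α :=
  (h.add h').le (Eventually.of_forall fun _ => max_le le_self_add le_add_self)

theorem rpow (h : Lg O t W α) {c : ℝ} (hc : 0 ≤ c) : Lg O t (fun e => W e ^ c) (c * α) :=
  (Up.rpow h hc).mono (Eventually.of_forall fun e => le_of_eq (by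
    rw [ENNReal.mul_rpow_of_nonneg _ _ hc, ← ENNReal.rpow_mul, neg_mul, mul_comm α]))

theorem pow (h : Lg O t W α) (n : ℕ) : Lg O t (fun e => W e ^ n) (n * α) := by
  simpa using h.rpow n.cast_nonneg

theorem sum {κ : Type} (s : Finset κ) {V : κ → (F → ℂ) → ENNReal} (h : ∀ i ∈ s, Lg O t (V i) α) :
    Lg O t (fun e => ∑ i ∈ s, V i e) α :=
  (Up.sum s h).mono (Eventually.of_forall fun _ => (Finset.sum_mul _ _ _).le)

theorem prod (ht : t ≠ 0) {κ : Type} (s : Finset κ) {V : κ → (F → ℂ) → ENNReal} {a : κ → ℝ}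
    (h : ∀ i ∈ s, Lg O t (V i) (a i)) : Lg O t (fun e => ∏ i ∈ s, V i e) (∑ i ∈ s, a i) := by
  classical
  induction s using Finset.induction_on with
  | empty => simpa using const (c := 1) (by simp)
  | insert i s hi ih =>
    simpa only [Finset.prod_insert hi, Finset.sum_insert hi] using
      (h i (Finset.mem_insert_self _ _)).mul ht (ih fun j hj => h j (Finset.mem_insert_of_mem hj))

theorem sq_zpow (ht : t ≠ 0) (n : ℤ) : ∀ᶠ e in gnr F,
    ENNReal.ofReal (‖e (t ^ n)‖ ^ 2) = ENNReal.ofReal (‖e t‖ ^ 2) ^ (n : ℝ) := by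
  filter_upwards [gnr.zpow t n, gnr.ne ht] with e h1 h2
  rw [h1, ENNReal.ofReal_rpow_of_pos (by positivity), Real.rpow_intCast, norm_zpow,
    ← zpow_natCast, ← zpow_natCast, ← zpow_mul, ← zpow_mul, mul_comm]

theorem sq (ht : t ≠ 0) {n : ℤ} (h : O.valuation φ ≤ O.valuation t ^ n) :
    Lg O t (fun e => ENNReal.ofReal (‖e φ‖ ^ 2)) n := by
  refine (Up.sq (div_mem_of_le (x := φ) (y := t ^ n) (by rwa [map_zpow₀]))).mono ?_
  filter_upwards [gnr.div φ (t ^ n), sq_zpow ht n, gnr.ne (zpow_ne_zero n ht)] with e h1 h2 h3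
  rw [h1, norm_div, div_pow, ENNReal.ofReal_div_of_pos (by positivity), h2, ENNReal.rpow_neg,
    div_eq_mul_inv]

theorem sos (ht : t ≠ 0) {κ : Type} [Fintype κ] {f : κ → F} {n : ℤ}
    (h : ∀ i, O.valuation (f i) ≤ O.valuation t ^ n) :
    Lg O t (fun e => ENNReal.ofReal (∑ i, ‖e (f i)‖ ^ 2)) n := by
  simpa only [ENNReal.ofReal_sum_of_nonneg fun _ _ => sq_nonneg _] using
    sum Finset.univ fun i _ => sq ht (h i)

theorem sq_inv (ht : t ≠ 0) {n : ℤ} (h : O.valuation t ^ n ≤ O.valuation φ) :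
    Lg O t (fun e => (ENNReal.ofReal (‖e φ‖ ^ 2))⁻¹) (-n) := by
  have t0 : 0 < O.valuation t ^ n := zpow_pos ((Valuation.pos_iff _).2 ht) n
  have h0 : φ ≠ 0 := (Valuation.pos_iff _).1 (t0.trans_le h)
  have := sq (φ := φ⁻¹) (O := O) ht (n := -n) (by
    rw [map_inv₀, zpow_neg]; exact inv_anti₀ t0 h)
  rw [Int.cast_neg] at this
  refine this.le ?_
  filter_upwards [gnr.inv φ, gnr.ne h0] with e h1 h2
  rw [h1, norm_inv, inv_pow, ENNReal.ofReal_inv_of_pos (by positivity)]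

theorem sos_inv (ht : t ≠ 0) {κ : Type} [Fintype κ] {f : κ → F} {n : ℤ} (i : κ)
    (h : O.valuation t ^ n ≤ O.valuation (f i)) :
    Lg O t (fun e => (ENNReal.ofReal (∑ i, ‖e (f i)‖ ^ 2))⁻¹) (-n) :=
  (sq_inv ht h).le (Eventually.of_forall fun e => ENNReal.inv_le_inv.2 (ENNReal.ofReal_le_ofReal
    (Finset.single_le_sum (f := fun i => ‖e (f i)‖ ^ 2) (fun _ _ => by positivity)
      (Finset.mem_univ i))))

/-- the hypothesis of the saturation theorems -/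
theorem gam (ht : t ≠ 0) (hO : t ∈ O) (h : Lg O t (fun e => (W e)⁻¹) α) :
    Up O fun e => ENNReal.ofReal (‖e (t ^ (-⌊α⌋))‖ ^ 2) / W e :=
  ((sq ht (map_zpow₀ _ _ _).le).mul ht h).up ht hO (by
    rw [Int.cast_neg, neg_add_eq_sub, sub_nonneg]; exact Int.floor_le α)

end Lg

variable {ι : Type} [Fintype ι] [DecidableEq ι]

theorem Cht.regI_of_lg (c : Cht ι F) {W : (F → ℂ) → ENNReal} (hW : Measurable W) {φ t : F}
    {O : ValuationSubring F} (hO : IsDivisorial ℂ F O) (ht : t ≠ 0) (htO : t ∈ O) {α : ℝ}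
    (h : Lg O t (fun e => (W e)⁻¹) α)
    (hi : ∫⁻ p, ENNReal.ofReal (‖p.ev φ‖ ^ 2) * W p.ev ∂c.D.μ < ⊤) :
    RegI c.der 1 (φ * t ^ (-⌊α⌋)) O := c.regI_of_l2 hW hO (h.gam ht htO) hi

end lg

variable {δ ν K M : Type} [Fintype δ] [DecidableEq δ] [Fintype ν] [DecidableEq ν]
  [Field K] [Algebra ℂ K] [Field M] [Algebra ℂ M] [Algebra K M] [IsScalarTower ℂ K M]
  {B : Cht δ K} {W : (M → ℂ) → ENNReal}

/-- SATURATION in terms of orders: `1 / W ≲ |t| ^ (2 α)` gives `ord (φ dx) ≥ ⌊α⌋` -/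
theorem Fam.satV (T : Fam B ν M) (hW : Measurable W) (h0 : Up T.X.O fun e => (W e)⁻¹)
    {Pr : Set (ValuationSubring M)} (hPr : ∀ O ∈ Pr, IsDivisorial K M O)
    {t : ValuationSubring M → M} (ht : ∀ O ∈ Pr, t O ≠ 0 ∧ t O ∈ O) {α : ValuationSubring M → ℝ}
    (hα : ∀ O ∈ Pr, Lg O (t O) (fun e => (W e)⁻¹) (α O))
    {r : Type} [Fintype r] {τ : r → T.X.O}
    (hτ : ∀ φ : T.X.O, (∀ O ∈ Pr, RegI T.dx 1 (φ * t O ^ (-⌊α O⌋)) O) →
      (φ : M) ∈ Submodule.span K (range fun i => (τ i : M))) :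
    ∀ᵐ b ∂B.D.μ, ∀ (g : MvPolynomial ν ℂ) (u : T.Fib b → ℂ), g ≠ 0 →
      (∀ p, MvPolynomial.eval ((T.fib b).π p) g ≠ 0 →
        DifferentiableAt ℂ (fun z => u ((T.fib b).sec p z)) ((T.fib b).π p)) →
      ∫⁻ p, ENNReal.ofReal (‖u p‖ ^ 2) * W p.1.ev ∂(T.fib b).μ < ⊤ →
      ∃ a : r → ℂ, ∀ p, MvPolynomial.eval ((T.fib b).π p) g ≠ 0 → u p = ∑ i, a i * p.1 (τ i) :=
  T.satG hW h0 hPr (fun O hO => (hα O hO).gam (ht O hO).1 (ht O hO).2) hτ

end Pool.Agent.Lib.MP_5c318e_ag
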